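import Pool.Agent.QFO.Vio

/-!
# [QFO-A19] Lemma A19

There is no simple graph with 19 edges and maximum cut 12 such that every maximum cut `(X, Y)` has
`|e(X) - e(Y)| = 1` and every non-isolated vertex has more neighbours on the other side than on its own.
-/

set_option autoImplicit false
set_option linter.unusedSectionVars false

namespace Pool.Agent.QFO

open Finset Pool.Agent.MP_710317_co.Rec Pool.Agent.MXC

variable {V : Type*} [Fintype V] [DecidableEq V]

/-- the hypotheses of Lemma A19 -/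
structure G19 (W : V → V → ℤ) : Prop where
  symm : ∀ i j, W i j = W j i
  diag : ∀ i, W i i = 0
  val : ∀ i j, W i j = 0 ∨ W i j = 1
  tot : inn W univ = 38
  opt : ∀ X : Finset V, crs W X Xᶜ ≤ 12
  dif : ∀ X : Finset V, crs W X Xᶜ = 12 → |inn W X - inn W Xᶜ| = 2
  gap : ∀ X : Finset V, crs W X Xᶜ = 12 → ∀ v ∈ X, 0 < dg W v univ → dg W v X < dg W v Xᶜ

/-- exchange `u ∈ X` and `v ∉ X` -/
def swp (X : Finset V) (u v : V) : Finset V := insert v (X.erase u)

theorem swp_compl {X : Finset V} {u v : V} (hu : u ∈ X) (hv : v ∉ X) :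
    (swp X u v)ᶜ = swp Xᶜ v u := by
  ext x
  unfold swp
  simp only [mem_compl, mem_insert, mem_erase]
  by_cases h1 : x = u
  · subst h1
    have h3 : ¬ x = v := fun h => hv (h ▸ hu)
    simp [hu, h3]
  · by_cases h2 : x = v
    · subst h2
      simp [h1]
    · simp [h1, h2]

theorem dg_swp {W : V → V → ℤ} (w : V) {X : Finset V} {u v : V} (hu : u ∈ X) (hv : v ∉ X) :
    dg W w (swp X u v) = dg W w X - W w u + W w v := by
  unfold dg swp
  rw [Finset.sum_insert (fun h => hv (mem_of_mem_erase h)), ← Finset.add_sum_erase X _ hu]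
  ring

theorem crs_swp {W : V → V → ℤ} (hs : ∀ i j, W i j = W j i) (h0 : ∀ i, W i i = 0) {X : Finset V}
    {u v : V} (hu : u ∈ X) (hv : v ∉ X) : crs W (swp X u v) (swp X u v)ᶜ =
      crs W X Xᶜ + dg W u X - dg W u Xᶜ + dg W v Xᶜ - dg W v X + 2 * W u v := by
  have hu' : u ∉ Xᶜ := by simpa using hu
  have hv' : v ∈ Xᶜ := by simpa using hv
  have e1 : ∀ w, dg W w (swp X u v)ᶜ = dg W w Xᶜ - W w v + W w u := fun w => by
    rw [swp_compl hu hv, dg_swp w hv' hu']
  have e2 : crs W (swp X u v) (swp X u v)ᶜ = ∑ w ∈ swp X u v, dg W w (swp X u v)ᶜ := rfl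
  have e3 : crs W X Xᶜ = ∑ w ∈ X, dg W w Xᶜ := rfl
  have e4 : ∑ w ∈ X, W w v = dg W v X := Finset.sum_congr rfl fun w _ => hs w v
  have e5 : ∑ w ∈ X, W w u = dg W u X := Finset.sum_congr rfl fun w _ => hs w u
  rw [e2, Finset.sum_congr rfl fun w _ => e1 w]
  unfold swp
  rw [Finset.sum_insert (fun h => hv (mem_of_mem_erase h)), Finset.sum_add_distrib,
    Finset.sum_sub_distrib]
  have f1 := Finset.add_sum_erase X (fun w => dg W w Xᶜ) hu
  have f2 := Finset.add_sum_erase X (fun w => W w v) hu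
  have f3 := Finset.add_sum_erase X (fun w => W w u) hu
  rw [h0, hs v u]
  rw [e4] at f2
  rw [e5, h0] at f3
  rw [← e3] at f1
  linarith

theorem inn_swp {W : V → V → ℤ} (hs : ∀ i j, W i j = W j i) (h0 : ∀ i, W i i = 0) {X : Finset V}
    {u v : V} (hu : u ∈ X) (hv : v ∉ X) : inn W (swp X u v) =
      inn W X - 2 * dg W u X + 2 * dg W v X - 2 * W u v := by
  have e1 : ∀ w, dg W w (swp X u v) = dg W w X - W w u + W w v := fun w => dg_swp w hu hv
  have e2 : inn W (swp X u v) = ∑ w ∈ swp X u v, dg W w (swp X u v) := rfl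
  have e3 : inn W X = ∑ w ∈ X, dg W w X := rfl
  have e4 : ∑ w ∈ X, W w v = dg W v X := Finset.sum_congr rfl fun w _ => hs w v
  have e5 : ∑ w ∈ X, W w u = dg W u X := Finset.sum_congr rfl fun w _ => hs w u
  rw [e2, Finset.sum_congr rfl fun w _ => e1 w]
  unfold swp
  rw [Finset.sum_insert (fun h => hv (mem_of_mem_erase h)), Finset.sum_add_distrib,
    Finset.sum_sub_distrib]
  have f1 := Finset.add_sum_erase X (fun w => dg W w X) hu
  have f2 := Finset.add_sum_erase X (fun w => W w v) hu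
  have f3 := Finset.add_sum_erase X (fun w => W w u) hu
  rw [h0, hs v u]
  rw [e4] at f2
  rw [e5, h0] at f3
  rw [← e3] at f1
  linarith

section

variable {W : V → V → ℤ}

theorem G19.nn (h : G19 W) (i j : V) : 0 ≤ W i j := by
  rcases h.val i j with h1 | h1 <;> rw [h1] <;> norm_num

theorem G19.le (h : G19 W) (i j : V) : W i j ≤ 1 := by
  rcases h.val i j with h1 | h1 <;> rw [h1] <;> norm_num

theorem G19.dnn (h : G19 W) (v : V) (A : Finset V) : 0 ≤ dg W v A :=
  Finset.sum_nonneg fun j _ => h.nn v j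

theorem G19.le_dg (h : G19 W) {v j : V} {A : Finset V} (hj : j ∈ A) : W v j ≤ dg W v A :=
  Finset.single_le_sum (f := fun x => W v x) (fun x _ => h.nn v x) hj

/-- the active vertices of `X` -/
def ac (W : V → V → ℤ) (X : Finset V) : Finset V := X.filter fun v => 0 < dg W v univ

theorem G19.off (h : G19 W) {X : Finset V} {j : V} (hj : j ∈ X) (hj2 : j ∉ ac W X) (v : V) :
    W v j = 0 := by
  have h1 : ¬ 0 < dg W j univ := fun h' => hj2 (mem_filter.2 ⟨hj, h'⟩)
  have h2 := h.le_dg (v := j) (mem_univ v)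
  have h3 := h.nn j v
  rw [h.symm v j]
  linarith

theorem G19.dg_ac (h : G19 W) (v : V) (X : Finset V) : dg W v X = dg W v (ac W X) := by
  unfold dg
  refine (Finset.sum_subset (filter_subset _ _) fun j hj hj2 => ?_).symm
  exact h.off hj hj2 v

theorem G19.dg_off (h : G19 W) {X : Finset V} {j : V} (hj : j ∈ X) (hj2 : j ∉ ac W X)
    (A : Finset V) : dg W j A = 0 :=
  Finset.sum_eq_zero fun v _ => by rw [h.symm]; exact h.off hj hj2 v

theorem G19.sum_ac (h : G19 W) (X A : Finset V) : ∑ v ∈ X, dg W v A = ∑ v ∈ ac W X, dg W v A := by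
  refine (Finset.sum_subset (filter_subset _ _) fun j hj hj2 => ?_).symm
  exact h.dg_off hj hj2 A

theorem G19.dg_card (h : G19 W) (v : V) (A : Finset V) : dg W v A ≤ A.card := by
  unfold dg
  calc ∑ j ∈ A, W v j ≤ ∑ j ∈ A, (1 : ℤ) := Finset.sum_le_sum fun j _ => h.le v j
    _ = A.card := by simp

theorem G19.dg_card' (h : G19 W) {v : V} {A : Finset V} (hv : v ∈ A) :
    dg W v A ≤ (A.card : ℤ) - 1 := by
  have h1 : dg W v A = dg W v (A.erase v) := by
    unfold dg
    rw [← Finset.add_sum_erase A _ hv, h.diag, zero_add]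
  have h2 := h.dg_card v (A.erase v)
  have h3 := Finset.card_erase_add_one hv
  have h4 : ((A.erase v).card : ℤ) + 1 = A.card := by exact_mod_cast h3
  linarith

/-- the number of neighbours in `A` is maximal: adjacent to all -/
theorem G19.full (h : G19 W) {v : V} {A : Finset V} (hA : (A.card : ℤ) ≤ dg W v A) :
    ∀ j ∈ A, W v j = 1 := by
  intro j hj
  refine (h.val v j).resolve_left fun h0 => ?_
  have h1 : dg W v A = dg W v (A.erase j) := by
    unfold dg
    rw [← Finset.add_sum_erase A _ hj, h0, zero_add]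
  have h2 := h.dg_card v (A.erase j)
  have h3 := Finset.card_erase_add_one hj
  have h4 : ((A.erase j).card : ℤ) + 1 = A.card := by exact_mod_cast h3
  linarith

theorem G19.full' (h : G19 W) {v : V} {A : Finset V} (hv : v ∈ A)
    (hA : (A.card : ℤ) - 1 ≤ dg W v A) : ∀ j ∈ A, j ≠ v → W v j = 1 := by
  intro j hj hjv
  refine h.full (A := A.erase v) ?_ j (mem_erase.2 ⟨hjv, hj⟩)
  have h1 : dg W v A = dg W v (A.erase v) := by
    unfold dg
    rw [← Finset.add_sum_erase A _ hv, h.diag, zero_add]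
  have h3 := Finset.card_erase_add_one hv
  have h4 : ((A.erase v).card : ℤ) + 1 = A.card := by exact_mod_cast h3
  linarith

theorem G19.sk (h : G19 W) : SymK W (fun _ => 0) :=
  ⟨h.symm, fun i => by rw [h.diag]; ring, fun _ => le_rfl⟩

theorem G19.crs_compl (h : G19 W) (X : Finset V) : crs W Xᶜ Xᶜᶜ = crs W X Xᶜ := by
  rw [compl_compl]
  unfold crs
  rw [Finset.sum_comm]
  exact Finset.sum_congr rfl fun i _ => Finset.sum_congr rfl fun j _ => h.symm j i

theorem G19.split (h : G19 W) {X : Finset V} (hX : crs W X Xᶜ = 12) :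
    inn W X + inn W Xᶜ = 14 := by
  have := tot_splitK h.sk X
  rw [h.tot, hX] at this
  linarith

/-- the two sides of a maximum cut -/
theorem G19.sides (h : G19 W) {X : Finset V} (hX : crs W X Xᶜ = 12) :
    (inn W X = 8 ∧ inn W Xᶜ = 6) ∨ (inn W X = 6 ∧ inn W Xᶜ = 8) := by
  have h1 := h.split hX
  have h2 := h.dif X hX
  rcases abs_cases (inn W X - inn W Xᶜ) with ⟨h3, _⟩ | ⟨h3, _⟩
  · left; constructor <;> linarith
  · right; constructor <;> linarith

/-- the heavy side -/
theorem G19.heavy (h : G19 W) {X : Finset V} (hX : crs W X Xᶜ = 12) (h8 : inn W X = 8) :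
    (ac W X).card = 4 ∧ (∀ v ∈ ac W X, dg W v Xᶜ = dg W v X + 1) ∧
      ∑ v ∈ ac W X, dg W v X = 8 := by
  have e1 : ∑ v ∈ ac W X, dg W v X = 8 := by
    rw [← h.sum_ac X X]; exact h8
  have e2 : ∑ v ∈ ac W X, dg W v Xᶜ = 12 := by
    rw [← h.sum_ac X Xᶜ]; exact hX
  have e3 : ∀ v ∈ ac W X, 0 ≤ dg W v Xᶜ - dg W v X - 1 := by
    intro v hv
    obtain ⟨h1, h2⟩ := mem_filter.1 hv
    have := h.gap X hX v h1 h2
    linarith [Int.add_one_le_iff.2 this]
  have e4 : ∑ v ∈ ac W X, (dg W v Xᶜ - dg W v X - 1) = 4 - (ac W X).card := by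
    rw [Finset.sum_sub_distrib, Finset.sum_sub_distrib, e1, e2]
    simp
  have e5 := Finset.sum_nonneg e3
  rw [e4] at e5
  have e6 : ∀ v ∈ ac W X, dg W v X ≤ ((ac W X).card : ℤ) - 1 := by
    intro v hv
    rw [h.dg_ac v X]
    exact h.dg_card' hv
  have e7 := Finset.sum_le_sum e6
  rw [e1, Finset.sum_const, nsmul_eq_mul] at e7
  have e8 : (ac W X).card = 4 := by
    have h1 : (ac W X).card ≤ 4 := by
      have : ((ac W X).card : ℤ) ≤ 4 := by linarith
      exact_mod_cast this
    generalize (ac W X).card = n at e7 h1 ⊢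
    interval_cases n <;> first | rfl | (norm_num at e7)
  refine ⟨e8, fun v hv => ?_, e1⟩
  rw [e8] at e4
  have := (Finset.sum_eq_zero_iff_of_nonneg e3).1 (by rw [e4]; norm_num) v hv
  linarith

/-- the gap relation after an exchange -/
theorem G19.rel (h : G19 W) {X : Finset V} {u v : V} (hu : u ∈ X) (hv : v ∉ X) (w : V) :
    dg W w (swp X u v)ᶜ - dg W w (swp X u v) =
      dg W w Xᶜ - dg W w X + 2 * W w u - 2 * W w v := by
  rw [swp_compl hu hv, dg_swp w hu hv, dg_swp w (by simpa using hv) (by simpa using hu)]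
  ring

/-- the exchange of two adjacent vertices of gap 1 -/
theorem G19.swap (h : G19 W) {X : Finset V} (hX : crs W X Xᶜ = 12) (h8 : inn W X = 8) {u v : V}
    (hu : u ∈ ac W X) (hv : v ∉ X) (huv : W u v = 1) (hg : dg W v X = dg W v Xᶜ + 1) :
    crs W (swp X u v) (swp X u v)ᶜ = 12 ∧
      ((dg W v Xᶜ = dg W u X ∧ inn W (swp X u v) = 8) ∨
        (dg W v Xᶜ = dg W u X - 1 ∧ inn W (swp X u v) = 6)) := by
  have huX : u ∈ X := (mem_filter.1 hu).1
  obtain ⟨_, h2, _⟩ := h.heavy hX h8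
  have h3 := h2 u hu
  have h4 := crs_swp h.symm h.diag huX hv
  rw [hX, h3, hg, huv] at h4
  have h5 : crs W (swp X u v) (swp X u v)ᶜ = 12 := by linarith
  have h6 := inn_swp h.symm h.diag huX hv
  rw [h8, hg, huv] at h6
  refine ⟨h5, ?_⟩
  rcases h.sides h5 with ⟨h7, _⟩ | ⟨h7, _⟩
  · left; exact ⟨by linarith, h7⟩
  · right; exact ⟨by linarith, h7⟩

/-- kind (I): the neighbourhoods agree -/
theorem G19.kindI (h : G19 W) {X : Finset V} (hX : crs W X Xᶜ = 12) (h8 : inn W X = 8) {u v : V}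
    (hu : u ∈ ac W X) (hv : v ∉ X) (h1 : crs W (swp X u v) (swp X u v)ᶜ = 12)
    (h2 : inn W (swp X u v) = 8) : ∀ w ∈ X, w ≠ u → W w u = W w v := by
  intro w hw hwu
  have huX : u ∈ X := (mem_filter.1 hu).1
  by_cases hwa : w ∈ ac W X
  · have h3 := (h.heavy hX h8).2.1 w hwa
    have hw' : w ∈ ac W (swp X u v) :=
      mem_filter.2 ⟨mem_insert_of_mem (mem_erase.2 ⟨hwu, hw⟩), (mem_filter.1 hwa).2⟩
    have h4 := (h.heavy h1 h2).2.1 w hw'
    have h5 := h.rel huX hv w
    linarith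
  · have h3 := h.dg_off hw hwa univ
    have h4 := h.le_dg (v := w) (mem_univ u)
    have h5 := h.le_dg (v := w) (mem_univ v)
    have h6 := h.nn w u
    have h7 := h.nn w v
    linarith

/-- a vertex of gap 1 on the light side has a neighbour of kind (II) -/
theorem G19.kindII (h : G19 W) {X : Finset V} (hX : crs W X Xᶜ = 12) (h8 : inn W X = 8) {v : V}
    (hv : v ∉ X) (hg : dg W v X = dg W v Xᶜ + 1) :
    ∃ u ∈ ac W X, W u v = 1 ∧ dg W v Xᶜ = dg W u X - 1 ∧
      crs W (swp X u v) (swp X u v)ᶜ = 12 ∧ inn W (swp X u v) = 6 := by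
  by_contra hcon
  push Not at hcon
  obtain ⟨hc4, hgap, hsum⟩ := h.heavy hX h8
  set M : Finset V := (ac W X).filter fun u => W u v = 1 with hM
  have hMP : M ⊆ ac W X := filter_subset _ _
  -- every element of `M` is of kind (I)
  have hI : ∀ u ∈ M, ∀ w ∈ X, w ≠ u → W w u = W w v := by
    intro u hu
    obtain ⟨hu1, hu2⟩ := mem_filter.1 hu
    obtain ⟨h1, h2 | h2⟩ := h.swap hX h8 hu1 hv hu2 hg
    · exact h.kindI hX h8 hu1 hv h1 h2.2
    · exact absurd h2.2 (hcon u hu1 hu2 h2.1 h1)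
  have hMc : dg W v X = M.card := by
    rw [h.dg_ac v X]
    unfold dg
    have e1 : ∀ j ∈ ac W X, W v j = if W j v = 1 then 1 else 0 := by
      intro j _
      rw [h.symm v j]
      rcases h.val j v with h1 | h1
      · rw [h1]; norm_num
      · rw [h1]; norm_num
    rw [Finset.sum_congr rfl e1, ← Finset.sum_filter]
    simp [hM]
  -- degrees in `X` of the elements of `M`
  have hdM : ∀ u ∈ M, dg W u X = (M.card : ℤ) - 1 := by
    intro u hu
    have huX : u ∈ X := (mem_filter.1 (hMP hu)).1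
    rw [← hMc]
    unfold dg
    rw [← Finset.add_sum_erase X (fun j => W u j) huX, ← Finset.add_sum_erase X (fun j => W v j) huX,
      h.diag, h.symm v u, (mem_filter.1 hu).2]
    have e1 : ∀ j ∈ X.erase u, W u j = W v j := by
      intro j hj
      rw [h.symm u j, h.symm v j]
      exact hI u hu j (mem_of_mem_erase hj) (ne_of_mem_erase hj)
    rw [Finset.sum_congr rfl e1]
    ring
  -- degrees in `X` of the other elements
  have hdN : ∀ w ∈ ac W X \ M, dg W w X ≤ ((ac W X \ M).card : ℤ) - 1 := by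
    intro w hw
    obtain ⟨hw1, hw2⟩ := mem_sdiff.1 hw
    rw [h.dg_ac w X]
    have e1 : dg W w (ac W X) = dg W w (ac W X \ M) := by
      unfold dg
      rw [← Finset.sum_sdiff hMP]
      have e2 : ∑ j ∈ M, W w j = 0 := by
        refine Finset.sum_eq_zero fun j hj => ?_
        have hne : w ≠ j := fun h' => hw2 (h' ▸ hj)
        rw [hI j hj w (mem_filter.1 hw1).1 hne]
        exact (h.val w v).resolve_right fun h1 => hw2 (mem_filter.2 ⟨hw1, h1⟩)
      rw [e2, add_zero]
    rw [e1]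
    exact h.dg_card' hw
  have hs1 : ∑ w ∈ ac W X \ M, dg W w X + ∑ w ∈ M, dg W w X = 8 := by
    rw [Finset.sum_sdiff hMP, hsum]
  have hs2 : ∑ w ∈ M, dg W w X = M.card * ((M.card : ℤ) - 1) := by
    rw [Finset.sum_congr rfl hdM, Finset.sum_const, nsmul_eq_mul]
  have hs3 := Finset.sum_le_sum hdN
  rw [Finset.sum_const, nsmul_eq_mul] at hs3
  have hs4 : 0 ≤ ∑ w ∈ ac W X \ M, dg W w X := Finset.sum_nonneg fun w _ => h.dnn w X
  have hc1 : (ac W X \ M).card + M.card = 4 := by
    rw [← hc4]; exact Finset.card_sdiff_add_card_eq_card hMP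
  have hM1 : 1 ≤ M.card := by
    have := h.dnn v Xᶜ
    have : (1 : ℤ) ≤ M.card := by rw [← hMc, hg]; linarith
    exact_mod_cast this
  rw [hs2] at hs1
  generalize (∑ w ∈ ac W X \ M, dg W w X) = r at hs1 hs3 hs4
  generalize M.card = q at *
  generalize (ac W X \ M).card = q' at *
  have hq' : q' = 4 - q := by omega
  have hq4 : q ≤ 4 := by omega
  subst hq'
  interval_cases q <;> norm_num at hs1 hs3 <;> linarith

/-- **Lemma A19** -/
theorem G19.false (h : G19 W) {X₀ : Finset V} (hX₀ : crs W X₀ X₀ᶜ = 12) : False := by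
  -- a heavy side
  obtain ⟨X, hX, h8, h6⟩ : ∃ X : Finset V, crs W X Xᶜ = 12 ∧ inn W X = 8 ∧ inn W Xᶜ = 6 := by
    rcases h.sides hX₀ with ⟨h1, h2⟩ | ⟨h1, h2⟩
    · exact ⟨X₀, hX₀, h1, h2⟩
    · exact ⟨X₀ᶜ, by rw [h.crs_compl, hX₀], h2, by rw [compl_compl]; exact h1⟩
  obtain ⟨hc4, hgap, hsum⟩ := h.heavy hX h8
  have hXc : crs W Xᶜ X = 12 := by
    have := h.crs_compl X
    rw [compl_compl, hX] at this
    exact this
  -- the light side
  have e1 : ∑ v ∈ ac W Xᶜ, dg W v Xᶜ = 6 := by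
    rw [← h.sum_ac Xᶜ Xᶜ]; exact h6
  have e2 : ∑ v ∈ ac W Xᶜ, dg W v X = 12 := by
    rw [← h.sum_ac Xᶜ X]; exact hXc
  have e3 : ∀ v ∈ ac W Xᶜ, dg W v Xᶜ + 1 ≤ dg W v X := by
    intro v hv
    obtain ⟨h1, h2⟩ := mem_filter.1 hv
    have := h.gap Xᶜ (by rw [h.crs_compl, hX]) v h1 h2
    rw [compl_compl] at this
    exact Int.add_one_le_iff.2 this
  have e6 : ∀ v ∈ ac W Xᶜ, dg W v Xᶜ ≤ ((ac W Xᶜ).card : ℤ) - 1 := by
    intro v hv
    rw [h.dg_ac v Xᶜ]
    exact h.dg_card' hv
  have hXm : ∀ v ∈ ac W Xᶜ, v ∉ X := fun v hv => mem_compl.1 (mem_filter.1 hv).1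
  by_cases hcase : ∃ v ∈ ac W Xᶜ, dg W v X = dg W v Xᶜ + 1
  · -- Case A
    obtain ⟨v, hv, hv1⟩ := hcase
    -- consequences of kind (II)
    have hII : ∀ v ∈ ac W Xᶜ, dg W v X = dg W v Xᶜ + 1 → (ac W Xᶜ).card = 4 ∧
        ∃ u ∈ ac W X, dg W v Xᶜ = dg W u X - 1 ∧ ∀ w ∈ ac W Xᶜ, w ≠ v →
          dg W w X - dg W w Xᶜ = 1 + 2 * W w u - 2 * W w v := by
      intro v hv hv1
      have hvX := hXm v hv
      obtain ⟨u, hu, huv, hd, hc, hi⟩ := h.kindII hX h8 hvX hv1
      have huX : u ∈ X := (mem_filter.1 hu).1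
      have hc' : crs W (swp X u v)ᶜ (swp X u v)ᶜᶜ = 12 := by rw [h.crs_compl, hc]
      have hi' : inn W (swp X u v)ᶜ = 8 := by
        have := h.split hc
        linarith
      obtain ⟨g1, g2, _⟩ := h.heavy hc' hi'
      have hvc : v ∈ Xᶜ := mem_compl.2 hvX
      have huc : u ∉ Xᶜ := by simpa using huX
      have e4 : ac W (swp X u v)ᶜ = insert u ((ac W Xᶜ).erase v) := by
        rw [swp_compl huX hvX]
        ext x
        unfold ac swp
        simp only [mem_filter, mem_insert, mem_erase]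
        constructor
        · rintro ⟨h1 | ⟨h1, h2⟩, h3⟩
          · exact Or.inl h1
          · exact Or.inr ⟨h1, h2, h3⟩
        · rintro (h1 | ⟨h1, h2, h3⟩)
          · exact ⟨Or.inl h1, h1 ▸ (mem_filter.1 hu).2⟩
          · exact ⟨Or.inr ⟨h1, h2⟩, h3⟩
      have hun : u ∉ (ac W Xᶜ).erase v := fun h' =>
        huc (mem_filter.1 (mem_of_mem_erase h')).1
      have hcard : (ac W Xᶜ).card = 4 := by
        rw [e4, Finset.card_insert_of_notMem hun] at g1
        have := Finset.card_erase_add_one hv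
        omega
      refine ⟨hcard, u, hu, hd, fun w hw hwv => ?_⟩
      have hw' : w ∈ ac W (swp X u v)ᶜ := by
        rw [e4]; exact mem_insert_of_mem (mem_erase.2 ⟨hwv, hw⟩)
      have h5 := g2 w hw'
      have h6 := h.rel huX hvX w
      rw [compl_compl] at h5
      linarith
    have hc := (hII v hv hv1).1
    -- the gaps are 1 or 3
    have h13 : ∀ w ∈ ac W Xᶜ, dg W w X - dg W w Xᶜ = 1 ∨ dg W w X - dg W w Xᶜ = 3 := by
      intro w hw
      by_cases hwv : w = v
      · left; rw [hwv]; linarith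
      · obtain ⟨_, u, _, _, h1⟩ := hII v hv hv1
        have h2 := h1 w hw hwv
        have h3 := e3 w hw
        have h4 := h.nn w u
        have h5 := h.le w u
        have h6 := h.nn w v
        have h7 := h.le w v
        omega
    have hsg : ∑ w ∈ ac W Xᶜ, (dg W w X - dg W w Xᶜ - 1) = 2 := by
      rw [Finset.sum_sub_distrib, Finset.sum_sub_distrib, e1, e2]
      simp [hc]
    obtain ⟨w₀, hw₀, hg0⟩ : ∃ w ∈ ac W Xᶜ, dg W w X - dg W w Xᶜ = 3 := by
      by_contra hcon
      push Not at hcon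
      rw [Finset.sum_eq_zero fun w hw => by
        rcases h13 w hw with h1 | h1
        · linarith
        · exact absurd h1 (hcon w hw)] at hsg
      norm_num at hsg
    have hrest : ∀ w ∈ ac W Xᶜ, w ≠ w₀ → dg W w X = dg W w Xᶜ + 1 := by
      intro w hw hne
      rw [← Finset.add_sum_erase _ _ hw₀, hg0] at hsg
      have h1 : ∀ x ∈ (ac W Xᶜ).erase w₀, 0 ≤ dg W x X - dg W x Xᶜ - 1 := by
        intro x hx
        linarith [e3 x (mem_of_mem_erase hx)]
      have h2 := (Finset.sum_eq_zero_iff_of_nonneg h1).1 (by linarith) w (mem_erase.2 ⟨hne, hw⟩)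
      linarith
    -- `w₀` has no neighbour in its side
    have hw0n : ∀ w ∈ ac W Xᶜ, W w₀ w = 0 := by
      intro w hw
      by_cases hne : w = w₀
      · rw [hne, h.diag]
      · obtain ⟨_, u, _, _, h1⟩ := hII w hw (hrest w hw hne)
        have h2 := h1 w₀ hw₀ (Ne.symm hne)
        have h4 := h.le w₀ u
        have h6 := h.nn w₀ w
        linarith
    have hd0 : dg W w₀ Xᶜ = 0 := by
      rw [h.dg_ac w₀ Xᶜ]
      exact Finset.sum_eq_zero fun w hw => hw0n w hw
    have hd2 : ∀ w ∈ (ac W Xᶜ).erase w₀, dg W w Xᶜ = 2 := by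
      have h1 : ∀ w ∈ (ac W Xᶜ).erase w₀, 0 ≤ 2 - dg W w Xᶜ := by
        intro w hw
        have hw2 := mem_of_mem_erase hw
        have h2 : dg W w Xᶜ = dg W w ((ac W Xᶜ).erase w₀) := by
          rw [h.dg_ac w Xᶜ]
          unfold dg
          rw [← Finset.add_sum_erase _ _ hw₀, h.symm w w₀, hw0n w hw2, zero_add]
        have h3 := h.dg_card' hw
        have h4 := Finset.card_erase_add_one hw₀
        have h5 : ((ac W Xᶜ).erase w₀).card = 3 := by omega
        rw [h5] at h3
        push_cast at h3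
        linarith
      have h2 : ∑ w ∈ (ac W Xᶜ).erase w₀, (2 - dg W w Xᶜ) = 0 := by
        rw [Finset.sum_sub_distrib, Finset.sum_const]
        have h3 := Finset.card_erase_add_one hw₀
        have h4 : ((ac W Xᶜ).erase w₀).card = 3 := by omega
        have h5 := Finset.add_sum_erase _ (fun w => dg W w Xᶜ) hw₀
        rw [e1, hd0] at h5
        rw [h4]
        norm_num
        linarith
      intro w hw
      have := (Finset.sum_eq_zero_iff_of_nonneg h1).1 h2 w hw
      linarith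
    -- `a` with three neighbours in `X`
    have hvne : v ≠ w₀ := by
      intro h'
      rw [h'] at hv1
      linarith
    obtain ⟨_, a, ha, hda, _⟩ := hII v hv hv1
    have hdv := hd2 v (mem_erase.2 ⟨hvne, hv⟩)
    have ha3 : dg W a X = 3 := by linarith
    have hafull : ∀ j ∈ ac W X, j ≠ a → W a j = 1 := by
      refine h.full' ha ?_
      rw [← h.dg_ac a X, ha3, hc4]
      norm_num
    -- `p` with one neighbour in `X`
    obtain ⟨p, hp, hpa, hp1⟩ : ∃ p ∈ ac W X, p ≠ a ∧ dg W p X ≤ 1 := by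
      by_contra hcon
      push Not at hcon
      have h1 := Finset.add_sum_erase _ (fun w => dg W w X) ha
      rw [hsum, ha3] at h1
      have h2 : ∑ w ∈ (ac W X).erase a, (2 : ℤ) ≤ ∑ w ∈ (ac W X).erase a, dg W w X :=
        Finset.sum_le_sum fun w hw =>
          Int.add_one_le_iff.2 (hcon w (mem_of_mem_erase hw) (ne_of_mem_erase hw))
      have h3 := Finset.card_erase_add_one ha
      have h4 : ((ac W X).erase a).card = 3 := by omega
      rw [Finset.sum_const, h4] at h2
      norm_num at h2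
      linarith
    have hpX : p ∈ X := (mem_filter.1 hp).1
    have haX : a ∈ X := (mem_filter.1 ha).1
    have hp2 : dg W p X = 1 := by
      have h1 := h.le_dg (v := p) haX
      rw [h.symm p a, hafull p hp hpa] at h1
      linarith
    have hp3 := hgap p hp
    -- `p` has at most one neighbour on the other side
    have hp4 : dg W p Xᶜ ≤ 1 := by
      rw [h.dg_ac p Xᶜ]
      unfold dg
      rw [← Finset.add_sum_erase _ _ hw₀]
      rw [Finset.sum_eq_zero fun w hw => ?_, add_zero]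
      · exact h.le p w₀
      · have hw2 := mem_of_mem_erase hw
        refine (h.val p w).resolve_right fun h1 => ?_
        obtain ⟨_, h2⟩ := h.swap hX h8 hp (hXm w hw2) h1 (hrest w hw2 (ne_of_mem_erase hw))
        have h3 := hd2 w hw
        rcases h2 with ⟨h4, _⟩ | ⟨h4, _⟩ <;> linarith
    linarith
  · -- Case B
    push Not at hcase
    have e4 : ∀ v ∈ ac W Xᶜ, 0 ≤ dg W v X - dg W v Xᶜ - 2 := by
      intro v hv
      have h1 := e3 v hv
      have h2 := hcase v hv
      have h3 : dg W v Xᶜ + 1 < dg W v X := lt_of_le_of_ne h1 (Ne.symm h2)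
      linarith [Int.add_one_le_iff.2 h3]
    have e5 : ∑ v ∈ ac W Xᶜ, (dg W v X - dg W v Xᶜ - 2) = 6 - 2 * (ac W Xᶜ).card := by
      rw [Finset.sum_sub_distrib, Finset.sum_sub_distrib, e1, e2]
      simp only [Finset.sum_const, nsmul_eq_mul]
      ring
    have e7 := Finset.sum_nonneg e4
    rw [e5] at e7
    have e8 := Finset.sum_le_sum e6
    rw [e1, Finset.sum_const, nsmul_eq_mul] at e8
    have hc3 : (ac W Xᶜ).card = 3 := by
      have h1 : (ac W Xᶜ).card ≤ 3 := by
        have : ((ac W Xᶜ).card : ℤ) ≤ 3 := by linarith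
        exact_mod_cast this
      generalize (ac W Xᶜ).card = n at e8 h1 ⊢
      interval_cases n <;> first | rfl | (norm_num at e8)
    rw [hc3] at e5 e6
    have hg2 : ∀ v ∈ ac W Xᶜ, dg W v X = dg W v Xᶜ + 2 := by
      intro v hv
      have := (Finset.sum_eq_zero_iff_of_nonneg e4).1 (by rw [e5]; norm_num) v hv
      linarith
    have hd2 : ∀ v ∈ ac W Xᶜ, dg W v Xᶜ = 2 := by
      have h1 : ∀ v ∈ ac W Xᶜ, 0 ≤ 2 - dg W v Xᶜ := by
        intro v hv
        have := e6 v hv
        push_cast at this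
        linarith
      have h2 : ∑ v ∈ ac W Xᶜ, (2 - dg W v Xᶜ) = 0 := by
        rw [Finset.sum_sub_distrib, e1, Finset.sum_const, hc3]
        norm_num
      intro v hv
      have := (Finset.sum_eq_zero_iff_of_nonneg h1).1 h2 v hv
      linarith
    have hQQ : ∀ v ∈ ac W Xᶜ, ∀ j ∈ ac W Xᶜ, j ≠ v → W v j = 1 := by
      intro v hv
      refine h.full' hv ?_
      rw [← h.dg_ac v Xᶜ, hd2 v hv, hc3]
      norm_num
    have hQP : ∀ v ∈ ac W Xᶜ, ∀ j ∈ ac W X, W v j = 1 := by
      intro v hv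
      refine h.full ?_
      rw [← h.dg_ac v X, hg2 v hv, hd2 v hv, hc4]
      norm_num
    have hP3 : ∀ u ∈ ac W X, dg W u Xᶜ = 3 := by
      intro u hu
      rw [h.dg_ac u Xᶜ]
      unfold dg
      rw [Finset.sum_congr rfl fun j hj => by rw [h.symm u j, hQP j hj u hu]]
      simp [hc3]
    have hP2 : ∀ u ∈ ac W X, dg W u X = 2 := by
      intro u hu
      have h1 := hgap u hu
      rw [hP3 u hu] at h1
      linarith
    -- two non-adjacent vertices of `P`
    obtain ⟨u, hu⟩ : (ac W X).Nonempty := Finset.card_pos.1 (by omega)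
    obtain ⟨u', hu', huu', hW0⟩ : ∃ u' ∈ ac W X, u' ≠ u ∧ W u u' = 0 := by
      by_contra hcon
      push Not at hcon
      have h1 : dg W u X = 3 := by
        rw [h.dg_ac u X]
        unfold dg
        rw [← Finset.add_sum_erase _ _ hu, h.diag,
          Finset.sum_congr rfl fun j hj =>
            (h.val u j).resolve_left (hcon j (mem_of_mem_erase hj) (ne_of_mem_erase hj))]
        have h3 := Finset.card_erase_add_one hu
        have h4 : ((ac W X).erase u).card = 3 := by omega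
        simp [h4]
      rw [hP2 u hu] at h1
      norm_num at h1
    -- two vertices of `Q`
    obtain ⟨v, hv, v', hv', hvv'⟩ : ∃ v ∈ ac W Xᶜ, ∃ v' ∈ ac W Xᶜ, v ≠ v' :=
      Finset.one_lt_card.1 (by omega)
    have huX : u ∈ X := (mem_filter.1 hu).1
    have hu'X : u' ∈ X := (mem_filter.1 hu').1
    have hvX := hXm v hv
    have hv'X := hXm v' hv'
    have w1 : W u v = 1 := by rw [h.symm]; exact hQP v hv u hu
    have w2 : W u' v = 1 := by rw [h.symm]; exact hQP v hv u' hu'
    have w3 : W v' u = 1 := hQP v' hv' u hu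
    have w4 : W u' v' = 1 := by rw [h.symm]; exact hQP v' hv' u' hu'
    have w5 : W v' v = 1 := hQQ v' hv' v hv hvv'
    have c1 := crs_swp h.symm h.diag huX hvX
    have i1 := inn_swp h.symm h.diag huX hvX
    rw [hX, hP2 u hu, hP3 u hu, hg2 v hv, hd2 v hv, w1] at c1
    rw [h8, hP2 u hu, hg2 v hv, hd2 v hv, w1] at i1
    have hu'2 : u' ∈ swp X u v := mem_insert_of_mem (mem_erase.2 ⟨huu', hu'X⟩)
    have hv'2 : v' ∉ swp X u v := by
      intro h'
      rcases mem_insert.1 h' with h1 | h1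
      · exact hvv' h1.symm
      · exact hv'X (mem_of_mem_erase h1)
    have c2 := crs_swp h.symm h.diag hu'2 hv'2
    have i2 := inn_swp h.symm h.diag hu'2 hv'2
    have hvc : v ∈ Xᶜ := mem_compl.2 hvX
    have huc : u ∉ Xᶜ := by simpa using huX
    have d1 := dg_swp (W := W) u' huX hvX
    have d2 := dg_swp (W := W) v' huX hvX
    have d3 := dg_swp (W := W) u' hvc huc
    have d4 := dg_swp (W := W) v' hvc huc
    rw [← swp_compl huX hvX] at d3 d4
    rw [hP2 u' hu', h.symm u' u, hW0, w2] at d1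
    rw [hg2 v' hv', hd2 v' hv', w3, w5] at d2
    rw [hP3 u' hu', w2, h.symm u' u, hW0] at d3
    rw [hd2 v' hv', w5, w3] at d4
    rw [c1, d1, d2, d3, d4, w4] at c2
    rw [i1, d1, d2, w4] at i2
    norm_num at c2 i2
    rcases h.sides c2 with ⟨h1, _⟩ | ⟨h1, _⟩ <;> linarith

end

end Pool.Agent.QFO
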