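import Pool.Agent.QFO.VBase

/-!
# [QFO-BK] the B part at the vertex level without loops (any number of classes)

Tight block rule: if `T a + T b = s` for a maximum cut with `a`, `b` edges in the two sides then every pair of
optimal cuts of the two sides gives two maximum cuts; a vertex with gap `0` in an optimal cut of one side has
degree at most `2 max |d|`.
-/

set_option autoImplicit false
set_option linter.unusedSectionVars false

namespace Pool.Agent.QFO

open Finset Pool.Agent.MP_710317_co.Rec Pool.Agent.MXC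

variable {V : Type*} [Fintype V] [DecidableEq V]

/-- adjacency matrix of a graph -/
structure Sim (W : V → V → ℤ) : Prop where
  symm : ∀ i j, W i j = W j i
  diag : ∀ i, W i i = 0
  nn : ∀ i j, 0 ≤ W i j
  le : ∀ i j, W i j ≤ 1

section

variable {W : V → V → ℤ}

theorem Sim.sk (h : Sim W) : SymK W (fun _ => 0) :=
  ⟨h.symm, fun i => by rw [h.diag]; ring, fun _ => le_rfl⟩

theorem Sim.crs_symm (h : Sim W) (A B : Finset V) : crs W A B = crs W B A := by
  unfold crs
  rw [Finset.sum_comm]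
  exact Finset.sum_congr rfl fun i _ => Finset.sum_congr rfl fun j _ => h.symm j i

theorem Sim.dg_erase (h : Sim W) (v : V) (A : Finset V) : dg W v (A.erase v) = dg W v A := by
  unfold dg
  by_cases hv : v ∈ A
  · rw [← Finset.add_sum_erase A _ hv, h.diag, zero_add]
  · rw [Finset.erase_eq_of_notMem hv]

theorem Sim.dg_nn (h : Sim W) (v : V) (A : Finset V) : 0 ≤ dg W v A :=
  Finset.sum_nonneg fun j _ => h.nn v j

theorem Sim.dg_le_card (h : Sim W) (v : V) (A : Finset V) : dg W v A ≤ A.card := by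
  unfold dg
  calc ∑ j ∈ A, W v j ≤ ∑ j ∈ A, (1 : ℤ) := Finset.sum_le_sum fun j _ => h.le v j
    _ = A.card := by simp

theorem Sim.crs_move (h : Sim W) (X : Finset V) {v : V} (hv : v ∈ X) :
    crs W (X.erase v) (X.erase v)ᶜ = crs W X Xᶜ + dg W v X - dg W v Xᶜ := by
  rw [crsK_erase h.sk X hv, ← h.dg_erase v X]
  rfl

theorem Sim.tot (h : Sim W) {m : ℤ} (hm : inn W univ = 2 * m) (X : Finset V) :
    inn W X + inn W Xᶜ + 2 * crs W X Xᶜ = 2 * m := by
  have h1 := tot_splitK h.sk X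
  linarith

theorem Sim.msk (h : Sim W) (R : Finset V) : Sim (msk W R) := by
  refine ⟨fun i j => ?_, fun i => ?_, fun i j => ?_, fun i j => ?_⟩
  · unfold QFO.msk
    by_cases h1 : i ∈ R ∧ j ∈ R
    · rw [if_pos h1, if_pos h1.symm, h.symm]
    · rw [if_neg h1, if_neg (fun h2 => h1 h2.symm)]
  · unfold QFO.msk
    split
    · exact h.diag i
    · rfl
  · unfold QFO.msk
    split
    · exact h.nn i j
    · exact le_rfl
  · unfold QFO.msk
    split
    · exact h.le i j
    · norm_num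

/-- the mass of a side of a cut and its gap sum force a vertex of gap `0` with an inner edge -/
theorem zg_side (h : Sim W) {X : Finset V} {e x : ℤ} (hX : inn W X = 2 * e)
    (hc : crs W X Xᶜ = x) (hle : ∀ v ∈ X, dg W v X ≤ dg W v Xᶜ) (he : 0 < e)
    (hnum : x - 2 * e ≤ 0 ∨ (x - 2 * e) * (x - 2 * e - 1) < 2 * e) :
    ∃ v ∈ X, dg W v X = dg W v Xᶜ ∧ 0 < dg W v X := by
  by_contra hcon
  push Not at hcon
  set Q := X.filter fun v => 0 < dg W v X with hQ
  have hQX : Q ⊆ X := filter_subset _ _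
  have h1 : (Q.card : ℤ) ≤ x - 2 * e := by
    have e1 : ∑ v ∈ X, (dg W v Xᶜ - dg W v X) = x - 2 * e := by
      rw [Finset.sum_sub_distrib]
      have e2 : ∑ v ∈ X, dg W v Xᶜ = crs W X Xᶜ := rfl
      have e3 : ∑ v ∈ X, dg W v X = inn W X := rfl
      rw [e2, e3, hX, hc]
    rw [← e1]
    calc (Q.card : ℤ) = ∑ v ∈ Q, (1 : ℤ) := by simp
      _ ≤ ∑ v ∈ Q, (dg W v Xᶜ - dg W v X) := by
          refine Finset.sum_le_sum fun v hv => ?_
          obtain ⟨h2, h3⟩ := mem_filter.1 hv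
          have h4 := hle v h2
          rcases eq_or_lt_of_le h4 with h5 | h5
          · have := hcon v h2 h5; linarith
          · linarith [Int.add_one_le_iff.2 h5]
      _ ≤ _ := Finset.sum_le_sum_of_subset_of_nonneg hQX fun v hv _ => by linarith [hle v hv]
  have h2 : inn W X = ∑ v ∈ Q, dg W v Q := by
    have e1 : inn W X = ∑ v ∈ X, dg W v X := rfl
    rw [e1, ← Finset.sum_subset hQX fun v hv hv2 => ?_]
    · refine Finset.sum_congr rfl fun v hv => ?_
      unfold dg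
      refine (Finset.sum_subset hQX fun j hj hj2 => ?_).symm
      have h3 : dg W j X = 0 := by
        by_contra hne
        exact hj2 (mem_filter.2 ⟨hj, lt_of_le_of_ne (h.dg_nn j X) (Ne.symm hne)⟩)
      have h4 : W j v ≤ dg W j X :=
        Finset.single_le_sum (f := fun x => W j x) (fun x _ => h.nn j x) (hQX hv)
      have h5 := h.nn j v
      rw [h.symm v j]
      linarith
    · by_contra hne
      exact hv2 (mem_filter.2 ⟨hv, lt_of_le_of_ne (h.dg_nn v X) (Ne.symm hne)⟩)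
  have h3 : ∀ v ∈ Q, dg W v Q ≤ (Q.card : ℤ) - 1 := by
    intro v hv
    rw [← h.dg_erase]
    have h4 := h.dg_le_card v (Q.erase v)
    have h5 := Finset.card_erase_add_one hv
    have h6 : ((Q.erase v).card : ℤ) + 1 = Q.card := by exact_mod_cast h5
    linarith
  have h4 := Finset.sum_le_sum h3
  rw [← h2, hX, Finset.sum_const, nsmul_eq_mul] at h4
  have h5 : (0 : ℤ) ≤ Q.card := Int.natCast_nonneg _
  have h6 : Q.card ≠ 0 := by
    intro h7
    rw [h7] at h4
    push_cast at h4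
    linarith
  have h7 : (1 : ℤ) ≤ Q.card := by
    have : 1 ≤ Q.card := Nat.one_le_iff_ne_zero.2 h6
    exact_mod_cast this
  rcases hnum with h8 | h8
  · linarith
  · have h9 : (Q.card : ℤ) * (Q.card - 1) ≤ (x - 2 * e) * (x - 2 * e - 1) :=
      mul_le_mul h1 (by linarith) (by linarith) (by linarith)
    linarith

/-- a zero-gap vertex in an optimal cut of an extremal graph -/
theorem zg (h : Sim W) {r t x y : ℤ} (hr : inn W univ = 2 * r) (hs : Sb W t) (hT : T r = t)
    (hx : r + t = 2 * x) (hy : r - t = 2 * y)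
    (hnum : ∀ e1 e2 : ℤ, e1 + e2 = y → e2 ≤ e1 → 0 ≤ e2 → T e1 + T e2 ≤ t →
      0 < e1 ∧ (x - 2 * e1 ≤ 0 ∨ (x - 2 * e1) * (x - 2 * e1 - 1) < 2 * e1)) :
    ∃ (X : Finset V) (v : V), v ∈ X ∧ crs W X Xᶜ = x ∧ dg W v X = dg W v Xᶜ ∧ 0 < dg W v X := by
  have hopt : ∀ X, crs W X Xᶜ ≤ x := by
    intro X
    have h3 := hs _ (sg_sign X)
    rw [en_sg h.sk X, hr] at h3
    linarith
  obtain ⟨e, he, h1⟩ := exists_sign h.sk hr
  simp only [Finset.sum_const_zero, add_zero] at h1
  rw [hT] at h1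
  -- both orientations
  have key : ∀ X : Finset V, crs W X Xᶜ = x → inn W Xᶜ ≤ inn W X →
      ∃ (X : Finset V) (v : V), v ∈ X ∧ crs W X Xᶜ = x ∧ dg W v X = dg W v Xᶜ ∧ 0 < dg W v X := by
    intro X hX hXX
    obtain ⟨e1, he1⟩ := inn_even h.sk X
    obtain ⟨e2, he2⟩ := inn_even h.sk Xᶜ
    have h2 := h.tot hr X
    rw [hX, he1, he2] at h2
    have h3 := block h.sk hs X he1 he2
    simp only [Finset.sum_const_zero, add_zero] at h3
    have h4 : 0 ≤ inn W Xᶜ := Finset.sum_nonneg fun i _ => Finset.sum_nonneg fun j _ => h.nn i j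
    rw [he2] at h4
    rw [he1, he2] at hXX
    obtain ⟨h5, h6⟩ := hnum e1 e2 (by linarith) (by linarith) (by linarith) h3
    obtain ⟨v, hv, h7, h8⟩ := zg_side h he1 hX (fun v hv => by
      have := hopt (X.erase v)
      rw [h.crs_move X hv, hX] at this
      linarith) h5 h6
    exact ⟨X, v, hv, hX, h7, h8⟩
  set X := pos e with hXd
  have hX : crs W X Xᶜ = x := by
    have h2 := en_sg h.sk X
    rw [hXd, sg_pos he, hr] at h2
    have h3 := hopt X
    rw [hXd] at h3 ⊢
    linarith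
  rcases le_total (inn W Xᶜ) (inn W X) with h2 | h2
  · exact key X hX h2
  · refine key Xᶜ ?_ (by rw [compl_compl]; exact h2)
    rw [compl_compl, h.crs_symm, hX]

theorem msk_crs (R X : Finset V) : crs (msk W R) X Xᶜ = crs W (X ∩ R) (R \ X) := by
  have h1 : ∀ (f : V → V → ℤ), crs (msk W R) X Xᶜ = ∑ i ∈ X, ∑ j ∈ Xᶜ, msk W R i j := fun _ => rfl
  unfold crs
  have e1 : ∀ i ∈ X, ∑ j ∈ Xᶜ, msk W R i j = if i ∈ R then ∑ j ∈ R \ X, W i j else 0 := by
    intro i _
    by_cases hi : i ∈ R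
    · rw [if_pos hi]
      have e2 : ∀ j ∈ Xᶜ, msk W R i j = if j ∈ R then W i j else 0 := by
        intro j _
        unfold msk
        by_cases hj : j ∈ R
        · rw [if_pos ⟨hi, hj⟩, if_pos hj]
        · rw [if_neg (fun h => hj h.2), if_neg hj]
      rw [Finset.sum_congr rfl e2, Finset.sum_ite_mem]
      congr 1
      ext j
      simp only [mem_inter, mem_compl, mem_sdiff]
      tauto
    · rw [if_neg hi]
      refine Finset.sum_eq_zero fun j _ => ?_
      unfold msk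
      rw [if_neg (fun h => hi h.1)]
  rw [Finset.sum_congr rfl e1, Finset.sum_ite_mem]

theorem msk_dg {R : Finset V} {v : V} (hv : v ∈ R) (X : Finset V) :
    dg (msk W R) v X = dg W v (X ∩ R) := by
  unfold dg
  have e2 : ∀ j ∈ X, msk W R v j = if j ∈ R then W v j else 0 := by
    intro j _
    unfold msk
    by_cases hj : j ∈ R
    · rw [if_pos ⟨hv, hj⟩, if_pos hj]
    · rw [if_neg (fun h => hj h.2), if_neg hj]
  rw [Finset.sum_congr rfl e2, Finset.sum_ite_mem]

theorem msk_dg0 {R : Finset V} {v : V} (hv : v ∉ R) (X : Finset V) :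
    dg (msk W R) v X = 0 := by
  unfold dg
  refine Finset.sum_eq_zero fun j _ => ?_
  unfold msk
  rw [if_neg (fun h => hv h.1)]

/-- a maximum cut of `R` -/
theorem side_opt (h : Sim W) (R : Finset V) {r : ℤ} (hr : inn W R = 2 * r) :
    ∃ X, X ⊆ R ∧ r + T r ≤ 2 * crs W X (R \ X) := by
  obtain ⟨e, he, h1⟩ := exists_sign (h.msk R).sk (m := r) (by rw [msk_inn]; exact hr)
  simp only [Finset.sum_const_zero, add_zero] at h1
  have h2 := en_sg (h.msk R).sk (pos e)
  rw [sg_pos he, msk_inn, hr, msk_crs] at h2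
  refine ⟨pos e ∩ R, Finset.inter_subset_right, ?_⟩
  have h3 : R \ (pos e ∩ R) = R \ pos e := by
    ext j
    simp only [mem_inter, mem_sdiff]
    tauto
  rw [h3]
  linarith

/-- combination of cuts of the two sides of a maximum cut -/
theorem combineM (h : Sim W) {M m : ℤ} (hm : inn W univ = 2 * m)
    (hopt : ∀ X, crs W X Xᶜ ≤ M) {S : Finset V} (hS : crs W S Sᶜ = M)
    {X Y : Finset V} (hX : X ⊆ S) (hY : Y ⊆ Sᶜ) :
    2 * crs W X (S \ X) + 2 * crs W Y (Sᶜ \ Y) ≤ M ∧
    (2 * crs W X (S \ X) + 2 * crs W Y (Sᶜ \ Y) = M → crs W (X ∪ Y) (X ∪ Y)ᶜ = M ∧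
      inn W (X ∪ Y) - inn W (X ∪ Y)ᶜ = 2 * crs W X univ + 2 * crs W Y univ - 2 * m) := by
  have hdS : Disjoint S Sᶜ := disjoint_compl_right
  have hXX : Disjoint X (S \ X) := Finset.disjoint_sdiff
  have hYY : Disjoint Y (Sᶜ \ Y) := Finset.disjoint_sdiff
  have huX : X ∪ (S \ X) = S := Finset.union_sdiff_of_subset hX
  have huY : Y ∪ (Sᶜ \ Y) = Sᶜ := Finset.union_sdiff_of_subset hY
  have hXY : Disjoint X Y := Finset.disjoint_of_subset_left hX (Finset.disjoint_of_subset_right hY hdS)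
  have hX2 : S \ X ⊆ S := Finset.sdiff_subset
  have hY2 : Sᶜ \ Y ⊆ Sᶜ := Finset.sdiff_subset
  have hXY2 : Disjoint X (Sᶜ \ Y) :=
    Finset.disjoint_of_subset_left hX (Finset.disjoint_of_subset_right hY2 hdS)
  have h22 : Disjoint (S \ X) (Sᶜ \ Y) :=
    Finset.disjoint_of_subset_left hX2 (Finset.disjoint_of_subset_right hY2 hdS)
  have h21 : Disjoint (S \ X) Y :=
    Finset.disjoint_of_subset_left hX2 (Finset.disjoint_of_subset_right hY hdS)
  -- complements
  have hc1 : (X ∪ Y)ᶜ = (S \ X) ∪ (Sᶜ \ Y) := by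
    ext v
    simp only [mem_compl, mem_union, mem_sdiff]
    constructor
    · intro h1
      by_cases h2 : v ∈ S
      · exact Or.inl ⟨h2, fun h3 => h1 (Or.inl h3)⟩
      · exact Or.inr ⟨h2, fun h3 => h1 (Or.inr h3)⟩
    · rintro (⟨h1, h2⟩ | ⟨h1, h2⟩) (h3 | h3)
      · exact h2 h3
      · exact (mem_compl.1 (hY h3)) h1
      · exact h1 (hX h3)
      · exact h2 h3
  have hc2 : (X ∪ (Sᶜ \ Y))ᶜ = (S \ X) ∪ Y := by
    ext v
    simp only [mem_compl, mem_union, mem_sdiff]
    constructor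
    · intro h1
      by_cases h2 : v ∈ S
      · exact Or.inl ⟨h2, fun h3 => h1 (Or.inl h3)⟩
      · by_cases h3 : v ∈ Y
        · exact Or.inr h3
        · exact absurd (Or.inr ⟨h2, h3⟩) h1
    · rintro (⟨h1, h2⟩ | h1) (h3 | ⟨h3, h4⟩)
      · exact h2 h3
      · exact h3 h1
      · exact (mem_compl.1 (hY h1)) (hX h3)
      · exact h4 h1
  have e1 : crs W (X ∪ Y) (X ∪ Y)ᶜ = crs W X (S \ X) + crs W X (Sᶜ \ Y) + crs W Y (S \ X) +
      crs W Y (Sᶜ \ Y) := by
    rw [hc1, crs_union_left hXY, crs_union_right _ h22, crs_union_right _ h22]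
    ring
  have e2 : crs W (X ∪ (Sᶜ \ Y)) (X ∪ (Sᶜ \ Y))ᶜ = crs W X (S \ X) + crs W X Y +
      crs W (Sᶜ \ Y) (S \ X) + crs W Y (Sᶜ \ Y) := by
    rw [hc2, crs_union_left hXY2, crs_union_right _ h21, crs_union_right _ h21,
      h.crs_symm (Sᶜ \ Y) Y]
    ring
  have e3 : crs W S Sᶜ = crs W X Y + crs W X (Sᶜ \ Y) + crs W Y (S \ X) +
      crs W (Sᶜ \ Y) (S \ X) := by
    calc crs W S Sᶜ = crs W (X ∪ (S \ X)) (Y ∪ (Sᶜ \ Y)) := by rw [huX, huY]
      _ = _ := by
        rw [crs_union_left hXX, crs_union_right _ hYY, crs_union_right _ hYY, h.crs_symm (S \ X) Y,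
          h.crs_symm (S \ X) (Sᶜ \ Y)]
        ring
  have o1 := hopt (X ∪ Y)
  have o2 := hopt (X ∪ (Sᶜ \ Y))
  rw [e1] at o1
  rw [e2] at o2
  rw [hS] at e3
  refine ⟨by linarith, fun heq => ⟨by rw [e1]; linarith, ?_⟩⟩
  have h1 := h.tot hm (X ∪ Y)
  have h2 : crs W (X ∪ Y) univ = inn W (X ∪ Y) + crs W (X ∪ Y) (X ∪ Y)ᶜ := by
    rw [← Finset.union_compl (X ∪ Y), crs_union_right _ (disjoint_compl_right (a := X ∪ Y))]
    rfl
  rw [crs_union_left hXY] at h2
  linarith

/-- [QFO-BK] the kill criterion for the B part: `R` is one side of a maximum cut with `r` edges, the other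
side has `r'` edges, `T r + T r' = s` -/
theorem bkill (h : Sim W) {m s r r' x y : ℤ} (hm : inn W univ = 2 * m) (hs : Sb W s)
    {R : Finset V} (hR : inn W R = 2 * r) (hR' : inn W Rᶜ = 2 * r')
    (hcut : 2 * crs W R Rᶜ = m + s) (htight : T r + T r' = s)
    (hx : r + T r = 2 * x) (hy : r - T r = 2 * y)
    (hnum : ∀ e1 e2 : ℤ, e1 + e2 = y → e2 ≤ e1 → 0 ≤ e2 → T e1 + T e2 ≤ T r →
      0 < e1 ∧ (x - 2 * e1 ≤ 0 ∨ (x - 2 * e1) * (x - 2 * e1 - 1) < 2 * e1)) :
    ∃ X, 2 * crs W X Xᶜ = m + s ∧ 2 * 2 ≤ |inn W X - inn W Xᶜ| := by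
  have hopt : ∀ X, crs W X Xᶜ ≤ crs W R Rᶜ := by
    intro X
    have h3 := hs _ (sg_sign X)
    rw [en_sg h.sk X, hm] at h3
    linarith
  have htot := h.tot hm R
  rw [hR, hR'] at htot
  -- an optimal cut of the other side
  obtain ⟨Y, hY, hYc⟩ := side_opt h Rᶜ hR'
  -- the side `R` is extremal
  have hSbR : Sb (msk W R) (T r) := by
    intro e he
    have h1 := en_sg (h.msk R).sk (pos e)
    rw [sg_pos he, msk_inn, hR, msk_crs] at h1
    have h2 := (combineM h hm hopt rfl (X := pos e ∩ R) Finset.inter_subset_right hY).1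
    have h3 : R \ (pos e ∩ R) = R \ pos e := by
      ext j
      simp only [mem_inter, mem_sdiff]
      tauto
    rw [h3] at h2
    rw [h1]
    linarith
  obtain ⟨X, v, hvX, hXc, hg, hpos⟩ := zg (h.msk R) (by rw [msk_inn]; exact hR) hSbR rfl hx hy hnum
  have hvR : v ∈ R := by
    by_contra hv
    rw [msk_dg0 hv] at hpos
    linarith
  rw [msk_crs] at hXc
  rw [msk_dg hvR, msk_dg hvR] at hg
  rw [msk_dg hvR] at hpos
  set X1 := X ∩ R with hX1
  have hX1R : X1 ⊆ R := Finset.inter_subset_right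
  have hvX1 : v ∈ X1 := mem_inter.2 ⟨hvX, hvR⟩
  have hR1 : R \ X = R \ X1 := by
    ext j
    simp only [hX1, mem_inter, mem_sdiff]
    tauto
  have hR2 : Xᶜ ∩ R = R \ X1 := by
    ext j
    simp only [hX1, mem_inter, mem_sdiff, mem_compl]
    tauto
  rw [hR1] at hXc
  rw [hR2] at hg
  -- the two maximum cuts
  have c1 := combineM h hm hopt rfl hX1R hY
  have hYc2 : 2 * crs W Y (Rᶜ \ Y) = r' + T r' := by
    have := c1.1
    rw [hXc] at this
    linarith
  obtain ⟨a1, a2⟩ := c1.2 (by rw [hXc]; linarith)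
  set X2 := X1.erase v with hX2
  have hX2R : X2 ⊆ R := (Finset.erase_subset v X1).trans hX1R
  have hX2c : crs W X2 (R \ X2) = x := by
    -- move `v` in the side
    have e1 := (h.msk R).crs_move X hvX
    rw [msk_crs, msk_crs, msk_dg hvR, msk_dg hvR, hR2, ← hX1, hR1, hXc, hg] at e1
    have e2 : X.erase v ∩ R = X2 := by
      ext j
      simp only [hX2, hX1, mem_inter, mem_erase]
      tauto
    have e3 : R \ X.erase v = R \ X2 := by
      ext j
      simp only [hX2, hX1, mem_inter, mem_erase, mem_sdiff]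
      tauto
    rw [e2, e3] at e1
    linarith
  have c2 := combineM h hm hopt rfl hX2R hY
  obtain ⟨b1, b2⟩ := c2.2 (by rw [hX2c]; linarith)
  have hdeg : crs W X1 univ = crs W X2 univ + dg W v univ := by
    unfold crs
    rw [← Finset.add_sum_erase X1 _ hvX1]
    simp only [dg, hX2]
    ring
  -- the degree of `v`
  have hd4 : 4 ≤ dg W v univ := by
    have e1 : dg W v univ = dg W v R + dg W v Rᶜ := by
      rw [← dg_union v (disjoint_compl_right (a := R)), Finset.union_compl]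
    have e2 : dg W v R = dg W v X1 + dg W v (R \ X1) := by
      rw [← dg_union v Finset.disjoint_sdiff, Finset.union_sdiff_of_subset hX1R]
    have e3 : dg W v R ≤ dg W v Rᶜ := by
      have := hopt (R.erase v)
      rw [h.crs_move R hvR] at this
      linarith
    have e4 := Int.add_one_le_iff.2 hpos
    linarith
  by_contra hcon
  push Not at hcon
  have f1 := hcon (X1 ∪ Y) (by rw [a1]; exact hcut)
  have f2 := hcon (X2 ∪ Y) (by rw [b1]; exact hcut)
  rw [a2] at f1
  rw [b2] at f2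
  rw [abs_lt] at f1 f2
  linarith [f1.1, f1.2, f2.1, f2.2]

end

/-- from maximum cuts to signs, B part, odd `u` -/
theorem base_of_bkill {m u s a b : ℤ} (hT : T m = s) (hu : m - s = 2 * u) (hab : a + b = u)
    (hab1 : a - b = 1)
    (hkill : ∀ (W : V → V → ℤ), Sim W → inn W univ = 2 * m → Sb W s → ∀ R : Finset V,
      inn W R = 2 * a → inn W Rᶜ = 2 * b → 2 * crs W R Rᶜ = m + s →
      ∃ X, 2 * crs W X Xᶜ = m + s ∧ 2 * 2 ≤ |inn W X - inn W Xᶜ|)
    {W : V → V → ℤ} {k : V → ℤ} (h : OO W k) (hK : ∑ i, k i = 0) (hm : inn W univ = 2 * m)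
    (hs : Sb W s) : ∃ e : V → ℤ, IsSign e ∧ en W e = 2 * s ∧ 2 * 3 ≤ |df W e| := by
  subst hT
  have hw : SymK W k := h.toSymK
  have hk0 : ∀ i, k i = 0 := fun i =>
    (Finset.sum_eq_zero_iff_of_nonneg fun a _ => h.knn a).1 hK i (mem_univ i)
  have hsim : Sim W := by
    refine ⟨hw.symm, fun i => by rw [hw.diag, hk0]; ring, fun i j => ?_, fun i j => ?_⟩
    · by_cases hij : i = j
      · rw [hij, hw.diag, hk0]; norm_num
      · exact h.nn i j hij
    · by_cases hij : i = j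
      · rw [hij, hw.diag, hk0]; norm_num
      · have := h.le i j hij
        rw [hk0, hk0] at this
        linarith
  -- parity: `|d| ≥ 2` gives `|d| ≥ 3`
  have hpar : ∀ e : V → ℤ, IsSign e → en W e = 2 * T m → 2 * 2 ≤ |df W e| → 2 * 3 ≤ |df W e| := by
    intro e he h1 h2
    obtain ⟨l, hl⟩ := df_par hw hu hm he h1
    have hu1 : u = 2 * b + 1 := by linarith
    rw [hl, hu1] at h2 ⊢
    rcases abs_cases (2 * (2 * b + 1) + 4 * l) with ⟨h3, _⟩ | ⟨h3, _⟩ <;> rw [h3] at h2 ⊢ <;> omega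
  obtain ⟨e, he, h1⟩ := exists_opt hw hm hs
  by_cases hbig : 2 * 2 ≤ |df W e|
  · exact ⟨e, he, h1, hpar e he h1 hbig⟩
  · rw [not_le] at hbig
    obtain ⟨l, hl⟩ := df_par hw hu hm he h1
    have hu1 : u = 2 * b + 1 := by linarith
    -- the heavy side
    obtain ⟨R, hR, hR1⟩ : ∃ R : Finset V, en W (sg R) = 2 * T m ∧ df W (sg R) = 2 := by
      have h2 : df W e = 2 ∨ df W e = -2 := by
        rw [hl, hu1] at hbig ⊢
        rw [abs_lt] at hbig
        omega
      rcases h2 with h2 | h2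
      · exact ⟨pos e, by rw [sg_pos he]; exact h1, by rw [sg_pos he]; exact h2⟩
      · refine ⟨pos (fun i => - e i), ?_, ?_⟩
        · rw [sg_pos (neg_sign he), en_neg]; exact h1
        · rw [sg_pos (neg_sign he), df_neg, h2]; norm_num
    have h3 := en_sg hw R
    rw [hR, hm] at h3
    have h4 := df_sg W hw R
    rw [hR1] at h4
    have h5 := hsim.tot hm R
    obtain ⟨X, hX1, hX2⟩ := hkill W hsim hm hs R (by linarith) (by linarith) (by linarith)
    have h6 : en W (sg X) = 2 * T m := by rw [en_sg hw X, hm]; linarith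
    refine ⟨sg X, sg_sign X, h6, hpar _ (sg_sign X) h6 ?_⟩
    rw [df_sg W hw X]
    exact hX2

/-- (41), K = 0 -/
theorem base_B_41_0 {W : V → V → ℤ} {k : V → ℤ} (h : OO W k) (hK : ∑ i, k i = 0)
    (hm : inn W univ = 2 * 41) (hs : Sb W 7) :
    ∃ e : V → ℤ, IsSign e ∧ en W e = 2 * 7 ∧ 2 * 3 ≤ |df W e| := by
  have t9 : T 9 = 3 := T_val 9 3 (by norm_num) (by decide +kernel)
  have t8 : T 8 = 4 := T_val 8 4 (by norm_num) (by decide +kernel)
  refine base_of_bkill (u := 17) (a := 9) (b := 8) (T_val 41 7 (by norm_num) (by decide +kernel))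
    (by norm_num) (by norm_num) (by norm_num) (fun W hW hm hs R hR hR' hc => ?_) h hK hm hs
  refine bkill hW hm hs hR hR' hc (by rw [t9, t8]; norm_num) (x := 6) (y := 3)
    (by rw [t9]; norm_num) (by rw [t9]; norm_num) (fun e1 e2 h1 h2 h3 _ => ?_)
  have h4 : e1 = 2 ∨ e1 = 3 := by omega
  rcases h4 with h4 | h4 <;> rw [h4] <;> norm_num

/-- (23), K = 0 -/
theorem base_B_23_0 {W : V → V → ℤ} {k : V → ℤ} (h : OO W k) (hK : ∑ i, k i = 0)
    (hm : inn W univ = 2 * 23) (hs : Sb W 5) :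
    ∃ e : V → ℤ, IsSign e ∧ en W e = 2 * 5 ∧ 2 * 3 ≤ |df W e| := by
  have t5 : T 5 = 3 := T_val 5 3 (by norm_num) (by decide +kernel)
  have t4 : T 4 = 2 := T_val 4 2 (by norm_num) (by decide +kernel)
  refine base_of_bkill (u := 9) (a := 5) (b := 4) (T_val 23 5 (by norm_num) (by decide +kernel))
    (by norm_num) (by norm_num) (by norm_num) (fun W hW hm hs R hR hR' hc => ?_) h hK hm hs
  have hc' : 2 * crs W Rᶜ Rᶜᶜ = 23 + 5 := by rw [compl_compl, hW.crs_symm]; exact hc
  refine bkill hW hm hs hR' (by rw [compl_compl]; exact hR) hc' (by rw [t5, t4]; norm_num)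
    (x := 3) (y := 1) (by rw [t4]; norm_num) (by rw [t4]; norm_num) (fun e1 e2 h1 h2 h3 _ => ?_)
  have h4 : e1 = 1 := by omega
  rw [h4]; norm_num

/-- (113), K = 0 -/
theorem base_B_113_0 {W : V → V → ℤ} {k : V → ℤ} (h : OO W k) (hK : ∑ i, k i = 0)
    (hm : inn W univ = 2 * 113) (hs : Sb W 11) :
    ∃ e : V → ℤ, IsSign e ∧ en W e = 2 * 11 ∧ 2 * 3 ≤ |df W e| := by
  have t26 : T 26 = 6 := T_val 26 6 (by norm_num) (by decide +kernel)
  have t25 : T 25 = 5 := T_val 25 5 (by norm_num) (by decide +kernel)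
  have t5 : T 5 = 3 := T_val 5 3 (by norm_num) (by decide +kernel)
  refine base_of_bkill (u := 51) (a := 26) (b := 25) (T_val 113 11 (by norm_num) (by decide +kernel))
    (by norm_num) (by norm_num) (by norm_num) (fun W hW hm hs R hR hR' hc => ?_) h hK hm hs
  have hc' : 2 * crs W Rᶜ Rᶜᶜ = 113 + 11 := by rw [compl_compl, hW.crs_symm]; exact hc
  refine bkill hW hm hs hR' (by rw [compl_compl]; exact hR) hc' (by rw [t25, t26]; norm_num)
    (x := 15) (y := 10) (by rw [t25]; norm_num) (by rw [t25]; norm_num)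
    (fun e1 e2 h1 h2 h3 h4 => ?_)
  have h5 : e1 ≠ 5 := by
    intro h5
    have h6 : e2 = 5 := by omega
    rw [h5, h6, t5, t25] at h4
    norm_num at h4
  have h6 : 6 ≤ e1 := by omega
  refine ⟨by linarith, ?_⟩
  by_cases h7 : e1 = 6
  · right; rw [h7]; norm_num
  · by_cases h8 : e1 = 7
    · right; rw [h8]; norm_num
    · left; omega

end Pool.Agent.QFO
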