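import Pool.Agent.QFO.RowOdd

/-!
# [QFO-128] there is no class-level object with `m = 128`, `N = 11`, `K = 0`
-/

set_option autoImplicit false
set_option linter.unusedSectionVars false

namespace Pool.Agent.QFO

open Finset Pool.Agent.MP_710317_co.Rec Pool.Agent.MXC

variable {V : Type*} [Fintype V] [DecidableEq V]

/-- the set of the classes of large degree and its weight -/
theorem core_set {W : V → V → ℤ} {k : V → ℤ} (hw : SymK W k) (hk : ∀ x, k x = 0)
    (h0 : ∀ x y, x ≠ y → 0 ≤ W x y) {s m : ℤ} (hs : Sb W s) (hm : inn W univ = 2 * m) {n : ℕ}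
    (hV : Fintype.card V = 2 * n + 3) {c A B : ℤ} (hA : A = m - (2 * n + 1) * s)
    (hB : B = A + 2 * n) (hc1 : (2 * n + 2) * (c - 1) < A) (hc2 : B ≤ (2 * n + 2) * (c + 1)) :
    ∃ T : Finset V, (∀ i, i ∉ T → ∀ x, x ≠ i → W i x = c) ∧
      (T.card : ℤ) * B + (2 * n + 3 - T.card) * ((2 * n + 2) * c) ≤ 2 * m ∧
      inn W T = 2 * m - c * ((2 * n + 3) * (2 * n + 2)) + c * ((T.card : ℤ) * (T.card - 1)) := by
  classical
  set T : Finset V := univ.filter fun i => B ≤ ∑ x, W i x with hT
  have hrow : ∀ i, i ∉ T → ∀ x, x ≠ i → W i x = c := by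
    intro i hi
    have hi2 : ∑ x, W i x < B := by
      by_contra h
      exact hi (mem_filter.2 ⟨mem_univ i, not_lt.1 h⟩)
    obtain ⟨g1, g2⟩ := row_odd hw hk h0 hs hm hV i
    -- constant row
    have hconst : ∀ x y, x ≠ i → y ≠ i → W i x = W i y := by
      intro x y hx hy
      by_contra hne
      have := g2 ⟨x, y, hx, hy, hne⟩
      rw [hB, hA] at hi2
      linarith
    have h3 : W i i = 0 := by rw [hw.diag, hk]; ring
    intro x hx
    have h4 : ∑ y, W i y = (2 * n + 2) * W i x := by
      rw [← Finset.add_sum_erase univ _ (mem_univ i), h3, zero_add,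
        Finset.sum_congr rfl fun y hy => hconst y x (ne_of_mem_erase hy) hx, Finset.sum_const,
        Finset.card_erase_of_mem (mem_univ i), Finset.card_univ, hV, nsmul_eq_mul]
      push_cast [show 2 * n + 3 - 1 = 2 * n + 2 by omega]
      ring
    have h5 : A ≤ (2 * n + 2) * W i x := by rw [← h4, hA]; linarith
    have h6 : (2 * (n : ℤ) + 2) * W i x < (2 * n + 2) * (c + 1) := by
      rw [← h4]; linarith
    have hpos : (0 : ℤ) < 2 * n + 2 := by positivity
    have h7 : W i x < c + 1 := lt_of_mul_lt_mul_left h6 hpos.le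
    have h8 : (2 * (n : ℤ) + 2) * (c - 1) < (2 * n + 2) * W i x := by linarith
    have h9 : c - 1 < W i x := lt_of_mul_lt_mul_left h8 hpos.le
    omega
  refine ⟨T, hrow, ?_, ?_⟩
  · have h1 : ∑ i, ∑ x, W i x = 2 * m := hm
    rw [← Finset.sum_add_sum_compl T] at h1
    have h2 : (T.card : ℤ) * B ≤ ∑ i ∈ T, ∑ x, W i x := by
      calc (T.card : ℤ) * B = ∑ i ∈ T, B := by rw [Finset.sum_const, nsmul_eq_mul]
        _ ≤ _ := Finset.sum_le_sum fun i hi => (mem_filter.1 hi).2
    have h3 : ∑ i ∈ Tᶜ, ∑ x, W i x = (2 * n + 3 - T.card) * ((2 * n + 2) * c) := by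
      have e1 : ∀ i ∈ Tᶜ, ∑ x, W i x = (2 * n + 2) * c := by
        intro i hi
        have h3 : W i i = 0 := by rw [hw.diag, hk]; ring
        rw [← Finset.add_sum_erase univ _ (mem_univ i), h3, zero_add,
          Finset.sum_congr rfl fun y hy => hrow i (mem_compl.1 hi) y (ne_of_mem_erase hy),
          Finset.sum_const, Finset.card_erase_of_mem (mem_univ i), Finset.card_univ, hV,
          nsmul_eq_mul]
        push_cast [show 2 * n + 3 - 1 = 2 * n + 2 by omega]
        ring
      rw [Finset.sum_congr rfl e1, Finset.sum_const, nsmul_eq_mul, Finset.card_compl, hV]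
      have hle : T.card ≤ 2 * n + 3 := by rw [← hV]; exact Finset.card_le_univ T
      rw [Nat.cast_sub hle]
      push_cast
      ring
    rw [h3] at h1
    linarith
  · rw [core_T hw hk hm hrow, hV]
    push_cast
    ring

theorem D128_11_core {W : V → V → ℤ} {k : V → ℤ} (hw : SymK W k) (hk : ∀ x, k x = 0)
    (h0 : ∀ x y, x ≠ y → 0 ≤ W x y) (hs : Sb W 12) (hm : inn W univ = 2 * 128)
    (hV : Fintype.card V = 11) : False := by
  classical
  obtain ⟨T, hrow, hdeg, hin⟩ := core_set hw hk h0 hs hm (n := 4) hV (c := 2) (A := 20) (B := 28)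
    (by norm_num) (by norm_num) (by norm_num) (by norm_num)
  push_cast at hdeg hin
  have hT4 : T.card ≤ 4 := by
    by_contra h
    have h1 : (5 : ℤ) ≤ T.card := by exact_mod_cast (not_le.1 h)
    linarith
  have hcompl : T.card + Tᶜ.card = 11 := by rw [Finset.card_add_card_compl, hV]
  have hW2 : ∀ x ∈ Tᶜ, ∀ y ∈ Tᶜ, x ≠ y → W x y = 2 := fun x hx y _ hxy =>
    hrow x (mem_compl.1 hx) y (Ne.symm hxy)
  have hK : ∑ x, k x = 0 := Finset.sum_eq_zero fun x _ => hk x
  have hdiag : ∀ x, W x x = 0 := fun x => by rw [hw.diag, hk]; ring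
  by_cases hT : T.card = 4
  · -- three pairs outside `T`
    obtain ⟨S, hS, hSc⟩ := Finset.exists_subset_card_eq (s := Tᶜ) (n := 2 * 3) (by omega)
    obtain ⟨W', k', g1, g2, g3, g4, g5⟩ := glue_const 3 hw hs hSc (fun x _ => hk x)
      (by norm_num : (0 : ℤ) ≤ 2) (fun x hx y hy hxy => hW2 x (hS hx) y (hS hy) hxy)
    have hTS : ∀ x ∈ T, x ∉ S := fun x hx h => (mem_compl.1 (hS h)) hx
    have hex : ∃ i, i ∉ T := by
      by_contra hcon
      push Not at hcon
      have : T = univ := eq_univ_iff_forall.2 hcon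
      rw [this, Finset.card_univ, hV] at hT
      omega
    obtain ⟨i, hi⟩ := hex
    obtain ⟨f1, _, _⟩ := mat_main 1 g1 g2 (S := T) (i := i) (by omega) hi
      (fun x hx => by rw [g4 x (hTS x hx), hk]) (fun x hx y hy hxy => by
        rw [g5 x y (hTS x hx) (hTS y hy)]; exact h0 x y hxy)
    rw [inn_congr fun x hx y hy => g5 x y (hTS x hx) (hTS y hy), g3, hK, hin, hT] at f1
    norm_num at f1
  · have hT3 : T.card ≤ 3 := by omega
    obtain ⟨S, hS, hSc⟩ := Finset.exists_subset_card_eq (s := Tᶜ) (n := 2 * 4) (by omega)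
    obtain ⟨W', k', g1, g2, g3, g4, g5⟩ := glue_const 4 hw hs hSc (fun x _ => hk x)
      (by norm_num : (0 : ℤ) ≤ 2) (fun x hx y hy hxy => hW2 x (hS hx) y (hS hy) hxy)
    have hTS : ∀ x ∈ T, x ∉ S := fun x hx h => (mem_compl.1 (hS h)) hx
    have hpair : ∀ a ∈ T, ∀ b ∈ T, a ≠ b → W a b ≤ 4 := by
      intro a ha b hb hab
      have hsub : ∀ x ∈ ({a, b} : Finset V), x ∈ T := by
        intro x hx
        rcases mem_insert.1 hx with h | h
        · rw [h]; exact ha
        · rw [mem_singleton.1 h]; exact hb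
      have hex : ∃ i, i ∉ ({a, b} : Finset V) := by
        by_contra hcon
        push Not at hcon
        have h1 : ({a, b} : Finset V) = univ := eq_univ_iff_forall.2 hcon
        have h2 := Finset.card_pair hab
        rw [h1, Finset.card_univ, hV] at h2
        omega
      obtain ⟨i, hi⟩ := hex
      obtain ⟨f1, _, _⟩ := mat_main 0 g1 g2 (S := {a, b}) (i := i) (Finset.card_pair hab) hi
        (fun x hx => by rw [g4 x (hTS x (hsub x hx)), hk]) (fun x hx y hy hxy => by
          rw [g5 x y (hTS x (hsub x hx)) (hTS y (hsub y hy))]; exact h0 x y hxy)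
      rw [inn_congr fun x hx y hy => g5 x y (hTS x (hsub x hx)) (hTS y (hsub y hy)), g3, hK] at f1
      have hin2 : inn W {a, b} = 2 * W a b := by
        unfold inn
        rw [Finset.sum_pair hab, Finset.sum_pair hab, Finset.sum_pair hab, hdiag, hdiag,
          hw.symm b a]
        ring
      rw [hin2] at f1
      norm_num at f1
      linarith
    have hle : inn W T ≤ 4 * ((T.card : ℤ) * (T.card - 1)) := by
      unfold inn
      calc ∑ x ∈ T, ∑ y ∈ T, W x y ≤ ∑ x ∈ T, 4 * ((T.card : ℤ) - 1) := by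
            refine Finset.sum_le_sum fun x hx => ?_
            rw [← Finset.add_sum_erase T _ hx, hdiag, zero_add]
            calc ∑ y ∈ T.erase x, W x y ≤ ∑ y ∈ T.erase x, (4 : ℤ) :=
                  Finset.sum_le_sum fun y hy => hpair x hx y (mem_of_mem_erase hy)
                    (ne_of_mem_erase hy).symm
              _ = 4 * ((T.card : ℤ) - 1) := by
                  have h1 := Finset.card_erase_add_one hx
                  have h2 : ((T.erase x).card : ℤ) + 1 = T.card := by exact_mod_cast h1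
                  rw [Finset.sum_const, nsmul_eq_mul]
                  linarith
        _ = _ := by
            rw [Finset.sum_const, nsmul_eq_mul]; ring
    rw [hin] at hle
    interval_cases hc : T.card <;> norm_num at hle

/-- [QFO] `(128; 11)`: no object without loops -/
theorem base_D_128_11_0 {V : Type*} [Fintype V] [DecidableEq V] {W : V → V → ℤ} {k : V → ℤ}
    (h : OO W k) (hK : ∑ i, k i = 0) {f : V → Fin 11} (hf : Col W f)
    (hm : inn W univ = 2 * 128) (hs : Sb W 12) : False := by
  have hk0 : ∀ a, ∑ x ∈ cls f a, k x = 0 := by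
    intro a
    have h1 : ∀ a, 0 ≤ ∑ x ∈ cls f a, k x := fun a => Finset.sum_nonneg fun x _ => h.knn x
    have h2 := cls_sum f k
    rw [hK] at h2
    exact (Finset.sum_eq_zero_iff_of_nonneg fun a _ => h1 a).1 h2 a (mem_univ a)
  exact D128_11_core (push_symK h.toSymK hf.prop) hk0
    (fun a b hab => by linarith [one_le_push h hf hab]) (push_Sb hs f) (by rw [push_inn]; exact hm)
    (by simp)

end Pool.Agent.QFO
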