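import Pool.Agent.QFO.KillE

/-!
# [QFO-K132] D part for `m = 132`, `N = 12` classes
-/

set_option autoImplicit false
set_option linter.unusedSectionVars false

namespace Pool.Agent.QFO

open Finset Pool.Agent.MP_710317_co.Rec Pool.Agent.MXC

variable {V : Type*} [Fintype V] [DecidableEq V]

/-- the degree relation on a tight perfect matching without defects -/
theorem deg_match {w : V → V → ℤ} (hw : Sym w) (hV : Fintype.card V = 12)
    (hm : inn w univ = 264) (hs : Sb w 12) {τ : V → V} (hτ : ∀ x, τ (τ x) = x)
    (hfp : ∀ x, τ x ≠ x) (ht : ∑ x, w x (τ x) = 24) :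
    (∀ x y, del w τ x y = 0) ∧ ∀ x, ∑ y, w x y + ∑ y, w (τ x) y = 10 * w x (τ x) + 24 := by
  have h1 := del_sum hw hτ
  rw [hV, hm, ht] at h1
  norm_num at h1
  have ht' : ∑ x, w x (τ x) = 2 * 12 := by rw [ht]; norm_num
  have dnn := del_nonneg hw hs hτ hfp ht'
  have hd : ∀ x y, del w τ x y = 0 := by
    intro x y
    have h2 := (Finset.sum_eq_zero_iff_of_nonneg (fun x _ =>
      Finset.sum_nonneg fun y _ => dnn x y)).1 h1 x (mem_univ x)
    exact (Finset.sum_eq_zero_iff_of_nonneg (fun y _ => dnn x y)).1 h2 y (mem_univ y)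
  refine ⟨hd, fun x => ?_⟩
  have hbij : Function.Bijective τ := Function.Involutive.bijective hτ
  have h3 : ∑ y, (w x y + w (τ x) (τ y)) = ∑ y, (w x (τ x) + w y (τ y) - del w τ x y -
      (if y = x then 2 * w x (τ x) else 0)) :=
    Finset.sum_congr rfl fun y _ => del_add hw hτ x y
  simp only [hd, sub_zero] at h3
  rw [Finset.sum_add_distrib, Finset.sum_sub_distrib, Finset.sum_add_distrib, Finset.sum_const,
    Finset.sum_ite_eq', if_pos (mem_univ x), ht, hbij.sum_comp (fun y => w (τ x) y),
    Finset.card_univ, hV] at h3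
  rw [h3]
  norm_num
  ring

theorem k132 {w : V → V → ℤ} (hw : Sym w) (hV : Fintype.card V = 12)
    (h1 : ∀ i j, i ≠ j → 1 ≤ w i j) (hm : inn w univ = 264) (hs : Sb w 12) :
    ∃ e : V → ℤ, IsSign e ∧ en w e = 24 ∧ |df w e| ≤ 12 := by
  classical
  obtain ⟨τ, hB⟩ := exists_best w
  have hτ := hB.inv
  have hfp : ∀ x, τ x ≠ x := fp_of_best hB (by rw [hV])
  have hle := pair_bound hw hs τ hτ
  have hds := del_sum hw hτ
  have hd0 := best_del hw hB hfp
  rw [hV, hm] at hds
  norm_num at hds
  have ht : ∑ x, w x (τ x) = 24 := by linarith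
  obtain ⟨hd, _⟩ := deg_match hw hV hm hs hτ hfp ht
  set dg : V → ℤ := fun x => ∑ y, w x y with hdg
  -- the degree relation for all pairs
  have hrel : ∀ x y, x ≠ y → dg x + dg y = 10 * w x y + 24 := by
    intro x y hxy
    by_cases hy : τ x = y
    · have h2 := (deg_match hw hV hm hs hτ hfp ht).2 x
      rw [hy] at h2
      exact h2
    · have hτx : τ (τ x) ≠ y := by rw [hτ]; exact hxy
      have hsum := xch_sum hw hτ (a := τ x) (b := y) hy hτx
        (by rw [hτ]; exact Ne.symm (hfp x)) (hfp y)
      have h3 := hd x y
      unfold del at h3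
      rw [if_neg (by rintro (h | h); exacts [hxy h.symm, hy h.symm])] at h3
      rw [hτ, hw.symm (τ x) x, hw.symm y x, ht] at hsum
      have ht2 : ∑ z, w z (xch τ (τ x) y z) = 24 := by rw [hsum]; linarith
      have hx' : xch τ (τ x) y x = y := by
        unfold xch
        rw [Equiv.swap_apply_of_ne_of_ne (Ne.symm (hfp x)) hxy, Equiv.swap_apply_left]
      have hfp' : ∀ z, xch τ (τ x) y z ≠ z := by
        intro z hz
        unfold xch at hz
        apply hfp (Equiv.swap (τ x) y z)
        rw [← Equiv.swap_apply_self (τ x) y (τ _), hz]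
      have h4 := (deg_match hw hV hm hs (xch_inv hτ (τ x) y) hfp' ht2).2 x
      rw [hx'] at h4
      exact h4
  have hsum : ∑ x, dg x = 264 := hm
  -- the surplus in terms of the degrees
  have hen : ∀ e : V → ℤ, IsSign e → 10 * en w e = -2 * (∑ i, dg i * e i) * (∑ i, e i) +
      24 * (∑ i, e i) * (∑ i, e i) + 240 := by
    intro e he
    have h2 : ∀ i, ∑ j, 10 * (w i j * e i * e j) = (dg i * e i) * (∑ j, e j) +
        e i * (∑ j, dg j * e j) - 24 * (e i * ∑ j, e j) - (2 * dg i - 24) := by
      intro i
      have h3 : ∀ j, 10 * (w i j * e i * e j) = (dg i * e i) * e j + e i * (dg j * e j) -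
          24 * (e i * e j) - (if j = i then 2 * dg i - 24 else 0) := by
        intro j
        by_cases h : j = i
        · rw [if_pos h, h, hw.diag]
          linear_combination (-2 * dg i + 24) * sign_sq he i
        · rw [if_neg h]
          have := hrel i j (Ne.symm h)
          linear_combination (-(e i) * e j) * this
      rw [Finset.sum_congr rfl fun j _ => h3 j, Finset.sum_sub_distrib, Finset.sum_sub_distrib,
        Finset.sum_add_distrib, ← Finset.mul_sum, ← Finset.mul_sum, ← Finset.mul_sum,
        ← Finset.mul_sum, Finset.sum_ite_eq', if_pos (mem_univ i)]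
    have h4 : 10 * en w e = - ∑ i, ∑ j, 10 * (w i j * e i * e j) := by
      unfold en
      simp only [← Finset.mul_sum]
      ring
    rw [h4, Finset.sum_congr rfl fun i _ => h2 i, Finset.sum_sub_distrib, Finset.sum_sub_distrib,
      Finset.sum_add_distrib, ← Finset.sum_mul, ← Finset.sum_mul, ← Finset.mul_sum,
      ← Finset.sum_mul, Finset.sum_sub_distrib, ← Finset.mul_sum, hsum, Finset.sum_const,
      Finset.card_univ, hV]
    norm_num
    ring
  have hdf : ∀ e : V → ℤ, df w e = ∑ i, dg i * e i := by
    intro e
    unfold df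
    exact Finset.sum_congr rfl fun i _ => by rw [hdg, Finset.sum_mul]
  -- integrality
  have hc3 : 2 < Fintype.card V := by rw [hV]; norm_num
  have hint : ∀ i, ∃ a : ℤ, dg i = 12 + 5 * a := by
    intro i
    obtain ⟨j, hj⟩ : ((univ : Finset V) \ {i}).Nonempty := by
      rw [← Finset.card_pos]
      have h5 := Finset.le_card_sdiff ({i} : Finset V) univ
      rw [Finset.card_univ, hV, Finset.card_singleton] at h5
      omega
    obtain ⟨l, hl⟩ : ((univ : Finset V) \ {i, j}).Nonempty := by
      rw [← Finset.card_pos]
      have h5 := Finset.le_card_sdiff ({i, j} : Finset V) univ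
      rw [Finset.card_univ, hV] at h5
      have h6 : ({i, j} : Finset V).card ≤ 2 := Finset.card_le_two
      omega
    simp only [mem_sdiff, mem_univ, true_and, mem_singleton, mem_insert, not_or] at hj hl
    have e1 := hrel i j (Ne.symm hj)
    have e2 := hrel i l (Ne.symm hl.1)
    have e3 := hrel j l (Ne.symm hl.2)
    exact ⟨w i j + w i l - w j l, by linarith⟩
  choose a ha using hint
  have haa : ∀ i j, i ≠ j → a i + a j = 2 * w i j := by
    intro i j hij
    have e1 := hrel i j hij
    rw [ha i, ha j] at e1
    linarith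
  have hasum : ∑ i, a i = 24 := by
    have h2 : ∑ i, (12 + 5 * a i) = 264 := by
      rw [← hsum]
      exact Finset.sum_congr rfl fun i _ => (ha i).symm
    rw [Finset.sum_add_distrib, ← Finset.mul_sum, Finset.sum_const, Finset.card_univ, hV] at h2
    norm_num at h2
    linarith
  have hdfa : ∀ e : V → ℤ, ∑ i, dg i * e i = 12 * (∑ i, e i) + 5 * ∑ i, a i * e i := by
    intro e
    rw [Finset.mul_sum, Finset.mul_sum, ← Finset.sum_add_distrib]
    exact Finset.sum_congr rfl fun i _ => by rw [ha i]; ring
  -- signs of a set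
  have hsgs : ∀ F : Finset V, ∑ i, sg F i = 2 * (F.card : ℤ) - 12 := by
    intro F
    have h2 : ∀ i, sg F i = 2 * (if i ∈ F then 1 else 0) - 1 := by
      intro i
      unfold sg
      by_cases h : i ∈ F
      · rw [if_pos h, if_pos h]; norm_num
      · rw [if_neg h, if_neg h]; norm_num
    rw [Finset.sum_congr rfl fun i _ => h2 i, Finset.sum_sub_distrib, ← Finset.mul_sum,
      Finset.sum_ite_mem, Finset.univ_inter, Finset.sum_const, Finset.sum_const, Finset.card_univ,
      hV]
    simp
  have hsga : ∀ F : Finset V, ∑ i, a i * sg F i = 2 * (∑ i ∈ F, a i) - 24 := by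
    intro F
    have h2 : ∀ i, a i * sg F i = 2 * (if i ∈ F then a i else 0) - a i := by
      intro i
      unfold sg
      by_cases h : i ∈ F
      · rw [if_pos h, if_pos h]; ring
      · rw [if_neg h, if_neg h]; ring
    rw [Finset.sum_congr rfl fun i _ => h2 i, Finset.sum_sub_distrib, ← Finset.mul_sum,
      Finset.sum_ite_mem, Finset.univ_inter, hasum]
  -- the conclusion for a set with 6 elements
  have hfin : ∀ F : Finset V, F.card = 6 → |∑ i ∈ F, a i - 12| ≤ 1 →
      ∃ e : V → ℤ, IsSign e ∧ en w e = 24 ∧ |df w e| ≤ 12 := by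
    intro F hF hle2
    refine ⟨sg F, sg_sign F, ?_, ?_⟩
    · have h2 := hen (sg F) (sg_sign F)
      rw [hsgs, hF] at h2
      norm_num at h2
      linarith
    · rw [hdf, hdfa, hsgs, hsga, hF]
      rw [abs_le] at hle2 ⊢
      push_cast
      constructor <;> linarith
  -- sets with 5 elements
  have h5 : ∀ F : Finset V, F.card = 5 → ∑ i ∈ F, a i ≤ 12 := by
    intro F hF
    have h2 := hen (sg F) (sg_sign F)
    have h3 := hs (sg F) (sg_sign F)
    rw [hdfa, hsgs, hsga, hF] at h2
    push_cast at h2
    linarith
  by_cases hall : ∀ i, 2 ≤ a i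
  · -- all equal to 2
    have h2 : ∀ i, a i = 2 := by
      have h3 : ∑ i, (a i - 2) = 0 := by
        rw [Finset.sum_sub_distrib, hasum, Finset.sum_const, Finset.card_univ, hV]
        norm_num
      intro i
      have h4 := (Finset.sum_eq_zero_iff_of_nonneg (fun i _ => by linarith [hall i])).1 h3 i
        (mem_univ i)
      linarith
    obtain ⟨F, -, hF⟩ := Finset.exists_subset_card_eq (s := (univ : Finset V)) (n := 6) (by
      rw [Finset.card_univ, hV]; norm_num)
    refine hfin F hF ?_
    rw [Finset.sum_congr rfl fun i _ => h2 i, Finset.sum_const, hF]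
    norm_num
  · push Not at hall
    obtain ⟨p, hp⟩ := hall
    by_cases hp0 : a p ≤ 0
    · have hoth : ∀ i, i ≠ p → 2 ≤ a i := by
        intro i hi
        have e1 := haa i p hi
        have e2 := h1 i p hi
        linarith
      have hsp := Finset.add_sum_erase univ a (mem_univ p)
      rw [hasum] at hsp
      have hcard : (univ.erase p).card = 11 := by
        rw [Finset.card_erase_of_mem (mem_univ p), Finset.card_univ, hV]
      have hge : ∑ i ∈ univ.erase p, (2 - a p) ≤ ∑ i ∈ univ.erase p, a i := by
        refine Finset.sum_le_sum fun i hi => ?_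
        have hi' := ne_of_mem_erase hi
        have e1 := haa i p hi'
        have e2 := h1 i p hi'
        linarith
      rw [Finset.sum_const, hcard] at hge
      norm_num at hge
      have hp1 : a p = 0 := by
        have : -1 < a p := by linarith
        omega
      -- the excess
      obtain ⟨q, hq, hq2⟩ : ∃ q ∈ univ.erase p, 3 ≤ a q := by
        by_contra hcon
        push Not at hcon
        have h6 : ∑ i ∈ univ.erase p, a i ≤ ∑ i ∈ univ.erase p, 2 :=
          Finset.sum_le_sum fun i hi => by
            have := hcon i hi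
            omega
        rw [Finset.sum_const, hcard] at h6
        norm_num at h6
        linarith
      have hqp := ne_of_mem_erase hq
      -- the excess of the others
      set R : Finset V := (univ.erase p).erase q with hR
      have hsq := Finset.add_sum_erase (univ.erase p) a hq
      rw [← hR] at hsq
      have hRcard : R.card = 10 := by
        rw [hR, Finset.card_erase_of_mem hq, hcard]
      obtain ⟨G, hGR, hG⟩ := Finset.exists_subset_card_eq (s := R) (n := 4) (by
        rw [hRcard]; norm_num)
      have hpR : p ∉ G := fun h => by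
        have := hGR h
        rw [hR, mem_erase, mem_erase] at this
        exact this.2.1 rfl
      have hqR : q ∉ G := fun h => by
        have := hGR h
        rw [hR, mem_erase] at this
        exact this.1 rfl
      have hGl : ∑ i ∈ G, (2 : ℤ) ≤ ∑ i ∈ G, a i := Finset.sum_le_sum fun i hi => by
        have h6 := hGR hi
        rw [hR, mem_erase, mem_erase] at h6
        exact hoth i h6.2.1
      have hGu : ∑ i ∈ G, (a i - 2) ≤ ∑ i ∈ R, (a i - 2) :=
        Finset.sum_le_sum_of_subset_of_nonneg hGR fun i hi _ => by
          rw [hR, mem_erase, mem_erase] at hi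
          linarith [hoth i hi.2.1]
      rw [Finset.sum_sub_distrib, Finset.sum_sub_distrib, Finset.sum_const, Finset.sum_const,
        hRcard, hG] at hGu
      rw [Finset.sum_const, hG] at hGl
      norm_num at hGu hGl
      have hpi : p ∉ insert q G := by
        rw [mem_insert]
        rintro (h | h)
        · exact hqp h.symm
        · exact hpR h
      refine hfin (insert p (insert q G)) ?_ ?_
      · rw [Finset.card_insert_of_notMem hpi, Finset.card_insert_of_notMem hqR, hG]
      · rw [Finset.sum_insert hpi, Finset.sum_insert hqR, hp1, abs_le]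
        constructor <;> linarith
    · -- all odd
      have hp1 : a p = 1 := by omega
      have hodd : ∀ i, ∃ c : ℤ, a i = 1 + 2 * c ∧ 0 ≤ c := by
        intro i
        by_cases hi : i = p
        · exact ⟨0, by rw [hi, hp1]; norm_num, le_rfl⟩
        · have e1 := haa i p hi
          have e2 := h1 i p hi
          exact ⟨w i p - 1, by linarith, by linarith⟩
      choose c hc using hodd
      have hcs : ∑ i, c i = 6 := by
        have h6 : ∑ i, (1 + 2 * c i) = 24 := by
          rw [← hasum]
          exact Finset.sum_congr rfl fun i _ => (hc i).1.symm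
        rw [Finset.sum_add_distrib, ← Finset.mul_sum, Finset.sum_const, Finset.card_univ, hV] at h6
        norm_num at h6
        linarith
      have hc5 : ∀ F : Finset V, F.card = 5 → ∑ i ∈ F, c i ≤ 3 := by
        intro F hF
        have h6 := h5 F hF
        rw [Finset.sum_congr rfl fun i _ => (hc i).1, Finset.sum_add_distrib, ← Finset.mul_sum,
          Finset.sum_const, hF] at h6
        norm_num at h6
        omega
      exfalso
      set P : Finset V := univ.filter fun i => 1 ≤ c i with hP
      by_cases hPc : 4 ≤ P.card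
      · obtain ⟨P', hP', hPc'⟩ := Finset.exists_subset_card_eq hPc
        obtain ⟨F, hPF, _, hF⟩ := Finset.exists_subsuperset_card_eq (n := 5)
          (subset_univ P') (by omega) (by rw [Finset.card_univ, hV]; norm_num)
        have h6 : ∑ i ∈ P', (1 : ℤ) ≤ ∑ i ∈ P', c i :=
          Finset.sum_le_sum fun i hi => (mem_filter.1 (hP' hi)).2
        have h7 : ∑ i ∈ P', c i ≤ ∑ i ∈ F, c i :=
          Finset.sum_le_sum_of_subset_of_nonneg hPF fun i _ _ => (hc i).2
        have h8 := hc5 F hF
        rw [Finset.sum_const, hPc'] at h6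
        norm_num at h6
        linarith
      · obtain ⟨F, hPF, _, hF⟩ := Finset.exists_subsuperset_card_eq (n := 5)
          (subset_univ P) (by omega) (by rw [Finset.card_univ, hV]; norm_num)
        have h6 : ∑ i ∈ F, c i = ∑ i, c i := by
          refine Finset.sum_subset (subset_univ F) fun i _ hi => ?_
          by_contra hne
          have h9 := (hc i).2
          exact hi (hPF (mem_filter.2 ⟨mem_univ i, by omega⟩))
        have h8 := hc5 F hF
        rw [h6, hcs] at h8
        norm_num at h8

/-- D part for `m = 132`, `N = 12` -/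
theorem base_D_132_12 {V : Type} [Fintype V] [DecidableEq V] {W : V → V → ℤ} {k : V → ℤ}
    (h : OO W k) (hK : ∑ i, k i = 0) {f : V → Fin 12} (hf : Col W f)
    (hm : inn W univ = 2 * 132) (hs : Sb W 12) :
    ∃ e : V → ℤ, IsSign e ∧ en W e = 2 * 12 ∧ |df W e| ≤ 2 * 6 := by
  have hk : ∀ i, k i = 0 := fun i =>
    (Finset.sum_eq_zero_iff_of_nonneg (fun i _ => h.knn i)).1 hK i (mem_univ i)
  have hw : Sym (push W f) := by
    refine ⟨fun a b => push_symm h.symm f a b, fun a => ?_⟩
    rw [push_diag h.toSymK hf.prop, Finset.sum_eq_zero fun x _ => hk x]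
    ring
  obtain ⟨e, he, h1, h2⟩ := k132 hw (by simp) (fun i j hij => one_le_push h hf hij)
    (by rw [push_inn, hm]; norm_num) (push_Sb hs f)
  rw [push_en] at h1
  rw [push_df] at h2
  exact ⟨_, fun x => he _, h1, h2⟩

end Pool.Agent.QFO
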