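import Pool.Agent.QFO.K113

/-!
# [QFO-K26] the B part for `m = 26`, `N = 6` classes
-/

set_option autoImplicit false
set_option linter.unusedSectionVars false
set_option linter.unusedVariables false

namespace Pool.Agent.QFO

open Finset Pool.Agent.MP_710317_co.Rec Pool.Agent.MXC

/-- a violator with six classes -/
structure Six (w : Fin 6 → Fin 6 → ℤ) : Prop where
  sym : Sym w
  pos : ∀ i j, i ≠ j → 1 ≤ w i j
  tot : inn w univ = 52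
  cut : ∀ e : Fin 6 → ℤ, IsSign e → en w e ≤ 12
  vio : ∀ e : Fin 6 → ℤ, IsSign e → en w e = 12 → |df w e| ≤ 3

theorem Six.perm {w : Fin 6 → Fin 6 → ℤ} (h : Six w) (g : Fin 6 ≃ Fin 6) :
    Six (fun i j => w (g i) (g j)) := by
  have hen : ∀ e : Fin 6 → ℤ, en (fun i j => w (g i) (g j)) e = en w (fun i => e (g.symm i)) := by
    intro e
    unfold en
    congr 1
    rw [← Equiv.sum_comp g (fun i => ∑ j, w i j * e (g.symm i) * e (g.symm j))]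
    refine Finset.sum_congr rfl fun i _ => ?_
    rw [← Equiv.sum_comp g (fun j => w (g i) j * e (g.symm (g i)) * e (g.symm j))]
    exact Finset.sum_congr rfl fun j _ => by simp
  have hdf : ∀ e : Fin 6 → ℤ, df (fun i j => w (g i) (g j)) e = df w (fun i => e (g.symm i)) := by
    intro e
    unfold df
    rw [← Equiv.sum_comp g (fun i => ∑ j, w i j * e (g.symm i))]
    refine Finset.sum_congr rfl fun i _ => ?_
    rw [← Equiv.sum_comp g (fun j => w (g i) j * e (g.symm (g i)))]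
    exact Finset.sum_congr rfl fun j _ => by simp
  refine ⟨⟨fun i j => h.sym.symm _ _, fun i => h.sym.diag _⟩,
    fun i j hij => h.pos _ _ fun h' => hij (g.injective h'), ?_, fun e he => ?_, fun e he h1 => ?_⟩
  · rw [← h.tot]
    unfold inn
    rw [← Equiv.sum_comp g (fun i => ∑ j, w i j)]
    exact Finset.sum_congr rfl fun i _ => Equiv.sum_comp g (fun j => w (g i) j)
  · rw [hen]
    exact h.cut _ fun i => he _
  · rw [hen] at h1
    rw [hdf]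
    exact h.vio _ (fun i => he _) h1

theorem six_tot {w : Fin 6 → Fin 6 → ℤ} (h : Six w) :
    w 0 1 + w 2 3 + w 4 5 + w 0 2 + w 0 3 + w 1 2 + w 1 3 + w 0 4 + w 0 5 + w 1 4 + w 1 5 +
    w 2 4 + w 2 5 + w 3 4 + w 3 5 = 26 := by
  have h1 := h.tot
  have hd := h.sym.diag
  have hs := h.sym.symm
  unfold inn at h1
  simp only [Fin.sum_univ_six, hd] at h1
  rw [hs 1 0, hs 2 0, hs 3 0, hs 4 0, hs 5 0, hs 2 1, hs 3 1, hs 4 1, hs 5 1, hs 3 2, hs 4 2,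
    hs 5 2, hs 4 3, hs 5 3, hs 5 4] at h1
  linarith

theorem six_cut {w : Fin 6 → Fin 6 → ℤ} (h : Six w) {s0 s1 s2 s3 s4 s5 : ℤ}
    (h0 : s0 = 1 ∨ s0 = -1) (h1 : s1 = 1 ∨ s1 = -1) (h2 : s2 = 1 ∨ s2 = -1)
    (h3 : s3 = 1 ∨ s3 = -1) (h4 : s4 = 1 ∨ s4 = -1) (h5 : s5 = 1 ∨ s5 = -1) :
    -6 ≤ w 0 1 * s0 * s1 + w 2 3 * s2 * s3 + w 4 5 * s4 * s5 + w 0 2 * s0 * s2 +
      w 0 3 * s0 * s3 + w 1 2 * s1 * s2 + w 1 3 * s1 * s3 + w 0 4 * s0 * s4 + w 0 5 * s0 * s5 +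
      w 1 4 * s1 * s4 + w 1 5 * s1 * s5 + w 2 4 * s2 * s4 + w 2 5 * s2 * s5 + w 3 4 * s3 * s4 +
      w 3 5 * s3 * s5 ∧
    (w 0 1 * s0 * s1 + w 2 3 * s2 * s3 + w 4 5 * s4 * s5 + w 0 2 * s0 * s2 +
      w 0 3 * s0 * s3 + w 1 2 * s1 * s2 + w 1 3 * s1 * s3 + w 0 4 * s0 * s4 + w 0 5 * s0 * s5 +
      w 1 4 * s1 * s4 + w 1 5 * s1 * s5 + w 2 4 * s2 * s4 + w 2 5 * s2 * s5 + w 3 4 * s3 * s4 +
      w 3 5 * s3 * s5 = -6 →
    -3 ≤ s0 * (w 0 1 + w 0 2 + w 0 3 + w 0 4 + w 0 5) +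
      s1 * (w 0 1 + w 1 2 + w 1 3 + w 1 4 + w 1 5) +
      s2 * (w 2 3 + w 0 2 + w 1 2 + w 2 4 + w 2 5) + s3 * (w 2 3 + w 0 3 + w 1 3 + w 3 4 + w 3 5) +
      s4 * (w 4 5 + w 0 4 + w 1 4 + w 2 4 + w 3 4) +
      s5 * (w 4 5 + w 0 5 + w 1 5 + w 2 5 + w 3 5) ∧
      s0 * (w 0 1 + w 0 2 + w 0 3 + w 0 4 + w 0 5) +
      s1 * (w 0 1 + w 1 2 + w 1 3 + w 1 4 + w 1 5) +
      s2 * (w 2 3 + w 0 2 + w 1 2 + w 2 4 + w 2 5) + s3 * (w 2 3 + w 0 3 + w 1 3 + w 3 4 + w 3 5) +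
      s4 * (w 4 5 + w 0 4 + w 1 4 + w 2 4 + w 3 4) +
      s5 * (w 4 5 + w 0 5 + w 1 5 + w 2 5 + w 3 5) ≤ 3) := by
  have hd := h.sym.diag
  have hs := h.sym.symm
  have he : IsSign (![s0, s1, s2, s3, s4, s5] : Fin 6 → ℤ) := by
    intro i
    fin_cases i
    exacts [h0, h1, h2, h3, h4, h5]
  have g0 : (![s0, s1, s2, s3, s4, s5] : Fin 6 → ℤ) 0 = s0 := rfl
  have g1 : (![s0, s1, s2, s3, s4, s5] : Fin 6 → ℤ) 1 = s1 := rfl
  have g2 : (![s0, s1, s2, s3, s4, s5] : Fin 6 → ℤ) 2 = s2 := rfl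
  have g3 : (![s0, s1, s2, s3, s4, s5] : Fin 6 → ℤ) 3 = s3 := rfl
  have g4 : (![s0, s1, s2, s3, s4, s5] : Fin 6 → ℤ) 4 = s4 := rfl
  have g5 : (![s0, s1, s2, s3, s4, s5] : Fin 6 → ℤ) 5 = s5 := rfl
  have e1 : en w ![s0, s1, s2, s3, s4, s5] = -2 * (w 0 1 * s0 * s1 + w 2 3 * s2 * s3 +
      w 4 5 * s4 * s5 + w 0 2 * s0 * s2 +
      w 0 3 * s0 * s3 + w 1 2 * s1 * s2 + w 1 3 * s1 * s3 + w 0 4 * s0 * s4 + w 0 5 * s0 * s5 +
      w 1 4 * s1 * s4 + w 1 5 * s1 * s5 + w 2 4 * s2 * s4 + w 2 5 * s2 * s5 + w 3 4 * s3 * s4 +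
      w 3 5 * s3 * s5) := by
    unfold en
    simp only [Fin.sum_univ_six, hd, g0, g1, g2, g3, g4, g5]
    rw [hs 1 0, hs 2 0, hs 3 0, hs 4 0, hs 5 0, hs 2 1, hs 3 1, hs 4 1, hs 5 1, hs 3 2, hs 4 2,
      hs 5 2, hs 4 3, hs 5 3, hs 5 4]
    ring
  have e2 : df w ![s0, s1, s2, s3, s4, s5] = s0 * (w 0 1 + w 0 2 + w 0 3 + w 0 4 + w 0 5) +
      s1 * (w 0 1 + w 1 2 + w 1 3 + w 1 4 + w 1 5) +
      s2 * (w 2 3 + w 0 2 + w 1 2 + w 2 4 + w 2 5) + s3 * (w 2 3 + w 0 3 + w 1 3 + w 3 4 + w 3 5) +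
      s4 * (w 4 5 + w 0 4 + w 1 4 + w 2 4 + w 3 4) +
      s5 * (w 4 5 + w 0 5 + w 1 5 + w 2 5 + w 3 5) := by
    unfold df
    simp only [Fin.sum_univ_six, hd, g0, g1, g2, g3, g4, g5]
    rw [hs 1 0, hs 2 0, hs 3 0, hs 4 0, hs 5 0, hs 2 1, hs 3 1, hs 4 1, hs 5 1, hs 3 2, hs 4 2,
      hs 5 2, hs 4 3, hs 5 3, hs 5 4]
    ring
  have c1 := h.cut _ he
  rw [e1] at c1
  refine ⟨by linarith, fun h6 => ?_⟩
  have c2 := h.vio _ he (by rw [e1, h6]; norm_num)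
  rw [e2, abs_le] at c2
  exact c2

/-- case: the defect is on the first two pairs -/
theorem six_1 {w : Fin 6 → Fin 6 → ℤ} (h : Six w) (hS : w 0 1 + w 2 3 + w 4 5 = 6)
    (b1 : w 0 2 + w 1 3 = w 0 1 + w 2 3 - 2)
    (b2 : w 0 4 + w 1 5 = w 0 1 + w 4 5) (b3 : w 2 4 + w 3 5 = w 2 3 + w 4 5) : False := by
  have o : (1 : ℤ) = 1 ∨ (1 : ℤ) = -1 := Or.inl rfl
  have n : (-1 : ℤ) = 1 ∨ (-1 : ℤ) = -1 := Or.inr rfl
  have htot := six_tot h
  obtain ⟨x1, y1⟩ := six_cut h o n o n o n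
  obtain ⟨x2, y2⟩ := six_cut h o n o n n o
  obtain ⟨x3, y3⟩ := six_cut h o n n o o n
  obtain ⟨x4, y4⟩ := six_cut h n o o n o n
  obtain ⟨x5, y5⟩ := six_cut h o n o o n n
  obtain ⟨x6, y6⟩ := six_cut h n o o o n n
  obtain ⟨x7, y7⟩ := six_cut h o o o n n n
  obtain ⟨x8, y8⟩ := six_cut h o o n o n n
  clear h
  simp only [mul_one, mul_neg, neg_mul, one_mul, neg_neg] at x1 y1 x2 y2 x3 y3 x4 y4 x5 y5 x6 y6 x7 y7 x8 y8
  generalize w 0 1 = A at *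
  generalize w 2 3 = B at *
  generalize w 4 5 = C at *
  generalize w 0 2 = p1 at *
  generalize w 0 3 = p2 at *
  generalize w 1 2 = p3 at *
  generalize w 1 3 = p4 at *
  generalize w 0 4 = q1 at *
  generalize w 0 5 = q2 at *
  generalize w 1 4 = q3 at *
  generalize w 1 5 = q4 at *
  generalize w 2 4 = r1 at *
  generalize w 2 5 = r2 at *
  generalize w 3 4 = r3 at *
  generalize w 3 5 = r4 at *
  have f1 : p2 + p3 = A + B - 2 := by omega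
  have f2 : q2 + q3 = A + C := by omega
  have f3 : r2 + r3 = B + C := by omega
  have z1 := y1 (by omega)
  have z2 := y2 (by omega)
  have z3 := y3 (by omega)
  have z4 := y4 (by omega)
  have z5 := y5 (by omega)
  have z6 := y6 (by omega)
  have z7 := y7 (by omega)
  have z8 := y8 (by omega)
  clear y1 y2 y3 y4 y5 y6 y7 y8
  omega

/-- case: one defect on the first two pairs, one on the first and the third -/
theorem six_2 {w : Fin 6 → Fin 6 → ℤ} (h : Six w) (hS : w 0 1 + w 2 3 + w 4 5 = 6)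
    (b1 : w 0 2 + w 1 3 = w 0 1 + w 2 3 - 1)
    (b2 : w 0 4 + w 1 5 = w 0 1 + w 4 5 - 1) (b3 : w 2 4 + w 3 5 = w 2 3 + w 4 5) : False := by
  have o : (1 : ℤ) = 1 ∨ (1 : ℤ) = -1 := Or.inl rfl
  have n : (-1 : ℤ) = 1 ∨ (-1 : ℤ) = -1 := Or.inr rfl
  have htot := six_tot h
  have P := h.pos
  have hA := P 0 1 (by decide)
  have hB := P 2 3 (by decide)
  have hC := P 4 5 (by decide)
  have hr1 := P 2 4 (by decide)
  have hr2 := P 2 5 (by decide)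
  have hr3 := P 3 4 (by decide)
  have hr4 := P 3 5 (by decide)
  obtain ⟨x1, y1⟩ := six_cut h o n o n o n
  obtain ⟨x2, y2⟩ := six_cut h o n o n n o
  obtain ⟨x3, y3⟩ := six_cut h o n n o o n
  obtain ⟨x4, y4⟩ := six_cut h n o o n o n
  obtain ⟨x5, y5⟩ := six_cut h o n o o n n
  obtain ⟨x6, y6⟩ := six_cut h n o o o n n
  obtain ⟨x7, y7⟩ := six_cut h o o n n n n
  obtain ⟨t1, u1⟩ := six_cut h n n o n o n
  obtain ⟨t2, u2⟩ := six_cut h n n o n n o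
  obtain ⟨t3, u3⟩ := six_cut h n n n o o n
  obtain ⟨t4, u4⟩ := six_cut h n n n o n o
  clear h P
  simp only [mul_one, mul_neg, neg_mul, one_mul, neg_neg] at x1 y1 x2 y2 x3 y3 x4 y4 x5 y5 x6 y6 x7 y7 t1 u1 t2 u2 t3 u3 t4 u4
  generalize w 0 1 = A at *
  generalize w 2 3 = B at *
  generalize w 4 5 = C at *
  generalize w 0 2 = p1 at *
  generalize w 0 3 = p2 at *
  generalize w 1 2 = p3 at *
  generalize w 1 3 = p4 at *
  generalize w 0 4 = q1 at *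
  generalize w 0 5 = q2 at *
  generalize w 1 4 = q3 at *
  generalize w 1 5 = q4 at *
  generalize w 2 4 = r1 at *
  generalize w 2 5 = r2 at *
  generalize w 3 4 = r3 at *
  generalize w 3 5 = r4 at *
  have f1 : p2 + p3 = A + B - 1 := by omega
  have f2 : q2 + q3 = A + C - 1 := by omega
  have f3 : r2 + r3 = B + C := by omega
  have z1 := y1 (by omega)
  have z2 := y2 (by omega)
  have z3 := y3 (by omega)
  have z4 := y4 (by omega)
  have z5 := y5 (by omega)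
  have z6 := y6 (by omega)
  clear y1 y2 y3 y4 y5 y6
  have hA4 : A ≠ 4 := by
    intro h
    have := y7 (by omega)
    omega
  have hA2 : A = 2 := by omega
  subst hA2
  have hB2 : B = 2 := by omega
  have hC2 : C = 2 := by omega
  subst hB2 hC2
  clear y7
  omega

/-- no violator with a tight best matching -/
theorem six_false {w : Fin 6 → Fin 6 → ℤ} (h : Six w) (hS : w 0 1 + w 2 3 + w 4 5 = 6)
    (b1 : w 0 2 + w 1 3 ≤ w 0 1 + w 2 3)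
    (b2 : w 0 4 + w 1 5 ≤ w 0 1 + w 4 5) (b3 : w 2 4 + w 3 5 ≤ w 2 3 + w 4 5) : False := by
  have o : (1 : ℤ) = 1 ∨ (1 : ℤ) = -1 := Or.inl rfl
  have n : (-1 : ℤ) = 1 ∨ (-1 : ℤ) = -1 := Or.inr rfl
  have htot := six_tot h
  obtain ⟨x1, _⟩ := six_cut h o n o n o n
  obtain ⟨x2, _⟩ := six_cut h o n o n n o
  obtain ⟨x3, _⟩ := six_cut h o n n o o n
  obtain ⟨x4, _⟩ := six_cut h n o o n o n
  simp only [mul_one, mul_neg, neg_neg] at x1 x2 x3 x4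
  have hs := h.sym.symm
  have key : (w 0 2 + w 1 3 = w 0 1 + w 2 3 - 2 ∧ w 0 4 + w 1 5 = w 0 1 + w 4 5 ∧
      w 2 4 + w 3 5 = w 2 3 + w 4 5) ∨ (w 0 2 + w 1 3 = w 0 1 + w 2 3 ∧
      w 0 4 + w 1 5 = w 0 1 + w 4 5 - 2 ∧ w 2 4 + w 3 5 = w 2 3 + w 4 5) ∨
      (w 0 2 + w 1 3 = w 0 1 + w 2 3 ∧ w 0 4 + w 1 5 = w 0 1 + w 4 5 ∧
      w 2 4 + w 3 5 = w 2 3 + w 4 5 - 2) ∨ (w 0 2 + w 1 3 = w 0 1 + w 2 3 - 1 ∧
      w 0 4 + w 1 5 = w 0 1 + w 4 5 - 1 ∧ w 2 4 + w 3 5 = w 2 3 + w 4 5) ∨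
      (w 0 2 + w 1 3 = w 0 1 + w 2 3 - 1 ∧ w 0 4 + w 1 5 = w 0 1 + w 4 5 ∧
      w 2 4 + w 3 5 = w 2 3 + w 4 5 - 1) ∨ (w 0 2 + w 1 3 = w 0 1 + w 2 3 ∧
      w 0 4 + w 1 5 = w 0 1 + w 4 5 - 1 ∧ w 2 4 + w 3 5 = w 2 3 + w 4 5 - 1) := by
    have f1 : w 0 3 + w 1 2 = w 0 2 + w 1 3 := by omega
    have f2 : w 0 5 + w 1 4 = w 0 4 + w 1 5 := by omega
    have f3 : w 2 5 + w 3 4 = w 2 4 + w 3 5 := by omega
    clear x1 x2 x3 x4
    omega
  -- the permutations of the pairs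
  let g1 : Fin 6 ≃ Fin 6 := ⟨![0, 1, 4, 5, 2, 3], ![0, 1, 4, 5, 2, 3], by decide, by decide⟩
  let g2 : Fin 6 ≃ Fin 6 := ⟨![2, 3, 4, 5, 0, 1], ![4, 5, 0, 1, 2, 3], by decide, by decide⟩
  let g3 : Fin 6 ≃ Fin 6 := ⟨![2, 3, 0, 1, 4, 5], ![2, 3, 0, 1, 4, 5], by decide, by decide⟩
  let g4 : Fin 6 ≃ Fin 6 := ⟨![4, 5, 0, 1, 2, 3], ![2, 3, 4, 5, 0, 1], by decide, by decide⟩
  rcases key with ⟨k1, k2, k3⟩ | ⟨k1, k2, k3⟩ | ⟨k1, k2, k3⟩ | ⟨k1, k2, k3⟩ | ⟨k1, k2, k3⟩ |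
    ⟨k1, k2, k3⟩
  · exact six_1 h hS k1 k2 k3
  · refine six_1 (h.perm g1) ?_ ?_ ?_ ?_
    · show w 0 1 + w 4 5 + w 2 3 = 6
      linarith
    · show w 0 4 + w 1 5 = w 0 1 + w 4 5 - 2
      exact k2
    · show w 0 2 + w 1 3 = w 0 1 + w 2 3
      exact k1
    · show w 4 2 + w 5 3 = w 4 5 + w 2 3
      rw [hs 4 2, hs 5 3]
      linarith
  · refine six_1 (h.perm g2) ?_ ?_ ?_ ?_
    · show w 2 3 + w 4 5 + w 0 1 = 6
      linarith
    · show w 2 4 + w 3 5 = w 2 3 + w 4 5 - 2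
      exact k3
    · show w 2 0 + w 3 1 = w 2 3 + w 0 1
      rw [hs 2 0, hs 3 1]
      linarith
    · show w 4 0 + w 5 1 = w 4 5 + w 0 1
      rw [hs 4 0, hs 5 1]
      linarith
  · exact six_2 h hS k1 k2 k3
  · refine six_2 (h.perm g3) ?_ ?_ ?_ ?_
    · show w 2 3 + w 0 1 + w 4 5 = 6
      linarith
    · show w 2 0 + w 3 1 = w 2 3 + w 0 1 - 1
      rw [hs 2 0, hs 3 1]
      linarith
    · show w 2 4 + w 3 5 = w 2 3 + w 4 5 - 1
      exact k3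
    · show w 0 4 + w 1 5 = w 0 1 + w 4 5
      exact k2
  · refine six_2 (h.perm g4) ?_ ?_ ?_ ?_
    · show w 4 5 + w 0 1 + w 2 3 = 6
      linarith
    · show w 4 0 + w 5 1 = w 4 5 + w 0 1 - 1
      rw [hs 4 0, hs 5 1]
      linarith
    · show w 4 2 + w 5 3 = w 4 5 + w 2 3 - 1
      rw [hs 4 2, hs 5 3]
      linarith
    · show w 0 2 + w 1 3 = w 0 1 + w 2 3
      exact k1

/-- the B part for `m = 26`, `N = 6` (matrices) -/
theorem k26 {w : Fin 6 → Fin 6 → ℤ} (hw : Sym w) (h1 : ∀ i j, i ≠ j → 1 ≤ w i j)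
    (hm : inn w univ = 52) (hs : Sb w 6) :
    ∃ e : Fin 6 → ℤ, IsSign e ∧ en w e = 12 ∧ 4 ≤ |df w e| := by
  classical
  by_contra hcon
  push Not at hcon
  have h6 : Six w := ⟨hw, h1, hm, fun e he => by have := hs e he; linarith,
    fun e he h => by have := hcon e he h; omega⟩
  obtain ⟨τ, hB⟩ := exists_best w
  have hτ := hB.inv
  have hfp : ∀ x, τ x ≠ x := fp_of_best hB (by simp)
  have hle := pair_bound hw hs τ hτ
  have hds := del_sum hw hτ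
  have hd0 := best_del hw hB hfp
  rw [hm] at hds
  simp only [Fintype.card_fin] at hds
  norm_num at hds
  -- labels
  obtain ⟨b, hb⟩ : ((univ : Finset (Fin 6)) \ {0, τ 0}).Nonempty := by
    rw [← Finset.card_pos]
    have h5 := Finset.le_card_sdiff ({0, τ 0} : Finset (Fin 6)) univ
    rw [Finset.card_univ, Fintype.card_fin] at h5
    have h6 : ({0, τ 0} : Finset (Fin 6)).card ≤ 2 := Finset.card_le_two
    omega
  simp only [mem_sdiff, mem_univ, true_and, mem_insert, mem_singleton, not_or] at hb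
  obtain ⟨hb0, hb1⟩ := hb
  obtain ⟨c, hc⟩ : ((univ : Finset (Fin 6)) \ {0, τ 0, b, τ b}).Nonempty := by
    rw [← Finset.card_pos]
    have h5 := Finset.le_card_sdiff ({0, τ 0, b, τ b} : Finset (Fin 6)) univ
    rw [Finset.card_univ, Fintype.card_fin] at h5
    have h6 : ({0, τ 0, b, τ b} : Finset (Fin 6)).card ≤ 4 := Finset.card_le_four
    omega
  simp only [mem_sdiff, mem_univ, true_and, mem_insert, mem_singleton, not_or] at hc
  obtain ⟨hc0, hc1, hc2, hc3⟩ := hc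
  have t0 : τ 0 ≠ 0 := hfp 0
  have tb : τ b ≠ b := hfp b
  have tc : τ c ≠ c := hfp c
  have n1 : τ b ≠ 0 := fun h => hb1 (by rw [← h, hτ])
  have n2 : τ b ≠ τ 0 := fun h => hb0 (by rw [← hτ b, h, hτ])
  have n3 : τ c ≠ 0 := fun h => hc1 (by rw [← h, hτ])
  have n4 : τ c ≠ τ 0 := fun h => hc0 (by rw [← hτ c, h, hτ])
  have n5 : τ c ≠ b := fun h => hc3 (by rw [← h, hτ])
  have n6 : τ c ≠ τ b := fun h => hc2 (by rw [← hτ c, h, hτ])
  set g : Fin 6 → Fin 6 := ![0, τ 0, b, τ b, c, τ c] with hg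
  have g0 : g 0 = 0 := rfl
  have g1 : g 1 = τ 0 := rfl
  have g2 : g 2 = b := rfl
  have g3 : g 3 = τ b := rfl
  have g4 : g 4 = c := rfl
  have g5 : g 5 = τ c := rfl
  have hinj : Function.Injective g := by
    intro i j hij
    fin_cases i <;> fin_cases j <;> first
      | rfl
      | (exfalso; revert hij; simp only [Fin.reduceFinMk, Fin.zero_eta, Fin.isValue, Fin.mk_one, g0, g1, g2, g3, g4, g5]; tauto)
  have hbij : Function.Bijective g := Finite.injective_iff_bijective.1 hinj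
  set G : Fin 6 ≃ Fin 6 := Equiv.ofBijective g hbij with hG
  have hS : ∑ x, w x (τ x) = 2 * (w 0 (τ 0) + w b (τ b) + w c (τ c)) := by
    rw [← Equiv.sum_comp G, Fin.sum_univ_six]
    show w (g 0) (τ (g 0)) + w (g 1) (τ (g 1)) + w (g 2) (τ (g 2)) + w (g 3) (τ (g 3)) +
      w (g 4) (τ (g 4)) + w (g 5) (τ (g 5)) = _
    rw [g0, g1, g2, g3, g4, g5, hτ, hτ, hτ, hw.symm (τ 0) 0, hw.symm (τ b) b, hw.symm (τ c) c]
    ring
  refine six_false (h6.perm G) ?_ ?_ ?_ ?_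
  · show w 0 (τ 0) + w b (τ b) + w c (τ c) = 6
    omega
  · show w 0 b + w (τ 0) (τ b) ≤ w 0 (τ 0) + w b (τ b)
    have h5 := best_le hw hB (a := 0) (b := τ b) (Ne.symm n1) (Ne.symm n2) t0
      (by rw [hτ]; exact Ne.symm tb)
    rw [hτ, hw.symm (τ b) (τ 0), hw.symm (τ b) b] at h5
    exact h5
  · show w 0 c + w (τ 0) (τ c) ≤ w 0 (τ 0) + w c (τ c)
    have h5 := best_le hw hB (a := 0) (b := τ c) (Ne.symm n3) (Ne.symm n4) t0
      (by rw [hτ]; exact Ne.symm tc)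
    rw [hτ, hw.symm (τ c) (τ 0), hw.symm (τ c) c] at h5
    exact h5
  · show w b c + w (τ b) (τ c) ≤ w b (τ b) + w c (τ c)
    have h5 := best_le hw hB (a := b) (b := τ c) (Ne.symm n5) (Ne.symm n6) tb
      (by rw [hτ]; exact Ne.symm tc)
    rw [hτ, hw.symm (τ c) (τ b), hw.symm (τ c) c] at h5
    exact h5

/-- B part for `m = 26`, `N = 6` -/
theorem base_B_26_6 {V : Type} [Fintype V] [DecidableEq V] {W : V → V → ℤ} {k : V → ℤ}
    (h : OO W k) (hK : ∑ i, k i = 0) {f : V → Fin 6} (hf : Col W f)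
    (hm : inn W univ = 2 * 26) (hs : Sb W 6) :
    ∃ e : V → ℤ, IsSign e ∧ en W e = 2 * 6 ∧ 2 * 2 ≤ |df W e| := by
  obtain ⟨e, he, h1, h2⟩ := k26 (push_sym0 h hK hf) (fun i j hij => one_le_push h hf hij)
    (by rw [push_inn, hm]; norm_num) (push_Sb hs f)
  rw [push_en] at h1
  rw [push_df] at h2
  exact ⟨_, fun x => he _, h1, h2⟩

/-- B part for `m = 86`, `N = 9` -/
theorem base_B_86_9 {V : Type} [Fintype V] [DecidableEq V] {W : V → V → ℤ} {k : V → ℤ}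
    (h : OO W k) (hK : ∑ i, k i = 0) {f : V → Fin 9} (hf : Col W f)
    (hm : inn W univ = 2 * 86) (hs : Sb W 10) :
    ∃ e : V → ℤ, IsSign e ∧ en W e = 2 * 10 ∧ 2 * 4 ≤ |df W e| := by
  obtain ⟨e, he, h1, h2⟩ := base_B_odd h hK hf (by norm_num) (m := 86) (s := 10) (u := 38) hm hs
    (by norm_num) (by norm_num)
  exact ⟨e, he, h1, by norm_num at h2; linarith⟩

/-- D part for `m = 128`, `N = 12` -/
theorem base_D_128_12 {V : Type} [Fintype V] [DecidableEq V] {W : V → V → ℤ} {k : V → ℤ}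
    (h : OO W k) (hK : ∑ i, k i = 0) {f : V → Fin 12} (hf : Col W f)
    (hm : inn W univ = 2 * 128) (hs : Sb W 12) : False :=
  no_E h hK hf (by norm_num) (by norm_num) (by rw [hm]; norm_num) hs

/-- B part for `m = 86`, `N = 10` -/
theorem base_B_86_10 {V : Type} [Fintype V] [DecidableEq V] {W : V → V → ℤ} {k : V → ℤ}
    (h : OO W k) (hK : ∑ i, k i = 0) {f : V → Fin 10} (hf : Col W f)
    (hm : inn W univ = 2 * 86) (hs : Sb W 10) : False :=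
  no_E h hK hf (by norm_num) (by norm_num) (by rw [hm]; norm_num) hs

end Pool.Agent.QFO
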