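import Pool.Agent.QFO.L0b

/-!
# [QFO-K75] `D(75;9)` and `D(74;9)` with one loop
-/

set_option autoImplicit false
set_option linter.unusedSectionVars false

namespace Pool.Agent.QFO

open Finset Pool.Agent.MP_710317_co.Rec Pool.Agent.MXC

section

variable {V : Type*} [Fintype V] [DecidableEq V]

/-- all weights with an end outside `T` are `2` -/
theorem en_core {w : V → V → ℤ} (hw : Sym w) {T : Finset V}
    (hT : ∀ i, i ∉ T → ∀ x, x ≠ i → w i x = 2) {e : V → ℤ} (he : IsSign e) :
    en w e = 2 * (Fintype.card V : ℤ) - 2 * ((∑ i, e i) * ∑ i, e i) - qs w T e +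
      2 * ((∑ i ∈ T, e i) * ∑ i ∈ T, e i) - 2 * T.card := by
  classical
  set w2 : V → V → ℤ := fun i j => if i = j then 0 else 2 with hw2
  have hs2 : Sym w2 := by
    refine ⟨fun i j => ?_, fun i => by simp [hw2]⟩
    simp only [hw2]
    by_cases h : i = j
    · rw [if_pos h, if_pos h.symm]
    · rw [if_neg h, if_neg (Ne.symm h)]
  have h1 := en_two hs2 (fun x y hxy => by simp only [hw2]; rw [if_neg hxy]) he
  have h2 : qs w2 T e = 2 * ((∑ i ∈ T, e i) * ∑ i ∈ T, e i) - 2 * T.card := by
    unfold qs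
    have h3 : ∀ i ∈ T, ∑ j ∈ T, w2 i j * e i * e j = 2 * (e i * ∑ j ∈ T, e j) - 2 := by
      intro i hi
      have h4 : ∀ j, w2 i j * e i * e j = 2 * (e i * e j) - (if i = j then 2 else 0) := by
        intro j
        simp only [hw2]
        by_cases h : i = j
        · rw [if_pos h, if_pos h, ← h, sign_sq he]; ring
        · rw [if_neg h, if_neg h]; ring
      rw [Finset.sum_congr rfl fun j _ => h4 j, Finset.sum_sub_distrib, ← Finset.mul_sum,
        ← Finset.mul_sum, Finset.sum_ite_eq, if_pos hi]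
    rw [Finset.sum_congr rfl h3, Finset.sum_sub_distrib, ← Finset.mul_sum, ← Finset.sum_mul,
      Finset.sum_const, nsmul_eq_mul]
    ring
  have h3 : en w e - en w2 e = - (qs w T e - qs w2 T e) := by
    unfold en qs
    rw [neg_sub_neg, neg_sub, ← Finset.sum_sub_distrib, ← Finset.sum_sub_distrib]
    have h4 : ∀ i, ∑ j, w2 i j * e i * e j - ∑ j, w i j * e i * e j =
        ∑ j, (w2 i j - w i j) * e i * e j := by
      intro i
      rw [← Finset.sum_sub_distrib]
      exact Finset.sum_congr rfl fun j _ => by ring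
    have h5 : ∀ i, ∑ j ∈ T, w2 i j * e i * e j - ∑ j ∈ T, w i j * e i * e j =
        ∑ j ∈ T, (w2 i j - w i j) * e i * e j := by
      intro i
      rw [← Finset.sum_sub_distrib]
      exact Finset.sum_congr rfl fun j _ => by ring
    rw [Finset.sum_congr rfl fun i _ => h4 i, Finset.sum_congr rfl fun i _ => h5 i]
    have h6 : ∀ i j, (i ∉ T ∨ j ∉ T) → w2 i j - w i j = 0 := by
      intro i j hij
      simp only [hw2]
      by_cases h : i = j
      · rw [if_pos h, h, hw.diag]; ring
      · rw [if_neg h]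
        rcases hij with hi | hj
        · rw [hT i hi j (Ne.symm h)]; ring
        · rw [hw.symm, hT j hj i h]; ring
    symm
    rw [← Finset.sum_subset (subset_univ T) fun i _ hi => Finset.sum_eq_zero fun j _ => by
      rw [h6 i j (Or.inl hi)]; ring]
    refine Finset.sum_congr rfl fun i _ => ?_
    refine Finset.sum_subset (subset_univ T) fun j _ hj => ?_
    rw [h6 i j (Or.inr hj)]
    ring
  linarith

theorem df_core {w : V → V → ℤ} (hw : Sym w) {T : Finset V}
    (hT : ∀ i, i ∉ T → ∀ x, x ≠ i → w i x = 2) (hV : 0 < Fintype.card V) (e : V → ℤ) :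
    df w e = 2 * ((Fintype.card V : ℤ) - 1) * ∑ i, e i +
      ∑ i ∈ T, (∑ j ∈ T, w i j - 2 * ((T.card : ℤ) - 1)) * e i := by
  classical
  have h1 : ∀ i, ∑ j, w i j = 2 * ((Fintype.card V : ℤ) - 1) +
      if i ∈ T then ∑ j ∈ T, w i j - 2 * ((T.card : ℤ) - 1) else 0 := by
    intro i
    by_cases hi : i ∈ T
    · have h9 : ∑ j ∈ Tᶜ, w i j = ∑ j ∈ Tᶜ, 2 := Finset.sum_congr rfl fun j hj => by
        rw [hw.symm, hT j (mem_compl.1 hj) i (fun h => (mem_compl.1 hj) (h ▸ hi))]
      rw [if_pos hi, ← Finset.sum_add_sum_compl T, h9,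
        Finset.sum_const, Finset.card_compl, nsmul_eq_mul, Nat.cast_sub (Finset.card_le_univ T)]
      ring
    · rw [if_neg hi, add_zero, ← Finset.add_sum_erase univ _ (mem_univ i), hw.diag,
        Finset.sum_congr rfl fun j hj => hT i hi j (ne_of_mem_erase hj), Finset.sum_const,
        Finset.card_erase_of_mem (mem_univ i), Finset.card_univ, nsmul_eq_mul, Nat.cast_sub hV]
      push_cast
      ring
  unfold df
  rw [Finset.sum_congr rfl fun i _ => by rw [← Finset.sum_mul, h1 i]]
  simp only [add_mul, Finset.sum_add_distrib]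
  rw [← Finset.mul_sum]
  congr 1
  have h2 : ∀ i, (if i ∈ T then ∑ j ∈ T, w i j - 2 * ((T.card : ℤ) - 1) else 0) * e i =
      if i ∈ T then (∑ j ∈ T, w i j - 2 * ((T.card : ℤ) - 1)) * e i else 0 := by
    intro i
    by_cases hi : i ∈ T
    · rw [if_pos hi, if_pos hi]
    · rw [if_neg hi, if_neg hi, zero_mul]
  rw [Finset.sum_congr rfl fun i _ => h2 i, Finset.sum_ite_mem, Finset.univ_inter]

end

/-- the structure for nine classes, total weight `75` and surplus `9` -/
theorem core75 {w : Fin 9 → Fin 9 → ℤ} (hw : Sym w) (h1 : ∀ i j, i ≠ j → 1 ≤ w i j)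
    (hm : inn w univ = 2 * 75) (hs : Sb w 9) : ∃ a b c : Fin 9, a ≠ b ∧ a ≠ c ∧ b ≠ c ∧
      (∀ i, i ∉ ({a, b, c} : Finset (Fin 9)) → ∀ x, x ≠ i → w i x = 2) ∧
      w a b = 3 ∧ w a c = 3 ∧ w b c = 3 := by
  classical
  obtain ⟨T, hT, hc, hin⟩ := core_set (W := w) (k := fun _ => 0)
    ⟨hw.symm, fun i => by rw [hw.diag]; ring, fun _ => le_rfl⟩ (fun _ => rfl)
    (fun x y hxy => by have := h1 x y hxy; linarith) hs hm (n := 3) (by simp) (c := 2)
    (A := 12) (B := 18) (by norm_num) (by norm_num) (by norm_num) (by norm_num)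
  norm_num at hc hin
  have hT3 : T.card ≤ 3 := by
    have : (T.card : ℤ) ≤ 3 := by linarith
    exact_mod_cast this
  have hen : ∀ x : Fin 9 → ℤ, IsSign x → ∑ i, x i = 1 →
      16 - qs w T x + 2 * ((∑ i ∈ T, x i) * ∑ i ∈ T, x i) - 2 * T.card ≤ 18 := by
    intro x hx hx1
    have h2 := en_core hw hT hx
    have h3 := hs x hx
    rw [h2, hx1, Fintype.card_fin] at h3
    norm_num at h3 ⊢
    linarith
  interval_cases hTc : T.card
  · rw [Finset.card_eq_zero] at hTc
    rw [hTc] at hin
    simp [inn] at hin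
  · rw [Finset.card_eq_one] at hTc
    obtain ⟨a, ha⟩ := hTc
    rw [ha] at hin
    simp [inn, hw.diag] at hin
  · rw [Finset.card_eq_two] at hTc
    obtain ⟨a, b, hab, hTab⟩ := hTc
    exfalso
    have h5 : w a b = 5 := by
      rw [hTab] at hin
      unfold inn at hin
      rw [Finset.sum_pair hab, Finset.sum_pair hab, Finset.sum_pair hab, hw.diag, hw.diag,
        hw.symm b a] at hin
      norm_num at hin
      linarith
    obtain ⟨x, hx, hx1, hP, hQ⟩ := ex_bal (N := 9) (h := 4) (by norm_num) {a} {b} (by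
      rw [Finset.disjoint_singleton]; exact hab) (by simp) (by simp)
    have h6 := hen x hx hx1
    have ha := hP a (mem_singleton_self a)
    have hb := hQ b (mem_singleton_self b)
    have h7 : qs w T x = -10 := by
      rw [hTab]
      unfold qs
      rw [Finset.sum_pair hab, Finset.sum_pair hab, Finset.sum_pair hab, hw.diag, hw.diag,
        hw.symm b a, ha, hb, h5]
      norm_num
    have h8 : ∑ i ∈ T, x i = 0 := by
      rw [hTab, Finset.sum_pair hab, ha, hb]
      norm_num
    rw [h7, h8] at h6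
    norm_num at h6
  · rw [Finset.card_eq_three] at hTc
    obtain ⟨a, b, c, hab, hac, hbc, hTabc⟩ := hTc
    have hsum3 : ∀ φ : Fin 9 → ℤ, ∑ i ∈ T, φ i = φ a + φ b + φ c := by
      intro φ
      rw [hTabc, Finset.sum_insert (by
        rw [mem_insert, mem_singleton, not_or]; exact ⟨hab, hac⟩), Finset.sum_pair hbc]
      ring
    have hin2 : w a b + w a c + w b c = 9 := by
      unfold inn at hin
      rw [hsum3] at hin
      simp only [hsum3, hw.diag, hw.symm b a, hw.symm c a, hw.symm c b] at hin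
      norm_num at hin
      linarith
    -- each of the three weights is at least three
    have key : ∀ u v z : Fin 9, u ≠ v → u ≠ z → v ≠ z → (∀ φ : Fin 9 → ℤ,
        ∑ i ∈ T, φ i = φ u + φ v + φ z) → w u v + w u z + w v z = 9 → 3 ≤ w u v := by
      intro u v z huv huz hvz hsum hw9
      obtain ⟨x, hx, hx1, hP, hQ⟩ := ex_bal (N := 9) (h := 4) (by norm_num) {u, v} {z} (by
        rw [Finset.disjoint_singleton_right, mem_insert, mem_singleton, not_or]
        exact ⟨Ne.symm huz, Ne.symm hvz⟩) (by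
        have : ({u, v} : Finset (Fin 9)).card ≤ 2 := Finset.card_le_two
        omega) (by simp)
      have h6 := hen x hx hx1
      have hu := hP u (by simp)
      have hv := hP v (by simp)
      have hz := hQ z (mem_singleton_self z)
      have h8 : ∑ i ∈ T, x i = 1 := by
        rw [hsum, hu, hv, hz]
        norm_num
      have h7 : qs w T x = 2 * w u v - 2 * w u z - 2 * w v z := by
        unfold qs
        rw [hsum]
        simp only [hsum, hw.diag, hw.symm v u, hw.symm z u, hw.symm z v, hu, hv, hz]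
        ring
      rw [h7, h8] at h6
      norm_num at h6
      linarith
    have k1 := key a b c hab hac hbc hsum3 hin2
    have k2 := key a c b hac hab (Ne.symm hbc) (fun φ => by rw [hsum3]; ring) (by
      rw [hw.symm c b]; linarith)
    have k3 := key b c a hbc (Ne.symm hab) (Ne.symm hac) (fun φ => by rw [hsum3]; ring) (by
      rw [hw.symm b a, hw.symm c a]; linarith)
    refine ⟨a, b, c, hab, hac, hbc, ?_, ?_, ?_, ?_⟩
    · rw [← hTabc]; exact hT
    · linarith
    · linarith
    · linarith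

/-- nine classes, total weight `75 - K`, surplus `9 + K`, `K ≤ 4` loops -/
theorem D75 {V : Type*} [Fintype V] [DecidableEq V] {W : V → V → ℤ} {k : V → ℤ}
    (h : OO W k) {f : V → Fin 9} (hf : Col W f) {K : ℤ} (hK : ∑ i, k i = K) (hK4 : K ≤ 4)
    (hm : inn W univ = 2 * (75 - K)) (hs : Sb W (9 + K)) :
    ∃ e : V → ℤ, IsSign e ∧ en W e = 2 * (9 + K) ∧ |df W e| ≤ 2 + 2 * K := by
  classical
  have hw := OP_sym h hf
  have hi := OP_inn h hf hm
  have hb := OP_Sb h hf hs
  rw [hK] at hi hb
  obtain ⟨a, b, c, hab, hac, hbc, hT, wab, wac, wbc⟩ := core75 hw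
    (fun i j hij => OP_one h hf hij) (by rw [hi]; ring) (by
      have : 9 + K - K = 9 := by ring
      rw [this] at hb
      exact hb)
  set T : Finset (Fin 9) := {a, b, c} with hTd
  have hTc : T.card = 3 := Finset.card_eq_three.2 ⟨a, b, c, hab, hac, hbc, rfl⟩
  have hsum3 : ∀ φ : Fin 9 → ℤ, ∑ i ∈ T, φ i = φ a + φ b + φ c := by
    intro φ
    rw [hTd, Finset.sum_insert (by
      rw [mem_insert, mem_singleton, not_or]; exact ⟨hab, hac⟩), Finset.sum_pair hbc]
    ring
  -- the optimal signs
  set G : (Fin 9 → ℤ) → Prop := fun x => IsSign x ∧ ∑ i, x i = 1 ∧ (∃ i ∈ T, x i = 1) ∧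
    ∃ i ∈ T, x i = -1 with hGd
  have hXT : ∀ x, G x → (∑ i ∈ T, x i = 1 ∨ ∑ i ∈ T, x i = -1) := by
    rintro x ⟨hx, _, ⟨i, hi, hi1⟩, ⟨j, hj, hj1⟩⟩
    rw [hsum3]
    rw [hTd, mem_insert, mem_insert, mem_singleton] at hi hj
    rcases hx a with ha | ha <;> rcases hx b with hb' | hb' <;> rcases hx c with hc | hc <;>
      rw [ha, hb', hc] <;> first
      | (left; norm_num; done)
      | (right; norm_num; done)
      | (exfalso
         rcases hi with hi | hi | hi <;> rcases hj with hj | hj | hj <;> subst hi <;> subst hj <;>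
           linarith)
  have hG : ∀ x, G x → IsSign x ∧ en W (fun v => x (f v)) = 2 * (9 + K) ∧ ∑ i, x i = 1 := by
    intro x hx
    have hXTx := hXT x hx
    obtain ⟨hx1, hx2, _⟩ := hx
    refine ⟨hx1, ?_, hx2⟩
    have h7 : qs (OP W f) T x = 3 * ((∑ i ∈ T, x i) * ∑ i ∈ T, x i) - 9 := by
      unfold qs
      rw [hsum3, hsum3]
      simp only [hsum3, hw.diag, hw.symm b a, hw.symm c a, hw.symm c b, wab, wac, wbc]
      have e1 := sign_sq hx1 a
      have e2 := sign_sq hx1 b
      have e3 := sign_sq hx1 c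
      linear_combination -3 * e1 - 3 * e2 - 3 * e3
    rw [OP_en h hf hx1, en_core hw hT hx1, h7, hx2, hTc, Fintype.card_fin, hK]
    rcases hXTx with h8 | h8 <;> rw [h8] <;> push_cast <;> ring
  obtain ⟨p, hp, q, hq, hpq, hk⟩ := two_unlooped (f := f) h (S := Tᶜ) (by
    rw [Finset.card_compl, hTc, Fintype.card_fin, hK]; norm_num; linarith)
  obtain ⟨x, v, hx, hv, h3, h4⟩ := const_flip h hf (by norm_num) hs hG hpq hk
    (fun a' ha' c' hc' => by
      rw [← OP_ne (Ne.symm hc')]
      refine hT a' ?_ c' hc'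
      rcases ha' with h5 | h5 <;> rw [h5]
      exacts [mem_compl.1 hp, mem_compl.1 hq])
    (fun a' ha' c' d' hc' hd' hcd => by
      have haT : a' ∉ T := by
        rcases ha' with h5 | h5 <;> rw [h5]
        exacts [mem_compl.1 hp, mem_compl.1 hq]
      by_cases hR : 2 ≤ (T \ {c', d'}).card
      · obtain ⟨u, hu, v, hv, huv⟩ := Finset.one_lt_card.1 hR
        simp only [mem_sdiff, mem_insert, mem_singleton, not_or] at hu hv
        have hua : u ≠ a' := fun h => haT (h ▸ hu.1)
        have hva : v ≠ a' := fun h => haT (h ▸ hv.1)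
        obtain ⟨x, hx, h1, hP, hQ⟩ := ex_bal (N := 9) (h := 4) (by norm_num) {a', c', u} {d', v} (by
          rw [Finset.disjoint_left]
          intro z hz hz'
          simp only [mem_insert, mem_singleton] at hz hz'
          rcases hz with hz | hz | hz <;> rcases hz' with hz' | hz' <;> rw [hz] at hz'
          · exact hd' hz'.symm
          · exact hva hz'.symm
          · exact hcd hz'
          · exact hv.2.1 hz'.symm
          · exact hu.2.2 hz'
          · exact huv hz') (by
          have : ({a', c', u} : Finset (Fin 9)).card ≤ 3 := Finset.card_le_three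
          omega) (by
          have : ({d', v} : Finset (Fin 9)).card ≤ 2 := Finset.card_le_two
          omega)
        have hxu := hP u (by simp)
        have hxv := hQ v (by simp)
        refine ⟨x, ⟨hx, h1, ⟨u, hu.1, hxu⟩, ⟨v, hv.1, hxv⟩⟩, ⟨fun i => hx _, ?_, ⟨u, hu.1, ?_⟩,
          ⟨v, hv.1, ?_⟩⟩, hP a' (by simp), hP c' (by simp), hQ d' (by simp)⟩
        · rw [← h1]
          exact Equiv.sum_comp (Equiv.swap c' d') x
        · show x (Equiv.swap c' d' u) = 1
          rw [Equiv.swap_apply_of_ne_of_ne hu.2.1 hu.2.2]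
          exact hxu
        · show x (Equiv.swap c' d' v) = -1
          rw [Equiv.swap_apply_of_ne_of_ne hv.2.1 hv.2.2]
          exact hxv
      · have hcT : c' ∈ T ∧ d' ∈ T := by
          by_contra hcon
          have h5 : (T ∩ {c', d'}).card ≤ 1 := by
            rw [Finset.card_le_one]
            intro y hy z hz
            simp only [mem_inter, mem_insert, mem_singleton] at hy hz
            obtain ⟨y1, y2⟩ := hy
            obtain ⟨z1, z2⟩ := hz
            rcases y2 with y2 | y2 <;> rcases z2 with z2 | z2 <;> subst y2 <;> subst z2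
            · rfl
            · exact absurd ⟨y1, z1⟩ hcon
            · exact absurd ⟨z1, y1⟩ hcon
            · rfl
          have h6 := Finset.card_sdiff_add_card_inter T {c', d'}
          omega
        obtain ⟨x, hx, h1, hP, hQ⟩ := ex_bal (N := 9) (h := 4) (by norm_num) {a', c'} {d'} (by
          rw [Finset.disjoint_singleton_right, mem_insert, mem_singleton, not_or]
          exact ⟨hd', Ne.symm hcd⟩) (by
          have : ({a', c'} : Finset (Fin 9)).card ≤ 2 := Finset.card_le_two
          omega) (by simp)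
        have hxc := hP c' (by simp)
        have hxd := hQ d' (by simp)
        refine ⟨x, ⟨hx, h1, ⟨c', hcT.1, hxc⟩, ⟨d', hcT.2, hxd⟩⟩, ⟨fun i => hx _, ?_,
          ⟨d', hcT.2, ?_⟩, ⟨c', hcT.1, ?_⟩⟩, hP a' (by simp), hxc, hxd⟩
        · rw [← h1]
          exact Equiv.sum_comp (Equiv.swap c' d') x
        · show x (Equiv.swap c' d' d') = 1
          rw [Equiv.swap_apply_right]
          exact hxc
        · show x (Equiv.swap c' d' c') = -1
          rw [Equiv.swap_apply_left]
          exact hxd)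
  refine ⟨_, upd_sign (fun u => hx.1 (f u)) v, h3, ?_⟩
  have h5 := OP_df h hf x
  have h6 := df_core hw hT (by simp) x
  have h8 : ∑ i ∈ T, (∑ j ∈ T, OP W f i j - 2 * ((T.card : ℤ) - 1)) * x i =
      2 * ∑ i ∈ T, x i := by
    rw [hsum3, hsum3]
    simp only [hsum3, hw.diag, hw.symm b a, hw.symm c a, hw.symm c b, wab, wac, wbc, hTc]
    push_cast
    ring
  rw [Fintype.card_fin, hx.2.1, h8] at h6
  rw [h4, h5, h6]
  have h7 := loop_bound (f := f) h hx.1
  rw [hK, abs_le] at h7
  rw [abs_le]
  have h9 := hXT x hx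
  push_cast
  rcases h9 with h9 | h9 <;> rw [h9] <;> constructor <;> linarith [h7.1, h7.2]

/-- D part for `m = 75`, `N = 9` -/
theorem base_D_75_9 {V : Type} [Fintype V] [DecidableEq V] {W : V → V → ℤ} {k : V → ℤ}
    (h : OO W k) (hK : ∑ i, k i = 0) {f : V → Fin 9} (hf : Col W f)
    (hm : inn W univ = 2 * 75) (hs : Sb W 9) :
    ∃ e : V → ℤ, IsSign e ∧ en W e = 2 * 9 ∧ |df W e| ≤ 2 * 3 := by
  obtain ⟨e, he, h1, h2⟩ := D75 h hf hK (by norm_num) (by rw [hm]; norm_num)
    (by have : (9 : ℤ) + 0 = 9 := by norm_num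
        rw [this]; exact hs)
  exact ⟨e, he, by rw [h1]; norm_num, by linarith⟩

/-- D part for `m = 74`, `N = 9`, one loop -/
theorem base_D_74_9_1 {V : Type} [Fintype V] [DecidableEq V] {W : V → V → ℤ} {k : V → ℤ}
    (h : OO W k) (hK : ∑ i, k i = 1) {f : V → Fin 9} (hf : Col W f)
    (hm : inn W univ = 2 * 74) (hs : Sb W 10) :
    ∃ e : V → ℤ, IsSign e ∧ en W e = 2 * 10 ∧ |df W e| ≤ 2 * 4 := by
  obtain ⟨e, he, h1, h2⟩ := D75 h hf hK (by norm_num) (by rw [hm]; norm_num)
    (by have : (9 : ℤ) + 1 = 10 := by norm_num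
        rw [this]; exact hs)
  exact ⟨e, he, by rw [h1]; norm_num, by linarith⟩

end Pool.Agent.QFO
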