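import Pool.Agent.QFO.L0
import Pool.Agent.QFO.K128

/-!
# [QFO-L0b] `D(19;5)` and `B(41;7)` with one loop
-/

set_option autoImplicit false
set_option linter.unusedSectionVars false

namespace Pool.Agent.QFO

open Finset Pool.Agent.MP_710317_co.Rec Pool.Agent.MXC

section

variable {V : Type*} [Fintype V] [DecidableEq V] {W : V → V → ℤ} {k : V → ℤ} {N : ℕ} {f : V → Fin N}

/-- the loops of the classes -/
def kk (k : V → ℤ) (f : V → Fin N) (a : Fin N) : ℤ := ∑ x ∈ cls f a, k x

theorem kk_nonneg (h : OO W k) (a : Fin N) : 0 ≤ kk k f a := Finset.sum_nonneg fun x _ => h.knn x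

theorem kk_sum (k : V → ℤ) (f : V → Fin N) : ∑ a, kk k f a = ∑ x, k x := cls_sum f k

/-- the matrix of the classes without its diagonal -/
def OP (W : V → V → ℤ) (f : V → Fin N) : Fin N → Fin N → ℤ := off (push W f)

theorem OP_sym (h : OO W k) (hf : Col W f) : Sym (OP W f) := off_sym (push_symK h.toSymK hf.prop)

theorem OP_en (h : OO W k) (hf : Col W f) {x : Fin N → ℤ} (hx : IsSign x) :
    en W (fun v => x (f v)) = en (OP W f) x + 2 * ∑ i, k i := by
  have h1 := off_en (push_symK h.toSymK hf.prop) hx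
  have h2 : ∑ a, ∑ x ∈ cls f a, k x = ∑ i, k i := cls_sum f k
  rw [h2, push_en] at h1
  unfold OP
  linarith

theorem OP_Sb (h : OO W k) (hf : Col W f) {s : ℤ} (hs : Sb W s) :
    Sb (OP W f) (s - ∑ i, k i) := by
  intro x hx
  have h1 := OP_en h hf hx
  have h2 := hs (fun v => x (f v)) fun v => hx _
  linarith

theorem OP_inn (h : OO W k) (hf : Col W f) {m : ℤ} (hm : inn W univ = 2 * m) :
    inn (OP W f) univ = 2 * (m + ∑ i, k i) := by
  have h1 := off_inn (push_symK h.toSymK hf.prop) univ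
  have h2 : ∑ a, ∑ x ∈ cls f a, k x = ∑ i, k i := cls_sum f k
  rw [h2, push_inn, hm] at h1
  unfold OP
  linarith

theorem OP_ne {a b : Fin N} (hab : a ≠ b) : OP W f a b = push W f a b := by
  unfold OP off
  rw [if_neg hab]

theorem OP_one (h : OO W k) (hf : Col W f) {a b : Fin N} (hab : a ≠ b) : 1 ≤ OP W f a b := by
  rw [OP_ne hab]
  exact one_le_push h hf hab

theorem OP_df (h : OO W k) (hf : Col W f) (x : Fin N → ℤ) :
    df W (fun v => x (f v)) = df (OP W f) x - 2 * ∑ a, kk k f a * x a := by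
  rw [← push_df W f x]
  unfold df
  rw [Finset.mul_sum, ← Finset.sum_sub_distrib]
  refine Finset.sum_congr rfl fun a _ => ?_
  have h1 := off_row (push_symK h.toSymK hf.prop) (fun _ => 1) univ a
  simp only [mul_one, mem_univ, if_true] at h1
  rw [← Finset.sum_mul, ← Finset.sum_mul]
  unfold OP
  rw [h1]
  unfold kk
  ring

theorem loop_bound (h : OO W k) {x : Fin N → ℤ} (hx : IsSign x) :
    |∑ a, kk k f a * x a| ≤ ∑ i, k i := by
  rw [← kk_sum k f]
  refine (Finset.abs_sum_le_sum_abs _ _).trans (Finset.sum_le_sum fun a _ => ?_)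
  rw [abs_mul, abs_of_nonneg (kk_nonneg h a)]
  rcases hx a with h1 | h1 <;> rw [h1] <;> simp

/-- two unlooped classes in a set of at least `K + 2` classes -/
theorem two_unlooped (h : OO W k) {S : Finset (Fin N)} (hS : ∑ i, k i + 2 ≤ S.card) :
    ∃ a ∈ S, ∃ b ∈ S, a ≠ b ∧ ∀ v, f v = a ∨ f v = b → k v = 0 := by
  classical
  set U : Finset (Fin N) := S.filter fun a => kk k f a = 0 with hU
  have h1 : 1 < U.card := by
    have e1 := Finset.card_filter_add_card_filter_not (s := S) (fun a => kk k f a = 0)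
    have e2 : (((S.filter fun a => ¬ kk k f a = 0).card : ℕ) : ℤ) ≤ ∑ i, k i := by
      rw [← kk_sum k f]
      calc (((S.filter fun a => ¬ kk k f a = 0).card : ℕ) : ℤ)
          = ∑ a ∈ S.filter (fun a => ¬ kk k f a = 0), (1 : ℤ) := by simp
        _ ≤ ∑ a ∈ S.filter (fun a => ¬ kk k f a = 0), kk k f a := by
            refine Finset.sum_le_sum fun a ha => ?_
            have h5 := (mem_filter.1 ha).2
            have h6 := kk_nonneg (f := f) h a
            omega
        _ ≤ ∑ a, kk k f a :=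
            Finset.sum_le_sum_of_subset_of_nonneg (subset_univ _) fun a _ _ => kk_nonneg h a
    have e3 : ((U.card : ℕ) : ℤ) + (((S.filter fun a => ¬ kk k f a = 0).card : ℕ) : ℤ) = S.card := by
      exact_mod_cast e1
    have e4 : (2 : ℤ) ≤ U.card := by linarith
    have : 2 ≤ U.card := by exact_mod_cast e4
    omega
  obtain ⟨a, ha, b, hb, hab⟩ := Finset.one_lt_card.1 h1
  obtain ⟨ha1, ha2⟩ := mem_filter.1 ha
  obtain ⟨hb1, hb2⟩ := mem_filter.1 hb
  refine ⟨a, ha1, b, hb1, hab, fun v hv => ?_⟩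
  rcases hv with hv | hv
  · exact (Finset.sum_eq_zero_iff_of_nonneg fun x _ => h.knn x).1 ha2 v (mem_cls.2 hv)
  · exact (Finset.sum_eq_zero_iff_of_nonneg fun x _ => h.knn x).1 hb2 v (mem_cls.2 hv)

/-- the surplus of a matrix with all weights equal to `2` -/
theorem en_two {V : Type*} [Fintype V] [DecidableEq V] {w : V → V → ℤ} (hw : Sym w)
    (h2 : ∀ x y, x ≠ y → w x y = 2) {e : V → ℤ} (he : IsSign e) :
    en w e = 2 * (Fintype.card V : ℤ) - 2 * ((∑ i, e i) * ∑ i, e i) := by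
  have h1 : ∀ i, ∑ j, w i j * e i * e j = 2 * (e i * ∑ j, e j) - 2 := by
    intro i
    have h3 : ∀ j, w i j * e i * e j = 2 * (e i * e j) - (if i = j then 2 else 0) := by
      intro j
      by_cases h : i = j
      · rw [if_pos h, ← h, hw.diag, sign_sq he]; ring
      · rw [if_neg h, h2 i j h]; ring
    rw [Finset.sum_congr rfl fun j _ => h3 j, Finset.sum_sub_distrib, ← Finset.mul_sum,
      ← Finset.mul_sum, Finset.sum_ite_eq, if_pos (mem_univ i)]
  unfold en
  rw [Finset.sum_congr rfl fun i _ => h1 i, Finset.sum_sub_distrib, ← Finset.mul_sum,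
    ← Finset.sum_mul, Finset.sum_const, Finset.card_univ, nsmul_eq_mul]
  ring

theorem df_two {V : Type*} [Fintype V] [DecidableEq V] {w : V → V → ℤ} (hw : Sym w)
    (h2 : ∀ x y, x ≠ y → w x y = 2) (hV : 0 < Fintype.card V) (e : V → ℤ) :
    df w e = 2 * ((Fintype.card V : ℤ) - 1) * ∑ i, e i := by
  unfold df
  rw [Finset.mul_sum]
  refine Finset.sum_congr rfl fun i _ => ?_
  rw [← Finset.sum_mul, ← Finset.add_sum_erase univ _ (mem_univ i), hw.diag,
    Finset.sum_congr rfl fun j hj => h2 i j (ne_of_mem_erase hj).symm, Finset.sum_const,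
    Finset.card_erase_of_mem (mem_univ i), Finset.card_univ, nsmul_eq_mul, Nat.cast_sub hV]
  push_cast
  ring

/-- all weights between the classes are `2`, `K + 2 ≤ N` -/
theorem two_D {V : Type*} [Fintype V] [DecidableEq V] {W : V → V → ℤ} {k : V → ℤ} {N : ℕ}
    {f : V → Fin N} (h : OO W k) (hf : Col W f) {g : ℕ} (hN : N = 2 * g + 1) (hg : 2 ≤ g) {s : ℤ}
    (hs : Sb W s) (h2 : ∀ a b, a ≠ b → OP W f a b = 2) (hsN : s = (N : ℤ) - 1 + ∑ i, k i)
    (hK : ∑ i, k i + 2 ≤ N) :
    ∃ e : V → ℤ, IsSign e ∧ en W e = 2 * s ∧ |df W e| ≤ 2 * ∑ i, k i := by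
  classical
  obtain ⟨a, _, b, _, hab, hk⟩ := two_unlooped (f := f) h (S := univ) (by
    rw [Finset.card_univ, Fintype.card_fin]; exact hK)
  have hw := OP_sym h hf
  have hG : ∀ x : Fin N → ℤ, (IsSign x ∧ ∑ i, x i = 1) →
      IsSign x ∧ en W (fun v => x (f v)) = 2 * s ∧ ∑ i, x i = 1 := by
    rintro x ⟨hx, h1⟩
    refine ⟨hx, ?_, h1⟩
    rw [OP_en h hf hx, en_two hw h2 hx, h1, Fintype.card_fin, hsN]
    ring
  obtain ⟨x, v, hx, hv, h3, h4⟩ := const_flip h hf (by omega) hs hG hab hk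
    (fun a' _ c hc => by rw [← OP_ne (Ne.symm hc)]; exact h2 a' c (Ne.symm hc))
    (fun a' _ c d hc hd hcd => by
      obtain ⟨x, hx, h1, hP, hQ⟩ := ex_bal hN {a', c} {d} (by
        rw [Finset.disjoint_singleton_right, mem_insert, mem_singleton, not_or]
        exact ⟨hd, Ne.symm hcd⟩) (by
        have : ({a', c} : Finset (Fin N)).card ≤ 2 := Finset.card_le_two
        omega) (by rw [Finset.card_singleton]; omega)
      refine ⟨x, ⟨hx, h1⟩, ⟨fun i => hx _, ?_⟩, hP a' (by simp), hP c (by simp), hQ d (by simp)⟩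
      rw [← h1]
      exact Equiv.sum_comp (Equiv.swap c d) x)
  refine ⟨_, upd_sign (fun u => hx.1 (f u)) v, h3, ?_⟩
  have h5 := OP_df h hf x
  have h6 := df_two hw h2 (by rw [Fintype.card_fin]; omega) x
  rw [Fintype.card_fin, hx.2] at h6
  rw [h4, h5, h6]
  have h7 := loop_bound (f := f) h hx.1
  rw [abs_le] at h7 ⊢
  constructor <;> linarith [h7.1, h7.2]

end

/-- D part for `m = 19`, `N = 5`, one loop -/
theorem base_D_19_5_1 {V : Type} [Fintype V] [DecidableEq V] {W : V → V → ℤ} {k : V → ℤ}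
    (h : OO W k) (hK : ∑ i, k i = 1) {f : V → Fin 5} (hf : Col W f)
    (hm : inn W univ = 2 * 19) (hs : Sb W 5) :
    ∃ e : V → ℤ, IsSign e ∧ en W e = 2 * 5 ∧ |df W e| ≤ 2 * 1 := by
  have hw := OP_sym h hf
  have hi := OP_inn h hf hm
  have hb := OP_Sb h hf hs
  rw [hK] at hi hb
  obtain ⟨T, hT, hc, _⟩ := core_set (W := OP W f) (k := fun _ => 0)
    ⟨hw.symm, fun i => by rw [hw.diag]; ring, fun _ => le_rfl⟩ (fun _ => rfl)
    (fun x y hxy => by have := OP_one h hf hxy; linarith) hb hi (n := 1) (by simp) (c := 2)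
    (A := 8) (B := 10) (by norm_num) (by norm_num) (by norm_num) (by norm_num)
  have hT0 : T = ∅ := by
    rw [← Finset.card_eq_zero]
    norm_num at hc
    have : (T.card : ℤ) ≤ 0 := by linarith
    omega
  obtain ⟨e, he, h1, h2⟩ := two_D h hf (g := 2) (by norm_num) le_rfl hs
    (fun a b hab => hT a (by rw [hT0]; exact notMem_empty a) b (Ne.symm hab))
    (by rw [hK]; norm_num) (by rw [hK]; norm_num)
  exact ⟨e, he, h1, by rw [hK] at h2; linarith⟩

/-- B part for `m = 41`, `N = 7`, one loop -/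
theorem base_B_41_7_1 {V : Type} [Fintype V] [DecidableEq V] {W : V → V → ℤ} {k : V → ℤ}
    (h : OO W k) (hK : ∑ i, k i = 1) {f : V → Fin 7} (hf : Col W f)
    (hm : inn W univ = 2 * 41) (hs : Sb W 7) :
    ∃ e : V → ℤ, IsSign e ∧ en W e = 2 * 7 ∧ 2 * 3 ≤ |df W e| := by
  have hw := OP_sym h hf
  have hi := OP_inn h hf hm
  have hb := OP_Sb h hf hs
  rw [hK] at hi hb
  obtain ⟨T, hT, hc, _⟩ := core_set (W := OP W f) (k := fun _ => 0)
    ⟨hw.symm, fun i => by rw [hw.diag]; ring, fun _ => le_rfl⟩ (fun _ => rfl)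
    (fun x y hxy => by have := OP_one h hf hxy; linarith) hb hi (n := 2) (by simp) (c := 2)
    (A := 12) (B := 16) (by norm_num) (by norm_num) (by norm_num) (by norm_num)
  have hT0 : T = ∅ := by
    rw [← Finset.card_eq_zero]
    norm_num at hc
    have : (T.card : ℤ) ≤ 0 := by linarith
    omega
  have h2 : ∀ a b, a ≠ b → OP W f a b = 2 := fun a b hab =>
    hT a (by rw [hT0]; exact notMem_empty a) b (Ne.symm hab)
  obtain ⟨x, hx, h1, -, -⟩ := ex_bal (N := 7) (h := 3) (by norm_num) ∅ ∅ (by simp) (by simp)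
    (by simp)
  refine ⟨fun v => x (f v), fun v => hx _, ?_, ?_⟩
  · rw [OP_en h hf hx, en_two hw h2 hx, h1, Fintype.card_fin, hK]
    norm_num
  · rw [OP_df h hf x, df_two hw h2 (by simp) x, h1]
    have h7 := loop_bound (f := f) h hx
    rw [hK, abs_le] at h7
    refine le_trans ?_ (le_abs_self _)
    simp only [Fintype.card_fin]
    push_cast
    linarith [h7.1, h7.2]

end Pool.Agent.QFO
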