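import Pool.Agent.QFO.VBase

/-!
# [QFO-V74] the D part of `m = 74` without loops (any number of classes)
-/

set_option autoImplicit false
set_option linter.unusedSectionVars false

namespace Pool.Agent.QFO

open Finset Pool.Agent.MP_710317_co.Rec Pool.Agent.MXC

variable {V : Type*} [Fintype V] [DecidableEq V]

/-- the cut of a set `Y ⊆ Sᶜ` joined to `z₀` in terms of the mirror side -/
theorem mir_crs {W : V → V → ℤ} {s d a b : ℤ} {S : Finset V} (_h : Vio W s d a b S) {z₀ : V}
    (hz : z₀ ∈ S) {Y : Finset V} (hY : Y ⊆ Sᶜ) (hadj : ∀ y ∈ Y, W y z₀ = 1) :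
    crs W Y (Sᶜ \ Y) = ∑ y ∈ Y, dg W y (S.erase z₀)ᶜ - Y.card - inn W Y := by
  have hS' : (S.erase z₀)ᶜ = insert z₀ Sᶜ := by
    ext x
    simp only [mem_compl, mem_erase, mem_insert]
    tauto
  have hzc : z₀ ∉ Sᶜ := by simpa using hz
  have h1 : ∑ y ∈ Y, dg W y (S.erase z₀)ᶜ = Y.card + crs W Y Sᶜ := by
    have e1 : ∀ y ∈ Y, dg W y (S.erase z₀)ᶜ = 1 + dg W y Sᶜ := by
      intro y hy
      unfold dg
      rw [hS', Finset.sum_insert hzc, hadj y hy]
    rw [Finset.sum_congr rfl e1, Finset.sum_add_distrib, sum_dg]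
    simp
  have hYY : Disjoint Y (Sᶜ \ Y) := Finset.disjoint_sdiff
  have huY : Y ∪ (Sᶜ \ Y) = Sᶜ := Finset.union_sdiff_of_subset hY
  have h2 : crs W Y Sᶜ = inn W Y + crs W Y (Sᶜ \ Y) := by
    conv_lhs => rw [← huY]
    rw [crs_union_right _ hYY]
    rfl
  linarith

/-- sum over a set of three elements of a symmetric matrix with zero diagonal -/
theorem inn_three {W : V → V → ℤ} (hs : ∀ i j, W i j = W j i) (h0 : ∀ i, W i i = 0) {x y z : V}
    (hxy : x ≠ y) (hxz : x ≠ z) (hyz : y ≠ z) :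
    inn W {x, y, z} = 2 * (W x y + W x z + W y z) := by
  have h1 : x ∉ ({y, z} : Finset V) := by
    simp only [mem_insert, mem_singleton, not_or]
    exact ⟨hxy, hxz⟩
  unfold inn
  rw [Finset.sum_insert h1, Finset.sum_pair hyz, Finset.sum_insert h1, Finset.sum_insert h1,
    Finset.sum_insert h1, Finset.sum_pair hyz, Finset.sum_pair hyz, Finset.sum_pair hyz, h0, h0, h0,
    hs y x, hs z x, hs z y]
  ring

theorem sum_three {x y z : V} (hxy : x ≠ y) (hxz : x ≠ z) (hyz : y ≠ z) (f : V → ℤ) :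
    ∑ v ∈ ({x, y, z} : Finset V), f v = f x + f y + f z := by
  have h1 : x ∉ ({y, z} : Finset V) := by
    simp only [mem_insert, mem_singleton, not_or]
    exact ⟨hxy, hxz⟩
  rw [Finset.sum_insert h1, Finset.sum_pair hyz]
  ring

theorem card_three {x y z : V} (hxy : x ≠ y) (hxz : x ≠ z) (hyz : y ≠ z) :
    ({x, y, z} : Finset V).card = 3 := Finset.card_eq_three.2 ⟨x, y, z, hxy, hxz, hyz, rfl⟩

theorem V74_core {W : V → V → ℤ} {S : Finset V} (h : Vio W 10 6 19 13 S) : False := by
  have hnum : ∀ z p : ℤ, 1 ≤ z → z < (5 : ℕ) → 0 ≤ p → p ≤ (10 : ℤ) - 6 → (6 : ℤ) + 1 ≤ z + p →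
      (z + p = 6 + 1 ∧ ((3 : ℕ) : ℤ) ≤ z) ∨
        2 * ((3 : ℕ) : ℤ) ≤ 2 * (6 + 1) * z - 2 * 19 - z * (z - 1) := by
    intro z p z1 z2 p1 p2 p3
    push_cast at z2
    interval_cases z
    · exfalso; omega
    · exfalso; omega
    · left; exact ⟨by omega, by norm_num⟩
    · right; norm_num
  have hc := Zd_card h (q := 5) (κ := 3) (by norm_num) (by norm_num) hnum
  have hne : (Zd W S 6).Nonempty := Finset.card_pos.1 (by omega)
  obtain ⟨z₀, hz₀⟩ := hne
  obtain ⟨X, hX, hXc⟩ := Finset.exists_subset_card_eq (s := Zd W S 6) (n := 3) hc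
  obtain ⟨x1, x2⟩ := Zd_cut h hX
  have hXS : X ⊆ S := fun v hv => (mem_Zs.1 (mem_Zd.1 (hX hv)).1).1
  rw [hXc] at x1 x2
  norm_num at x1 x2
  obtain ⟨S', hS'e, hm, hz', _⟩ := mirror_cut h hz₀
  obtain ⟨hz1, hz2⟩ := mem_Zd.1 hz₀
  have hzS := (mem_Zs.1 hz1).1
  obtain ⟨hz1', hz2'⟩ := mem_Zd.1 hz'
  have hlt := Zs_card_lt hm (q := 5) (by norm_num)
  have hle := Zs_le hm hz1'
  rw [hz2'] at hle
  have hP := Ps_card hm
  have hP' : (Ps W S').card ≤ 4 := by
    have : ((Ps W S').card : ℤ) ≤ 4 := by linarith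
    exact_mod_cast this
  have h7 : 7 ≤ (Zs W S').card + (Ps W S').card := by
    have : (7 : ℤ) ≤ (Zs W S').card + (Ps W S').card := by linarith
    exact_mod_cast this
  have hS'c : ∀ v, v ∈ S' → v ≠ z₀ → v ∈ Sᶜ := by
    intro v hv hvz
    rw [hS'e, mem_compl, mem_erase] at hv
    rw [mem_compl]
    intro h1
    exact hv ⟨hvz, h1⟩
  have hdeg : ∀ Y : Finset V, crs W Y univ = ∑ y ∈ Y, (dg W y S' + dg W y S'ᶜ) := by
    intro Y
    rw [← Finset.union_compl S', crs_union_right _ (disjoint_compl_right (a := S')), ← sum_dg,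
      ← sum_dg, Finset.sum_add_distrib]
  have hsubS' : Zs W S' ⊆ S' := filter_subset _ _
  by_cases hz4 : (Zs W S').card = 4
  · -- `Y = Z' - z₀`
    set Y := (Zs W S').erase z₀ with hYd
    have hYc : Y.card = 3 := by
      have h1 := Finset.card_erase_add_one hz1'
      rw [← hYd] at h1
      omega
    have hYS : Y ⊆ Sᶜ := fun v hv =>
      hS'c v (hsubS' (mem_of_mem_erase hv)) (ne_of_mem_erase hv)
    have hadj : ∀ y ∈ Y, W y z₀ = 1 := fun y hy =>
      Zs_clique hm (mem_of_mem_erase hy) hz1' (ne_of_mem_erase hy)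
    have h1 := mir_crs h hzS hYS hadj
    have h2 := clique_inn hm (X := Y) fun x hx y hy hxy =>
      Zs_clique hm (mem_of_mem_erase hx) (mem_of_mem_erase hy) hxy
    rw [← hS'e, h2, hYc] at h1
    have h3 : (18 : ℤ) ≤ ∑ y ∈ Y, dg W y S' := by
      have e1 : ∑ y ∈ Y, (6 : ℤ) ≤ ∑ y ∈ Y, dg W y S' :=
        Finset.sum_le_sum fun y hy => Zs_ge hm (mem_of_mem_erase hy)
      rw [Finset.sum_const, hYc] at e1
      norm_num at e1
      exact e1
    obtain ⟨c1, c2⟩ := combine h hXS hYS
    rw [x1, h1] at c1 c2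
    push_cast at c1 c2
    have h4 : ∑ y ∈ Y, dg W y S' = 18 := by linarith
    rw [h4] at c2
    obtain ⟨c3, _⟩ := c2 (by norm_num)
    have h5 : crs W Y univ = 36 := by
      rw [hdeg, Finset.sum_congr rfl fun y hy =>
        show dg W y S' + dg W y S'ᶜ = dg W y S' + dg W y S' by
          rw [← (mem_Zs.1 (mem_of_mem_erase hy)).2.1], Finset.sum_add_distrib, h4]
      norm_num
    rw [x2, h5] at c3
    norm_num at c3
  · -- `|Z'| = 3`, `|P'| = 4`
    have hz3 : (Zs W S').card = 3 := by omega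
    have hp4 : (Ps W S').card = 4 := by omega
    have hsubP : Ps W S' ⊆ S' := filter_subset _ _
    have hdisj := Zs_Ps_disj (W := W) (S := S')
    -- every element of `Z'` is joined to all of `Z' ∪ P'`
    have hfull : ∀ z ∈ Zs W S', ∀ j ∈ (Zs W S' ∪ Ps W S').erase z, W z j = 1 := by
      intro z hz
      refine dg_full hm ?_
      have e1 := Finset.card_erase_add_one (mem_union_left (Ps W S') hz)
      rw [Finset.card_union_of_disjoint hdisj, hz3, hp4] at e1
      have e2 : ((Zs W S' ∪ Ps W S').erase z).card = 6 := by omega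
      rw [e2, dg_erase hm, ← dg_U hm z (hsubS' hz)]
      exact_mod_cast Zs_ge hm hz
    have hZ6 : ∀ z ∈ Zs W S', dg W z S' = 6 := by
      intro z hz
      have e1 := Zs_ge hm hz
      have e2 := Zs_le hm hz
      rw [hz3, hp4] at e2
      push_cast at e2
      linarith
    have hZP : ∀ z ∈ Zs W S', ∀ p ∈ Ps W S', W p z = 1 := by
      intro z hz p hp
      rw [hm.symm p z]
      exact hfull z hz p (mem_erase.2
        ⟨fun h' => (Finset.disjoint_left.1 hdisj) hz (h' ▸ hp), mem_union_right _ hp⟩)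
    -- all gaps on `P'` are 1
    have hgap : ∀ p ∈ Ps W S', dg W p S'ᶜ = dg W p S' + 1 := by
      have e1 := gap_sum hm
      have e2 : ∑ v ∈ Ps W S', (dg W v S'ᶜ - dg W v S') ≤ 4 := by
        calc ∑ v ∈ Ps W S', (dg W v S'ᶜ - dg W v S') ≤ ∑ v ∈ S', (dg W v S'ᶜ - dg W v S') := by
              refine Finset.sum_le_sum_of_subset_of_nonneg hsubP fun v hv _ => ?_
              linarith [in_le hm hm.cr hv]
          _ = 4 := by rw [e1]; norm_num
      have e3 : ∀ v ∈ Ps W S', 0 ≤ dg W v S'ᶜ - dg W v S' - 1 := fun v hv => by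
        have := Int.add_one_le_iff.2 (mem_Ps.1 hv).2
        linarith
      have e4 : ∑ v ∈ Ps W S', (dg W v S'ᶜ - dg W v S' - 1) = 0 := by
        refine le_antisymm ?_ (Finset.sum_nonneg e3)
        rw [Finset.sum_sub_distrib]
        simp only [Finset.sum_const, nsmul_eq_mul, mul_one, hp4]
        push_cast
        linarith
      intro p hp
      have := (Finset.sum_eq_zero_iff_of_nonneg e3).1 e4 p hp
      linarith
    -- the inner degrees of `P'`
    have hPdg : ∀ p ∈ Ps W S', dg W p S' = 3 + dg W p (Ps W S') := by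
      intro p hp
      rw [dg_U hm p (hsubP hp), dg_union p hdisj]
      congr 1
      unfold dg
      rw [Finset.sum_congr rfl fun z hz => hZP z hz p hp]
      simp [hz3]
    have hinnP : inn W (Ps W S') = 8 := by
      have e1 : inn W S' = ∑ v ∈ S', dg W v S' := rfl
      have e2 : ∑ v ∈ S', dg W v S' = ∑ v ∈ Zs W S' ∪ Ps W S', dg W v S' :=
        (Finset.sum_subset sub_U fun v hv hv2 => off_U hm hv hv2).symm
      have e3 : ∑ v ∈ Zs W S', dg W v S' = 18 := by
        rw [Finset.sum_congr rfl hZ6, Finset.sum_const, hz3]; norm_num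
      have e4 : ∑ v ∈ Ps W S', dg W v S' = 12 + inn W (Ps W S') := by
        rw [Finset.sum_congr rfl hPdg, Finset.sum_add_distrib, Finset.sum_const, hp4]
        norm_num
        rfl
      rw [Finset.sum_union hdisj, e3, e4] at e2
      have e5 := hm.ha
      rw [e1, e2] at e5
      linarith
    -- the other two elements of `Z'`
    have hY0 : ((Zs W S').erase z₀).card = 2 := by
      have := Finset.card_erase_add_one hz1'
      omega
    obtain ⟨y1, y2, hy12, hY0e⟩ := Finset.card_eq_two.1 hY0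
    have hy1 : y1 ∈ (Zs W S').erase z₀ := by rw [hY0e]; simp
    have hy2 : y2 ∈ (Zs W S').erase z₀ := by rw [hY0e]; simp
    have hy1Z := mem_of_mem_erase hy1
    have hy2Z := mem_of_mem_erase hy2
    have hWyy : W y1 y2 = 1 := Zs_clique hm hy1Z hy2Z hy12
    have hWy1 : W y1 z₀ = 1 := Zs_clique hm hy1Z hz1' (ne_of_mem_erase hy1)
    have hWy2 : W y2 z₀ = 1 := Zs_clique hm hy2Z hz1' (ne_of_mem_erase hy2)
    have hPz : ∀ p ∈ Ps W S', p ≠ z₀ := fun p hp h' =>
      (Finset.disjoint_left.1 hdisj) hz1' (h' ▸ hp)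
    have hPy : ∀ p ∈ Ps W S', ∀ y ∈ Zs W S', p ≠ y := fun p hp y hy h' =>
      (Finset.disjoint_left.1 hdisj) hy (h' ▸ hp)
    have hdegy : ∀ y ∈ Zs W S', dg W y S'ᶜ = 6 := fun y hy => by
      rw [← (mem_Zs.1 hy).2.1]; exact hZ6 y hy
    by_cases hcase : ∃ v ∈ Ps W S', 3 ≤ dg W v (Ps W S')
    · obtain ⟨v, hv, hv3⟩ := hcase
      have hv4 : dg W v (Ps W S') = 3 := by
        rw [← dg_erase hm] at hv3 ⊢
        have e1 := dg_le_card hm v ((Ps W S').erase v)
        have e2 := Finset.card_erase_add_one hv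
        have e3 : ((Ps W S').erase v).card = 3 := by omega
        rw [e3] at e1
        push_cast at e1
        linarith
      have hvy1 := hPy v hv y1 hy1Z
      have hvy2 := hPy v hv y2 hy2Z
      have hYc := card_three hvy1 hvy2 hy12
      have hmem : ∀ x ∈ ({v, y1, y2} : Finset V), x = v ∨ x = y1 ∨ x = y2 := by
        intro x hx
        simpa using hx
      have hYS : ({v, y1, y2} : Finset V) ⊆ Sᶜ := by
        intro x hx
        rcases hmem x hx with h1 | h1 | h1
        · rw [h1]; exact hS'c v (hsubP hv) (hPz v hv)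
        · rw [h1]; exact hS'c y1 (hsubS' hy1Z) (ne_of_mem_erase hy1)
        · rw [h1]; exact hS'c y2 (hsubS' hy2Z) (ne_of_mem_erase hy2)
      have hadj : ∀ y ∈ ({v, y1, y2} : Finset V), W y z₀ = 1 := by
        intro x hx
        rcases hmem x hx with h1 | h1 | h1
        · rw [h1]; exact hZP z₀ hz1' v hv
        · rw [h1]; exact hWy1
        · rw [h1]; exact hWy2
      have h1 := mir_crs h hzS hYS hadj
      rw [← hS'e, sum_three hvy1 hvy2 hy12, inn_three hm.symm hm.diag hvy1 hvy2 hy12, hYc,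
        hPdg v hv, hv4, hZ6 y1 hy1Z, hZ6 y2 hy2Z, hZP y1 hy1Z v hv, hZP y2 hy2Z v hv, hWyy] at h1
      have h2 : crs W ({v, y1, y2} : Finset V) univ = 37 := by
        rw [hdeg, sum_three hvy1 hvy2 hy12, hgap v hv, hPdg v hv, hv4, hZ6 y1 hy1Z, hZ6 y2 hy2Z,
          hdegy y1 hy1Z, hdegy y2 hy2Z]
        norm_num
      norm_num at h1
      obtain ⟨_, c2⟩ := combine h hXS hYS
      rw [x1, h1, x2, h2] at c2
      obtain ⟨c3, _⟩ := c2 (by norm_num)
      norm_num at c3
    · push Not at hcase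
      have hall : ∀ v ∈ Ps W S', dg W v (Ps W S') = 2 := by
        have e1 : ∀ v ∈ Ps W S', 0 ≤ 2 - dg W v (Ps W S') := fun v hv => by
          have := hcase v hv
          linarith [Int.add_one_le_iff.2 this]
        have e2 : ∑ v ∈ Ps W S', (2 - dg W v (Ps W S')) = 0 := by
          rw [Finset.sum_sub_distrib, sum_dg, ← inn_crs, hinnP, Finset.sum_const, hp4]
          norm_num
        intro v hv
        have := (Finset.sum_eq_zero_iff_of_nonneg e1).1 e2 v hv
        linarith
      obtain ⟨v, hv⟩ : (Ps W S').Nonempty := Finset.card_pos.1 (by omega)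
      -- a non-neighbour of `v`
      obtain ⟨q, hq, hWq⟩ : ∃ q ∈ (Ps W S').erase v, W v q = 0 := by
        by_contra hcon
        push Not at hcon
        have e1 : dg W v (Ps W S') = 3 := by
          rw [← dg_erase hm]
          unfold dg
          have e2 := Finset.card_erase_add_one hv
          rw [Finset.sum_congr rfl fun j hj => (hm.val v j).resolve_left (hcon j hj)]
          simp only [Finset.sum_const, nsmul_eq_mul, mul_one]
          have e3 : ((Ps W S').erase v).card = 3 := by omega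
          rw [e3]; norm_num
        rw [hall v hv] at e1
        norm_num at e1
      have hqP := mem_of_mem_erase hq
      have hvq : v ≠ q := (ne_of_mem_erase hq).symm
      have hvy1 := hPy v hv y1 hy1Z
      have hqy1 := hPy q hqP y1 hy1Z
      have hYc := card_three hvq hvy1 hqy1
      have hmem : ∀ x ∈ ({v, q, y1} : Finset V), x = v ∨ x = q ∨ x = y1 := by
        intro x hx
        simpa using hx
      have hYS : ({v, q, y1} : Finset V) ⊆ Sᶜ := by
        intro x hx
        rcases hmem x hx with h1 | h1 | h1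
        · rw [h1]; exact hS'c v (hsubP hv) (hPz v hv)
        · rw [h1]; exact hS'c q (hsubP hqP) (hPz q hqP)
        · rw [h1]; exact hS'c y1 (hsubS' hy1Z) (ne_of_mem_erase hy1)
      have hadj : ∀ y ∈ ({v, q, y1} : Finset V), W y z₀ = 1 := by
        intro x hx
        rcases hmem x hx with h1 | h1 | h1
        · rw [h1]; exact hZP z₀ hz1' v hv
        · rw [h1]; exact hZP z₀ hz1' q hqP
        · rw [h1]; exact hWy1
      have h1 := mir_crs h hzS hYS hadj
      rw [← hS'e, sum_three hvq hvy1 hqy1, inn_three hm.symm hm.diag hvq hvy1 hqy1, hYc,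
        hPdg v hv, hPdg q hqP, hall v hv, hall q hqP, hZ6 y1 hy1Z, hWq, hZP y1 hy1Z v hv,
        hZP y1 hy1Z q hqP] at h1
      have h2 : crs W ({v, q, y1} : Finset V) univ = 34 := by
        rw [hdeg, sum_three hvq hvy1 hqy1, hgap v hv, hgap q hqP, hPdg v hv, hPdg q hqP,
          hall v hv, hall q hqP, hZ6 y1 hy1Z, hdegy y1 hy1Z]
        norm_num
      norm_num at h1
      obtain ⟨_, c2⟩ := combine h hXS hYS
      rw [x1, h1, x2, h2] at c2
      obtain ⟨c3, _⟩ := c2 (by norm_num)
      norm_num at c3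

/-- (74), K = 0 -/
theorem base_D_74_0 {W : V → V → ℤ} {k : V → ℤ} (h : OO W k) (hK : ∑ i, k i = 0)
    (hm : inn W univ = 2 * 74) (hs : Sb W 10) :
    ∃ e : V → ℤ, IsSign e ∧ en W e = 2 * 10 ∧ |df W e| ≤ 2 * 4 := by
  refine base_of_vkill (u := 32) (T_val 74 10 (by norm_num) (by decide +kernel)) (by norm_num)
    (by norm_num) (by norm_num) (fun a b h1 h2 h4 h5 W S hv => ?_) h hK hm hs
  have hd : a - b = 6 := by
    by_contra hne
    have hd5 : a - b = 8 ∨ a - b = 10 := by omega
    rcases hd5 with hd5 | hd5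
    · have ha : a = 20 := by omega
      rw [hd5, ha] at h5
      norm_num at h5
    · have ha : a = 21 := by omega
      rw [hd5, ha] at h5
      norm_num at h5
  have ha : a = 19 := by omega
  have hb : b = 13 := by omega
  subst ha hb
  norm_num at hv
  exact V74_core hv

end Pool.Agent.QFO
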