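import Pool.Agent.QFO.Ind
import Pool.Agent.QFO.V74
import Pool.Agent.QFO.BKill
import Pool.Agent.QFO.L0b
import Pool.Agent.QFO.K75
import Pool.Agent.QFO.K26
import Pool.Agent.QFO.K132
import Pool.Agent.QFO.K128

/-!
# [QFO-Base] the exceptional cases
-/

set_option autoImplicit false
set_option linter.unusedSectionVars false

namespace Pool.Agent.QFO

open Finset Pool.Agent.MP_710317_co.Rec Pool.Agent.MXC Pool.Agent.QMA

theorem beq_eq {a b : ℕ} (h : Nat.beq a b = true) : a = b := Nat.eq_of_beq_eq_true h

/-- transfer: the value of `T`, `D` -/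
theorem toBD {m t d K N : ℕ} (hm : m < 1400) (ht : tab m = t) (hd : Dt m = d)
    (H : ∀ (V : Type) [Fintype V] [DecidableEq V] (W : V → V → ℤ) (k : V → ℤ), OO W k →
      ∑ i, k i = (K : ℤ) → ∀ f : V → Fin N, Col W f → inn W univ = 2 * (m : ℤ) → Sb W (t : ℤ) →
      ∃ e : V → ℤ, IsSign e ∧ en W e = 2 * (t : ℤ) ∧ |df W e| ≤ 2 * (d : ℤ)) : BD m K N := by
  intro V _ _ W k h hK f hf hm2 hs
  have hT := T_val m t hm ht
  rw [hT] at hs ⊢
  rw [hd]
  exact H V W k h hK f hf hm2 hs

theorem toBB {m t d K N : ℕ} (hm : m < 1400) (ht : tab m = t) (hd : Bt m = d)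
    (H : ∀ (V : Type) [Fintype V] [DecidableEq V] (W : V → V → ℤ) (k : V → ℤ), OO W k →
      ∑ i, k i = (K : ℤ) → ∀ f : V → Fin N, Col W f → inn W univ = 2 * (m : ℤ) → Sb W (t : ℤ) →
      ∃ e : V → ℤ, IsSign e ∧ en W e = 2 * (t : ℤ) ∧ 2 * (d : ℤ) ≤ |df W e|) : BB m K N := by
  intro V _ _ W k h hK f hf hm2 hs
  have hT := T_val m t hm ht
  rw [hT] at hs ⊢
  rw [hd]
  exact H V W k h hK f hf hm2 hs

theorem bd_all (h74 : BD 74 1 10) : ∀ m K N, excD m K N = true → BD m K N := by
  intro m K N h
  unfold excD at h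
  simp only [Bool.or_eq_true, Bool.and_eq_true] at h
  rcases h with (((((((((h | h) | h) | h) | h) | h) | h) | h) | h) | h) | h
  · rw [beq_eq h]; exact bd_5 K N
  · rw [beq_eq h.1.1]; exact bd_7 K N
  · rw [beq_eq h.1.1, beq_eq h.1.2]
    have hK1 : K ≤ 1 := Nat.le_of_ble_eq_true h.2
    rcases Nat.eq_zero_or_pos K with h0 | h0
    · subst h0
      refine toBD (t := 5) (d := 1) (by norm_num) (by decide +kernel) (by decide +kernel) ?_
      intro V _ _ W k h hK f hf hm hs
      exact_mod_cast base_D_19_0 h (by exact_mod_cast hK) (by exact_mod_cast hm)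
        (by exact_mod_cast hs)
    · obtain rfl : K = 1 := by omega
      refine toBD (t := 5) (d := 1) (by norm_num) (by decide +kernel) (by decide +kernel) ?_
      intro V _ _ W k h hK f hf hm hs
      exact_mod_cast base_D_19_5_1 h (by exact_mod_cast hK) hf (by exact_mod_cast hm)
        (by exact_mod_cast hs)
  · rw [beq_eq h.1.1, beq_eq h.1.2, beq_eq h.2]
    refine toBD (t := 8) (d := 3) (by norm_num) (by decide +kernel) (by decide +kernel) ?_
    intro V _ _ W k h hK f hf hm hs
    exact_mod_cast base_D_50_0 h (by exact_mod_cast hK) (by exact_mod_cast hm)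
      (by exact_mod_cast hs)
  · rw [beq_eq h.1.1, beq_eq h.1.2, beq_eq h.2]
    refine toBD (t := 9) (d := 4) (by norm_num) (by decide +kernel) (by decide +kernel) ?_
    intro V _ _ W k h hK f hf hm hs
    exact_mod_cast base_D_73_0 h (by exact_mod_cast hK) (by exact_mod_cast hm)
      (by exact_mod_cast hs)
  · rw [beq_eq h.1.1, beq_eq h.1.2]
    have hK1 : K ≤ 1 := Nat.le_of_ble_eq_true h.2
    rcases Nat.eq_zero_or_pos K with h0 | h0
    · subst h0
      refine toBD (t := 10) (d := 4) (by norm_num) (by decide +kernel) (by decide +kernel) ?_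
      intro V _ _ W k h hK f hf hm hs
      exact_mod_cast base_D_74_0 h (by exact_mod_cast hK) (by exact_mod_cast hm)
        (by exact_mod_cast hs)
    · obtain rfl : K = 1 := by omega
      refine toBD (t := 10) (d := 4) (by norm_num) (by decide +kernel) (by decide +kernel) ?_
      intro V _ _ W k h hK f hf hm hs
      exact_mod_cast base_D_74_9_1 h (by exact_mod_cast hK) hf (by exact_mod_cast hm)
        (by exact_mod_cast hs)
  · rw [beq_eq h.1.1, beq_eq h.1.2]
    have hK1 : K ≤ 1 := Nat.le_of_ble_eq_true h.2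
    rcases Nat.eq_zero_or_pos K with h0 | h0
    · subst h0
      refine toBD (t := 10) (d := 4) (by norm_num) (by decide +kernel) (by decide +kernel) ?_
      intro V _ _ W k h hK f hf hm hs
      exact_mod_cast base_D_74_0 h (by exact_mod_cast hK) (by exact_mod_cast hm)
        (by exact_mod_cast hs)
    · obtain rfl : K = 1 := by omega
      exact h74
  · rw [beq_eq h.1.1, beq_eq h.1.2, beq_eq h.2]
    refine toBD (t := 9) (d := 3) (by norm_num) (by decide +kernel) (by decide +kernel) ?_
    intro V _ _ W k h hK f hf hm hs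
    exact_mod_cast base_D_75_9 h (by exact_mod_cast hK) hf (by exact_mod_cast hm)
      (by exact_mod_cast hs)
  · rw [beq_eq h.1.1, beq_eq h.1.2, beq_eq h.2]
    refine toBD (t := 12) (d := 4) (by norm_num) (by decide +kernel) (by decide +kernel) ?_
    intro V _ _ W k h hK f hf hm hs
    exact (base_D_128_11_0 h (by exact_mod_cast hK) hf (by exact_mod_cast hm)
      (by exact_mod_cast hs)).elim
  · rw [beq_eq h.1.1, beq_eq h.1.2, beq_eq h.2]
    refine toBD (t := 12) (d := 4) (by norm_num) (by decide +kernel) (by decide +kernel) ?_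
    intro V _ _ W k h hK f hf hm hs
    exact (base_D_128_12 h (by exact_mod_cast hK) hf (by exact_mod_cast hm)
      (by exact_mod_cast hs)).elim
  · rw [beq_eq h.1.1, beq_eq h.1.2, beq_eq h.2]
    refine toBD (t := 12) (d := 6) (by norm_num) (by decide +kernel) (by decide +kernel) ?_
    intro V _ _ W k h hK f hf hm hs
    exact_mod_cast base_D_132_0 h (by exact_mod_cast hK) (by exact_mod_cast hm)
      (by exact_mod_cast hs)

theorem bb_all : ∀ m K N, excB' m K N = true → BB m K N := by
  intro m K N h
  unfold excB' at h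
  simp only [Bool.or_eq_true, Bool.and_eq_true] at h
  rcases h with (((h | h) | h) | h) | h
  · rw [beq_eq h.1.1, beq_eq h.1.2, beq_eq h.2]
    refine toBB (t := 6) (d := 2) (by norm_num) (by decide +kernel) (by decide +kernel) ?_
    intro V _ _ W k h hK f hf hm hs
    exact_mod_cast base_B_26_6 h (by exact_mod_cast hK) hf (by exact_mod_cast hm)
      (by exact_mod_cast hs)
  · rw [beq_eq h.1.1, beq_eq h.1.2]
    have hK1 : K ≤ 1 := Nat.le_of_ble_eq_true h.2
    rcases Nat.eq_zero_or_pos K with h0 | h0
    · subst h0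
      refine toBB (t := 7) (d := 3) (by norm_num) (by decide +kernel) (by decide +kernel) ?_
      intro V _ _ W k h hK f hf hm hs
      exact_mod_cast base_B_41_0 h (by exact_mod_cast hK) (by exact_mod_cast hm)
        (by exact_mod_cast hs)
    · obtain rfl : K = 1 := by omega
      refine toBB (t := 7) (d := 3) (by norm_num) (by decide +kernel) (by decide +kernel) ?_
      intro V _ _ W k h hK f hf hm hs
      exact_mod_cast base_B_41_7_1 h (by exact_mod_cast hK) hf (by exact_mod_cast hm)
        (by exact_mod_cast hs)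
  · rw [beq_eq h.1.1, beq_eq h.1.2, beq_eq h.2]
    refine toBB (t := 10) (d := 4) (by norm_num) (by decide +kernel) (by decide +kernel) ?_
    intro V _ _ W k h hK f hf hm hs
    exact_mod_cast base_B_86_9 h (by exact_mod_cast hK) hf (by exact_mod_cast hm)
      (by exact_mod_cast hs)
  · rw [beq_eq h.1.1, beq_eq h.1.2, beq_eq h.2]
    refine toBB (t := 10) (d := 4) (by norm_num) (by decide +kernel) (by decide +kernel) ?_
    intro V _ _ W k h hK f hf hm hs
    exact (base_B_86_10 h (by exact_mod_cast hK) hf (by exact_mod_cast hm)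
      (by exact_mod_cast hs)).elim
  · rw [beq_eq h.1.1, beq_eq h.1.2, beq_eq h.2]
    refine toBB (t := 11) (d := 3) (by norm_num) (by decide +kernel) (by decide +kernel) ?_
    intro V _ _ W k h hK f hf hm hs
    exact_mod_cast base_B_113_11 h (by exact_mod_cast hK) hf (by exact_mod_cast hm)
      (by exact_mod_cast hs)

end Pool.Agent.QFO
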