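import Pool.Agent.QFO.VTight

/-!
# [QFO-V74K] the D part of `m = 74` with one or two loops (any number of classes)
-/

set_option autoImplicit false
set_option linter.unusedSectionVars false

namespace Pool.Agent.QFO

open Finset Pool.Agent.MP_710317_co.Rec Pool.Agent.MXC

variable {V : Type*} [Fintype V] [DecidableEq V]

section

variable {W : V → V → ℤ} {k : V → ℤ} {s d a b : ℤ} {S : Finset V}

/-- `v` unlooped: the weight to `X` without `v` -/
theorem VioK.dg_erase (h : VioK W k s d a b S) {v : V} (hv : k v = 0) (X : Finset V) :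
    dg W v (X.erase v) = dg W v X := by
  unfold dg
  by_cases hX : v ∈ X
  · rw [← Finset.add_sum_erase X _ hX, h.sk.diag, hv]
    ring
  · rw [Finset.erase_eq_of_notMem hX]

theorem VioK.nn0 (h : VioK W k s d a b S) {v : V} (hv : k v = 0) (j : V) : 0 ≤ W v j := by
  by_cases hvj : v = j
  · rw [← hvj, h.sk.diag, hv]; norm_num
  · exact h.oo.nn v j hvj

theorem VioK.dg_nn (h : VioK W k s d a b S) {v : V} (hv : k v = 0) (X : Finset V) :
    0 ≤ dg W v X := Finset.sum_nonneg fun j _ => h.nn0 hv j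

/-- moving an unlooped vertex -/
theorem VioK.move (h : VioK W k s d a b S) (X : Finset V) {v : V} (hv : v ∈ X) (hk : k v = 0) :
    crs W (X.erase v) (X.erase v)ᶜ = crs W X Xᶜ + dg W v X - dg W v Xᶜ ∧
      inn W (X.erase v) = inn W X - 2 * dg W v X ∧
      inn W (X.erase v)ᶜ = inn W Xᶜ + 2 * dg W v Xᶜ := by
  have h0 := h.dg_erase hk X
  have h0' : ∑ j ∈ X.erase v, W v j = dg W v X := h0
  have h1 := crsK_erase h.sk X hv
  have h2 := innK_erase h.sk X hv
  have h3 := innK_erase_compl h.sk X hv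
  rw [h0'] at h1 h2
  rw [hk] at h2 h3
  have h4 : ∑ j ∈ Xᶜ, W v j = dg W v Xᶜ := rfl
  rw [h4] at h1 h3
  exact ⟨h1, by linarith, by linarith⟩

/-- the unlooped vertices of gap `0` -/
def Zk (W : V → V → ℤ) (k : V → ℤ) (S : Finset V) : Finset V :=
  S.filter fun v => k v = 0 ∧ dg W v S = dg W v Sᶜ ∧ 0 < dg W v S

/-- the unlooped vertices of positive gap -/
def Pk (W : V → V → ℤ) (k : V → ℤ) (S : Finset V) : Finset V :=
  S.filter fun v => k v = 0 ∧ dg W v S < dg W v Sᶜ

theorem Zk_sub : Zk W k S ⊆ S := filter_subset _ _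

theorem Pk_sub : Pk W k S ⊆ S := filter_subset _ _

theorem Zk_Pk_disj : Disjoint (Zk W k S) (Pk W k S) := by
  rw [Finset.disjoint_left]
  intro v h1 h2
  have h3 := (mem_filter.1 h1).2.2.1
  have h4 := (mem_filter.1 h2).2.2
  linarith

theorem VioK.Zk_ge (h : VioK W k s d a b S) {z : V} (hz : z ∈ Zk W k S) : d ≤ dg W z S := by
  obtain ⟨h1, h2, h3, h4⟩ := mem_filter.1 hz
  obtain ⟨g1, g2, g3⟩ := h.move S h1 h2
  have h5 := h.min _ (by rw [g1, h.cr, h3]; ring)
  rw [g2, g3, h.ha, h.hb, ← h3] at h5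
  have h6 := h.hd
  rcases abs_cases (2 * a - 2 * dg W z S - (2 * b + 2 * dg W z S)) with ⟨h7, _⟩ | ⟨h7, _⟩ <;>
    rw [h7] at h5 <;> linarith

theorem VioK.Pk_card (h : VioK W k s d a b S) :
    ((Pk W k S).card : ℤ) + 2 * ∑ v ∈ S, k v ≤ s - d := by
  rw [← h.gap_sum]
  have h1 : ((Pk W k S).card : ℤ) = ∑ v ∈ S, (if v ∈ Pk W k S then (1 : ℤ) else 0) := by
    rw [Finset.sum_ite_mem, Finset.inter_eq_right.2 Pk_sub]
    simp
  rw [h1, Finset.mul_sum, ← Finset.sum_add_distrib]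
  refine Finset.sum_le_sum fun v hv => ?_
  have h2 := h.gapX h.cr hv
  by_cases hP : v ∈ Pk W k S
  · obtain ⟨_, h3, h4⟩ := mem_filter.1 hP
    rw [if_pos hP, h3]
    linarith [Int.add_one_le_iff.2 h4]
  · rw [if_neg hP]
    linarith

/-- an unlooped vertex of `S` outside `Z ∪ P` has no neighbour in `S` -/
theorem VioK.off (h : VioK W k s d a b S) {v : V} (hv : v ∈ S) (hk : k v = 0)
    (hZ : v ∉ Zk W k S) (hP : v ∉ Pk W k S) : dg W v S = 0 := by
  by_contra hne
  have h1 := h.dg_nn hk S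
  have h2 : 0 < dg W v S := lt_of_le_of_ne h1 (Ne.symm hne)
  have h3 := h.gapX h.cr hv
  rw [hk] at h3
  rcases eq_or_lt_of_le (show dg W v S ≤ dg W v Sᶜ by linarith) with h4 | h4
  · exact hZ (mem_filter.2 ⟨hv, hk, h4, h2⟩)
  · exact hP (mem_filter.2 ⟨hv, hk, h4⟩)

theorem VioK.le_dg (h : VioK W k s d a b S) {v j : V} (hk : k v = 0) {A : Finset V} (hj : j ∈ A) :
    W v j ≤ dg W v A :=
  Finset.single_le_sum (f := fun x => W v x) (fun x _ => h.nn0 hk x) hj

theorem VioK.off2 (h : VioK W k s d a b S) {v j : V} (hv : v ∈ S) (hj : j ∈ S) (hk : k j = 0)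
    (hZ : j ∉ Zk W k S) (hP : j ∉ Pk W k S) : W v j = 0 := by
  have h1 := h.off hj hk hZ hP
  have h2 := h.le_dg hk hv
  have h3 := h.nn0 hk v
  rw [h.sk.symm v j]
  linarith

/-- the weight inside a set is at least minus the loops -/
theorem VioK.inn_ge (h : VioK W k s d a b S) (A : Finset V) : -2 * ∑ v ∈ A, k v ≤ inn W A := by
  unfold inn
  rw [Finset.mul_sum]
  refine Finset.sum_le_sum fun v hv => ?_
  rw [← Finset.add_sum_erase A _ hv, h.sk.diag]
  have : 0 ≤ ∑ j ∈ A.erase v, W v j :=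
    Finset.sum_nonneg fun j hj => h.oo.nn v j (ne_of_mem_erase hj).symm
  linarith

/-- weights between unlooped vertices -/
theorem VioK.le1 (h : VioK W k s d a b S) {x y : V} (hx : k x = 0) (hy : k y = 0) :
    W x y ≤ 1 := by
  by_cases hxy : x = y
  · rw [← hxy, h.sk.diag, hx]; norm_num
  · have := h.oo.le x y hxy
    rw [hx, hy] at this
    linarith

theorem VioK.dg_card (h : VioK W k s d a b S) {v : V} (hv : k v = 0) {A : Finset V}
    (hA : ∀ x ∈ A, k x = 0) : dg W v A ≤ A.card := by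
  unfold dg
  calc ∑ j ∈ A, W v j ≤ ∑ j ∈ A, (1 : ℤ) := Finset.sum_le_sum fun j hj => h.le1 hv (hA j hj)
    _ = A.card := by simp

theorem VioK.dg_card' (h : VioK W k s d a b S) {v : V} {A : Finset V} (hv : v ∈ A)
    (hA : ∀ x ∈ A, k x = 0) : dg W v A ≤ (A.card : ℤ) - 1 := by
  rw [← h.dg_erase (hA v hv)]
  have h2 := h.dg_card (hA v hv) (A := A.erase v) fun x hx => hA x (mem_of_mem_erase hx)
  have h3 := Finset.card_erase_add_one hv
  have h4 : ((A.erase v).card : ℤ) + 1 = A.card := by exact_mod_cast h3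
  linarith

/-- edges with an end in `X` -/
theorem VioK.sub_bound (h : VioK W k s d a b S) {X : Finset V} (hX : X ⊆ S)
    (hXk : ∀ x ∈ X, k x = 0) :
    2 * ∑ x ∈ X, dg W x S - X.card * ((X.card : ℤ) - 1) ≤ 2 * a + 2 * ∑ v ∈ S, k v := by
  have hd : Disjoint X (S \ X) := Finset.disjoint_sdiff
  have hu : X ∪ (S \ X) = S := Finset.union_sdiff_of_subset hX
  have hsym : crs W (S \ X) X = crs W X (S \ X) := by
    unfold crs
    rw [Finset.sum_comm]
    exact Finset.sum_congr rfl fun i _ => Finset.sum_congr rfl fun j _ => h.sk.symm j i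
  have h1 : inn W S = crs W X X + 2 * crs W X (S \ X) + crs W (S \ X) (S \ X) := by
    conv_lhs => rw [← hu]
    rw [inn_crs, crs_union_left hd, crs_union_right _ hd, crs_union_right _ hd, hsym]
    ring
  have h2 : ∑ x ∈ X, dg W x S = crs W X X + crs W X (S \ X) := by
    rw [sum_dg]
    conv_lhs => rw [← hu]
    rw [crs_union_right _ hd]
  have h3 := h.inn_ge (S \ X)
  rw [inn_crs] at h3
  have h4 := h.ha
  have h5 : crs W X X ≤ X.card * ((X.card : ℤ) - 1) := by
    have e1 : crs W X X = ∑ x ∈ X, dg W x X := rfl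
    rw [e1]
    calc ∑ x ∈ X, dg W x X ≤ ∑ x ∈ X, ((X.card : ℤ) - 1) :=
          Finset.sum_le_sum fun x hx => h.dg_card' hx hXk
      _ = _ := by rw [Finset.sum_const, nsmul_eq_mul]
  have h6 : ∑ v ∈ S \ X, k v ≤ ∑ v ∈ S, k v :=
    Finset.sum_le_sum_of_subset_of_nonneg Finset.sdiff_subset fun v _ _ => h.sk.knn v
  rw [h2]
  linarith

/-- the weight to `S` of a vertex of `Z` -/
theorem VioK.Zk_le (h : VioK W k s d a b S) {z : V} (hz : z ∈ Zk W k S) :
    dg W z S ≤ (Zk W k S).card + (Pk W k S).card - 1 + 2 * ∑ v ∈ S, k v := by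
  obtain ⟨h1, h2, h3, h4⟩ := mem_filter.1 hz
  rw [← h.dg_erase h2]
  have h5 : ∀ j ∈ S.erase z, W z j ≤ (if j ∈ Zk W k S then 1 else 0) +
      (if j ∈ Pk W k S then 1 else 0) + 2 * k j := by
    intro j hj
    have hjz := ne_of_mem_erase hj
    have hjS := mem_of_mem_erase hj
    have hj0 := h.sk.knn j
    by_cases hk : k j = 0
    · have h6 := h.le1 h2 hk
      by_cases hZ : j ∈ Zk W k S
      · rw [if_pos hZ]
        split <;> linarith
      · by_cases hP : j ∈ Pk W k S
        · rw [if_neg hZ, if_pos hP]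
          linarith
        · rw [h.off2 h1 hjS hk hZ hP, if_neg hZ, if_neg hP]
          linarith
    · have h6 := h.oo.le z j hjz.symm
      rw [h2] at h6
      have h7 : 1 ≤ k j := by
        have := lt_of_le_of_ne hj0 (Ne.symm hk)
        linarith [Int.add_one_le_iff.2 this]
      have h8 : (0 : ℤ) ≤ (if j ∈ Zk W k S then 1 else 0) := by split <;> norm_num
      have h9 : (0 : ℤ) ≤ (if j ∈ Pk W k S then 1 else 0) := by split <;> norm_num
      linarith
  have h6 := Finset.sum_le_sum h5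
  rw [Finset.sum_add_distrib, Finset.sum_add_distrib, ← Finset.mul_sum] at h6
  have e1 := Finset.add_sum_erase S (fun j => if j ∈ Zk W k S then (1 : ℤ) else 0) h1
  have e2 := Finset.add_sum_erase S (fun j => if j ∈ Pk W k S then (1 : ℤ) else 0) h1
  have e3 := Finset.add_sum_erase S k h1
  have e4 : ∑ j ∈ S, (if j ∈ Zk W k S then (1 : ℤ) else 0) = (Zk W k S).card := by
    rw [Finset.sum_ite_mem, Finset.inter_eq_right.2 Zk_sub]
    simp
  have e5 : ∑ j ∈ S, (if j ∈ Pk W k S then (1 : ℤ) else 0) = (Pk W k S).card := by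
    rw [Finset.sum_ite_mem, Finset.inter_eq_right.2 Pk_sub]
    simp
  have hzP : z ∉ Pk W k S := fun h' => (Finset.disjoint_left.1 Zk_Pk_disj) hz h'
  rw [e4, if_pos hz] at e1
  rw [e5, if_neg hzP] at e2
  rw [h2] at e3
  have h7 : dg W z (S.erase z) = ∑ j ∈ S.erase z, W z j := rfl
  rw [h7]
  linarith

theorem VioK.Zk_nonempty (h : VioK W k s d a b S) (h0 : (s - d) * (s - d) < 2 * a) (hsd : d ≤ s) :
    (Zk W k S).Nonempty := by
  by_contra hcon
  rw [Finset.not_nonempty_iff_eq_empty] at hcon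
  set c : V → ℤ := fun v => (if v ∈ Pk W k S then 1 else 0) + 2 * k v with hc
  have hc0 : ∀ v, 0 ≤ c v := by
    intro v
    simp only [hc]
    have := h.sk.knn v
    split <;> linarith
  have h1 : ∀ v ∈ S, ∀ j ∈ S, W v j ≤ c v * c j := by
    intro v hv j hj
    by_cases hvj : v = j
    · rw [← hvj, h.sk.diag]
      have := h.sk.knn v
      have h2 : 0 ≤ c v * c v := mul_nonneg (hc0 v) (hc0 v)
      linarith
    · have hkey : ∀ x ∈ S, (∃ y ∈ S, W y x ≠ 0) → 1 + k x ≤ c x := by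
        intro x hx hy
        simp only [hc]
        by_cases hk : k x = 0
        · have hP : x ∈ Pk W k S := by
            by_contra hP
            obtain ⟨y, hyS, hy2⟩ := hy
            exact hy2 (h.off2 hyS hx hk (by rw [hcon]; exact notMem_empty x) hP)
          rw [if_pos hP, hk]; norm_num
        · have h7 : 1 ≤ k x := by
            have := lt_of_le_of_ne (h.sk.knn x) (Ne.symm hk)
            linarith [Int.add_one_le_iff.2 this]
          split <;> linarith
      by_cases hW : W v j = 0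
      · rw [hW]; exact mul_nonneg (hc0 v) (hc0 j)
      · have h2 := hkey j hj ⟨v, hv, hW⟩
        have h3 := hkey v hv ⟨j, hj, by rw [h.sk.symm]; exact hW⟩
        have h4 := h.oo.le v j hvj
        have h5 := h.sk.knn v
        have h6 := h.sk.knn j
        calc W v j ≤ (1 + k v) * (1 + k j) := h4
          _ ≤ c v * c j := mul_le_mul h3 h2 (by linarith) (hc0 v)
  have h2 : inn W S ≤ (∑ v ∈ S, c v) * ∑ v ∈ S, c v := by
    rw [Finset.sum_mul_sum]
    exact Finset.sum_le_sum fun v hv => Finset.sum_le_sum fun j hj => h1 v hv j hj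
  have h3 : ∑ v ∈ S, c v ≤ s - d := by
    have e1 := h.Pk_card
    have e5 : ∑ j ∈ S, (if j ∈ Pk W k S then (1 : ℤ) else 0) = (Pk W k S).card := by
      rw [Finset.sum_ite_mem, Finset.inter_eq_right.2 Pk_sub]
      simp
    simp only [hc]
    rw [Finset.sum_add_distrib, ← Finset.mul_sum, e5]
    exact e1
  have h4 : 0 ≤ ∑ v ∈ S, c v := Finset.sum_nonneg fun v _ => hc0 v
  have h5 : (∑ v ∈ S, c v) * ∑ v ∈ S, c v ≤ (s - d) * (s - d) :=
    mul_le_mul h3 h3 h4 (by linarith)
  have := h.ha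
  linarith

/-- a vertex which can be flipped -/
theorem VioK.flip_find (h : VioK W k 10 6 19 13 S) (hK : ∑ v ∈ S, k v ≤ 2) :
    ∃ z ∈ S, k z = 0 ∧ dg W z S = 6 ∧ dg W z Sᶜ = 6 := by
  by_contra hcon
  push Not at hcon
  have h7 : ∀ z ∈ Zk W k S, 7 ≤ dg W z S := by
    intro z hz
    have h1 := h.Zk_ge hz
    obtain ⟨h2, h3, h4, _⟩ := mem_filter.1 hz
    rcases eq_or_lt_of_le h1 with h5 | h5
    · exact absurd (by rw [← h4]; exact h5.symm) (hcon z h2 h3 h5.symm)
    · linarith [Int.add_one_le_iff.2 h5]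
  obtain ⟨z, hz⟩ := h.Zk_nonempty (by norm_num) (by norm_num)
  have h1 := h.Zk_le hz
  have h2 := h7 z hz
  have h3 := h.Pk_card
  have h4 : 4 ≤ (Zk W k S).card := by
    have : (4 : ℤ) ≤ (Zk W k S).card := by linarith
    exact_mod_cast this
  obtain ⟨X, hX, hXc⟩ := Finset.exists_subset_card_eq (s := Zk W k S) (n := 4) h4
  have h5 := h.sub_bound (X := X) (fun x hx => (mem_filter.1 (hX hx)).1)
    (fun x hx => (mem_filter.1 (hX hx)).2.1)
  have h6 : ∑ x ∈ X, (7 : ℤ) ≤ ∑ x ∈ X, dg W x S := Finset.sum_le_sum fun x hx => h7 x (hX hx)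
  rw [Finset.sum_const, hXc] at h6
  rw [hXc] at h5
  norm_num at h5 h6
  linarith

/-- the cut after the flip -/
theorem VioK.flip (h : VioK W k 10 6 19 13 S) {z : V} (hz : z ∈ S) (hk : k z = 0)
    (h1 : dg W z S = 6) (h2 : dg W z Sᶜ = 6) : VioK W k 10 6 19 13 (S.erase z)ᶜ ∧
      ∑ v ∈ (S.erase z)ᶜ, k v = ∑ v ∈ Sᶜ, k v ∧
      ∑ v ∈ (S.erase z)ᶜᶜ, k v = ∑ v ∈ S, k v := by
  obtain ⟨g1, g2, g3⟩ := h.move S hz hk
  rw [h1, h2, h.cr] at g1
  rw [h1, h.ha] at g2
  rw [h2, h.hb] at g3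
  have e1 : ∑ v ∈ (S.erase z)ᶜᶜ, k v = ∑ v ∈ S, k v := by
    rw [compl_compl, ← Finset.add_sum_erase S _ hz, hk, zero_add]
  refine ⟨⟨h.oo, h.opt, ?_, by rw [g3]; norm_num, by rw [compl_compl, g2]; norm_num, by norm_num,
    by norm_num, h.min⟩, ?_, e1⟩
  · rw [h.crs_compl, g1]; norm_num
  · have e2 := Finset.sum_add_sum_compl S k
    have e3 := Finset.sum_add_sum_compl (S.erase z)ᶜ k
    linarith

theorem dg_msk {v : V} (hv : v ∈ S) (A : Finset V) : dg (msk W S) v A = dg W v (A ∩ S) := by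
  unfold dg
  have e1 : ∀ j, msk W S v j = if j ∈ S then W v j else 0 := by
    intro j
    unfold msk
    by_cases hj : j ∈ S
    · rw [if_pos ⟨hv, hj⟩, if_pos hj]
    · rw [if_neg fun h' => hj h'.2, if_neg hj]
  rw [Finset.sum_congr rfl fun j _ => e1 j, Finset.sum_ite_mem]

theorem crs_msk (Q : Finset V) (hQ : Q ⊆ S) :
    crs (msk W S) Q Qᶜ = ∑ q ∈ Q, (dg W q S - dg W q Q) := by
  have e1 : crs (msk W S) Q Qᶜ = ∑ q ∈ Q, dg (msk W S) q Qᶜ := rfl
  rw [e1]
  refine Finset.sum_congr rfl fun q hq => ?_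
  have h1 := dg_split (msk W S) q Q
  rw [dg_msk (hQ hq), dg_msk (hQ hq) Q, Finset.univ_inter, Finset.inter_eq_left.2 hQ] at h1
  linarith

theorem inn_msk (Q : Finset V) (hQ : Q ⊆ S) : inn (msk W S) Q = inn W Q := by
  have e1 : inn (msk W S) Q = ∑ q ∈ Q, dg (msk W S) q Q := rfl
  rw [e1]
  refine Finset.sum_congr rfl fun q hq => ?_
  rw [dg_msk (hQ hq), Finset.inter_eq_left.2 hQ]
  rfl

/-- no complete 4-set with weights 6 -/
theorem VioK.noQ (h : VioK W k s d 19 b S)
    (hdf : ∀ e : V → ℤ, IsSign e → en (msk W S) e = 2 * 5 → |df (msk W S) e| = 2)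
    {Q : Finset V} (hQ : Q ⊆ S) (hQc : Q.card = 4) (hQk : ∀ q ∈ Q, k q = 0)
    (h1 : ∀ q ∈ Q, ∀ q' ∈ Q, q ≠ q' → W q q' = 1) (h6 : ∀ q ∈ Q, dg W q S = 6) : False := by
  have hHs := msk_symK h.sk S
  have hinn : inn (msk W S) univ = 2 * 19 := by rw [msk_inn, h.ha]
  have h3 : ∀ q ∈ Q, dg W q Q = 3 := by
    intro q hq
    rw [← h.dg_erase (hQk q hq)]
    unfold dg
    rw [Finset.sum_congr rfl fun j hj => h1 q hq j (mem_of_mem_erase hj) (ne_of_mem_erase hj).symm]
    have := Finset.card_erase_add_one hq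
    have h4 : (Q.erase q).card = 3 := by omega
    simp [h4]
  have h4 : crs (msk W S) Q Qᶜ = 12 := by
    rw [crs_msk Q hQ, Finset.sum_congr rfl fun q hq => by rw [h6 q hq, h3 q hq], Finset.sum_const,
      hQc]
    norm_num
  have h5 : inn (msk W S) Q = 12 := by
    rw [inn_msk Q hQ]
    have e1 : inn W Q = ∑ q ∈ Q, dg W q Q := rfl
    rw [e1, Finset.sum_congr rfl h3, Finset.sum_const, hQc]
    norm_num
  have h7 := tot_splitK hHs Q
  rw [hinn, h4, h5] at h7
  have h8 := hdf (sg Q) (sg_sign Q) (by rw [Pool.Agent.QFO.en_sg hHs, h4, hinn]; norm_num)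
  rw [df_sg _ hHs, h5] at h8
  have h9 : inn (msk W S) Qᶜ = 2 := by linarith
  rw [h9] at h8
  norm_num at h8

/-- one loop on each side -/
theorem VioK.kill11 (h : VioK W k 10 6 19 13 S) (hK1 : ∑ v ∈ S, k v = 1)
    (hK2 : ∑ v ∈ Sᶜ, k v = 1)
    (h19 : ∃ e : V → ℤ, IsSign e ∧ en (msk W S) e = 2 * 5 ∧ |df (msk W S) e| ≤ 2) : False := by
  have hT20 : T 20 = 4 := T_val 20 4 (by norm_num) (by decide +kernel)
  have hT14 : T 14 = 4 := T_val 14 4 (by norm_num) (by decide +kernel)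
  have hA : T (19 + ∑ i ∈ S, k i) + ∑ i ∈ S, k i = 5 := by
    rw [hK1, show (19 : ℤ) + 1 = 20 by norm_num, hT20]; norm_num
  have hB : T (13 + ∑ i ∈ Sᶜ, k i) + ∑ i ∈ Sᶜ, k i = 5 := by
    rw [hK2, show (13 : ℤ) + 1 = 14 by norm_num, hT14]; norm_num
  have hdf : ∀ e : V → ℤ, IsSign e → en (msk W S) e = 2 * 5 → |df (msk W S) e| = 2 :=
    fun e he h1 => h.tight_df hA hB (by norm_num) (by norm_num) (by norm_num) h19 he h1
  obtain ⟨hSb, _⟩ := h.tight hA hB (by norm_num)
  have hHs := msk_symK h.sk S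
  have hinn : inn (msk W S) univ = 2 * 19 := by rw [msk_inn, h.ha]
  have hcle : ∀ X : Finset V, crs (msk W S) X Xᶜ ≤ 12 := by
    intro X
    have h1 := hSb (sg X) (sg_sign X)
    rw [Pool.Agent.QFO.en_sg hHs X, hinn] at h1
    linarith
  -- the looped vertex
  obtain ⟨ω, hω, hω1⟩ : ∃ ω ∈ S, k ω ≠ 0 := by
    by_contra hcon
    push Not at hcon
    rw [Finset.sum_eq_zero hcon] at hK1
    norm_num at hK1
  have hsplit := Finset.add_sum_erase S k hω
  rw [hK1] at hsplit
  have hrest0 : ∀ v ∈ S.erase ω, 0 ≤ k v := fun v _ => h.sk.knn v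
  have hge := Finset.sum_nonneg hrest0
  have hω0 := h.sk.knn ω
  have hkω : k ω = 1 := by omega
  have hk0 : ∀ v ∈ S, v ≠ ω → k v = 0 := by
    intro v hv hne
    exact (Finset.sum_eq_zero_iff_of_nonneg hrest0).1 (by linarith) v (mem_erase.2 ⟨hne, hv⟩)
  have hPc := h.Pk_card
  rw [hK1] at hPc
  have hP2 : (Pk W k S).card ≤ 2 := by
    have : ((Pk W k S).card : ℤ) ≤ 2 := by linarith
    exact_mod_cast this
  by_cases hZ4 : 4 ≤ (Zk W k S).card
  · -- four vertices of `Z`
    obtain ⟨Q, hQ, hQc⟩ := Finset.exists_subset_card_eq (s := Zk W k S) (n := 4) hZ4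
    have hQS : Q ⊆ S := fun x hx => (mem_filter.1 (hQ hx)).1
    have hQk : ∀ q ∈ Q, k q = 0 := fun x hx => (mem_filter.1 (hQ hx)).2.1
    have hcl : ∀ q ∈ Q, ∀ q' ∈ Q, q ≠ q' → W q q' = 1 := by
      intro q hq q' hq' hne
      have h1 := h.le1 (hQk q hq) (hQk q' hq')
      have h2 := h.nn0 (hQk q hq) q'
      by_contra hW
      have h0 : W q q' = 0 := by omega
      obtain ⟨m1, m2, m3, _⟩ := mem_filter.1 (hQ hq)
      obtain ⟨m1', m2', m3', _⟩ := mem_filter.1 (hQ hq')
      obtain ⟨g1, g2, g3⟩ := h.move S m1 m2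
      have hm' : q' ∈ S.erase q := mem_erase.2 ⟨hne.symm, m1'⟩
      obtain ⟨f1, f2, f3⟩ := h.move (S.erase q) hm' m2'
      have e1 : dg W q' (S.erase q) = dg W q' S := by
        unfold dg
        rw [← Finset.add_sum_erase S _ m1, h.sk.symm q' q, h0, zero_add]
      have e2 : dg W q' (S.erase q)ᶜ = dg W q' Sᶜ := by
        have := dg_split W q' (S.erase q)
        have h5 := dg_split W q' S
        linarith
      rw [e1, e2, m3', g1, m3, h.cr] at f1
      rw [e1, g2, h.ha] at f2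
      rw [e2, g3, h.hb, ← m3, ← m3'] at f3
      have z1 := h.Zk_ge (hQ hq)
      have z2 := h.Zk_ge (hQ hq')
      have f4 : crs W ((S.erase q).erase q') ((S.erase q).erase q')ᶜ = 19 + 13 + 10 := by
        rw [f1]; ring
      have f5 := h.df_le (sg_sign ((S.erase q).erase q')) (by rw [h.en_sg, f4]; norm_num)
      rw [df_sg W h.sk, f2, f3, abs_le] at f5
      linarith [f5.1]
    refine h.noQ hdf hQS hQc hQk hcl fun q hq => ?_
    -- three vertices
    obtain ⟨q', hq', hne⟩ : ∃ q' ∈ Q, q' ≠ q := by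
      have h1 := Finset.card_erase_add_one hq
      have h2 : (Q.erase q).Nonempty := Finset.card_pos.1 (by omega)
      obtain ⟨q', h3⟩ := h2
      exact ⟨q', mem_of_mem_erase h3, ne_of_mem_erase h3⟩
    have hc3 : (Q.erase q').card = 3 := by
      have h1 := Finset.card_erase_add_one hq'
      omega
    have h3 : ∀ x ∈ Q.erase q', dg W x (Q.erase q') = 2 := by
      intro x hx
      rw [← h.dg_erase (hQk x (mem_of_mem_erase hx))]
      unfold dg
      rw [Finset.sum_congr rfl fun j hj => hcl x (mem_of_mem_erase hx) j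
        (mem_of_mem_erase (mem_of_mem_erase hj)) (ne_of_mem_erase hj).symm]
      have := Finset.card_erase_add_one hx
      have h4 : ((Q.erase q').erase x).card = 2 := by omega
      simp [h4]
    have h4 := hcle (Q.erase q')
    rw [crs_msk _ fun x hx => hQS (mem_of_mem_erase hx), Finset.sum_sub_distrib,
      Finset.sum_congr rfl h3, Finset.sum_const, hc3] at h4
    have h5 : ∀ x ∈ Q.erase q', 0 ≤ dg W x S - 6 := fun x hx => by
      have := h.Zk_ge (hQ (mem_of_mem_erase hx))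
      linarith
    have h6 : ∑ x ∈ Q.erase q', (dg W x S - 6) = 0 := by
      refine le_antisymm ?_ (Finset.sum_nonneg h5)
      rw [Finset.sum_sub_distrib, Finset.sum_const, hc3]
      norm_num at h4 ⊢
      linarith
    have := (Finset.sum_eq_zero_iff_of_nonneg h5).1 h6 q (mem_erase.2 ⟨hne.symm, hq⟩)
    linarith
  · -- `C = Z ∪ P` has at most five vertices
    set C : Finset V := Zk W k S ∪ Pk W k S with hC
    have hCS : C ⊆ S := union_subset (filter_subset _ _) (filter_subset _ _)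
    have hCk : ∀ v ∈ C, k v = 0 := by
      intro v hv
      rcases mem_union.1 hv with h1 | h1
      · exact (mem_filter.1 h1).2.1
      · exact (mem_filter.1 h1).2.1
    have hωC : ω ∉ C := fun h' => hω1 (hCk ω h')
    have hC5 : C.card ≤ 5 := by
      have h1 := Finset.card_union_le (Zk W k S) (Pk W k S)
      rw [← hC] at h1
      omega
    have hUS : insert ω C ⊆ S := insert_subset hω hCS
    have hdgU : ∀ v ∈ S, dg W v S = W v ω + dg W v C := by
      intro v hv
      have e1 : dg W v S = dg W v (insert ω C) := by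
        unfold dg
        refine (Finset.sum_subset hUS fun j hj hj2 => ?_).symm
        have hjω : j ≠ ω := fun h' => hj2 (h' ▸ mem_insert_self _ _)
        have hjC : j ∉ C := fun h' => hj2 (mem_insert_of_mem h')
        exact h.off2 hv hj (hk0 j hj hjω) (fun h' => hjC (mem_union_left _ h'))
          (fun h' => hjC (mem_union_right _ h'))
      rw [e1]
      unfold dg
      rw [Finset.sum_insert hωC]
    have htot : ∑ v ∈ S, dg W v S = 38 := by
      have : inn W S = ∑ v ∈ S, dg W v S := rfl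
      rw [← this, h.ha]; norm_num
    have htot2 : ∑ v ∈ S, dg W v S = dg W ω S + ∑ v ∈ C, dg W v S := by
      rw [← Finset.sum_insert (f := fun v => dg W v S) hωC]
      refine (Finset.sum_subset hUS fun j hj hj2 => ?_).symm
      have hjω : j ≠ ω := fun h' => hj2 (h' ▸ mem_insert_self _ _)
      have hjC : j ∉ C := fun h' => hj2 (mem_insert_of_mem h')
      exact h.off hj (hk0 j hj hjω) (fun h' => hjC (mem_union_left _ h'))
        (fun h' => hjC (mem_union_right _ h'))
    have hWω : ∀ v ∈ C, W v ω ≤ 2 := by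
      intro v hv
      have hne : v ≠ ω := fun h' => hωC (h' ▸ hv)
      have := h.oo.le v ω hne
      rw [hCk v hv, hkω] at this
      linarith
    have hdC : ∀ v ∈ C, dg W v C ≤ (C.card : ℤ) - 1 := fun v hv => h.dg_card' hv hCk
    rw [htot, hdgU ω hω, h.sk.diag, hkω, Finset.sum_congr rfl fun v hv => hdgU v (hCS hv),
      Finset.sum_add_distrib] at htot2
    have hωs : dg W ω C = ∑ v ∈ C, W v ω := Finset.sum_congr rfl fun v _ => h.sk.symm ω v
    rw [hωs] at htot2
    have s1 := Finset.sum_le_sum hWω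
    have s2 := Finset.sum_le_sum hdC
    rw [Finset.sum_const, nsmul_eq_mul] at s1 s2
    have hC5' : C.card = 5 := by
      by_contra hne
      have h1 : C.card ≤ 4 := by omega
      generalize C.card = n at s1 s2 h1
      interval_cases n <;> norm_num at s1 s2 <;> linarith
    rw [hC5'] at s1 s2 hdC
    norm_num at s1 s2 hdC
    have h1 : ∀ v ∈ C, 0 ≤ 4 - dg W v C := fun v hv => by linarith [hdC v hv]
    have h2 : ∀ v ∈ C, 0 ≤ 2 - W v ω := fun v hv => by linarith [hWω v hv]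
    have h3 : ∑ v ∈ C, (4 - dg W v C) = 0 := by
      refine le_antisymm ?_ (Finset.sum_nonneg h1)
      rw [Finset.sum_sub_distrib, Finset.sum_const, hC5']
      norm_num
      linarith
    have h4 : ∑ v ∈ C, (2 - W v ω) = 0 := by
      refine le_antisymm ?_ (Finset.sum_nonneg h2)
      rw [Finset.sum_sub_distrib, Finset.sum_const, hC5']
      norm_num
      linarith
    have h5 : ∀ v ∈ C, dg W v C = 4 := fun v hv => by
      linarith [(Finset.sum_eq_zero_iff_of_nonneg h1).1 h3 v hv]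
    have h6 : ∀ v ∈ C, W v ω = 2 := fun v hv => by
      linarith [(Finset.sum_eq_zero_iff_of_nonneg h2).1 h4 v hv]
    obtain ⟨Q, hQ, hQc⟩ := Finset.exists_subset_card_eq (s := C) (n := 4) (by omega)
    refine h.noQ hdf (fun x hx => hCS (hQ hx)) hQc (fun x hx => hCk x (hQ hx))
      (fun q hq q' hq' hne => ?_) (fun q hq => ?_)
    · -- adjacency
      have hq1 := hQ hq
      have hq2 := hQ hq'
      have g1 := h.le1 (hCk q hq1) (hCk q' hq2)
      have g2 := h.nn0 (hCk q hq1) q'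
      by_contra hW
      have h0 : W q q' = 0 := by omega
      have g3 : dg W q (C.erase q') = dg W q C := by
        unfold dg
        rw [← Finset.add_sum_erase C _ hq2, h0, zero_add]
      have g4 := h.dg_card' (v := q) (A := C.erase q') (mem_erase.2 ⟨hne, hq1⟩)
        (fun x hx => hCk x (mem_of_mem_erase hx))
      rw [g3, h5 q hq1] at g4
      have g5 := Finset.card_erase_add_one hq2
      have g6 : (C.erase q').card = 4 := by omega
      rw [g6] at g4
      norm_num at g4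
    · rw [hdgU q (hCS (hQ hq)), h6 q (hQ hq), h5 q (hQ hq)]
      norm_num

end

/-- violating cuts for `m = 74` -/
theorem vio74 {W : V → V → ℤ} {k : V → ℤ} (h : OO W k) (hm : inn W univ = 2 * 74) (hs : Sb W 10)
    (hcon : ¬ ∃ e : V → ℤ, IsSign e ∧ en W e = 2 * 10 ∧ |df W e| ≤ 2 * 4) :
    ∃ S : Finset V, VioK W k 10 6 19 13 S ∧ ∑ v ∈ S, k v ≤ 2 := by
  have hT : T 74 = 10 := T_val 74 10 (by norm_num) (by decide +kernel)
  rw [← hT] at hs hcon
  obtain ⟨S, a, b, hv, h1, h2, h3, h4⟩ := exists_vioK (u := 32) (D := 4) (by rw [hT]; norm_num)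
    (by norm_num) h hm hs hcon
  rw [hT] at hv h3 h4
  have hK0 : 0 ≤ ∑ i ∈ S, k i := Finset.sum_nonneg fun i _ => h.knn i
  have hd : a - b = 6 := by
    by_contra hne
    have hd5 : a - b = 8 ∨ a - b = 10 := by omega
    rcases hd5 with hd5 | hd5
    · have ha : a = 20 := by omega
      rw [hd5, ha] at h4
      rw [hd5] at h3
      norm_num at h4
      rcases h4 with h4 | h4 <;> linarith
    · have ha : a = 21 := by omega
      rw [hd5, ha] at h4
      rw [hd5] at h3
      norm_num at h4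
      rcases h4 with h4 | h4 <;> linarith
  have ha : a = 19 := by omega
  have hb : b = 13 := by omega
  subst ha hb
  norm_num at hv h3
  exact ⟨S, hv, by linarith⟩

theorem kill_light {W : V → V → ℤ} {k : V → ℤ} {S : Finset V} (hv : VioK W k 10 6 19 13 S)
    (hk : ∑ i ∈ S, k i = 0) (hK : ∑ i ∈ Sᶜ, k i = 1 ∨ ∑ i ∈ Sᶜ, k i = 2) : False := by
  have hT14 : T 14 = 4 := T_val 14 4 (by norm_num) (by decide +kernel)
  have hT15 : T 15 = 3 := T_val 15 3 (by norm_num) (by decide +kernel)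
  have hk0 : ∀ i ∈ S, k i = 0 := fun i hi =>
    (Finset.sum_eq_zero_iff_of_nonneg fun a _ => hv.sk.knn a).1 hk i hi
  refine hv.tight_kill hk0 (tB := 5) ?_ (by norm_num) (by norm_num) (by norm_num)
  rcases hK with h | h <;> rw [h]
  · rw [show (13 : ℤ) + 1 = 14 by norm_num, hT14]; norm_num
  · rw [show (13 : ℤ) + 2 = 15 by norm_num, hT15]; norm_num

/-- (74), K = 1 -/
theorem base_D_74_1 {W : V → V → ℤ} {k : V → ℤ} (h : OO W k) (hK : ∑ i, k i = 1)
    (hm : inn W univ = 2 * 74) (hs : Sb W 10) :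
    ∃ e : V → ℤ, IsSign e ∧ en W e = 2 * 10 ∧ |df W e| ≤ 2 * 4 := by
  by_contra hcon
  obtain ⟨S, hv, hK2⟩ := vio74 h hm hs hcon
  have h1 := Finset.sum_add_sum_compl S k
  have h2 : 0 ≤ ∑ i ∈ S, k i := Finset.sum_nonneg fun i _ => h.knn i
  have h3 : 0 ≤ ∑ i ∈ Sᶜ, k i := Finset.sum_nonneg fun i _ => h.knn i
  by_cases h4 : ∑ i ∈ S, k i = 0
  · exact kill_light hv h4 (Or.inl (by linarith))
  · have h5 : ∑ i ∈ S, k i = 1 := by omega
    obtain ⟨z, hz, hk, z1, z2⟩ := hv.flip_find hK2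
    obtain ⟨hv', g1, g2⟩ := hv.flip hz hk z1 z2
    exact kill_light hv' (by linarith) (Or.inl (by linarith))

/-- (74), K = 2; the D part of (19), K = 1, is used -/
theorem base_D_74_2 {W : V → V → ℤ} {k : V → ℤ} (h : OO W k) (hK : ∑ i, k i = 2)
    (hm : inn W univ = 2 * 74) (hs : Sb W 10)
    (h19 : ∀ (W' : V → V → ℤ) (k' : V → ℤ), OO W' k' → ∑ i, k' i = 1 → inn W' univ = 2 * 19 →
      Sb W' 5 → ∃ e : V → ℤ, IsSign e ∧ en W' e = 2 * 5 ∧ |df W' e| ≤ 2 * 1) :
    ∃ e : V → ℤ, IsSign e ∧ en W e = 2 * 10 ∧ |df W e| ≤ 2 * 4 := by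
  by_contra hcon
  obtain ⟨S, hv, hK2⟩ := vio74 h hm hs hcon
  have h1 := Finset.sum_add_sum_compl S k
  have h2 : 0 ≤ ∑ i ∈ S, k i := Finset.sum_nonneg fun i _ => h.knn i
  have h3 : 0 ≤ ∑ i ∈ Sᶜ, k i := Finset.sum_nonneg fun i _ => h.knn i
  by_cases h4 : ∑ i ∈ S, k i = 0
  · exact kill_light hv h4 (Or.inr (by linarith))
  · by_cases h5 : ∑ i ∈ S, k i = 1
    · have hT20 : T 20 = 4 := T_val 20 4 (by norm_num) (by decide +kernel)
      have hT14 : T 14 = 4 := T_val 14 4 (by norm_num) (by decide +kernel)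
      have h6 : ∑ i ∈ Sᶜ, k i = 1 := by linarith
      obtain ⟨hSb, _⟩ := hv.tight (tA := 5) (tB := 5)
        (by rw [h5, show (19 : ℤ) + 1 = 20 by norm_num, hT20]; norm_num)
        (by rw [h6, show (13 : ℤ) + 1 = 14 by norm_num, hT14]; norm_num) (by norm_num)
      have h7 := h19 (msk W S) (mkk k S) (mskT_OO h S) (by rw [sum_mkk, h5])
        (by rw [msk_inn, hv.ha]) hSb
      exact hv.kill11 h5 h6 (by simpa using h7)
    · have h6 : ∑ i ∈ S, k i = 2 := by omega
      obtain ⟨z, hz, hk, z1, z2⟩ := hv.flip_find hK2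
      obtain ⟨hv', g1, g2⟩ := hv.flip hz hk z1 z2
      exact kill_light hv' (by linarith) (Or.inr (by linarith))

end Pool.Agent.QFO
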