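import Pool.Agent.QFO.Base
import Pool.Agent.QFO.V74K

/-!
# [QFO-Base2] the last exceptional case, and the induction from `Big`
-/

set_option autoImplicit false
set_option linter.unusedSectionVars false

namespace Pool.Agent.QFO

open Finset Pool.Agent.MP_710317_co.Rec Pool.Agent.MXC Pool.Agent.QMA

theorem bd_74_1_10 : BD 74 1 10 := by
  refine toBD (t := 10) (d := 4) (by norm_num) (by decide +kernel) (by decide +kernel) ?_
  intro V _ _ W k h hK f hf hm hs
  exact_mod_cast base_D_74_1 h (by exact_mod_cast hK) (by exact_mod_cast hm)
    (by exact_mod_cast hs)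

/-- everything follows from the case `N > T m` -/
theorem all_of_big (hbig : Big) : ∀ m : ℤ, QD m ∧ QB m :=
  main_ind (bd_all bd_74_1_10) bb_all hbig

end Pool.Agent.QFO
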