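import Pool.Agent.QFO.Defs

/-!
# [QFO-B] the block rule
-/

set_option autoImplicit false
set_option linter.unusedSectionVars false

namespace Pool.Agent.QFO

open Finset Pool.Agent.MP_710317_co.Rec Pool.Agent.MXC

variable {V : Type*} [Fintype V] [DecidableEq V]

/-- restriction to `S` (zero elsewhere) -/
def msk (W : V → V → ℤ) (S : Finset V) (i j : V) : ℤ := if i ∈ S ∧ j ∈ S then W i j else 0

/-- loops of the restriction -/
def mkk (k : V → ℤ) (S : Finset V) (i : V) : ℤ := if i ∈ S then k i else 0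

theorem msk_symK {W : V → V → ℤ} {k : V → ℤ} (hw : SymK W k) (S : Finset V) :
    SymK (msk W S) (mkk k S) := by
  refine ⟨fun i j => ?_, fun i => ?_, fun i => ?_⟩
  · unfold msk
    rw [hw.symm i j]
    by_cases h : i ∈ S ∧ j ∈ S
    · rw [if_pos h, if_pos h.symm]
    · rw [if_neg h, if_neg (fun h' => h h'.symm)]
  · unfold msk mkk
    by_cases h : i ∈ S
    · rw [if_pos ⟨h, h⟩, if_pos h, hw.diag]
    · rw [if_neg (fun h' => h h'.1), if_neg h, mul_zero]
  · unfold mkk
    split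
    · exact hw.knn i
    · exact le_rfl

theorem sum_mkk (k : V → ℤ) (S : Finset V) : ∑ i, mkk k S i = ∑ i ∈ S, k i := by
  unfold mkk
  rw [Finset.sum_ite_mem, Finset.univ_inter]

theorem msk_sum (W : V → V → ℤ) (S : Finset V) (f : V → V → ℤ) :
    ∑ i, ∑ j, msk W S i j * f i j = ∑ i ∈ S, ∑ j ∈ S, W i j * f i j := by
  have h1 : ∀ i, ∑ j, msk W S i j * f i j = if i ∈ S then ∑ j ∈ S, W i j * f i j else 0 := by
    intro i
    by_cases h : i ∈ S
    · rw [if_pos h]
      have h2 : ∀ j, msk W S i j * f i j = if j ∈ S then W i j * f i j else 0 := by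
        intro j
        unfold msk
        by_cases h' : j ∈ S
        · rw [if_pos ⟨h, h'⟩, if_pos h']
        · rw [if_neg (fun h'' => h' h''.2), if_neg h', zero_mul]
      rw [Finset.sum_congr rfl fun j _ => h2 j, Finset.sum_ite_mem, Finset.univ_inter]
    · rw [if_neg h]
      refine Finset.sum_eq_zero fun j _ => ?_
      unfold msk
      rw [if_neg (fun h'' => h h''.1), zero_mul]
  rw [Finset.sum_congr rfl fun i _ => h1 i, Finset.sum_ite_mem, Finset.univ_inter]

theorem msk_inn (W : V → V → ℤ) (S : Finset V) : inn (msk W S) univ = inn W S := by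
  have := msk_sum W S (fun _ _ => 1)
  simp only [mul_one] at this
  exact this

theorem msk_en (W : V → V → ℤ) (S : Finset V) (e : V → ℤ) :
    en (msk W S) e = - ∑ i ∈ S, ∑ j ∈ S, W i j * e i * e j := by
  have := msk_sum W S (fun i j => e i * e j)
  unfold en
  simp only [mul_assoc] at this ⊢
  rw [this]

/-- the signs `e` on `S`, `σ f` off `S` -/
def glue (S : Finset V) (e f : V → ℤ) (σ : ℤ) (i : V) : ℤ := if i ∈ S then e i else σ * f i

theorem glue_sign (S : Finset V) {e f : V → ℤ} (he : IsSign e) (hf : IsSign f) {σ : ℤ}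
    (hσ : σ = 1 ∨ σ = -1) : IsSign (glue S e f σ) := by
  intro i
  unfold glue
  by_cases h : i ∈ S
  · rw [if_pos h]; exact he i
  · rw [if_neg h]
    rcases hσ with h1 | h1 <;> rcases hf i with h2 | h2 <;> rw [h1, h2] <;> norm_num

theorem glue_en {W : V → V → ℤ} {k : V → ℤ} (hw : SymK W k) (S : Finset V) {e f : V → ℤ} {σ : ℤ}
    (hσ : σ = 1 ∨ σ = -1) : en W (glue S e f σ) = en (msk W S) e + en (msk W Sᶜ) f -
      2 * σ * ∑ i ∈ S, ∑ j ∈ Sᶜ, W i j * e i * f j := by
  rw [msk_en, msk_en]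
  unfold en
  rw [← Finset.sum_add_sum_compl S]
  have hσ2 : σ * σ = 1 := by rcases hσ with h | h <;> rw [h] <;> norm_num
  have h1 : ∀ i ∈ S, ∑ j, W i j * glue S e f σ i * glue S e f σ j =
      ∑ j ∈ S, W i j * e i * e j + σ * ∑ j ∈ Sᶜ, W i j * e i * f j := by
    intro i hi
    rw [← Finset.sum_add_sum_compl S, Finset.mul_sum]
    congr 1
    · refine Finset.sum_congr rfl fun j hj => ?_
      unfold glue
      rw [if_pos hi, if_pos hj]
    · refine Finset.sum_congr rfl fun j hj => ?_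
      unfold glue
      rw [if_pos hi, if_neg (mem_compl.1 hj)]
      ring
  have h2 : ∀ i ∈ Sᶜ, ∑ j, W i j * glue S e f σ i * glue S e f σ j =
      σ * ∑ j ∈ S, W j i * e j * f i + ∑ j ∈ Sᶜ, W i j * f i * f j := by
    intro i hi
    rw [← Finset.sum_add_sum_compl S, Finset.mul_sum]
    congr 1
    · refine Finset.sum_congr rfl fun j hj => ?_
      unfold glue
      rw [if_neg (mem_compl.1 hi), if_pos hj, hw.symm i j]
      ring
    · refine Finset.sum_congr rfl fun j hj => ?_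
      unfold glue
      rw [if_neg (mem_compl.1 hi), if_neg (mem_compl.1 hj)]
      linear_combination (W i j * f i * f j) * hσ2
  rw [Finset.sum_congr rfl h1, Finset.sum_congr rfl h2, Finset.sum_add_distrib,
    Finset.sum_add_distrib, ← Finset.mul_sum, ← Finset.mul_sum]
  have h3 : ∑ i ∈ Sᶜ, ∑ j ∈ S, W j i * e j * f i = ∑ i ∈ S, ∑ j ∈ Sᶜ, W i j * e i * f j :=
    Finset.sum_comm
  rw [h3]
  ring

/-- [QFO-B] the block rule: for any two complementary sets `S`, `Sᶜ` -/
theorem block {W : V → V → ℤ} {k : V → ℤ} (hw : SymK W k) {s : ℤ} (hs : Sb W s) (S : Finset V)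
    {a b : ℤ} (ha : inn W S = 2 * a) (hb : inn W Sᶜ = 2 * b) :
    T (a + ∑ i ∈ S, k i) + ∑ i ∈ S, k i + (T (b + ∑ i ∈ Sᶜ, k i) + ∑ i ∈ Sᶜ, k i) ≤ s := by
  obtain ⟨e, he, h1⟩ := exists_sign (msk_symK hw S) (m := a) (by rw [msk_inn, ha])
  obtain ⟨f, hf, h2⟩ := exists_sign (msk_symK hw Sᶜ) (m := b) (by rw [msk_inn, hb])
  rw [sum_mkk] at h1 h2
  have h3 := hs _ (glue_sign S he hf (Or.inl rfl : (1 : ℤ) = 1 ∨ (1 : ℤ) = -1))
  have h4 := hs _ (glue_sign S he hf (Or.inr rfl : (-1 : ℤ) = 1 ∨ (-1 : ℤ) = -1))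
  rw [glue_en hw S (Or.inl rfl)] at h3
  rw [glue_en hw S (Or.inr rfl)] at h4
  linarith

end Pool.Agent.QFO
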