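import Pool.Agent.QFO.R1

/-!
# [QFO-R1m] extremal objects with many pure twins
-/

set_option autoImplicit false
set_option linter.unusedSectionVars false

namespace Pool.Agent.QFO

open Finset Pool.Agent.MP_710317_co.Rec Pool.Agent.MXC

variable {V : Type*} [Fintype V] [DecidableEq V]

/-- every optimal cut has `|d| ≤ s` -/
theorem df_le {W : V → V → ℤ} {k : V → ℤ} (hw : SymK W k) {s : ℤ} (hs : Sb W s) {e : V → ℤ}
    (he : IsSign e) (h1 : en W e = 2 * s) : |df W e| ≤ 2 * s := by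
  have key : ∀ f : V → ℤ, IsSign f → en W f = 2 * s → df W f ≤ 2 * s := by
    intro f hf h2
    set S : Finset V := pos f with hS
    have hfS : sg S = f := sg_pos hf
    have hsplit := tot_splitK hw S
    have hen := en_sg hw S
    have hdf := df_sg W hw S
    rw [hfS, h2] at hen
    rw [hfS] at hdf
    have hgap : ∀ v ∈ S, ∑ j ∈ S.erase v, W v j ≤ ∑ j ∈ Sᶜ, W v j := by
      intro v hv
      have h3 := hs _ (sg_sign (S.erase v))
      rw [en_sg hw (S.erase v), crsK_erase hw S hv] at h3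
      linarith
    have h4 := Finset.sum_le_sum hgap
    rw [sum_in hw S] at h4
    have h5 : ∑ v ∈ S, ∑ j ∈ Sᶜ, W v j = crs W S Sᶜ := rfl
    rw [h5] at h4
    have h6 : 0 ≤ ∑ v ∈ S, k v := Finset.sum_nonneg fun v _ => hw.knn v
    rw [hdf]
    linarith
  rw [abs_le]
  constructor
  · have h2 := key _ (neg_sign he) (by rw [en_neg, h1])
    rw [df_neg] at h2
    linarith
  · exact key e he h1

theorem choose_int (n : ℕ) : 2 * ((n.choose 2 : ℕ) : ℤ) = (n : ℤ) * ((n : ℤ) - 1) := by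
  rw [Nat.choose_two_right]
  have h := Nat.div_mul_cancel (Nat.even_mul_pred_self n).two_dvd
  rcases Nat.eq_zero_or_pos n with h0 | h0
  · subst h0; norm_num
  · have h2 : ((n * (n - 1) / 2 : ℕ) : ℤ) * 2 = ((n * (n - 1) : ℕ) : ℤ) := by exact_mod_cast h
    rw [mul_comm, h2]
    push_cast [Nat.cast_sub h0]
    ring

/-- extension of signs of the rest: `x = ∑ c e` can be prescribed -/
theorem extend {W : V → V → ℤ} {k c : V → ℤ} (hw : SymK W k) (hc : ∀ i, 0 ≤ c i) {L : Finset V}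
    (hL : Tw W k c L) {n : ℕ} (hn : ∑ i, c i = n) {x : ℤ} (hx : |x| + n ≤ 2 * L.card)
    (hpar : ∃ l : ℤ, x = n + 2 * l) {f : V → ℤ} (hf : IsSign f) :
    ∃ e : V → ℤ, IsSign e ∧ ∑ i, c i * e i = x ∧ en (rst W c) e = en (rst W c) f ∧
      df (rst W c) e = df (rst W c) f := by
  obtain ⟨l, hl⟩ := par_sum (c := c) hf Lᶜ
  have hLn : ∑ i ∈ Lᶜ, c i = n - L.card := by
    have h1 := Finset.sum_add_sum_compl L c
    rw [hn, Finset.sum_congr rfl hL.one] at h1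
    simp only [Finset.sum_const, nsmul_eq_mul, mul_one] at h1
    linarith
  have habs : |∑ i ∈ Lᶜ, c i * f i| ≤ n - L.card := by
    rw [← hLn]
    refine (Finset.abs_sum_le_sum_abs _ _).trans (Finset.sum_le_sum fun i _ => ?_)
    rw [abs_mul, abs_of_nonneg (hc i)]
    rcases hf i with h | h <;> rw [h] <;> simp
  obtain ⟨l', hl'⟩ := hpar
  obtain ⟨e, he, hef, hsum⟩ := adjust L f hf (x := x - ∑ i ∈ Lᶜ, c i * f i) (by
    refine (abs_sub _ _).trans ?_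
    linarith) ⟨l' - l, by rw [hl, hLn, hl']; ring⟩
  refine ⟨e, he, ?_, rst_congr hw hL hef⟩
  rw [csum_split hL, hsum]
  have : ∑ i ∈ Lᶜ, c i * e i = ∑ i ∈ Lᶜ, c i * f i :=
    Finset.sum_congr rfl fun i hi => by rw [hef i (mem_compl.1 hi)]
  rw [this]
  ring

/-- extremal objects with many pure twins: the rest is extremal -/
theorem r1_rest {W : V → V → ℤ} {k c : V → ℤ} (hw : SymK W k) (hc : ∀ i, 0 ≤ c i) {L : Finset V}
    (hL : Tw W k c L) {n : ℕ} (hn : ∑ i, c i = n) (hLn : n + n % 2 ≤ 2 * L.card) {m : ℤ}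
    (hm : inn W univ = 2 * m) (hs : Sb W (T m)) (hcc : ∀ i, 0 ≤ k i + ch (c i)) :
    T m = ((n / 2 : ℕ) : ℤ) + T (m - ((n.choose 2 : ℕ) : ℤ)) ∧
    inn (rst W c) univ = 2 * (m - ((n.choose 2 : ℕ) : ℤ)) ∧
    Sb (rst W c) (T (m - ((n.choose 2 : ℕ) : ℤ))) := by
  set r : ℤ := m - ((n.choose 2 : ℕ) : ℤ) with hr
  have hinn : inn (rst W c) univ = 2 * r := by
    rw [rst_inn, hn, hm, hr]
    have := choose_int n
    linarith
  have hn2 := Nat.div_add_mod n 2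
  have hmod : n % 2 = 0 ∨ n % 2 = 1 := Nat.mod_two_eq_zero_or_one n
  have hSb : Sb (rst W c) (T m - ((n / 2 : ℕ) : ℤ)) := by
    intro f hf
    obtain ⟨e, he, h1, h2, _⟩ := extend hw hc hL hn (x := ((n % 2 : ℕ) : ℤ))
      (by
        rw [abs_of_nonneg (Int.natCast_nonneg _)]
        have : ((n + n % 2 : ℕ) : ℤ) ≤ ((2 * L.card : ℕ) : ℤ) := by exact_mod_cast hLn
        push_cast at this ⊢
        linarith)
      ⟨-((n / 2 : ℕ) : ℤ), by omega⟩ hf
    have h3 := hs e he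
    rw [rst_en W c he, h1, hn, h2] at h3
    have h4 : ((n % 2 : ℕ) : ℤ) * ((n % 2 : ℕ) : ℤ) = ((n % 2 : ℕ) : ℤ) := by
      rcases hmod with h | h <;> rw [h] <;> norm_num
    rw [h4] at h3
    omega
  have hsymK : SymK (rst W c) (fun i => k i + ch (c i)) := by
    refine ⟨fun i j => ?_, fun i => ?_, hcc⟩
    · unfold rst
      rw [hw.symm i j]
      by_cases hij : i = j
      · rw [if_pos hij, if_pos hij.symm, hij]
      · rw [if_neg hij, if_neg (Ne.symm hij)]; ring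
    · unfold rst
      rw [if_pos rfl, hw.diag]
      have := two_ch (c i)
      linarith
  have h1 := T_le_Sb hsymK hinn hSb
  have h2 : 0 ≤ ∑ i, (k i + ch (c i)) := Finset.sum_nonneg fun i _ => hcc i
  have h3 := T_le_add r _ h2
  have h4 := T_step n m
  have h5 : T m = ((n / 2 : ℕ) : ℤ) + T r := le_antisymm h4 (by linarith)
  refine ⟨h5, hinn, ?_⟩
  have h6 : T r = T m - ((n / 2 : ℕ) : ℤ) := by linarith
  rw [h6]
  exact hSb

/-- optimal cuts of the rest give optimal cuts -/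
theorem r1_cut {W : V → V → ℤ} {k c : V → ℤ} (hw : SymK W k) (hc : ∀ i, 0 ≤ c i) {L : Finset V}
    (hL : Tw W k c L) {n : ℕ} (hn : ∑ i, c i = n) (hLn : n + n % 2 ≤ 2 * L.card) {m : ℤ}
    (hT : T m = ((n / 2 : ℕ) : ℤ) + T (m - ((n.choose 2 : ℕ) : ℤ))) {f : V → ℤ}
    (hf : IsSign f) (hf2 : en (rst W c) f = 2 * T (m - ((n.choose 2 : ℕ) : ℤ))) {σ : ℤ}
    (hσ : σ = 1 ∨ σ = -1) : ∃ e : V → ℤ, IsSign e ∧ en W e = 2 * T m ∧
      df W e = ((n : ℤ) - 1) * (σ * ((n % 2 : ℕ) : ℤ)) + df (rst W c) f := by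
  have hn2 := Nat.div_add_mod n 2
  have hmod : n % 2 = 0 ∨ n % 2 = 1 := Nat.mod_two_eq_zero_or_one n
  have hσ2 : |σ * ((n % 2 : ℕ) : ℤ)| = ((n % 2 : ℕ) : ℤ) := by
    rw [abs_mul, abs_of_nonneg (Int.natCast_nonneg (n % 2))]
    rcases hσ with h | h <;> rw [h] <;> simp
  obtain ⟨e, he, h1, h2, h3⟩ := extend hw hc hL hn (x := σ * ((n % 2 : ℕ) : ℤ))
    (by
      rw [hσ2]
      have : ((n + n % 2 : ℕ) : ℤ) ≤ ((2 * L.card : ℕ) : ℤ) := by exact_mod_cast hLn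
      push_cast at this ⊢
      linarith)
    (by
      rcases hmod with h | h
      · exact ⟨-((n / 2 : ℕ) : ℤ), by rw [h]; push_cast; omega⟩
      · rcases hσ with h' | h'
        · exact ⟨-((n / 2 : ℕ) : ℤ), by rw [h, h']; push_cast; omega⟩
        · exact ⟨-((n / 2 : ℕ) : ℤ) - 1, by rw [h, h']; push_cast; omega⟩) hf
  refine ⟨e, he, ?_, ?_⟩
  · rw [rst_en W c he, h1, hn, h2, hf2, hT]
    have h4 : σ * ((n % 2 : ℕ) : ℤ) * (σ * ((n % 2 : ℕ) : ℤ)) = ((n % 2 : ℕ) : ℤ) := by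
      rcases hmod with h | h <;> rcases hσ with h' | h' <;> rw [h, h'] <;> norm_num
    rw [h4]
    omega
  · rw [rst_df W c e, h1, hn, h3]

/-- [QFO-R1m] transfer of the D part and the B part -/
theorem r1_main {W : V → V → ℤ} {k c : V → ℤ} (h : OS W k) (hc : ∀ i, 0 ≤ c i) {L : Finset V}
    (hL : Tw W k c L) {n : ℕ} (hn : ∑ i, c i = n) (hLn : n + n % 2 ≤ 2 * L.card) {m : ℤ}
    (hm : inn W univ = 2 * m) (hs : Sb W (T m)) {D B : ℤ}
    (hD : ∃ f : V → ℤ, IsSign f ∧ en (rst W c) f = 2 * T (m - ((n.choose 2 : ℕ) : ℤ)) ∧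
      |df (rst W c) f| ≤ 2 * D)
    (hB : ∃ f : V → ℤ, IsSign f ∧ en (rst W c) f = 2 * T (m - ((n.choose 2 : ℕ) : ℤ)) ∧
      2 * B ≤ |df (rst W c) f|) :
    T m = ((n / 2 : ℕ) : ℤ) + T (m - ((n.choose 2 : ℕ) : ℤ)) ∧
    (n % 2 = 0 → (∃ e : V → ℤ, IsSign e ∧ en W e = 2 * T m ∧ |df W e| ≤ 2 * D) ∧
      ∃ e : V → ℤ, IsSign e ∧ en W e = 2 * T m ∧ 2 * B ≤ |df W e|) ∧
    (n % 2 = 1 →
      (2 * T (m - ((n.choose 2 : ℕ) : ℤ)) ≤ (n : ℤ) - 1 →
        ∃ e : V → ℤ, IsSign e ∧ en W e = 2 * T m ∧ |df W e| ≤ (n : ℤ) - 1 - 2 * B) ∧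
      ∃ e : V → ℤ, IsSign e ∧ en W e = 2 * T m ∧ (n : ℤ) - 1 + 2 * B ≤ |df W e|) := by
  have hw := h.toSymK
  obtain ⟨hT, hinn, hSb⟩ := r1_rest hw hc hL hn hLn hm hs
    (fun i => add_nonneg (h.knn i) (ch_nonneg (hc i)))
  refine ⟨hT, fun h0 => ⟨?_, ?_⟩, fun h1 => ⟨fun hTn => ?_, ?_⟩⟩
  · obtain ⟨f, hf, hf2, hf3⟩ := hD
    obtain ⟨e, he, he2, he3⟩ := r1_cut hw hc hL hn hLn hT hf hf2 (Or.inl rfl)
    rw [h0] at he3
    exact ⟨e, he, he2, by rw [he3]; simpa using hf3⟩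
  · obtain ⟨f, hf, hf2, hf3⟩ := hB
    obtain ⟨e, he, he2, he3⟩ := r1_cut hw hc hL hn hLn hT hf hf2 (Or.inl rfl)
    rw [h0] at he3
    exact ⟨e, he, he2, by rw [he3]; simpa using hf3⟩
  · obtain ⟨f, hf, hf2, hf3⟩ := hB
    have hle := df_le (rst_OS h hc).toSymK hSb hf hf2
    have hn1 : (0 : ℤ) ≤ (n : ℤ) - 1 := by omega
    rcases le_total 0 (df (rst W c) f) with h4 | h4
    · obtain ⟨e, he, he2, he3⟩ := r1_cut hw hc hL hn hLn hT hf hf2 (Or.inr rfl)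
      rw [h1] at he3
      rw [abs_of_nonneg h4] at hf3 hle
      refine ⟨e, he, he2, ?_⟩
      rw [he3, abs_le]
      push_cast
      constructor <;> linarith
    · obtain ⟨e, he, he2, he3⟩ := r1_cut hw hc hL hn hLn hT hf hf2 (Or.inl rfl)
      rw [h1] at he3
      rw [abs_of_nonpos h4] at hf3 hle
      refine ⟨e, he, he2, ?_⟩
      rw [he3, abs_le]
      push_cast
      constructor <;> linarith
  · obtain ⟨f, hf, hf2, hf3⟩ := hB
    have hn1 : (0 : ℤ) ≤ (n : ℤ) - 1 := by omega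
    rcases le_total 0 (df (rst W c) f) with h4 | h4
    · obtain ⟨e, he, he2, he3⟩ := r1_cut hw hc hL hn hLn hT hf hf2 (Or.inl rfl)
      rw [h1] at he3
      rw [abs_of_nonneg h4] at hf3
      refine ⟨e, he, he2, ?_⟩
      rw [he3]
      refine le_trans ?_ (le_abs_self _)
      push_cast
      linarith
    · obtain ⟨e, he, he2, he3⟩ := r1_cut hw hc hL hn hLn hT hf hf2 (Or.inr rfl)
      rw [h1] at he3
      rw [abs_of_nonpos h4] at hf3
      refine ⟨e, he, he2, ?_⟩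
      rw [he3]
      refine le_trans ?_ (neg_le_abs _)
      push_cast
      linarith

end Pool.Agent.QFO
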