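import Pool.Agent.QFO.Chi
import Pool.Agent.QFO.R1m

/-!
# [QFO-LB] lower bounds for the surplus at class level, by splitting along an optimal cut
-/

set_option autoImplicit false
set_option linter.unusedSectionVars false

namespace Pool.Agent.QFO

open Finset Pool.Agent.MP_710317_co.Rec Pool.Agent.MXC

/-- every weighting with weights at least one on `N` vertices of total weight `M` has surplus `≥ ℓ` -/
def LB (N : ℕ) (M ℓ : ℤ) : Prop :=
  ∀ (C : Type) [Fintype C] [DecidableEq C], Fintype.card C = N → ∀ w : C → C → ℤ, Sym w →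
    (∀ a b, a ≠ b → 1 ≤ w a b) → inn w univ = 2 * M → ∀ s, Sb w s → ℓ ≤ s

section

variable {V : Type*} [Fintype V] [DecidableEq V]

theorem Sym.toK {W : V → V → ℤ} (h : Sym W) : SymK W (fun _ => 0) :=
  ⟨h.symm, fun i => by rw [h.diag]; norm_num, fun _ => le_rfl⟩

theorem en_parK {W : V → V → ℤ} {k : V → ℤ} (hw : SymK W k) {m : ℤ} (hm : inn W univ = 2 * m)
    {e : V → ℤ} (he : IsSign e) : en W e = 2 * (2 * crs W (pos e) (pos e)ᶜ - m) := by
  have h1 := en_sg hw (pos e)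
  rw [sg_pos he, hm] at h1
  rw [h1]
  ring

/-- the largest surplus is attained -/
theorem exists_top (W : V → V → ℤ) : ∃ e : V → ℤ, IsSign e ∧ ∀ f, IsSign f → en W f ≤ en W e := by
  classical
  obtain ⟨S, hS⟩ := Finite.exists_max (fun S : Finset V => en W (sg S))
  refine ⟨sg S, sg_sign S, fun f hf => ?_⟩
  have := hS (pos f)
  rwa [sg_pos hf] at this

theorem side_max {W : V → V → ℤ} {k : V → ℤ} (hw : SymK W k) (S : Finset V) {a : ℤ}
    (ha : inn W S = 2 * a) : ∃ s₁ : ℤ, Sb (msk W S) s₁ ∧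
      (∃ e, IsSign e ∧ en (msk W S) e = 2 * s₁) ∧ ∃ l, s₁ = 2 * l - a := by
  obtain ⟨e, he, hmax⟩ := exists_top (msk W S)
  have h1 := en_parK (msk_symK hw S) (m := a) (by rw [msk_inn, ha]) he
  exact ⟨_, fun f hf => by rw [← h1]; exact hmax f hf, ⟨e, he, h1⟩, _, rfl⟩

theorem block2 {W : V → V → ℤ} {k : V → ℤ} (hw : SymK W k) {s : ℤ} (hs : Sb W s) (S : Finset V)
    {s₁ s₂ : ℤ} (h1 : ∃ e, IsSign e ∧ en (msk W S) e = 2 * s₁)
    (h2 : ∃ e, IsSign e ∧ en (msk W Sᶜ) e = 2 * s₂) : s₁ + s₂ ≤ s := by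
  obtain ⟨e, he, h1⟩ := h1
  obtain ⟨f, hf, h2⟩ := h2
  have h3 := hs _ (glue_sign S he hf (Or.inl rfl : (1 : ℤ) = 1 ∨ (1 : ℤ) = -1))
  have h4 := hs _ (glue_sign S he hf (Or.inr rfl : (-1 : ℤ) = 1 ∨ (-1 : ℤ) = -1))
  rw [glue_en hw S (Or.inl rfl)] at h3
  rw [glue_en hw S (Or.inr rfl)] at h4
  linarith

/-- the restriction to a set -/
def sub (W : V → V → ℤ) (S : Finset V) : {x // x ∈ S} → {x // x ∈ S} → ℤ := fun x y => off W x y

theorem sub_sym {W : V → V → ℤ} {k : V → ℤ} (hw : SymK W k) (S : Finset V) : Sym (sub W S) :=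
  ⟨fun i j => (off_sym hw).symm _ _, fun i => (off_sym hw).diag _⟩

theorem sub_inn {W : V → V → ℤ} {k : V → ℤ} (hw : SymK W k) (S : Finset V) :
    inn (sub W S) univ = inn W S + 2 * ∑ i ∈ S, k i := by
  rw [← off_inn hw S]
  unfold inn sub
  have h1 : ∀ x : {x // x ∈ S}, ∑ y : {x // x ∈ S}, off W x y = ∑ y ∈ S, off W x y := fun x =>
    Finset.sum_coe_sort S (fun y => off W (x : V) y)
  rw [Finset.sum_congr rfl fun x _ => h1 x]
  exact Finset.sum_coe_sort S (fun x => ∑ y ∈ S, off W x y)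

theorem sub_Sb {W : V → V → ℤ} {k : V → ℤ} (hw : SymK W k) (S : Finset V) {s₁ : ℤ}
    (hs : Sb (msk W S) s₁) : Sb (sub W S) (s₁ - ∑ i ∈ S, k i) := by
  intro e' he'
  set e : V → ℤ := fun x => if h : x ∈ S then e' ⟨x, h⟩ else 1 with he
  have hesign : IsSign e := by
    intro x
    simp only [he]
    by_cases h : x ∈ S
    · rw [dif_pos h]; exact he' _
    · rw [dif_neg h]; exact Or.inl rfl
  have hee : ∀ x : {x // x ∈ S}, e' x = e x := by
    intro x
    simp only [he]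
    rw [dif_pos x.2]
  have h1 := hs e hesign
  rw [msk_en] at h1
  have h2 : en (sub W S) e' = - ∑ i ∈ S, ∑ j ∈ S, off W i j * e i * e j := by
    unfold en sub
    congr 1
    have h3 : ∀ x : {x // x ∈ S}, ∑ y : {x // x ∈ S}, off W x y * e' x * e' y =
        ∑ y ∈ S, off W x y * e x * e y := by
      intro x
      rw [← Finset.sum_coe_sort S (fun y => off W (x : V) y * e x * e y)]
      exact Finset.sum_congr rfl fun y _ => by rw [hee x, hee y]
    rw [Finset.sum_congr rfl fun x _ => h3 x]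
    exact Finset.sum_coe_sort S (fun x => ∑ y ∈ S, off W x y * e x * e y)
  have h4 : ∑ i ∈ S, ∑ j ∈ S, off W i j * e i * e j =
      ∑ i ∈ S, ∑ j ∈ S, W i j * e i * e j + 2 * ∑ i ∈ S, k i := by
    rw [Finset.mul_sum, ← Finset.sum_add_distrib]
    refine Finset.sum_congr rfl fun i hi => ?_
    have h5 := off_row hw e S i
    rw [if_pos hi] at h5
    have h6 : ∑ j ∈ S, off W i j * e i * e j = e i * ∑ j ∈ S, off W i j * e j := by
      rw [Finset.mul_sum]
      exact Finset.sum_congr rfl fun j _ => by ring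
    have h7 : ∑ j ∈ S, W i j * e i * e j = e i * ∑ j ∈ S, W i j * e j := by
      rw [Finset.mul_sum]
      exact Finset.sum_congr rfl fun j _ => by ring
    rw [h6, h7, h5]
    have := sign_sq hesign i
    linear_combination (2 * k i) * this
  rw [h2, h4]
  linarith

/-- a lower bound at class level for one side of a cut -/
theorem LB_side {V : Type} [Fintype V] [DecidableEq V] {W : V → V → ℤ} {k : V → ℤ} (hw : SymK W k) {S : Finset V}
    (h1 : ∀ i ∈ S, ∀ j ∈ S, i ≠ j → 1 ≤ W i j) {a s₁ : ℤ} (ha : inn W S = 2 * a)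
    (hs : Sb (msk W S) s₁) {ℓ : ℤ} (hL : LB S.card (a + ∑ i ∈ S, k i) ℓ) :
    ℓ + ∑ i ∈ S, k i ≤ s₁ := by
  have h2 := hL {x // x ∈ S} (Fintype.card_coe S) (sub W S) (sub_sym hw S) (fun x y hxy => by
      unfold sub off
      rw [if_neg (fun h => hxy (Subtype.ext h))]
      exact h1 x x.2 y y.2 (fun h => hxy (Subtype.ext h))) (by rw [sub_inn hw, ha]; ring) _
    (sub_Sb hw S hs)
  linarith

/-- a lower bound at class level for one side of a cut, the number of classes being the chromatic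
number of the side -/
theorem LB_chi {V : Type*} [Fintype V] [DecidableEq V] {W : V → V → ℤ} {k : V → ℤ} (h : OO W k)
    {S : Finset V} {p : ℕ} {f : V → Fin p} (hc : Col (msk W S) f) {a s₁ : ℤ}
    (ha : inn W S = 2 * a) (hs : Sb (msk W S) s₁) {ℓ : ℤ} (hL : LB p (a + ∑ i ∈ S, k i) ℓ) :
    ℓ + ∑ i ∈ S, k i ≤ s₁ := by
  obtain ⟨h1, h2, h3, h4⟩ := push_facts (msk_OO h S) hc
  rw [sum_mkk] at h3 h4
  have h5 := hL (Fin p) (Fintype.card_fin p) _ h1 h2 (by rw [h3, msk_inn, ha]; ring) _ (h4 s₁ hs)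
  linarith

end

/-- trivial bounds -/
theorem LB_T {N : ℕ} (M : ℤ) : LB N M (T M) := by
  intro C _ _ _ w hw _ hM s hs
  have h1 := T_le_Sb (Sym.toK hw) hM hs
  simpa using h1

/-- [QFO-LB] the splitting rule -/
theorem LB_split {N : ℕ} {M ℓ : ℤ} (hN : 2 ≤ N) (hno : ∀ s : ℤ, s < ℓ → T M ≤ s → M ≤ s * qf N →
    (∃ l, s = 2 * l - M) → (N : ℤ) * ((N : ℤ) - 1) ≤ 2 * M → ∀ (p q : ℕ) (x y : ℤ), 1 ≤ p → 1 ≤ q →
    p + q = N → 2 * (x + y) = M - s → |x - y| ≤ s → (p : ℤ) * ((p : ℤ) - 1) ≤ 2 * x →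
    (q : ℤ) * ((q : ℤ) - 1) ≤ 2 * y →
    (∀ a b, LB p x a → LB q y b → a + b ≤ s) → False) : LB N M ℓ := by
  intro C _ _ hC w hw h1 hM s hs
  by_contra hcon
  rw [not_le] at hcon
  have hwK := Sym.toK hw
  -- the largest surplus
  obtain ⟨e, he, hmax⟩ := exists_top w
  have hpar := en_parK hwK hM he
  set S := pos e with hS
  set t : ℤ := 2 * crs w S Sᶜ - M with ht
  have hSb : Sb w t := fun f hf => by rw [← hpar]; exact hmax f hf
  have hts : t ≤ s := by
    have := hs e he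
    linarith
  have hT := T_le_Sb hwK hM hSb
  simp only [Finset.sum_const_zero, add_zero] at hT
  have hge := ge_one_sum h1 hw.diag
  rw [hC, hM] at hge
  have hMpos : 0 < M := by
    have : (2 : ℤ) ≤ N := by exact_mod_cast hN
    nlinarith
  have hTn := T_nonneg M
  have hcr : 0 < crs w S Sᶜ := by linarith
  have hSne : S.Nonempty := by
    rw [Finset.nonempty_iff_ne_empty]
    intro h0
    rw [h0] at hcr
    simp [crs] at hcr
  have hSne' : Sᶜ.Nonempty := by
    rw [Finset.nonempty_iff_ne_empty]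
    intro h0
    rw [h0] at hcr
    simp [crs] at hcr
  obtain ⟨x, hx⟩ := inn_even hwK S
  obtain ⟨y, hy⟩ := inn_even hwK Sᶜ
  have hsplit := tot_splitK hwK S
  rw [hM, hx, hy] at hsplit
  obtain ⟨s₁, hs₁, he₁, -⟩ := side_max hwK S hx
  obtain ⟨s₂, hs₂, he₂, -⟩ := side_max hwK Sᶜ hy
  have hblk := block2 hwK hSb S he₁ he₂
  have hcard : S.card + Sᶜ.card = N := by
    rw [Finset.card_add_card_compl, hC]
  have hside : ∀ (S : Finset C) (x : ℤ), inn w S = 2 * x → (S.card : ℤ) * ((S.card : ℤ) - 1) ≤ 2 * x := by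
    intro S x hx
    have h2 := ge_one_sum (w := sub w S) (fun a b hab => by
      unfold sub off
      rw [if_neg (fun h => hab (Subtype.ext h))]
      exact h1 _ _ (fun h => hab (Subtype.ext h))) (sub_sym hwK S).diag
    rw [sub_inn hwK, hx, Fintype.card_coe] at h2
    simpa using h2
  refine hno t (by linarith) hT ?_ ⟨_, rfl⟩ hge S.card Sᶜ.card x y (Finset.card_pos.2 hSne)
    (Finset.card_pos.2 hSne') hcard (by linarith) ?_ (hside S x hx) (hside Sᶜ y hy) ?_
  · have h5 := avg_bound hw h1 hSb hM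
    rwa [hC] at h5
  · have h5 := df_le hwK hSb he hpar
    have h6 := df_sg w hwK S
    rw [sg_pos he, hx, hy] at h6
    rw [h6, ← mul_sub, abs_mul, abs_two] at h5
    linarith
  · intro a b ha hb
    have h5 := LB_side hwK (S := S) (fun i _ j _ hij => h1 i j hij) hx hs₁ (ℓ := a) (by simpa using ha)
    have h6 := LB_side hwK (S := Sᶜ) (fun i _ j _ hij => h1 i j hij) hy hs₂ (ℓ := b) (by simpa using hb)
    simp only [Finset.sum_const_zero, add_zero] at h5 h6
    linarith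

end Pool.Agent.QFO
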