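import Pool.Agent.QFO.Blk

/-!
# [QFO-C] push-forward and contraction of negative pairs
-/

set_option autoImplicit false
set_option linter.unusedSectionVars false

namespace Pool.Agent.QFO

open Finset Pool.Agent.MP_710317_co.Rec Pool.Agent.MXC

section push

variable {V V' : Type*} [Fintype V] [DecidableEq V] [Fintype V'] [DecidableEq V']

/-- push-forward of `W` along `c` -/
def push (W : V → V → ℤ) (c : V → V') (a b : V') : ℤ :=
  ∑ x, ∑ y, if c x = a ∧ c y = b then W x y else 0

theorem push_bil (W : V → V → ℤ) (c : V → V') (f g : V' → ℤ) :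
    ∑ a, ∑ b, push W c a b * f a * g b = ∑ x, ∑ y, W x y * f (c x) * g (c y) := by
  unfold push
  have h1 : ∀ a b, (∑ x, ∑ y, if c x = a ∧ c y = b then W x y else 0) * f a * g b =
      ∑ x, ∑ y, if c x = a ∧ c y = b then W x y * f (c x) * g (c y) else 0 := by
    intro a b
    rw [Finset.sum_mul, Finset.sum_mul]
    refine Finset.sum_congr rfl fun x _ => ?_
    rw [Finset.sum_mul, Finset.sum_mul]
    refine Finset.sum_congr rfl fun y _ => ?_
    by_cases h : c x = a ∧ c y = b
    · rw [if_pos h, if_pos h, h.1, h.2]
    · rw [if_neg h, if_neg h, zero_mul, zero_mul]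
  simp only [h1]
  have h2 : ∀ a, ∑ b, ∑ x, ∑ y, (if c x = a ∧ c y = b then W x y * f (c x) * g (c y) else 0) =
      ∑ x, ∑ y, if c x = a then W x y * f (c x) * g (c y) else 0 := by
    intro a
    rw [Finset.sum_comm]
    refine Finset.sum_congr rfl fun x _ => ?_
    rw [Finset.sum_comm]
    refine Finset.sum_congr rfl fun y _ => ?_
    by_cases h : c x = a
    · simp [h]
    · simp [h]
  simp only [h2]
  rw [Finset.sum_comm]
  refine Finset.sum_congr rfl fun x _ => ?_
  rw [Finset.sum_comm]
  refine Finset.sum_congr rfl fun y _ => ?_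
  simp

theorem push_inn (W : V → V → ℤ) (c : V → V') : inn (push W c) univ = inn W univ := by
  have := push_bil W c (fun _ => 1) (fun _ => 1)
  simp only [mul_one] at this
  exact this

theorem push_en (W : V → V → ℤ) (c : V → V') (e : V' → ℤ) :
    en (push W c) e = en W (fun x => e (c x)) := by
  unfold en
  rw [push_bil W c e e]

theorem push_df (W : V → V → ℤ) (c : V → V') (e : V' → ℤ) :
    df (push W c) e = df W (fun x => e (c x)) := by
  have := push_bil W c e (fun _ => 1)
  simp only [mul_one] at this
  exact this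

theorem push_symm {W : V → V → ℤ} (hw : ∀ i j, W i j = W j i) (c : V → V') (a b : V') :
    push W c a b = push W c b a := by
  unfold push
  rw [Finset.sum_comm]
  refine Finset.sum_congr rfl fun x _ => Finset.sum_congr rfl fun y _ => ?_
  rw [hw y x]
  by_cases h : c y = a ∧ c x = b
  · rw [if_pos h, if_pos h.symm]
  · rw [if_neg h, if_neg (fun h' => h h'.symm)]

theorem push_Sb {W : V → V → ℤ} {s : ℤ} (hs : Sb W s) (c : V → V') : Sb (push W c) s := by
  intro e he
  rw [push_en]
  exact hs _ (fun x => he _)

end push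

section contraction

variable {V : Type*} [Fintype V] [DecidableEq V]

/-- the map which sends `j` to `i` -/
def ctr (i j : V) (hij : i ≠ j) (x : V) : {x : V // x ≠ j} :=
  if h : x = j then ⟨i, hij⟩ else ⟨x, h⟩

theorem ctr_eq {i j : V} (hij : i ≠ j) (x : V) (a : {x : V // x ≠ j}) :
    ctr i j hij x = a ↔ x = a ∨ (x = j ∧ (a : V) = i) := by
  unfold ctr
  by_cases h : x = j
  · rw [dif_pos h]
    constructor
    · intro h1
      right
      exact ⟨h, by rw [← h1]⟩
    · rintro (h1 | h1)
      · exact absurd (h1.symm.trans h) a.2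
      · exact Subtype.ext h1.2.symm
  · rw [dif_neg h]
    constructor
    · intro h1
      left
      rw [← h1]
    · rintro (h1 | h1)
      · exact Subtype.ext h1
      · exact absurd h1.1 h

theorem ctr_sum {i j : V} (hij : i ≠ j) (f : V → ℤ) (a : {x : V // x ≠ j}) :
    (∑ x, if ctr i j hij x = a then f x else 0) = f a + if (a : V) = i then f j else 0 := by
  have h1 : ∀ x, (if ctr i j hij x = a then f x else 0) =
      (if x = (a : V) then f x else 0) + (if x = j then (if (a : V) = i then f j else 0) else 0) := by
    intro x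
    by_cases hxa : x = (a : V)
    · have hxj : x ≠ j := fun h => a.2 (hxa.symm.trans h)
      rw [if_pos ((ctr_eq hij x a).2 (Or.inl hxa)), if_pos hxa, if_neg hxj, add_zero]
    · by_cases hxj : x = j
      · rw [if_neg hxa, if_pos hxj, zero_add]
        by_cases hai : (a : V) = i
        · rw [if_pos ((ctr_eq hij x a).2 (Or.inr ⟨hxj, hai⟩)), if_pos hai, hxj]
        · rw [if_neg, if_neg hai]
          intro h
          rcases (ctr_eq hij x a).1 h with h2 | h2
          · exact hxa h2
          · exact hai h2.2
      · rw [if_neg hxa, if_neg hxj, if_neg, zero_add]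
        intro h
        rcases (ctr_eq hij x a).1 h with h2 | h2
        · exact hxa h2
        · exact hxj h2.1
  rw [Finset.sum_congr rfl fun x _ => h1 x, Finset.sum_add_distrib]
  simp

theorem push_ctr (W : V → V → ℤ) {i j : V} (hij : i ≠ j) (a b : {x : V // x ≠ j}) :
    push W (ctr i j hij) a b = W a b + (if (b : V) = i then W a j else 0) +
      (if (a : V) = i then W j b else 0) + (if (a : V) = i ∧ (b : V) = i then W j j else 0) := by
  unfold push
  have h1 : ∀ x, (∑ y, if ctr i j hij x = a ∧ ctr i j hij y = b then W x y else 0) =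
      if ctr i j hij x = a then (W x b + if (b : V) = i then W x j else 0) else 0 := by
    intro x
    by_cases h : ctr i j hij x = a
    · rw [if_pos h, ← ctr_sum hij (fun y => W x y) b]
      refine Finset.sum_congr rfl fun y _ => ?_
      simp [h]
    · rw [if_neg h]
      refine Finset.sum_eq_zero fun y _ => ?_
      rw [if_neg (fun h' => h h'.1)]
  rw [Finset.sum_congr rfl fun x _ => h1 x, ctr_sum hij]
  by_cases ha : (a : V) = i
  · by_cases hb : (b : V) = i
    · rw [if_pos hb, if_pos ha, if_pos ha, if_pos hb, if_pos ⟨ha, hb⟩]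
      ring
    · rw [if_neg hb, if_pos ha, if_pos ha, if_neg hb, if_neg (fun h => hb h.2)]
      ring
  · have h2 : ¬ ((a : V) = i ∧ (b : V) = i) := fun h => ha h.1
    rw [if_neg ha, if_neg ha, if_neg h2]
    ring

/-- the loops after the contraction -/
def kc (W : V → V → ℤ) (k : V → ℤ) (i j : V) (a : {x : V // x ≠ j}) : ℤ :=
  k a + if (a : V) = i then k j - W i j else 0

theorem OS_contract {W : V → V → ℤ} {k : V → ℤ} (h : OS W k) {i j : V} (hij : i ≠ j)
    (hneg : W i j < 0) : OS (push W (ctr i j hij)) (kc W k i j) := by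
  refine ⟨⟨fun a b => push_symm h.symm _ a b, fun a => ?_, fun a => ?_⟩, fun a b hab => ?_⟩
  · rw [push_ctr]
    unfold kc
    by_cases ha : (a : V) = i
    · rw [if_pos ha, if_pos ha, if_pos ⟨ha, ha⟩, if_pos ha, h.diag, h.diag, ha, h.symm j i]
      ring
    · rw [if_neg ha, if_neg ha, if_neg (fun h => ha h.1), if_neg ha, h.diag]
      ring
  · unfold kc
    have h1 := h.knn a
    have h2 := h.knn j
    split <;> linarith
  · have hab' : (a : V) ≠ b := fun h => hab (Subtype.ext h)
    rw [push_ctr]
    unfold kc
    have hka := h.knn a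
    have hkb := h.knn b
    have hkj := h.knn j
    have h1 := h.le a b hab'
    have h2 := h.le a j a.2
    have h3 := h.le j b b.2.symm
    by_cases ha : (a : V) = i
    · have hb : (b : V) ≠ i := fun hb => hab' (ha.trans hb.symm)
      rw [if_neg hb, if_pos ha, if_neg (fun h => hb h.2), if_pos ha, if_neg hb]
      nlinarith
    · by_cases hb : (b : V) = i
      · rw [if_pos hb, if_neg ha, if_neg (fun h => ha h.1), if_neg ha, if_pos hb]
        nlinarith
      · rw [if_neg hb, if_neg ha, if_neg (fun h => ha h.1), if_neg ha, if_neg hb]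
        linarith

end contraction

/-- Reduction to nonnegative weights: a property `Q (en W e) (df W e)` of some signs `e` that holds
for all objects of the class OO holds for all objects of the class OS. -/
theorem red_OO {m s : ℤ} {Q : ℤ → ℤ → Prop}
    (H : ∀ (V : Type) [Fintype V] [DecidableEq V] (W : V → V → ℤ) (k : V → ℤ), OO W k →
      inn W univ = 2 * m → Sb W s → ∃ e : V → ℤ, IsSign e ∧ Q (en W e) (df W e)) (n : ℕ) :
    ∀ (V : Type) [Fintype V] [DecidableEq V], Fintype.card V = n → ∀ (W : V → V → ℤ) (k : V → ℤ),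
      OS W k → inn W univ = 2 * m → Sb W s → ∃ e : V → ℤ, IsSign e ∧ Q (en W e) (df W e) := by
  induction n with
  | zero =>
    intro V _ _ hn W k h hm hs
    refine H V W k ⟨h, fun i j _ => ?_⟩ hm hs
    have := Fintype.card_eq_zero_iff.1 hn
    exact this.elim i
  | succ n ih =>
    intro V _ _ hn W k h hm hs
    by_cases hneg : ∃ i j, i ≠ j ∧ W i j < 0
    · obtain ⟨i, j, hij, hlt⟩ := hneg
      have hc : Fintype.card {x : V // x ≠ j} = n := by
        rw [Fintype.card_subtype_compl, Fintype.card_subtype_eq, hn]
        rfl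
      obtain ⟨e, he, hQ⟩ := ih {x : V // x ≠ j} hc (push W (ctr i j hij)) (kc W k i j)
        (OS_contract h hij hlt) (by rw [push_inn, hm]) (push_Sb hs _)
      rw [push_en, push_df] at hQ
      exact ⟨_, fun x => he _, hQ⟩
    · push Not at hneg
      exact H V W k ⟨h, hneg⟩ hm hs

end Pool.Agent.QFO
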