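import Pool.Agent.QFO.UO
import Pool.Agent.QFO.Push
import Pool.Agent.MXC.TG

/-!
# [QFO-D] the numerical criterion for the D part, and `P(m)` for `m ≤ 5`
-/

set_option autoImplicit false
set_option linter.unusedSectionVars false

namespace Pool.Agent.QFO

open Finset Pool.Agent.MP_710317_co.Rec Pool.Agent.MXC

/-- D part: every extremal object of total weight `m` has an optimal cut with `|d| ≤ D` -/
def PD (m D : ℤ) : Prop :=
  ∀ (V : Type) [Fintype V] [DecidableEq V] (W : V → V → ℤ) (k : V → ℤ), OS W k →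
    inn W univ = 2 * m → Sb W (T m) →
    ∃ e : V → ℤ, IsSign e ∧ en W e = 2 * T m ∧ |df W e| ≤ 2 * D

/-- B part: every extremal object of total weight `m` has an optimal cut with `|d| ≥ B` -/
def PB (m B : ℤ) : Prop :=
  ∀ (V : Type) [Fintype V] [DecidableEq V] (W : V → V → ℤ) (k : V → ℤ), OS W k →
    inn W univ = 2 * m → Sb W (T m) →
    ∃ e : V → ℤ, IsSign e ∧ en W e = 2 * T m ∧ 2 * B ≤ |df W e|

section

variable {V : Type*} [Fintype V] [DecidableEq V]

theorem T_le_add (m K : ℤ) (hK : 0 ≤ K) : T m ≤ T (m + K) + K := by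
  have h := T_lip m (m + K)
  have h2 : |m - (m + K)| = K := by
    rw [show m - (m + K) = -K by ring, abs_neg, abs_of_nonneg hK]
  rwa [h2] at h

theorem T_par (m : ℤ) : ∃ u : ℤ, m - T m = 2 * u := by
  unfold T
  exact ⟨m - (mc m.toNat : ℤ), by ring⟩

theorem exists_opt {W : V → V → ℤ} {k : V → ℤ} (hw : SymK W k) {m : ℤ}
    (hm : inn W univ = 2 * m) (hs : Sb W (T m)) : ∃ e : V → ℤ, IsSign e ∧ en W e = 2 * T m := by
  obtain ⟨e, he, h⟩ := exists_sign hw hm
  have hK : 0 ≤ ∑ i, k i := Finset.sum_nonneg fun i _ => hw.knn i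
  have h1 := T_le_add m _ hK
  exact ⟨e, he, le_antisymm (hs e he) (by linarith)⟩

/-- an optimal cut with the least difference -/
theorem exists_min {W : V → V → ℤ} {k : V → ℤ} (hw : SymK W k) {m : ℤ}
    (hm : inn W univ = 2 * m) (hs : Sb W (T m)) : ∃ e : V → ℤ, IsSign e ∧ en W e = 2 * T m ∧
      ∀ e', IsSign e' → en W e' = 2 * T m → |df W e| ≤ |df W e'| := by
  classical
  obtain ⟨e₀, he₀, h₀⟩ := exists_opt hw hm hs
  have hex : ∃ n : ℕ, ∃ e : V → ℤ, IsSign e ∧ en W e = 2 * T m ∧ (df W e).natAbs = n :=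
    ⟨_, e₀, he₀, h₀, rfl⟩
  obtain ⟨e, he, h1, h2⟩ := Nat.find_spec hex
  refine ⟨e, he, h1, fun e' he' h' => ?_⟩
  have h3 := Nat.find_min' hex ⟨e', he', h', rfl⟩
  rw [← h2] at h3
  rw [Int.abs_eq_natAbs, Int.abs_eq_natAbs]
  exact_mod_cast h3

theorem neg_sign {e : V → ℤ} (he : IsSign e) : IsSign (fun i => - e i) := by
  intro i
  rcases he i with h | h
  · right; simp [h]
  · left; simp [h]

theorem en_neg (W : V → V → ℤ) (e : V → ℤ) : en W (fun i => - e i) = en W e := by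
  unfold en
  congr 1
  exact Finset.sum_congr rfl fun i _ => Finset.sum_congr rfl fun j _ => by ring

theorem df_neg (W : V → V → ℤ) (e : V → ℤ) : df W (fun i => - e i) = - df W e := by
  unfold df
  rw [← Finset.sum_neg_distrib]
  refine Finset.sum_congr rfl fun i _ => ?_
  rw [← Finset.sum_neg_distrib]
  exact Finset.sum_congr rfl fun j _ => by ring

theorem inn_even {W : V → V → ℤ} {k : V → ℤ} (hw : SymK W k) (S : Finset V) :
    ∃ a : ℤ, inn W S = 2 * a := by
  -- `inn` over `S` of a symmetric matrix with even diagonal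
  induction S using Finset.induction_on with
  | empty => exact ⟨0, by simp [inn]⟩
  | insert v S hv ih =>
    obtain ⟨a, ha⟩ := ih
    have h1 := innK_erase hw (insert v S) (mem_insert_self v S)
    rw [Finset.erase_insert hv, ha] at h1
    exact ⟨a + ∑ j ∈ S, W v j - k v, by linarith⟩

/-- the numerical criterion in the class OO -/
theorem critD_OO {m u D : ℤ} (hu : m - T m = 2 * u)
    (hcrit : ∀ a b K : ℤ, a + b = u → D < a - b → 0 ≤ K → 2 * K ≤ T m - (a - b) →
      T (a + K) + K + T b ≤ T m →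
      (2 * (a + K) ≤ (T m - (a - b)) * (T m - (a - b) - 1) ∨ 2 * (a - b) < T m ∨
        (2 * (a - b) - T m + 1) * T m ≤ 2 * (a + K)) → False)
    {W : V → V → ℤ} {k : V → ℤ} (h : OO W k) (hm : inn W univ = 2 * m) (hs : Sb W (T m)) :
    ∃ e : V → ℤ, IsSign e ∧ en W e = 2 * T m ∧ |df W e| ≤ 2 * D := by
  have hw : SymK W k := h.toSymK
  obtain ⟨e, he, h1, hmin⟩ := exists_min hw hm hs
  by_contra hcon
  push Not at hcon
  -- the positive side is the heavy one
  obtain ⟨e, he, h1, hmin, h2⟩ : ∃ e : V → ℤ, IsSign e ∧ en W e = 2 * T m ∧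
      (∀ e', IsSign e' → en W e' = 2 * T m → |df W e| ≤ |df W e'|) ∧ 2 * D < df W e := by
    have h3 := hcon e he h1
    rcases le_total 0 (df W e) with h4 | h4
    · rw [abs_of_nonneg h4] at h3
      exact ⟨e, he, h1, hmin, h3⟩
    · rw [abs_of_nonpos h4] at h3
      refine ⟨fun i => - e i, neg_sign he, by rw [en_neg, h1], fun e' he' h' => ?_, ?_⟩
      · rw [df_neg, abs_neg]
        exact hmin e' he' h'
      · rw [df_neg]
        exact h3
  set S : Finset V := pos e with hS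
  have heS : sg S = e := sg_pos he
  obtain ⟨a, ha⟩ := inn_even hw S
  obtain ⟨b, hb⟩ := inn_even hw Sᶜ
  have hsplit := tot_splitK hw S
  have hen := en_sg hw S
  have hdf := df_sg W hw S
  rw [heS] at hen hdf
  rw [h1, hm] at hen
  rw [hm, ha, hb] at hsplit
  rw [ha, hb] at hdf
  have hc : ∀ S', crs W S' S'ᶜ ≤ crs W S Sᶜ := by
    intro S'
    have h3 := hs _ (sg_sign S')
    rw [en_sg hw S', hm] at h3
    linarith
  have hmin' : ∀ S', crs W S' S'ᶜ = crs W S Sᶜ → 2 * (a - b) ≤ |inn W S' - inn W S'ᶜ| := by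
    intro S' hS'
    have h3 := hmin (sg S') (sg_sign S') (by rw [en_sg hw S', hm, hS', ← hen])
    rw [df_sg W hw S', hdf] at h3
    have h4 := le_abs_self (2 * a - 2 * b)
    linarith
  have hab : a + b = u := by linarith
  have hd : D < a - b := by linarith
  obtain ⟨hK, hsl⟩ := slackO hw h.nn h.le hc rfl ha hb hmin'
  have hblk := block hw hs S ha hb
  have hK1 : 0 ≤ ∑ i ∈ S, k i := Finset.sum_nonneg fun i _ => h.knn i
  have hK2 : 0 ≤ ∑ i ∈ Sᶜ, k i := Finset.sum_nonneg fun i _ => h.knn i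
  have hb2 := T_le_add b _ hK2
  set c := crs W S Sᶜ with hcdef
  have hc2 : 2 * c = m + T m := by linarith
  have e1 : c - 2 * a = T m - (a - b) := by linarith
  have e2 : c - a - b = T m := by linarith
  rw [e1, e2] at hsl
  rw [e1] at hK
  exact hcrit a b _ hab hd hK1 hK (by linarith) hsl

end

/-- the numerical criterion -/
theorem critD {m u D : ℤ} (hu : m - T m = 2 * u)
    (hcrit : ∀ a b K : ℤ, a + b = u → D < a - b → 0 ≤ K → 2 * K ≤ T m - (a - b) →
      T (a + K) + K + T b ≤ T m →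
      (2 * (a + K) ≤ (T m - (a - b)) * (T m - (a - b) - 1) ∨ 2 * (a - b) < T m ∨
        (2 * (a - b) - T m + 1) * T m ≤ 2 * (a + K)) → False) : PD m D := by
  intro V _ _ W k h hm hs
  obtain ⟨e, he, h1, h2⟩ := red_OO (m := m) (s := T m)
    (Q := fun x y => x = 2 * T m ∧ |y| ≤ 2 * D)
    (fun V _ _ W k h hm hs => by
      obtain ⟨e, he, h1, h2⟩ := critD_OO hu hcrit h hm hs
      exact ⟨e, he, h1, h2⟩) (Fintype.card V) V rfl W k h hm hs
  exact ⟨e, he, h1, h2⟩

/-- parity: `d ≡ (m - T m)/2 mod 2` -/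
theorem df_par {V : Type*} [Fintype V] [DecidableEq V] {W : V → V → ℤ} {k : V → ℤ}
    (hw : SymK W k) {m u : ℤ} (hu : m - T m = 2 * u) (hm : inn W univ = 2 * m) {e : V → ℤ}
    (he : IsSign e) (h1 : en W e = 2 * T m) : ∃ l : ℤ, df W e = 2 * u + 4 * l := by
  set S : Finset V := pos e with hS
  have heS : sg S = e := sg_pos he
  obtain ⟨a, ha⟩ := inn_even hw S
  obtain ⟨b, hb⟩ := inn_even hw Sᶜ
  have hsplit := tot_splitK hw S
  have hen := en_sg hw S
  have hdf := df_sg W hw S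
  rw [heS] at hen hdf
  rw [h1, hm] at hen
  rw [hm, ha, hb] at hsplit
  rw [ha, hb] at hdf
  exact ⟨-b, by rw [hdf]; linarith⟩

theorem PB_zero (m : ℤ) : PB m 0 := by
  intro V _ _ W k h hm hs
  obtain ⟨e, he, h1⟩ := exists_opt h.toSymK hm hs
  exact ⟨e, he, h1, by simp⟩

/-- odd `u`: some (every) optimal cut has `|d| ≥ 1` -/
theorem PB_one {m u : ℤ} (hu : m - T m = 2 * (2 * u + 1)) : PB m 1 := by
  intro V _ _ W k h hm hs
  obtain ⟨e, he, h1⟩ := exists_opt h.toSymK hm hs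
  refine ⟨e, he, h1, ?_⟩
  obtain ⟨l, hl⟩ := df_par h.toSymK hu hm he h1
  rw [hl]
  rcases le_total 0 (2 * (2 * u + 1) + 4 * l) with h2 | h2
  · rw [abs_of_nonneg h2]; omega
  · rw [abs_of_nonpos h2]; omega

/-- the values of `T` -/
theorem T_small : T 0 = 0 ∧ T 1 = 1 ∧ T 2 = 2 ∧ T 3 = 1 ∧ T 4 = 2 ∧ T 5 = 3 := by
  have h : ∀ m : ℕ, m < 1400 → T (m : ℤ) = (tab m : ℤ) := T_eq_tab
  have e0 : tab 0 = 0 := by decide +kernel
  have e1 : tab 1 = 1 := by decide +kernel
  have e2 : tab 2 = 2 := by decide +kernel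
  have e3 : tab 3 = 1 := by decide +kernel
  have e4 : tab 4 = 2 := by decide +kernel
  have e5 : tab 5 = 3 := by decide +kernel
  have h0 := h 0 (by norm_num)
  have h1 := h 1 (by norm_num)
  have h2 := h 2 (by norm_num)
  have h3 := h 3 (by norm_num)
  have h4 := h 4 (by norm_num)
  have h5 := h 5 (by norm_num)
  rw [e0] at h0
  rw [e1] at h1
  rw [e2] at h2
  rw [e3] at h3
  rw [e4] at h4
  rw [e5] at h5
  exact ⟨by simpa using h0, by simpa using h1, by simpa using h2, by simpa using h3,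
    by simpa using h4, by simpa using h5⟩

/-- `P(m)` for `m ≤ 5` -/
theorem P_small : (PD 0 0 ∧ PB 0 0) ∧ (PD 1 0 ∧ PB 1 0) ∧ (PD 2 0 ∧ PB 2 0) ∧
    (PD 3 1 ∧ PB 3 1) ∧ (PD 4 1 ∧ PB 4 1) ∧ (PD 5 1 ∧ PB 5 1) := by
  obtain ⟨t0, t1, t2, t3, t4, t5⟩ := T_small
  refine ⟨⟨?_, PB_zero 0⟩, ⟨?_, PB_zero 1⟩, ⟨?_, PB_zero 2⟩, ⟨?_, ?_⟩, ⟨?_, ?_⟩, ⟨?_, ?_⟩⟩
  · exact critD (u := 0) (by rw [t0]; norm_num) fun a b K h1 h2 h3 h4 _ _ => by
      rw [t0] at h4
      omega
  · exact critD (u := 0) (by rw [t1]; norm_num) fun a b K h1 h2 h3 h4 _ _ => by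
      rw [t1] at h4
      omega
  · exact critD (u := 0) (by rw [t2]; norm_num) fun a b K h1 h2 h3 h4 _ h5 => by
      rw [t2] at h4 h5
      have ea : a = 1 := by omega
      have eb : b = -1 := by omega
      have eK : K = 0 := by omega
      subst ea eb eK
      norm_num at h5
  · exact critD (u := 1) (by rw [t3]; norm_num) fun a b K h1 h2 h3 h4 _ _ => by
      rw [t3] at h4
      omega
  · exact PB_one (u := 0) (by rw [t3]; norm_num)
  · exact critD (u := 1) (by rw [t4]; norm_num) fun a b K h1 h2 h3 h4 _ _ => by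
      rw [t4] at h4
      omega
  · exact PB_one (u := 0) (by rw [t4]; norm_num)
  · exact critD (u := 1) (by rw [t5]; norm_num) fun a b K h1 h2 h3 h4 _ h5 => by
      rw [t5] at h4 h5
      have ea : a = 2 := by omega
      have eb : b = -1 := by omega
      have eK : K = 0 := by omega
      subst ea eb eK
      norm_num at h5
  · exact PB_one (u := 0) (by rw [t5]; norm_num)

end Pool.Agent.QFO
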