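import Pool.Agent.QFO.R1m
import Pool.Agent.QFO.CritD
import Pool.Agent.QMA.Defs

/-!
# [QFO-Skel] the induction: values of the recursion

`DV m x`, `BV m b`: the values of the recursion for all integers `m` (`m ≤ 0`: the value `-m`).
`QD m`, `QB m`: every extremal object of total weight `m` has an optimal cut whose difference is at most
a value of the `D` recursion (at least a value of the `B` recursion).
-/

set_option autoImplicit false
set_option linter.unusedSectionVars false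

namespace Pool.Agent.QFO

open Finset Pool.Agent.MP_710317_co.Rec Pool.Agent.MXC Pool.Agent.QMA

/-- the values of the `D` recursion -/
def DV (m x : ℤ) : Prop := (∃ m' x' : ℕ, m = m' ∧ x = x' ∧ DVal m' x') ∨ (m ≤ 0 ∧ x = -m)

/-- the values of the `B` recursion -/
def BV (m x : ℤ) : Prop := (∃ m' x' : ℕ, m = m' ∧ x = x' ∧ BVal m' x') ∨ (m ≤ 0 ∧ x = -m)

/-- the object `W` has an optimal cut (surplus `T m`) with difference at most a value of the recursion -/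
def HasD {V : Type*} [Fintype V] (W : V → V → ℤ) (m : ℤ) : Prop :=
  ∃ (e : V → ℤ) (x : ℤ), IsSign e ∧ en W e = 2 * T m ∧ DV m x ∧ |df W e| ≤ 2 * x

/-- the object `W` has an optimal cut (surplus `T m`) with difference at least a value of the recursion -/
def HasB {V : Type*} [Fintype V] (W : V → V → ℤ) (m : ℤ) : Prop :=
  ∃ (e : V → ℤ) (x : ℤ), IsSign e ∧ en W e = 2 * T m ∧ BV m x ∧ 2 * x ≤ |df W e|

/-- the `D` part for the total weight `m` -/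
def QD (m : ℤ) : Prop :=
  ∀ (V : Type) [Fintype V] [DecidableEq V] (W : V → V → ℤ) (k : V → ℤ), OS W k →
    inn W univ = 2 * m → Sb W (T m) → HasD W m

/-- the `B` part for the total weight `m` -/
def QB (m : ℤ) : Prop :=
  ∀ (V : Type) [Fintype V] [DecidableEq V] (W : V → V → ℤ) (k : V → ℤ), OS W k →
    inn W univ = 2 * m → Sb W (T m) → HasB W m

section

variable {V : Type*} [Fintype V] [DecidableEq V]

theorem ones_facts (W : V → V → ℤ) : IsSign (fun _ : V => (1 : ℤ)) ∧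
    en W (fun _ => 1) = - inn W univ ∧ df W (fun _ => 1) = inn W univ := by
  refine ⟨fun _ => Or.inl rfl, ?_, ?_⟩
  · unfold en inn
    simp
  · unfold df inn
    simp

theorem has_nonpos {m : ℤ} (hm0 : m ≤ 0) (W : V → V → ℤ) (hm : inn W univ = 2 * m) :
    HasD W m ∧ HasB W m := by
  obtain ⟨h1, h2, h3⟩ := ones_facts W
  have hT := T_nonpos hm0
  have habs : |df W (fun _ => 1)| = 2 * -m := by
    rw [h3, hm, abs_of_nonpos (by linarith)]
    ring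
  exact ⟨⟨_, -m, h1, by rw [h2, hm, hT]; ring, Or.inr ⟨hm0, rfl⟩, habs.le⟩,
    ⟨_, -m, h1, by rw [h2, hm, hT]; ring, Or.inr ⟨hm0, rfl⟩, habs.ge⟩⟩

theorem QD_nonpos {m : ℤ} (hm0 : m ≤ 0) : QD m := fun _ _ _ W _ _ hm _ => (has_nonpos hm0 W hm).1

theorem QB_nonpos {m : ℤ} (hm0 : m ≤ 0) : QB m := fun _ _ _ W _ _ hm _ => (has_nonpos hm0 W hm).2

end

theorem T_nat (m : ℕ) : T (m : ℤ) = 2 * (mc m : ℤ) - m := by
  unfold T
  rw [Int.toNat_natCast]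

/-- optimality of `n` for `m = C(n,2) + r`, `r ≥ 0` -/
theorem mc_of_T {n m r : ℕ} (hr : m = n.choose 2 + r)
    (h : T (m : ℤ) = ((n / 2 : ℕ) : ℤ) + T (r : ℤ)) : mc m = n ^ 2 / 4 + mc r := by
  rw [T_nat, T_nat] at h
  have h2 := two_sq n
  omega

/-- optimality of `n` for `m = C(n,2) - y` -/
theorem mc_of_T_neg {n m y : ℕ} (hr : m + y = n.choose 2)
    (h : T (m : ℤ) = ((n / 2 : ℕ) : ℤ) + y) : mc m = n ^ 2 / 4 := by
  rw [T_nat] at h
  have h2 := two_sq n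
  omega

/-- the step of the recursion for even `n` -/
theorem DV_even {n m : ℕ} (hn : 2 ≤ n) (hpar : n % 2 = 0)
    (hT : T (m : ℤ) = ((n / 2 : ℕ) : ℤ) + T ((m : ℤ) - ((n.choose 2 : ℕ) : ℤ))) {x : ℤ}
    (hx : DV ((m : ℤ) - ((n.choose 2 : ℕ) : ℤ)) x) : DV m x := by
  obtain ⟨k, hk⟩ : ∃ k, n = 2 * k := ⟨n / 2, by omega⟩
  subst hk
  rcases hx with ⟨r, x', hr, hx', hval⟩ | ⟨hr, hx'⟩
  · rw [hr] at hT
    have e1 : m = (2 * k).choose 2 + r := by omega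
    have h1 := mc_of_T e1 hT
    refine Or.inl ⟨m, x', rfl, hx', ?_⟩
    rw [e1] at h1 ⊢
    exact DVal.even (by omega) h1 hval
  · obtain ⟨y, hy⟩ := Int.eq_ofNat_of_zero_le (show 0 ≤ -((m : ℤ) - (((2 * k).choose 2 : ℕ) : ℤ)) by linarith)
    rw [T_nonpos hr, hy] at hT
    have e1 : m + y = (2 * k).choose 2 := by omega
    have h1 := mc_of_T_neg e1 hT
    exact Or.inl ⟨m, y, rfl, by rw [hx', hy], DVal.evenNeg (by omega) e1 h1⟩

theorem BV_even {n m : ℕ} (hn : 2 ≤ n) (hpar : n % 2 = 0)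
    (hT : T (m : ℤ) = ((n / 2 : ℕ) : ℤ) + T ((m : ℤ) - ((n.choose 2 : ℕ) : ℤ))) {x : ℤ}
    (hx : BV ((m : ℤ) - ((n.choose 2 : ℕ) : ℤ)) x) : BV m x := by
  obtain ⟨k, hk⟩ : ∃ k, n = 2 * k := ⟨n / 2, by omega⟩
  subst hk
  rcases hx with ⟨r, x', hr, hx', hval⟩ | ⟨hr, hx'⟩
  · rw [hr] at hT
    have e1 : m = (2 * k).choose 2 + r := by omega
    have h1 := mc_of_T e1 hT
    refine Or.inl ⟨m, x', rfl, hx', ?_⟩
    rw [e1] at h1 ⊢
    exact BVal.even (by omega) h1 hval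
  · obtain ⟨y, hy⟩ := Int.eq_ofNat_of_zero_le (show 0 ≤ -((m : ℤ) - (((2 * k).choose 2 : ℕ) : ℤ)) by linarith)
    rw [T_nonpos hr, hy] at hT
    have e1 : m + y = (2 * k).choose 2 := by omega
    have h1 := mc_of_T_neg e1 hT
    exact Or.inl ⟨m, y, rfl, by rw [hx', hy], BVal.evenNeg (by omega) e1 h1⟩

theorem DV_odd {n m : ℕ} (hn : 2 ≤ n) (hpar : n % 2 = 1)
    (hT : T (m : ℤ) = ((n / 2 : ℕ) : ℤ) + T ((m : ℤ) - ((n.choose 2 : ℕ) : ℤ))) {b x : ℤ}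
    (hb : BV ((m : ℤ) - ((n.choose 2 : ℕ) : ℤ)) b) (hx : 2 * x = (n : ℤ) - 1 - 2 * b) (hx0 : 0 ≤ x) :
    DV m x := by
  obtain ⟨k, hk⟩ : ∃ k, n = 2 * k + 1 := ⟨n / 2, by omega⟩
  subst hk
  obtain ⟨x', rfl⟩ := Int.eq_ofNat_of_zero_le hx0
  rcases hb with ⟨r, b', hr, hb', hval⟩ | ⟨hr, hb'⟩
  · rw [hr] at hT
    have e1 : m = (2 * k + 1).choose 2 + r := by omega
    have h1 := mc_of_T e1 hT
    refine Or.inl ⟨m, x', rfl, rfl, ?_⟩
    rw [e1] at h1 ⊢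
    refine DVal.odd (by omega) h1 hval ?_
    rw [hb'] at hx
    push_cast at hx
    omega
  · obtain ⟨y, hy⟩ := Int.eq_ofNat_of_zero_le (show 0 ≤ -((m : ℤ) - (((2 * k + 1).choose 2 : ℕ) : ℤ)) by linarith)
    rw [T_nonpos hr, hy] at hT
    have e1 : m + y = (2 * k + 1).choose 2 := by omega
    have h1 := mc_of_T_neg e1 hT
    refine Or.inl ⟨m, x', rfl, rfl, DVal.oddNeg (by omega) e1 h1 ?_⟩
    rw [hb', hy] at hx
    push_cast at hx
    omega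

theorem BV_odd {n m : ℕ} (hn : 2 ≤ n) (hpar : n % 2 = 1)
    (hT : T (m : ℤ) = ((n / 2 : ℕ) : ℤ) + T ((m : ℤ) - ((n.choose 2 : ℕ) : ℤ))) {b : ℤ}
    (hb : BV ((m : ℤ) - ((n.choose 2 : ℕ) : ℤ)) b) : BV m (((n / 2 : ℕ) : ℤ) + b) := by
  obtain ⟨k, hk⟩ : ∃ k, n = 2 * k + 1 := ⟨n / 2, by omega⟩
  subst hk
  have hk2 : (2 * k + 1) / 2 = k := by omega
  rw [hk2] at hT ⊢
  rcases hb with ⟨r, b', hr, hb', hval⟩ | ⟨hr, hb'⟩
  · rw [hr] at hT
    have e1 : m = (2 * k + 1).choose 2 + r := by omega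
    have h1 := mc_of_T e1 (by rw [hk2]; exact hT)
    refine Or.inl ⟨m, k + b', rfl, by rw [hb']; push_cast; ring, ?_⟩
    rw [e1] at h1 ⊢
    exact BVal.odd (by omega) h1 hval
  · obtain ⟨y, hy⟩ := Int.eq_ofNat_of_zero_le (show 0 ≤ -((m : ℤ) - (((2 * k + 1).choose 2 : ℕ) : ℤ)) by linarith)
    rw [T_nonpos hr, hy] at hT
    have e1 : m + y = (2 * k + 1).choose 2 := by omega
    have h1 := mc_of_T_neg e1 (by rw [hk2]; exact hT)
    exact Or.inl ⟨m, k + y, rfl, by rw [hb', hy]; push_cast; ring, BVal.oddNeg (by omega) e1 h1⟩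

/-- [QFO-Skel] the step: an extremal object with many pure twins -/
theorem r1_step {V : Type} [Fintype V] [DecidableEq V] {W : V → V → ℤ} {k c : V → ℤ} (h : OS W k)
    (hc : ∀ i, 0 ≤ c i) {L : Finset V} (hL : Tw W k c L) {n : ℕ} (hn : ∑ i, c i = n) (hn2 : 2 ≤ n)
    (hLn : n + n % 2 ≤ 2 * L.card) {m : ℕ} (hm : inn W univ = 2 * (m : ℤ)) (hs : Sb W (T m))
    (hTn : n % 2 = 1 → T m ≤ (n : ℤ) - 1)
    (hD : QD ((m : ℤ) - ((n.choose 2 : ℕ) : ℤ))) (hB : QB ((m : ℤ) - ((n.choose 2 : ℕ) : ℤ))) :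
    HasD W m ∧ HasB W m := by
  obtain ⟨hT, hinn, hSb⟩ := r1_rest h.toSymK hc hL hn hLn hm hs
    (fun i => add_nonneg (h.knn i) (ch_nonneg (hc i)))
  obtain ⟨f, x, hf, hf2, hx, hf3⟩ := hD V (rst W c) _ (rst_OS h hc) hinn hSb
  obtain ⟨g, b, hg, hg2, hb, hg3⟩ := hB V (rst W c) _ (rst_OS h hc) hinn hSb
  obtain ⟨-, h0, h1⟩ := r1_main h hc hL hn hLn hm hs (D := x) (B := b) ⟨f, hf, hf2, hf3⟩
    ⟨g, hg, hg2, hg3⟩
  rcases Nat.mod_two_eq_zero_or_one n with hpar | hpar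
  · obtain ⟨⟨e, he, he2, he3⟩, ⟨e', he', he2', he3'⟩⟩ := h0 hpar
    exact ⟨⟨e, x, he, he2, DV_even hn2 hpar hT hx, he3⟩,
      ⟨e', b, he', he2', BV_even hn2 hpar hT hb, he3'⟩⟩
  · obtain ⟨hA, e', he', he2', he3'⟩ := h1 hpar
    have hn1 := Nat.div_add_mod n 2
    obtain ⟨e, he, he2, he3⟩ := hA (by
      have h3 := hTn hpar
      rw [hT] at h3
      omega)
    refine ⟨⟨e, ((n / 2 : ℕ) : ℤ) - b, he, he2, ?_, ?_⟩,
      ⟨e', ((n / 2 : ℕ) : ℤ) + b, he', he2', BV_odd hn2 hpar hT hb, ?_⟩⟩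
    · refine DV_odd hn2 hpar hT hb (by omega) ?_
      have h4 := abs_nonneg (df W e)
      omega
    · omega
    · omega

end Pool.Agent.QFO
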