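import Pool.Agent.QFO.DRule
import Pool.Agent.QFO.LB
import Pool.Agent.QFO.Skel

/-!
# [QFO-CData] an optimal cut at class level
-/

set_option autoImplicit false
set_option linter.unusedSectionVars false

namespace Pool.Agent.QFO

open Finset Pool.Agent.MP_710317_co.Rec Pool.Agent.MXC

/-- the numerical data of an optimal class level cut with the insides `a ≥ b` and `p`, `q` classes on the
two sides -/
structure CData (m : ℤ) (N : ℕ) (K a b KA KB : ℤ) (p q : ℕ) : Prop where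
  ab : 2 * (a + b) = m - T m
  ge : 0 ≤ a - b
  le : a - b ≤ T m
  kA : 0 ≤ KA
  kB : 0 ≤ KB
  kk : KA + KB = K
  pq : p + q = N
  fA : (p : ℤ) * ((p : ℤ) - 1) ≤ 2 * (a + KA)
  fB : (q : ℤ) * ((q : ℤ) - 1) ≤ 2 * (b + KB)
  blk : ∀ x y : ℤ, LB p (a + KA) x → LB q (b + KB) y → x + y + K ≤ T m

/-- class level: a lower bound for the surplus with `N` classes -/
theorem LB_top {V : Type*} [Fintype V] [DecidableEq V] {W : V → V → ℤ} {k : V → ℤ} (h : OO W k)
    {N : ℕ} {f : V → Fin N} (hc : Col W f) {m s : ℤ} (hm : inn W univ = 2 * m) (hs : Sb W s)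
    {ℓ : ℤ} (hL : LB N (m + ∑ i, k i) ℓ) : ℓ + ∑ i, k i ≤ s := by
  obtain ⟨h1, h2, h3, h4⟩ := push_facts h hc
  have h5 := hL (Fin N) (Fintype.card_fin N) _ h1 h2 (by rw [h3, hm]; ring) _ (h4 s hs)
  linarith

/-- [QFO-CData] there is an optimal class level cut -/
theorem cData {V : Type*} [Fintype V] [DecidableEq V] {W : V → V → ℤ} {k : V → ℤ} (h : OO W k)
    {N : ℕ} {f : V → Fin N} (hc : Col W f) {m : ℤ} (hm : inn W univ = 2 * m) (hs : Sb W (T m)) :
    ∃ (e : V → ℤ) (a b KA KB : ℤ) (p q : ℕ), IsSign e ∧ en W e = 2 * T m ∧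
      |df W e| = 2 * (a - b) ∧ CData m N (∑ i, k i) a b KA KB p q := by
  have hsk := push_symK h.toSymK hc.prop
  have hinn : inn (push W f) univ = 2 * m := by rw [push_inn, hm]
  have hSb := push_Sb hs f
  obtain ⟨e', he', h1'⟩ := exists_opt hsk hinn hSb
  -- the positive side is the heavy one
  obtain ⟨e, he, h1, h0⟩ : ∃ e : Fin N → ℤ, IsSign e ∧ en (push W f) e = 2 * T m ∧
      0 ≤ df (push W f) e := by
    rcases le_total 0 (df (push W f) e') with h4 | h4
    · exact ⟨e', he', h1', h4⟩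
    · exact ⟨fun i => - e' i, neg_sign he', by rw [en_neg, h1'], by rw [df_neg]; linarith⟩
  set S : Finset (Fin N) := pos e with hS
  have heS : sg S = e := sg_pos he
  obtain ⟨a, ha⟩ := inn_even hsk S
  obtain ⟨b, hb⟩ := inn_even hsk Sᶜ
  have hsplit := tot_splitK hsk S
  have hen := en_sg hsk S
  have hdf := df_sg (push W f) hsk S
  rw [heS] at hen hdf
  rw [h1, hinn] at hen
  rw [hinn, ha, hb] at hsplit
  rw [ha, hb] at hdf
  have hle := df_le hsk hSb he h1
  rw [abs_of_nonneg h0, hdf] at hle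
  obtain ⟨s₁, hs₁, he₁, -⟩ := side_max hsk S ha
  obtain ⟨s₂, hs₂, he₂, -⟩ := side_max hsk Sᶜ hb
  have hblk := block2 hsk hSb S he₁ he₂
  have hge : ∀ i j : Fin N, i ≠ j → 1 ≤ push W f i j := fun i j hij => one_le_push h hc hij
  have hside : ∀ (S : Finset (Fin N)) (x : ℤ), inn (push W f) S = 2 * x →
      (S.card : ℤ) * ((S.card : ℤ) - 1) ≤ 2 * (x + ∑ i ∈ S, ∑ v ∈ cls f i, k v) := by
    intro S x hx
    have h2 := ge_one_sum (w := sub (push W f) S) (fun a b hab => by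
      unfold sub off
      rw [if_neg (fun h => hab (Subtype.ext h))]
      exact hge _ _ (fun h => hab (Subtype.ext h))) (sub_sym hsk S).diag
    rw [sub_inn hsk, hx, Fintype.card_coe] at h2
    linarith
  refine ⟨fun v => e (f v), a, b, ∑ i ∈ S, ∑ v ∈ cls f i, k v, ∑ i ∈ Sᶜ, ∑ v ∈ cls f i, k v,
    S.card, Sᶜ.card, fun v => he _, by rw [← push_en, h1], ?_,
    ⟨by linarith, by linarith, by linarith, ?_, ?_, ?_, ?_, hside S a ha, hside Sᶜ b hb, ?_⟩⟩
  · rw [← push_df, abs_of_nonneg h0, hdf]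
    ring
  · exact Finset.sum_nonneg fun i _ => Finset.sum_nonneg fun v _ => h.knn v
  · exact Finset.sum_nonneg fun i _ => Finset.sum_nonneg fun v _ => h.knn v
  · rw [Finset.sum_add_sum_compl, cls_sum]
  · rw [Finset.card_add_card_compl, Fintype.card_fin]
  · intro x y hx hy
    have h5 := LB_side hsk (S := S) (fun i _ j _ hij => hge i j hij) ha hs₁ hx
    have h6 := LB_side hsk (S := Sᶜ) (fun i _ j _ hij => hge i j hij) hb hs₂ hy
    have h7 : ∑ i ∈ S, ∑ v ∈ cls f i, k v + ∑ i ∈ Sᶜ, ∑ v ∈ cls f i, k v = ∑ i, k i := by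
      rw [Finset.sum_add_sum_compl, cls_sum]
    linarith

end Pool.Agent.QFO
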