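import Pool.Agent.QFO.PairOdd
import Pool.Agent.QFO.R1m

/-!
# [QFO-CAP] a complete set with more than `s - K` vertices gives the decomposition

`anti`: a vertex `y` is glued with the opposite sign to a vertex `z`. `cap_lemma`: the pair lemma with additional
pairs `y`, `φ y` with `y` in the complete set and `φ y` outside. `clique_R1`: a complete set `C` without loops
and `s - K < |C|` gives pure twins `L` with the row `c`, `n = ∑ c`, `n + n % 2 ≤ 2 |L|`.
-/

set_option autoImplicit false
set_option linter.unusedSectionVars false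

namespace Pool.Agent.QFO

open Finset Pool.Agent.MP_710317_co.Rec Pool.Agent.MXC

variable {V : Type*} [Fintype V] [DecidableEq V]

/-- `y` glued to `z` with the opposite sign -/
def agl (W : V → V → ℤ) (y z : V) (a b : V) : ℤ :=
  if a = y ∨ b = y then 0 else W a b - (if a = z then W y b else 0) - (if b = z then W a y else 0)

theorem agl_symK {W : V → V → ℤ} {k : V → ℤ} (hw : SymK W k) {y z : V} (hyz : y ≠ z)
    (hky : k y = 0) (hn : 0 ≤ W y z) :
    SymK (agl W y z) (fun a => if a = z then k z + W y z else k a) := by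
  refine ⟨fun a b => ?_, fun a => ?_, fun a => ?_⟩
  · unfold agl
    by_cases h : a = y ∨ b = y
    · rw [if_pos h, if_pos h.symm]
    · rw [if_neg h, if_neg (fun h' : b = y ∨ a = y => h h'.symm), hw.symm a b, hw.symm y b,
        hw.symm a y]
      ring
  · unfold agl
    by_cases h : a = y
    · rw [if_pos (Or.inl h), if_neg (fun h' => hyz (h.symm.trans h')), h, hky]; ring
    · rw [if_neg (fun h' => h (h'.elim id id))]
      by_cases h2 : a = z
      · rw [if_pos h2, if_pos h2, if_pos h2, h2, hw.diag, hw.symm z y]; ring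
      · rw [if_neg h2, if_neg h2, if_neg h2, hw.diag]; ring
  · by_cases h2 : a = z
    · simp only [if_pos h2]; exact add_nonneg (hw.knn z) hn
    · simp only [if_neg h2]; exact hw.knn a

theorem agl_en {W : V → V → ℤ} {k : V → ℤ} (hw : SymK W k) {y z : V} (hyz : y ≠ z)
    (hky : k y = 0) (e : V → ℤ) : en (agl W y z) e = en W (Function.update e y (- e z)) := by
  have hyy : W y y = 0 := by rw [hw.diag, hky]; ring
  have h1 : ∀ a b, agl W y z a b * e a * e b = W a b * e a * e b
      - (if a = y then W y b * e y * e b else 0) - (if b = y then W a y * e a * e y else 0)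
      + (if a = y then (if b = y then W y y * e y * e y else 0) else 0)
      - (if a = z then W y b * e z * e b else 0) + (if a = z then (if b = y then W y y * e z * e y
        else 0) else 0)
      - (if b = z then W a y * e a * e z else 0) + (if b = z then (if a = y then W y y * e y * e z
        else 0) else 0) := by
    intro a b
    unfold agl
    by_cases ha : a = y
    · have haz : a ≠ z := fun h => hyz (ha.symm.trans h)
      rw [if_pos (Or.inl ha), if_pos ha, if_pos ha, if_neg haz, if_neg haz]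
      by_cases hb : b = y
      · have hbz : b ≠ z := fun h => hyz (hb.symm.trans h)
        rw [if_pos hb, if_pos hb, if_neg hbz, if_neg hbz, ha, hb]; ring
      · rw [if_neg hb, if_neg hb, if_pos ha]
        by_cases hbz : b = z
        · rw [if_pos hbz, if_pos hbz, ha, hbz]; ring
        · rw [if_neg hbz, if_neg hbz, ha]; ring
    · rw [if_neg ha, if_neg ha]
      by_cases hb : b = y
      · have hbz : b ≠ z := fun h => hyz (hb.symm.trans h)
        rw [if_pos (Or.inr hb), if_pos hb, if_neg hbz, if_neg hbz, if_pos hb]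
        by_cases haz : a = z
        · rw [if_pos haz, if_pos haz, haz, hb]; ring
        · rw [if_neg haz, if_neg haz, hb]; ring
      · rw [if_neg (fun h => h.elim ha hb), if_neg hb, if_neg hb, if_neg ha]
        by_cases haz : a = z <;> by_cases hbz : b = z
        · rw [if_pos haz, if_pos hbz, if_pos haz, if_pos haz, if_pos hbz, if_pos hbz, haz, hbz]; ring
        · rw [if_pos haz, if_neg hbz, if_pos haz, if_pos haz, if_neg hbz, if_neg hbz, haz]; ring
        · rw [if_neg haz, if_pos hbz, if_neg haz, if_neg haz, if_pos hbz, if_pos hbz, hbz]; ring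
        · rw [if_neg haz, if_neg hbz, if_neg haz, if_neg haz, if_neg hbz, if_neg hbz]; ring
  set e' : V → ℤ := Function.update e y (- e z) with he'
  have hy : e' y = - e z := by rw [he', Function.update_self]
  have hne : ∀ a, a ≠ y → e' a = e a := fun a ha => by rw [he', Function.update_of_ne ha]
  have h2 : ∀ a b, W a b * e' a * e' b = W a b * e a * e b
      - (if a = y then W y b * e y * e b else 0) - (if b = y then W a y * e a * e y else 0)
      + (if a = y then (if b = y then W y y * e y * e y else 0) else 0)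
      - (if a = y then W y b * e z * e b else 0) + (if a = y then (if b = y then W y y * e z * e y
        else 0) else 0)
      - (if b = y then W a y * e a * e z else 0) + (if b = y then (if a = y then W y y * e y * e z
        else 0) else 0) := by
    intro a b
    by_cases ha : a = y
    · by_cases hb : b = y
      · rw [ha, hb, hyy]; simp
      · rw [if_pos ha, if_pos ha, if_pos ha, if_pos ha, if_neg hb, if_neg hb, if_neg hb, if_neg hb,
          if_neg hb, ha, hy, hne b hb]; ring
    · by_cases hb : b = y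
      · rw [if_neg ha, if_neg ha, if_neg ha, if_neg ha, if_pos hb, if_pos hb, if_pos hb, if_neg ha,
          hb, hy, hne a ha]; ring
      · rw [if_neg ha, if_neg ha, if_neg ha, if_neg ha, if_neg hb, if_neg hb, if_neg hb, hne a ha,
          hne b hb]; ring
  have hs1 : ∑ b, W y b * e z * e b = ∑ a, W a y * e a * e z :=
    Finset.sum_congr rfl fun b _ => by rw [hw.symm y b]; ring
  unfold en
  congr 1
  rw [Finset.sum_congr rfl fun a _ => Finset.sum_congr rfl fun b _ => h1 a b,
    Finset.sum_congr rfl fun a _ => Finset.sum_congr rfl fun b _ => h2 a b]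
  simp only [Finset.sum_add_distrib, Finset.sum_sub_distrib]
  have h3 : ∀ (u : V) (F : V → V → ℤ), ∑ a, ∑ b, (if a = u then F a b else 0) = ∑ b, F u b := by
    intro u F
    rw [Finset.sum_eq_single u]
    · simp
    · intro a _ ha
      simp [ha]
    · intro h; exact absurd (mem_univ u) h
  have h4 : ∀ (u : V) (F : V → V → ℤ), ∑ a, ∑ b, (if b = u then F a b else 0) = ∑ a, F a u := by
    intro u F
    refine Finset.sum_congr rfl fun a _ => ?_
    rw [Finset.sum_ite_eq']; simp
  have e1 : ∑ a : V, ∑ b, (if a = z then W y b * e z * e b else 0) = ∑ b, W y b * e z * e b :=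
    h3 z (fun _ b => W y b * e z * e b)
  have e2 : ∑ a : V, ∑ b, (if a = y then W y b * e z * e b else 0) = ∑ b, W y b * e z * e b :=
    h3 y (fun _ b => W y b * e z * e b)
  have e3 : ∑ a, ∑ b : V, (if b = z then W a y * e a * e z else 0) = ∑ a, W a y * e a * e z :=
    h4 z (fun a _ => W a y * e a * e z)
  have e4 : ∑ a, ∑ b : V, (if b = y then W a y * e a * e z else 0) = ∑ a, W a y * e a * e z :=
    h4 y (fun a _ => W a y * e a * e z)
  have e5 : ∀ u v : V, ∑ a : V, ∑ b : V, (if a = u then (if b = v then W y y * e z * e y else 0)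
      else 0) = 0 := by
    intro u v
    rw [hyy]; simp
  have e6 : ∀ u v : V, ∑ a : V, ∑ b : V, (if b = u then (if a = v then W y y * e y * e z else 0)
      else 0) = 0 := by
    intro u v
    rw [hyy]; simp
  rw [e1, e2, e3, e4, e5, e5, e6, e6]

theorem agl_Sb {W : V → V → ℤ} {k : V → ℤ} (hw : SymK W k) {y z : V} (hyz : y ≠ z)
    (hky : k y = 0) {s : ℤ} (hs : Sb W s) : Sb (agl W y z) s := by
  intro e he
  rw [agl_en hw hyz hky]
  refine hs _ fun i => ?_
  by_cases h : i = y
  · rw [h, Function.update_self]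
    rcases he z with h2 | h2 <;> rw [h2] <;> norm_num
  · rw [Function.update_of_ne h]; exact he i

/-- [QFO-CAP1] the pair lemma with additional pairs `y`, `φ y`, `y` in the complete set and `φ y` outside -/
theorem cap_lemma (Y : Finset V) : ∀ {W : V → V → ℤ} {k : V → ℤ} (_ : SymK W k) {s : ℤ}
    (_ : Sb W s) {C : Finset V} (_ : ∀ i ∈ C, ∀ j ∈ C, i ≠ j → W i j = 1)
    (_ : ∀ i ∈ C, k i = 0) {X : Finset V} (_ : X ⊆ C) (f : V → V) (_ : ∀ x ∈ X, f x ∈ C)
    (_ : ∀ x ∈ X, f x ∉ X) (_ : Set.InjOn f X) (_ : ∀ x ∈ X, ∃ z, z ∉ C ∧ W x z ≠ W (f x) z)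
    (_ : Y ⊆ C) (_ : Disjoint Y X) (_ : ∀ x ∈ X, f x ∉ Y) (φ : V → V) (_ : ∀ y ∈ Y, φ y ∉ C)
    (_ : Set.InjOn φ Y) (_ : ∀ y ∈ Y, 0 ≤ W y (φ y)),
    (C.card : ℤ) - Y.card - (((C.card + Y.card) % 2 : ℕ) : ℤ) + 2 * X.card + 2 * ∑ i, k i +
      2 * ∑ y ∈ Y, W y (φ y) ≤ 2 * s := by
  induction Y using Finset.induction_on with
  | empty =>
    intro W k hw s hs C h1 hk X hX f hfC hfX hinj hd _ _ _ φ _ _ _
    have := pair_lemma hw hs h1 hk hX f hfC hfX hinj hd
    simpa using this
  | insert y Y hy ih =>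
    intro W k hw s hs C h1 hk X hX f hfC hfX hinj hd hYC hYX hYf φ hφ hφi hφn
    have hyC : y ∈ C := hYC (mem_insert_self y Y)
    have hzC : φ y ∉ C := hφ y (mem_insert_self y Y)
    have hyz : y ≠ φ y := fun h => hzC (h ▸ hyC)
    have hky : k y = 0 := hk y hyC
    have hyX : y ∉ X := fun h => (Finset.disjoint_left.1 hYX) (mem_insert_self y Y) h
    have hne : ∀ i ∈ C.erase y, i ≠ y ∧ i ≠ φ y ∧ i ∈ C := fun i hi => by
      obtain ⟨h2, h3⟩ := mem_erase.1 hi
      exact ⟨h2, fun h => hzC (h ▸ h3), h3⟩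
    have hval : ∀ i ∈ C.erase y, ∀ b, b ≠ y → agl W y (φ y) i b =
        W i b - (if b = φ y then W i y else 0) := by
      intro i hi b hb
      obtain ⟨h2, h3, _⟩ := hne i hi
      unfold agl
      rw [if_neg (fun h => h.elim h2 hb), if_neg h3]
      ring
    have h := ih (agl_symK hw hyz hky (hφn y (mem_insert_self y Y))) (agl_Sb hw hyz hky hs)
      (C := C.erase y) (by
        intro i hi j hj hij
        obtain ⟨h2, h3, h4⟩ := hne j hj
        rw [hval i hi j h2, if_neg h3, sub_zero]
        exact h1 i (hne i hi).2.2 j h4 hij) (by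
        intro i hi
        simp only [if_neg (hne i hi).2.1]
        exact hk i (hne i hi).2.2) (X := X)
      (fun x hx => mem_erase.2 ⟨fun h => hyX (h ▸ hx), hX hx⟩) f
      (fun x hx => mem_erase.2 ⟨fun h => hYf x hx (h ▸ mem_insert_self y Y), hfC x hx⟩)
      hfX hinj (by
        intro x hx
        obtain ⟨z, hz, hzne⟩ := hd x hx
        have hx1 : x ∈ C.erase y := mem_erase.2 ⟨fun h => hyX (h ▸ hx), hX hx⟩
        have hx2 : f x ∈ C.erase y :=
          mem_erase.2 ⟨fun h => hYf x hx (h ▸ mem_insert_self y Y), hfC x hx⟩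
        have hzy : z ≠ y := fun h => hz (h ▸ hyC)
        refine ⟨z, fun h => hz (mem_of_mem_erase h), ?_⟩
        rw [hval x hx1 z hzy, hval (f x) hx2 z hzy, h1 x (hX hx) y hyC (hne x hx1).1,
          h1 (f x) (hfC x hx) y hyC (hne _ hx2).1]
        intro h
        exact hzne (by linarith))
      (fun i hi => mem_erase.2 ⟨fun h => hy (h ▸ hi), hYC (mem_insert_of_mem hi)⟩)
      (Finset.disjoint_of_subset_left (subset_insert y Y) hYX)
      (fun x hx h => hYf x hx (mem_insert_of_mem h)) φ
      (fun i hi h => hφ i (mem_insert_of_mem hi) (mem_of_mem_erase h))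
      (fun a ha b hb hab => hφi (by simpa using Or.inr ha) (by simpa using Or.inr hb) hab) (by
        intro i hi
        have hi1 : i ∈ C.erase y := mem_erase.2 ⟨fun h => hy (h ▸ hi), hYC (mem_insert_of_mem hi)⟩
        have hne1 : φ i ≠ y := fun h => hφ i (mem_insert_of_mem hi) (h ▸ hyC)
        have hne2 : φ i ≠ φ y := fun h => (hne i hi1).1
          (hφi (by simpa using Or.inr hi) (by simp) h)
        rw [hval i hi1 _ hne1, if_neg hne2, sub_zero]
        exact hφn i (mem_insert_of_mem hi))
    have hsum : ∑ i ∈ Y, agl W y (φ y) i (φ i) = ∑ i ∈ Y, W i (φ i) := by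
      refine Finset.sum_congr rfl fun i hi => ?_
      have hi1 : i ∈ C.erase y := mem_erase.2 ⟨fun h => hy (h ▸ hi), hYC (mem_insert_of_mem hi)⟩
      have hne1 : φ i ≠ y := fun h => hφ i (mem_insert_of_mem hi) (h ▸ hyC)
      have hne2 : φ i ≠ φ y := fun h => (hne i hi1).1 (hφi (by simpa using Or.inr hi) (by simp) h)
      rw [hval i hi1 _ hne1, if_neg hne2, sub_zero]
    have hksum : ∑ a, (if a = φ y then k (φ y) + W y (φ y) else k a) = ∑ a, k a + W y (φ y) := by
      have h2 : ∀ a, (if a = φ y then k (φ y) + W y (φ y) else k a) =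
          k a + (if a = φ y then W y (φ y) else 0) := by
        intro a
        by_cases h3 : a = φ y
        · rw [if_pos h3, if_pos h3, h3]
        · rw [if_neg h3, if_neg h3, add_zero]
      rw [Finset.sum_congr rfl fun a _ => h2 a, Finset.sum_add_distrib, Finset.sum_ite_eq']
      simp
    rw [hsum, hksum] at h
    have hc1 : (C.erase y).card + 1 = C.card := Finset.card_erase_add_one hyC
    have hc2 : (insert y Y).card = Y.card + 1 := Finset.card_insert_of_notMem hy
    have hmod : (C.card + (insert y Y).card) % 2 = ((C.erase y).card + Y.card) % 2 := by omega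
    rw [hmod, hc2, Finset.sum_insert hy, ← hc1]
    push_cast at h ⊢
    linarith

/-- an injection between finite sets -/
theorem exists_inj {A B : Finset V} (h : A.card ≤ B.card) : ∃ f : V → V, (∀ x ∈ A, f x ∈ B) ∧
    Set.InjOn f A := by
  classical
  obtain ⟨B', hB', hc⟩ := Finset.exists_subset_card_eq h
  have e : A ≃ B' := Finset.equivOfCardEq hc.symm
  refine ⟨fun x => if hx : x ∈ A then (e ⟨x, hx⟩ : V) else x, fun x hx => ?_, fun x hx y hy hxy => ?_⟩
  · simp only [dif_pos hx]
    exact hB' (e ⟨x, hx⟩).2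
  · have hx' : x ∈ A := hx
    have hy' : y ∈ A := hy
    simp only [dif_pos hx', dif_pos hy'] at hxy
    have := e.injective (Subtype.ext hxy)
    exact congrArg Subtype.val this

/-- [QFO-CAP2] `C` complete without loops, `s - K < |C|`: there are pure twins `L` with row `c`,
`n = ∑ c` and `n + n % 2 ≤ 2 |L|`. -/
theorem clique_R1 {W : V → V → ℤ} {k : V → ℤ} (h : OO W k) {s : ℤ} (hs : Sb W s)
    {C : Finset V} (h1 : ∀ i ∈ C, ∀ j ∈ C, i ≠ j → W i j = 1) (hk : ∀ i ∈ C, k i = 0)
    (hbig : s - ∑ i, k i < C.card) :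
    ∃ (L : Finset V) (c : V → ℤ) (n : ℕ), (∀ i, 0 ≤ c i) ∧ Tw W k c L ∧ ∑ i, c i = n ∧
      n + n % 2 ≤ 2 * L.card := by
  classical
  have hw : SymK W k := h.toSymK
  -- the set of twins
  have key : (∃ L ⊆ C, (C.card : ℤ) + 1 ≤ 2 * L.card ∧ L.Nonempty ∧
      ∀ i ∈ L, ∀ j ∈ L, ∀ z, z ∉ C → W i z = W j z) ∨
      ∃ L ⊆ C, (C.card : ℤ) + 1 ≤ 2 * L.card ∧ ∀ i ∈ L, ∀ z, z ∉ C → W i z = 0 := by
    rcases Nat.mod_two_eq_zero_or_one C.card with h2 | h2
    · left
      obtain ⟨q, hq⟩ : ∃ q : ℕ, C.card = 2 * q := ⟨C.card / 2, by omega⟩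
      obtain ⟨L, hL, hLc, hLn, hLr⟩ := twins hw hs (t := s - ∑ i, k i - q) h1 hk
        (by rw [h2, hq]; push_cast; linarith) (by rw [hq] at hbig ⊢; push_cast at hbig ⊢; linarith)
      refine ⟨L, hL, ?_, hLn, hLr⟩
      rw [hq] at hLc hbig ⊢
      push_cast at hLc hbig ⊢
      linarith
    · obtain ⟨q, hq⟩ : ∃ q : ℕ, C.card = 2 * q + 1 := ⟨C.card / 2, by omega⟩
      rcases twins_odd hw hs (t := s - ∑ i, k i - q) h1 hk h2
        (by rw [hq]; push_cast; linarith) (by rw [hq] at hbig ⊢; push_cast at hbig ⊢; linarith)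
        with ⟨L, hL, hLc, hLn, hLr⟩ | ⟨L, hL, hLc, hLr⟩
      · left
        refine ⟨L, hL, ?_, hLn, hLr⟩
        rw [hq] at hLc hbig ⊢
        push_cast at hLc hbig ⊢
        linarith
      · right
        refine ⟨L, hL, ?_, hLr⟩
        rw [hq] at hLc hbig ⊢
        push_cast at hLc hbig ⊢
        linarith
  rcases key with ⟨L₀, hL₀C, hL₀c, ⟨v₀, hv₀⟩, hL₀r⟩ | ⟨L, hLC, hLc, hLr⟩
  · have hv₀C : v₀ ∈ C := hL₀C hv₀
    set L : Finset V := C.filter fun i => ∀ z, z ∉ C → W i z = W v₀ z with hL
    have hLC : L ⊆ C := filter_subset _ _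
    have hL₀L : L₀ ⊆ L := fun i hi => mem_filter.2 ⟨hL₀C hi, hL₀r i hi v₀ hv₀⟩
    have hLc : (C.card : ℤ) + 1 ≤ 2 * L.card := by
      have h2 : (L₀.card : ℤ) ≤ L.card := by exact_mod_cast card_le_card hL₀L
      linarith
    set c : V → ℤ := fun z => if z ∈ C then 1 else W v₀ z with hc
    have hcC : ∀ z ∈ C, c z = 1 := fun z hz => by simp only [hc]; rw [if_pos hz]
    have hcn : ∀ z, z ∉ C → c z = W v₀ z := fun z hz => by simp only [hc]; rw [if_neg hz]
    have hc0 : ∀ z, 0 ≤ c z := by
      intro z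
      by_cases hz : z ∈ C
      · rw [hcC z hz]; norm_num
      · rw [hcn z hz]; exact h.nn v₀ z (fun h' => hz (h' ▸ hv₀C))
    have hTw : Tw W k c L := by
      refine ⟨fun i hi => hcC i (hLC hi), fun i hi => hk i (hLC hi), fun i hi j hj => ?_⟩
      by_cases hjC : j ∈ C
      · rw [hcC j hjC]; exact h1 i (hLC hi) j hjC (Ne.symm hj)
      · rw [hcn j hjC]; exact (mem_filter.1 hi).2 j hjC
    obtain ⟨n, hn⟩ := Int.eq_ofNat_of_zero_le (Finset.sum_nonneg fun i (_ : i ∈ univ) => hc0 i)
    refine ⟨L, c, n, hc0, hTw, hn, ?_⟩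
    by_contra hcon
    have hcon2 : 2 * (L.card : ℤ) ≤ n := by
      have : 2 * L.card ≤ n := by omega
      exact_mod_cast this
    -- the weight outside `C`
    have hsplit : ∑ i, c i = C.card + ∑ i ∈ Cᶜ, c i := by
      rw [← Finset.sum_add_sum_compl C, Finset.sum_congr rfl hcC]
      simp
    set S : Finset V := Cᶜ.filter fun z => 1 ≤ c z with hS
    have hSsum : ∑ i ∈ Cᶜ, c i = ∑ i ∈ S, c i := by
      rw [hS, Finset.sum_filter]
      refine Finset.sum_congr rfl fun i _ => ?_
      by_cases h2 : 1 ≤ c i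
      · rw [if_pos h2]
      · rw [if_neg h2]
        have := hc0 i
        omega
    have hSS : ∀ z ∈ S, z ∉ C ∧ 1 ≤ c z := fun z hz =>
      ⟨mem_compl.1 (mem_filter.1 hz).1, (mem_filter.1 hz).2⟩
    -- the pairs
    set X : Finset V := C \ L with hX
    have hXC : X ⊆ C := sdiff_subset
    have hXL : X.card + L.card = C.card := Finset.card_sdiff_add_card_eq_card hLC
    have hXle : X.card ≤ L.card := by
      have : (X.card : ℤ) + L.card = C.card := by exact_mod_cast hXL
      have h2 : (X.card : ℤ) ≤ L.card := by linarith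
      exact_mod_cast h2
    obtain ⟨f, hfL, hfi⟩ := exists_inj hXle
    set fX : Finset V := X.image f with hfX
    have hfXL : fX ⊆ L := by
      intro y hy
      obtain ⟨x, hx, rfl⟩ := mem_image.1 hy
      exact hfL x hx
    have hfXc : fX.card = X.card := Finset.card_image_of_injOn hfi
    set L' : Finset V := L \ fX with hL'
    have hL'c : L'.card + fX.card = L.card := Finset.card_sdiff_add_card_eq_card hfXL
    set q : ℕ := min L'.card S.card with hq
    obtain ⟨Y, hYL, hYc⟩ := Finset.exists_subset_card_eq (s := L') (n := q) (min_le_left _ _)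
    obtain ⟨S', hS'S, hS'c⟩ : ∃ S' ⊆ S, S'.card = q ∧
        (L'.card : ℤ) ≤ ∑ i ∈ S', c i := by
      by_cases h2 : L'.card ≤ S.card
      · obtain ⟨S', hS', hS'c⟩ := Finset.exists_subset_card_eq (s := S) (n := q) (min_le_right _ _)
        refine ⟨S', hS', hS'c, ?_⟩
        have h3 : q = L'.card := min_eq_left h2
        have h4 : ∑ i ∈ S', (1 : ℤ) ≤ ∑ i ∈ S', c i :=
          Finset.sum_le_sum fun i hi => (hSS i (hS' hi)).2
        rw [Finset.sum_const, nsmul_eq_mul, mul_one, hS'c, h3] at h4
        exact h4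
      · refine ⟨S, Finset.Subset.refl _, (min_eq_right (by omega)).symm, ?_⟩
        rw [← hSsum]
        have h3 : (L'.card : ℤ) + fX.card = L.card := by exact_mod_cast hL'c
        have h4 : (X.card : ℤ) + L.card = C.card := by exact_mod_cast hXL
        have h5 : (fX.card : ℤ) = X.card := by exact_mod_cast hfXc
        have h6 : (∑ i, c i : ℤ) = n := hn
        linarith
    obtain ⟨hS'c, hS'sum⟩ := hS'c
    obtain ⟨φ, hφS, hφi⟩ := exists_inj (A := Y) (B := S') (by rw [hYc, hS'c])
    have hYL2 : ∀ y ∈ Y, y ∈ L ∧ y ∉ fX := fun y hy => mem_sdiff.1 (hYL hy)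
    have hcap := cap_lemma Y hw hs h1 hk (X := X) hXC f (fun x hx => hLC (hfL x hx))
      (fun x hx h' => (mem_sdiff.1 h').2 (hfL x hx)) hfi (by
        intro x hx
        obtain ⟨hxC, hxL⟩ := mem_sdiff.1 hx
        by_contra hcon3
        push Not at hcon3
        refine hxL (mem_filter.2 ⟨hxC, fun z hz => ?_⟩)
        rw [hcon3 z hz]
        exact (mem_filter.1 (hfL x hx)).2 z hz)
      (fun y hy => hLC (hYL2 y hy).1)
      (Finset.disjoint_left.2 fun y hy hyX => (mem_sdiff.1 hyX).2 (hYL2 y hy).1)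
      (fun x hx hxY => (hYL2 _ hxY).2 (mem_image_of_mem f hx)) φ
      (fun y hy => (hSS _ (hS'S (hφS y hy))).1) hφi
      (fun y hy => h.nn y (φ y) (fun h' => (hSS _ (hS'S (hφS y hy))).1 (h' ▸ hLC (hYL2 y hy).1)))
    have hWφ : ∑ y ∈ Y, W y (φ y) = ∑ z ∈ S', c z := by
      have h2 : Y.image φ = S' := by
        refine Finset.eq_of_subset_of_card_le (fun z hz => ?_) ?_
        · obtain ⟨y, hy, rfl⟩ := mem_image.1 hz
          exact hφS y hy
        · rw [Finset.card_image_of_injOn hφi, hYc, hS'c]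
      rw [← h2, Finset.sum_image hφi]
      refine Finset.sum_congr rfl fun y hy => ?_
      have hne : φ y ≠ y := fun h' =>
        (hSS _ (hS'S (hφS y hy))).1 (h'.symm ▸ hLC (hYL2 y hy).1)
      exact hTw.row y (hYL2 y hy).1 (φ y) hne
    rw [hWφ, hYc] at hcap
    have h3 : (L'.card : ℤ) + fX.card = L.card := by exact_mod_cast hL'c
    have h4 : (X.card : ℤ) + L.card = C.card := by exact_mod_cast hXL
    have h5 : (fX.card : ℤ) = X.card := by exact_mod_cast hfXc
    by_cases h2 : L'.card ≤ S.card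
    · have h6 : q = L'.card := min_eq_left h2
      have h7 : (C.card + q) % 2 = 0 := by omega
      rw [h7, h6] at hcap
      push_cast at hcap
      linarith
    · have h6 : q < L'.card := by
        have : q = S.card := min_eq_right (by omega)
        omega
      have h7 : (((C.card + q) % 2 : ℕ) : ℤ) ≤ 1 := by
        have : (C.card + q) % 2 ≤ 1 := by omega
        exact_mod_cast this
      have h8 : (q : ℤ) + 1 ≤ L'.card := by exact_mod_cast h6
      linarith
  · set c : V → ℤ := fun z => if z ∈ C then 1 else 0 with hc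
    have hcC : ∀ z ∈ C, c z = 1 := fun z hz => by simp only [hc]; rw [if_pos hz]
    have hcn : ∀ z, z ∉ C → c z = 0 := fun z hz => by simp only [hc]; rw [if_neg hz]
    refine ⟨L, c, C.card, fun z => ?_, ⟨fun i hi => hcC i (hLC hi), fun i hi => hk i (hLC hi),
      fun i hi j hj => ?_⟩, ?_, ?_⟩
    · simp only [hc]; split <;> norm_num
    · by_cases hjC : j ∈ C
      · rw [hcC j hjC]; exact h1 i (hLC hi) j hjC (Ne.symm hj)
      · rw [hcn j hjC]; exact hLr i hi j hjC
    · simp only [hc]
      rw [Finset.sum_ite_mem, Finset.univ_inter]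
      simp
    · have h2 : C.card + 1 ≤ 2 * L.card := by exact_mod_cast hLc
      omega

end Pool.Agent.QFO
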