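import Pool.Agent.QFO.Push

/-!
# [QFO-Col] minimal colourings

`Prp W f`: the classes of `f` are independent.  `Col W f`: `f : V → Fin N` is proper, every proper
`g : V → Fin N` is surjective (so `N` is the chromatic number) and the sum of the squares of the class
sizes is maximal.
-/

set_option autoImplicit false
set_option linter.unusedSectionVars false

namespace Pool.Agent.QFO

open Finset Pool.Agent.MP_710317_co.Rec Pool.Agent.MXC

/-- the classes are independent -/
def Prp {V C : Type*} (W : V → V → ℤ) (f : V → C) : Prop :=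
  ∀ i j, i ≠ j → f i = f j → W i j = 0

/-- the class of the colour `a` -/
def cls {V C : Type*} [Fintype V] [DecidableEq C] (f : V → C) (a : C) : Finset V :=
  univ.filter fun v => f v = a

/-- a minimal colouring with the greatest sum of squares of the class sizes -/
structure Col {V : Type*} [Fintype V] (W : V → V → ℤ) {N : ℕ} (f : V → Fin N) : Prop where
  prop : Prp W f
  min : ∀ g : V → Fin N, Prp W g → Function.Surjective g
  mx : ∀ g : V → Fin N, Prp W g → ∑ a, (cls g a).card ^ 2 ≤ ∑ a, (cls f a).card ^ 2

variable {V : Type*} [Fintype V] [DecidableEq V]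

theorem mem_cls {C : Type*} [DecidableEq C] {f : V → C} {a : C} {v : V} : v ∈ cls f a ↔ f v = a := by
  unfold cls
  simp

/-- a colouring which misses a colour can be made smaller -/
theorem shrink {W : V → V → ℤ} {n : ℕ} {g : V → Fin (n + 1)} (hg : Prp W g) {b : Fin (n + 1)}
    (hb : ∀ v, g v ≠ b) : ∃ g' : V → Fin n, Prp W g' := by
  refine ⟨fun v => (finSuccAboveEquiv b).symm ⟨g v, hb v⟩, fun i j hij h => hg i j hij ?_⟩
  have h2 := (finSuccAboveEquiv b).symm.injective h
  exact congrArg Subtype.val h2

theorem exists_col (W : V → V → ℤ) : ∃ (N : ℕ) (f : V → Fin N), Col W f := by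
  classical
  have hex : ∃ n : ℕ, ∃ f : V → Fin n, Prp W f :=
    ⟨Fintype.card V, Fintype.equivFin V, fun i j hij h => absurd ((Fintype.equivFin V).injective h) hij⟩
  set N := Nat.find hex with hN
  obtain ⟨f₀, hf₀⟩ := Nat.find_spec hex
  have hmin : ∀ g : V → Fin N, Prp W g → Function.Surjective g := by
    intro g hg
    by_contra hs
    rw [Function.Surjective] at hs
    push Not at hs
    obtain ⟨b, hb⟩ := hs
    have hpos : 0 < N := lt_of_le_of_lt (Nat.zero_le _) b.2
    obtain ⟨n, hn⟩ : ∃ n, N = n + 1 := ⟨N - 1, by omega⟩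
    have key : ∀ (N' : ℕ) (hN' : N' = n + 1) (g : V → Fin N') (hg : Prp W g) (b : Fin N')
        (hb : ∀ v, g v ≠ b), ∃ g' : V → Fin n, Prp W g' := by
      intro N' hN'
      subst hN'
      intro g hg b hb
      exact shrink hg hb
    have h2 := key N hn g hg b hb
    exact Nat.find_min hex (m := n) (by omega) h2
  have : Nonempty {g : V → Fin N // Prp W g} := ⟨⟨f₀, hf₀⟩⟩
  obtain ⟨⟨f, hf⟩, hmax⟩ := Finite.exists_max
    (fun g : {g : V → Fin N // Prp W g} => ∑ a, (cls g.1 a).card ^ 2)
  exact ⟨N, f, hf, hmin, fun g hg => hmax ⟨g, hg⟩⟩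

theorem push_eq {C : Type*} [Fintype C] [DecidableEq C] (W : V → V → ℤ) (f : V → C) (a b : C) :
    push W f a b = ∑ x ∈ cls f a, ∑ y ∈ cls f b, W x y := by
  unfold push cls
  rw [Finset.sum_filter]
  refine Finset.sum_congr rfl fun x _ => ?_
  by_cases h : f x = a
  · rw [if_pos h, Finset.sum_filter]
    refine Finset.sum_congr rfl fun y _ => ?_
    simp [h]
  · rw [if_neg h]
    exact Finset.sum_eq_zero fun y _ => if_neg fun h' => h h'.1

theorem push_diag {C : Type*} [Fintype C] [DecidableEq C] {W : V → V → ℤ} {k : V → ℤ}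
    (hw : SymK W k) {f : V → C} (hf : Prp W f) (a : C) :
    push W f a a = -2 * ∑ x ∈ cls f a, k x := by
  rw [push_eq, Finset.mul_sum]
  refine Finset.sum_congr rfl fun x hx => ?_
  rw [Finset.sum_eq_single x]
  · exact hw.diag x
  · intro y hy hyx
    exact hf x y (Ne.symm hyx) ((mem_cls.1 hx).trans (mem_cls.1 hy).symm)
  · intro h
    exact absurd hx h

theorem cls_sum {C : Type*} [Fintype C] [DecidableEq C] (f : V → C) (φ : V → ℤ) :
    ∑ a, ∑ x ∈ cls f a, φ x = ∑ x, φ x := by
  unfold cls
  exact Finset.sum_fiberwise univ f φ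

/-- the push-forward to the classes is again symmetric with loops -/
theorem push_symK {C : Type*} [Fintype C] [DecidableEq C] {W : V → V → ℤ} {k : V → ℤ}
    (hw : SymK W k) {f : V → C} (hf : Prp W f) :
    SymK (push W f) (fun a => ∑ x ∈ cls f a, k x) :=
  ⟨fun a b => push_symm hw.symm f a b, fun a => push_diag hw hf a,
    fun _ => Finset.sum_nonneg fun x _ => hw.knn x⟩

section col

variable {W : V → V → ℤ} {k : V → ℤ} {N : ℕ} {f : V → Fin N}

theorem cls_nonempty (hc : Col W f) (a : Fin N) : (cls f a).Nonempty := by
  obtain ⟨v, hv⟩ := hc.min f hc.prop a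
  exact ⟨v, mem_cls.2 hv⟩

/-- every class contains a vertex with a neighbour in all other classes -/
theorem full_vertex (h : OO W k) (hc : Col W f) (a : Fin N) :
    ∃ v, f v = a ∧ ∀ b, b ≠ a → ∃ u, f u = b ∧ 1 ≤ W v u := by
  classical
  by_contra hcon
  push Not at hcon
  have hch : ∀ v, ∃ b, f v = a → b ≠ a ∧ ∀ u, f u = b → W v u < 1 := by
    intro v
    by_cases hv : f v = a
    · obtain ⟨b, hb, hu⟩ := hcon v hv
      exact ⟨b, fun _ => ⟨hb, hu⟩⟩
    · exact ⟨a, fun h => absurd h hv⟩
  choose b hb using hch
  have hprp : Prp W (fun v => if f v = a then b v else f v) := by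
    intro i j hij hcol
    simp only at hcol
    have hz : ∀ x y, x ≠ y → f x = a → f y = b x → W x y = 0 := by
      intro x y hxy hx hy
      have h1 := (hb x hx).2 y hy
      have h2 := h.nn x y hxy
      omega
    by_cases hi : f i = a
    · by_cases hj : f j = a
      · exact hc.prop i j hij (hi.trans hj.symm)
      · rw [if_pos hi, if_neg hj] at hcol
        exact hz i j hij hi hcol.symm
    · by_cases hj : f j = a
      · rw [if_neg hi, if_pos hj] at hcol
        rw [h.symm]
        exact hz j i (Ne.symm hij) hj hcol
      · rw [if_neg hi, if_neg hj] at hcol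
        exact hc.prop i j hij hcol
  obtain ⟨v, hv⟩ := hc.min _ hprp a
  simp only at hv
  by_cases h1 : f v = a
  · rw [if_pos h1] at hv
    exact (hb v h1).1 hv
  · rw [if_neg h1] at hv
    exact h1 hv

theorem push_nonneg (h : OO W k) {a b : Fin N} (hab : a ≠ b) : 0 ≤ push W f a b := by
  rw [push_eq]
  refine Finset.sum_nonneg fun x hx => Finset.sum_nonneg fun y hy => h.nn x y ?_
  rintro rfl
  exact hab ((mem_cls.1 hx).symm.trans (mem_cls.1 hy))

/-- a vertex of the class `a` has nonnegative weight to the class `b` -/
theorem row_nonneg (h : OO W k) {v : V} {b : Fin N} (hv : f v ≠ b) :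
    0 ≤ ∑ y ∈ cls f b, W v y := by
  refine Finset.sum_nonneg fun y hy => h.nn v y ?_
  rintro rfl
  exact hv (mem_cls.1 hy)

/-- different classes are joined -/
theorem one_le_push (h : OO W k) (hc : Col W f) {a b : Fin N} (hab : a ≠ b) :
    1 ≤ push W f a b := by
  obtain ⟨v, hv, hfull⟩ := full_vertex h hc a
  obtain ⟨u, hu, hW⟩ := hfull b (Ne.symm hab)
  rw [push_eq]
  have h1 : ∑ y ∈ cls f b, W v y ≤ ∑ x ∈ cls f a, ∑ y ∈ cls f b, W x y := by
    refine Finset.single_le_sum (f := fun x => ∑ y ∈ cls f b, W x y) (fun x hx => ?_) (mem_cls.2 hv)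
    refine row_nonneg h ?_
    rw [mem_cls.1 hx]
    exact hab
  have h2 : W v u ≤ ∑ y ∈ cls f b, W v y := by
    refine Finset.single_le_sum (f := fun y => W v y) (fun y hy => h.nn v y ?_) (mem_cls.2 hu)
    rintro rfl
    exact hab (hv.symm.trans (mem_cls.1 hy))
  linarith

/-- the effect of a recolouring of one vertex on the class sizes -/
theorem cls_update {v : V} {a b : Fin N} (hv : f v = a) (hab : a ≠ b) :
    (cls (Function.update f v b) a).card + 1 = (cls f a).card ∧
    (cls (Function.update f v b) b).card = (cls f b).card + 1 ∧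
    ∀ c, c ≠ a → c ≠ b → cls (Function.update f v b) c = cls f c := by
  have ha : cls (Function.update f v b) a = (cls f a).erase v := by
    ext x
    rw [mem_erase, mem_cls, mem_cls]
    by_cases hx : x = v
    · subst hx
      simp [Ne.symm hab]
    · rw [Function.update_of_ne hx]
      simp [hx]
  have hb : cls (Function.update f v b) b = insert v (cls f b) := by
    ext x
    rw [mem_insert, mem_cls, mem_cls]
    by_cases hx : x = v
    · subst hx
      simp
    · rw [Function.update_of_ne hx]
      simp [hx]
  refine ⟨?_, ?_, ?_⟩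
  · rw [ha]
    exact Finset.card_erase_add_one (mem_cls.2 hv)
  · rw [hb, Finset.card_insert_of_notMem]
    intro h
    exact hab (hv.symm.trans (mem_cls.1 h))
  · intro c hca hcb
    ext x
    rw [mem_cls, mem_cls]
    by_cases hx : x = v
    · subst hx
      rw [Function.update_self, hv]
      exact ⟨fun h => absurd h.symm hcb, fun h => absurd h.symm hca⟩
    · rw [Function.update_of_ne hx]

/-- a vertex of a class has a neighbour in every class which is not smaller -/
theorem neigh (h : OO W k) (hc : Col W f) {v : V} {b : Fin N} (hb : f v ≠ b)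
    (hle : (cls f (f v)).card ≤ (cls f b).card) : ∃ u, f u = b ∧ 1 ≤ W v u := by
  classical
  by_contra hcon
  push Not at hcon
  have hprp : Prp W (Function.update f v b) := by
    intro i j hij hcol
    have hz : ∀ y, y ≠ v → f y = b → W v y = 0 := by
      intro y hy hy2
      have h1 := hcon y hy2
      have h2 := h.nn v y (Ne.symm hy)
      omega
    by_cases hi : i = v
    · subst hi
      rw [Function.update_self, Function.update_of_ne (Ne.symm hij)] at hcol
      exact hz j (Ne.symm hij) hcol.symm
    · by_cases hj : j = v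
      · subst hj
        rw [Function.update_self, Function.update_of_ne hi] at hcol
        rw [h.symm]
        exact hz i hi hcol
      · rw [Function.update_of_ne hi, Function.update_of_ne hj] at hcol
        exact hc.prop i j hij hcol
  have hmx := hc.mx _ hprp
  obtain ⟨h1, h2, h3⟩ := cls_update (f := f) (v := v) rfl hb
  set g := Function.update f v b with hg
  have e1 : ∀ φ : Fin N → ℕ, ∑ c, φ c =
      φ (f v) + (φ b + ∑ c ∈ (univ.erase (f v)).erase b, φ c) := by
    intro φ
    rw [← Finset.add_sum_erase univ φ (mem_univ (f v)),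
      ← Finset.add_sum_erase (univ.erase (f v)) φ (mem_erase.2 ⟨Ne.symm hb, mem_univ b⟩)]
  rw [e1 (fun c => (cls g c).card ^ 2), e1 (fun c => (cls f c).card ^ 2)] at hmx
  have e2 : ∑ c ∈ (univ.erase (f v)).erase b, (cls g c).card ^ 2 =
      ∑ c ∈ (univ.erase (f v)).erase b, (cls f c).card ^ 2 := by
    refine Finset.sum_congr rfl fun c hc' => ?_
    obtain ⟨hcb, hc2⟩ := mem_erase.1 hc'
    rw [h3 c (mem_erase.1 hc2).1 hcb]
  rw [e2, h2, ← h1] at hmx
  rw [← h1] at hle
  nlinarith

/-- the weight between two classes is at least the size of the smaller one -/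
theorem card_le_push (h : OO W k) (hc : Col W f) {a b : Fin N} (hab : a ≠ b)
    (hle : (cls f a).card ≤ (cls f b).card) : ((cls f a).card : ℤ) ≤ push W f a b := by
  rw [push_eq]
  have h1 : ∀ x ∈ cls f a, (1 : ℤ) ≤ ∑ y ∈ cls f b, W x y := by
    intro x hx
    have hxa := mem_cls.1 hx
    obtain ⟨u, hu, hW⟩ := neigh h hc (v := x) (b := b) (by rw [hxa]; exact hab)
      (by rw [hxa]; exact hle)
    have h2 : W x u ≤ ∑ y ∈ cls f b, W x y := by
      refine Finset.single_le_sum (f := fun y => W x y) (fun y hy => h.nn x y ?_) (mem_cls.2 hu)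
      rintro rfl
      exact hab (hxa.symm.trans (mem_cls.1 hy))
    linarith
  have h2 := Finset.sum_le_sum h1
  simpa using h2

/-- the exchange argument: full vertices of two classes `a`, `b` which have weight `1` to two different
one-element classes `c = {x}`, `c' = {x'}` are joined. -/
theorem exchange (h : OO W k) (hc : Col W f) {a b : Fin N} (hab : a ≠ b) {p q x x' : V}
    (hp : f p = a) (hq : f q = b) (hpx : 1 ≤ W p x) (hqx' : 1 ≤ W q x')
    (hx : cls f (f x) = {x}) (hx' : cls f (f x') = {x'}) (hxx' : x ≠ x')
    (hxa : f x ≠ a) (hxb : f x ≠ b) (hx'a : f x' ≠ a) (hx'b : f x' ≠ b)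
    (h1 : ∑ y ∈ cls f a, W x y ≤ 1) (h2 : ∑ y ∈ cls f b, W x' y ≤ 1) : 1 ≤ W p q := by
  classical
  by_contra hpq
  have hpq' : p ≠ q := by
    rintro rfl
    exact hab (hp.symm.trans hq)
  have hWpq : W p q = 0 := by
    have := h.nn p q hpq'
    omega
  have hfx : f x ≠ f x' := by
    intro he
    have : x ∈ cls f (f x') := mem_cls.2 he
    rw [hx'] at this
    exact hxx' (mem_singleton.1 this)
  have hone : ∀ y, f y = f x → y = x := fun y hy => by
    have : y ∈ cls f (f x) := mem_cls.2 hy
    rw [hx] at this
    exact mem_singleton.1 this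
  have hone' : ∀ y, f y = f x' → y = x' := fun y hy => by
    have : y ∈ cls f (f x') := mem_cls.2 hy
    rw [hx'] at this
    exact mem_singleton.1 this
  have hxna : ∀ y, f y = a → y ≠ p → W x y = 0 := by
    intro y hy hyp
    have hxy : x ≠ y := by
      rintro rfl
      exact hxa hy
    have h3 : W x y + W x p ≤ ∑ z ∈ cls f a, W x z := by
      have h4 := Finset.sum_le_sum_of_subset_of_nonneg (s := {y, p}) (t := cls f a)
        (f := fun z => W x z) (by
          intro z hz
          rcases mem_insert.1 hz with hz | hz
          · rw [hz]; exact mem_cls.2 hy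
          · rw [mem_singleton.1 hz]; exact mem_cls.2 hp) (fun z hz _ => h.nn x z (by
          rintro rfl
          exact hxa (mem_cls.1 hz)))
      rw [Finset.sum_pair hyp] at h4
      exact h4
    have h5 := h.nn x y hxy
    have h6 := h.symm x p
    omega
  have hx'nb : ∀ y, f y = b → y ≠ q → W x' y = 0 := by
    intro y hy hyq
    have hxy : x' ≠ y := by
      rintro rfl
      exact hx'b hy
    have h3 : W x' y + W x' q ≤ ∑ z ∈ cls f b, W x' z := by
      have h4 := Finset.sum_le_sum_of_subset_of_nonneg (s := {y, q}) (t := cls f b)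
        (f := fun z => W x' z) (by
          intro z hz
          rcases mem_insert.1 hz with hz | hz
          · rw [hz]; exact mem_cls.2 hy
          · rw [mem_singleton.1 hz]; exact mem_cls.2 hq) (fun z hz _ => h.nn x' z (by
          rintro rfl
          exact hx'b (mem_cls.1 hz)))
      rw [Finset.sum_pair hyq] at h4
      exact h4
    have h5 := h.nn x' y hxy
    have h6 := h.symm x' q
    omega
  -- the new colouring
  set g : V → Fin N := fun v => if v = p ∨ v = q then f x else if v = x then a else
    if v = x' then b else f v with hg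
  have gp : ∀ v, v = p ∨ v = q → g v = f x := fun v hv => by simp only [hg]; rw [if_pos hv]
  have hxp : x ≠ p := by rintro rfl; exact hxa hp
  have hxq : x ≠ q := by rintro rfl; exact hxb hq
  have hx'p : x' ≠ p := by rintro rfl; exact hx'a hp
  have hx'q : x' ≠ q := by rintro rfl; exact hx'b hq
  have gx : g x = a := by
    simp only [hg]
    rw [if_neg (by rintro (h | h); exacts [hxp h, hxq h]), if_pos trivial]
  have gx' : g x' = b := by
    simp only [hg]
    rw [if_neg (by rintro (h | h); exacts [hx'p h, hx'q h]), if_neg (Ne.symm hxx'), if_pos trivial]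
  have go : ∀ v, v ≠ p → v ≠ q → v ≠ x → v ≠ x' → g v = f v := by
    intro v h1 h2 h3 h4
    simp only [hg]
    rw [if_neg (by rintro (h | h); exacts [h1 h, h2 h]), if_neg h3, if_neg h4]
  have hmiss : ∀ v, g v ≠ f x' := by
    intro v
    by_cases h1 : v = p ∨ v = q
    · rw [gp v h1]; exact hfx
    · push Not at h1
      by_cases h2 : v = x
      · rw [h2, gx]; exact Ne.symm hx'a
      · by_cases h3 : v = x'
        · rw [h3, gx']; exact Ne.symm hx'b
        · rw [go v h1.1 h1.2 h2 h3]
          intro he
          exact h3 (hone' v he)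
  have hprp : Prp W g := by
    -- one-sided statement
    have key : ∀ i j, i ≠ j → g i = g j → (i = p ∨ i = q ∨ i = x ∨ i = x') → W i j = 0 := by
      intro i j hij hcol hi
      rcases hi with hi | hi | hi | hi
      · rw [gp i (Or.inl hi)] at hcol
        by_cases hj : j = p ∨ j = q
        · rcases hj with hj | hj
          · exact absurd (hi.trans hj.symm) hij
          · rw [hi, hj]; exact hWpq
        · push Not at hj
          by_cases hjx : j = x
          · rw [hjx, gx] at hcol; exact absurd hcol hxa
          · by_cases hjx' : j = x'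
            · rw [hjx', gx'] at hcol; exact absurd hcol hxb
            · rw [go j hj.1 hj.2 hjx hjx'] at hcol
              exact absurd (hone j hcol.symm) hjx
      · rw [gp i (Or.inr hi)] at hcol
        by_cases hj : j = p ∨ j = q
        · rcases hj with hj | hj
          · rw [hi, hj, h.symm]; exact hWpq
          · exact absurd (hi.trans hj.symm) hij
        · push Not at hj
          by_cases hjx : j = x
          · rw [hjx, gx] at hcol; exact absurd hcol hxa
          · by_cases hjx' : j = x'
            · rw [hjx', gx'] at hcol; exact absurd hcol hxb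
            · rw [go j hj.1 hj.2 hjx hjx'] at hcol
              exact absurd (hone j hcol.symm) hjx
      · rw [hi, gx] at hcol
        by_cases hj : j = p ∨ j = q
        · rw [gp j hj] at hcol
          exact absurd hcol.symm hxa
        · push Not at hj
          by_cases hjx : j = x
          · exact absurd (hi.trans hjx.symm) hij
          · by_cases hjx' : j = x'
            · rw [hjx', gx'] at hcol; exact absurd hcol hab
            · rw [go j hj.1 hj.2 hjx hjx'] at hcol
              rw [hi]
              exact hxna j hcol.symm hj.1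
      · rw [hi, gx'] at hcol
        by_cases hj : j = p ∨ j = q
        · rw [gp j hj] at hcol
          exact absurd hcol.symm hxb
        · push Not at hj
          by_cases hjx : j = x
          · rw [hjx, gx] at hcol; exact absurd hcol.symm hab
          · by_cases hjx' : j = x'
            · exact absurd (hi.trans hjx'.symm) hij
            · rw [go j hj.1 hj.2 hjx hjx'] at hcol
              rw [hi]
              exact hx'nb j hcol.symm hj.2
    intro i j hij hcol
    by_cases hi : i = p ∨ i = q ∨ i = x ∨ i = x'
    · exact key i j hij hcol hi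
    · by_cases hj : j = p ∨ j = q ∨ j = x ∨ j = x'
      · rw [h.symm]
        exact key j i (Ne.symm hij) hcol.symm hj
      · push Not at hi hj
        rw [go i hi.1 hi.2.1 hi.2.2.1 hi.2.2.2, go j hj.1 hj.2.1 hj.2.2.1 hj.2.2.2] at hcol
        exact hc.prop i j hij hcol
  obtain ⟨v, hv⟩ := hc.min g hprp (f x')
  exact hmiss v hv

end col

end Pool.Agent.QFO
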