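import Pool.Agent.QFO.Skel
import Pool.Agent.QFO.Col

/-!
# [QFO-HubStep] the step of the induction at a contracted level
-/

set_option autoImplicit false
set_option linter.unusedSectionVars false

namespace Pool.Agent.QFO

open Finset Pool.Agent.MP_710317_co.Rec Pool.Agent.MXC Pool.Agent.QMA

section

variable {V : Type*} [Fintype V] [DecidableEq V]

theorem rst_symK {W : V → V → ℤ} {k c : V → ℤ} (hw : SymK W k) (hc : ∀ i, 0 ≤ c i) :
    SymK (rst W c) (fun i => k i + ch (c i)) := by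
  refine ⟨fun i j => ?_, fun i => ?_, fun i => add_nonneg (hw.knn i) (ch_nonneg (hc i))⟩
  · unfold rst
    rw [hw.symm i j]
    by_cases hij : i = j
    · rw [if_pos hij, if_pos hij.symm, hij]
    · rw [if_neg hij, if_neg (Ne.symm hij)]; ring
  · unfold rst
    rw [if_pos rfl, hw.diag]
    have := two_ch (c i)
    linarith

/-- transfer of the D part and the B part, symmetric matrices with loops -/
theorem r1_mainK {W : V → V → ℤ} {k c : V → ℤ} (hw : SymK W k) (hc : ∀ i, 0 ≤ c i) {L : Finset V}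
    (hL : Tw W k c L) {n : ℕ} (hn : ∑ i, c i = n) (hLn : n + n % 2 ≤ 2 * L.card) {m : ℤ}
    (hm : inn W univ = 2 * m) (hs : Sb W (T m)) {D B : ℤ}
    (hD : ∃ f : V → ℤ, IsSign f ∧ en (rst W c) f = 2 * T (m - ((n.choose 2 : ℕ) : ℤ)) ∧
      |df (rst W c) f| ≤ 2 * D)
    (hB : ∃ f : V → ℤ, IsSign f ∧ en (rst W c) f = 2 * T (m - ((n.choose 2 : ℕ) : ℤ)) ∧
      2 * B ≤ |df (rst W c) f|) :
    T m = ((n / 2 : ℕ) : ℤ) + T (m - ((n.choose 2 : ℕ) : ℤ)) ∧
    (n % 2 = 0 → (∃ e : V → ℤ, IsSign e ∧ en W e = 2 * T m ∧ |df W e| ≤ 2 * D) ∧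
      ∃ e : V → ℤ, IsSign e ∧ en W e = 2 * T m ∧ 2 * B ≤ |df W e|) ∧
    (n % 2 = 1 →
      (2 * T (m - ((n.choose 2 : ℕ) : ℤ)) ≤ (n : ℤ) - 1 →
        ∃ e : V → ℤ, IsSign e ∧ en W e = 2 * T m ∧ |df W e| ≤ (n : ℤ) - 1 - 2 * B) ∧
      ∃ e : V → ℤ, IsSign e ∧ en W e = 2 * T m ∧ (n : ℤ) - 1 + 2 * B ≤ |df W e|) := by
  obtain ⟨hT, hinn, hSb⟩ := r1_rest hw hc hL hn hLn hm hs
    (fun i => add_nonneg (hw.knn i) (ch_nonneg (hc i)))
  refine ⟨hT, fun h0 => ⟨?_, ?_⟩, fun h1 => ⟨fun hTn => ?_, ?_⟩⟩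
  · obtain ⟨f, hf, hf2, hf3⟩ := hD
    obtain ⟨e, he, he2, he3⟩ := r1_cut hw hc hL hn hLn hT hf hf2 (Or.inl rfl)
    rw [h0] at he3
    exact ⟨e, he, he2, by rw [he3]; simpa using hf3⟩
  · obtain ⟨f, hf, hf2, hf3⟩ := hB
    obtain ⟨e, he, he2, he3⟩ := r1_cut hw hc hL hn hLn hT hf hf2 (Or.inl rfl)
    rw [h0] at he3
    exact ⟨e, he, he2, by rw [he3]; simpa using hf3⟩
  · obtain ⟨f, hf, hf2, hf3⟩ := hB
    have hle := df_le (rst_symK hw hc) hSb hf hf2
    have hn1 : (0 : ℤ) ≤ (n : ℤ) - 1 := by omega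
    rcases le_total 0 (df (rst W c) f) with h4 | h4
    · obtain ⟨e, he, he2, he3⟩ := r1_cut hw hc hL hn hLn hT hf hf2 (Or.inr rfl)
      rw [h1] at he3
      rw [abs_of_nonneg h4] at hf3 hle
      refine ⟨e, he, he2, ?_⟩
      rw [he3, abs_le]
      push_cast
      constructor <;> linarith
    · obtain ⟨e, he, he2, he3⟩ := r1_cut hw hc hL hn hLn hT hf hf2 (Or.inl rfl)
      rw [h1] at he3
      rw [abs_of_nonpos h4] at hf3 hle
      refine ⟨e, he, he2, ?_⟩
      rw [he3, abs_le]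
      push_cast
      constructor <;> linarith
  · obtain ⟨f, hf, hf2, hf3⟩ := hB
    have hn1 : (0 : ℤ) ≤ (n : ℤ) - 1 := by omega
    rcases le_total 0 (df (rst W c) f) with h4 | h4
    · obtain ⟨e, he, he2, he3⟩ := r1_cut hw hc hL hn hLn hT hf hf2 (Or.inl rfl)
      rw [h1] at he3
      rw [abs_of_nonneg h4] at hf3
      refine ⟨e, he, he2, ?_⟩
      rw [he3]
      refine le_trans ?_ (le_abs_self _)
      push_cast
      linarith
    · obtain ⟨e, he, he2, he3⟩ := r1_cut hw hc hL hn hLn hT hf hf2 (Or.inr rfl)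
      rw [h1] at he3
      rw [abs_of_nonpos h4] at hf3
      refine ⟨e, he, he2, ?_⟩
      rw [he3]
      refine le_trans ?_ (neg_le_abs _)
      push_cast
      linarith

/-- the step, symmetric matrices with loops -/
theorem r1_stepK {W : V → V → ℤ} {k c : V → ℤ} (hw : SymK W k) (hc : ∀ i, 0 ≤ c i) {L : Finset V}
    (hL : Tw W k c L) {n : ℕ} (hn : ∑ i, c i = n) (hn2 : 2 ≤ n)
    (hLn : n + n % 2 ≤ 2 * L.card) {m : ℕ} (hm : inn W univ = 2 * (m : ℤ)) (hs : Sb W (T m))
    (hTn : n % 2 = 1 → T m ≤ (n : ℤ) - 1)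
    (hD : HasD (rst W c) ((m : ℤ) - ((n.choose 2 : ℕ) : ℤ)))
    (hB : HasB (rst W c) ((m : ℤ) - ((n.choose 2 : ℕ) : ℤ))) :
    HasD W m ∧ HasB W m := by
  obtain ⟨hT, hinn, hSb⟩ := r1_rest hw hc hL hn hLn hm hs
    (fun i => add_nonneg (hw.knn i) (ch_nonneg (hc i)))
  obtain ⟨f, x, hf, hf2, hx, hf3⟩ := hD
  obtain ⟨g, b, hg, hg2, hb, hg3⟩ := hB
  obtain ⟨-, h0, h1⟩ := r1_mainK hw hc hL hn hLn hm hs (D := x) (B := b) ⟨f, hf, hf2, hf3⟩
    ⟨g, hg, hg2, hg3⟩
  rcases Nat.mod_two_eq_zero_or_one n with hpar | hpar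
  · obtain ⟨⟨e, he, he2, he3⟩, ⟨e', he', he2', he3'⟩⟩ := h0 hpar
    exact ⟨⟨e, x, he, he2, DV_even hn2 hpar hT hx, he3⟩,
      ⟨e', b, he', he2', BV_even hn2 hpar hT hb, he3'⟩⟩
  · obtain ⟨hA, e', he', he2', he3'⟩ := h1 hpar
    have hn1 := Nat.div_add_mod n 2
    obtain ⟨e, he, he2, he3⟩ := hA (by
      have h3 := hTn hpar
      rw [hT] at h3
      omega)
    refine ⟨⟨e, ((n / 2 : ℕ) : ℤ) - b, he, he2, ?_, ?_⟩,
      ⟨e', ((n / 2 : ℕ) : ℤ) + b, he', he2', BV_odd hn2 hpar hT hb, ?_⟩⟩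
    · refine DV_odd hn2 hpar hT hb (by omega) ?_
      have h4 := abs_nonneg (df W e)
      omega
    · omega
    · omega

theorem HasD_push {C : Type*} [Fintype C] [DecidableEq C] {W : V → V → ℤ} {g : V → C} {m : ℤ}
    (h : HasD (push W g) m) : HasD W m := by
  obtain ⟨e, x, he, h1, h2, h3⟩ := h
  exact ⟨fun v => e (g v), x, fun v => he _, by rw [← push_en, h1], h2, by rw [← push_df]; exact h3⟩

theorem HasB_push {C : Type*} [Fintype C] [DecidableEq C] {W : V → V → ℤ} {g : V → C} {m : ℤ}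
    (h : HasB (push W g) m) : HasB W m := by
  obtain ⟨e, x, he, h1, h2, h3⟩ := h
  exact ⟨fun v => e (g v), x, fun v => he _, by rw [← push_en, h1], h2, by rw [← push_df]; exact h3⟩

/-- the rest commutes with the push-forward -/
theorem push_rst {C : Type*} [Fintype C] [DecidableEq C] (W : V → V → ℤ) (c : V → ℤ) (f : V → C) :
    push (rst W c) f = rst (push W f) (fun a => ∑ x ∈ cls f a, c x) := by
  funext a b
  rw [push_eq]
  unfold rst
  rw [push_eq]
  have h1 : ∀ x ∈ cls f a, ∑ y ∈ cls f b, (W x y - c x * c y + if x = y then c x else 0) =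
      ∑ y ∈ cls f b, W x y - c x * ∑ y ∈ cls f b, c y + if a = b then c x else 0 := by
    intro x hx
    rw [Finset.sum_add_distrib, Finset.sum_sub_distrib, ← Finset.mul_sum]
    congr 1
    rw [Finset.sum_ite_eq]
    by_cases hab : a = b
    · rw [if_pos hab, if_pos (by rw [← hab]; exact hx)]
    · rw [if_neg hab, if_neg (fun h => hab ((mem_cls.1 hx).symm.trans (mem_cls.1 h)))]
  rw [Finset.sum_congr rfl h1, Finset.sum_add_distrib, Finset.sum_sub_distrib, ← Finset.sum_mul]
  congr 1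
  by_cases hab : a = b
  · simp only [if_pos hab]
  · simp only [if_neg hab]
    exact Finset.sum_const_zero

/-- signs with `e v = - e z`: the surplus is at least `W z v + K` -/
theorem pair_bound {W : V → V → ℤ} {k : V → ℤ} (hw : SymK W k) {s : ℤ} (hs : Sb W s) {z v : V}
    (hzv : z ≠ v) (hn : 0 ≤ W z v) : W z v + ∑ i, k i ≤ s := by
  -- negate `v`
  set σ : V → ℤ := fun i => if i = v then -1 else 1 with hσ
  have hσs : IsSign σ := by
    intro i
    simp only [hσ]
    by_cases h : i = v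
    · right; rw [if_pos h]
    · left; rw [if_neg h]
  have hsq : ∀ i, σ i * σ i = 1 := fun i => sign_sq hσs i
  set W' : V → V → ℤ := fun i j => W i j * σ i * σ j with hW'
  have hw' : SymK W' k := by
    refine ⟨fun i j => ?_, fun i => ?_, hw.knn⟩
    · simp only [hW']
      rw [hw.symm i j]; ring
    · simp only [hW']
      rw [hw.diag, mul_assoc, hsq, mul_one]
  have hs' : Sb W' s := by
    intro e he
    have h1 : en W' e = en W (fun i => σ i * e i) := by
      unfold en
      congr 1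
      refine Finset.sum_congr rfl fun i _ => Finset.sum_congr rfl fun j _ => ?_
      simp only [hW']
      ring
    rw [h1]
    refine hs _ fun i => ?_
    rcases hσs i with h2 | h2 <;> rcases he i with h3 | h3 <;> rw [h2, h3] <;> norm_num
  -- merge `v` into `z`
  set g : V → V := fun i => if i = v then z else i with hg
  have hgz : cls g z = {z, v} := by
    ext i
    rw [mem_cls, mem_insert, mem_singleton]
    simp only [hg]
    by_cases h : i = v
    · simp [h]
    · simp [h]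
  have hgo : ∀ a, a ≠ z → a ≠ v → cls g a = {a} := by
    intro a ha hav
    ext i
    rw [mem_cls, mem_singleton]
    simp only [hg]
    by_cases h : i = v
    · rw [if_pos h]
      constructor
      · intro h2; exact absurd h2.symm ha
      · intro h2; exact absurd (h2.symm.trans h) hav
    · rw [if_neg h]
  have hgv : cls g v = ∅ := by
    ext i
    rw [mem_cls]
    simp only [hg, Finset.notMem_empty, iff_false]
    by_cases h : i = v
    · rw [if_pos h]; exact hzv
    · rw [if_neg h]; exact h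
  have hvz : W' z v = - W z v := by
    simp only [hW', hσ]
    rw [if_neg hzv, if_pos trivial]; ring
  have hvz' : W' v z = - W z v := by
    rw [hw'.symm, hvz]
  have hpk : SymK (push W' g) (fun a => ∑ x ∈ cls g a, k x + if a = z then W z v else 0) := by
    refine ⟨fun a b => push_symm hw'.symm g a b, fun a => ?_, fun a => ?_⟩
    · rw [push_eq]
      by_cases haz : a = z
      · subst haz
        rw [if_pos rfl, hgz, Finset.sum_pair hzv, Finset.sum_pair hzv, Finset.sum_pair hzv,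
          Finset.sum_pair hzv, hw'.diag, hw'.diag, hvz, hvz']
        ring
      · rw [if_neg haz, add_zero]
        by_cases hav : a = v
        · subst hav
          rw [hgv]; simp
        · rw [hgo a haz hav, Finset.sum_singleton, Finset.sum_singleton, Finset.sum_singleton,
            hw'.diag]
    · refine add_nonneg (Finset.sum_nonneg fun x _ => hw.knn x) ?_
      split
      · exact hn
      · exact le_rfl
  obtain ⟨m, hm⟩ := inn_even hpk univ
  have h1 := T_le_Sb hpk hm (push_Sb hs' g)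
  rw [Finset.sum_add_distrib, cls_sum, Finset.sum_ite_eq', if_pos (mem_univ z)] at h1
  have h2 := T_nonneg (m + (∑ x, k x + W z v))
  linarith

end

end Pool.Agent.QFO
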