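import Pool.Agent.QFO.VKill

/-!
# [QFO-VB] the vertex level: the D part for some `m` without loops (any number of classes)
-/

set_option autoImplicit false
set_option linter.unusedSectionVars false

namespace Pool.Agent.QFO

open Finset Pool.Agent.MP_710317_co.Rec Pool.Agent.MXC

variable {V : Type*} [Fintype V] [DecidableEq V]

/-- a violation of the D part without loops gives a violating cut -/
theorem exists_vio {m u D : ℤ} (hu : m - T m = 2 * u) (h3 : T m < 3 * (D + 1)) (hD : 0 ≤ D)
    {W : V → V → ℤ} {k : V → ℤ} (h : OO W k) (hK : ∑ i, k i = 0) (hm : inn W univ = 2 * m)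
    (hs : Sb W (T m))
    (hcon : ¬ ∃ e : V → ℤ, IsSign e ∧ en W e = 2 * T m ∧ |df W e| ≤ 2 * D) :
    ∃ (S : Finset V) (a b : ℤ), Vio W (T m) (a - b) a b S ∧ a + b = u ∧ D < a - b ∧
      a - b ≤ T m ∧
      (2 * a ≤ (T m - (a - b)) * (T m - (a - b) - 1) ∨ 2 * (a - b) < T m ∨
        (2 * (a - b) - T m + 1) * T m ≤ 2 * a) := by
  have hw : SymK W k := h.toSymK
  have hk0 : ∀ i, k i = 0 := fun i =>
    (Finset.sum_eq_zero_iff_of_nonneg fun a _ => h.knn a).1 hK i (mem_univ i)
  obtain ⟨e, he, h1, hmin⟩ := exists_min hw hm hs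
  push Not at hcon
  -- the positive side is the heavy one
  obtain ⟨e, he, h1, hmin, h2⟩ : ∃ e : V → ℤ, IsSign e ∧ en W e = 2 * T m ∧
      (∀ e', IsSign e' → en W e' = 2 * T m → |df W e| ≤ |df W e'|) ∧ 2 * D < df W e := by
    have h3 := hcon e he h1
    rcases le_total 0 (df W e) with h4 | h4
    · rw [abs_of_nonneg h4] at h3
      exact ⟨e, he, h1, hmin, h3⟩
    · rw [abs_of_nonpos h4] at h3
      refine ⟨fun i => - e i, neg_sign he, by rw [en_neg, h1], fun e' he' h' => ?_, ?_⟩
      · rw [df_neg, abs_neg]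
        exact hmin e' he' h'
      · rw [df_neg]
        exact h3
  set S : Finset V := pos e with hS
  have heS : sg S = e := sg_pos he
  obtain ⟨a, ha⟩ := inn_even hw S
  obtain ⟨b, hb⟩ := inn_even hw Sᶜ
  have hsplit := tot_splitK hw S
  have hen := en_sg hw S
  have hdf := df_sg W hw S
  rw [heS] at hen hdf
  rw [h1, hm] at hen
  rw [hm, ha, hb] at hsplit
  rw [ha, hb] at hdf
  have hc : ∀ S', crs W S' S'ᶜ ≤ crs W S Sᶜ := by
    intro S'
    have h3 := hs _ (sg_sign S')
    rw [en_sg hw S', hm] at h3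
    linarith
  have hmin' : ∀ S', crs W S' S'ᶜ = crs W S Sᶜ → 2 * (a - b) ≤ |inn W S' - inn W S'ᶜ| := by
    intro S' hS'
    have h3 := hmin (sg S') (sg_sign S') (by rw [en_sg hw S', hm, hS', ← hen])
    rw [df_sg W hw S', hdf] at h3
    have h4 := le_abs_self (2 * a - 2 * b)
    linarith
  have hab : a + b = u := by linarith
  have hd : D < a - b := by linarith
  obtain ⟨hKs, hsl⟩ := slackO hw h.nn h.le hc rfl ha hb hmin'
  have hKS : ∑ i ∈ S, k i = 0 := Finset.sum_eq_zero fun i _ => hk0 i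
  rw [hKS] at hKs hsl
  set c := crs W S Sᶜ with hcdef
  have hc2 : 2 * c = m + T m := by linarith
  have e1 : c - 2 * a = T m - (a - b) := by linarith
  have e2 : c - a - b = T m := by linarith
  rw [e1, e2, add_zero] at hsl
  rw [e1] at hKs
  have hcc : c = a + b + T m := by linarith
  refine ⟨S, a, b, ?_, hab, hd, by linarith, hsl⟩
  have hD1 := Int.add_one_le_iff.2 hd
  refine ⟨hw.symm, fun i => by rw [hw.diag, hk0]; ring, fun i j => ?_, fun i j => ?_,
    fun X => by rw [← hcc]; exact hc X, hcc, ha, hb, rfl, by linarith, by linarith,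
    fun X hX => hmin' X (by rw [hX, hcc])⟩
  · by_cases hij : i = j
    · rw [hij, hw.diag, hk0]; norm_num
    · exact h.nn i j hij
  · by_cases hij : i = j
    · rw [hij, hw.diag, hk0]; norm_num
    · have := h.le i j hij
      rw [hk0, hk0] at this
      linarith

/-- the general form of the bases -/
theorem base_of_vkill {m u D s : ℤ} (hT : T m = s) (hu : m - s = 2 * u) (h3 : s < 3 * (D + 1))
    (hD : 0 ≤ D)
    (hnum : ∀ a b : ℤ, a + b = u → D < a - b → a - b ≤ s →
      (2 * a ≤ (s - (a - b)) * (s - (a - b) - 1) ∨ 2 * (a - b) < s ∨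
        (2 * (a - b) - s + 1) * s ≤ 2 * a) →
      ∀ (W : V → V → ℤ) (S : Finset V), Vio W s (a - b) a b S → False)
    {W : V → V → ℤ} {k : V → ℤ} (h : OO W k) (hK : ∑ i, k i = 0) (hm : inn W univ = 2 * m)
    (hs : Sb W s) : ∃ e : V → ℤ, IsSign e ∧ en W e = 2 * s ∧ |df W e| ≤ 2 * D := by
  subst hT
  by_contra hcon
  obtain ⟨S, a, b, hv, h1, h2, h4, h5⟩ := exists_vio hu h3 hD h hK hm hs hcon
  exact hnum a b h1 h2 h4 h5 W S hv

theorem T_val (m : ℕ) (t : ℕ) (hm : m < 1400) (ht : tab m = t) : T (m : ℤ) = (t : ℤ) := by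
  have h : ∀ m : ℕ, m < 1400 → T (m : ℤ) = (tab m : ℤ) := T_eq_tab
  rw [h m hm, ht]

/-- (19), K = 0 -/
theorem base_D_19_0 {W : V → V → ℤ} {k : V → ℤ} (h : OO W k) (hK : ∑ i, k i = 0)
    (hm : inn W univ = 2 * 19) (hs : Sb W 5) :
    ∃ e : V → ℤ, IsSign e ∧ en W e = 2 * 5 ∧ |df W e| ≤ 2 * 1 := by
  refine base_of_vkill (u := 7) (T_val 19 5 (by norm_num) (by decide +kernel)) (by norm_num)
    (by norm_num) (by norm_num) (fun a b h1 h2 h4 h5 W S hv => ?_) h hK hm hs
  have hd : a - b = 3 := by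
    by_contra hne
    have hd5 : a - b = 5 := by omega
    have ha : a = 6 := by omega
    rw [hd5, ha] at h5
    norm_num at h5
  have ha : a = 5 := by omega
  have hb : b = 2 := by omega
  subst ha hb
  norm_num at hv
  refine vkill hv (q := 3) (κ := 2) (k := 2) (l := 1) (by norm_num) (by norm_num)
    (fun z p z1 z2 p1 p2 p3 => ?_) (by norm_num) (by norm_num) (Or.inr ⟨by norm_num, Or.inl ?_⟩)
  · left; push_cast at z2; omega
  · rw [abs_lt]; norm_num

/-- (34), K = 0 -/
theorem base_D_34_0 {W : V → V → ℤ} {k : V → ℤ} (h : OO W k) (hK : ∑ i, k i = 0)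
    (hm : inn W univ = 2 * 34) (hs : Sb W 6) :
    ∃ e : V → ℤ, IsSign e ∧ en W e = 2 * 6 ∧ |df W e| ≤ 2 * 2 := by
  refine base_of_vkill (u := 14) (T_val 34 6 (by norm_num) (by decide +kernel)) (by norm_num)
    (by norm_num) (by norm_num) (fun a b h1 h2 h4 h5 W S hv => ?_) h hK hm hs
  have hd : a - b = 4 := by
    by_contra hne
    have hd5 : a - b = 6 := by omega
    have ha : a = 10 := by omega
    rw [hd5, ha] at h5
    norm_num at h5
  have ha : a = 9 := by omega
  have hb : b = 5 := by omega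
  subst ha hb
  norm_num at hv
  refine vkill hv (q := 4) (κ := 3) (k := 2) (l := 2) (by norm_num) (by norm_num)
    (fun z p z1 z2 p1 p2 p3 => ?_) (by norm_num) (by norm_num) (Or.inr ⟨by norm_num, Or.inl ?_⟩)
  · left; push_cast at z2; omega
  · rw [abs_lt]; norm_num

/-- (50), K = 0 -/
theorem base_D_50_0 {W : V → V → ℤ} {k : V → ℤ} (h : OO W k) (hK : ∑ i, k i = 0)
    (hm : inn W univ = 2 * 50) (hs : Sb W 8) :
    ∃ e : V → ℤ, IsSign e ∧ en W e = 2 * 8 ∧ |df W e| ≤ 2 * 3 := by
  refine base_of_vkill (u := 21) (T_val 50 8 (by norm_num) (by decide +kernel)) (by norm_num)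
    (by norm_num) (by norm_num) (fun a b h1 h2 h4 h5 W S hv => ?_) h hK hm hs
  have hd : a - b = 5 := by
    by_contra hne
    have hd5 : a - b = 7 := by omega
    have ha : a = 14 := by omega
    rw [hd5, ha] at h5
    norm_num at h5
  have ha : a = 13 := by omega
  have hb : b = 8 := by omega
  subst ha hb
  norm_num at hv
  refine vkill hv (q := 4) (κ := 3) (k := 3) (l := 2) (by norm_num) (by norm_num)
    (fun z p z1 z2 p1 p2 p3 => ?_) (by norm_num) (by norm_num) (Or.inl (by norm_num))
  · left; push_cast at z2; omega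

/-- (73), K = 0 -/
theorem base_D_73_0 {W : V → V → ℤ} {k : V → ℤ} (h : OO W k) (hK : ∑ i, k i = 0)
    (hm : inn W univ = 2 * 73) (hs : Sb W 9) :
    ∃ e : V → ℤ, IsSign e ∧ en W e = 2 * 9 ∧ |df W e| ≤ 2 * 4 := by
  refine base_of_vkill (u := 32) (T_val 73 9 (by norm_num) (by decide +kernel)) (by norm_num)
    (by norm_num) (by norm_num) (fun a b h1 h2 h4 h5 W S hv => ?_) h hK hm hs
  have hd : a - b = 6 := by
    by_contra hne
    have hd5 : a - b = 8 := by omega
    have ha : a = 20 := by omega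
    rw [hd5, ha] at h5
    norm_num at h5
  have ha : a = 19 := by omega
  have hb : b = 13 := by omega
  subst ha hb
  norm_num at hv
  refine vkill hv (q := 5) (κ := 4) (k := 3) (l := 3) (by norm_num) (by norm_num)
    (fun z p z1 z2 p1 p2 p3 => ?_) (by norm_num) (by norm_num) (Or.inl (by norm_num))
  · left; push_cast at z2; omega

/-- (132), K = 0 -/
theorem base_D_132_0 {W : V → V → ℤ} {k : V → ℤ} (h : OO W k) (hK : ∑ i, k i = 0)
    (hm : inn W univ = 2 * 132) (hs : Sb W 12) :
    ∃ e : V → ℤ, IsSign e ∧ en W e = 2 * 12 ∧ |df W e| ≤ 2 * 6 := by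
  refine base_of_vkill (u := 60) (T_val 132 12 (by norm_num) (by decide +kernel)) (by norm_num)
    (by norm_num) (by norm_num) (fun a b h1 h2 h4 h5 W S hv => ?_) h hK hm hs
  have hd : a - b = 8 := by
    by_contra hne
    have hd5 : a - b = 10 ∨ a - b = 12 := by omega
    rcases hd5 with hd5 | hd5
    · have ha : a = 35 := by omega
      rw [hd5, ha] at h5
      norm_num at h5
    · have ha : a = 36 := by omega
      rw [hd5, ha] at h5
      norm_num at h5
  have ha : a = 34 := by omega
  have hb : b = 26 := by omega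
  subst ha hb
  norm_num at hv
  refine vkill hv (q := 7) (κ := 5) (k := 4) (l := 4) (by norm_num) (by norm_num)
    (fun z p z1 z2 p1 p2 p3 => ?_) (by norm_num) (by norm_num) (Or.inr ⟨by norm_num, Or.inl ?_⟩)
  · push_cast at z2; interval_cases z <;> first | (exfalso; omega) | (left; constructor <;> omega) | (by_cases hp : p = 4 <;> [(right; norm_num); (left; constructor <;> omega)])
  · rw [abs_lt]; norm_num

/-- (198), K = 0 -/
theorem base_D_198_0 {W : V → V → ℤ} {k : V → ℤ} (h : OO W k) (hK : ∑ i, k i = 0)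
    (hm : inn W univ = 2 * 198) (hs : Sb W 14) :
    ∃ e : V → ℤ, IsSign e ∧ en W e = 2 * 14 ∧ |df W e| ≤ 2 * 8 := by
  refine base_of_vkill (u := 92) (T_val 198 14 (by norm_num) (by decide +kernel)) (by norm_num)
    (by norm_num) (by norm_num) (fun a b h1 h2 h4 h5 W S hv => ?_) h hK hm hs
  have hd : a - b = 10 := by
    by_contra hne
    have hd5 : a - b = 12 ∨ a - b = 14 := by omega
    rcases hd5 with hd5 | hd5
    · have ha : a = 52 := by omega
      rw [hd5, ha] at h5
      norm_num at h5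
    · have ha : a = 53 := by omega
      rw [hd5, ha] at h5
      norm_num at h5
  have ha : a = 51 := by omega
  have hb : b = 41 := by omega
  subst ha hb
  norm_num at hv
  refine vkill hv (q := 8) (κ := 7) (k := 5) (l := 5) (by norm_num) (by norm_num)
    (fun z p z1 z2 p1 p2 p3 => ?_) (by norm_num) (by norm_num) (Or.inl (by norm_num))
  · left; push_cast at z2; omega

/-- (202), K = 0 -/
theorem base_D_202_0 {W : V → V → ℤ} {k : V → ℤ} (h : OO W k) (hK : ∑ i, k i = 0)
    (hm : inn W univ = 2 * 202) (hs : Sb W 14) :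
    ∃ e : V → ℤ, IsSign e ∧ en W e = 2 * 14 ∧ |df W e| ≤ 2 * 8 := by
  refine base_of_vkill (u := 94) (T_val 202 14 (by norm_num) (by decide +kernel)) (by norm_num)
    (by norm_num) (by norm_num) (fun a b h1 h2 h4 h5 W S hv => ?_) h hK hm hs
  have hd : a - b = 10 := by
    by_contra hne
    have hd5 : a - b = 12 ∨ a - b = 14 := by omega
    rcases hd5 with hd5 | hd5
    · have ha : a = 53 := by omega
      rw [hd5, ha] at h5
      norm_num at h5
    · have ha : a = 54 := by omega
      rw [hd5, ha] at h5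
      norm_num at h5
  have ha : a = 52 := by omega
  have hb : b = 42 := by omega
  subst ha hb
  norm_num at hv
  refine vkill hv (q := 9) (κ := 7) (k := 5) (l := 5) (by norm_num) (by norm_num)
    (fun z p z1 z2 p1 p2 p3 => ?_) (by norm_num) (by norm_num) (Or.inl (by norm_num))
  · push_cast at z2; interval_cases z <;> first | (exfalso; omega) | (left; constructor <;> omega) | (by_cases hp : p = 4 <;> [(right; norm_num); (left; constructor <;> omega)])

end Pool.Agent.QFO
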