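import Pool.Agent.QFO.HubNum
import Pool.Agent.QFO.HubStep
import Pool.Agent.QFO.VBase
import Pool.Agent.QFO.V74

/-!
# [QFO-Hub] R1 data at a contracted level give the step
-/

set_option autoImplicit false
set_option linter.unusedSectionVars false

namespace Pool.Agent.QFO

open Finset Pool.Agent.MP_710317_co.Rec Pool.Agent.MXC Pool.Agent.QMA

section

variable {V : Type*} [Fintype V] [DecidableEq V]

theorem pair_big {W : V → V → ℤ} {k : V → ℤ} (hw : SymK W k) {m s : ℤ} (hm : inn W univ = 2 * m)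
    (hs : Sb W s) {z v : V} (hzv : z ≠ v) : ∃ Q : ℤ, T Q + W z v + ∑ i, k i ≤ s ∧
      m + ∑ i, k i ≤ (s - ∑ i, k i) + 2 * W z v + 2 * Q := by
  set S : Finset V := {z, v} with hS
  have hzS : z ∈ S := by simp [hS]
  have hvS : v ∈ S := by simp [hS]
  obtain ⟨b, hb⟩ := inn_even hw Sᶜ
  have hKS : ∑ i ∈ S, k i = k z + k v := by rw [hS, Finset.sum_pair hzv]
  have hK : ∑ i, k i = ∑ i ∈ S, k i + ∑ i ∈ Sᶜ, k i := (Finset.sum_add_sum_compl S k).symm
  -- the signs `+ -` on the pair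
  set e : V → ℤ := fun i => if i = v then -1 else 1 with he
  have hes : IsSign e := by
    intro i
    simp only [he]
    by_cases h : i = v
    · right; rw [if_pos h]
    · left; rw [if_neg h]
  have hez : e z = 1 := by simp only [he]; rw [if_neg hzv]
  have hev : e v = -1 := by simp only [he]; rw [if_pos trivial]
  have hen : en (msk W S) e = 2 * (W z v + ∑ i ∈ S, k i) := by
    rw [msk_en, hKS, hS, Finset.sum_pair hzv, Finset.sum_pair hzv, Finset.sum_pair hzv, hez, hev,
      hw.diag, hw.diag, hw.symm v z]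
    ring
  obtain ⟨f, hf, h2⟩ := exists_sign (msk_symK hw Sᶜ) (m := b) (by rw [msk_inn, hb])
  rw [sum_mkk] at h2
  have h3 := hs _ (glue_sign S hes hf (Or.inl rfl : (1 : ℤ) = 1 ∨ (1 : ℤ) = -1))
  have h4 := hs _ (glue_sign S hes hf (Or.inr rfl : (-1 : ℤ) = 1 ∨ (-1 : ℤ) = -1))
  rw [glue_en hw S (Or.inl rfl)] at h3
  rw [glue_en hw S (Or.inr rfl)] at h4
  rw [hen] at h3 h4
  refine ⟨b + ∑ i ∈ Sᶜ, k i, by rw [hK]; linarith, ?_⟩
  have h5 := hs _ (sg_sign S)
  rw [en_sg hw S, hm] at h5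
  have h6 := tot_splitK hw S
  have h7 : inn W S = 2 * W z v - 2 * (k z + k v) := by
    unfold inn
    rw [hS, Finset.sum_pair hzv, Finset.sum_pair hzv, Finset.sum_pair hzv, hw.diag, hw.diag,
      hw.symm v z]
    ring
  rw [h7, hb, hm] at h6
  rw [hK, hKS]
  linarith

/-- `T Q = 0` only for `Q = 0` -/
theorem T_small_le {Q t : ℤ} (h : T Q ≤ t) (ht : 0 ≤ t) : Q ≤ t * (2 * t + 1) := by
  rcases le_total Q 0 with h0 | h0
  · nlinarith
  · obtain ⟨q, rfl⟩ := Int.eq_ofNat_of_zero_le h0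
    have h1 := T_edw q
    have h2 := T_nonneg (q : ℤ)
    nlinarith

end

/-- `2 ch x ≥ 2 (x - 1)` -/
theorem ch_ge (x : ℤ) : x - 1 ≤ ch x := by
  have h := two_ch x
  have h2 : 0 ≤ (x - 1) * (x - 2) := by
    rcases le_or_gt x 1 with h3 | h3
    · nlinarith
    · have : 2 ≤ x := h3
      nlinarith
  nlinarith

/-- [QFO-Hub] the step from R1 data at the level of the classes of `g` -/
theorem hub_step {V : Type} [Fintype V] [DecidableEq V] {W : V → V → ℤ} {k : V → ℤ} (h : OO W k)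
    {N : ℕ} {f : V → Fin N} (hc : Col W f) {m : ℕ} (hm : inn W univ = 2 * (m : ℤ))
    (hs : Sb W (T m)) (hN : T (m : ℤ) < N) (ih : ∀ r : ℤ, r < m → QD r ∧ QB r)
    {V' : Type} [Fintype V'] [DecidableEq V'] {g : V → V'} {f' : V' → Fin N}
    (hfg : ∀ v, f' (g v) = f v) {c : V' → ℤ} (hc0 : ∀ z, 0 ≤ c z) {L : Finset V'}
    (hL : Tw (push W g) (fun z => ∑ x ∈ cls g z, k x) c L) {n : ℕ} (hn : ∑ z, c z = n)
    (hLn : n + n % 2 ≤ 2 * L.card)
    (hfib : ∀ z, 2 ≤ c z ∨ ∀ x y, g x = z → g y = z → x = y) (H : Finset V')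
    (hH : ∀ z ∈ H, 2 ≤ c z) (hH1 : 1 ≤ H.card) (hNH : N + H.card ≤ n)
    (hNs : (N : ℤ) ≤ T (m : ℤ) + H.card) : HasD W m ∧ HasB W m := by
  -- the matrix at the level of `g`
  have hprp : Prp W g := fun x y hxy hg => hc.prop x y hxy (by rw [← hfg x, ← hfg y, hg])
  set U : V' → V' → ℤ := push W g with hU
  set k' : V' → ℤ := fun z => ∑ x ∈ cls g z, k x with hk'
  have hUK : SymK U k' := push_symK h.toSymK hprp
  have hUm : inn U univ = 2 * (m : ℤ) := by rw [hU, push_inn, hm]
  have hUs : Sb U (T m) := push_Sb hs g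
  have hkk : ∑ z, k' z = ∑ i, k i := cls_sum g k
  obtain ⟨K, hK⟩ := Int.eq_ofNat_of_zero_le (Finset.sum_nonneg fun i (_ : i ∈ univ) => h.knn i)
  have hcc : ∀ z, 0 ≤ k' z + ch (c z) := fun z => add_nonneg (hUK.knn z) (ch_nonneg (hc0 z))
  obtain ⟨hT, hRm, hRs⟩ := r1_rest hUK hc0 hL hn hLn hUm hUs hcc
  set r : ℤ := (m : ℤ) - ((n.choose 2 : ℕ) : ℤ) with hr
  have hRK : SymK (rst U c) (fun z => k' z + ch (c z)) := rst_symK hUK hc0
  have hn2 : 2 ≤ n := by
    have h1 : (0 : ℤ) ≤ T (m : ℤ) := T_nonneg _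
    omega
  have hnpos : 1 ≤ n.choose 2 := chb_pos hn2
  have hTn : n % 2 = 1 → T m ≤ (n : ℤ) - 1 := fun _ => by
    have : (N : ℤ) + H.card ≤ n := by exact_mod_cast hNH
    have h2 : (0 : ℤ) ≤ H.card := Int.natCast_nonneg _
    linarith
  have finish : HasD (rst U c) r → HasB (rst U c) r → HasD W m ∧ HasB W m := fun hD hB => by
    obtain ⟨h1, h2⟩ := r1_stepK hUK hc0 hL hn hn2 hLn hUm hUs hTn hD hB
    exact ⟨HasD_push h1, HasB_push h2⟩
  rcases le_or_gt r 0 with hr0 | hr0
  · obtain ⟨h1, h2⟩ := has_nonpos hr0 (rst U c) hRm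
    exact finish h1 h2
  -- `r > 0`
  have hrm : r < m := by
    have : (1 : ℤ) ≤ ((n.choose 2 : ℕ) : ℤ) := by exact_mod_cast hnpos
    linarith
  -- loops at the level of `g`
  obtain ⟨K2, hK2⟩ := Int.eq_ofNat_of_zero_le
    (Finset.sum_nonneg fun z (_ : z ∈ univ) => hcc z)
  have hK2T : T (r + K2) + K2 = T r := by
    have h1 := T_le_Sb hRK hRm hRs
    rw [hK2] at h1
    exact le_antisymm h1 (T_le_add r K2 (Int.natCast_nonneg K2))
  have hK2H : K + H.card ≤ K2 := by
    have h1 : ∑ z, (k' z + ch (c z)) = (K : ℤ) + ∑ z, ch (c z) := by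
      rw [Finset.sum_add_distrib, hkk, hK]
    have h2 : (H.card : ℤ) ≤ ∑ z, ch (c z) := by
      have h3 : ∑ z ∈ H, (1 : ℤ) ≤ ∑ z ∈ H, ch (c z) := Finset.sum_le_sum fun z hz => by
        have h4 := ch_ge (c z)
        have h5 := hH z hz
        linarith
      have h4 : ∑ z ∈ H, ch (c z) ≤ ∑ z, ch (c z) :=
        Finset.sum_le_sum_of_subset_of_nonneg (subset_univ _) fun z _ _ => ch_nonneg (hc0 z)
      rw [Finset.sum_const, nsmul_eq_mul, mul_one] at h3
      linarith
    have h3 : (K : ℤ) + H.card ≤ K2 := by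
      rw [hK2] at h1
      have h5 : ((K2 : ℕ) : ℤ) = (K : ℤ) + ∑ z, ch (c z) := h1
      linarith
    exact_mod_cast h3
  -- if all weights of the rest at a contracted class are at most `2` then it is in OS
  have hOS : (∀ z v, z ≠ v → 2 ≤ c z → rst U c z v ≤ 2) →
      OS (rst U c) (fun z => k' z + ch (c z)) := by
    intro h2
    refine ⟨hRK, fun z v hzv => ?_⟩
    have hz := hcc z
    have hv := hcc v
    have key : ∀ z v, z ≠ v → 2 ≤ c z → rst U c z v ≤
        (1 + (k' z + ch (c z))) * (1 + (k' v + ch (c v))) := by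
      intro z v hzv hcz
      have h3 := h2 z v hzv hcz
      have h4 : 1 ≤ k' z + ch (c z) := by
        have h5 := ch_ge (c z)
        have h6 := hUK.knn z
        linarith
      have h5 := hcc v
      nlinarith
    rcases hfib z with h3 | h3
    · exact key z v hzv h3
    rcases hfib v with h4 | h4
    · have h5 := key v z (Ne.symm hzv) h4
      rw [hRK.symm z v, mul_comm]
      exact h5
    -- both fibres have at most one element
    have h5 : U z v ≤ (1 + k' z) * (1 + k' v) := by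
      rw [hU, push_eq]
      have hcz : cls g z = ∅ ∨ ∃ x, cls g z = {x} := by
        rcases Finset.eq_empty_or_nonempty (cls g z) with h6 | ⟨x, hx⟩
        · exact Or.inl h6
        · refine Or.inr ⟨x, Finset.eq_singleton_iff_unique_mem.2 ⟨hx, fun y hy => ?_⟩⟩
          exact h3 y x (mem_cls.1 hy) (mem_cls.1 hx)
      have hcv : cls g v = ∅ ∨ ∃ x, cls g v = {x} := by
        rcases Finset.eq_empty_or_nonempty (cls g v) with h6 | ⟨x, hx⟩
        · exact Or.inl h6
        · refine Or.inr ⟨x, Finset.eq_singleton_iff_unique_mem.2 ⟨hx, fun y hy => ?_⟩⟩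
          exact h4 y x (mem_cls.1 hy) (mem_cls.1 hx)
      have hpos : 0 ≤ (1 + k' z) * (1 + k' v) :=
        mul_nonneg (by linarith [hUK.knn z]) (by linarith [hUK.knn v])
      rcases hcz with h6 | ⟨x, h6⟩
      · rw [h6, Finset.sum_empty]; exact hpos
      rcases hcv with h7 | ⟨y, h7⟩
      · rw [h6, h7]; simpa using hpos
      rw [h6, h7, Finset.sum_singleton, Finset.sum_singleton]
      have hkz : k' z = k x := by simp only [hk', h6, Finset.sum_singleton]
      have hkv : k' v = k y := by simp only [hk', h7, Finset.sum_singleton]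
      rw [hkz, hkv]
      refine h.le x y ?_
      rintro rfl
      have h8 : x ∈ cls g z := by rw [h6]; exact mem_singleton_self x
      have h9 : x ∈ cls g v := by rw [h7]; exact mem_singleton_self x
      exact hzv ((mem_cls.1 h8).symm.trans (mem_cls.1 h9))
    unfold rst
    rw [if_neg hzv, add_zero]
    have g1 := ch_nonneg (hc0 z)
    have g2 := ch_nonneg (hc0 v)
    have g3 := hUK.knn z
    have g4 := hUK.knn v
    have g5 := mul_nonneg (hc0 z) (hc0 v)
    nlinarith [mul_nonneg g1 g2, mul_nonneg g1 g4, mul_nonneg g2 g3]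
  have hrest : (∀ z v, z ≠ v → 2 ≤ c z → rst U c z v ≤ 2) → HasD W m ∧ HasB W m := fun h2 =>
    finish ((ih r hrm).1 V' (rst U c) _ (hOS h2) hRm hRs)
      ((ih r hrm).2 V' (rst U c) _ (hOS h2) hRm hRs)
  -- the level of the classes
  obtain ⟨r', hr'⟩ := Int.eq_ofNat_of_zero_le hr0.le
  have hK3 : ∃ K3 : ℕ, T (r + K3) + K3 = T r ∧ K + n ≤ K3 + N := by
    have hprp' : Prp U f' := by
      intro z v hzv hf
      rw [hU, push_eq]
      refine Finset.sum_eq_zero fun x hx => Finset.sum_eq_zero fun y hy => ?_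
      have hx' := mem_cls.1 hx
      have hy' := mem_cls.1 hy
      refine hc.prop x y ?_ (by rw [← hfg x, ← hfg y, hx', hy', hf])
      rintro rfl
      exact hzv (hx'.symm.trans hy')
    have h1 := push_symK hUK hprp'
    set γ : Fin N → ℤ := fun a => ∑ z ∈ cls f' a, c z with hγ
    have hγ0 : ∀ a, 0 ≤ γ a := fun a => Finset.sum_nonneg fun z _ => hc0 z
    have h2 := rst_symK h1 hγ0
    have h3 : push (rst U c) f' = rst (push U f') γ := push_rst U c f'
    have h4 : inn (rst (push U f') γ) univ = 2 * r := by rw [← h3, push_inn, hRm]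
    have h5 : Sb (rst (push U f') γ) (T r) := by rw [← h3]; exact push_Sb hRs f'
    have h6 := T_le_Sb h2 h4 h5
    have h7 : ∑ a, (∑ z ∈ cls f' a, k' z + ch (γ a)) = (K : ℤ) + ∑ a, ch (γ a) := by
      rw [Finset.sum_add_distrib, cls_sum, hkk, hK]
    have h8 : (n : ℤ) - N ≤ ∑ a, ch (γ a) := by
      have h9 : ∑ a, (γ a - 1) ≤ ∑ a, ch (γ a) := Finset.sum_le_sum fun a _ => ch_ge (γ a)
      rw [Finset.sum_sub_distrib, hγ, cls_sum, hn] at h9
      simpa using h9
    have h9 : 0 ≤ ∑ a, ch (γ a) := Finset.sum_nonneg fun a _ => ch_nonneg (hγ0 a)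
    obtain ⟨q, hq⟩ := Int.eq_ofNat_of_zero_le h9
    refine ⟨K + q, ?_, ?_⟩
    · rw [h7, hq] at h6
      have h10 : ((K + q : ℕ) : ℤ) = (K : ℤ) + q := by push_cast; ring
      rw [h10]
      have h11 := T_le_add r ((K : ℤ) + q) (by positivity)
      exact le_antisymm h6 h11
    · rw [hq] at h8
      have h10 : (K : ℤ) + n ≤ ((K + q : ℕ) : ℤ) + N := by
        push_cast
        linarith
      exact_mod_cast h10
  obtain ⟨K3, hK3T, hK3N⟩ := hK3
  have hav := N_facts h hc hm hs
  rw [hK] at hav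
  have hmr : m = n.choose 2 + r' := by
    have h1 : (r' : ℤ) = (m : ℤ) - ((n.choose 2 : ℕ) : ℤ) := by rw [← hr, hr']
    omega
  have hr'e : r = (r' : ℤ) := hr'
  rw [hr'e] at hK2T hK3T hT
  have hr1 : 1 ≤ r' := by
    rw [hr'e] at hr0
    omega
  have hnum := hub_num hr1 hmr hT hK2T hK3T hK3N hNH hK2H hN hNs hav hH1
  rcases hnum with hnum | ⟨hK21, hnum⟩
  · -- the weights of the rest are at most `2`
    refine hrest fun z v hzv _ => ?_
    rcases le_or_gt (rst U c z v) 0 with h1 | h1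
    · linarith
    · have h2 := pair_bound hRK hRs hzv h1.le
      rw [hK2, hr'e] at h2
      linarith
  have hcase : r' = 20 ∨ r' = 35 → HasD W m ∧ HasB W m := by
    intro hcase
    refine hrest fun z v hzv _ => ?_
    by_contra hcon
    obtain ⟨Q, hQ1, hQ2⟩ := pair_big hRK hRm hRs hzv
    rw [hK2, hK21, hr'e] at hQ1
    rw [hK2, hK21, hr'e] at hQ2
    have hQ0 := T_nonneg Q
    rcases hcase with h4 | h4
    · have h5 : T ((20 : ℕ) : ℤ) = ((4 : ℕ) : ℤ) := T_val 20 4 (by norm_num) (by decide +kernel)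
      rw [h4] at hQ1 hQ2
      rw [h5] at hQ1 hQ2
      push_cast at hQ1 hQ2
      have h6 : rst U c z v = 3 := by omega
      have h7 : T Q ≤ 0 := by omega
      have h8 := T_small_le h7 le_rfl
      omega
    · have h5 : T ((35 : ℕ) : ℤ) = ((5 : ℕ) : ℤ) := T_val 35 5 (by norm_num) (by decide +kernel)
      rw [h4] at hQ1 hQ2
      rw [h5] at hQ1 hQ2
      push_cast at hQ1 hQ2
      have h7 : T Q ≤ 1 := by omega
      have h8 := T_small_le h7 (by norm_num)
      omega
  rcases hnum with ⟨hr8, hm3⟩ | hnum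
  swap
  · exact hcase hnum
  -- `r = 8`
  have hK0 : K = 0 := by omega
  have hch : n.choose 2 = m - 8 := by omega
  have hB8 : HasB (rst U c) r := by
    obtain ⟨e, he, h1⟩ := exists_opt hRK hRm hRs
    refine ⟨e, 0, he, h1, ?_, by simp⟩
    have h2 : BV ((8 : ℕ) : ℤ) (Bt 8) := BV_tab (by norm_num)
    have h3 : Bt 8 = 0 := by decide +kernel
    rw [h3] at h2
    rw [hr'e, hr8]
    exact_mod_cast h2
  -- for odd `n` only the `B` part of the rest is needed
  have hodd : n % 2 = 1 → HasD W m ∧ HasB W m := by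
    intro hpar
    obtain ⟨e0, b, he0, h10, hb, h20⟩ := hB8
    obtain ⟨-, -, h1⟩ := r1_mainK hUK hc0 hL hn hLn hUm hUs (D := |df (rst U c) e0|) (B := b)
      ⟨e0, he0, h10, by linarith [abs_nonneg (df (rst U c) e0)]⟩ ⟨e0, he0, h10, h20⟩
    obtain ⟨hA, e', he', he2', he3'⟩ := h1 hpar
    have hn1 := Nat.div_add_mod n 2
    have hTn' := hTn hpar
    rw [← hr'e] at hT
    have hTr : 2 * T r ≤ (n : ℤ) - 1 := by
      rw [hT] at hTn'
      omega
    obtain ⟨e, he, he2, he3⟩ := hA hTr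
    have h4 := abs_nonneg (df U e)
    constructor
    · have h5 : |df U e| ≤ 2 * (((n / 2 : ℕ) : ℤ) - b) := by omega
      refine HasD_push (g := g) ⟨e, ((n / 2 : ℕ) : ℤ) - b, he, he2, ?_, h5⟩
      exact DV_odd hn2 hpar hT hb (by omega) (by omega)
    · have h5 : 2 * (((n / 2 : ℕ) : ℤ) + b) ≤ |df U e'| := by omega
      exact HasB_push (g := g) ⟨e', ((n / 2 : ℕ) : ℤ) + b, he', he2',
        BV_odd hn2 hpar hT hb, h5⟩
  have hc2 : 2 * n.choose 2 = n * (n - 1) := by
    rw [Nat.choose_two_right]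
    exact Nat.mul_div_cancel' (Nat.even_mul_pred_self n).two_dvd
  rcases hm3 with h63 | h74 | h86
  · refine hodd ?_
    have h1 : n.choose 2 = 55 := by omega
    rw [h1] at hc2
    have h2 : n ≤ 11 := by
      by_contra hcon
      have h3 : 12 * 11 ≤ n * (n - 1) := Nat.mul_le_mul (by omega) (by omega)
      omega
    have h3 : 11 ≤ n := by
      by_contra hcon
      have h4 : n * (n - 1) ≤ 10 * 9 := Nat.mul_le_mul (by omega) (by omega)
      omega
    have : n = 11 := by omega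
    rw [this]
  · subst h74
    have hKz : ∑ i, k i = 0 := by rw [hK, hK0]; norm_num
    have t74 : T ((74 : ℕ) : ℤ) = ((10 : ℕ) : ℤ) := T_val 74 10 (by norm_num) (by decide +kernel)
    obtain ⟨e, he, h1, h2⟩ := base_D_74_0 h hKz (by rw [hm]; norm_num)
      (by rw [t74] at hs; exact_mod_cast hs)
    have h3 : DV ((74 : ℕ) : ℤ) (Dt 74) := DV_tab (by norm_num)
    have h4 : Dt 74 = 4 := by decide +kernel
    have h5 : BV ((74 : ℕ) : ℤ) (Bt 74) := BV_tab (by norm_num)
    have h6 : Bt 74 = 0 := by decide +kernel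
    rw [h4] at h3
    rw [h6] at h5
    have h1' : en W e = 2 * T ((74 : ℕ) : ℤ) := by rw [t74, h1]; norm_num
    refine ⟨⟨e, _, he, h1', h3, by exact_mod_cast h2⟩, ⟨e, _, he, h1', h5, ?_⟩⟩
    simp
  · refine hodd ?_
    have h1 : n.choose 2 = 78 := by omega
    rw [h1] at hc2
    have h2 : n ≤ 13 := by
      by_contra hcon
      have h3 : 14 * 13 ≤ n * (n - 1) := Nat.mul_le_mul (by omega) (by omega)
      omega
    have h3 : 13 ≤ n := by
      by_contra hcon
      have h4 : n * (n - 1) ≤ 12 * 11 := Nat.mul_le_mul (by omega) (by omega)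
      omega
    have : n = 13 := by omega
    rw [this]

end Pool.Agent.QFO
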