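import Pool.Agent.QFO.Small

/-!
# [QFO-Ind] the induction, from the exceptional cases and the case `N > T m`
-/

set_option autoImplicit false
set_option linter.unusedSectionVars false

namespace Pool.Agent.QFO

open Finset Pool.Agent.MP_710317_co.Rec Pool.Agent.MXC Pool.Agent.QMA

/-- the `D` part for the objects with total `m`, `K` loops and `N` classes -/
def BD (m K N : ℕ) : Prop :=
  ∀ (V : Type) [Fintype V] [DecidableEq V] (W : V → V → ℤ) (k : V → ℤ), OO W k →
    ∑ i, k i = (K : ℤ) → ∀ f : V → Fin N, Col W f → inn W univ = 2 * (m : ℤ) → Sb W (T m) →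
    ∃ e : V → ℤ, IsSign e ∧ en W e = 2 * T m ∧ |df W e| ≤ 2 * (Dt m : ℤ)

/-- the `B` part for the objects with total `m`, `K` loops and `N` classes -/
def BB (m K N : ℕ) : Prop :=
  ∀ (V : Type) [Fintype V] [DecidableEq V] (W : V → V → ℤ) (k : V → ℤ), OO W k →
    ∑ i, k i = (K : ℤ) → ∀ f : V → Fin N, Col W f → inn W univ = 2 * (m : ℤ) → Sb W (T m) →
    ∃ e : V → ℤ, IsSign e ∧ en W e = 2 * T m ∧ 2 * (Bt m : ℤ) ≤ |df W e|

/-- the case of more than `T m` classes -/
def Big : Prop :=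
  ∀ (V : Type) [Fintype V] [DecidableEq V] (W : V → V → ℤ) (k : V → ℤ), OO W k →
    ∀ (N : ℕ) (f : V → Fin N), Col W f → ∀ m : ℕ, 1 ≤ m → inn W univ = 2 * (m : ℤ) →
    Sb W (T m) → T (m : ℤ) < N → (∀ r : ℤ, r < m → QD r ∧ QB r) → HasD W m ∧ HasB W m

/-- [QFO-Ind] the induction -/
theorem main_ind (hBD : ∀ m K N, excD m K N = true → BD m K N)
    (hBB : ∀ m K N, excB' m K N = true → BB m K N) (hbig : Big) : ∀ m : ℤ, QD m ∧ QB m := by
  have key : ∀ m : ℕ, QD (m : ℤ) ∧ QB (m : ℤ) := by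
    intro m
    induction m using Nat.strong_induction_on with
    | _ m ih =>
    rcases Nat.eq_zero_or_pos m with h0 | h1
    · subst h0
      exact ⟨QD_nonpos (by norm_num), QB_nonpos (by norm_num)⟩
    have ih' : ∀ r : ℤ, r < m → QD r ∧ QB r := by
      intro r hr
      rcases le_total r 0 with h | h
      · exact ⟨QD_nonpos h, QB_nonpos h⟩
      · obtain ⟨r', rfl⟩ := Int.eq_ofNat_of_zero_le h
        exact ih r' (by omega)
    have hoo : ∀ (V : Type) [Fintype V] [DecidableEq V] (W : V → V → ℤ) (k : V → ℤ), OO W k →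
        inn W univ = 2 * (m : ℤ) → Sb W (T m) → HasD W m ∧ HasB W m := by
      intro V _ _ W k h hm hs
      obtain ⟨N, f, hc⟩ := exists_col W
      rcases le_or_gt (N : ℤ) (T (m : ℤ)) with hN | hN
      · obtain ⟨K, hK⟩ := Int.eq_ofNat_of_zero_le
          (Finset.sum_nonneg fun i (_ : i ∈ univ) => h.knn i)
        obtain ⟨h168, -⟩ := small_facts h hc hm hs hN hK
        refine ⟨?_, ?_⟩
        · obtain ⟨e, he, h2, h3⟩ : ∃ e : V → ℤ, IsSign e ∧ en W e = 2 * T m ∧
              |df W e| ≤ 2 * (Dt m : ℤ) := by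
            rcases hex : excD m K N with _ | _
            · exact D_small h hc h1 hm hs hN hK hex
            · exact hBD m K N hex V W k h hK f hc hm hs
          exact ⟨e, Dt m, he, h2, DV_tab (by omega), h3⟩
        · obtain ⟨e, he, h2, h3⟩ : ∃ e : V → ℤ, IsSign e ∧ en W e = 2 * T m ∧
              2 * (Bt m : ℤ) ≤ |df W e| := by
            rcases hex : excB' m K N with _ | _
            · exact B_small h hc h1 hm hs hN hK hex
            · exact hBB m K N hex V W k h hK f hc hm hs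
          exact ⟨e, Bt m, he, h2, BV_tab (by omega), h3⟩
      · exact hbig V W k h N f hc m h1 hm hs hN ih'
    refine ⟨fun V _ _ W k h hm hs => ?_, fun V _ _ W k h hm hs => ?_⟩
    · obtain ⟨e, he, h2, x, hx, h3⟩ := red_OO (m := m) (s := T m)
        (Q := fun x y => x = 2 * T m ∧ ∃ z, DV m z ∧ |y| ≤ 2 * z)
        (fun V _ _ W k h hm hs => by
          obtain ⟨e, x, he, h2, hx, h3⟩ := (hoo V W k h hm hs).1
          exact ⟨e, he, h2, x, hx, h3⟩) (Fintype.card V) V rfl W k h hm hs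
      exact ⟨e, x, he, h2, hx, h3⟩
    · obtain ⟨e, he, h2, x, hx, h3⟩ := red_OO (m := m) (s := T m)
        (Q := fun x y => x = 2 * T m ∧ ∃ z, BV m z ∧ 2 * z ≤ |y|)
        (fun V _ _ W k h hm hs => by
          obtain ⟨e, x, he, h2, hx, h3⟩ := (hoo V W k h hm hs).2
          exact ⟨e, he, h2, x, hx, h3⟩) (Fintype.card V) V rfl W k h hm hs
      exact ⟨e, x, he, h2, hx, h3⟩
  intro m
  rcases le_total m 0 with h | h
  · exact ⟨QD_nonpos h, QB_nonpos h⟩
  · obtain ⟨m', rfl⟩ := Int.eq_ofNat_of_zero_le h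
    exact key m'

/-- the cases `m = 5` and `m = 7` -/
theorem bd_5 (K N : ℕ) : BD 5 K N := by
  intro V _ _ W k h _ f _ hm hs
  obtain ⟨t0, t1, t2, t3, t4, t5⟩ := T_small
  have e1 : ((5 : ℕ) : ℤ) = 5 := by norm_num
  have e2 : Dt 5 = 1 := by decide +kernel
  rw [e1] at hm hs ⊢
  rw [e2]
  exact P_small.2.2.2.2.2.1 V W k h.toOS hm hs

theorem bd_7 (K N : ℕ) : BD 7 K N := by
  intro V _ _ W k h _ f _ hm hs
  have e1 : ((7 : ℕ) : ℤ) = 7 := by norm_num
  have e2 : Dt 7 = 0 := by decide +kernel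
  have t7 : T (7 : ℤ) = 3 := by
    have h1 := T_eq_tab 7 (by norm_num)
    have h2 : tab 7 = 3 := by decide +kernel
    rw [h2] at h1
    simpa using h1
  rw [e1] at hm hs ⊢
  rw [e2]
  refine critD_OO (u := 2) (by rw [t7]; norm_num) ?_ h hm hs
  intro a b K h1 h2 h3 h4 h5 h6
  rw [t7] at h4 h6
  have h7 : a - b = 2 := by omega
  have ea : a = 2 := by omega
  have eb : b = 0 := by omega
  have eK : K = 0 := by omega
  subst ea eb eK
  norm_num at h6

end Pool.Agent.QFO
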