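import Pool.Agent.QFO.Cap
import Pool.Agent.QFO.Ind
import Pool.Agent.QFO.Hub

/-!
# [QFO-CapC] more than `s - K` pairwise joined full vertices without loops
-/

set_option autoImplicit false
set_option linter.unusedSectionVars false

namespace Pool.Agent.QFO

open Finset Pool.Agent.MP_710317_co.Rec Pool.Agent.MXC Pool.Agent.QMA

variable {V : Type*} [Fintype V] [DecidableEq V]

theorem clique_R1' {W : V → V → ℤ} {k : V → ℤ} (h : OO W k) {s : ℤ} (hs : Sb W s)
    {C : Finset V} (h1 : ∀ i ∈ C, ∀ j ∈ C, i ≠ j → W i j = 1) (hk : ∀ i ∈ C, k i = 0)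
    (hbig : s - ∑ i, k i < C.card) :
    ∃ (L : Finset V) (c : V → ℤ) (n : ℕ), (∀ i, 0 ≤ c i) ∧ Tw W k c L ∧ ∑ i, c i = n ∧
      n + n % 2 ≤ 2 * L.card ∧ L ⊆ C ∧ L.Nonempty := by
  classical
  have hw : SymK W k := h.toSymK
  -- the set of twins
  have key : (∃ L ⊆ C, (C.card : ℤ) + 1 ≤ 2 * L.card ∧ L.Nonempty ∧
      ∀ i ∈ L, ∀ j ∈ L, ∀ z, z ∉ C → W i z = W j z) ∨
      ∃ L ⊆ C, (C.card : ℤ) + 1 ≤ 2 * L.card ∧ ∀ i ∈ L, ∀ z, z ∉ C → W i z = 0 := by
    rcases Nat.mod_two_eq_zero_or_one C.card with h2 | h2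
    · left
      obtain ⟨q, hq⟩ : ∃ q : ℕ, C.card = 2 * q := ⟨C.card / 2, by omega⟩
      obtain ⟨L, hL, hLc, hLn, hLr⟩ := twins hw hs (t := s - ∑ i, k i - q) h1 hk
        (by rw [h2, hq]; push_cast; linarith) (by rw [hq] at hbig ⊢; push_cast at hbig ⊢; linarith)
      refine ⟨L, hL, ?_, hLn, hLr⟩
      rw [hq] at hLc hbig ⊢
      push_cast at hLc hbig ⊢
      linarith
    · obtain ⟨q, hq⟩ : ∃ q : ℕ, C.card = 2 * q + 1 := ⟨C.card / 2, by omega⟩
      rcases twins_odd hw hs (t := s - ∑ i, k i - q) h1 hk h2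
        (by rw [hq]; push_cast; linarith) (by rw [hq] at hbig ⊢; push_cast at hbig ⊢; linarith)
        with ⟨L, hL, hLc, hLn, hLr⟩ | ⟨L, hL, hLc, hLr⟩
      · left
        refine ⟨L, hL, ?_, hLn, hLr⟩
        rw [hq] at hLc hbig ⊢
        push_cast at hLc hbig ⊢
        linarith
      · right
        refine ⟨L, hL, ?_, hLr⟩
        rw [hq] at hLc hbig ⊢
        push_cast at hLc hbig ⊢
        linarith
  rcases key with ⟨L₀, hL₀C, hL₀c, ⟨v₀, hv₀⟩, hL₀r⟩ | ⟨L, hLC, hLc, hLr⟩
  · have hv₀C : v₀ ∈ C := hL₀C hv₀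
    set L : Finset V := C.filter fun i => ∀ z, z ∉ C → W i z = W v₀ z with hL
    have hLC : L ⊆ C := filter_subset _ _
    have hL₀L : L₀ ⊆ L := fun i hi => mem_filter.2 ⟨hL₀C hi, hL₀r i hi v₀ hv₀⟩
    have hLc : (C.card : ℤ) + 1 ≤ 2 * L.card := by
      have h2 : (L₀.card : ℤ) ≤ L.card := by exact_mod_cast card_le_card hL₀L
      linarith
    set c : V → ℤ := fun z => if z ∈ C then 1 else W v₀ z with hc
    have hcC : ∀ z ∈ C, c z = 1 := fun z hz => by simp only [hc]; rw [if_pos hz]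
    have hcn : ∀ z, z ∉ C → c z = W v₀ z := fun z hz => by simp only [hc]; rw [if_neg hz]
    have hc0 : ∀ z, 0 ≤ c z := by
      intro z
      by_cases hz : z ∈ C
      · rw [hcC z hz]; norm_num
      · rw [hcn z hz]; exact h.nn v₀ z (fun h' => hz (h' ▸ hv₀C))
    have hTw : Tw W k c L := by
      refine ⟨fun i hi => hcC i (hLC hi), fun i hi => hk i (hLC hi), fun i hi j hj => ?_⟩
      by_cases hjC : j ∈ C
      · rw [hcC j hjC]; exact h1 i (hLC hi) j hjC (Ne.symm hj)
      · rw [hcn j hjC]; exact (mem_filter.1 hi).2 j hjC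
    obtain ⟨n, hn⟩ := Int.eq_ofNat_of_zero_le (Finset.sum_nonneg fun i (_ : i ∈ univ) => hc0 i)
    refine ⟨L, c, n, hc0, hTw, hn, ?_, hLC, v₀, hL₀L hv₀⟩
    by_contra hcon
    have hcon2 : 2 * (L.card : ℤ) ≤ n := by
      have : 2 * L.card ≤ n := by omega
      exact_mod_cast this
    -- the weight outside `C`
    have hsplit : ∑ i, c i = C.card + ∑ i ∈ Cᶜ, c i := by
      rw [← Finset.sum_add_sum_compl C, Finset.sum_congr rfl hcC]
      simp
    set S : Finset V := Cᶜ.filter fun z => 1 ≤ c z with hS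
    have hSsum : ∑ i ∈ Cᶜ, c i = ∑ i ∈ S, c i := by
      rw [hS, Finset.sum_filter]
      refine Finset.sum_congr rfl fun i _ => ?_
      by_cases h2 : 1 ≤ c i
      · rw [if_pos h2]
      · rw [if_neg h2]
        have := hc0 i
        omega
    have hSS : ∀ z ∈ S, z ∉ C ∧ 1 ≤ c z := fun z hz =>
      ⟨mem_compl.1 (mem_filter.1 hz).1, (mem_filter.1 hz).2⟩
    -- the pairs
    set X : Finset V := C \ L with hX
    have hXC : X ⊆ C := sdiff_subset
    have hXL : X.card + L.card = C.card := Finset.card_sdiff_add_card_eq_card hLC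
    have hXle : X.card ≤ L.card := by
      have : (X.card : ℤ) + L.card = C.card := by exact_mod_cast hXL
      have h2 : (X.card : ℤ) ≤ L.card := by linarith
      exact_mod_cast h2
    obtain ⟨f, hfL, hfi⟩ := exists_inj hXle
    set fX : Finset V := X.image f with hfX
    have hfXL : fX ⊆ L := by
      intro y hy
      obtain ⟨x, hx, rfl⟩ := mem_image.1 hy
      exact hfL x hx
    have hfXc : fX.card = X.card := Finset.card_image_of_injOn hfi
    set L' : Finset V := L \ fX with hL'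
    have hL'c : L'.card + fX.card = L.card := Finset.card_sdiff_add_card_eq_card hfXL
    set q : ℕ := min L'.card S.card with hq
    obtain ⟨Y, hYL, hYc⟩ := Finset.exists_subset_card_eq (s := L') (n := q) (min_le_left _ _)
    obtain ⟨S', hS'S, hS'c⟩ : ∃ S' ⊆ S, S'.card = q ∧
        (L'.card : ℤ) ≤ ∑ i ∈ S', c i := by
      by_cases h2 : L'.card ≤ S.card
      · obtain ⟨S', hS', hS'c⟩ := Finset.exists_subset_card_eq (s := S) (n := q) (min_le_right _ _)
        refine ⟨S', hS', hS'c, ?_⟩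
        have h3 : q = L'.card := min_eq_left h2
        have h4 : ∑ i ∈ S', (1 : ℤ) ≤ ∑ i ∈ S', c i :=
          Finset.sum_le_sum fun i hi => (hSS i (hS' hi)).2
        rw [Finset.sum_const, nsmul_eq_mul, mul_one, hS'c, h3] at h4
        exact h4
      · refine ⟨S, Finset.Subset.refl _, (min_eq_right (by omega)).symm, ?_⟩
        rw [← hSsum]
        have h3 : (L'.card : ℤ) + fX.card = L.card := by exact_mod_cast hL'c
        have h4 : (X.card : ℤ) + L.card = C.card := by exact_mod_cast hXL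
        have h5 : (fX.card : ℤ) = X.card := by exact_mod_cast hfXc
        have h6 : (∑ i, c i : ℤ) = n := hn
        linarith
    obtain ⟨hS'c, hS'sum⟩ := hS'c
    obtain ⟨φ, hφS, hφi⟩ := exists_inj (A := Y) (B := S') (by rw [hYc, hS'c])
    have hYL2 : ∀ y ∈ Y, y ∈ L ∧ y ∉ fX := fun y hy => mem_sdiff.1 (hYL hy)
    have hcap := cap_lemma Y hw hs h1 hk (X := X) hXC f (fun x hx => hLC (hfL x hx))
      (fun x hx h' => (mem_sdiff.1 h').2 (hfL x hx)) hfi (by
        intro x hx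
        obtain ⟨hxC, hxL⟩ := mem_sdiff.1 hx
        by_contra hcon3
        push Not at hcon3
        refine hxL (mem_filter.2 ⟨hxC, fun z hz => ?_⟩)
        rw [hcon3 z hz]
        exact (mem_filter.1 (hfL x hx)).2 z hz)
      (fun y hy => hLC (hYL2 y hy).1)
      (Finset.disjoint_left.2 fun y hy hyX => (mem_sdiff.1 hyX).2 (hYL2 y hy).1)
      (fun x hx hxY => (hYL2 _ hxY).2 (mem_image_of_mem f hx)) φ
      (fun y hy => (hSS _ (hS'S (hφS y hy))).1) hφi
      (fun y hy => h.nn y (φ y) (fun h' => (hSS _ (hS'S (hφS y hy))).1 (h' ▸ hLC (hYL2 y hy).1)))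
    have hWφ : ∑ y ∈ Y, W y (φ y) = ∑ z ∈ S', c z := by
      have h2 : Y.image φ = S' := by
        refine Finset.eq_of_subset_of_card_le (fun z hz => ?_) ?_
        · obtain ⟨y, hy, rfl⟩ := mem_image.1 hz
          exact hφS y hy
        · rw [Finset.card_image_of_injOn hφi, hYc, hS'c]
      rw [← h2, Finset.sum_image hφi]
      refine Finset.sum_congr rfl fun y hy => ?_
      have hne : φ y ≠ y := fun h' =>
        (hSS _ (hS'S (hφS y hy))).1 (h'.symm ▸ hLC (hYL2 y hy).1)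
      exact hTw.row y (hYL2 y hy).1 (φ y) hne
    rw [hWφ, hYc] at hcap
    have h3 : (L'.card : ℤ) + fX.card = L.card := by exact_mod_cast hL'c
    have h4 : (X.card : ℤ) + L.card = C.card := by exact_mod_cast hXL
    have h5 : (fX.card : ℤ) = X.card := by exact_mod_cast hfXc
    by_cases h2 : L'.card ≤ S.card
    · have h6 : q = L'.card := min_eq_left h2
      have h7 : (C.card + q) % 2 = 0 := by omega
      rw [h7, h6] at hcap
      push_cast at hcap
      linarith
    · have h6 : q < L'.card := by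
        have : q = S.card := min_eq_right (by omega)
        omega
      have h7 : (((C.card + q) % 2 : ℕ) : ℤ) ≤ 1 := by
        have : (C.card + q) % 2 ≤ 1 := by omega
        exact_mod_cast this
      have h8 : (q : ℤ) + 1 ≤ L'.card := by exact_mod_cast h6
      linarith
  · set c : V → ℤ := fun z => if z ∈ C then 1 else 0 with hc
    have hcC : ∀ z ∈ C, c z = 1 := fun z hz => by simp only [hc]; rw [if_pos hz]
    have hcn : ∀ z, z ∉ C → c z = 0 := fun z hz => by simp only [hc]; rw [if_neg hz]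
    refine ⟨L, c, C.card, fun z => ?_, ⟨fun i hi => hcC i (hLC hi), fun i hi => hk i (hLC hi),
      fun i hi j hj => ?_⟩, ?_, ?_, hLC, ?_⟩
    · simp only [hc]; split <;> norm_num
    · by_cases hjC : j ∈ C
      · rw [hcC j hjC]; exact h1 i (hLC hi) j hjC (Ne.symm hj)
      · rw [hcn j hjC]; exact hLr i hi j hjC
    · simp only [hc]
      rw [Finset.sum_ite_mem, Finset.univ_inter]
      simp
    · have h2 : C.card + 1 ≤ 2 * L.card := by exact_mod_cast hLc
      omega
    · have h2 : C.card + 1 ≤ 2 * L.card := by exact_mod_cast hLc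
      exact Finset.card_pos.1 (by omega)

/-- the row of a full vertex -/
theorem full_row {V : Type*} [Fintype V] [DecidableEq V] {W : V → V → ℤ} {k : V → ℤ} (h : OO W k)
    {N : ℕ} {f : V → Fin N} {v : V} (hv : ∀ b, b ≠ f v → ∃ u, f u = b ∧ 1 ≤ W v u) :
    (N : ℤ) ≤ 1 + ∑ j ∈ univ.erase v, W v j := by
  classical
  have h1 : ∑ j ∈ univ.erase v, W v j =
      ∑ b, ∑ j ∈ (univ.erase v).filter (fun j => f j = b), W v j :=
    (Finset.sum_fiberwise (univ.erase v) f fun j => W v j).symm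
  have h2 : ∑ b ∈ univ.erase (f v), (1 : ℤ) ≤
      ∑ b ∈ univ.erase (f v), ∑ j ∈ (univ.erase v).filter (fun j => f j = b), W v j := by
    refine Finset.sum_le_sum fun b hb => ?_
    obtain ⟨u, hu, hW⟩ := hv b (ne_of_mem_erase hb)
    have hne : u ≠ v := by
      rintro rfl
      exact (ne_of_mem_erase hb) hu.symm
    refine hW.trans (Finset.single_le_sum (f := fun j => W v j) (fun j hj => ?_)
      (mem_filter.2 ⟨mem_erase.2 ⟨hne, mem_univ u⟩, hu⟩))
    exact h.nn v j (ne_of_mem_erase (mem_filter.1 hj).1).symm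
  have h3 : ∑ b ∈ univ.erase (f v), ∑ j ∈ (univ.erase v).filter (fun j => f j = b), W v j ≤
      ∑ b, ∑ j ∈ (univ.erase v).filter (fun j => f j = b), W v j :=
    Finset.sum_le_sum_of_subset_of_nonneg (subset_univ _) fun b _ _ =>
      Finset.sum_nonneg fun j hj => h.nn v j (ne_of_mem_erase (mem_filter.1 hj).1).symm
  rw [Finset.sum_const, Finset.card_erase_of_mem (mem_univ _), Finset.card_univ, Fintype.card_fin,
    nsmul_eq_mul, mul_one] at h2
  have hN : 0 < N := lt_of_le_of_lt (Nat.zero_le _) (f v).2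
  rw [Nat.cast_sub (by omega)] at h2
  rw [h1]
  push_cast at h2
  linarith

/-- [QFO-CapC] more than `T m - K` pairwise joined vertices without loops with rows `≥ N - 1 ≥ T m` -/
theorem clique_has {V : Type} [Fintype V] [DecidableEq V] {W : V → V → ℤ} {k : V → ℤ} (h : OO W k)
    {N : ℕ} {m : ℕ} (hm1 : 1 ≤ m) (hm : inn W univ = 2 * (m : ℤ))
    (hs : Sb W (T m)) (hN : T (m : ℤ) < N) (ih : ∀ r : ℤ, r < m → QD r ∧ QB r)
    {C : Finset V} (h1 : ∀ i ∈ C, ∀ j ∈ C, i ≠ j → W i j = 1) (hk : ∀ i ∈ C, k i = 0)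
    (hrow : ∀ i ∈ C, (N : ℤ) ≤ 1 + ∑ j ∈ univ.erase i, W i j)
    (hbig : T (m : ℤ) - ∑ i, k i < C.card) : HasD W m ∧ HasB W m := by
  obtain ⟨L, c, n, hc, hL, hn, hLn, hLC, v, hv⟩ := clique_R1' h hs h1 hk hbig
  have hNn : (N : ℤ) ≤ n := by
    have h2 := hrow v (hLC hv)
    have h3 : ∑ j ∈ univ.erase v, W v j = ∑ j ∈ univ.erase v, c j :=
      Finset.sum_congr rfl fun j hj => hL.row v hv j (ne_of_mem_erase hj)
    have h4 := Finset.add_sum_erase univ c (mem_univ v)
    rw [hL.one v hv, hn] at h4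
    rw [h3] at h2
    linarith
  have hT1 : 1 ≤ T (m : ℤ) := by
    by_contra hcon
    have h2 := T_small_le (Q := (m : ℤ)) (t := 0) (by omega) le_rfl
    omega
  have hn2 : 2 ≤ n := by omega
  have hpos : 1 ≤ n.choose 2 := chb_pos hn2
  have hr : (m : ℤ) - ((n.choose 2 : ℕ) : ℤ) < m := by
    have : (1 : ℤ) ≤ ((n.choose 2 : ℕ) : ℤ) := by exact_mod_cast hpos
    linarith
  obtain ⟨-, hinn, hSb⟩ := r1_rest h.toSymK hc hL hn hLn hm hs
    (fun i => add_nonneg (h.knn i) (ch_nonneg (hc i)))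
  exact r1_stepK h.toSymK hc hL hn hn2 hLn hm hs (fun _ => by linarith)
    ((ih _ hr).1 V _ _ (rst_OS h.toOS hc) hinn hSb) ((ih _ hr).2 V _ _ (rst_OS h.toOS hc) hinn hSb)

end Pool.Agent.QFO
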