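import Pool.Agent.QFO.Col
import Pool.Agent.MXC.Avg

/-!
# [QFO-Chi] the chromatic number: class level bounds, sides of a cut
-/

set_option autoImplicit false
set_option linter.unusedSectionVars false

namespace Pool.Agent.QFO

open Finset Pool.Agent.MP_710317_co.Rec Pool.Agent.MXC

variable {V : Type*} [Fintype V] [DecidableEq V]

theorem col_le {W : V → V → ℤ} {N M : ℕ} {f : V → Fin N} (hc : Col W f) {g : V → Fin M}
    (hg : Prp W g) : N ≤ M := by
  by_contra hlt
  have hlt' : M < N := by omega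
  have hp : Prp W (fun v => Fin.castLE hlt'.le (g v)) := by
    intro i j hij h
    refine hg i j hij ?_
    have h2 := congrArg Fin.val h
    simp only [Fin.val_castLE] at h2
    exact Fin.ext h2
  obtain ⟨v, hv⟩ := hc.min _ hp ⟨M, hlt'⟩
  have h2 := congrArg Fin.val hv
  simp only [Fin.val_castLE] at h2
  have := (g v).2
  omega

theorem msk_OO {W : V → V → ℤ} {k : V → ℤ} (h : OO W k) (S : Finset V) :
    OO (msk W S) (mkk k S) := by
  have hw := msk_symK h.toSymK S
  refine ⟨⟨hw, fun i j hij => ?_⟩, fun i j hij => ?_⟩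
  · have h1 := h.knn i
    have h2 := h.knn j
    have h3 := hw.knn i
    have h4 := hw.knn j
    unfold msk
    by_cases hS : i ∈ S ∧ j ∈ S
    · rw [if_pos hS]
      have e1 : mkk k S i = k i := by unfold mkk; rw [if_pos hS.1]
      have e2 : mkk k S j = k j := by unfold mkk; rw [if_pos hS.2]
      rw [e1, e2]
      exact h.le i j hij
    · rw [if_neg hS]
      nlinarith
  · unfold msk
    split
    · exact h.nn i j hij
    · exact le_refl 0

/-- the sum of the entries off the diagonal of a matrix with entries at least one -/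
theorem ge_one_sum {C : Type*} [Fintype C] [DecidableEq C] {w : C → C → ℤ}
    (h1 : ∀ a b, a ≠ b → 1 ≤ w a b) (h0 : ∀ a, w a a = 0) :
    (Fintype.card C : ℤ) * ((Fintype.card C : ℤ) - 1) ≤ inn w univ := by
  have h2 : ∀ a, (Fintype.card C : ℤ) - 1 ≤ ∑ b, w a b := by
    intro a
    rw [← Finset.add_sum_erase univ _ (mem_univ a), h0, zero_add]
    have h3 : ∑ b ∈ univ.erase a, (1 : ℤ) ≤ ∑ b ∈ univ.erase a, w a b :=
      Finset.sum_le_sum fun b hb => h1 a b (Ne.symm (mem_erase.1 hb).1)
    rw [Finset.sum_const, Finset.card_erase_of_mem (mem_univ a), Finset.card_univ, nsmul_eq_mul,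
      mul_one] at h3
    have h4 : 0 < Fintype.card C := Fintype.card_pos_iff.2 ⟨a⟩
    have h5 : ((Fintype.card C - 1 : ℕ) : ℤ) = (Fintype.card C : ℤ) - 1 := by omega
    rw [h5] at h3
    exact h3
  unfold inn
  have h3 := Finset.sum_le_sum fun a (_ : a ∈ (univ : Finset C)) => h2 a
  rw [Finset.sum_const, Finset.card_univ, nsmul_eq_mul] at h3
  exact h3

/-- class level facts of a minimal colouring -/
theorem push_facts {W : V → V → ℤ} {k : V → ℤ} (h : OO W k) {N : ℕ} {f : V → Fin N} (hc : Col W f) :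
    Sym (off (push W f)) ∧ (∀ a b, a ≠ b → 1 ≤ off (push W f) a b) ∧
      inn (off (push W f)) univ = inn W univ + 2 * ∑ i, k i ∧
      (∀ s, Sb W s → Sb (off (push W f)) (s - ∑ i, k i)) := by
  have hsk := push_symK h.toSymK hc.prop
  refine ⟨off_sym hsk, fun a b hab => ?_, ?_, fun s hs e he => ?_⟩
  · unfold off
    rw [if_neg hab]
    exact one_le_push h hc hab
  · rw [off_inn hsk, push_inn, cls_sum]
  · rw [off_en hsk he, cls_sum]
    have := push_Sb hs f e he
    linarith

/-- the averaging bound: `M ≤ s qf N` for weights at least one on `N` vertices, total weight `M` -/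
theorem avg_bound {C : Type*} [Fintype C] [DecidableEq C] {w : C → C → ℤ} (hw : Sym w)
    (h1 : ∀ a b, a ≠ b → 1 ≤ w a b) {s M : ℤ} (hs : Sb w s) (hM : inn w univ = 2 * M) :
    M ≤ s * qf (Fintype.card C) := by
  set N := Fintype.card C with hN
  set u : C → C → ℤ := fun i j => if i = j then 0 else w i j - 1 with hu
  have H : Hyp w u s (s - ((N / 2 : ℕ) : ℤ)) := by
    refine ⟨hw, ⟨fun i j => ?_, fun i => ?_⟩, fun i j => ?_, fun i j hij => ?_, hs, rfl⟩
    · simp only [hu]
      by_cases hij : i = j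
      · rw [if_pos hij, if_pos hij.symm]
      · rw [if_neg hij, if_neg (Ne.symm hij), hw.symm]
    · simp only [hu, if_true]
    · simp only [hu]
      by_cases hij : i = j
      · rw [if_pos hij]
      · rw [if_neg hij]
        have := h1 i j hij
        linarith
    · simp only [hu]
      rw [if_neg hij]; ring
  have h2 := avg H univ
  rw [Finset.card_univ, ← hN] at h2
  have h3 : inn u univ = 2 * M - (N : ℤ) * ((N : ℤ) - 1) := by
    rw [← hM]
    unfold inn
    have h4 : ∀ i, ∑ j, u i j = ∑ j, w i j - ((N : ℤ) - 1) := by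
      intro i
      have h5 : ∀ j, u i j = w i j - 1 + (if i = j then 1 else 0) := by
        intro j
        simp only [hu]
        by_cases hij : i = j
        · rw [if_pos hij, if_pos hij, ← hij, hw.diag]; ring
        · rw [if_neg hij, if_neg hij]; ring
      rw [Finset.sum_congr rfl fun j _ => h5 j, Finset.sum_add_distrib, Finset.sum_sub_distrib,
        Finset.sum_ite_eq, if_pos (mem_univ i), Finset.sum_const, Finset.card_univ, nsmul_eq_mul,
        ← hN]
      ring
    rw [Finset.sum_congr rfl fun i _ => h4 i, Finset.sum_sub_distrib, Finset.sum_const,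
      Finset.card_univ, nsmul_eq_mul, ← hN]
  rw [h3] at h2
  have hq : 2 * (((N / 2 : ℕ) : ℤ) * (qf N : ℤ)) = (N : ℤ) * ((N : ℤ) - 1) := by
    unfold qf
    rcases Nat.even_or_odd' N with ⟨m, hm | hm⟩
    · rw [hm]
      rcases Nat.eq_zero_or_pos m with h0 | h0
      · subst h0; norm_num
      · rw [if_neg (by omega), show 2 * m / 2 = m by omega]
        have : ((2 * m - 1 : ℕ) : ℤ) = 2 * (m : ℤ) - 1 := by omega
        rw [this]
        push_cast
        ring
    · rw [hm, if_pos (by omega), show (2 * m + 1) / 2 = m by omega]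
      push_cast
      ring
  nlinarith

/-- class level bound: all classes are joined -/
theorem N_sq {W : V → V → ℤ} {k : V → ℤ} (h : OO W k) {N : ℕ} {f : V → Fin N} (hc : Col W f)
    {m : ℤ} (hm : inn W univ = 2 * m) : (N : ℤ) * ((N : ℤ) - 1) ≤ 2 * (m + ∑ i, k i) := by
  obtain ⟨h1, h2, h3, h4⟩ := push_facts h hc
  rw [hm] at h3
  have h5 := ge_one_sum h2 h1.diag
  rw [Fintype.card_fin, h3] at h5
  linarith

/-- class level bounds -/
theorem N_facts {W : V → V → ℤ} {k : V → ℤ} (h : OO W k) {N : ℕ} {f : V → Fin N} (hc : Col W f)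
    {m s : ℤ} (hm : inn W univ = 2 * m) (hs : Sb W s) :
    m + ∑ i, k i ≤ (s - ∑ i, k i) * qf N := by
  obtain ⟨h1, h2, h3, h4⟩ := push_facts h hc
  rw [hm] at h3
  have h5 := avg_bound h1 h2 (h4 s hs) (M := m + ∑ i, k i) (by rw [h3]; ring)
  rwa [Fintype.card_fin] at h5

/-- the chromatic numbers of the two sides -/
theorem sides {W : V → V → ℤ} {k : V → ℤ} (h : OO W k) {N : ℕ} {f : V → Fin N} (hc : Col W f)
    (S : Finset V) {a b : ℤ} (ha : inn W S = 2 * a) (hb : inn W Sᶜ = 2 * b) :
    ∃ p q : ℕ, N ≤ p + q ∧ (p : ℤ) * ((p : ℤ) - 1) ≤ 2 * (a + ∑ i ∈ S, k i) ∧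
      (q : ℤ) * ((q : ℤ) - 1) ≤ 2 * (b + ∑ i ∈ Sᶜ, k i) := by
  obtain ⟨p, fA, hA⟩ := exists_col (msk W S)
  obtain ⟨q, fB, hB⟩ := exists_col (msk W Sᶜ)
  refine ⟨p, q, ?_, ?_, ?_⟩
  · refine col_le hc (g := fun v => if v ∈ S then Fin.castAdd q (fA v) else Fin.natAdd p (fB v)) ?_
    intro i j hij hcol
    simp only at hcol
    by_cases hi : i ∈ S
    · by_cases hj : j ∈ S
      · rw [if_pos hi, if_pos hj] at hcol
        have h1 := hA.prop i j hij (Fin.castAdd_injective p q hcol)
        unfold msk at h1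
        rwa [if_pos ⟨hi, hj⟩] at h1
      · rw [if_pos hi, if_neg hj] at hcol
        have h2 := congrArg Fin.val hcol
        simp only [Fin.val_castAdd, Fin.val_natAdd] at h2
        have := (fA i).2
        omega
    · by_cases hj : j ∈ S
      · rw [if_neg hi, if_pos hj] at hcol
        have h2 := congrArg Fin.val hcol
        simp only [Fin.val_castAdd, Fin.val_natAdd] at h2
        have := (fA j).2
        omega
      · rw [if_neg hi, if_neg hj] at hcol
        have h1 := hB.prop i j hij (Fin.natAdd_injective q p hcol)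
        unfold msk at h1
        rwa [if_pos ⟨mem_compl.2 hi, mem_compl.2 hj⟩] at h1
  · have h1 := N_sq (msk_OO h S) hA (m := a) (by rw [msk_inn, ha])
    rwa [sum_mkk] at h1
  · have h1 := N_sq (msk_OO h Sᶜ) hB (m := b) (by rw [msk_inn, hb])
    rwa [sum_mkk] at h1

end Pool.Agent.QFO
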