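import Pool.Agent.QFO.Uniq

/-!
# [QFO-Closed] the closed form of the recursion
-/

set_option autoImplicit false

namespace Pool.Agent.QFO

open Finset Pool.Agent.MP_710317_co Pool.Agent.MP_710317_co.Rec Pool.Agent.MXC Pool.Agent.QMA

/-- the sum of `C(n,2)` -/
def chSum (L : List ℕ) : ℕ := (L.map fun n => n.choose 2).sum

/-- the sum of `⌊n/2⌋` -/
def halfSum (L : List ℕ) : ℕ := (L.map fun n => n / 2).sum

/-- the sum of `(n-1)/2` over the odd `n` -/
def oddSum (L : List ℕ) : ℕ := (L.map fun n => if Odd n then n / 2 else 0).sum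

@[simp] theorem chSum_nil : chSum [] = 0 := rfl
@[simp] theorem halfSum_nil : halfSum [] = 0 := rfl
@[simp] theorem oddSum_nil : oddSum [] = 0 := rfl

theorem chSum_cons (n : ℕ) (L : List ℕ) : chSum (n :: L) = n.choose 2 + chSum L := by
  simp [chSum]

theorem halfSum_cons (n : ℕ) (L : List ℕ) : halfSum (n :: L) = n / 2 + halfSum L := by
  simp [halfSum]

theorem oddSum_cons_odd {n : ℕ} (hn : Odd n) (L : List ℕ) : oddSum (n :: L) = n / 2 + oddSum L := by
  simp [oddSum, hn]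

theorem oddSum_cons_even {n : ℕ} (hn : Even n) (L : List ℕ) : oddSum (n :: L) = oddSum L := by
  have h1 : ¬ Odd n := Nat.not_odd_iff_even.2 hn
  simp [oddSum, h1]

theorem oddSum_even {L : List ℕ} (h : ∀ n ∈ L, Even n) : oddSum L = 0 := by
  induction L with
  | nil => rfl
  | cons n L ih =>
    rw [oddSum_cons_even (h n List.mem_cons_self), ih fun n hn => h n (List.mem_cons_of_mem _ hn)]

/-- the cost of a list is at least `T m` -/
theorem T_le_cost : ∀ (L : List ℕ) (m y : ℤ), (chSum L : ℤ) = m + y → 0 ≤ y → T m ≤ halfSum L + y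
  | [], m, y, h, hy => by
    have h1 : (chSum [] : ℤ) = 0 := by simp
    rw [h1] at h
    rw [T_nonpos (by omega)]
    simp
    omega
  | n :: L, m, y, h, hy => by
    rw [chSum_cons] at h
    push_cast at h
    have h1 := T_le_cost L (m - ((n.choose 2 : ℕ) : ℤ)) y (by linarith) hy
    have h2 := T_step n m
    rw [halfSum_cons]
    push_cast at *
    linarith

/-- the first step of an optimal list -/
theorem opt_cons {n : ℕ} {L : List ℕ} (hn : 2 ≤ n) {m y : ℤ} (h : (chSum (n :: L) : ℤ) = m + y)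
    (hy : 0 ≤ y) (hT : T m = halfSum (n :: L) + y) : 1 ≤ m ∧
    (chSum L : ℤ) = (m - ((n.choose 2 : ℕ) : ℤ)) + y ∧ T (m - ((n.choose 2 : ℕ) : ℤ)) = halfSum L + y ∧
    T m = ((n / 2 : ℕ) : ℤ) + T (m - ((n.choose 2 : ℕ) : ℤ)) := by
  rw [chSum_cons] at h
  rw [halfSum_cons] at hT
  push_cast at h
  have e1 : (((n / 2 + halfSum L : ℕ)) : ℤ) = ((n / 2 : ℕ) : ℤ) + (halfSum L : ℤ) := Nat.cast_add _ _
  rw [e1] at hT
  have h1 := T_le_cost L (m - ((n.choose 2 : ℕ) : ℤ)) y (by linarith) hy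
  have h2 := T_step n m
  have h3 : (1 : ℤ) ≤ ((n / 2 : ℕ) : ℤ) := by
    have : 1 ≤ n / 2 := by omega
    exact_mod_cast this
  have h4 : (0 : ℤ) ≤ (chSum L : ℤ) := Int.natCast_nonneg _
  have h5 : (0 : ℤ) ≤ (halfSum L : ℤ) := Int.natCast_nonneg _
  have h6 : (0 : ℤ) ≤ ((n.choose 2 : ℕ) : ℤ) := Int.natCast_nonneg _
  refine ⟨?_, by linarith, by linarith, by linarith⟩
  by_contra hcon
  rw [T_nonpos (by omega)] at hT
  linarith

theorem BV_of_list : ∀ (L : List ℕ) (m y : ℤ), (∀ n ∈ L, 2 ≤ n) → (chSum L : ℤ) = m + y → 0 ≤ y →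
    T m = halfSum L + y → BV m (oddSum L + y)
  | [], m, y, _, h, hy, _ => by
    have h1 : (chSum [] : ℤ) = 0 := by simp
    rw [h1] at h
    refine Or.inr ⟨by omega, ?_⟩
    simp
    omega
  | n :: L, m, y, hL, h, hy, hT => by
    obtain ⟨hm, h1, h2, h3⟩ := opt_cons (hL n List.mem_cons_self) h hy hT
    have ih := BV_of_list L _ y (fun n hn => hL n (List.mem_cons_of_mem _ hn)) h1 hy h2
    obtain ⟨m', rfl⟩ := Int.eq_ofNat_of_zero_le (by omega : 0 ≤ m)
    rcases Nat.mod_two_eq_zero_or_one n with hp | hp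
    · rw [oddSum_cons_even (Nat.even_iff.2 hp)]
      exact BV_even (hL n List.mem_cons_self) hp h3 ih
    · rw [oddSum_cons_odd (Nat.odd_iff.2 hp)]
      have e1 : (((n / 2 + oddSum L : ℕ)) : ℤ) + y = ((n / 2 : ℕ) : ℤ) + ((oddSum L : ℤ) + y) := by
        rw [Nat.cast_add]
        ring
      rw [e1]
      exact BV_odd (hL n List.mem_cons_self) hp h3 ih

theorem DV_of_even : ∀ (L : List ℕ) (m y : ℤ), (∀ n ∈ L, 2 ≤ n) → (∀ n ∈ L, Even n) →
    (chSum L : ℤ) = m + y → 0 ≤ y → T m = halfSum L + y → DV m y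
  | [], m, y, _, _, h, hy, _ => by
    have h1 : (chSum [] : ℤ) = 0 := by simp
    rw [h1] at h
    exact Or.inr ⟨by omega, by omega⟩
  | n :: L, m, y, hL, hE, h, hy, hT => by
    obtain ⟨hm, h1, h2, h3⟩ := opt_cons (hL n List.mem_cons_self) h hy hT
    have ih := DV_of_even L _ y (fun n hn => hL n (List.mem_cons_of_mem _ hn))
      (fun n hn => hE n (List.mem_cons_of_mem _ hn)) h1 hy h2
    obtain ⟨m', rfl⟩ := Int.eq_ofNat_of_zero_le (by omega : 0 ≤ m)
    exact DV_even (hL n List.mem_cons_self) (Nat.even_iff.1 (hE n List.mem_cons_self)) h3 ih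

theorem T_eight : T (8 : ℤ) = 4 := by
  have m8 : mc 8 = 6 := mc_val (by norm_num) (by decide +kernel)
  have h1 : T ((8 : ℕ) : ℤ) = 4 := by
    rw [T_nat, m8]
    norm_num
  exact_mod_cast h1

theorem DV_of_eight : ∀ (L : List ℕ) (m : ℤ), (∀ n ∈ L, 2 ≤ n) → (∀ n ∈ L, Even n) →
    (chSum L : ℤ) + 8 = m → T m = halfSum L + 4 → DV m 2
  | [], m, _, _, h, _ => by
    have h1 : (chSum [] : ℤ) = 0 := by simp
    rw [h1] at h
    exact Or.inl ⟨8, 2, by omega, rfl, DVal.eight⟩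
  | n :: L, m, hL, hE, h, hT => by
    rw [chSum_cons] at h
    rw [halfSum_cons] at hT
    push_cast at h
    have e1 : (((n / 2 + halfSum L : ℕ)) : ℤ) = ((n / 2 : ℕ) : ℤ) + (halfSum L : ℤ) := Nat.cast_add _ _
    rw [e1] at hT
    have key : ∀ (L : List ℕ) (m : ℤ), (chSum L : ℤ) + 8 = m → T m ≤ halfSum L + 4 := by
      intro L
      induction L with
      | nil =>
        intro m h
        have : m = 8 := by
          rw [← h]; simp
        rw [this, T_eight]
        simp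
      | cons n L ih =>
        intro m h
        rw [chSum_cons] at h
        push_cast at h
        have h1 := ih (m - ((n.choose 2 : ℕ) : ℤ)) (by linarith)
        have h2 := T_step n m
        rw [halfSum_cons]
        push_cast at *
        linarith
    have h1 := key L (m - ((n.choose 2 : ℕ) : ℤ)) (by linarith)
    have h2 := T_step n m
    have h5 : (0 : ℤ) ≤ (chSum L : ℤ) := Int.natCast_nonneg _
    have h6 : (0 : ℤ) ≤ ((n.choose 2 : ℕ) : ℤ) := Int.natCast_nonneg _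
    have ih := DV_of_eight L (m - ((n.choose 2 : ℕ) : ℤ))
      (fun n hn => hL n (List.mem_cons_of_mem _ hn)) (fun n hn => hE n (List.mem_cons_of_mem _ hn))
      (by linarith) (by linarith)
    obtain ⟨m', rfl⟩ := Int.eq_ofNat_of_zero_le (by omega : 0 ≤ m)
    exact DV_even (hL n List.mem_cons_self) (Nat.even_iff.1 (hE n List.mem_cons_self))
      (by linarith) ih

theorem chSum_erase {L : List ℕ} {a : ℕ} (ha : a ∈ L) : chSum L = a.choose 2 + chSum (L.erase a) := by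
  rw [← chSum_cons]
  unfold chSum
  exact List.Perm.sum_eq ((List.perm_cons_erase ha).map _)

theorem halfSum_erase {L : List ℕ} {a : ℕ} (ha : a ∈ L) : halfSum L = a / 2 + halfSum (L.erase a) := by
  rw [← halfSum_cons]
  unfold halfSum
  exact List.Perm.sum_eq ((List.perm_cons_erase ha).map _)

theorem oddSum_erase {L : List ℕ} {a : ℕ} (ha : a ∈ L) (ho : Odd a) :
    oddSum L = a / 2 + oddSum (L.erase a) := by
  rw [← oddSum_cons_odd ho]
  unfold oddSum
  exact List.Perm.sum_eq ((List.perm_cons_erase ha).map _)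

theorem DV_of_odd {L : List ℕ} {m y x : ℤ} {a : ℕ} (hL : ∀ n ∈ L, 2 ≤ n)
    (h : (chSum L : ℤ) = m + y) (hy : 0 ≤ y) (hT : T m = halfSum L + y) (ha : a ∈ L) (ho : Odd a)
    (hx : x = (a : ℤ) - 1 - (oddSum L + y)) (hx0 : 0 ≤ x) : DV m x := by
  have h1 := chSum_erase ha
  have h2 := halfSum_erase ha
  have h3 := oddSum_erase ha ho
  rw [h1, ← chSum_cons] at h
  rw [h2, ← halfSum_cons] at hT
  obtain ⟨hm, h4, h5, h6⟩ := opt_cons (hL a ha) h hy hT
  have hb := BV_of_list (L.erase a) _ y (fun n hn => hL n (List.mem_of_mem_erase hn)) h4 hy h5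
  obtain ⟨m', rfl⟩ := Int.eq_ofNat_of_zero_le (by omega : 0 ≤ m)
  have h7 := Nat.odd_iff.1 ho
  refine DV_odd (hL a ha) h7 h6 hb ?_ hx0
  rw [h3] at hx
  push_cast at hx
  have h8 : ((a : ℤ) - 1) = 2 * ((a : ℤ) / 2) := by omega
  linarith

theorem BVal_zero {x : ℕ} (h : BVal 0 x) : x = 0 := by
  generalize hm : (0 : ℕ) = m at h
  cases h with
  | zero => rfl
  | @even k r b hk hmc hb =>
    have : 1 ≤ (2 * k).choose 2 := Nat.choose_pos (by omega)
    omega
  | @odd k r b hk hmc hb =>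
    have : 1 ≤ (2 * k + 1).choose 2 := Nat.choose_pos (by omega)
    omega
  | @evenNeg k y m hk hmy hmc =>
    subst hm
    rw [mc_zero] at hmc
    have : 1 ≤ (2 * k) ^ 2 / 4 := by
      have : (2 * k) ^ 2 / 4 = k ^ 2 := by
        rw [mul_pow]
        omega
      rw [this]
      exact Nat.one_le_pow _ _ hk
    omega
  | @oddNeg k y m hk hmy hmc =>
    subst hm
    rw [mc_zero] at hmc
    have : 1 ≤ (2 * k + 1) ^ 2 / 4 := by
      have : (2 * k + 1) ^ 2 / 4 = k ^ 2 + k := by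
        have : (2 * k + 1) ^ 2 = 4 * (k ^ 2 + k) + 1 := by ring
        omega
      rw [this]
      nlinarith [Nat.one_le_pow 2 k hk]
    omega

/-- a value of the `B` recursion comes from an optimal list -/
theorem list_of_BV : ∀ (q : ℕ) {m x : ℤ}, m ≤ q → BV m x → ∃ (L : List ℕ) (y : ℕ),
    (∀ n ∈ L, 2 ≤ n) ∧ (chSum L : ℤ) = m + y ∧ T m = halfSum L + y ∧ x = oddSum L + y := by
  intro q
  induction q with
  | zero =>
    intro m x hm hx
    have hm0 : m ≤ 0 := by simpa using hm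
    obtain ⟨y, hy⟩ := Int.eq_ofNat_of_zero_le (by omega : 0 ≤ -m)
    refine ⟨[], y, by simp, by simp; omega, ?_, ?_⟩
    · rw [T_nonpos hm0]; simp; omega
    · simp
      rcases hx with ⟨m', x', h1, rfl, h2⟩ | ⟨-, rfl⟩
      · have : m' = 0 := by omega
        subst this
        rw [BVal_zero h2]
        omega
      · omega
  | succ q ih =>
    intro m x hm hx
    rcases le_or_gt m q with h | h
    · exact ih h hx
    have hx' := hx
    rcases hx with ⟨m', x', rfl, rfl, h2⟩ | ⟨h1, -⟩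
    · obtain ⟨n, hn, hT, hcase⟩ := BVal_cases (by omega) h2
      have hc : 1 ≤ n.choose 2 := Nat.choose_pos hn
      have hle : (m' : ℤ) - ((n.choose 2 : ℕ) : ℤ) ≤ q := by push_cast at hm; omega
      rcases hcase with ⟨hp, hv⟩ | ⟨hp, b, hv, hb⟩
      · obtain ⟨L, y, hL, h3, h4, h5⟩ := ih hle hv
        refine ⟨n :: L, y, ?_, ?_, ?_, ?_⟩
        · intro a ha
          rcases List.mem_cons.1 ha with rfl | ha
          · exact hn
          · exact hL a ha
        · rw [chSum_cons, Nat.cast_add]; linarith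
        · rw [halfSum_cons, Nat.cast_add]; linarith
        · rw [oddSum_cons_even hp]; exact h5
      · obtain ⟨L, y, hL, h3, h4, h5⟩ := ih hle hv
        refine ⟨n :: L, y, ?_, ?_, ?_, ?_⟩
        · intro a ha
          rcases List.mem_cons.1 ha with rfl | ha
          · exact hn
          · exact hL a ha
        · rw [chSum_cons, Nat.cast_add]; linarith
        · rw [halfSum_cons, Nat.cast_add]; linarith
        · rw [oddSum_cons_odd hp, Nat.cast_add, hb, h5]; ring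
    · have : (0 : ℤ) ≤ q := Int.natCast_nonneg _
      omega

/-- the numbers whose maximum is `D(m)`, if `T = T(m)` -/
def DNum (T m x : ℤ) : Prop :=
  (∃ (L : List ℕ) (y : ℕ), (∀ n ∈ L, 2 ≤ n) ∧ (chSum L : ℤ) = m + y ∧ T = halfSum L + y ∧
    (((∀ n ∈ L, Even n) ∧ x = y) ∨ ∃ a ∈ L, Odd a ∧ x = (a : ℤ) - 1 - (oddSum L + y))) ∨
  (x = 2 ∧ ∃ L : List ℕ, (∀ n ∈ L, 2 ≤ n ∧ Even n) ∧ (chSum L : ℤ) + 8 = m ∧ T = halfSum L + 4)

theorem DNum_of_DV : ∀ (q : ℕ) {m x : ℤ}, m ≤ q → DV m x → DNum (T m) m x := by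
  intro q
  induction q with
  | zero =>
    intro m x hm hx
    have hm0 : m ≤ 0 := by simpa using hm
    obtain ⟨y, hy⟩ := Int.eq_ofNat_of_zero_le (by omega : 0 ≤ -m)
    refine Or.inl ⟨[], y, by simp, by simp; omega, ?_, Or.inl ⟨by simp, ?_⟩⟩
    · rw [T_nonpos hm0]; simp; omega
    · rcases hx with ⟨m', x', h1, rfl, h2⟩ | ⟨-, rfl⟩
      · have : m' = 0 := by omega
        subst this
        rw [DVal_zero h2]
        omega
      · omega
  | succ q ih =>
    intro m x hm hx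
    rcases le_or_gt m q with h | h
    · exact ih h hx
    rcases hx with ⟨m', x', rfl, rfl, h2⟩ | ⟨h1, -⟩
    swap
    · have : (0 : ℤ) ≤ q := Int.natCast_nonneg _
      omega
    rcases DVal_cases (by omega) h2 with ⟨rfl, rfl⟩ | ⟨n, hn, hT, hcase⟩
    · refine Or.inr ⟨rfl, [], by simp, by simp, ?_⟩
      have := T_eight
      simpa using this
    have hc : 1 ≤ n.choose 2 := Nat.choose_pos hn
    have hle : (m' : ℤ) - ((n.choose 2 : ℕ) : ℤ) ≤ q := by push_cast at hm; omega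
    have hmem : ∀ {L : List ℕ}, (∀ a ∈ L, 2 ≤ a) → ∀ a ∈ n :: L, 2 ≤ a := by
      intro L hL a ha
      rcases List.mem_cons.1 ha with rfl | ha
      · exact hn
      · exact hL a ha
    rcases hcase with ⟨hp, hv⟩ | ⟨hp, b, hv, hb⟩
    · rcases ih hle hv with ⟨L, y, hL, h3, h4, h5⟩ | ⟨h5, L, hL, h3, h4⟩
      · refine Or.inl ⟨n :: L, y, hmem hL, ?_, ?_, ?_⟩
        · rw [chSum_cons, Nat.cast_add]; linarith
        · rw [halfSum_cons, Nat.cast_add]; linarith
        · rcases h5 with ⟨h6, h7⟩ | ⟨a, ha, ho, h7⟩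
          · refine Or.inl ⟨fun a ha => ?_, h7⟩
            rcases List.mem_cons.1 ha with rfl | ha
            · exact hp
            · exact h6 a ha
          · refine Or.inr ⟨a, List.mem_cons_of_mem _ ha, ho, ?_⟩
            rw [oddSum_cons_even hp]; exact h7
      · refine Or.inr ⟨h5, n :: L, fun a ha => ?_, ?_, ?_⟩
        · rcases List.mem_cons.1 ha with rfl | ha
          · exact ⟨hn, hp⟩
          · exact hL a ha
        · rw [chSum_cons, Nat.cast_add]; linarith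
        · rw [halfSum_cons, Nat.cast_add]; linarith
    · obtain ⟨L, y, hL, h3, h4, h5⟩ := list_of_BV q hle hv
      refine Or.inl ⟨n :: L, y, hmem hL, ?_, ?_, Or.inr ⟨n, List.mem_cons_self, hp, ?_⟩⟩
      · rw [chSum_cons, Nat.cast_add]; linarith
      · rw [halfSum_cons, Nat.cast_add]; linarith
      · rw [oddSum_cons_odd hp, Nat.cast_add, hb, h5]
        have h7 := Nat.odd_iff.1 hp
        have h8 : ((n : ℤ) - 1) = 2 * ((n / 2 : ℕ) : ℤ) := by omega
        linarith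

theorem DV_of_DNum {m x : ℤ} (h : DNum (T m) m x) (hx : 0 ≤ x) : DV m x := by
  rcases h with ⟨L, y, hL, h3, h4, ⟨h5, rfl⟩ | ⟨a, ha, ho, h5⟩⟩ | ⟨rfl, L, hL, h3, h4⟩
  · exact DV_of_even L m y hL h5 h3 (Int.natCast_nonneg _) h4
  · exact DV_of_odd hL h3 (Int.natCast_nonneg _) h4 ha ho h5 hx
  · exact DV_of_eight L m (fun n hn => (hL n hn).1) (fun n hn => (hL n hn).2) h3 h4

/-- `T` in closed form -/
theorem T_closed (m : ℤ) : IsLeast {x : ℤ | ∃ (L : List ℕ) (y : ℕ), (∀ n ∈ L, 2 ≤ n) ∧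
    (chSum L : ℤ) = m + y ∧ x = halfSum L + y} (T m) := by
  refine ⟨?_, ?_⟩
  · obtain ⟨x, hx⟩ := exists_BV m
    obtain ⟨L, y, h1, h2, h3, -⟩ := list_of_BV m.toNat (by omega) hx
    exact ⟨L, y, h1, h2, h3⟩
  · rintro x ⟨L, y, -, h2, rfl⟩
    exact T_le_cost L m y h2 (Int.natCast_nonneg _)

/-- `D` in closed form -/
theorem D_closed (hQ : ∀ m : ℤ, QD m) (m : ℤ) : IsGreatest {x : ℤ | DNum (T m) m x} (Df m) := by
  refine ⟨DNum_of_DV m.toNat (by omega) (Df_mem hQ m), fun x hx => ?_⟩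
  rcases le_or_gt 0 x with h | h
  · exact le_Df (DV_of_DNum hx h)
  · have := DV_nonneg (Df_mem hQ m)
    linarith

/-- the recursion: existence, uniqueness, and the formula for `Q(m)` -/
theorem recursion_answer (hQ : ∀ m : ℤ, QD m) : ∃ T D B : ℤ → ℤ, TDB T D B ∧
    (∀ T' D' B' : ℤ → ℤ, TDB T' D' B' → T' = T ∧ D' = D ∧ B' = B) ∧
    ∀ m : ℕ, 1 ≤ m → ∃ q : ℕ, IsGreatest (qvalues m) q ∧
      8 * (q : ℤ) = (m - T m) ^ 2 + 4 * (D m) ^ 2 := by
  refine ⟨T, Df, Bf, TDB_exists hQ, fun T' D' B' h => ⟨?_, ?_, ?_⟩,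
    (full_answer hQ).2 T Df Bf (TDB_exists hQ)⟩
  · funext m; exact (TDB_unique h (TDB_exists hQ) m).1
  · funext m; exact (TDB_unique h (TDB_exists hQ) m).2.1
  · funext m; exact (TDB_unique h (TDB_exists hQ) m).2.2

/-- the answer in closed form -/
theorem closed_answer (hQ : ∀ m : ℤ, QD m) (m : ℕ) (hm : 1 ≤ m) : ∃ (t d : ℤ) (q : ℕ),
    IsLeast {x : ℤ | ∃ (L : List ℕ) (y : ℕ), (∀ n ∈ L, 2 ≤ n) ∧ (chSum L : ℤ) = m + y ∧
      x = halfSum L + y} t ∧
    IsGreatest {x : ℤ | DNum t m x} d ∧ IsGreatest (qvalues m) q ∧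
      8 * (q : ℤ) = (m - t) ^ 2 + 4 * d ^ 2 := by
  obtain ⟨q, h1, h2⟩ := (full_answer hQ).2 T Df Bf (TDB_exists hQ) m hm
  exact ⟨T m, Df m, q, T_closed m, D_closed hQ m, h1, h2⟩

end Pool.Agent.QFO
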