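import Pool.Agent.QFO.Chi
import Pool.Agent.QFO.CritD

/-!
# [QFO-DRule] the data of a violation of the D part
-/

set_option autoImplicit false
set_option linter.unusedSectionVars false

namespace Pool.Agent.QFO

open Finset Pool.Agent.MP_710317_co.Rec Pool.Agent.MXC

variable {V : Type*} [Fintype V] [DecidableEq V]

/-- `(S, Sᶜ)` is a maximum cut with the least difference `a - b > D` of the insides `a`, `b`;
`KA`, `KB` are the numbers of loops of the two sides. -/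
structure MinCut (W : V → V → ℤ) (k : V → ℤ) (m D : ℤ) (S : Finset V) (a b KA KB : ℤ) : Prop where
  inA : inn W S = 2 * a
  inB : inn W Sᶜ = 2 * b
  gt : D < a - b
  mx : ∀ S', crs W S' S'ᶜ ≤ crs W S Sᶜ
  mn : ∀ S', crs W S' S'ᶜ = crs W S Sᶜ → 2 * (a - b) ≤ |inn W S' - inn W S'ᶜ|
  cr : 2 * crs W S Sᶜ = m + T m
  kA : ∑ i ∈ S, k i = KA
  kB : ∑ i ∈ Sᶜ, k i = KB

/-- if all optimal cuts have `|d| > D` there is such a maximum cut -/
theorem exists_minCut {W : V → V → ℤ} {k : V → ℤ} (hw : SymK W k) {m D : ℤ}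
    (hm : inn W univ = 2 * m) (hs : Sb W (T m))
    (hno : ∀ e : V → ℤ, IsSign e → en W e = 2 * T m → 2 * D < |df W e|) :
    ∃ (S : Finset V) (a b KA KB : ℤ), MinCut W k m D S a b KA KB := by
  obtain ⟨e, he, h1, hmin⟩ := exists_min hw hm hs
  -- the positive side is the heavy one
  obtain ⟨e, he, h1, hmin, h2⟩ : ∃ e : V → ℤ, IsSign e ∧ en W e = 2 * T m ∧
      (∀ e', IsSign e' → en W e' = 2 * T m → |df W e| ≤ |df W e'|) ∧ 2 * D < df W e := by
    have h3 := hno e he h1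
    rcases le_total 0 (df W e) with h4 | h4
    · rw [abs_of_nonneg h4] at h3
      exact ⟨e, he, h1, hmin, h3⟩
    · rw [abs_of_nonpos h4] at h3
      refine ⟨fun i => - e i, neg_sign he, by rw [en_neg, h1], fun e' he' h' => ?_, ?_⟩
      · rw [df_neg, abs_neg]
        exact hmin e' he' h'
      · rw [df_neg]
        exact h3
  set S : Finset V := pos e with hS
  have heS : sg S = e := sg_pos he
  obtain ⟨a, ha⟩ := inn_even hw S
  obtain ⟨b, hb⟩ := inn_even hw Sᶜ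
  have hen := en_sg hw S
  have hdf := df_sg W hw S
  rw [heS] at hen hdf
  rw [h1, hm] at hen
  rw [ha, hb] at hdf
  have hc : ∀ S', crs W S' S'ᶜ ≤ crs W S Sᶜ := by
    intro S'
    have h3 := hs _ (sg_sign S')
    rw [en_sg hw S', hm] at h3
    linarith
  refine ⟨S, a, b, _, _, ⟨ha, hb, by linarith, hc, fun S' hS' => ?_, by linarith, rfl, rfl⟩⟩
  have h3 := hmin (sg S') (sg_sign S') (by rw [en_sg hw S', hm, hS', ← hen])
  rw [df_sg W hw S', hdf] at h3
  have h4 := le_abs_self (2 * a - 2 * b)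
  linarith

/-- the numerical consequences of a violation of the D part -/
structure DData (m D : ℤ) (N : ℕ) (K a b KA KB : ℤ) : Prop where
  ab : 2 * (a + b) = m - T m
  gt : D < a - b
  kA : 0 ≤ KA
  kB : 0 ≤ KB
  kk : KA + KB = K
  slk : 2 * KA ≤ T m - (a - b)
  blk : T (a + KA) + KA + (T (b + KB) + KB) ≤ T m
  tt : T m = T (m + K) + K
  avg : m + K ≤ (T m - K) * qf N
  pq : ∃ p q : ℕ, N ≤ p + q ∧ (p : ℤ) * ((p : ℤ) - 1) ≤ 2 * (a + KA) ∧
    (q : ℤ) * ((q : ℤ) - 1) ≤ 2 * (b + KB)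
  U : 2 * (a + KA) ≤ (T m - (a - b)) * (T m - (a - b) - 1) ∨ 2 * (a - b) < T m ∨
    (2 * (a - b) - T m + 1) * T m ≤ 2 * (a + KA)

theorem T_eq_K {W : V → V → ℤ} {k : V → ℤ} (hw : SymK W k) {m : ℤ} (hm : inn W univ = 2 * m)
    (hs : Sb W (T m)) : T m = T (m + ∑ i, k i) + ∑ i, k i := by
  have h1 := T_le_Sb hw hm hs
  have h2 := T_le_add m _ (Finset.sum_nonneg fun i (_ : i ∈ univ) => hw.knn i)
  linarith

/-- [QFO-DRule] -/
theorem dData {W : V → V → ℤ} {k : V → ℤ} (h : OO W k) {N : ℕ} {f : V → Fin N} (hc : Col W f)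
    {m D : ℤ} (hm : inn W univ = 2 * m) (hs : Sb W (T m)) {S : Finset V} {a b KA KB : ℤ}
    (M : MinCut W k m D S a b KA KB) : DData m D N (∑ i, k i) a b KA KB := by
  have hw : SymK W k := h.toSymK
  have hsplit := tot_splitK hw S
  rw [hm, M.inA, M.inB] at hsplit
  have hcr := M.cr
  set c := crs W S Sᶜ with hcdef
  have hab : 2 * (a + b) = m - T m := by linarith
  have e1 : c - 2 * a = T m - (a - b) := by linarith
  have e2 : c - a - b = T m := by linarith
  obtain ⟨hK, hsl⟩ := slackO hw h.nn h.le M.mx rfl M.inA M.inB M.mn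
  rw [← hcdef, e1, M.kA] at hK
  rw [← hcdef, e1, e2, M.kA] at hsl
  have hblk := block hw hs S M.inA M.inB
  rw [M.kA, M.kB] at hblk
  obtain ⟨p, q, h1, h2, h3⟩ := sides h hc S M.inA M.inB
  rw [M.kA] at h2
  rw [M.kB] at h3
  refine ⟨hab, M.gt, ?_, ?_, ?_, hK, hblk, T_eq_K hw hm hs, N_facts h hc hm hs, ⟨p, q, h1, h2, h3⟩,
    hsl⟩
  · rw [← M.kA]; exact Finset.sum_nonneg fun i _ => h.knn i
  · rw [← M.kB]; exact Finset.sum_nonneg fun i _ => h.knn i
  · rw [← M.kA, ← M.kB]; exact Finset.sum_add_sum_compl S k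

end Pool.Agent.QFO
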