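import Pool.Agent.MXC.Main

/-!
# [QFO] integer matrices with loops: definitions and basic facts

`W` symmetric with diagonal `W i i = -2 k i` (`k i ≥ 0` loops of weight `-1` at `i`).
`inn W univ = 2 m` (total weight), `en W e = 2 s` (surplus of the signs `e`), `df W e = 2 d`
(difference of the weights of the two sides).
-/

set_option autoImplicit false
set_option linter.unusedSectionVars false

namespace Pool.Agent.QFO

open Finset Pool.Agent.MP_710317_co.Rec Pool.Agent.MXC

section

variable {V : Type*}

/-- symmetric with diagonal `-2 k` -/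
structure SymK (W : V → V → ℤ) (k : V → ℤ) : Prop where
  symm : ∀ i j, W i j = W j i
  diag : ∀ i, W i i = -2 * k i
  knn : ∀ i, 0 ≤ k i

/-- class OS: arbitrary signs of the weights -/
structure OS (W : V → V → ℤ) (k : V → ℤ) : Prop extends SymK W k where
  le : ∀ i j, i ≠ j → W i j ≤ (1 + k i) * (1 + k j)

/-- class OO: nonnegative weights off the diagonal -/
structure OO (W : V → V → ℤ) (k : V → ℤ) : Prop extends OS W k where
  nn : ∀ i j, i ≠ j → 0 ≤ W i j

/-- twice the difference of the weights of the two sides of the signs `e` -/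
def df [Fintype V] (W : V → V → ℤ) (e : V → ℤ) : ℤ := ∑ i, ∑ j, W i j * e i

/-- the part off the diagonal -/
def off [DecidableEq V] (W : V → V → ℤ) (i j : V) : ℤ := if i = j then 0 else W i j

end

variable {V : Type*} [Fintype V] [DecidableEq V]

theorem off_sym {W : V → V → ℤ} {k : V → ℤ} (hw : SymK W k) : Sym (off W) := by
  refine ⟨fun i j => ?_, fun i => by simp [off]⟩
  unfold off
  by_cases h : i = j
  · rw [if_pos h, if_pos h.symm]
  · rw [if_neg h, if_neg (Ne.symm h), hw.symm]

theorem off_row {W : V → V → ℤ} {k : V → ℤ} (hw : SymK W k) (f : V → ℤ) (S : Finset V) (i : V) :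
    ∑ j ∈ S, off W i j * f j = ∑ j ∈ S, W i j * f j + (if i ∈ S then 2 * k i * f i else 0) := by
  have h1 : ∀ j, off W i j * f j = W i j * f j + (if i = j then 2 * k i * f i else 0) := by
    intro j
    unfold off
    by_cases h : i = j
    · rw [if_pos h, if_pos h, ← h, hw.diag i]
      ring
    · rw [if_neg h, if_neg h, add_zero]
  rw [Finset.sum_congr rfl fun j _ => h1 j, Finset.sum_add_distrib, Finset.sum_ite_eq]

theorem off_inn {W : V → V → ℤ} {k : V → ℤ} (hw : SymK W k) (S : Finset V) :
    inn (off W) S = inn W S + 2 * ∑ i ∈ S, k i := by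
  unfold inn
  rw [Finset.mul_sum, ← Finset.sum_add_distrib]
  refine Finset.sum_congr rfl fun i hi => ?_
  have h1 := off_row hw (fun _ => 1) S i
  simp only [mul_one] at h1
  rw [h1, if_pos hi]

theorem off_crs (W : V → V → ℤ) (S : Finset V) : crs (off W) S Sᶜ = crs W S Sᶜ := by
  unfold crs
  refine Finset.sum_congr rfl fun i hi => Finset.sum_congr rfl fun j hj => ?_
  unfold off
  rw [if_neg]
  rintro rfl
  exact (mem_compl.1 hj) hi

theorem sign_sq {e : V → ℤ} (he : IsSign e) (i : V) : e i * e i = 1 := by
  rcases he i with h | h <;> rw [h] <;> norm_num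

theorem off_en {W : V → V → ℤ} {k : V → ℤ} (hw : SymK W k) {e : V → ℤ} (he : IsSign e) :
    en (off W) e = en W e - 2 * ∑ i, k i := by
  unfold en
  have h1 : ∀ i, ∑ j, off W i j * e i * e j = ∑ j, W i j * e i * e j + 2 * k i := by
    intro i
    have h2 := off_row hw e univ i
    rw [if_pos (mem_univ i)] at h2
    have h3 : ∑ j, off W i j * e i * e j = e i * ∑ j, off W i j * e j := by
      rw [Finset.mul_sum]
      exact Finset.sum_congr rfl fun j _ => by ring
    have h4 : ∑ j, W i j * e i * e j = e i * ∑ j, W i j * e j := by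
      rw [Finset.mul_sum]
      exact Finset.sum_congr rfl fun j _ => by ring
    rw [h3, h4, h2, mul_add]
    have := sign_sq he i
    linear_combination 2 * k i * this
  rw [Finset.sum_congr rfl fun i _ => h1 i, Finset.sum_add_distrib, Finset.mul_sum]
  ring

/-- the signs of a set -/
def sg (S : Finset V) (i : V) : ℤ := if i ∈ S then 1 else -1

theorem sg_sign (S : Finset V) : IsSign (sg S) := by
  intro i
  unfold sg
  by_cases h : i ∈ S
  · rw [if_pos h]; exact Or.inl rfl
  · rw [if_neg h]; exact Or.inr rfl

/-- the positive side -/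
def pos (e : V → ℤ) : Finset V := univ.filter fun i => e i = 1

theorem pos_sg (S : Finset V) : pos (sg S) = S := by
  ext i
  unfold pos sg
  by_cases h : i ∈ S <;> simp [h]

theorem sg_pos {e : V → ℤ} (he : IsSign e) : sg (pos e) = e := by
  funext i
  unfold pos sg
  rcases he i with h | h
  · simp [h]
  · simp [h]

theorem tot_splitK {W : V → V → ℤ} {k : V → ℤ} (hw : SymK W k) (S : Finset V) :
    inn W univ = inn W S + inn W Sᶜ + 2 * crs W S Sᶜ := by
  have h1 := tot_split (off_sym hw) S
  rw [off_inn hw, off_inn hw, off_inn hw, off_crs, ← Finset.sum_add_sum_compl S k] at h1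
  linarith

theorem en_sg {W : V → V → ℤ} {k : V → ℤ} (hw : SymK W k) (S : Finset V) :
    en W (sg S) = 4 * crs W S Sᶜ - inn W univ := by
  have h1 := en_eq (off_sym hw) (sg S) (sg_sign S)
  have h2 : (univ.filter fun i => sg S i = 1) = S := pos_sg S
  rw [h2, off_crs, off_inn hw, off_en hw (sg_sign S)] at h1
  linarith

theorem df_sg (W : V → V → ℤ) {k : V → ℤ} (hw : SymK W k) (S : Finset V) :
    df W (sg S) = inn W S - inn W Sᶜ := by
  have h1 : df W (sg S) = crs W S univ - crs W Sᶜ univ := by
    unfold df crs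
    rw [← Finset.sum_add_sum_compl S]
    have h2 : ∀ i ∈ S, ∑ j, W i j * sg S i = ∑ j, W i j := by
      intro i hi
      unfold sg
      rw [if_pos hi]
      simp
    have h3 : ∀ i ∈ Sᶜ, ∑ j, W i j * sg S i = - ∑ j, W i j := by
      intro i hi
      unfold sg
      rw [if_neg (mem_compl.1 hi), ← Finset.sum_neg_distrib]
      exact Finset.sum_congr rfl fun j _ => by ring
    rw [Finset.sum_congr rfl h2, Finset.sum_congr rfl h3, Finset.sum_neg_distrib]
    ring
  have h4 := crs_univ_right W S S
  have h5 := crs_univ_right W S Sᶜ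
  have h6 : crs W Sᶜ S = crs W S Sᶜ := by
    unfold crs
    rw [Finset.sum_comm]
    exact Finset.sum_congr rfl fun i _ => Finset.sum_congr rfl fun j _ => hw.symm j i
  rw [h1, h4, h5, h6]
  unfold inn crs
  ring

/-- There are signs with surplus at least `T(m + K) + K`, `K` the number of loops. -/
theorem exists_sign {W : V → V → ℤ} {k : V → ℤ} (hw : SymK W k) {m : ℤ}
    (hm : inn W univ = 2 * m) : ∃ e : V → ℤ, IsSign e ∧
      2 * (T (m + ∑ i, k i) + ∑ i, k i) ≤ en W e := by
  by_contra hcon
  push Not at hcon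
  set K : ℤ := ∑ i, k i with hK
  have hin : inn (off W) univ = 2 * (m + K) := by
    rw [off_inn hw, hm]
    ring
  -- transport to `Fin N`
  obtain ⟨N, ⟨f⟩⟩ : ∃ N : ℕ, Nonempty (Fin N ≃ V) := ⟨Fintype.card V, ⟨(Fintype.equivFin V).symm⟩⟩
  set w' : Fin N → Fin N → ℤ := fun i j => off W (f i) (f j) with hw'
  have hs' : Sym w' := ⟨fun i j => (off_sym hw).symm _ _, fun i => (off_sym hw).diag _⟩
  have hin' : inn w' univ = 2 * (m + K) := by
    rw [← hin]
    unfold inn
    rw [← Equiv.sum_comp f]
    exact Finset.sum_congr rfl fun i _ => Equiv.sum_comp f (fun j => off W (f i) j)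
  have hen : ∀ e : V → ℤ, en w' (fun i => e (f i)) = en (off W) e := by
    intro e
    unfold en
    rw [← Equiv.sum_comp f]
    congr 1
    exact Finset.sum_congr rfl fun i _ =>
      Equiv.sum_comp f (fun j => off W (f i) j * e (f i) * e j)
  have hSb : Sb w' (T (m + K) - 1) := by
    intro e he
    have h1 := hcon (fun v => e (f.symm v)) (fun v => he _)
    have h2 := hen (fun v => e (f.symm v))
    simp only [Equiv.symm_apply_apply] at h2
    have h2' : en w' e = en (off W) (fun v => e (f.symm v)) := h2
    rw [h2', off_en hw (fun v => he _)]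
    obtain ⟨l, hl⟩ := en_par (off_sym hw) hin (fun v => e (f.symm v)) (fun v => he _)
    rw [off_en hw (fun v => he _)] at hl
    omega
  have := main_lower N (Fin N) (Fintype.card_fin N) w' _ (m + K) hs' hSb hin'
  linarith

/-- the lower bound for the surplus -/
theorem T_le_Sb {W : V → V → ℤ} {k : V → ℤ} (hw : SymK W k) {m s : ℤ}
    (hm : inn W univ = 2 * m) (hs : Sb W s) : T (m + ∑ i, k i) + ∑ i, k i ≤ s := by
  obtain ⟨e, he, h⟩ := exists_sign hw hm
  have := hs e he
  linarith

end Pool.Agent.QFO
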