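import Pool.Agent.QFO.Skel
import Pool.Agent.QMA.Main

/-!
# [QFO-Final] from the induction to the formula for `Q(m)`
-/

set_option autoImplicit false

namespace Pool.Agent.QFO

open Finset Pool.Agent.MP_710317_co Pool.Agent.MP_710317_co.Rec Pool.Agent.MXC Pool.Agent.QMA

/-- the adjacency matrix of a graph is an object without loops -/
theorem ad_OS {V : Type*} [DecidableEq V] (G : SimpleGraph V) : OS (ad G) (fun _ => 0) where
  symm := ad_comm G
  diag i := by rw [ad_self]; ring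
  knn _ := le_refl 0
  le i j _ := by
    have := (ad01 G).2 i j
    linarith

/-- the upper bound: `Dl 0 m` is at most a value of the recursion -/
theorem Dl_le_DVal {m : ℕ} (hm : 1 ≤ m) (hQ : QD (m : ℤ)) : ∃ x : ℕ, DVal m x ∧ Dl 0 m ≤ x := by
  obtain ⟨N, G, K, htot, hcut, hd⟩ := Dl_mem 0 m
  have hin : ∀ S : Finset (Fin N), exIn G K S = (inside G (S : Set (Fin N)) : ℤ) := by
    intro S
    simp [exIn]
  have hG : G.edgeSet.ncard = m := by
    rw [hin] at htot
    have h1 : inside G ((univ : Finset (Fin N)) : Set (Fin N)) = G.edgeSet.ncard := by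
      unfold inside
      congr 1
      ext e
      simp
    rw [h1] at htot
    exact_mod_cast htot
  rw [fl_eq] at hcut hd
  have hcrs : ∀ S, exCut G K S = crs (ad G) S Sᶜ := by
    intro S
    obtain ⟨a, b, ha, hb, hab, -⟩ := key G hG S
    unfold exCut
    rw [htot, hin, hin]
    have h2 : inn (ad G) S = 2 * (inside G (S : Set (Fin N)) : ℤ) := ord_eq_inside G S
    have h3 : inn (ad G) Sᶜ = 2 * (inside G ((Sᶜ : Finset (Fin N)) : Set (Fin N)) : ℤ) :=
      ord_eq_inside G Sᶜ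
    rw [ha] at h2
    rw [hb] at h3
    linarith
  have hcle : ∀ S, crs (ad G) S Sᶜ ≤ (mc m : ℤ) := fun S => by rw [← hcrs]; exact hcut S
  have hsym := (ad_OS G).toSymK
  have hinn : inn (ad G) univ = 2 * (m : ℤ) := ord_univ_eq G m hG
  have hSb : Sb (ad G) (T m) := by
    intro e he
    rw [← sg_pos he, en_sg hsym, hinn, T_nat]
    have := hcle (pos e)
    linarith
  obtain ⟨e, x, he, he2, hx, hdf⟩ := hQ (Fin N) (ad G) _ (ad_OS G) hinn hSb
  rw [← sg_pos he] at he2 hdf
  rw [en_sg hsym, hinn, T_nat] at he2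
  rw [df_sg _ hsym] at hdf
  have hS : exCut G K (pos e) = (mc m : ℤ) := by
    rw [hcrs]
    linarith
  have h3 := hd _ hS
  rw [hin, hin] at h3
  have e1 : inn (ad G) (pos e) = 2 * (inside G ((pos e : Finset (Fin N)) : Set (Fin N)) : ℤ) :=
    ord_eq_inside G _
  have e2 : inn (ad G) (pos e)ᶜ = 2 * (inside G (((pos e)ᶜ : Finset (Fin N)) : Set (Fin N)) : ℤ) :=
    ord_eq_inside G _
  rw [e1, e2, ← mul_sub, abs_mul, abs_two] at hdf
  have h4 : (Dl 0 m : ℤ) ≤ x := by linarith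
  rcases hx with ⟨m', x', hm', hx', hval⟩ | ⟨h, -⟩
  · have : m = m' := by exact_mod_cast hm'
    subst this
    exact ⟨x', hval, by rw [hx'] at h4; exact_mod_cast h4⟩
  · exfalso
    have : (1 : ℤ) ≤ m := by exact_mod_cast hm
    linarith

/-- the difference term is the largest value of the recursion -/
theorem Dl_greatest {m : ℕ} (hm : 1 ≤ m) (hQ : QD (m : ℤ)) :
    IsGreatest {x : ℕ | DVal m x} (Dl 0 m) := by
  obtain ⟨x, hx, hle⟩ := Dl_le_DVal hm hQ
  have h1 : x ≤ Dl 0 m := DVal_le 0 hx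
  have h2 : Dl 0 m = x := le_antisymm hle h1
  refine ⟨?_, fun y hy => DVal_le 0 hy⟩
  rw [h2]
  exact hx

/-- the formula for `Q(m)` -/
theorem Q_formula (hQ : ∀ m : ℤ, QD m) (m : ℕ) (hm : 1 ≤ m) :
    ∃ D q : ℕ, IsGreatest {x : ℕ | DVal m x} D ∧ IsGreatest (qvalues m) q ∧
      2 * q = (m - mc m) ^ 2 + D ^ 2 := by
  obtain ⟨-, -, q, h1, h2⟩ := q_all m hm
  exact ⟨Dl 0 m, q, Dl_greatest hm (hQ m), h1, h2⟩

end Pool.Agent.QFO
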