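import Pool.Agent.QFO.Small

/-!
# [QFO-Five] five classes, no loops, `T m = 4`
-/

set_option autoImplicit false
set_option linter.unusedSectionVars false

namespace Pool.Agent.QFO

open Finset Pool.Agent.MP_710317_co.Rec Pool.Agent.MXC Pool.Agent.QMA

/-- the `D` part from the vertex level check -/
theorem D_vok {V : Type*} [Fintype V] [DecidableEq V] {W : V → V → ℤ} {k : V → ℤ} (h : OO W k)
    {N : ℕ} {f : V → Fin N} (hc : Col W f) {m : ℕ}
    (hm : inn W univ = 2 * (m : ℤ)) (hs : Sb W (T m)) {K : ℕ}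
    (hK : ∑ i, k i = K) (h168 : m < 168) (h13 : tab m ≤ 13) (hmm : tab m ≤ m) (hK2 : K ≤ tab m)
    (h5 : chk (fun i => chk (fun KA => vok (tab m) (Nat.div (Nat.sub m (tab m)) 2) K N
      (Nat.add (Nat.succ (Dt m)) i) KA) (Nat.succ K)) (Nat.sub (tab m) (Dt m)) = true) :
    ∃ e : V → ℤ, IsSign e ∧ en W e = 2 * T m ∧ |df W e| ≤ 2 * (Dt m : ℤ) := by
  have hTm := T_eq_tab m (by omega)
  obtain ⟨U, hU⟩ : ∃ U, U = (m - tab m) / 2 := ⟨_, rfl⟩
  have hUe : Nat.div (Nat.sub m (tab m)) 2 = U := hU.symm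
  rw [hUe] at h5
  by_contra hno
  push Not at hno
  obtain ⟨S, a, b, KA, KB, M⟩ := exists_minCut h.toSymK hm hs (D := (Dt m : ℤ)) hno
  have D := dData h hc hm hs M
  rw [hK] at D
  obtain ⟨p, q, hpq, hp, hq⟩ := D.pq
  have hfA : 0 ≤ a + KA := by linarith [sq_nonneg' p]
  have hfB : 0 ≤ b + KB := by linarith [sq_nonneg' q]
  obtain ⟨f1, hf1⟩ := Int.eq_ofNat_of_zero_le hfA
  obtain ⟨f2, hf2⟩ := Int.eq_ofNat_of_zero_le hfB
  obtain ⟨KA', rfl⟩ := Int.eq_ofNat_of_zero_le D.kA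
  obtain ⟨KB', rfl⟩ := Int.eq_ofNat_of_zero_le D.kB
  have hgt := D.gt
  obtain ⟨d, hd⟩ := Int.eq_ofNat_of_zero_le (show 0 ≤ a - b by omega)
  have hab := D.ab
  have hslk := D.slk
  have hkk := D.kk
  have hblk := D.blk
  have hUU := D.U
  rw [hTm] at hab hslk
  rw [hf1] at hp hblk hUU
  rw [hf2] at hq hblk
  rw [hTm] at hblk hUU
  have hUab : a + b = U := by omega
  have hT1 := T_eq_tab f1 (by omega)
  have hT2 := T_eq_tab f2 (by omega)
  rw [hT1, hT2] at hblk
  have hp' := sq_nat hp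
  have hq' := sq_nat hq
  have h6 := chk_all h5 (d - (Dt m + 1)) (by show d - (Dt m + 1) < tab m - Dt m; omega)
  have h7 := chk_all h6 KA' (by show KA' < K + 1; omega)
  have e1 : Nat.add (Nat.succ (Dt m)) (d - (Dt m + 1)) = d := by
    show Dt m + 1 + (d - (Dt m + 1)) = d
    omega
  rw [e1] at h7
  refine vok_spec h7 (f1 := f1) (f2 := f2) (p := p) (q := q) (by omega) (by omega) (by omega)
    (by omega) hpq hp' hq' (le20 hp' (by omega)) (le20 hq' (by omega)) ?_
  rw [hd] at hUU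
  rcases hUU with h8 | h8 | h8
  · left
    have h9 : ((tab m : ℤ) - d) = ((tab m - d : ℕ) : ℤ) := by omega
    rw [h9] at h8
    rcases Nat.eq_zero_or_pos (tab m - d) with h10 | h10
    · rw [h10] at h8 ⊢
      omega
    · have h11 : ((tab m - d : ℕ) : ℤ) - 1 = ((tab m - d - 1 : ℕ) : ℤ) := by omega
      rw [h11] at h8
      exact_mod_cast h8
  · right; left
    exact_mod_cast h8
  · rcases Nat.lt_or_ge (2 * d) (tab m) with h10 | h10
    · right; left; exact h10
    · right; right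
      have h11 : (2 * (d : ℤ) - (tab m : ℤ) + 1) = ((2 * d + 1 - tab m : ℕ) : ℤ) := by omega
      rw [h11] at h8
      exact_mod_cast h8

/-- the `B` part from the class level check -/
theorem B_cok {V : Type*} [Fintype V] [DecidableEq V] {W : V → V → ℤ} {k : V → ℤ} (h : OO W k)
    {N : ℕ} {f : V → Fin N} (hc : Col W f) {m : ℕ}
    (hm : inn W univ = 2 * (m : ℤ)) (hs : Sb W (T m)) {K : ℕ}
    (hK : ∑ i, k i = K) (h168 : m < 168) (hmm : tab m ≤ m) (hmK : m + K < 180) (hN : N < 14)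
    (h5 : chk (fun d => chk (fun KA => chk (fun p => cok (tab m) (Nat.div (Nat.sub m (tab m)) 2) K N
      d KA p) (Nat.succ N)) (Nat.succ K)) (Bt m) = true) :
    ∃ e : V → ℤ, IsSign e ∧ en W e = 2 * T m ∧ 2 * (Bt m : ℤ) ≤ |df W e| := by
  have hTm := T_eq_tab m (by omega)
  obtain ⟨U, hU⟩ : ∃ U, U = (m - tab m) / 2 := ⟨_, rfl⟩
  have hUe : Nat.div (Nat.sub m (tab m)) 2 = U := hU.symm
  rw [hUe] at h5
  obtain ⟨e, a, b, KA, KB, p, q, he, he2, hdf, C⟩ := cData h hc hm hs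
  by_cases hle : (Bt m : ℤ) ≤ a - b
  · exact ⟨e, he, he2, by rw [hdf]; linarith⟩
  exfalso
  rw [hK] at C
  have hfA : 0 ≤ a + KA := by linarith [sq_nonneg' p, C.fA]
  have hfB : 0 ≤ b + KB := by linarith [sq_nonneg' q, C.fB]
  obtain ⟨f1, hf1⟩ := Int.eq_ofNat_of_zero_le hfA
  obtain ⟨f2, hf2⟩ := Int.eq_ofNat_of_zero_le hfB
  obtain ⟨KA', rfl⟩ := Int.eq_ofNat_of_zero_le C.kA
  obtain ⟨KB', rfl⟩ := Int.eq_ofNat_of_zero_le C.kB
  obtain ⟨d, hd⟩ := Int.eq_ofNat_of_zero_le C.ge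
  have hab := C.ab
  have hle2 := C.le
  have hkk := C.kk
  have hpq := C.pq
  rw [hTm] at hab hle2
  have hUab : a + b = U := by omega
  have h6 := chk_all h5 d (by omega)
  have h7 := chk_all h6 KA' (by show KA' < K + 1; omega)
  have h8 := chk_all h7 p (by show p < N + 1; omega)
  have h9 := C.blk (Lt p f1) (Lt q f2) (by rw [hf1]; exact LB_tab p (by omega) f1 (by omega))
    (by rw [hf2]; exact LB_tab q (by omega) f2 (by omega))
  rw [hTm] at h9
  have hq : q = N - p := by omega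
  rw [hq] at h9
  exact cok_spec h8 (f1 := f1) (f2 := f2) (by omega) (by omega) (by omega)

/-- the numerical part -/
def five (m : ℕ) : Bool :=
  !(Nat.beq (tab m) 4) || Nat.ble 5 (Lt 5 m) ||
    (chk (fun i => chk (fun KA => vok (tab m) (Nat.div (Nat.sub m (tab m)) 2) 0 5
      (Nat.add (Nat.succ (Dt m)) i) KA) (Nat.succ 0)) (Nat.sub (tab m) (Dt m)) &&
    chk (fun d => chk (fun KA => chk (fun p => cok (tab m) (Nat.div (Nat.sub m (tab m)) 2) 0 5
      d KA p) (Nat.succ 5)) (Nat.succ 0)) (Bt m))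

theorem five_all : chk five 37 = true := by
  decide +kernel

/-- [QFO-Five] five classes, no loops, `T m = 4` -/
theorem five_has {V : Type*} [Fintype V] [DecidableEq V] {W : V → V → ℤ} {k : V → ℤ} (h : OO W k)
    (hK : ∑ i, k i = 0) {f : V → Fin 5} (hc : Col W f) {m : ℕ}
    (hm : inn W univ = 2 * (m : ℤ)) (hs : Sb W (T m)) (h4 : T (m : ℤ) = 4) :
    HasD W m ∧ HasB W m := by
  have hm36 : m ≤ 36 := by
    have h1 := T_edw m
    rw [h4] at h1
    omega
  have hTm := T_eq_tab m (by omega)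
  have htab : tab m = 4 := by
    rw [h4] at hTm
    exact_mod_cast hTm.symm
  have hK' : ∑ i, k i = ((0 : ℕ) : ℤ) := by rw [hK]; norm_num
  have hmm : tab m ≤ m := by
    rw [htab]
    by_contra hcon
    have h1 : m = 0 ∨ m = 1 ∨ m = 2 ∨ m = 3 := by omega
    rcases h1 with rfl | rfl | rfl | rfl
    · exact absurd htab (by decide +kernel)
    · exact absurd htab (by decide +kernel)
    · exact absurd htab (by decide +kernel)
    · exact absurd htab (by decide +kernel)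
  have h1 := chk_all five_all m (by omega)
  unfold five at h1
  rw [Bool.or_eq_true, Bool.or_eq_true, Bool.and_eq_true] at h1
  rcases h1 with (h1 | h1) | ⟨h1, h2⟩
  · rw [htab] at h1
    exact absurd h1 (by decide)
  · exfalso
    have h6 : 5 ≤ Lt 5 m := Nat.le_of_ble_eq_true h1
    have h7 := LB_tab 5 (by norm_num) m (by omega)
    have h8 := LB_top h hc hm hs (ℓ := (Lt 5 m : ℤ)) (by
      rw [hK, add_zero]
      exact h7)
    rw [hK, h4] at h8
    omega
  · obtain ⟨e, he, h3, h5⟩ := D_vok h hc hm hs hK' (by omega) (by omega) hmm (by omega) h1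
    obtain ⟨e', he', h3', h5'⟩ := B_cok h hc hm hs hK' (by omega) hmm (by omega) (by norm_num) h2
    exact ⟨⟨e, Dt m, he, h3, DV_tab (by omega), h5⟩, ⟨e', Bt m, he', h3', BV_tab (by omega), h5'⟩⟩

end Pool.Agent.QFO
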