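import Pool.Agent.QFO.HubG
import Mathlib.Combinatorics.Hall.Basic

/-!
# [QFO-GLUE] many disjoint pairs glued with opposite signs; distinct partners for the hubs
-/

set_option autoImplicit false
set_option linter.unusedSectionVars false

namespace Pool.Agent.QFO

open Finset Pool.Agent.MP_710317_co.Rec Pool.Agent.MXC

variable {V : Type*} [Fintype V] [DecidableEq V]

theorem agl_ne {W : V → V → ℤ} {y z a b : V} (ha : a ≠ y) (ha2 : a ≠ z) (hb : b ≠ y) (hb2 : b ≠ z) :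
    agl W y z a b = W a b := by
  unfold agl
  rw [if_neg (fun h => h.elim ha hb), if_neg ha2, if_neg hb2]
  ring

theorem agl_z {W : V → V → ℤ} {y z a : V} (ha : a ≠ y) (ha2 : a ≠ z) (hz : z ≠ y) :
    agl W y z a z = W a z - W a y := by
  unfold agl
  rw [if_neg (fun h => h.elim ha hz), if_neg ha2, if_pos rfl]
  ring

theorem ksum_upd (k : V → ℤ) (z : V) (w : ℤ) :
    ∑ a, (if a = z then k z + w else k a) = ∑ a, k a + w := by
  have h2 : ∀ a, (if a = z then k z + w else k a) = k a + (if a = z then w else 0) := by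
    intro a
    by_cases h3 : a = z
    · rw [if_pos h3, if_pos h3, h3]
    · rw [if_neg h3, if_neg h3, add_zero]
  rw [Finset.sum_congr rfl fun a _ => h2 a, Finset.sum_add_distrib, Finset.sum_ite_eq']
  simp

/-- [QFO-GLUE1] -/
theorem glue_many (Y : Finset V) : ∀ {W : V → V → ℤ} {k : V → ℤ} (_ : SymK W k) {s : ℤ}
    (_ : Sb W s) (φ : V → V) (_ : ∀ y ∈ Y, φ y ∉ Y) (_ : Set.InjOn φ Y) (_ : ∀ y ∈ Y, k y = 0)
    (_ : ∀ y ∈ Y, 0 ≤ W y (φ y)),
    ∃ (W' : V → V → ℤ) (k' : V → ℤ), SymK W' k' ∧ Sb W' s ∧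
      ∑ i, k' i = ∑ i, k i + ∑ y ∈ Y, W y (φ y) ∧
      (∀ a, a ∉ Y → (∀ y ∈ Y, φ y ≠ a) → k' a = k a) ∧
      (∀ a b, a ∉ Y → (∀ y ∈ Y, φ y ≠ a) → b ∉ Y → (∀ y ∈ Y, φ y ≠ b) → W' a b = W a b) ∧
      (∀ a, a ∉ Y → (∀ y ∈ Y, φ y ≠ a) → ∀ y ∈ Y, W' a (φ y) = W a (φ y) - W a y) := by
  induction Y using Finset.induction_on with
  | empty =>
    intro W k hw s hs φ _ _ _ _
    exact ⟨W, k, hw, hs, by simp, fun _ _ _ => rfl, fun _ _ _ _ _ _ => rfl,
      fun _ _ _ y hy => absurd hy (notMem_empty y)⟩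
  | insert y Y hy ih =>
    intro W k hw s hs φ hφY hφi hk hn
    have hyz : φ y ≠ y := fun h => hφY y (mem_insert_self y Y) (h.symm ▸ mem_insert_self y Y)
    have hky : k y = 0 := hk y (mem_insert_self y Y)
    have hzY : φ y ∉ Y := fun h => hφY y (mem_insert_self y Y) (mem_insert_of_mem h)
    have h1 : ∀ i ∈ Y, i ≠ y ∧ i ≠ φ y ∧ φ i ≠ y ∧ φ i ≠ φ y := by
      intro i hi
      refine ⟨fun h => hy (h ▸ hi), fun h => hzY (h ▸ hi), fun h =>
        hφY i (mem_insert_of_mem hi) (h.symm ▸ mem_insert_self y Y), fun h => ?_⟩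
      have h2 := hφi (by simpa using Or.inr hi) (by simp) h
      exact hy (h2 ▸ hi)
    have h2 : ∀ i ∈ Y, agl W y (φ y) i (φ i) = W i (φ i) := fun i hi => by
      obtain ⟨h3, h4, h5, h6⟩ := h1 i hi
      exact agl_ne h3 h4 h5 h6
    obtain ⟨W', k', hw', hs', hK, hk', hW', hz'⟩ := ih (agl_symK hw hyz.symm hky
      (hn y (mem_insert_self y Y))) (agl_Sb hw hyz.symm hky hs) φ
      (fun i hi h => hφY i (mem_insert_of_mem hi) (mem_insert_of_mem h))
      (fun a ha b hb hab => hφi (by simpa using Or.inr ha) (by simpa using Or.inr hb) hab)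
      (fun i hi => by
        simp only [if_neg (h1 i hi).2.1]
        exact hk i (mem_insert_of_mem hi))
      (fun i hi => by rw [h2 i hi]; exact hn i (mem_insert_of_mem hi))
    have hsp : ∀ a, a ∉ insert y Y → (∀ i ∈ insert y Y, φ i ≠ a) → a ≠ y ∧ a ≠ φ y ∧ a ∉ Y ∧
        ∀ i ∈ Y, φ i ≠ a := by
      intro a ha ha2
      exact ⟨fun h => ha (h ▸ mem_insert_self y Y), fun h => ha2 y (mem_insert_self y Y) h.symm,
        fun h => ha (mem_insert_of_mem h), fun i hi => ha2 i (mem_insert_of_mem hi)⟩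
    refine ⟨W', k', hw', hs', ?_, ?_, ?_, ?_⟩
    · rw [hK, ksum_upd, Finset.sum_insert hy, Finset.sum_congr rfl h2]
      ring
    · intro a ha ha2
      obtain ⟨h3, h4, h5, h6⟩ := hsp a ha ha2
      rw [hk' a h5 h6]
      simp only [if_neg h4]
    · intro a b ha ha2 hb hb2
      obtain ⟨h3, h4, h5, h6⟩ := hsp a ha ha2
      obtain ⟨h3', h4', h5', h6'⟩ := hsp b hb hb2
      rw [hW' a b h5 h6 h5' h6']
      exact agl_ne h3 h4 h3' h4'
    · intro a ha ha2 i hi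
      obtain ⟨h3, h4, h5, h6⟩ := hsp a ha ha2
      rcases mem_insert.1 hi with h7 | h7
      · rw [h7, hW' a (φ y) h5 h6 hzY (fun j hj => (h1 j hj).2.2.2)]
        exact agl_z h3 h4 hyz
      · obtain ⟨h8, h9, h10, h11⟩ := h1 i h7
        rw [hz' a h5 h6 i h7, agl_ne h3 h4 h10 h11, agl_ne h3 h4 h8 h9]

/-- disjoint pairs of opposite signs -/
theorem glue_le {W : V → V → ℤ} {k : V → ℤ} (hw : SymK W k) {s : ℤ} (hs : Sb W s) (Y : Finset V)
    (φ : V → V) (hφY : ∀ y ∈ Y, φ y ∉ Y) (hφi : Set.InjOn φ Y) (hk : ∀ y ∈ Y, k y = 0)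
    (hn : ∀ y ∈ Y, 0 ≤ W y (φ y)) : ∑ i, k i + ∑ y ∈ Y, W y (φ y) ≤ s := by
  obtain ⟨W', k', hw', hs', hK, -, -, -⟩ := glue_many Y hw hs φ hφY hφi hk hn
  have h := pair_lemma hw' hs' (C := ∅) (by simp) (by simp) (X := ∅) (by simp) id (by simp)
    (by simp) (by simp) (by simp)
  rw [hK] at h
  simp at h
  linarith

/-- Hall's theorem for finite sets -/
theorem hall {α : Type*} [DecidableEq α] (H S : Finset α) (r : α → α → Prop)
    (h : ∀ H' ⊆ H, ∃ T ⊆ S, H'.card ≤ T.card ∧ ∀ x ∈ T, ∃ b ∈ H', r b x) :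
    ∃ v : α → α, (∀ b ∈ H, v b ∈ S ∧ r b (v b)) ∧ Set.InjOn v H := by
  classical
  have h2 := (Finset.all_card_le_biUnion_card_iff_exists_injective
    (fun b : {b // b ∈ H} => S.filter fun x => r b x)).1 (by
      intro s
      obtain ⟨T, hTS, hTc, hT⟩ := h (s.image Subtype.val) (by
        intro x hx
        obtain ⟨y, _, rfl⟩ := mem_image.1 hx
        exact y.2)
      rw [Finset.card_image_of_injective _ Subtype.val_injective] at hTc
      refine hTc.trans (card_le_card ?_)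
      intro x hx
      obtain ⟨b, hb, hbx⟩ := hT x hx
      obtain ⟨y, hy, rfl⟩ := mem_image.1 hb
      exact mem_biUnion.2 ⟨y, hy, mem_filter.2 ⟨hTS hx, hbx⟩⟩)
  obtain ⟨f, hf, hfm⟩ := h2
  refine ⟨fun b => if hb : b ∈ H then f ⟨b, hb⟩ else b, fun b hb => ?_, fun a ha b hb hab => ?_⟩
  · simp only [dif_pos hb]
    exact mem_filter.1 (hfm ⟨b, hb⟩)
  · have ha' : a ∈ H := ha
    have hb' : b ∈ H := hb
    simp only [dif_pos ha', dif_pos hb'] at hab
    exact congrArg Subtype.val (hf hab)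

/-- half of a set paired with the rest -/
theorem pair_up {α : Type*} [Fintype α] [DecidableEq α] (R : Finset α) : ∃ (Y : Finset α)
    (ψ : α → α), Y ⊆ R ∧ Y.card = R.card / 2 ∧ (∀ y ∈ Y, ψ y ∈ R ∧ ψ y ∉ Y) ∧ Set.InjOn ψ Y := by
  obtain ⟨Y, hY, hYc⟩ := Finset.exists_subset_card_eq (s := R) (n := R.card / 2)
    (Nat.div_le_self _ _)
  have h1 : (R \ Y).card + Y.card = R.card := Finset.card_sdiff_add_card_eq_card hY
  obtain ⟨ψ, hψ, hψi⟩ := exists_inj (A := Y) (B := R \ Y) (by omega)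
  exact ⟨Y, ψ, hY, hYc, fun y hy => mem_sdiff.1 (hψ y hy), hψi⟩

end Pool.Agent.QFO
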