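import Pool.Agent.QFO.Closed
import Pool.Agent.MXC.TG

/-!
# [QFO-Greedy] the greedy rule: the largest member of an optimal list
-/

set_option autoImplicit false

namespace Pool.Agent.QFO.Grd

open Finset Pool.Agent.QFO Pool.Agent.MP_710317_co Pool.Agent.MP_710317_co.Rec Pool.Agent.MXC Pool.Agent.QMA

theorem two_choose (n : ℕ) : 2 * ((n.choose 2 : ℕ) : ℤ) = (n : ℤ) * (n - 1) := by
  have h2 : 2 * n.choose 2 = n * (n - 1) := by
    rw [Nat.choose_two_right, Nat.mul_div_cancel' (Nat.even_mul_pred_self n).two_dvd]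
  rcases n with _ | n
  · simp
  · have h3 : ((2 * (n + 1).choose 2 : ℕ) : ℤ) = (((n + 1) * (n + 1 - 1) : ℕ) : ℤ) := by rw [h2]
    push_cast at h3
    push_cast
    linarith

/-- a number with the largest value in a non-empty list -/
theorem exists_top : ∀ L : List ℕ, L ≠ [] → ∃ k ∈ L, ∀ a ∈ L, a ≤ k
  | [], h => absurd rfl h
  | [a], _ => ⟨a, by simp, by simp⟩
  | a :: b :: L, _ => by
    obtain ⟨k, hk, hk'⟩ := exists_top (b :: L) (by simp)
    rcases le_or_gt a k with h | h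
    · refine ⟨k, List.mem_cons_of_mem _ hk, fun c hc => ?_⟩
      rcases List.mem_cons.1 hc with rfl | hc
      · exact h
      · exact hk' c hc
    · refine ⟨a, List.mem_cons_self, fun c hc => ?_⟩
      rcases List.mem_cons.1 hc with rfl | hc
      · exact le_refl _
      · exact (hk' c hc).trans h.le

/-- the members `≤ k`: `∑ C(n,2) ≤ k ∑ ⌊n/2⌋` -/
theorem ch_le_half : ∀ (L : List ℕ) (k : ℕ), (∀ a ∈ L, a ≤ k) → chSum L ≤ k * halfSum L
  | [], k, _ => by simp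
  | a :: L, k, h => by
    have h1 := ch_le_half L k fun c hc => h c (List.mem_cons_of_mem _ hc)
    have h2 := h a List.mem_cons_self
    rw [chSum_cons, halfSum_cons, mul_add]
    have h3 : a.choose 2 ≤ a * (a / 2) := by
      have h4 : 2 * a.choose 2 = a * (a - 1) := by
        rw [Nat.choose_two_right, Nat.mul_div_cancel' (Nat.even_mul_pred_self a).two_dvd]
      have h5 : a - 1 ≤ 2 * (a / 2) := by omega
      nlinarith [Nat.mul_le_mul_left a h5]
    have h4 : a * (a / 2) ≤ k * (a / 2) := Nat.mul_le_mul_right _ h2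
    omega

/-- the numbers: no optimal list has a largest member `k < n` with `3 n ≤ 4 k` -/
theorem num_near {n k r t s : ℤ} (hn : 700 ≤ n) (hr : r ≤ n - 1) (hk : k ≤ n - 1)
    (hk2 : 3 * n ≤ 4 * k) (ht0 : 0 ≤ t) (ht : 5 * t ^ 2 ≤ 4 * r + 395) (hs0 : 0 ≤ s)
    (hs : 2 * s ≤ 2 * t + (n - k) + 1)
    (hx : 2 * r + n * (n - 1) - k * (k - 1) ≤ 2 * (s * (2 * s + 1))) : False := by
  obtain ⟨d, rfl⟩ : ∃ d, k = n - d := ⟨n - k, by ring⟩
  have hd1 : 1 ≤ d := by linarith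
  have hd4 : 4 * d ≤ n := by linarith
  have hs' : 2 * s ≤ 2 * t + d + 1 := by linarith
  have h1 : 2 * (s * (2 * s + 1)) ≤ (2 * t + d + 1) * (2 * t + d + 2) := by nlinarith
  have h2 : 2 * r + 2 * d * n - d ^ 2 - d ≤ (2 * t + d + 1) * (2 * t + d + 2) := by nlinarith
  rcases eq_or_lt_of_le hd1 with rfl | hd
  · rcases le_or_gt t 25 with h3 | h3
    · nlinarith
    · nlinarith
  · have hd2 : 2 ≤ d := hd
    have h3 : 25 * t ≤ n := by
      by_contra hcon
      push Not at hcon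
      nlinarith
    have h4 : 25 * (t * (2 * d + 3)) ≤ n * (2 * d + 3) := by nlinarith
    have h5 : 2 * d ^ 2 ≤ d * n / 2 + d * n / 2 := by
      nlinarith [Int.mul_ediv_add_emod (d * n) 2, Int.emod_nonneg (d * n) (by norm_num : (2:ℤ) ≠ 0),
        Int.emod_lt_of_pos (d * n) (by norm_num : (0:ℤ) < 2)]
    nlinarith


/-- no optimal list has a largest member `k` with `4 k < 3 n` -/
theorem num_far {n k r t c : ℤ} (hn : 700 ≤ n) (hr0 : 0 ≤ r) (hr : r ≤ n - 1)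
    (hk2 : 4 * k < 3 * n) (ht0 : 0 ≤ t) (ht : 5 * t ^ 2 ≤ 4 * r + 395)
    (hc : 2 * c ≤ n + 2 * t) (hc0 : 0 ≤ c) (hx : n * (n - 1) + 2 * r ≤ 2 * (k * c)) : False := by
  have h1 : 4 * (k * c) ≤ 3 * n * c := by nlinarith
  have h2 : 2 * (n * (n - 1) + 2 * r) ≤ 3 * n * c := by linarith
  have h3 : 6 * (n * c) ≤ 3 * n * (n + 2 * t) := by nlinarith
  have h4 : 4 * (n * (n - 1)) ≤ 3 * n * (n + 2 * t) := by nlinarith
  have h5 : 4 * (n - 1) ≤ 3 * (n + 2 * t) := by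
    by_contra hcon
    push Not at hcon
    nlinarith
  have h6 : 25 * t ≤ n := by
    by_contra hcon
    push Not at hcon
    nlinarith
  linarith

/-- an optimal list contains `a`: then the rest is optimal for `m - C(a,2)` -/
theorem opt_erase {L : List ℕ} {a : ℕ} (hL : ∀ n ∈ L, 2 ≤ n) (ha : a ∈ L) {m y : ℤ}
    (h : (chSum L : ℤ) = m + y) (hy : 0 ≤ y) (hT : T m = halfSum L + y) : 1 ≤ m ∧
    (chSum (L.erase a) : ℤ) = (m - ((a.choose 2 : ℕ) : ℤ)) + y ∧
    T (m - ((a.choose 2 : ℕ) : ℤ)) = halfSum (L.erase a) + y ∧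
    T m = ((a / 2 : ℕ) : ℤ) + T (m - ((a.choose 2 : ℕ) : ℤ)) := by
  have h1 := chSum_erase ha
  have h2 := halfSum_erase ha
  rw [h1, ← chSum_cons] at h
  rw [h2, ← halfSum_cons] at hT
  exact opt_cons (hL a ha) h hy hT

/-- **the top of an optimal list** -/
theorem top {n r : ℕ} (hn : 700 ≤ n) (hr : r < n) {L : List ℕ} {y : ℕ} (hL : ∀ a ∈ L, 2 ≤ a)
    (h : (chSum L : ℤ) = ((n.choose 2 + r : ℕ) : ℤ) + y)
    (hT : T ((n.choose 2 + r : ℕ) : ℤ) = halfSum L + y) :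
    (n ∈ L ∧ ∀ a ∈ L, a ≤ n) ∨ (L = [n + 1] ∧ y = n - r) := by
  have hc := two_choose n
  have hc1 := two_choose (n + 1)
  have hcpos : 1 ≤ n.choose 2 := Nat.choose_pos (by omega)
  have hne : L ≠ [] := by
    rintro rfl
    rw [chSum_nil] at h
    push_cast at h
    omega
  obtain ⟨k, hk, hkm⟩ := exists_top L hne
  have hk2 : 2 ≤ k := hL k hk
  have hck := two_choose k
  set m : ℤ := ((n.choose 2 + r : ℕ) : ℤ) with hm
  have hm' : m = ((n.choose 2 : ℕ) : ℤ) + r := by rw [hm]; push_cast; ring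
  -- the two upper bounds
  have hA : T m ≤ ((n / 2 : ℕ) : ℤ) + T (r : ℤ) := by
    have := T_step n m
    rwa [hm', add_sub_cancel_left, ← hm'] at this
  have hA' : T m ≤ (((n + 1) / 2 : ℕ) : ℤ) + (n - r) := by
    have h1 := T_step (n + 1) m
    rw [T_nonpos (m := m - (((n + 1).choose 2 : ℕ) : ℤ)) (by push_cast at hc1; nlinarith)] at h1
    push_cast at hc1 h1 ⊢
    nlinarith
  have ht0 := T_nonneg (r : ℤ)
  have htsq := T_sq2 r
  obtain ⟨-, e1, e2, e3⟩ := opt_erase hL hk h (Int.natCast_nonneg y) hT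
  have hch0 : (0 : ℤ) ≤ (chSum (L.erase k) : ℤ) := Int.natCast_nonneg _
  have hhf0 : (0 : ℤ) ≤ (halfSum (L.erase k) : ℤ) := Int.natCast_nonneg _
  have hy0 : (0 : ℤ) ≤ (y : ℤ) := Int.natCast_nonneg _
  rcases lt_trichotomy k n with hlt | rfl | hgt
  · exfalso
    rcases le_or_gt (3 * n) (4 * k) with hcase | hcase
    · -- near
      have hx0 : 0 ≤ m - ((k.choose 2 : ℕ) : ℤ) := by
        have : k.choose 2 ≤ n.choose 2 := Nat.choose_le_choose 2 hlt.le
        omega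
      obtain ⟨x, hx⟩ := Int.eq_ofNat_of_zero_le hx0
      have hedw := T_edw x
      rw [← hx] at hedw
      have hs0 := T_nonneg (m - ((k.choose 2 : ℕ) : ℤ))
      refine num_near (n := n) (k := k) (r := r) (t := T (r : ℤ))
        (s := T (m - ((k.choose 2 : ℕ) : ℤ))) (by exact_mod_cast hn) (by omega) (by omega)
        (by exact_mod_cast hcase) ht0 htsq hs0 (by omega) (by nlinarith)
    · -- far
      have hkc := ch_le_half L k hkm
      have hkc' : (chSum L : ℤ) ≤ k * halfSum L := by exact_mod_cast hkc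
      refine num_far (n := n) (k := k) (r := r) (t := T (r : ℤ)) (c := T m)
        (by exact_mod_cast hn) (by omega) (by omega) (by exact_mod_cast hcase) ht0 htsq
        (by omega) (T_nonneg m) ?_
      rw [hT]
      have hk1 : (1 : ℤ) ≤ k := by omega
      nlinarith
  · exact Or.inl ⟨hk, hkm⟩
  · right
    -- `k ≥ n + 1`
    have hk1 : k = n + 1 := by
      by_contra hcon
      have hk3 : n + 2 ≤ k := by omega
      have h5 : (n + 2).choose 2 ≤ k.choose 2 := Nat.choose_le_choose 2 hk3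
      have h6 := two_choose (n + 2)
      have h7 : (((n + 2).choose 2 : ℕ) : ℤ) ≤ ((k.choose 2 : ℕ) : ℤ) := by exact_mod_cast h5
      have h8 : ((n / 2 : ℕ) : ℤ) + 1 ≤ ((k / 2 : ℕ) : ℤ) := by omega
      have h9 : (((n + 1) / 2 : ℕ) : ℤ) ≤ ((n / 2 : ℕ) : ℤ) + 1 := by omega
      push_cast at h6 hc1
      have h10 : (n : ℤ) ≥ 700 := by exact_mod_cast hn
      have h11 : (r : ℤ) ≤ n := by exact_mod_cast hr.le
      have h12 : (0 : ℤ) ≤ r := Int.natCast_nonneg _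
      have h13 : T m ≥ ((k / 2 : ℕ) : ℤ) + y := by linarith
      have h14 : (y : ℤ) = chSum (L.erase k) + ((k.choose 2 : ℕ) : ℤ) - m := by linarith
      have h15 : (((n + 2).choose 2 : ℕ) : ℤ) = ((n.choose 2 : ℕ) : ℤ) + (2 * n + 1) := by linarith
      linarith
    subst hk1
    have h9 : ((L.erase (n + 1)).length = 0) := by
      by_contra hcon
      obtain ⟨b, hb⟩ := List.exists_mem_of_length_pos (Nat.pos_of_ne_zero hcon)
      have hb2 : 2 ≤ b := hL b (List.mem_of_mem_erase hb)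
      have h10 := chSum_erase hb
      have h11 : 1 ≤ b.choose 2 := Nat.choose_pos hb2
      have h12 : (1 : ℤ) ≤ chSum (L.erase (n + 1)) := by omega
      push_cast at hc1
      have h13 : (((n + 1).choose 2 : ℕ) : ℤ) = ((n.choose 2 : ℕ) : ℤ) + n := by linarith
      linarith
    have h10 : L.erase (n + 1) = [] := List.length_eq_zero_iff.1 h9
    have h11 : L.length = 1 := by
      have := List.length_erase_of_mem hk
      have h12 : 0 < L.length := List.length_pos_of_mem hk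
      omega
    obtain ⟨b, hb⟩ := List.length_eq_one_iff.1 h11
    rw [hb] at hk
    have hb' : n + 1 = b := by simpa using hk
    subst hb'
    refine ⟨hb, ?_⟩
    rw [h10, chSum_nil] at e1
    push_cast at e1 hc1
    have h13 : (((n + 1).choose 2 : ℕ) : ℤ) = ((n.choose 2 : ℕ) : ℤ) + n := by linarith
    have : (y : ℤ) = (n : ℤ) - r := by linarith
    omega

/-- the value of `D` for the top `n` -/
noncomputable def dn (n r : ℕ) : ℤ := if Even n then Df r else ((n / 2 : ℕ) : ℤ) - Bf r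

/-- the value of `B` for the top `n` -/
noncomputable def bn (n r : ℕ) : ℤ := if Even n then Bf r else ((n / 2 : ℕ) : ℤ) + Bf r

/-- the value of `D` for the top `n + 1` -/
def dn' (n r : ℕ) : ℤ := if Even n then ((n / 2 : ℕ) : ℤ) - (n - r) else n - r

/-- the value of `B` for the top `n + 1` -/
def bn' (n r : ℕ) : ℤ := if Even n then ((n / 2 : ℕ) : ℤ) + (n - r) else n - r

section

variable {n r : ℕ}

theorem gm_sub (n r : ℕ) : ((n.choose 2 + r : ℕ) : ℤ) - ((n.choose 2 : ℕ) : ℤ) = r := by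
  push_cast; ring

theorem gm_sub' (n r : ℕ) :
    ((n.choose 2 + r : ℕ) : ℤ) - (((n + 1).choose 2 : ℕ) : ℤ) = (r : ℤ) - n := by
  have h1 := two_choose n
  have h2 := two_choose (n + 1)
  push_cast at h2 ⊢
  linarith

theorem bn_ge (hn : 2 ≤ n)
    (h : T ((n.choose 2 + r : ℕ) : ℤ) = ((n / 2 : ℕ) : ℤ) + T (r : ℤ)) :
    Bf ((n.choose 2 + r : ℕ) : ℤ) ≤ bn n r := by
  have h1 : T ((n.choose 2 + r : ℕ) : ℤ) =
      ((n / 2 : ℕ) : ℤ) + T (((n.choose 2 + r : ℕ) : ℤ) - ((n.choose 2 : ℕ) : ℤ)) := by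
    rw [gm_sub]; exact h
  have h2 : BV (((n.choose 2 + r : ℕ) : ℤ) - ((n.choose 2 : ℕ) : ℤ)) (Bf r) := by
    rw [gm_sub]; exact Bf_mem _
  unfold bn
  split_ifs with hp
  · exact Bf_le (BV_even hn (Nat.even_iff.1 hp) h1 h2)
  · exact Bf_le (BV_odd hn (Nat.odd_iff.1 (Nat.not_even_iff_odd.1 hp)) h1 h2)

theorem bn'_ge (hn : 1 ≤ n) (hr : r < n)
    (h : T ((n.choose 2 + r : ℕ) : ℤ) = (((n + 1) / 2 : ℕ) : ℤ) + (n - r)) :
    Bf ((n.choose 2 + r : ℕ) : ℤ) ≤ bn' n r := by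
  have h0 : (r : ℤ) - n ≤ 0 := by omega
  have h1 : T ((n.choose 2 + r : ℕ) : ℤ) =
      (((n + 1) / 2 : ℕ) : ℤ) + T (((n.choose 2 + r : ℕ) : ℤ) - (((n + 1).choose 2 : ℕ) : ℤ)) := by
    rw [gm_sub', T_nonpos h0, h]; ring
  have h2 : BV (((n.choose 2 + r : ℕ) : ℤ) - (((n + 1).choose 2 : ℕ) : ℤ)) ((n : ℤ) - r) := by
    rw [gm_sub']; exact Or.inr ⟨h0, by ring⟩
  unfold bn'
  split_ifs with hp
  · have h3 : (n + 1) % 2 = 1 := by have := Nat.even_iff.1 hp; omega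
    have h4 := Bf_le (BV_odd (by omega) h3 h1 h2)
    have h5 : (n + 1) / 2 = n / 2 := by omega
    rwa [h5] at h4
  · have h3 : (n + 1) % 2 = 0 := by have := Nat.odd_iff.1 (Nat.not_even_iff_odd.1 hp); omega
    exact Bf_le (BV_even (by omega) h3 h1 h2)

theorem dn_le (hQ : ∀ m : ℤ, QD m) (hn : 2 ≤ n)
    (h : T ((n.choose 2 + r : ℕ) : ℤ) = ((n / 2 : ℕ) : ℤ) + T (r : ℤ)) :
    dn n r ≤ Df ((n.choose 2 + r : ℕ) : ℤ) := by
  have h1 : T ((n.choose 2 + r : ℕ) : ℤ) =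
      ((n / 2 : ℕ) : ℤ) + T (((n.choose 2 + r : ℕ) : ℤ) - ((n.choose 2 : ℕ) : ℤ)) := by
    rw [gm_sub]; exact h
  unfold dn
  split_ifs with hp
  · refine le_Df (DV_even hn (Nat.even_iff.1 hp) h1 ?_)
    rw [gm_sub]; exact Df_mem hQ _
  · have h2 : BV (((n.choose 2 + r : ℕ) : ℤ) - ((n.choose 2 : ℕ) : ℤ)) (Bf r) := by
      rw [gm_sub]; exact Bf_mem _
    have h3 := Nat.odd_iff.1 (Nat.not_even_iff_odd.1 hp)
    rcases le_or_gt 0 (((n / 2 : ℕ) : ℤ) - Bf r) with h4 | h4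
    · exact le_Df (DV_odd hn h3 h1 h2 (by omega) h4)
    · exact h4.le.trans (DV_nonneg (Df_mem hQ _))

theorem dn'_le (hQ : ∀ m : ℤ, QD m) (hn : 1 ≤ n) (hr : r < n)
    (h : T ((n.choose 2 + r : ℕ) : ℤ) = (((n + 1) / 2 : ℕ) : ℤ) + (n - r)) :
    dn' n r ≤ Df ((n.choose 2 + r : ℕ) : ℤ) := by
  have h0 : (r : ℤ) - n ≤ 0 := by omega
  have h1 : T ((n.choose 2 + r : ℕ) : ℤ) =
      (((n + 1) / 2 : ℕ) : ℤ) + T (((n.choose 2 + r : ℕ) : ℤ) - (((n + 1).choose 2 : ℕ) : ℤ)) := by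
    rw [gm_sub', T_nonpos h0, h]; ring
  have h2 : BV (((n.choose 2 + r : ℕ) : ℤ) - (((n + 1).choose 2 : ℕ) : ℤ)) ((n : ℤ) - r) := by
    rw [gm_sub']; exact Or.inr ⟨h0, by ring⟩
  have h2' : DV (((n.choose 2 + r : ℕ) : ℤ) - (((n + 1).choose 2 : ℕ) : ℤ)) ((n : ℤ) - r) := by
    rw [gm_sub']; exact Or.inr ⟨h0, by ring⟩
  unfold dn'
  split_ifs with hp
  · have h3 : (n + 1) % 2 = 1 := by have := Nat.even_iff.1 hp; omega
    rcases le_or_gt 0 (((n / 2 : ℕ) : ℤ) - (n - r)) with h4 | h4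
    · refine le_Df (DV_odd (by omega) h3 h1 h2 ?_ h4)
      have := Nat.even_iff.1 hp
      push_cast
      omega
    · exact h4.le.trans (DV_nonneg (Df_mem hQ _))
  · have h3 : (n + 1) % 2 = 0 := by have := Nat.odd_iff.1 (Nat.not_even_iff_odd.1 hp); omega
    exact le_Df (DV_even (by omega) h3 h1 h2')

/-- the top of a list, in terms of `T` -/
theorem top_T (hn : 700 ≤ n) (hr : r < n) {L : List ℕ} {y : ℕ} (hL : ∀ a ∈ L, 2 ≤ a)
    (h : (chSum L : ℤ) = ((n.choose 2 + r : ℕ) : ℤ) + y)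
    (hT : T ((n.choose 2 + r : ℕ) : ℤ) = halfSum L + y) :
    (n ∈ L ∧ (∀ a ∈ L, a ≤ n) ∧ T ((n.choose 2 + r : ℕ) : ℤ) = ((n / 2 : ℕ) : ℤ) + T (r : ℤ) ∧
      (chSum (L.erase n) : ℤ) = r + y ∧ T (r : ℤ) = halfSum (L.erase n) + y) ∨
    (L = [n + 1] ∧ y = n - r ∧
      T ((n.choose 2 + r : ℕ) : ℤ) = (((n + 1) / 2 : ℕ) : ℤ) + (n - r)) := by
  rcases top hn hr hL h hT with ⟨h1, h2⟩ | ⟨h1, h2⟩
  · obtain ⟨-, h3, h4, h5⟩ := opt_erase hL h1 h (Int.natCast_nonneg y) hT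
    rw [gm_sub] at h3 h4 h5
    exact Or.inl ⟨h1, h2, h5, h3, h4⟩
  · refine Or.inr ⟨h1, h2, ?_⟩
    rw [hT, h1, h2]
    simp only [halfSum, List.map_cons, List.map_nil, List.sum_cons, List.sum_nil, add_zero]
    rw [Nat.cast_sub hr.le]

theorem bn_cases (hn : 700 ≤ n) (hr : r < n) :
    (T ((n.choose 2 + r : ℕ) : ℤ) = ((n / 2 : ℕ) : ℤ) + T (r : ℤ) ∧
      bn n r ≤ Bf ((n.choose 2 + r : ℕ) : ℤ)) ∨
    (T ((n.choose 2 + r : ℕ) : ℤ) = (((n + 1) / 2 : ℕ) : ℤ) + (n - r) ∧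
      bn' n r ≤ Bf ((n.choose 2 + r : ℕ) : ℤ)) := by
  obtain ⟨L, y, hL, h1, h2, h3⟩ := list_of_BV (n.choose 2 + r) (le_refl _)
    (Bf_mem ((n.choose 2 + r : ℕ) : ℤ))
  rcases top_T hn hr hL h1 h2 with ⟨h4, -, h5, h6, h7⟩ | ⟨rfl, h4, h5⟩
  · refine Or.inl ⟨h5, ?_⟩
    have h8 := Bf_le (BV_of_list (L.erase n) r y (fun a ha => hL a (List.mem_of_mem_erase ha)) h6
      (Int.natCast_nonneg y) h7)
    rw [h3]
    unfold bn
    split_ifs with hp
    · have h9 : oddSum L = oddSum (L.erase n) := by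
        rw [← oddSum_cons_even hp (L.erase n)]
        unfold oddSum
        exact List.Perm.sum_eq ((List.perm_cons_erase h4).map _)
      rw [h9]
      exact h8
    · rw [oddSum_erase h4 (Nat.not_even_iff_odd.1 hp)]
      push_cast at h8 ⊢
      linarith
  · refine Or.inr ⟨h5, ?_⟩
    rw [h3]
    unfold bn'
    split_ifs with hp
    · have h6 : Odd (n + 1) := Even.add_one hp
      have h7 : (n + 1) / 2 = n / 2 := by have := Nat.even_iff.1 hp; omega
      rw [oddSum_cons_odd h6, oddSum_nil, h7, h4, Nat.cast_sub hr.le]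
      push_cast
      linarith
    · have h6 : Even (n + 1) := Odd.add_one (Nat.not_even_iff_odd.1 hp)
      rw [oddSum_cons_even h6, oddSum_nil, h4, Nat.cast_sub hr.le]
      push_cast
      linarith

theorem dn_cases (hQ : ∀ m : ℤ, QD m) (hn : 700 ≤ n) (hr : r < n) :
    (T ((n.choose 2 + r : ℕ) : ℤ) = ((n / 2 : ℕ) : ℤ) + T (r : ℤ) ∧
      Df ((n.choose 2 + r : ℕ) : ℤ) ≤ dn n r) ∨
    (T ((n.choose 2 + r : ℕ) : ℤ) = (((n + 1) / 2 : ℕ) : ℤ) + (n - r) ∧
      Df ((n.choose 2 + r : ℕ) : ℤ) ≤ dn' n r) := by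
  have hg := D_closed hQ (r : ℤ)
  rcases DNum_of_DV (n.choose 2 + r) (le_refl _) (Df_mem hQ ((n.choose 2 + r : ℕ) : ℤ)) with
    ⟨L, y, hL, h1, h2, h3⟩ | ⟨h0, L, hL, h1, h2⟩
  · rcases top_T hn hr hL h1 h2 with ⟨h4, h4', h5, h6, h7⟩ | ⟨rfl, h4, h5⟩
    · refine Or.inl ⟨h5, ?_⟩
      have hL' : ∀ a ∈ L.erase n, 2 ≤ a := fun a ha => hL a (List.mem_of_mem_erase ha)
      unfold dn
      split_ifs with hp
      · have h9 : oddSum L = oddSum (L.erase n) := by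
          rw [← oddSum_cons_even hp (L.erase n)]
          unfold oddSum
          exact List.Perm.sum_eq ((List.perm_cons_erase h4).map _)
        rcases h3 with ⟨h3, h8⟩ | ⟨a, ha, ho, h8⟩
        · rw [h8]
          exact hg.2 (Or.inl ⟨L.erase n, y, hL', h6, h7,
            Or.inl ⟨fun a ha => h3 a (List.mem_of_mem_erase ha), rfl⟩⟩)
        · rw [h8, h9]
          refine hg.2 (Or.inl ⟨L.erase n, y, hL', h6, h7, Or.inr ⟨a, ?_, ho, rfl⟩⟩)
          refine (List.mem_erase_of_ne ?_).2 ha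
          rintro rfl
          exact Nat.not_even_iff_odd.2 ho hp
      · have ho := Nat.not_even_iff_odd.1 hp
        have h8 := Bf_le (BV_of_list (L.erase n) r y hL' h6 (Int.natCast_nonneg y) h7)
        rcases h3 with ⟨h3, -⟩ | ⟨a, ha, -, h9⟩
        · exact absurd (h3 n h4) hp
        · rw [h9, oddSum_erase h4 ho]
          have h10 := h4' a ha
          have h11 := Nat.odd_iff.1 ho
          push_cast at h8 ⊢
          omega
    · refine Or.inr ⟨h5, ?_⟩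
      unfold dn'
      split_ifs with hp
      · have h6 : Odd (n + 1) := Even.add_one hp
        have h7 : (n + 1) / 2 = n / 2 := by have := Nat.even_iff.1 hp; omega
        rcases h3 with ⟨h3, -⟩ | ⟨a, ha, -, h9⟩
        · exact absurd (h3 (n + 1) (by simp)) (Nat.not_even_iff_odd.2 h6)
        · have ha' : a = n + 1 := by simpa using ha
          have h8 := Nat.even_iff.1 hp
          rw [h9, oddSum_cons_odd h6, oddSum_nil, h7, h4, ha', Nat.cast_sub hr.le]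
          push_cast
          omega
      · have h6 : Even (n + 1) := Odd.add_one (Nat.not_even_iff_odd.1 hp)
        rcases h3 with ⟨-, h8⟩ | ⟨a, ha, ho, -⟩
        · rw [h8, h4, Nat.cast_sub hr.le]
        · have ha' : a = n + 1 := by simpa using ha
          rw [ha'] at ho
          exact absurd h6 (Nat.not_even_iff_odd.2 ho)
  · -- the alternative `8`
    have h3 : (chSum (4 :: 2 :: 2 :: L) : ℤ) = ((n.choose 2 + r : ℕ) : ℤ) + ((0 : ℕ) : ℤ) := by
      have e : chSum (4 :: 2 :: 2 :: L) = 8 + chSum L := by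
        rw [chSum_cons, chSum_cons, chSum_cons]
        have : Nat.choose 4 2 = 6 := by decide
        have : Nat.choose 2 2 = 1 := by decide
        omega
      rw [e, ← h1]
      push_cast
      ring
    have h4 : T ((n.choose 2 + r : ℕ) : ℤ) = halfSum (4 :: 2 :: 2 :: L) + ((0 : ℕ) : ℤ) := by
      have e : halfSum (4 :: 2 :: 2 :: L) = 4 + halfSum L := by
        rw [halfSum_cons, halfSum_cons, halfSum_cons]
        omega
      rw [e, h2]
      push_cast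
      ring
    have hL2 : ∀ a ∈ 4 :: 2 :: 2 :: L, 2 ≤ a := by
      intro a ha
      simp only [List.mem_cons] at ha
      rcases ha with rfl | rfl | rfl | ha
      · omega
      · omega
      · omega
      · exact (hL a ha).1
    rcases top_T hn hr hL2 h3 h4 with ⟨h5, -, h6, -, -⟩ | ⟨h5, -⟩
    · refine Or.inl ⟨h6, ?_⟩
      have h7 : n ∈ L := by
        simp only [List.mem_cons] at h5
        rcases h5 with h5 | h5 | h5 | h5
        · omega
        · omega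
        · omega
        · exact h5
      have hp : Even n := (hL n h7).2
      unfold dn
      rw [if_pos hp]
      have h8 := chSum_erase h7
      have h9 := halfSum_erase h7
      refine hg.2 (Or.inr ⟨h0, L.erase n, fun a ha => hL a (List.mem_of_mem_erase ha), ?_, ?_⟩)
      · rw [h8] at h1
        push_cast at h1
        linarith
      · rw [h9] at h2
        rw [h2] at h6
        push_cast at h6
        linarith
    · have := congrArg List.length h5
      simp at this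

/-- the greedy rule -/
theorem greedy_aux (hQ : ∀ m : ℤ, QD m) (hn : 700 ≤ n) (hr : r < n) :
    T ((n.choose 2 + r : ℕ) : ℤ) =
      min (((n / 2 : ℕ) : ℤ) + T (r : ℤ)) ((((n + 1) / 2 : ℕ) : ℤ) + (n - r)) ∧
    (((n / 2 : ℕ) : ℤ) + T (r : ℤ) < (((n + 1) / 2 : ℕ) : ℤ) + (n - r) →
      Df ((n.choose 2 + r : ℕ) : ℤ) = dn n r ∧ Bf ((n.choose 2 + r : ℕ) : ℤ) = bn n r) ∧
    ((((n + 1) / 2 : ℕ) : ℤ) + (n - r) < ((n / 2 : ℕ) : ℤ) + T (r : ℤ) →
      Df ((n.choose 2 + r : ℕ) : ℤ) = dn' n r ∧ Bf ((n.choose 2 + r : ℕ) : ℤ) = bn' n r) ∧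
    (((n / 2 : ℕ) : ℤ) + T (r : ℤ) = (((n + 1) / 2 : ℕ) : ℤ) + (n - r) →
      Df ((n.choose 2 + r : ℕ) : ℤ) = max (dn n r) (dn' n r) ∧
      Bf ((n.choose 2 + r : ℕ) : ℤ) = min (bn n r) (bn' n r)) := by
  have hB := bn_cases hn hr
  have hD := dn_cases hQ hn hr
  have hA : T ((n.choose 2 + r : ℕ) : ℤ) ≤ ((n / 2 : ℕ) : ℤ) + T (r : ℤ) := by
    have := T_step n ((n.choose 2 + r : ℕ) : ℤ)
    rwa [gm_sub] at this
  have hA' : T ((n.choose 2 + r : ℕ) : ℤ) ≤ (((n + 1) / 2 : ℕ) : ℤ) + (n - r) := by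
    have := T_step (n + 1) ((n.choose 2 + r : ℕ) : ℤ)
    rw [gm_sub', T_nonpos (m := (r : ℤ) - n) (by omega)] at this
    linarith
  have hn2 : 2 ≤ n := by omega
  refine ⟨?_, fun h => ?_, fun h => ?_, fun h => ?_⟩
  · rcases hB with ⟨h1, -⟩ | ⟨h1, -⟩
    · rw [h1] at hA' ⊢
      exact (min_eq_left hA').symm
    · rw [h1] at hA ⊢
      exact (min_eq_right hA).symm
  · have h0 : T ((n.choose 2 + r : ℕ) : ℤ) = ((n / 2 : ℕ) : ℤ) + T (r : ℤ) := by
      rcases hB with ⟨h1, -⟩ | ⟨h1, -⟩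
      · exact h1
      · rw [h1] at hA; exact absurd h (not_lt.2 hA)
    refine ⟨le_antisymm ?_ (dn_le hQ hn2 h0), le_antisymm (bn_ge hn2 h0) ?_⟩
    · rcases hD with ⟨-, h1⟩ | ⟨h1, -⟩
      · exact h1
      · rw [h1] at h0; exact absurd h0 h.ne'
    · rcases hB with ⟨-, h1⟩ | ⟨h1, -⟩
      · exact h1
      · rw [h1] at h0; exact absurd h0 h.ne'
  · have h0 : T ((n.choose 2 + r : ℕ) : ℤ) = (((n + 1) / 2 : ℕ) : ℤ) + (n - r) := by
      rcases hB with ⟨h1, -⟩ | ⟨h1, -⟩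
      · rw [h1] at hA'; exact absurd h (not_lt.2 hA')
      · exact h1
    refine ⟨le_antisymm ?_ (dn'_le hQ (by omega) hr h0),
      le_antisymm (bn'_ge (by omega) hr h0) ?_⟩
    · rcases hD with ⟨h1, -⟩ | ⟨-, h1⟩
      · rw [h1] at h0; exact absurd h0 h.ne'
      · exact h1
    · rcases hB with ⟨h1, -⟩ | ⟨-, h1⟩
      · rw [h1] at h0; exact absurd h0 h.ne'
      · exact h1
  · have h0 : T ((n.choose 2 + r : ℕ) : ℤ) = ((n / 2 : ℕ) : ℤ) + T (r : ℤ) := by
      rcases hB with ⟨h1, -⟩ | ⟨h1, -⟩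
      · exact h1
      · rw [h1, h]
    have h0' : T ((n.choose 2 + r : ℕ) : ℤ) = (((n + 1) / 2 : ℕ) : ℤ) + (n - r) := by rw [h0, h]
    refine ⟨le_antisymm ?_ (max_le (dn_le hQ hn2 h0) (dn'_le hQ (by omega) hr h0')),
      le_antisymm (le_min (bn_ge hn2 h0) (bn'_ge (by omega) hr h0')) ?_⟩
    · rcases hD with ⟨-, h1⟩ | ⟨-, h1⟩
      · exact h1.trans (le_max_left _ _)
      · exact h1.trans (le_max_right _ _)
    · rcases hB with ⟨-, h1⟩ | ⟨-, h1⟩
      · exact (min_le_left _ _).trans h1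
      · exact (min_le_right _ _).trans h1

end

/-- The greedy rule at `m = C(n,2) + r`: only `n` and `n + 1` have to be considered. With
`A = ⌊n/2⌋ + T(r)` and `A' = ⌊(n+1)/2⌋ + (n - r)`: `T(m) = min A A'`, and `D(m)`, `B(m)` are given by the
rule for `n` if `A < A'`, by the rule for `n + 1` if `A' < A`, and are the larger (smaller) one of the
two values if `A = A'`. -/
structure GreedyAt (T D B : ℤ → ℤ) (n r : ℕ) : Prop where
  /-- the value of `T` -/
  T_eq : T ((n.choose 2 + r : ℕ) : ℤ) =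
    min (((n / 2 : ℕ) : ℤ) + T r) ((((n + 1) / 2 : ℕ) : ℤ) + (n - r))
  /-- `A < A'`, `n` even -/
  lt_even : ((n / 2 : ℕ) : ℤ) + T r < (((n + 1) / 2 : ℕ) : ℤ) + (n - r) → Even n →
    D ((n.choose 2 + r : ℕ) : ℤ) = D r ∧ B ((n.choose 2 + r : ℕ) : ℤ) = B r
  /-- `A < A'`, `n` odd -/
  lt_odd : ((n / 2 : ℕ) : ℤ) + T r < (((n + 1) / 2 : ℕ) : ℤ) + (n - r) → Odd n →
    D ((n.choose 2 + r : ℕ) : ℤ) = ((n / 2 : ℕ) : ℤ) - B r ∧
    B ((n.choose 2 + r : ℕ) : ℤ) = ((n / 2 : ℕ) : ℤ) + B r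
  /-- `A' < A`, `n` even -/
  gt_even : (((n + 1) / 2 : ℕ) : ℤ) + (n - r) < ((n / 2 : ℕ) : ℤ) + T r → Even n →
    D ((n.choose 2 + r : ℕ) : ℤ) = ((n / 2 : ℕ) : ℤ) - (n - r) ∧
    B ((n.choose 2 + r : ℕ) : ℤ) = ((n / 2 : ℕ) : ℤ) + (n - r)
  /-- `A' < A`, `n` odd -/
  gt_odd : (((n + 1) / 2 : ℕ) : ℤ) + (n - r) < ((n / 2 : ℕ) : ℤ) + T r → Odd n →
    D ((n.choose 2 + r : ℕ) : ℤ) = n - r ∧ B ((n.choose 2 + r : ℕ) : ℤ) = n - r
  /-- `A = A'`, `n` even -/
  eq_even : ((n / 2 : ℕ) : ℤ) + T r = (((n + 1) / 2 : ℕ) : ℤ) + (n - r) → Even n →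
    D ((n.choose 2 + r : ℕ) : ℤ) = max (D r) (((n / 2 : ℕ) : ℤ) - (n - r)) ∧
    B ((n.choose 2 + r : ℕ) : ℤ) = min (B r) (((n / 2 : ℕ) : ℤ) + (n - r))
  /-- `A = A'`, `n` odd -/
  eq_odd : ((n / 2 : ℕ) : ℤ) + T r = (((n + 1) / 2 : ℕ) : ℤ) + (n - r) → Odd n →
    D ((n.choose 2 + r : ℕ) : ℤ) = max (((n / 2 : ℕ) : ℤ) - B r) (n - r) ∧
    B ((n.choose 2 + r : ℕ) : ℤ) = min (((n / 2 : ℕ) : ℤ) + B r) (n - r)

theorem greedyAt (hQ : ∀ m : ℤ, QD m) {n r : ℕ} (hn : 700 ≤ n) (hr : r < n) :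
    GreedyAt T Df Bf n r := by
  obtain ⟨h1, h2, h3, h4⟩ := greedy_aux hQ hn hr
  constructor
  · exact h1
  · intro h hp
    have := h2 h
    simpa only [dn, bn, if_pos hp] using this
  · intro h ho
    have := h2 h
    simpa only [dn, bn, if_neg (Nat.not_even_iff_odd.2 ho)] using this
  · intro h hp
    have := h3 h
    simpa only [dn', bn', if_pos hp] using this
  · intro h ho
    have := h3 h
    simpa only [dn', bn', if_neg (Nat.not_even_iff_odd.2 ho)] using this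
  · intro h hp
    have := h4 h
    simpa only [dn, bn, dn', bn', if_pos hp] using this
  · intro h ho
    have := h4 h
    simpa only [dn, bn, dn', bn', if_neg (Nat.not_even_iff_odd.2 ho)] using this

end Pool.Agent.QFO.Grd
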