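import Pool.Agent.QFO.HMain

/-!
# [QFO-HA] the case (A) of [F-19.4]
-/

set_option autoImplicit false
set_option linter.unusedSectionVars false

namespace Pool.Agent.QFO

open Finset Pool.Agent.MP_710317_co.Rec Pool.Agent.MXC

/-- [QFO-HA1] two one-element classes without loops which have weight at most one to all classes of `J`
outside `F`, `2 |F| + 2 ≤ |S ∪ J|` -/
theorem hub_A {V : Type} [Fintype V] [DecidableEq V] {W : V → V → ℤ} {k : V → ℤ}
    (h : OO W k) {N : ℕ} {f : V → Fin N} (hc : Col W f) {m : ℕ}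
    (hm : inn W univ = 2 * (m : ℤ)) (hs : Sb W (T m)) (hN : T (m : ℤ) < N)
    (ih : ∀ r : ℤ, r < m → QD r ∧ QB r) {S J : Finset (Fin N)}
    (hS : ∀ a, a ∈ S ↔ (∀ v, f v = a → k v = 0) ∧ (cls f a).card = 1)
    (hJ : ∀ a, a ∈ J ↔ (∀ v, f v = a → k v = 0) ∧ 2 ≤ (cls f a).card)
    {F : Finset (Fin N)} (hFJ : F ⊆ J) (hFc : 2 * F.card + 2 ≤ (S ∪ J).card)
    {i i' : Fin N} (hi : i ∈ S) (hi' : i' ∈ S) (hii : i ≠ i')
    (h1 : ∀ l ∈ J, l ∉ F → push W f i l ≤ 1) (h2 : ∀ l ∈ J, l ∉ F → push W f i' l ≤ 1) :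
    HasD W m ∧ HasB W m := by
  classical
  have hw : SymK W k := h.toSymK
  have hu : ∀ a, a ∈ unl k f ↔ ∀ v, f v = a → k v = 0 := by
    intro a
    unfold unl
    rw [mem_filter, Finset.sum_eq_zero_iff_of_nonneg fun x _ => hw.knn x]
    constructor
    · rintro ⟨-, h3⟩ v hv
      exact h3 v (mem_cls.2 hv)
    · intro h3
      exact ⟨mem_univ a, fun v hv => h3 v (mem_cls.1 hv)⟩
  have hSJ : unl k f = S ∪ J := by
    ext a
    rw [hu, mem_union, hS, hJ]
    have h3 : 1 ≤ (cls f a).card := Finset.card_pos.2 (cls_nonempty hc a)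
    constructor
    · intro h4
      rcases Nat.lt_or_ge (cls f a).card 2 with h5 | h5
      · exact Or.inl ⟨h4, by omega⟩
      · exact Or.inr ⟨h4, h5⟩
    · rintro (h4 | h4) <;> exact h4.1
  obtain ⟨hik, x, hx⟩ := (by
    obtain ⟨h3, h4⟩ := (hS i).1 hi
    exact ⟨h3, Finset.card_eq_one.1 h4⟩ : (∀ v, f v = i → k v = 0) ∧ ∃ x, cls f i = {x})
  obtain ⟨hik', x', hx'⟩ := (by
    obtain ⟨h3, h4⟩ := (hS i').1 hi'
    exact ⟨h3, Finset.card_eq_one.1 h4⟩ : (∀ v, f v = i' → k v = 0) ∧ ∃ x, cls f i' = {x})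
  have hfx : f x = i := mem_cls.1 (by rw [hx]; exact mem_singleton_self x)
  have hfx' : f x' = i' := mem_cls.1 (by rw [hx']; exact mem_singleton_self x')
  have hxx : x ≠ x' := fun h3 => hii (by rw [← hfx, ← hfx', h3])
  have hSF : ∀ a ∈ S, a ∉ F := by
    intro a ha haF
    have h3 := ((hS a).1 ha).2
    have h4 := ((hJ a).1 (hFJ haF)).2
    omega
  have key : ∀ (i : Fin N) (x : V), i ∈ S → cls f i = {x} → f x = i →
      (∀ l ∈ J, l ∉ F → push W f i l ≤ 1) →
      ∀ b ∈ unl k f, b ∉ F → b ≠ f x → ∑ y ∈ cls f b, W x y ≤ 1 := by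
    intro i x hi hx hfx h3 b hb hbF hbx
    rw [hSJ, mem_union] at hb
    rcases hb with hb | hb
    · obtain ⟨h4, h5⟩ := (hS b).1 hb
      obtain ⟨y, hy⟩ := Finset.card_eq_one.1 h5
      have hfy : f y = b := mem_cls.1 (by rw [hy]; exact mem_singleton_self y)
      rw [hy, sum_singleton]
      have h6 := h.le x y (fun h' => hbx (by rw [← hfy, h']))
      rw [((hS i).1 hi).1 x hfx, h4 y hfy] at h6
      linarith
    · have h4 := h3 b hb hbF
      rw [push_eq, hx, sum_singleton] at h4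
      exact h4
  refine hub_main h hc hm hs hN ih (F := F) (by rw [hSJ]; exact hFJ.trans subset_union_right)
    (by rw [hSJ]; exact hFc) (X := {x, x'}) (by rw [Finset.card_pair hxx]) ?_ ?_ ?_ ?_
  · intro y hy
    rcases mem_insert.1 hy with h3 | h3
    · rw [h3, hfx, hx]
    · rw [mem_singleton.1 h3, hfx', hx']
  · intro y hy
    rcases mem_insert.1 hy with h3 | h3
    · rw [h3]; exact hik x hfx
    · rw [mem_singleton.1 h3]; exact hik' x' hfx'
  · intro y hy
    rcases mem_insert.1 hy with h3 | h3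
    · rw [h3, hfx]; exact hSF i hi
    · rw [mem_singleton.1 h3, hfx']; exact hSF i' hi'
  · intro y hy
    rcases mem_insert.1 hy with h3 | h3
    · rw [h3]; exact key i x hi hx hfx h1
    · rw [mem_singleton.1 h3]; exact key i' x' hi' hx' hfx' h2

end Pool.Agent.QFO
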