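import Pool.Agent.QFO.HubG
import Pool.Agent.QFO.Skel
import Pool.Agent.QFO.Cap

/-!
# [QFO-HCLQ] a large complete set of vertices of large degree gives the step
-/

set_option autoImplicit false
set_option linter.unusedSectionVars false

namespace Pool.Agent.QFO

open Finset Pool.Agent.MP_710317_co.Rec Pool.Agent.MXC

section

variable {V : Type*} [Fintype V] [DecidableEq V]

/-- [QFO-HCLQ1] the twins of a large complete set -/
theorem clique_R1C {W : V → V → ℤ} {k : V → ℤ} (h : OO W k) {s : ℤ} (hs : Sb W s)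
    {C : Finset V} (h1 : ∀ i ∈ C, ∀ j ∈ C, i ≠ j → W i j = 1) (hk : ∀ i ∈ C, k i = 0)
    (hbig : s - ∑ i, k i < C.card) :
    ∃ u ∈ C, ∃ (c : V → ℤ) (n : ℕ), (∀ i, 0 ≤ c i) ∧ Tw W k c (rcl W C u) ∧ ∑ i, c i = n ∧
      n + n % 2 ≤ 2 * (rcl W C u).card := by
  classical
  have hw : SymK W k := h.toSymK
  have key : ∃ u ∈ C, (C.card : ℤ) + 1 ≤ 2 * (rcl W C u).card := by
    have fin : ∀ L ⊆ C, (C.card : ℤ) + 1 ≤ 2 * L.card →
        (∀ i ∈ L, ∀ j ∈ L, ∀ z, z ∉ C → W i z = W j z) →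
        ∃ u ∈ C, (C.card : ℤ) + 1 ≤ 2 * (rcl W C u).card := by
      intro L hL hLc hLr
      obtain ⟨u, hu⟩ : L.Nonempty := by
        rw [← Finset.card_pos]
        have h2 : (0 : ℤ) ≤ C.card := Int.natCast_nonneg _
        omega
      refine ⟨u, hL hu, ?_⟩
      have h2 : L ⊆ rcl W C u := fun i hi => mem_filter.2 ⟨hL hi, hLr i hi u hu⟩
      have h3 : (L.card : ℤ) ≤ (rcl W C u).card := by exact_mod_cast card_le_card h2
      linarith
    rcases Nat.mod_two_eq_zero_or_one C.card with h2 | h2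
    · obtain ⟨q, hq⟩ : ∃ q : ℕ, C.card = 2 * q := ⟨C.card / 2, by omega⟩
      obtain ⟨L, hL, hLc, hLn, hLr⟩ := twins hw hs (t := s - ∑ i, k i - q) h1 hk
        (by rw [h2, hq]; push_cast; linarith) (by rw [hq] at hbig ⊢; push_cast at hbig ⊢; linarith)
      refine fin L hL ?_ hLr
      rw [hq] at hLc hbig ⊢
      push_cast at hLc hbig ⊢
      linarith
    · obtain ⟨q, hq⟩ : ∃ q : ℕ, C.card = 2 * q + 1 := ⟨C.card / 2, by omega⟩
      rcases twins_odd hw hs (t := s - ∑ i, k i - q) h1 hk h2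
        (by rw [hq]; push_cast; linarith) (by rw [hq] at hbig ⊢; push_cast at hbig ⊢; linarith)
        with ⟨L, hL, hLc, hLn, hLr⟩ | ⟨L, hL, hLc, hLr⟩
      · refine fin L hL ?_ hLr
        rw [hq] at hLc hbig ⊢
        push_cast at hLc hbig ⊢
        linarith
      · refine fin L hL ?_ fun i hi j hj z hz => by rw [hLr i hi z hz, hLr j hj z hz]
        rw [hq] at hLc hbig ⊢
        push_cast at hLc hbig ⊢
        linarith
  obtain ⟨u, huC, hu⟩ := key
  have hLC : rcl W C u ⊆ C := filter_subset _ _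
  have hQL : (C \ rcl W C u).card + (rcl W C u).card = C.card :=
    Finset.card_sdiff_add_card_eq_card hLC
  obtain ⟨c, n, hc0, hTw, hn, hn2, -, -⟩ := hub_R1g hw hs h1 hk
    (fun i hi z hz => h.nn i z (fun h' => hz (h' ▸ hi))) (H := ∅) (by simp)
    (by rw [card_empty]; push_cast; linarith) huC (by rw [card_empty]; omega) (by simp)
  exact ⟨u, huC, c, n, hc0, hTw, hn, hn2⟩

end

/-- [QFO-HCLQ2] the step -/
theorem clique_step {V : Type} [Fintype V] [DecidableEq V] {W : V → V → ℤ} {k : V → ℤ}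
    (h : OO W k) {m : ℕ} (hm : inn W univ = 2 * (m : ℤ)) (hs : Sb W (T m))
    (ih : ∀ r : ℤ, r < m → QD r ∧ QB r) {C : Finset V}
    (h1 : ∀ i ∈ C, ∀ j ∈ C, i ≠ j → W i j = 1) (hk : ∀ i ∈ C, k i = 0)
    (hbig : T (m : ℤ) - ∑ i, k i < C.card) {N : ℕ} (hN : T (m : ℤ) < N) (hN2 : 2 ≤ N)
    (hdeg : ∀ u ∈ C, (N : ℤ) ≤ 1 + ∑ y ∈ univ.erase u, W u y) : HasD W m ∧ HasB W m := by
  classical
  obtain ⟨u, huC, c, n, hc0, hTw, hn, hn2⟩ := clique_R1C h hs h1 hk hbig
  have huL : u ∈ rcl W C u := mem_filter.2 ⟨huC, fun _ _ => rfl⟩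
  have h2 : (N : ℤ) ≤ n := by
    rw [← hn, ← Finset.add_sum_erase univ c (mem_univ u), hTw.one u huL]
    refine (hdeg u huC).trans (le_of_eq ?_)
    congr 1
    refine Finset.sum_congr rfl fun y hy => ?_
    exact hTw.row u huL y (mem_erase.1 hy).1
  have h3 : N ≤ n := by exact_mod_cast h2
  have h4 : 1 ≤ n.choose 2 := Nat.choose_pos (by omega)
  have h5 : (m : ℤ) - ((n.choose 2 : ℕ) : ℤ) < m := by
    have : (1 : ℤ) ≤ ((n.choose 2 : ℕ) : ℤ) := by exact_mod_cast h4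
    linarith
  exact r1_step h.toOS hc0 hTw hn (by omega) hn2 hm hs (fun _ => by linarith)
    (ih _ h5).1 (ih _ h5).2

end Pool.Agent.QFO
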