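import Pool.Agent.QFO.PairOdd

/-!
# [QFO-HMATCH] moving the uncovered elements of a matching into a given set
-/

set_option autoImplicit false
set_option linter.unusedSectionVars false

namespace Pool.Agent.QFO

open Finset Pool.Agent.MP_710317_co.Rec Pool.Agent.MXC

variable {V : Type*} [Fintype V] [DecidableEq V] {α : Type*}

/-- disjoint pairs `x`, `f x` in `C` with different values of `ρ` -/
structure Mt (C : Finset V) (ρ : V → α) (X : Finset V) (f : V → V) : Prop where
  sub : X ⊆ C
  mem : ∀ x ∈ X, f x ∈ C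
  out : ∀ x ∈ X, f x ∉ X
  ne : ∀ x ∈ X, ρ x ≠ ρ (f x)
  inj : Set.InjOn f X

/-- the elements of `C` which are not covered -/
def unc (C X : Finset V) (f : V → V) : Finset V := C.filter fun i => i ∉ X ∧ i ∉ X.image f

theorem mem_unc {C X : Finset V} {f : V → V} {i : V} :
    i ∈ unc C X f ↔ i ∈ C ∧ i ∉ X ∧ i ∉ X.image f := mem_filter

theorem Mt.card {C : Finset V} {ρ : V → α} {X : Finset V} {f : V → V} (h : Mt C ρ X f) :
    (unc C X f).card + 2 * X.card = C.card := by
  have h1 : unc C X f = C \ (X ∪ X.image f) := by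
    ext i
    rw [mem_unc, mem_sdiff, mem_union, not_or]
  have h2 : X ∪ X.image f ⊆ C := by
    intro i hi
    rcases mem_union.1 hi with h3 | h3
    · exact h.sub h3
    · obtain ⟨x, hx, rfl⟩ := mem_image.1 h3
      exact h.mem x hx
  have h3 : Disjoint X (X.image f) := Finset.disjoint_left.2 fun i hi hi2 => by
    obtain ⟨x, hx, rfl⟩ := mem_image.1 hi2
    exact h.out x hx hi
  have h4 := Finset.card_sdiff_add_card_eq_card h2
  rw [Finset.card_union_of_disjoint h3, Finset.card_image_of_injOn h.inj] at h4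
  rw [h1]
  omega

/-- a part of the pairs -/
theorem Mt.mono {C : Finset V} {ρ : V → α} {X X' : Finset V} {f : V → V} (h : Mt C ρ X f)
    (hX : X' ⊆ X) : Mt C ρ X' f :=
  ⟨hX.trans h.sub, fun x hx => h.mem x (hX hx), fun x hx h' => h.out x (hX hx) (hX h'),
    fun x hx => h.ne x (hX hx), h.inj.mono (by exact_mod_cast hX)⟩

/-- [QFO-HMATCH1] -/
theorem match_move {C K : Finset V} {ρ : V → α} {q : ℕ} (hK : C.card ≤ K.card + q) (hKC : K ⊆ C) :
    ∀ (n : ℕ) (X : Finset V) (f : V → V), Mt C ρ X f → X.card = q → (unc C X f \ K).card = n →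
      ∃ (X' : Finset V) (f' : V → V), Mt C ρ X' f' ∧ X'.card = q ∧ unc C X' f' ⊆ K := by
  classical
  intro n
  induction n using Nat.strong_induction_on with
  | _ n ih =>
  intro X f hM hXq hn
  rcases (unc C X f \ K).eq_empty_or_nonempty with h0 | ⟨y, hy⟩
  · exact ⟨X, f, hM, hXq, Finset.sdiff_eq_empty_iff_subset.1 h0⟩
  obtain ⟨hyU, hyK⟩ := mem_sdiff.1 hy
  obtain ⟨hyC, hyX, hyf⟩ := mem_unc.1 hyU
  have hyf' : ∀ x ∈ X, f x ≠ y := fun x hx h => hyf (h ▸ mem_image_of_mem f hx)
  have key : ∃ x ∈ X, (x ∈ K ∧ ρ (f x) ≠ ρ y) ∨ (f x ∈ K ∧ ρ x ≠ ρ y) := by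
    by_contra hcon
    push Not at hcon
    have h1 : K ∩ (X ∪ X.image f) ⊆ X.image fun x => if x ∈ K then x else f x := by
      intro w hw
      obtain ⟨hwK, hw2⟩ := mem_inter.1 hw
      rcases mem_union.1 hw2 with h2 | h2
      · refine mem_image.2 ⟨w, h2, ?_⟩
        simp only [if_pos hwK]
      · obtain ⟨x, hx, rfl⟩ := mem_image.1 h2
        refine mem_image.2 ⟨x, hx, ?_⟩
        have h3 : x ∉ K := fun h4 => hM.ne x hx (((hcon x hx).2 hwK).trans ((hcon x hx).1 h4).symm)
        simp only [if_neg h3]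
    have h2 := (card_le_card h1).trans Finset.card_image_le
    have h3 : K \ (X ∪ X.image f) ⊆ (unc C X f).erase y := by
      intro w hw
      obtain ⟨hwK, hw2⟩ := mem_sdiff.1 hw
      rw [mem_union, not_or] at hw2
      exact mem_erase.2 ⟨fun h4 => hyK (h4 ▸ hwK), mem_unc.2 ⟨hKC hwK, hw2⟩⟩
    have h4 := card_le_card h3
    have h5 : ((unc C X f).erase y).card + 1 = (unc C X f).card := Finset.card_erase_add_one hyU
    have h6 := hM.card
    have h7 : (K \ (X ∪ X.image f)).card + (K ∩ (X ∪ X.image f)).card = K.card :=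
      Finset.card_sdiff_add_card_inter _ _
    omega
  have hlt : ∀ (X' : Finset V) (f' : V → V), (∀ w ∈ unc C X' f', w ∉ K → w ∈ unc C X f ∧ w ≠ y) →
      (unc C X' f' \ K).card < n := by
    intro X' f' h1
    have h2 : unc C X' f' \ K ⊆ (unc C X f \ K).erase y := by
      intro w hw
      obtain ⟨hw1, hw2⟩ := mem_sdiff.1 hw
      obtain ⟨h3, h4⟩ := h1 w hw1 hw2
      exact mem_erase.2 ⟨h4, mem_sdiff.2 ⟨h3, hw2⟩⟩
    have h3 := card_le_card h2
    have h4 : ((unc C X f \ K).erase y).card + 1 = (unc C X f \ K).card :=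
      Finset.card_erase_add_one hy
    omega
  obtain ⟨x, hx, ⟨hxK, hρ⟩ | ⟨hxK, hρ⟩⟩ := key
  · -- `x` is replaced by `y`
    set X' : Finset V := insert y (X.erase x) with hX'
    set f' : V → V := Function.update f y (f x) with hf'
    have hf'y : f' y = f x := Function.update_self _ _ _
    have hf'n : ∀ w ∈ X, f' w = f w := fun w hw =>
      Function.update_of_ne (fun h : w = y => hyX (h ▸ hw)) _ _
    have hc : ∀ w ∈ X', w = y ∨ (w ≠ x ∧ w ∈ X) := fun w hw => by
      rcases mem_insert.1 hw with h | h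
      · exact Or.inl h
      · exact Or.inr (mem_erase.1 h)
    have hout : ∀ w ∈ X, f w ∉ X' := by
      intro w hw h
      rcases hc _ h with h1 | h1
      · exact hyf' w hw h1
      · exact hM.out w hw h1.2
    have hM' : Mt C ρ X' f' := by
      refine ⟨fun w hw => ?_, fun w hw => ?_, fun w hw => ?_, fun w hw => ?_, fun w hw w' hw' h => ?_⟩
      · rcases hc w hw with h | h
        · rw [h]; exact hyC
        · exact hM.sub h.2
      · rcases hc w hw with h | h
        · rw [h, hf'y]; exact hM.mem x hx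
        · rw [hf'n w h.2]; exact hM.mem w h.2
      · rcases hc w hw with h | h
        · rw [h, hf'y]; exact hout x hx
        · rw [hf'n w h.2]; exact hout w h.2
      · rcases hc w hw with h | h
        · rw [h, hf'y]; exact fun h' => hρ h'.symm
        · rw [hf'n w h.2]; exact hM.ne w h.2
      · rcases hc w (by exact_mod_cast hw) with h1 | h1 <;>
          rcases hc w' (by exact_mod_cast hw') with h2 | h2
        · rw [h1, h2]
        · rw [h1, hf'y, hf'n w' h2.2] at h
          exact absurd (hM.inj hx h2.2 h).symm h2.1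
        · rw [h2, hf'y, hf'n w h1.2] at h
          exact absurd (hM.inj h1.2 hx h) h1.1
        · rw [hf'n w h1.2, hf'n w' h2.2] at h
          exact hM.inj h1.2 h2.2 h
    have hcard : X'.card = q := by
      rw [hX', Finset.card_insert_of_notMem (fun h => hyX (mem_of_mem_erase h)),
        Finset.card_erase_add_one hx, hXq]
    refine ih _ (hlt X' f' ?_) X' f' hM' hcard rfl
    intro w hw hwK
    obtain ⟨h1, h2, h3⟩ := mem_unc.1 hw
    have hwy : w ≠ y := fun h => h2 (h ▸ mem_insert_self y _)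
    have hwx : w ≠ x := fun h => hwK (h ▸ hxK)
    have hwX : w ∉ X := fun h => h2 (mem_insert_of_mem (mem_erase.2 ⟨hwx, h⟩))
    refine ⟨mem_unc.2 ⟨h1, hwX, fun h => ?_⟩, hwy⟩
    obtain ⟨u, hu, hu2⟩ := mem_image.1 h
    by_cases h4 : u = x
    · refine h3 (mem_image.2 ⟨y, mem_insert_self y _, ?_⟩)
      rw [hf'y, ← h4, hu2]
    · refine h3 (mem_image.2 ⟨u, mem_insert_of_mem (mem_erase.2 ⟨h4, hu⟩), ?_⟩)
      rw [hf'n u hu, hu2]
  · -- `f x` is replaced by `y`
    set f' : V → V := Function.update f x y with hf'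
    have hf'x : f' x = y := Function.update_self _ _ _
    have hf'n : ∀ w, w ≠ x → f' w = f w := fun w hw => Function.update_of_ne hw _ _
    have hM' : Mt C ρ X f' := by
      refine ⟨hM.sub, fun w hw => ?_, fun w hw => ?_, fun w hw => ?_, fun w hw w' hw' h => ?_⟩
      · by_cases h : w = x
        · rw [h, hf'x]; exact hyC
        · rw [hf'n w h]; exact hM.mem w hw
      · by_cases h : w = x
        · rw [h, hf'x]; exact hyX
        · rw [hf'n w h]; exact hM.out w hw
      · by_cases h : w = x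
        · rw [h, hf'x]; exact hρ
        · rw [hf'n w h]; exact hM.ne w hw
      · have hw0 : w ∈ X := by exact_mod_cast hw
        have hw0' : w' ∈ X := by exact_mod_cast hw'
        by_cases h1 : w = x <;> by_cases h2 : w' = x
        · rw [h1, h2]
        · rw [h1, hf'x, hf'n w' h2] at h
          exact absurd h.symm (hyf' w' hw0')
        · rw [h2, hf'x, hf'n w h1] at h
          exact absurd h (hyf' w hw0)
        · rw [hf'n w h1, hf'n w' h2] at h
          exact hM.inj hw hw' h
    refine ih _ (hlt X f' ?_) X f' hM' hXq rfl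
    intro w hw hwK
    obtain ⟨h1, h2, h3⟩ := mem_unc.1 hw
    have hwy : w ≠ y := fun h => h3 (mem_image.2 ⟨x, hx, by rw [hf'x, h]⟩)
    refine ⟨mem_unc.2 ⟨h1, h2, fun h => ?_⟩, hwy⟩
    obtain ⟨u, hu, hu2⟩ := mem_image.1 h
    by_cases h4 : u = x
    · exact hwK (by rw [← hu2, h4]; exact hxK)
    · exact h3 (mem_image.2 ⟨u, hu, by rw [hf'n u h4, hu2]⟩)

end Pool.Agent.QFO
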