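import Pool.Agent.QFO.Glue
import Pool.Agent.QFO.HMatch

/-!
# [QFO-HCOUNT] the complete set with bad hubs outside and `s - K < |C| + |H|`
-/

set_option autoImplicit false
set_option linter.unusedSectionVars false

namespace Pool.Agent.QFO

open Finset Pool.Agent.MP_710317_co.Rec Pool.Agent.MXC

variable {V : Type*} [Fintype V] [DecidableEq V]

/-- [QFO-HCOUNT1] a row class with at least `(|C| + |H|) / 2` elements exists -/
theorem hub_big {W : V → V → ℤ} {k : V → ℤ} (hw : SymK W k) {s : ℤ}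
    (hs : Sb W s) {C : Finset V} (h1 : ∀ i ∈ C, ∀ j ∈ C, i ≠ j → W i j = 1)
    (hk : ∀ i ∈ C, k i = 0) {H : Finset V} (hH : ∀ z ∈ H, z ∉ C) (hHne : H.Nonempty)
    {K : Finset V} (hKC : K ⊆ C) (hKc : (C \ K).card + H.card + 2 ≤ K.card)
    (hpoor : ∀ z ∈ H, ∀ v ∈ K, ∀ v' ∈ K, v ≠ v' → 2 ≤ W v z ∨ 2 ≤ W v' z)
    (hbd : s - ∑ i, k i < C.card + H.card) :
    ∃ u ∈ C, C.card + H.card ≤ 2 * (rcl W C u).card := by
  classical
  by_contra hcon
  push Not at hcon
  have hKg : (C \ K).card + K.card = C.card := Finset.card_sdiff_add_card_eq_card hKC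
  -- the parity and the number of pairs
  obtain ⟨ε, q, hε, hq⟩ : ∃ ε q : ℕ, ε ≤ 1 ∧ C.card = 2 * q + H.card + ε :=
    ⟨(C.card - H.card) % 2, (C.card - H.card) / 2, by omega, by omega⟩
  -- the elements which are poor for all hubs
  obtain ⟨z₀, hz₀⟩ := hHne
  set P : Finset V := K.filter fun v => ∀ z ∈ H, ¬ 2 ≤ W v z with hP
  have hPc : P.card ≤ 1 := by
    rw [Finset.card_le_one]
    intro a ha b hb
    by_contra hne
    obtain ⟨haK, ha2⟩ := mem_filter.1 ha
    obtain ⟨hbK, hb2⟩ := mem_filter.1 hb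
    rcases hpoor z₀ hz₀ a haK b hbK hne with h | h
    · exact ha2 z₀ hz₀ h
    · exact hb2 z₀ hz₀ h
  set K' : Finset V := K \ P with hK'
  have hK'c : K'.card + P.card = K.card := Finset.card_sdiff_add_card_eq_card (filter_subset _ _)
  have hK'C : K' ⊆ C := sdiff_subset.trans hKC
  have hrich : ∀ v ∈ K', ∃ z ∈ H, 2 ≤ W v z := by
    intro v hv
    obtain ⟨hvK, hvP⟩ := mem_sdiff.1 hv
    by_contra hcon2
    push Not at hcon2
    exact hvP (mem_filter.2 ⟨hvK, fun z hz h => absurd h (not_le.2 (hcon2 z hz))⟩)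
  -- the matching
  obtain ⟨ix, hix⟩ : ∃ ix : V → ℕ, Function.Injective ix :=
    ⟨fun x => (Fintype.equivFin V x : ℕ), fun x y hxy =>
      (Fintype.equivFin V).injective (Fin.ext hxy)⟩
  set ρ : V → V → ℤ := fun i z => if z ∈ C then 0 else W i z with hρ
  have hρne : ∀ i j, ρ i ≠ ρ j → ∃ z, z ∉ C ∧ W i z ≠ W j z := by
    intro i j hij
    by_contra hcon
    push Not at hcon
    refine hij (funext fun z => ?_)
    simp only [hρ]
    by_cases hz : z ∈ C
    · rw [if_pos hz, if_pos hz]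
    · rw [if_neg hz, if_neg hz]; exact hcon z hz
  have hmt : ∃ (X : Finset V) (f : V → V), Mt C ρ X f ∧ X.card = q := by
    by_contra hno
    push Not at hno
    obtain ⟨L, hL, hLc, ⟨u, hu⟩, hLr⟩ := row_match ρ C ix hix (t := (q : ℤ) - 1) (by
      intro X hX f hf hfi
      by_contra hlt
      have h2 : q ≤ X.card := by
        have : (q : ℤ) ≤ X.card := by linarith
        exact_mod_cast this
      obtain ⟨X', hX', hX'c⟩ := Finset.exists_subset_card_eq h2
      exact hno X' f (Mt.mono ⟨hX, fun x hx => (hf x hx).1, fun x hx => (hf x hx).2.1,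
        fun x hx => (hf x hx).2.2.2, hfi⟩ hX') hX'c) (by
      have h2 : (C.card : ℤ) = 2 * q + H.card + ε := by exact_mod_cast hq
      rw [h2]
      have h3 : (0 : ℤ) ≤ H.card := by positivity
      have h4 : (0 : ℤ) ≤ ε := by positivity
      linarith)
    have huC : u ∈ C := hL hu
    have hsub : L ⊆ rcl W C u := by
      intro i hi
      refine mem_filter.2 ⟨hL hi, fun z hz => ?_⟩
      have h2 := congrFun (hLr i hi u hu) z
      simp only [hρ] at h2
      rwa [if_neg hz, if_neg hz] at h2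
    have h2 := card_le_card hsub
    have h3 := hcon u huC
    have h4 : C.card + 1 ≤ L.card + q := by
      have : (C.card : ℤ) + 1 ≤ L.card + q := by linarith
      exact_mod_cast this
    omega
  obtain ⟨X₀, f₀, hM₀, hX₀⟩ := hmt
  obtain ⟨X, f, hM, hXq, hU⟩ := match_move (K := K') (q := q) (by omega) hK'C _ X₀ f₀ hM₀ hX₀ rfl
  set U : Finset V := unc C X f with hUdef
  have hUc : U.card = H.card + ε := by
    have h2 := hM.card
    rw [← hUdef] at h2
    omega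
  have hUC : U ⊆ C := fun i hi => (mem_unc.1 hi).1
  have hUK : ∀ i ∈ U, i ∈ K := fun i hi => (mem_sdiff.1 (hU hi)).1
  -- the partners
  obtain ⟨v, hv, hvi⟩ := hall H U (fun z x => 2 ≤ W x z) (by
    intro H' hH'
    rcases H'.eq_empty_or_nonempty with h0 | ⟨z, hz⟩
    · exact ⟨∅, empty_subset _, by rw [h0], by simp⟩
    · have hzH := hH' hz
      have h2 := card_le_card hH'
      by_cases h3 : H'.card + 1 ≤ H.card + ε
      · refine ⟨U.filter fun x => 2 ≤ W x z, filter_subset _ _, ?_, fun x hx =>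
          ⟨z, hz, (mem_filter.1 hx).2⟩⟩
        have h4 : (U.filter fun x => ¬ 2 ≤ W x z).card ≤ 1 := by
          rw [Finset.card_le_one]
          intro a ha b hb
          by_contra hne
          obtain ⟨haU, ha2⟩ := mem_filter.1 ha
          obtain ⟨hbU, hb2⟩ := mem_filter.1 hb
          rcases hpoor z hzH a (hUK a haU) b (hUK b hbU) hne with h | h
          · exact ha2 h
          · exact hb2 h
        have h5 := Finset.card_filter_add_card_filter_not (s := U) (fun x => 2 ≤ W x z)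
        omega
      · have h4 : H' = H := Finset.eq_of_subset_of_card_le hH' (by omega)
        refine ⟨U, Finset.Subset.refl _, by omega, fun x hx => ?_⟩
        rw [h4]
        exact hrich x (hU hx))
  have hvU : ∀ z ∈ H, v z ∈ U := fun z hz => (hv z hz).1
  have hv2 : ∀ z ∈ H, 2 ≤ W (v z) z := fun z hz => (hv z hz).2
  have hvC : ∀ z ∈ H, v z ∈ C := fun z hz => hUC (hvU z hz)
  -- gluing
  have : Nonempty V := ⟨z₀⟩
  set φ : V → V := Function.invFunOn v H with hφ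
  have hφv : ∀ z ∈ H, φ (v z) = z := fun z hz => hvi.leftInvOn_invFunOn hz
  have hYc : (H.image v).card = H.card := Finset.card_image_of_injOn hvi
  have hmem : ∀ y ∈ H.image v, ∃ z ∈ H, y = v z ∧ φ y = z := by
    intro y hy
    obtain ⟨z, hz, rfl⟩ := mem_image.1 hy
    exact ⟨z, hz, rfl, hφv z hz⟩
  obtain ⟨W', k', hw', hs', hK2, hk', hW', hz'⟩ := glue_many (H.image v) hw hs φ
    (fun y hy h => by
      obtain ⟨z, hz, h2, h3⟩ := hmem y hy
      rw [h3] at h
      obtain ⟨z', hz'2, h4⟩ := mem_image.1 h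
      exact hH z hz (h4 ▸ hvC z' hz'2))
    (fun y hy y' hy' hyy => by
      obtain ⟨z, hz, h2, h3⟩ := hmem y hy
      obtain ⟨z', hz', h2', h3'⟩ := hmem y' hy'
      rw [h2, h2', ← h3, ← h3', hyy])
    (fun y hy => by obtain ⟨z, hz, h2, _⟩ := hmem y hy; rw [h2]; exact hk _ (hvC z hz))
    (fun y hy => by obtain ⟨z, hz, h2, h3⟩ := hmem y hy; rw [h3, h2]; linarith [hv2 z hz])
  have hKsum : ∑ i, k i + 2 * H.card ≤ ∑ i, k' i := by
    rw [hK2, Finset.sum_image hvi]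
    have h2 : ∑ z ∈ H, (2 : ℤ) ≤ ∑ z ∈ H, W (v z) (φ (v z)) :=
      Finset.sum_le_sum fun z hz => by rw [hφv z hz]; exact hv2 z hz
    rw [Finset.sum_const, nsmul_eq_mul] at h2
    linarith
  have hvim : H.image v ⊆ C := by
    intro y hy
    obtain ⟨z, hz, rfl⟩ := mem_image.1 hy
    exact hvC z hz
  set C' : Finset V := C \ H.image v with hC'
  have hC'c : C'.card + H.card = C.card := by
    have := Finset.card_sdiff_add_card_eq_card hvim
    rwa [hYc] at this
  have hC'1 : ∀ i ∈ C', i ∈ C ∧ i ∉ H.image v ∧ ∀ y ∈ H.image v, φ y ≠ i := by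
    intro i hi
    obtain ⟨h2, h3⟩ := mem_sdiff.1 hi
    refine ⟨h2, h3, fun y hy h => ?_⟩
    obtain ⟨z, hz, h4, h5⟩ := hmem y hy
    rw [h5] at h
    exact hH z hz (h ▸ h2)
  have hone' : ∀ i ∈ C', ∀ j ∈ C', i ≠ j → W' i j = 1 := by
    intro i hi j hj hij
    obtain ⟨h2, h3, h4⟩ := hC'1 i hi
    obtain ⟨h5, h6, h7⟩ := hC'1 j hj
    rw [hW' i j h3 h4 h6 h7]
    exact h1 i h2 j h5 hij
  have hk'' : ∀ i ∈ C', k' i = 0 := by
    intro i hi
    obtain ⟨h2, h3, h4⟩ := hC'1 i hi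
    rw [hk' i h3 h4]
    exact hk i h2
  have hXU : ∀ x ∈ X, x ∉ H.image v := by
    intro x hx h
    obtain ⟨z, hz, h2⟩ := mem_image.1 h
    exact (mem_unc.1 (hvU z hz)).2.1 (h2 ▸ hx)
  have hfU : ∀ x ∈ X, f x ∉ H.image v := by
    intro x hx h
    obtain ⟨z, hz, h2⟩ := mem_image.1 h
    exact (mem_unc.1 (hvU z hz)).2.2 (h2 ▸ mem_image_of_mem f hx)
  have hXC' : X ⊆ C' := fun x hx => mem_sdiff.2 ⟨hM.sub hx, hXU x hx⟩
  have hfC' : ∀ x ∈ X, f x ∈ C' := fun x hx => mem_sdiff.2 ⟨hM.mem x hx, hfU x hx⟩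
  have hval : ∀ i ∈ C', ∀ z, z ∉ C → W' i z = W i z - (if z ∈ H then 1 else 0) := by
    intro i hi z hz
    obtain ⟨h2, h3, h4⟩ := hC'1 i hi
    by_cases h5 : z ∈ H
    · rw [if_pos h5]
      have h6 := hz' i h3 h4 (v z) (mem_image_of_mem v h5)
      rw [hφv z h5] at h6
      rw [h6, h1 i h2 (v z) (hvC z h5) (fun h7 => h3 (h7 ▸ mem_image_of_mem v h5))]
    · rw [if_neg h5, sub_zero]
      refine hW' i z h3 h4 (fun h6 => hz (hvim h6)) (fun y hy h6 => ?_)
      obtain ⟨z', hz'2, h7, h8⟩ := hmem y hy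
      exact h5 (h6 ▸ h8 ▸ hz'2)
  have hdiff : ∀ x ∈ X, ∃ z, z ∉ C' ∧ W' x z ≠ W' (f x) z := by
    intro x hx
    obtain ⟨z, hz, hne⟩ := hρne _ _ (hM.ne x hx)
    refine ⟨z, fun h => hz (mem_sdiff.1 h).1, ?_⟩
    rw [hval x (hXC' hx) z hz, hval (f x) (hfC' x hx) z hz]
    intro h
    exact hne (by linarith)
  have e1 : (C.card : ℤ) = 2 * q + H.card + ε := by exact_mod_cast hq
  have e2 : (C'.card : ℤ) + H.card = C.card := by exact_mod_cast hC'c
  have e3 : (X.card : ℤ) = q := by exact_mod_cast hXq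
  rcases Nat.lt_or_ge ε 1 with hε0 | hε1
  · have hε00 : ε = 0 := by omega
    have h := pair_lemma hw' hs' hone' hk'' hXC' f hfC' hM.out hM.inj hdiff
    have hmod : C'.card % 2 = 0 := by omega
    rw [hmod] at h
    subst hε00
    push_cast at h e1
    linarith
  · have hε11 : ε = 1 := by omega
    subst hε11
    -- the left-over
    obtain ⟨c₀, hc₀⟩ : (U \ H.image v).Nonempty := by
      rw [← Finset.card_pos, Finset.card_sdiff_of_subset (by
        intro y hy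
        obtain ⟨z, hz, rfl⟩ := mem_image.1 hy
        exact hvU z hz), hYc]
      omega
    obtain ⟨hc₀U, hc₀v⟩ := mem_sdiff.1 hc₀
    obtain ⟨z, hz, hWz⟩ := hrich c₀ (hU hc₀U)
    have hc₀C' : c₀ ∈ C' := mem_sdiff.2 ⟨hUC hc₀U, hc₀v⟩
    have h := pair_lemma_odd hw' hs' hone' hk'' hXC' f hfC' hM.out hM.inj hdiff (by omega)
      hc₀C' (mem_unc.1 hc₀U).2.1
      (fun x hx h => (mem_unc.1 hc₀U).2.2 (h ▸ mem_image_of_mem f hx))
      ⟨z, fun h => hH z hz (mem_sdiff.1 h).1, by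
        rw [hval c₀ hc₀C' z (hH z hz), if_pos hz]
        intro h
        linarith⟩
    push_cast at h e1
    linarith

/-- [QFO-HCOUNT2] bad hubs: pure twins -/
theorem hub_count {W : V → V → ℤ} {k : V → ℤ} (hw : SymK W k) {s : ℤ}
    (hs : Sb W s) {C : Finset V} (h1 : ∀ i ∈ C, ∀ j ∈ C, i ≠ j → W i j = 1)
    (hk : ∀ i ∈ C, k i = 0) (hnn : ∀ i ∈ C, ∀ z, z ∉ C → 0 ≤ W i z)
    {H : Finset V} (hH : ∀ z ∈ H, z ∉ C) (hHne : H.Nonempty)
    {K : Finset V} (hKC : K ⊆ C) (hKc : (C \ K).card + H.card + 2 ≤ K.card)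
    (hpoor : ∀ z ∈ H, ∀ v ∈ K, ∀ v' ∈ K, v ≠ v' → 2 ≤ W v z ∨ 2 ≤ W v' z)
    (hbd : s - ∑ i, k i < C.card + H.card) :
    ∃ (L : Finset V) (c : V → ℤ) (n : ℕ), L ⊆ C ∧ (∃ w ∈ L, w ∈ K) ∧ (∀ i, 0 ≤ c i) ∧
      Tw W k c L ∧ ∑ i, c i = n ∧
      n + n % 2 ≤ 2 * L.card ∧ (∀ z ∈ H, 2 ≤ c z) ∧ (∀ z ∈ C, c z = 1) := by
  classical
  obtain ⟨u, huC, hu⟩ := hub_big hw hs h1 hk hH hHne hKC hKc hpoor hbd
  have hLC : rcl W C u ⊆ C := filter_subset _ _
  have hQL : (C \ rcl W C u).card + (rcl W C u).card = C.card :=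
    Finset.card_sdiff_add_card_eq_card hLC
  have hKg : (C \ K).card + K.card = C.card := Finset.card_sdiff_add_card_eq_card hKC
  have hLK : 1 < (rcl W C u ∩ K).card := by
    have h2 : (rcl W C u \ K).card ≤ (C \ K).card := card_le_card (sdiff_subset_sdiff hLC (Subset.refl _))
    have h3 : (rcl W C u \ K).card + (rcl W C u ∩ K).card = (rcl W C u).card :=
      Finset.card_sdiff_add_card_inter _ _
    have h4 : 0 < H.card := hHne.card_pos
    omega
  obtain ⟨a, ha, b, hb, hab⟩ := Finset.one_lt_card.1 hLK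
  obtain ⟨haL, haK⟩ := mem_inter.1 ha
  obtain ⟨hbL, hbK⟩ := mem_inter.1 hb
  have hu2 : ∀ z ∈ H, 2 ≤ W u z := by
    intro z hz
    rcases hpoor z hz a haK b hbK hab with h | h
    · rwa [(mem_filter.1 haL).2 z (hH z hz)] at h
    · rwa [(mem_filter.1 hbL).2 z (hH z hz)] at h
  obtain ⟨c, n, hc0, hTw, hn, hn2, hcH, hcC⟩ := hub_R1g hw hs h1 hk hnn hH (by linarith) huC
    (by omega) hu2
  exact ⟨rcl W C u, c, n, hLC, ⟨a, haL, haK⟩, hc0, hTw, hn, hn2, hcH, hcC⟩

end Pool.Agent.QFO
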