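import Pool.Agent.QFO.HPsi
import Pool.Agent.QFO.HCount
import Pool.Agent.QFO.HClq
import Pool.Agent.QFO.Hub

/-!
# [QFO-HMAIN] few classes of large weight: the step

`A` the classes without loops, `F` classes of `A` with `2 |F| + 2 ≤ |A|`, `X` at least two one-element
classes of `A` outside `F` whose vertices have weight at most one to all other classes of `A` outside `F`.
-/

set_option autoImplicit false
set_option linter.unusedSectionVars false

namespace Pool.Agent.QFO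

open Finset Pool.Agent.MP_710317_co.Rec Pool.Agent.MXC

section

variable {V : Type*} [Fintype V] [DecidableEq V]

/-- the classes without loops -/
def unl {N : ℕ} (k : V → ℤ) (f : V → Fin N) : Finset (Fin N) :=
  univ.filter fun a => ∑ x ∈ cls f a, k x = 0

theorem unl_k {W : V → V → ℤ} {k : V → ℤ} (hw : SymK W k) {N : ℕ} {f : V → Fin N} {v : V}
    (hv : f v ∈ unl k f) : k v = 0 := by
  have h1 := (mem_filter.1 hv).2
  exact (Finset.sum_eq_zero_iff_of_nonneg fun x _ => hw.knn x).1 h1 v (mem_cls.2 rfl)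

theorem unl_card {W : V → V → ℤ} {k : V → ℤ} (hw : SymK W k) {N : ℕ} (f : V → Fin N) :
    (N : ℤ) ≤ (unl k f).card + ∑ i, k i := by
  have h1 : (unl k f).card + (unl k f)ᶜ.card = N := by
    rw [Finset.card_add_card_compl, Fintype.card_fin]
  have h2 : ∑ a ∈ (unl k f)ᶜ, (1 : ℤ) ≤ ∑ a ∈ (unl k f)ᶜ, ∑ x ∈ cls f a, k x := by
    refine Finset.sum_le_sum fun a ha => ?_
    have h3 : (0 : ℤ) ≤ ∑ x ∈ cls f a, k x := Finset.sum_nonneg fun x _ => hw.knn x
    have h4 : ∑ x ∈ cls f a, k x ≠ 0 := fun h => (mem_compl.1 ha) (mem_filter.2 ⟨mem_univ a, h⟩)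
    omega
  have h3 : ∑ a ∈ (unl k f)ᶜ, ∑ x ∈ cls f a, k x ≤ ∑ a, ∑ x ∈ cls f a, k x :=
    Finset.sum_le_sum_of_subset_of_nonneg (subset_univ _)
      fun a _ _ => Finset.sum_nonneg fun x _ => hw.knn x
  rw [cls_sum] at h3
  rw [Finset.sum_const, nsmul_eq_mul, mul_one] at h2
  have h4 : ((unl k f).card : ℤ) + (unl k f)ᶜ.card = N := by exact_mod_cast h1
  linarith

end

/-- [QFO-HMAIN1] the step -/
theorem hub_main {V : Type} [Fintype V] [DecidableEq V] {W : V → V → ℤ} {k : V → ℤ}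
    (h : OO W k) {N : ℕ} {f : V → Fin N} (hc : Col W f) {m : ℕ}
    (hm : inn W univ = 2 * (m : ℤ)) (hs : Sb W (T m)) (hN : T (m : ℤ) < N)
    (ih : ∀ r : ℤ, r < m → QD r ∧ QB r) {F : Finset (Fin N)} (hFA : F ⊆ unl k f)
    (hFc : 2 * F.card + 2 ≤ (unl k f).card) {X : Finset V} (hX : 2 ≤ X.card)
    (hXs : ∀ x ∈ X, cls f (f x) = {x}) (hXk : ∀ x ∈ X, k x = 0) (hXF : ∀ x ∈ X, f x ∉ F)
    (hXw : ∀ x ∈ X, ∀ b ∈ unl k f, b ∉ F → b ≠ f x → ∑ y ∈ cls f b, W x y ≤ 1) :
    HasD W m ∧ HasB W m := by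
  classical
  have hw : SymK W k := h.toSymK
  obtain ⟨x₁, hx₁, x₂, hx₂, hxx⟩ := Finset.one_lt_card.1 (by omega : 1 < X.card)
  have hne : Nonempty V := ⟨x₁⟩
  have hXu : ∀ x ∈ X, f x ∈ unl k f := fun x hx =>
    mem_filter.2 ⟨mem_univ _, by rw [hXs x hx, sum_singleton]; exact hXk x hx⟩
  set A : Finset (Fin N) := unl k f with hA
  have hkA : ∀ v, f v ∈ A → k v = 0 := fun v hv => unl_k hw hv
  -- full vertices
  have hfull := fun a => full_vertex h hc a
  choose p hp hpf using hfull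
  have hle1 : ∀ u v, u ≠ v → f u ∈ A → f v ∈ A → W u v ≤ 1 := by
    intro u v huv hu hv
    have h2 := h.le u v huv
    rw [hkA u hu, hkA v hv] at h2
    linarith
  have hpX : ∀ x ∈ X, p (f x) = x := by
    intro x hx
    have h2 : p (f x) ∈ cls f (f x) := mem_cls.2 (hp _)
    rw [hXs x hx] at h2
    exact mem_singleton.1 h2
  have hpX1 : ∀ x ∈ X, ∀ a, a ≠ f x → 1 ≤ W (p a) x := by
    intro x hx a ha
    obtain ⟨u, hu, hWu⟩ := hpf a (f x) (Ne.symm ha)
    have h2 : u ∈ cls f (f x) := mem_cls.2 hu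
    rw [hXs x hx, mem_singleton] at h2
    rwa [h2] at hWu
  have hone : ∀ a ∈ A \ F, ∀ b ∈ A \ F, a ≠ b → W (p a) (p b) = 1 := by
    intro a ha b hb hab
    obtain ⟨haA, haF⟩ := mem_sdiff.1 ha
    obtain ⟨hbA, hbF⟩ := mem_sdiff.1 hb
    have hpab : p a ≠ p b := fun h' => hab (by rw [← hp a, ← hp b, h'])
    refine le_antisymm (hle1 _ _ hpab (by rw [hp]; exact haA) (by rw [hp]; exact hbA)) ?_
    by_cases h1 : ∃ x ∈ X, b = f x
    · obtain ⟨x, hx, rfl⟩ := h1
      rw [hpX x hx]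
      exact hpX1 x hx a hab
    by_cases h2 : ∃ x ∈ X, a = f x
    · obtain ⟨x, hx, rfl⟩ := h2
      rw [hpX x hx, h.symm]
      exact hpX1 x hx b (Ne.symm hab)
    push Not at h1 h2
    exact exchange h hc hab (hp a) (hp b) (hpX1 x₁ hx₁ a (h2 x₁ hx₁)) (hpX1 x₂ hx₂ b (h1 x₂ hx₂))
      (hXs x₁ hx₁) (hXs x₂ hx₂) hxx (Ne.symm (h2 x₁ hx₁)) (Ne.symm (h1 x₁ hx₁))
      (Ne.symm (h2 x₂ hx₂)) (Ne.symm (h1 x₂ hx₂)) (hXw x₁ hx₁ a haA haF (h2 x₁ hx₁))
      (hXw x₂ hx₂ b hbA hbF (h1 x₂ hx₂))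
  set K : Finset V := (A \ F).image p with hK
  have hpinj : Function.Injective p := fun a b hab => by rw [← hp a, ← hp b, hab]
  have hKc : K.card + F.card = A.card := by
    rw [hK, Finset.card_image_of_injective _ hpinj]
    exact Finset.card_sdiff_add_card_eq_card hFA
  have hKmem : ∀ w ∈ K, f w ∈ A ∧ f w ∉ F ∧ p (f w) = w := by
    intro w hw
    obtain ⟨a, ha, rfl⟩ := mem_image.1 hw
    obtain ⟨haA, haF⟩ := mem_sdiff.1 ha
    rw [hp]
    exact ⟨haA, haF, rfl⟩
  have hctx : HCtx W f F K X := by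
    refine ⟨hc, ?_, ?_, fun w hw => (hKmem w hw).2.1, ?_, hXs, ?_⟩
    · intro u hu w hw huw
      obtain ⟨a, ha, rfl⟩ := mem_image.1 hu
      obtain ⟨b, hb, rfl⟩ := mem_image.1 hw
      exact hone a ha b hb fun h' => huw (by rw [h'])
    · intro u hu w hw huw
      rw [← (hKmem u hu).2.2, ← (hKmem w hw).2.2, huw]
    · intro x hx
      exact mem_image.2 ⟨f x, mem_sdiff.2 ⟨hXu x hx, hXF x hx⟩, hpX x hx⟩
    · intro x hx w hw hwx
      obtain ⟨h1, h2, h3⟩ := hKmem w hw
      refine hXw x hx (f w) h1 h2 fun h' => hwx ?_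
      have h4 : w ∈ cls f (f x) := mem_cls.2 h'
      rw [hXs x hx] at h4
      exact mem_singleton.1 h4
  -- good classes
  set G : Finset (Fin N) := F.filter fun a => 1 < (poor W f K a).card with hG
  set Bd : Finset (Fin N) := F.filter fun a => ¬ 1 < (poor W f K a).card with hBd
  have hGB : G.card + Bd.card = F.card := Finset.card_filter_add_card_filter_not _
  have hz : ∀ a : Fin N, ∃ z, a ∈ G → f z = a ∧ (∀ w ∈ K, 1 ≤ W w z) ∧
      (N : ℤ) ≤ 1 + ∑ y ∈ univ.erase z, W z y := by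
    intro a
    by_cases ha : a ∈ G
    · obtain ⟨haF, ha1⟩ := mem_filter.1 ha
      obtain ⟨v, hv⟩ : (poor W f K a).Nonempty := Finset.card_pos.1 (by omega)
      obtain ⟨z, hz⟩ := hctx.good h hX haF hv
      exact ⟨z, fun _ => hz⟩
    · exact ⟨x₁, fun h' => absurd h' ha⟩
  choose z hz using hz
  have hzf : ∀ a ∈ G, f (z a) = a := fun a ha => (hz a ha).1
  have hGF : ∀ a ∈ G, a ∈ F := fun a ha => (mem_filter.1 ha).1
  have hzinj : Set.InjOn z G := fun a ha b hb hab => by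
    rw [← hzf a ha, ← hzf b hb, hab]
  set C : Finset V := K ∪ G.image z with hC
  have hCmem : ∀ v ∈ C, f v ∈ A ∧ f v ∉ Bd := by
    intro v hv
    rcases mem_union.1 hv with h1 | h1
    · obtain ⟨h2, h3, -⟩ := hKmem v h1
      exact ⟨h2, fun h' => h3 (mem_filter.1 h').1⟩
    · obtain ⟨a, ha, rfl⟩ := mem_image.1 h1
      rw [hzf a ha]
      exact ⟨hFA (hGF a ha), fun h' => (mem_filter.1 h').2 (mem_filter.1 ha).2⟩
  have hdisj : Disjoint K (G.image z) := by
    rw [Finset.disjoint_left]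
    intro v hv hv2
    obtain ⟨a, ha, rfl⟩ := mem_image.1 hv2
    have h2 := (hKmem _ hv).2.1
    rw [hzf a ha] at h2
    exact h2 (hGF a ha)
  have hCc : C.card = K.card + G.card := by
    rw [hC, Finset.card_union_of_disjoint hdisj, Finset.card_image_of_injOn hzinj]
  have hCk : ∀ v ∈ C, k v = 0 := fun v hv => hkA v (hCmem v hv).1
  have hKz : ∀ w ∈ K, ∀ a ∈ G, W w (z a) = 1 := by
    intro w hw a ha
    refine le_antisymm (hle1 _ _ ?_ (hKmem w hw).1 (by rw [hzf a ha]; exact hFA (hGF a ha)))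
      ((hz a ha).2.1 w hw)
    intro h'
    have h2 := (hKmem w hw).2.1
    rw [h', hzf a ha] at h2
    exact h2 (hGF a ha)
  have hC1 : ∀ i ∈ C, ∀ j ∈ C, i ≠ j → W i j = 1 := by
    intro i hi j hj hij
    rcases mem_union.1 hi with h1 | h1 <;> rcases mem_union.1 hj with h2 | h2
    · exact hctx.one i h1 j h2 hij
    · obtain ⟨a, ha, rfl⟩ := mem_image.1 h2
      exact hKz i h1 a ha
    · obtain ⟨a, ha, rfl⟩ := mem_image.1 h1
      rw [h.symm]
      exact hKz j h2 a ha
    · refine le_antisymm (hle1 i j hij (hCmem i hi).1 (hCmem j hj).1) ?_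
      obtain ⟨a, ha, rfl⟩ := mem_image.1 h1
      obtain ⟨b, hb, rfl⟩ := mem_image.1 h2
      have hab : a ≠ b := fun h' => hij (by rw [h'])
      exact hctx.good_adj h hX (hGF a ha) (hGF b hb) hab (mem_filter.1 ha).2 (mem_filter.1 hb).2
        (hzf a ha) (hzf b hb) (hz a ha).2.1 (hz b hb).2.1
  have hCdeg : ∀ u ∈ C, (N : ℤ) ≤ 1 + ∑ y ∈ univ.erase u, W u y := by
    intro u hu
    rcases mem_union.1 hu with h1 | h1
    · obtain ⟨a, ha, rfl⟩ := mem_image.1 h1
      exact full_deg h (ψ := f) fun b hb => hpf a b (by rwa [hp] at hb)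
    · obtain ⟨a, ha, rfl⟩ := mem_image.1 h1
      exact (hz a ha).2.2
  have hNA := unl_card hw f
  rw [← hA] at hNA
  have hN2 : 2 ≤ N := by
    have h2 := Finset.card_le_univ A
    rw [Fintype.card_fin] at h2
    omega
  -- a large complete set
  rcases lt_or_ge (T (m : ℤ) - ∑ i, k i) (C.card : ℤ) with hbig | hsmall
  · exact clique_step h hm hs ih hC1 hCk hbig hN hN2 hCdeg
  -- the contraction
  have hAC : A.card = C.card + Bd.card := by omega
  have hBne : Bd.Nonempty := by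
    rw [← Finset.card_pos]
    have h2 : (A.card : ℤ) = C.card + Bd.card := by exact_mod_cast hAC
    by_contra h3
    have h4 : Bd.card = 0 := by omega
    rw [h4] at h2
    push_cast at h2
    linarith
  set g : V → V := fun v => if f v ∈ Bd then p (f v) else v with hg
  have hg1 : ∀ v, f v ∈ Bd → g v = p (f v) := fun v hv => by simp only [hg]; rw [if_pos hv]
  have hg2 : ∀ v, f v ∉ Bd → g v = v := fun v hv => by simp only [hg]; rw [if_neg hv]
  have hfg : ∀ v, f (g v) = f v := by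
    intro v
    by_cases h1 : f v ∈ Bd
    · rw [hg1 v h1, hp]
    · rw [hg2 v h1]
  have hprp : Prp W g := fun x y hxy hgg => hc.prop x y hxy (by rw [← hfg x, ← hfg y, hgg])
  have hcg : ∀ v, f v ∉ Bd → cls g v = {v} := by
    intro v hv
    ext w
    rw [mem_cls, mem_singleton]
    constructor
    · intro hw
      have h2 : f w ∉ Bd := by rw [← hfg w, hw]; exact hv
      rw [← hg2 w h2]
      exact hw
    · rintro rfl
      exact hg2 w hv
  have hcp : ∀ b ∈ Bd, cls g (p b) = cls f b := by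
    intro b hb
    ext w
    rw [mem_cls, mem_cls]
    constructor
    · intro hw
      rw [← hfg w, hw, hp]
    · intro hw
      rw [hg1 w (by rw [hw]; exact hb), hw]
  set U : V → V → ℤ := push W g with hU
  set k' : V → ℤ := fun z => ∑ x ∈ cls g z, k x with hk'
  have hUK : SymK U k' := push_symK hw hprp
  have hUs : Sb U (T m) := push_Sb hs g
  have hkk : ∑ z, k' z = ∑ i, k i := cls_sum g k
  have hUrow : ∀ v, f v ∉ Bd → ∀ y, U v y = ∑ x ∈ cls g y, W v x := by
    intro v hv y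
    rw [hU, push_eq, hcg v hv, sum_singleton]
  have hUW : ∀ v w, f v ∉ Bd → f w ∉ Bd → U v w = W v w := by
    intro v w hv hw
    rw [hUrow v hv, hcg w hw, sum_singleton]
  have hUp : ∀ v, f v ∉ Bd → ∀ b ∈ Bd, U v (p b) = ∑ x ∈ cls f b, W v x := by
    intro v hv b hb
    rw [hUrow v hv, hcp b hb]
  have hU1 : ∀ i ∈ C, ∀ j ∈ C, i ≠ j → U i j = 1 := fun i hi j hj hij => by
    rw [hUW i j (hCmem i hi).2 (hCmem j hj).2]
    exact hC1 i hi j hj hij
  have hk'0 : ∀ i ∈ C, k' i = 0 := fun i hi => by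
    simp only [hk']
    rw [hcg i (hCmem i hi).2, sum_singleton]
    exact hCk i hi
  have hUnn : ∀ i ∈ C, ∀ y, y ∉ C → 0 ≤ U i y := by
    intro i hi y hy
    rw [hUrow i (hCmem i hi).2]
    refine Finset.sum_nonneg fun x hx => h.nn i x ?_
    rintro rfl
    have h2 := mem_cls.1 hx
    rw [hg2 i (hCmem i hi).2] at h2
    exact hy (h2 ▸ hi)
  set H : Finset V := Bd.image p with hH
  have hHc : H.card = Bd.card := Finset.card_image_of_injective _ hpinj
  have hHC : ∀ y ∈ H, y ∉ C := by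
    intro y hy hyC
    obtain ⟨b, hb, rfl⟩ := mem_image.1 hy
    have h2 := (hCmem _ hyC).2
    rw [hp] at h2
    exact h2 hb
  have hKC : K ⊆ C := subset_union_left
  have hCK : (C \ K).card + K.card = C.card := Finset.card_sdiff_add_card_eq_card hKC
  obtain ⟨L, c, n, hLC, ⟨u, huL, huK⟩, hc0, hTw, hn, hn2, hcH, hcC⟩ := hub_count hUK hUs hU1 hk'0
    hUnn hHC (hBne.image p) hKC (by rw [hHc]; omega) (by
      intro y hy v hv v' hv' hvv
      obtain ⟨b, hb, rfl⟩ := mem_image.1 hy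
      have hvB : f v ∉ Bd := (hCmem v (hKC hv)).2
      have hvB' : f v' ∉ Bd := (hCmem v' (hKC hv')).2
      rw [hUp v hvB b hb, hUp v' hvB' b hb]
      by_contra hcon
      push Not at hcon
      refine (mem_filter.1 hb).2 (Finset.one_lt_card.2 ⟨v, mem_poor.2 ⟨hv, by linarith⟩, v',
        mem_poor.2 ⟨hv', by linarith⟩, hvv⟩)) (by
      rw [hkk, hHc]
      have h2 : (A.card : ℤ) = C.card + Bd.card := by exact_mod_cast hAC
      linarith)
  -- the sum
  have hcb : ∀ b : Fin N, 1 + (if b ∈ Bd then (1 : ℤ) else 0) ≤ ∑ y ∈ cls f b, c y := by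
    intro b
    have key : ∀ y ∈ cls f b, ∀ t : ℤ, t ≤ c y → t ≤ ∑ y ∈ cls f b, c y := fun y hy t ht =>
      ht.trans (Finset.single_le_sum (fun x _ => hc0 x) hy)
    by_cases h1 : b ∈ Bd
    · rw [if_pos h1]
      exact key (p b) (mem_cls.2 (hp b)) _ (hcH _ (mem_image_of_mem p h1))
    · rw [if_neg h1, add_zero]
      by_cases h2 : b = f u
      · exact key u (mem_cls.2 h2.symm) _ (by rw [hTw.one u huL])
      · obtain ⟨h3, h4, h5⟩ := hKmem u huK
        obtain ⟨y, hy, hWy⟩ := hpf (f u) b h2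
        rw [h5] at hWy
        have h6 : y ≠ u := by
          rintro rfl
          exact h2 hy.symm
        refine key y (mem_cls.2 hy) _ ?_
        rw [← hTw.row u huL y h6, hUW u y (hCmem u (hKC huK)).2 (by rw [hy]; exact h1)]
        exact hWy
  have hnN : N + H.card ≤ n := by
    have h2 := Finset.sum_le_sum fun b (_ : b ∈ (univ : Finset (Fin N))) => hcb b
    rw [cls_sum, hn, Finset.sum_add_distrib, Finset.sum_const, card_univ, Fintype.card_fin,
      nsmul_eq_mul, mul_one, Finset.sum_ite_mem, univ_inter, Finset.sum_const, nsmul_eq_mul,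
      mul_one] at h2
    rw [hHc]
    exact_mod_cast h2
  refine hub_step h hc hm hs hN ih (g := g) (f' := f) hfg hc0 hTw hn hn2 (fun y => ?_) H hcH
    (by rw [hHc]; exact hBne.card_pos) hnN ?_
  · by_cases hy : f y ∈ Bd ∧ y ∈ H
    · exact Or.inl (hcH y hy.2)
    · right
      intro v w hv hw
      have h2 : ∀ v, g v = y → v = y := by
        intro v hv
        by_cases h3 : f v ∈ Bd
        · exfalso
          refine hy ⟨by rw [← hv, hfg]; exact h3, ?_⟩
          rw [← hv, hg1 v h3]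
          exact mem_image_of_mem p h3
        · rw [← hg2 v h3]; exact hv
      rw [h2 v hv, h2 w hw]
  · rw [hHc]
    have h2 : (A.card : ℤ) = C.card + Bd.card := by exact_mod_cast hAC
    linarith

end Pool.Agent.QFO
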