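import Pool.Agent.QFO.HSwap

/-!
# [QFO-HPSI] two members of the clique made single; the hubs seen with weight one by two members
-/

set_option autoImplicit false
set_option linter.unusedSectionVars false

namespace Pool.Agent.QFO

open Finset Pool.Agent.MP_710317_co.Rec Pool.Agent.MXC

variable {V : Type*} [Fintype V] [DecidableEq V]

/-- the degree of a full vertex -/
theorem full_deg {W : V → V → ℤ} {k : V → ℤ} (h : OO W k) {N : ℕ} {ψ : V → Fin N} {z : V}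
    (hfull : ∀ b, b ≠ ψ z → ∃ u, ψ u = b ∧ 1 ≤ W z u) :
    (N : ℤ) ≤ 1 + ∑ y ∈ univ.erase z, W z y := by
  classical
  have hne : Nonempty V := ⟨z⟩
  choose! u hu using hfull
  have h1 : Set.InjOn u (univ.erase (ψ z) : Finset (Fin N)) := by
    intro a ha b hb hab
    have h2 := (hu a (mem_erase.1 (mem_coe.1 ha)).1).1
    have h3 := (hu b (mem_erase.1 (mem_coe.1 hb)).1).1
    rw [← h2, ← h3, hab]
  have h2 : ∑ b ∈ univ.erase (ψ z), (1 : ℤ) ≤ ∑ b ∈ univ.erase (ψ z), W z (u b) :=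
    Finset.sum_le_sum fun b hb => (hu b (mem_erase.1 hb).1).2
  have h3 : ∑ y ∈ (univ.erase (ψ z)).image u, W z y ≤ ∑ y ∈ univ.erase z, W z y := by
    refine Finset.sum_le_sum_of_subset_of_nonneg ?_
      fun y hy _ => h.nn z y (Ne.symm (mem_erase.1 hy).1)
    intro y hy
    obtain ⟨b, hb, rfl⟩ := mem_image.1 hy
    refine mem_erase.2 ⟨?_, mem_univ _⟩
    intro h4
    have h5 := (hu b (mem_erase.1 hb).1).1
    rw [h4] at h5
    exact (mem_erase.1 hb).1 h5.symm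
  rw [Finset.sum_image h1] at h3
  rw [Finset.sum_const, nsmul_eq_mul, mul_one] at h2
  have h4 : (univ.erase (ψ z)).card + 1 = N := by
    rw [Finset.card_erase_add_one (mem_univ _), card_univ, Fintype.card_fin]
  have h5 : ((univ.erase (ψ z)).card : ℤ) + 1 = N := by exact_mod_cast h4
  linarith

/-- `K` a complete set of vertices of different classes outside `F`, `X` the free unit singles -/
structure HCtx {N : ℕ} (W : V → V → ℤ) (f : V → Fin N) (F : Finset (Fin N)) (K X : Finset V) :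
    Prop where
  col : Col W f
  one : ∀ u ∈ K, ∀ w ∈ K, u ≠ w → W u w = 1
  inj : Set.InjOn f K
  nF : ∀ w ∈ K, f w ∉ F
  XK : X ⊆ K
  sng : ∀ x ∈ X, cls f (f x) = {x}
  wit : ∀ x ∈ X, ∀ w ∈ K, w ≠ x → ∑ y ∈ cls f (f w), W x y ≤ 1

variable {W : V → V → ℤ} {k : V → ℤ} {N : ℕ} {f : V → Fin N} {F : Finset (Fin N)} {K X : Finset V}

/-- one exchange -/
theorem HCtx.step (h : OO W k) (c : HCtx W f F K X) {v x : V} (hv : v ∈ K) (hx : x ∈ X)
    (hns : cls f (f v) ≠ {v}) :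
    HCtx W (swpc f v x) F K (X.erase x) ∧ cls (swpc f v x) (swpc f v x v) = {v} ∧
      (∀ a ∈ F, cls (swpc f v x) a = cls f a) ∧
      (∀ u ∈ K, u ≠ v → u ≠ x → cls (swpc f v x) (swpc f v x u) = cls f (f u)) := by
  have hvX : v ∉ X := fun h' => hns (c.sng v h')
  have hxK : x ∈ K := c.XK hx
  have hvx : v ≠ x := fun h' => hvX (h' ▸ hx)
  have hfvx : f v ≠ f x := fun h' => hvx (c.inj hv hxK h')
  have hcol : Col W (swpc f v x) := by
    refine col_swap h c.col hfvx (c.sng x hx) ?_ (c.wit x hx v hv hvx)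
    rw [c.one x hxK v hv hvx.symm]
  have hclsv : cls (swpc f v x) (swpc f v x v) = {v} := by
    rw [swpc_q]; exact swpc_cls_x (c.sng x hx) hfvx
  have hclsx : cls (swpc f v x) (swpc f v x x) = insert x ((cls f (f v)).erase v) := by
    rw [swpc_x]; exact swpc_cls_q hfvx
  have hclsu : ∀ u ∈ K, u ≠ v → u ≠ x → cls (swpc f v x) (swpc f v x u) = cls f (f u) := by
    intro u hu h1 h2
    rw [swpc_ne f h1 h2]
    exact swpc_cls_ne (fun h' => h1 (c.inj hu hv h')) (fun h' => h2 (c.inj hu hxK h'))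
  have hclsF : ∀ a ∈ F, cls (swpc f v x) a = cls f a := by
    intro a ha
    exact swpc_cls_ne (fun h' => c.nF v hv (h' ▸ ha)) (fun h' => c.nF x hxK (h' ▸ ha))
  have hσK : ∀ w ∈ K, Equiv.swap v x w ∈ K := by
    intro w hw
    by_cases h1 : w = v
    · rw [h1, Equiv.swap_apply_left]; exact hxK
    · by_cases h2 : w = x
      · rw [h2, Equiv.swap_apply_right]; exact hv
      · rw [Equiv.swap_apply_of_ne_of_ne h1 h2]; exact hw
  refine ⟨⟨hcol, c.one, ?_, ?_, (erase_subset _ _).trans c.XK, ?_, ?_⟩, hclsv, hclsF, hclsu⟩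
  · intro a ha b hb hab
    have h1 : f (Equiv.swap v x a) = f (Equiv.swap v x b) := hab
    exact (Equiv.swap v x).injective (c.inj (hσK a ha) (hσK b hb) h1)
  · intro w hw
    exact c.nF _ (hσK w hw)
  · intro x' hx'
    obtain ⟨h1, h2⟩ := mem_erase.1 hx'
    rw [hclsu x' (c.XK h2) (fun h' => hvX (h' ▸ h2)) h1]
    exact c.sng x' h2
  · intro x' hx' w hw hwx
    obtain ⟨h1, h2⟩ := mem_erase.1 hx'
    have hx'K := c.XK h2
    have hx'v : x' ≠ v := fun h' => hvX (h' ▸ h2)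
    by_cases h3 : w = v
    · rw [h3, hclsv, sum_singleton, c.one x' hx'K v hv hx'v]
    · by_cases h4 : w = x
      · have hxn : x ∉ (cls f (f v)).erase v := fun h' =>
          hfvx (mem_cls.1 (mem_of_mem_erase h')).symm
        rw [h4, hclsx, sum_insert hxn, c.one x' hx'K x hxK h1]
        have h5 := c.wit x' h2 v hv hx'v.symm
        have h6 : W x' v + ∑ y ∈ (cls f (f v)).erase v, W x' y = ∑ y ∈ cls f (f v), W x' y :=
          Finset.add_sum_erase _ _ (mem_cls.2 rfl)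
        rw [c.one x' hx'K v hv hx'v] at h6
        linarith
      · rw [hclsu w hw h3 h4]
        exact c.wit x' h2 w hw hwx

/-- [QFO-HPSI1] a member of the clique made single -/
theorem HCtx.psi1 (h : OO W k) (c : HCtx W f F K X) (hX : 2 ≤ X.card) {v : V} (hv : v ∈ K) :
    ∃ (ψ : V → Fin N) (x : V), Col W ψ ∧ Set.InjOn ψ K ∧
      (∀ w ∈ K, ψ w ∉ F) ∧ (∀ a ∈ F, cls ψ a = cls f a) ∧ cls ψ (ψ v) = {v} ∧
      x ∈ K ∧ x ≠ v ∧ cls ψ (ψ x) = {x} ∧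
      ∀ w ∈ K, w ≠ x → ∑ y ∈ cls ψ (ψ w), W x y ≤ 1 := by
  obtain ⟨x₁, hx₁, x₂, hx₂, hxx⟩ := Finset.one_lt_card.1 (by omega : 1 < X.card)
  by_cases h1 : cls f (f v) = {v}
  · obtain ⟨x, hx, hxv⟩ : ∃ x ∈ X, x ≠ v := by
      by_cases h2 : x₁ = v
      · exact ⟨x₂, hx₂, fun h' => hxx (h2.trans h'.symm)⟩
      · exact ⟨x₁, hx₁, h2⟩
    exact ⟨f, x, c.col, c.inj, c.nF, fun _ _ => rfl, h1, c.XK hx, hxv, c.sng x hx,
      fun w hw hwx => c.wit x hx w hw hwx⟩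
  · have hvX : v ∉ X := fun h' => h1 (c.sng v h')
    obtain ⟨c1, hcv, hcF, hcu⟩ := c.step h hv hx₁ h1
    refine ⟨swpc f v x₁, x₂, c1.col, c1.inj, c1.nF, hcF, hcv, c.XK hx₂,
      fun h' => hvX (h' ▸ hx₂), c1.sng x₂ (mem_erase.2 ⟨hxx.symm, hx₂⟩), ?_⟩
    intro w hw hwx
    exact c1.wit x₂ (mem_erase.2 ⟨hxx.symm, hx₂⟩) w hw hwx

/-- [QFO-HPSI2] two members of the clique made single -/
theorem HCtx.psi2 (h : OO W k) (c : HCtx W f F K X) (hX : 2 ≤ X.card) {v v' : V} (hv : v ∈ K)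
    (hv' : v' ∈ K) (hvv : v ≠ v') : ∃ (ψ : V → Fin N), Col W ψ ∧
      (∀ w ∈ K, ψ w ∉ F) ∧ (∀ a ∈ F, cls ψ a = cls f a) ∧ cls ψ (ψ v) = {v} ∧
      cls ψ (ψ v') = {v'} := by
  obtain ⟨x₁, hx₁, x₂, hx₂, hxx⟩ := Finset.one_lt_card.1 (by omega : 1 < X.card)
  -- one of them is not single
  have one : ∀ v v' : V, v ∈ K → v' ∈ K → v ≠ v' → cls f (f v) ≠ {v} → cls f (f v') = {v'} →
      ∃ (ψ : V → Fin N), Col W ψ ∧
      (∀ w ∈ K, ψ w ∉ F) ∧ (∀ a ∈ F, cls ψ a = cls f a) ∧ cls ψ (ψ v) = {v} ∧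
      cls ψ (ψ v') = {v'} := by
    intro v v' hv hv' hvv h1 h2
    have hvX : v ∉ X := fun h' => h1 (c.sng v h')
    obtain ⟨x, hx, hxv'⟩ : ∃ x ∈ X, x ≠ v' := by
      by_cases h2 : x₁ = v'
      · exact ⟨x₂, hx₂, fun h' => hxx (h2.trans h'.symm)⟩
      · exact ⟨x₁, hx₁, h2⟩
    obtain ⟨c1, hcv, hcF, hcu⟩ := c.step h hv hx h1
    refine ⟨swpc f v x, c1.col, c1.nF, hcF, hcv, ?_⟩
    rw [hcu v' hv' hvv.symm hxv'.symm, h2]
  by_cases h1 : cls f (f v) = {v} <;> by_cases h2 : cls f (f v') = {v'}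
  · exact ⟨f, c.col, c.nF, fun _ _ => rfl, h1, h2⟩
  · obtain ⟨ψ, h3, h5, h6, h7, h8⟩ := one v' v hv' hv hvv.symm h2 h1
    exact ⟨ψ, h3, h5, h6, h8, h7⟩
  · exact one v v' hv hv' hvv h1 h2
  · have hvX : v ∉ X := fun h' => h1 (c.sng v h')
    have hvX' : v' ∉ X := fun h' => h2 (c.sng v' h')
    obtain ⟨c1, hcv, hcF, hcu⟩ := c.step h hv hx₁ h1
    have hv'x : v' ≠ x₁ := fun h' => hvX' (h' ▸ hx₁)
    have h3 : cls (swpc f v x₁) (swpc f v x₁ v') ≠ {v'} := by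
      rw [hcu v' hv' hvv.symm hv'x]; exact h2
    have hx' : x₂ ∈ X.erase x₁ := mem_erase.2 ⟨hxx.symm, hx₂⟩
    obtain ⟨c2, hcv', hcF', hcu'⟩ := c1.step h hv' hx' h3
    refine ⟨swpc (swpc f v x₁) v' x₂, c2.col, c2.nF, fun a ha => ?_, ?_, hcv'⟩
    · rw [hcF' a ha, hcF a ha]
    · rw [hcu' v hv hvv (fun h' => hvX (h' ▸ hx₂)), hcv]

/-- the members of the clique with weight at most one to the class `a` -/
def poor (W : V → V → ℤ) (f : V → Fin N) (K : Finset V) (a : Fin N) : Finset V :=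
  K.filter fun v => ∑ y ∈ cls f a, W v y ≤ 1

theorem mem_poor {v : V} {a : Fin N} : v ∈ poor W f K a ↔ v ∈ K ∧ ∑ y ∈ cls f a, W v y ≤ 1 :=
  mem_filter

/-- every class in `F` is joined to every member of the clique -/
theorem HCtx.joined (h : OO W k) (c : HCtx W f F K X) (hX : 2 ≤ X.card) {v : V} (hv : v ∈ K)
    {a : Fin N} (ha : a ∈ F) : 1 ≤ ∑ y ∈ cls f a, W v y := by
  obtain ⟨ψ, x, hcol, hinj, hnF, hclsF, hcv, -, -, -, -⟩ := c.psi1 h hX hv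
  obtain ⟨z, hz, hfull⟩ := full_vertex h hcol a
  have h1 : ψ v ≠ a := fun h' => hnF v hv (h' ▸ ha)
  obtain ⟨u, hu, hWu⟩ := hfull (ψ v) h1
  have hu2 : u ∈ cls ψ (ψ v) := mem_cls.2 hu
  rw [hcv, mem_singleton] at hu2
  rw [hu2] at hWu
  have hz2 : z ∈ cls f a := by rw [← hclsF a ha]; exact mem_cls.2 hz
  have h2 : W v z ≤ ∑ y ∈ cls f a, W v y := by
    refine Finset.single_le_sum (f := fun y => W v y) (fun y hy => h.nn v y ?_) hz2
    rintro rfl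
    rw [← hclsF a ha] at hy
    exact h1 (mem_cls.1 hy)
  rw [h.symm v z] at h2
  linarith

/-- [QFO-HPSI3] the vertex of a class with a poor member -/
theorem HCtx.good (h : OO W k) (c : HCtx W f F K X) (hX : 2 ≤ X.card) {a : Fin N} (ha : a ∈ F)
    {v : V} (hv : v ∈ poor W f K a) : ∃ z, f z = a ∧ (∀ w ∈ K, 1 ≤ W w z) ∧
      (N : ℤ) ≤ 1 + ∑ y ∈ univ.erase z, W z y := by
  obtain ⟨hvK, hv1⟩ := mem_poor.1 hv
  obtain ⟨ψ, x, hcol, hinj, hnF, hclsF, hcv, hxK, hxv, hcx, hwit⟩ := c.psi1 h hX hvK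
  obtain ⟨z, hz, hfull⟩ := full_vertex h hcol a
  have hza : z ∈ cls f a := by rw [← hclsF a ha]; exact mem_cls.2 hz
  have hsee : ∀ u ∈ K, cls ψ (ψ u) = {u} → 1 ≤ W u z := by
    intro u hu hcu
    obtain ⟨u', hu', hWu⟩ := hfull (ψ u) (fun h' => hnF u hu (h' ▸ ha))
    have hu2 : u' ∈ cls ψ (ψ u) := mem_cls.2 hu'
    rw [hcu, mem_singleton] at hu2
    rw [hu2, h.symm] at hWu
    exact hWu
  refine ⟨z, mem_cls.1 hza, ?_, ?_⟩
  · intro w hw
    by_cases h1 : w = v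
    · rw [h1]; exact hsee v hvK hcv
    by_cases h2 : w = x
    · rw [h2]; exact hsee x hxK hcx
    have hwv : ψ w ≠ ψ v := fun h' => h1 (hinj hw hvK h')
    have hwx : ψ w ≠ ψ x := fun h' => h2 (hinj hw hxK h')
    have hWwx : 1 ≤ W w x := (c.one w hw x hxK h2).ge
    have hWzv : 1 ≤ W z v := by rw [h.symm]; exact hsee v hvK hcv
    refine exchange h hcol (a := ψ w) (b := a) (x := x) (x' := v)
      (fun h' => hnF w hw (h' ▸ ha)) rfl hz hWwx hWzv hcx hcv hxv hwx.symm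
      (fun h' => hnF x hxK (h' ▸ ha)) hwv.symm (fun h' => hnF v hvK (h' ▸ ha))
      (hwit w hw h2) ?_
    rw [hclsF a ha]
    exact hv1
  · exact full_deg h (ψ := ψ) fun b hb => hfull b (by rwa [hz] at hb)

/-- [QFO-HPSI4] two such vertices are adjacent -/
theorem HCtx.good_adj (h : OO W k) (c : HCtx W f F K X) (hX : 2 ≤ X.card) {a b : Fin N}
    (ha : a ∈ F) (hb : b ∈ F) (hab : a ≠ b) (hga : 1 < (poor W f K a).card)
    (hgb : 1 < (poor W f K b).card) {z z' : V} (hz : f z = a) (hz' : f z' = b)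
    (hzK : ∀ w ∈ K, 1 ≤ W w z) (hzK' : ∀ w ∈ K, 1 ≤ W w z') : 1 ≤ W z z' := by
  obtain ⟨v, hv⟩ : (poor W f K a).Nonempty := Finset.card_pos.1 (by omega)
  obtain ⟨v', hv', hvv⟩ : ∃ v' ∈ poor W f K b, v ≠ v' := by
    obtain ⟨u, hu, u', hu', huu⟩ := Finset.one_lt_card.1 hgb
    by_cases h2 : v = u
    · exact ⟨u', hu', fun h' => huu (h2 ▸ h')⟩
    · exact ⟨u, hu, h2⟩
  obtain ⟨hvK, hv1⟩ := mem_poor.1 hv
  obtain ⟨hvK', hv1'⟩ := mem_poor.1 hv'
  obtain ⟨ψ, hcol, hnF, hclsF, hcv, hcv'⟩ := c.psi2 h hX hvK hvK' hvv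
  have hza : ψ z = a := mem_cls.1 (by rw [hclsF a ha]; exact mem_cls.2 hz)
  have hzb : ψ z' = b := mem_cls.1 (by rw [hclsF b hb]; exact mem_cls.2 hz')
  refine exchange h hcol (a := a) (b := b) (x := v) (x' := v') hab hza hzb
    (by rw [h.symm]; exact hzK v hvK) (by rw [h.symm]; exact hzK' v' hvK') hcv hcv' hvv
    (fun h' => hnF v hvK (h' ▸ ha)) (fun h' => hnF v hvK (h' ▸ hb))
    (fun h' => hnF v' hvK' (h' ▸ ha)) (fun h' => hnF v' hvK' (h' ▸ hb)) ?_ ?_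
  · rw [hclsF a ha]; exact hv1
  · rw [hclsF b hb]; exact hv1'

end Pool.Agent.QFO
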