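import Pool.Agent.QFO.Col

/-!
# [QFO-HSWAP] exchanging a vertex with a unit single
-/

set_option autoImplicit false
set_option linter.unusedSectionVars false

namespace Pool.Agent.QFO

open Finset Pool.Agent.MP_710317_co.Rec Pool.Agent.MXC

variable {V : Type*} [Fintype V] [DecidableEq V]

theorem cls_comp {C : Type*} [DecidableEq C] (f : V → C) (σ : Equiv.Perm V) (a : C) :
    cls (fun v => f (σ v)) a = (cls f a).map σ.symm.toEmbedding := by
  ext v
  rw [mem_cls, mem_map_equiv, mem_cls]
  rfl

variable {W : V → V → ℤ} {k : V → ℤ} {N : ℕ} {f : V → Fin N}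

/-- the colouring with `q` and `x` exchanged -/
def swpc (f : V → Fin N) (q x : V) (v : V) : Fin N := f (Equiv.swap q x v)

theorem swpc_q (f : V → Fin N) (q x : V) : swpc f q x q = f x := by
  unfold swpc; rw [Equiv.swap_apply_left]

theorem swpc_x (f : V → Fin N) (q x : V) : swpc f q x x = f q := by
  unfold swpc; rw [Equiv.swap_apply_right]

theorem swpc_ne (f : V → Fin N) {q x v : V} (h1 : v ≠ q) (h2 : v ≠ x) : swpc f q x v = f v := by
  unfold swpc; rw [Equiv.swap_apply_of_ne_of_ne h1 h2]

/-- the class of the single -/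
theorem swpc_cls_x {q x : V} (hx : cls f (f x) = {x}) (hqx : f q ≠ f x) :
    cls (swpc f q x) (f x) = {q} := by
  ext v
  rw [mem_cls, mem_singleton]
  constructor
  · intro hv
    by_cases h1 : v = q
    · exact h1
    · by_cases h2 : v = x
      · rw [h2, swpc_x] at hv
        exact absurd hv hqx
      · rw [swpc_ne f h1 h2] at hv
        have h3 : v ∈ cls f (f x) := mem_cls.2 hv
        rw [hx] at h3
        exact absurd (mem_singleton.1 h3) h2
  · rintro rfl
    exact swpc_q f v x

/-- the class of the other vertex -/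
theorem swpc_cls_q {q x : V} (hqx : f q ≠ f x) :
    cls (swpc f q x) (f q) = insert x ((cls f (f q)).erase q) := by
  ext v
  rw [mem_cls, mem_insert, mem_erase, mem_cls]
  by_cases h1 : v = q
  · subst h1
    rw [swpc_q]
    constructor
    · intro h; exact absurd h.symm hqx
    · rintro (h | h)
      · rw [h]
      · exact absurd rfl h.1
  · by_cases h2 : v = x
    · subst h2
      rw [swpc_x]
      simp
    · rw [swpc_ne f h1 h2]
      simp [h1, h2]

/-- the other classes do not change -/
theorem swpc_cls_ne {q x : V} {a : Fin N} (h1 : a ≠ f q) (h2 : a ≠ f x) :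
    cls (swpc f q x) a = cls f a := by
  ext v
  rw [mem_cls, mem_cls]
  by_cases h3 : v = q
  · subst h3
    rw [swpc_q]
    exact ⟨fun h => absurd h.symm h2, fun h => absurd h.symm h1⟩
  · by_cases h4 : v = x
    · subst h4
      rw [swpc_x]
      exact ⟨fun h => absurd h.symm h1, fun h => absurd h.symm h2⟩
    · rw [swpc_ne f h3 h4]

/-- [QFO-HSWAP1] the exchange preserves minimal colourings with the greatest sum of squares -/
theorem col_swap (h : OO W k) (hc : Col W f) {q x : V} (hqx : f q ≠ f x)
    (hx : cls f (f x) = {x}) (hW : 1 ≤ W x q) (hu : ∑ y ∈ cls f (f q), W x y ≤ 1) :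
    Col W (swpc f q x) := by
  have hxy : ∀ y ∈ (cls f (f q)).erase q, W x y = 0 := by
    intro y hy
    have hyx : y ≠ x := by
      rintro rfl
      exact hqx (mem_cls.1 (mem_of_mem_erase hy)).symm
    have h0 : 0 ≤ W x y := h.nn x y (Ne.symm hyx)
    have h1 : W x y ≤ ∑ y ∈ (cls f (f q)).erase q, W x y :=
      Finset.single_le_sum (f := fun y => W x y) (fun z hz => by
        refine h.nn x z ?_
        rintro rfl
        exact hqx (mem_cls.1 (mem_of_mem_erase hz)).symm) hy
    have h2 : W x q + ∑ y ∈ (cls f (f q)).erase q, W x y = ∑ y ∈ cls f (f q), W x y :=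
      Finset.add_sum_erase _ _ (mem_cls.2 rfl)
    linarith
  refine ⟨?_, hc.min, ?_⟩
  · intro i j hij hcol
    by_cases ha : swpc f q x i = f x
    · exfalso
      have h1 : i ∈ cls (swpc f q x) (f x) := mem_cls.2 ha
      have h2 : j ∈ cls (swpc f q x) (f x) := mem_cls.2 (hcol.symm.trans ha)
      rw [swpc_cls_x hx hqx, mem_singleton] at h1 h2
      exact hij (h1.trans h2.symm)
    · by_cases hb : swpc f q x i = f q
      · have h1 : i ∈ cls (swpc f q x) (f q) := mem_cls.2 hb
        have h2 : j ∈ cls (swpc f q x) (f q) := mem_cls.2 (hcol.symm.trans hb)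
        rw [swpc_cls_q hqx, mem_insert] at h1 h2
        rcases h1 with h1 | h1 <;> rcases h2 with h2 | h2
        · exact absurd (h1.trans h2.symm) hij
        · rw [h1]; exact hxy j h2
        · rw [h2, h.symm]; exact hxy i h1
        · exact hc.prop i j hij
            ((mem_cls.1 (mem_of_mem_erase h1)).trans (mem_cls.1 (mem_of_mem_erase h2)).symm)
      · have h1 : i ∈ cls (swpc f q x) (swpc f q x i) := mem_cls.2 rfl
        have h2 : j ∈ cls (swpc f q x) (swpc f q x i) := mem_cls.2 hcol.symm
        rw [swpc_cls_ne hb ha] at h1 h2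
        exact hc.prop i j hij ((mem_cls.1 h1).trans (mem_cls.1 h2).symm)
  · intro g hg
    refine (hc.mx g hg).trans (le_of_eq ?_)
    refine Finset.sum_congr rfl fun a _ => ?_
    have : cls (swpc f q x) a = (cls f a).map (Equiv.swap q x).symm.toEmbedding :=
      cls_comp f (Equiv.swap q x) a
    rw [this, card_map]

end Pool.Agent.QFO
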