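import Pool.Agent.QFO.MCap

/-!
# [QFO-HUBG] majority row with weight at least two on the hubs: many twins (general form)
-/

set_option autoImplicit false
set_option linter.unusedSectionVars false

namespace Pool.Agent.QFO

open Finset Pool.Agent.MP_710317_co.Rec Pool.Agent.MXC

variable {V : Type*} [Fintype V] [DecidableEq V]

/-- the row class of `u` -/
def rcl (W : V → V → ℤ) (C : Finset V) (u : V) : Finset V :=
  C.filter fun i => ∀ z, z ∉ C → W i z = W u z

/-- [QFO-HUB4] many twins: the general form -/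
theorem hub_R1g {W : V → V → ℤ} {k : V → ℤ} (hw : SymK W k) {s : ℤ}
    (hs : Sb W s) {C : Finset V} (h1 : ∀ i ∈ C, ∀ j ∈ C, i ≠ j → W i j = 1)
    (hk : ∀ i ∈ C, k i = 0) (hnn : ∀ i ∈ C, ∀ z, z ∉ C → 0 ≤ W i z)
    {H : Finset V} (hH : ∀ z ∈ H, z ∉ C)
    (hbd : s - ∑ i, k i + 1 ≤ C.card + H.card) {u : V} (huC : u ∈ C)
    (hex : H.card + (C \ rcl W C u).card ≤ (rcl W C u).card)
    (hu2 : ∀ z ∈ H, 2 ≤ W u z) :
    ∃ (c : V → ℤ) (n : ℕ), (∀ i, 0 ≤ c i) ∧ Tw W k c (rcl W C u) ∧ ∑ i, c i = n ∧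
      n + n % 2 ≤ 2 * (rcl W C u).card ∧ (∀ z ∈ H, 2 ≤ c z) ∧ (∀ z ∈ C, c z = 1) := by
  classical
  set L : Finset V := rcl W C u with hL
  set Q : Finset V := C \ L with hQ
  have hLC : L ⊆ C := filter_subset _ _
  have hQC : Q ⊆ C := sdiff_subset
  have hQL : Q.card + L.card = C.card := Finset.card_sdiff_add_card_eq_card hLC
  have hLrow : ∀ i ∈ L, ∀ z, z ∉ C → W i z = W u z := fun i hi => (mem_filter.1 hi).2
  have hQrow : ∀ x ∈ Q, ∃ z, z ∉ C ∧ W x z ≠ W u z := by
    intro x hx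
    obtain ⟨hxC, hxL⟩ := mem_sdiff.1 hx
    by_contra hcon
    push Not at hcon
    exact hxL (mem_filter.2 ⟨hxC, hcon⟩)
  set c : V → ℤ := fun z => if z ∈ C then 1 else W u z with hc
  have hcC : ∀ z ∈ C, c z = 1 := fun z hz => by simp only [hc]; rw [if_pos hz]
  have hcn : ∀ z, z ∉ C → c z = W u z := fun z hz => by simp only [hc]; rw [if_neg hz]
  have hc0 : ∀ z, 0 ≤ c z := by
    intro z
    by_cases hz : z ∈ C
    · rw [hcC z hz]; norm_num
    · rw [hcn z hz]; exact hnn u huC z hz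
  have hTw : Tw W k c L := by
    refine ⟨fun i hi => hcC i (hLC hi), fun i hi => hk i (hLC hi), fun i hi j hj => ?_⟩
    by_cases hjC : j ∈ C
    · rw [hcC j hjC]; exact h1 i (hLC hi) j hjC (Ne.symm hj)
    · rw [hcn j hjC]; exact hLrow i hi j hjC
  obtain ⟨n, hn⟩ := Int.eq_ofNat_of_zero_le (Finset.sum_nonneg fun i (_ : i ∈ univ) => hc0 i)
  refine ⟨c, n, hc0, hTw, hn, ?_, fun z hz => by rw [hcn z (hH z hz)]; exact hu2 z hz, hcC⟩
  by_contra hcon
  have hcon2 : 2 * (L.card : ℤ) ≤ n := by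
    have : 2 * L.card ≤ n := by omega
    exact_mod_cast this
  have hsplit : ∑ i, c i = C.card + ∑ i ∈ Cᶜ, c i := by
    rw [← Finset.sum_add_sum_compl C, Finset.sum_congr rfl hcC]
    simp
  -- the pairs
  obtain ⟨f, hfL, hfi⟩ := exists_inj (A := Q) (B := L) (by omega)
  set fQ : Finset V := Q.image f with hfQ
  have hfQL : fQ ⊆ L := by
    intro y hy
    obtain ⟨x, hx, rfl⟩ := mem_image.1 hy
    exact hfL x hx
  have hfQc : fQ.card = Q.card := Finset.card_image_of_injOn hfi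
  set L' : Finset V := L \ fQ with hL'
  have hL'c : L'.card + fQ.card = L.card := Finset.card_sdiff_add_card_eq_card hfQL
  -- the places outside `C`
  set P : Finset (V × ℕ) := Cᶜ.biUnion fun z => (range (c z).toNat).image fun i => (z, i) with hP
  have hPmem : ∀ p : V × ℕ, p ∈ P ↔ p.1 ∉ C ∧ p.2 < (c p.1).toNat := by
    rintro ⟨z, i⟩
    simp only [hP, mem_biUnion, mem_compl, mem_image, mem_range, Prod.mk.injEq]
    constructor
    · rintro ⟨z', hz', i', hi', rfl, rfl⟩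
      exact ⟨hz', hi'⟩
    · rintro ⟨hz, hi⟩
      exact ⟨z, hz, i, hi, rfl, rfl⟩
  have hPc : (P.card : ℤ) = ∑ i ∈ Cᶜ, c i := by
    rw [hP, Finset.card_biUnion]
    · push_cast
      refine Finset.sum_congr rfl fun z _ => ?_
      rw [Finset.card_image_of_injective _ (fun a b hab => (Prod.mk.inj hab).2), card_range]
      exact Int.toNat_of_nonneg (hc0 z)
    · intro z _ z' _ hzz
      rw [Function.onFun, Finset.disjoint_left]
      intro p hp hp'
      obtain ⟨i, _, rfl⟩ := mem_image.1 hp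
      obtain ⟨i', _, h2⟩ := mem_image.1 hp'
      exact hzz (Prod.mk.inj h2).1.symm
  set P₀ : Finset (V × ℕ) := H.image fun z => (z, 0) with hP₀
  have hP₀P : P₀ ⊆ P := by
    intro p hp
    obtain ⟨z, hz, rfl⟩ := mem_image.1 hp
    rw [hPmem]
    refine ⟨hH z hz, ?_⟩
    have h2 : (2 : ℤ) ≤ c z := by rw [hcn z (hH z hz)]; exact hu2 z hz
    simp only
    omega
  have hP₀c : P₀.card = H.card :=
    Finset.card_image_of_injective _ (fun a b hab => (Prod.mk.inj hab).1)
  have hL'P : L'.card ≤ P.card := by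
    have h2 : (L'.card : ℤ) ≤ P.card := by
      rw [hPc]
      have h3 : (L'.card : ℤ) + fQ.card = L.card := by exact_mod_cast hL'c
      have h4 : (Q.card : ℤ) + L.card = C.card := by exact_mod_cast hQL
      have h5 : (fQ.card : ℤ) = Q.card := by exact_mod_cast hfQc
      have h6 : (∑ i, c i : ℤ) = n := hn
      linarith
    exact_mod_cast h2
  obtain ⟨P₁, hP₀₁, hP₁P, hP₁c⟩ := Finset.exists_subsuperset_card_eq hP₀P (n := L'.card)
    (by rw [hP₀c]; omega) hL'P
  have eq : L' ≃ P₁ := Finset.equivOfCardEq hP₁c.symm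
  set φ : V → V := fun y => if hy : y ∈ L' then ((eq ⟨y, hy⟩ : V × ℕ)).1 else y with hφ
  have hφe : ∀ y (hy : y ∈ L'), φ y = ((eq ⟨y, hy⟩ : V × ℕ)).1 := fun y hy => by
    simp only [hφ]; rw [dif_pos hy]
  have hφP : ∀ y (hy : y ∈ L'), (eq ⟨y, hy⟩ : V × ℕ) ∈ P := fun y hy => hP₁P (eq ⟨y, hy⟩).2
  have hφC : ∀ y ∈ L', φ y ∉ C := fun y hy => by
    rw [hφe y hy]; exact ((hPmem _).1 (hφP y hy)).1
  have hmlt : ∀ z, mlt L' φ z ≤ c z := by
    intro z
    have h2 : (L'.filter fun y => φ y = z).card ≤ (range (c z).toNat).card := by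
      refine Finset.card_le_card_of_injOn
        (fun y => if hy : y ∈ L' then ((eq ⟨y, hy⟩ : V × ℕ)).2 else 0) ?_ ?_
      · intro y hy
        obtain ⟨hyL, hyz⟩ := mem_filter.1 (by exact_mod_cast hy : y ∈ L'.filter fun y => φ y = z)
        have h3 := ((hPmem _).1 (hφP y hyL)).2
        rw [← hφe y hyL, hyz] at h3
        simp only [dif_pos hyL]
        exact_mod_cast mem_range.2 h3
      · intro y hy y' hy' hyy
        have h3 := mem_filter.1 (by exact_mod_cast hy : y ∈ L'.filter fun y => φ y = z)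
        have h4 := mem_filter.1 (by exact_mod_cast hy' : y' ∈ L'.filter fun y => φ y = z)
        simp only [dif_pos h3.1, dif_pos h4.1] at hyy
        have h5 : (eq ⟨y, h3.1⟩ : V × ℕ) = (eq ⟨y', h4.1⟩ : V × ℕ) := by
          refine Prod.ext ?_ hyy
          rw [← hφe y h3.1, ← hφe y' h4.1, h3.2, h4.2]
        have h6 := eq.injective (Subtype.ext h5)
        exact congrArg Subtype.val h6
    rw [card_range] at h2
    unfold mlt
    have h3 : (((L'.filter fun y => φ y = z).card : ℕ) : ℤ) ≤ ((c z).toNat : ℤ) := by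
      exact_mod_cast h2
    rwa [Int.toNat_of_nonneg (hc0 z)] at h3
  have hmltH : ∀ z ∈ H, 1 ≤ mlt L' φ z := by
    intro z hz
    have h2 : ((z, 0) : V × ℕ) ∈ P₁ := hP₀₁ (mem_image_of_mem _ hz)
    set y : L' := eq.symm ⟨(z, 0), h2⟩ with hy
    have h3 : (y : V) ∈ L'.filter fun y => φ y = z := by
      refine mem_filter.2 ⟨y.2, ?_⟩
      rw [hφe y.1 y.2]
      simp [hy]
    unfold mlt
    have h4 : 0 < (L'.filter fun y => φ y = z).card := Finset.card_pos.2 ⟨_, h3⟩
    exact_mod_cast h4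
  have hL'L : ∀ y ∈ L', y ∈ L ∧ y ∉ fQ := fun y hy => mem_sdiff.1 hy
  have hWφ : ∀ y ∈ L', W y (φ y) = c (φ y) := fun y hy => by
    rw [hcn _ (hφC y hy)]; exact hLrow y (hL'L y hy).1 _ (hφC y hy)
  have hcap := mcap_lemma L' hw hs h1 hk (X := Q) hQC f (fun x hx => hLC (hfL x hx))
    (fun x hx hx2 => (mem_sdiff.1 hx2).2 (hfL x hx)) hfi (by
      intro x hx
      obtain ⟨z, hz, hzne⟩ := hQrow x hx
      refine ⟨z, hz, ?_⟩
      rw [hLrow _ (hfL x hx) z hz]
      exact hzne)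
    (fun y hy => hLC (hL'L y hy).1)
    (Finset.disjoint_left.2 fun y hy hy2 => (mem_sdiff.1 hy2).2 (hL'L y hy).1)
    (fun x hx hx2 => (hL'L _ hx2).2 (mem_image_of_mem f hx)) φ hφC
    (fun y hy => by rw [hWφ y hy]; exact hmlt _)
  -- the excess
  have hexc : 2 * (H.card : ℤ) ≤ ∑ y ∈ L', (2 * c (φ y) - mlt L' φ (φ y) - 1) := by
    set g : V → ℤ := fun z => 2 * c z - mlt L' φ z - 1 with hg
    have h2 : ∑ y ∈ L', (2 * c (φ y) - mlt L' φ (φ y) - 1) = ∑ z, mlt L' φ z * g z := by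
      have h3 : ∀ y ∈ L', (2 * c (φ y) - mlt L' φ (φ y) - 1) =
          ∑ z, (if φ y = z then (1 : ℤ) else 0) * g z := by
        intro y _
        rw [Finset.sum_eq_single (φ y)]
        · rw [if_pos rfl, one_mul]
        · intro z _ hz
          rw [if_neg (Ne.symm hz), zero_mul]
        · intro h; exact absurd (mem_univ _) h
      rw [Finset.sum_congr rfl h3, Finset.sum_comm]
      refine Finset.sum_congr rfl fun z _ => ?_
      rw [← Finset.sum_mul, mlt_sum]
    rw [h2]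
    have h4 : ∀ z, 0 ≤ mlt L' φ z * g z := by
      intro z
      have h5 := mlt_nonneg L' φ z
      rcases h5.eq_or_lt with h6 | h6
      · rw [← h6, zero_mul]
      · have h7 := hmlt z
        refine mul_nonneg h5 ?_
        simp only [hg]
        linarith
    have h5 : ∀ z ∈ H, 2 ≤ mlt L' φ z * g z := by
      intro z hz
      have h6 := hmltH z hz
      have h7 := hmlt z
      have h8 : (2 : ℤ) ≤ c z := by rw [hcn z (hH z hz)]; exact hu2 z hz
      simp only [hg]
      nlinarith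
    calc 2 * (H.card : ℤ) = ∑ z ∈ H, (2 : ℤ) := by
          rw [Finset.sum_const, nsmul_eq_mul]; ring
      _ ≤ ∑ z ∈ H, mlt L' φ z * g z := Finset.sum_le_sum h5
      _ ≤ ∑ z, mlt L' φ z * g z :=
          Finset.sum_le_sum_of_subset_of_nonneg (subset_univ H) fun z _ _ => h4 z
  have hsum : ∑ y ∈ L', (2 * W y (φ y) - mlt L' φ (φ y) + 1) =
      ∑ y ∈ L', (2 * c (φ y) - mlt L' φ (φ y) - 1) + 2 * L'.card := by
    have h2 : (2 * (L'.card : ℤ)) = ∑ y ∈ L', (2 : ℤ) := by
      rw [Finset.sum_const, nsmul_eq_mul]; ring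
    rw [h2, ← Finset.sum_add_distrib]
    refine Finset.sum_congr rfl fun y hy => ?_
    rw [hWφ y hy]; ring
  rw [hsum] at hcap
  have hmod : (C.card + L'.card) % 2 = 0 := by omega
  rw [hmod] at hcap
  have h3 : (L'.card : ℤ) + fQ.card = L.card := by exact_mod_cast hL'c
  have h4 : (Q.card : ℤ) + L.card = C.card := by exact_mod_cast hQL
  have h5 : (fQ.card : ℤ) = Q.card := by exact_mod_cast hfQc
  push_cast at hcap
  linarith

end Pool.Agent.QFO
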