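import Pool.Agent.QFO.NumD

/-!
# [QFO-HubNum] the numerical part of the hub case with `r > 0`
-/

set_option autoImplicit false
set_option linter.unusedSectionVars false

namespace Pool.Agent.QFO

open Finset Pool.Agent.MP_710317_co.Rec Pool.Agent.MXC

/-- the exceptions -/
def hexc (m r K2 : ℕ) : Bool :=
  Nat.beq K2 1 &&
  ((Nat.beq r 8 && (Nat.beq m 63 || Nat.beq m 74 || Nat.beq m 86)) || Nat.beq r 20 || Nat.beq r 35)

def hin (m s n r τ K2 : ℕ) : Bool :=
  chk (fun N0 => force (Nat.add (Nat.succ s) N0) fun N =>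
    Nat.ble n N || chk (fun h0 => Nat.ble (Nat.succ (Nat.add s (Nat.succ h0))) N ||
      chk (fun K => Nat.ble (Nat.succ K2) (Nat.add K (Nat.succ h0)) ||
        Nat.ble (Nat.succ (Nat.mul (Nat.sub s K) (qf N))) (Nat.add m K) ||
        hexc m r K2 ||
        chk (fun K3 => Nat.ble (Nat.succ (Nat.add K3 N)) (Nat.add K n) ||
          !(Nat.beq (Nat.add (tab (Nat.add r K3)) K3) τ)) (Nat.succ τ)) (Nat.succ K2))
      (Nat.sub n N)) n

def hchk (m : ℕ) : Bool :=
  force (tab m) fun s =>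
    Nat.ble (Nat.succ (Nat.add (Nat.mul 7 (Nat.mul s s)) s)) (Nat.mul 6 m) ||
    chk (fun n => Nat.ble n s || Nat.ble m (chb n) ||
      force (Nat.sub m (chb n)) fun r => force (tab r) fun τ =>
        !(Nat.beq (Nat.add (Nat.div n 2) τ) s) ||
        chk (fun K2 => Nat.ble τ (Nat.add K2 2) ||
          !(Nat.beq (Nat.add (tab (Nat.add r K2)) K2) τ) || hin m s n r τ K2) (Nat.succ τ))
      (Nat.add (Nat.mul 2 s) 2)

theorem hchk_all : chk hchk 1400 = true := by decide +kernel

theorem hsq_all : chk (fun i => Nat.ble (Nat.succ (Nat.add (Nat.mul 7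
    (Nat.mul (tab (Nat.add 1400 i)) (tab (Nat.add 1400 i)))) (tab (Nat.add 1400 i))))
    (Nat.mul 6 (Nat.add 1400 i))) 80 = true := by decide +kernel

/-- runs of slope `-1` -/
theorem hrun_all : chk (fun x => chk (fun K => Nat.ble x K || Nat.ble K (tab x) ||
    !(Nat.beq (tab (Nat.sub x K)) (Nat.add (tab x) K))) (Nat.succ x)) 60 = true := by
  decide +kernel

theorem bfalse {a b : ℕ} (h : ¬ a ≤ b) : Nat.ble a b = false := ble_false (by omega)

/-- `T (x - K) = T x + K` with `K < x` forces `K ≤ T x` -/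
theorem run_le {r K : ℕ} (hr : 1 ≤ r) (h : T ((r : ℤ) + K) + K = T r) :
    (K : ℤ) ≤ T ((r : ℤ) + K) := by
  obtain ⟨t, ht⟩ := Int.eq_ofNat_of_zero_le (T_nonneg ((r : ℤ) + K))
  rw [ht] at h ⊢
  by_contra hcon
  have h1 : t + 1 ≤ K := by
    have : (t : ℤ) < K := lt_of_not_ge hcon
    omega
  have h2 := T_sq2 r
  have h3 := T_edw (r + K)
  have e : (((r + K : ℕ) : ℤ)) = (r : ℤ) + K := by push_cast; ring
  rw [e, ht] at h3
  rw [← h] at h2
  have h4 : (t : ℤ) ≤ 5 := by
    by_contra h5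
    have h6 : (6 : ℤ) ≤ t := by omega
    have h7 : (t : ℤ) + 1 ≤ K := by exact_mod_cast h1
    nlinarith
  have h5 : r + K ≤ 55 := by
    have : (r : ℤ) + K ≤ 55 := by nlinarith
    exact_mod_cast this
  have h6 := chk_all (chk_all hrun_all (r + K) (by omega)) K
    (by show K < (r + K) + 1; omega)
  have e2 : Nat.sub (r + K) K = r := by
    show r + K - K = r
    omega
  rw [e2, bfalse (show ¬ r + K ≤ K by omega)] at h6
  have h7 := T_eq_tab (r + K) (by omega)
  have h8 := T_eq_tab r (by omega)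
  rw [e, ht] at h7
  have h9 : tab (r + K) = t := by exact_mod_cast h7.symm
  rw [h9, bfalse (show ¬ K ≤ t by omega)] at h6
  rw [h8] at h
  have h10 : Nat.beq (tab r) (Nat.add t K) = true := by
    have : tab r = t + K := by
      have h11 : ((tab r : ℕ) : ℤ) = ((t + K : ℕ) : ℤ) := by rw [← h]; push_cast; ring
      exact_mod_cast h11
    rw [this]
    exact Nat.beq_refl _
  rw [h10] at h6
  exact absurd h6 (by decide)

theorem hub_num {m n r N K h K2 K3 : ℕ} (hr : 1 ≤ r) (hm : m = n.choose 2 + r)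
    (hT : T (m : ℤ) = ((n / 2 : ℕ) : ℤ) + T (r : ℤ))
    (h2 : T ((r : ℤ) + K2) + K2 = T r) (h3 : T ((r : ℤ) + K3) + K3 = T r)
    (hK3 : K + n ≤ K3 + N) (hNh : N + h ≤ n) (hK2 : K + h ≤ K2) (hN : T (m : ℤ) < N)
    (hNs : (N : ℤ) ≤ T (m : ℤ) + h) (hav : (m : ℤ) + K ≤ (T (m : ℤ) - K) * qf N) (hh : 1 ≤ h) :
    T (r : ℤ) ≤ K2 + 2 ∨ (K2 = 1 ∧ ((r = 8 ∧ (m = 63 ∨ m = 74 ∨ m = 86)) ∨ r = 20 ∨ r = 35)) := by
  obtain ⟨s, hs⟩ := Int.eq_ofNat_of_zero_le (T_nonneg (m : ℤ))
  obtain ⟨τ, hτ⟩ := Int.eq_ofNat_of_zero_le (T_nonneg (r : ℤ))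
  have hrun := run_le hr h3
  rw [hs] at hT hN hNs hav
  rw [hτ] at hT h3
  have hsτ : s = n / 2 + τ := by exact_mod_cast hT
  have h2K3 : 2 * K3 ≤ τ := by
    have : (2 : ℤ) * K3 ≤ τ := by linarith
    exact_mod_cast this
  have hN' : s + 1 ≤ N := by
    have : (s : ℤ) < N := hN
    omega
  have hNs' : N ≤ s + h := by exact_mod_cast hNs
  have hsN : 6 * N ≤ 7 * s + 1 := by omega
  -- the bound for `m`
  have hqf : qf N ≤ N := qf_le N
  have hKs : (K : ℤ) ≤ s := by
    have : K ≤ s := by omega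
    exact_mod_cast this
  have hmN : (m : ℤ) ≤ s * N := by
    have h4 : ((s : ℤ) - K) * qf N ≤ s * N := by
      have h5 : (0 : ℤ) ≤ (s : ℤ) - K := by linarith
      have h6 : (qf N : ℤ) ≤ N := by exact_mod_cast hqf
      have h7 : (0 : ℤ) ≤ (qf N : ℤ) := Int.natCast_nonneg _
      calc ((s : ℤ) - K) * qf N ≤ ((s : ℤ) - K) * N := mul_le_mul_of_nonneg_left h6 h5
        _ ≤ (s : ℤ) * N := by
          apply mul_le_mul_of_nonneg_right _ (Int.natCast_nonneg N)
          linarith [Int.natCast_nonneg K]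
    have h5 : (0 : ℤ) ≤ K := Int.natCast_nonneg K
    linarith
  have h6m : 6 * (m : ℤ) ≤ s * (7 * s + 1) := by
    have h4 : (6 : ℤ) * N ≤ 7 * s + 1 := by exact_mod_cast hsN
    have h5 : (0 : ℤ) ≤ s := Int.natCast_nonneg s
    nlinarith
  have hsq := T_sq2 m
  rw [hs] at hsq
  have hm1470 : m < 1480 := by
    by_contra hcon
    have h5 : (1480 : ℤ) ≤ m := by
      have : 1480 ≤ m := by omega
      exact_mod_cast this
    have h6 : (0 : ℤ) ≤ s := Int.natCast_nonneg s
    have h7 : 2 * (m : ℤ) ≤ 2765 + 5 * s := by nlinarith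
    nlinarith
  have hm1400 : m < 1400 := by
    by_contra hcon
    have h5 := chk_all hsq_all (m - 1400) (by omega)
    have e : Nat.add 1400 (m - 1400) = m := by
      show 1400 + (m - 1400) = m
      omega
    rw [e] at h5
    have h6 : 7 * (tab m * tab m) + tab m + 1 ≤ 6 * m := Nat.le_of_ble_eq_true h5
    have h7 := T_le_tab m (by omega)
    rw [hs] at h7
    have h8 : s ≤ tab m := by exact_mod_cast h7
    have h9 : s * s ≤ tab m * tab m := Nat.mul_le_mul h8 h8
    have h10 : 6 * m ≤ s * (7 * s + 1) := by exact_mod_cast h6m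
    have h11 : s * (7 * s + 1) = 7 * (s * s) + s := by ring
    omega
  have hn2 : 2 ≤ n := by omega
  have hchn : n - 1 ≤ n.choose 2 := by
    rw [Nat.choose_two_right]
    obtain ⟨q, rfl⟩ : ∃ q, n = q + 2 := ⟨n - 2, by omega⟩
    rw [Nat.le_div_iff_mul_le (by norm_num)]
    show (q + 2 - 1) * 2 ≤ (q + 2) * (q + 2 - 1)
    have : q + 2 - 1 = q + 1 := by omega
    rw [this]
    nlinarith
  have hK3m : r + K3 ≤ m := by omega
  have hK23 : K2 ≤ τ := by
    have h4 := T_nonneg ((r : ℤ) + K2)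
    rw [hτ] at h2
    have : (K2 : ℤ) ≤ τ := by linarith
    exact_mod_cast this
  have hK2m : r + K2 ≤ m + n := by omega
  have hK2m' : r + K2 < 1400 := by omega
  have es := T_eq_tab m hm1400
  rw [hs] at es
  have es' : tab m = s := by exact_mod_cast es.symm
  have er := T_eq_tab r (by omega)
  rw [hτ] at er
  have er' : tab r = τ := by exact_mod_cast er.symm
  have e2 := T_eq_tab (r + K2) hK2m'
  have e3 := T_eq_tab (r + K3) (by omega)
  push_cast at e2 e3
  rw [e2, hτ] at h2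
  rw [e3] at h3
  have h2' : tab (r + K2) + K2 = τ := by exact_mod_cast h2
  have h3' : tab (r + K3) + K3 = τ := by exact_mod_cast h3
  by_cases hgoal : τ ≤ K2 + 2
  · left
    rw [hτ]
    exact_mod_cast hgoal
  right
  have hc := chk_all hchk_all m hm1400
  unfold hchk at hc
  rw [force_eq, es'] at hc
  have h10 : 6 * m ≤ s * (7 * s + 1) := by exact_mod_cast h6m
  have h11 : s * (7 * s + 1) = 7 * (s * s) + s := by ring
  have q1 : Nat.ble (Nat.succ (Nat.add (Nat.mul 7 (Nat.mul s s)) s)) (Nat.mul 6 m) = false :=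
    bfalse (by
      show ¬ (7 * (s * s) + s + 1 ≤ 6 * m)
      omega)
  rw [q1, Bool.false_or] at hc
  have hc2 := chk_all hc n (by show n < 2 * s + 2; omega)
  rw [force_eq, chb_eq] at hc2
  have er2 : Nat.sub m (n.choose 2) = r := by
    show m - n.choose 2 = r
    omega
  rw [er2, force_eq, er', bfalse (show ¬ n ≤ s by omega),
    bfalse (show ¬ m ≤ n.choose 2 by omega)] at hc2
  have q2 : Nat.beq (Nat.add (Nat.div n 2) τ) s = true := by
    have : Nat.add (Nat.div n 2) τ = s := hsτ.symm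
    rw [this]
    exact Nat.beq_refl _
  rw [q2] at hc2
  simp only [Bool.false_or, Bool.not_true] at hc2
  have hc3 := chk_all hc2 K2 (by show K2 < τ + 1; omega)
  have q3 : Nat.ble τ (Nat.add K2 2) = false := bfalse hgoal
  have q4 : Nat.beq (Nat.add (tab (Nat.add r K2)) K2) τ = true := by
    have : Nat.add (tab (Nat.add r K2)) K2 = τ := h2'
    rw [this]
    exact Nat.beq_refl _
  rw [q3, q4] at hc3
  simp only [Bool.false_or, Bool.not_true] at hc3
  unfold hin at hc3
  have hc4 := chk_all hc3 (N - (s + 1)) (by omega)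
  rw [force_eq] at hc4
  have eN : Nat.add (Nat.succ s) (N - (s + 1)) = N := by
    show s + 1 + (N - (s + 1)) = N
    omega
  rw [eN, bfalse (show ¬ n ≤ N by omega), Bool.false_or] at hc4
  have hc5 := chk_all hc4 (h - 1) (by show h - 1 < n - N; omega)
  have eh : Nat.succ (h - 1) = h := by omega
  rw [eh] at hc5
  have q5 : Nat.ble (Nat.succ (Nat.add s h)) N = false := bfalse (by
    show ¬ (s + h + 1 ≤ N)
    omega)
  rw [q5, Bool.false_or] at hc5
  have hc6 := chk_all hc5 K (by show K < K2 + 1; omega)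
  have q6 : Nat.ble (Nat.succ K2) (Nat.add K h) = false := bfalse (by
    show ¬ (K2 + 1 ≤ K + h)
    omega)
  have q7 : Nat.ble (Nat.succ (Nat.mul (Nat.sub s K) (qf N))) (Nat.add m K) = false := bfalse (by
    show ¬ ((s - K) * qf N + 1 ≤ m + K)
    intro h12
    have h13 : ((s - K : ℕ) : ℤ) = (s : ℤ) - K := by
      have : K ≤ s := by exact_mod_cast hKs
      push_cast [Nat.cast_sub this]
      ring
    have h14 : (((s - K) * qf N + 1 : ℕ) : ℤ) ≤ ((m + K : ℕ) : ℤ) := by exact_mod_cast h12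
    push_cast [h13] at h14
    linarith)
  rw [q6, q7] at hc6
  simp only [Bool.false_or] at hc6
  rw [Bool.or_eq_true] at hc6
  rcases hc6 with hc6 | hc6
  · unfold hexc at hc6
    simp only [Bool.or_eq_true, Bool.and_eq_true] at hc6
    obtain ⟨a1, a3⟩ := hc6
    refine ⟨Nat.eq_of_beq_eq_true a1, ?_⟩
    rcases a3 with (⟨a3, a4⟩ | a3) | a3
    · left
      refine ⟨Nat.eq_of_beq_eq_true a3, ?_⟩
      rcases a4 with (a4 | a4) | a4
      · left; exact Nat.eq_of_beq_eq_true a4
      · right; left; exact Nat.eq_of_beq_eq_true a4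
      · right; right; exact Nat.eq_of_beq_eq_true a4
    · right; left; exact Nat.eq_of_beq_eq_true a3
    · right; right; exact Nat.eq_of_beq_eq_true a3
  · exfalso
    have hc7 := chk_all hc6 K3 (by show K3 < τ + 1; omega)
    have q8 : Nat.ble (Nat.succ (Nat.add K3 N)) (Nat.add K n) = false := bfalse (by
      show ¬ (K3 + N + 1 ≤ K + n)
      omega)
    have q9 : Nat.beq (Nat.add (tab (Nat.add r K3)) K3) τ = true := by
      have : Nat.add (tab (Nat.add r K3)) K3 = τ := h3'
      rw [this]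
      exact Nat.beq_refl _
    rw [q8, q9] at hc7
    exact absurd hc7 (by decide)

end Pool.Agent.QFO
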