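import Pool.Agent.QFO.KillE

/-!
# [QFO-K113] `N` odd: averaging over near-perfect matchings; the B part for `m = 113`, `N = 11`
-/

set_option autoImplicit false
set_option linter.unusedSectionVars false

namespace Pool.Agent.QFO

open Finset Pool.Agent.MP_710317_co.Rec Pool.Agent.MXC

variable {V : Type*} [Fintype V] [DecidableEq V]

/-- a best matching of an odd number of points has exactly one fixed point -/
theorem odd_fix {w : V → V → ℤ} {τ : V → V} (hB : Best w τ) (h2 : Fintype.card V % 2 = 1) :
    ∃ z, τ z = z ∧ ∀ x, x ≠ z → τ x ≠ x := by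
  have h := hB.fix
  rw [h2, Finset.card_eq_one] at h
  obtain ⟨z, hz⟩ := h
  have h3 : z ∈ (univ.filter fun x => τ x = x) := by rw [hz]; exact mem_singleton_self z
  refine ⟨z, (mem_filter.1 h3).2, fun x hx hx' => hx ?_⟩
  have h4 : x ∈ (univ.filter fun x => τ x = x) := mem_filter.2 ⟨mem_univ x, hx'⟩
  rw [hz, mem_singleton] at h4
  exact h4

/-- the weight is at most `N` times the weight of a best near-perfect matching -/
theorem avg_odd {w : V → V → ℤ} (hw : Sym w) {τ : V → V} (hB : Best w τ) {z : V} (hz : τ z = z)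
    (hfp : ∀ x, x ≠ z → τ x ≠ x) : inn w univ ≤ (Fintype.card V : ℤ) * ∑ x, w x (τ x) := by
  have hτ := hB.inv
  have hτz : ∀ x, x ≠ z → τ x ≠ z := fun x hx h => hx (by rw [← hτ x, h, hz])
  have hzx : ∀ x, x ≠ z → w z x ≤ w x (τ x) := by
    intro x hx
    have h := best_le1 hw hB (a := z) (b := τ x) (Ne.symm (hτz x hx)) hz
      (by rw [hτ]; exact Ne.symm (hfp x hx))
    rw [hτ, hw.symm (τ x) x] at h
    exact h
  have hzz : w z (τ z) = 0 := by rw [hz, hw.diag]
  have key : ∀ x y, w x y + w (τ x) (τ y) ≤ w x (τ x) + w y (τ y) +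
      (if x = z then w y (τ y) else 0) + (if y = z then w x (τ x) else 0) -
      (if y = x then 2 * w x (τ x) else 0) := by
    intro x y
    by_cases hxy : y = x
    · rw [if_pos hxy, hxy, hw.diag, hw.diag]
      by_cases hx : x = z
      · rw [if_pos hx, hx, hzz]
        norm_num
      · rw [if_neg hx]
        linarith
    · rw [if_neg hxy]
      by_cases hx : x = z
      · rw [if_pos hx, if_neg (fun h => hxy (h.trans hx.symm)), hx, hzz, hz]
        have hy : y ≠ z := fun h => hxy (h.trans hx.symm)
        have e1 := hzx y hy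
        have e2 := hzx (τ y) (hτz y hy)
        rw [hτ, hw.symm (τ y) y] at e2
        linarith
      · rw [if_neg hx]
        by_cases hy : y = z
        · rw [if_pos hy, hy, hzz, hz]
          have e1 := hzx x hx
          have e2 := hzx (τ x) (hτz x hx)
          rw [hτ, hw.symm (τ x) x, hw.symm z (τ x)] at e2
          rw [hw.symm z x] at e1
          linarith
        · rw [if_neg hy]
          by_cases hyt : y = τ x
          · rw [hyt, hτ, hw.symm (τ x) x]
            linarith
          · have e1 := best_le hw hB (a := x) (b := τ y) (fun h => hyt (by rw [h, hτ]))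
              (fun h => hxy (by rw [← hτ y, ← h, hτ])) (hfp x hx)
              (by rw [hτ]; exact Ne.symm (hfp y hy))
            rw [hτ, hw.symm (τ y) (τ x), hw.symm (τ y) y] at e1
            linarith
  have h1 : ∑ x, ∑ y, (w x y + w (τ x) (τ y)) ≤ ∑ x, ∑ y, (w x (τ x) + w y (τ y) +
      (if x = z then w y (τ y) else 0) + (if y = z then w x (τ x) else 0) -
      (if y = x then 2 * w x (τ x) else 0)) :=
    Finset.sum_le_sum fun x _ => Finset.sum_le_sum fun y _ => key x y
  have hbij : Function.Bijective τ := Function.Involutive.bijective hτ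
  have h2 : ∑ x, ∑ y, w (τ x) (τ y) = ∑ x, ∑ y, w x y := by
    rw [hbij.sum_comp (fun x => ∑ y, w x (τ y))]
    exact Finset.sum_congr rfl fun x _ => hbij.sum_comp (fun y => w x y)
  have h3 : ∀ x, ∑ y, (if x = z then w y (τ y) else 0) =
      if x = z then ∑ y, w y (τ y) else 0 := by
    intro x
    by_cases hx : x = z
    · simp [hx]
    · simp [hx]
  simp only [Finset.sum_add_distrib, Finset.sum_sub_distrib] at h1
  rw [h2] at h1
  simp only [h3, Finset.sum_const, Finset.card_univ, nsmul_eq_mul, Finset.sum_ite_eq', mem_univ,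
    if_true] at h1
  rw [← Finset.mul_sum, ← Finset.mul_sum] at h1
  have h4 : inn w univ = ∑ x, ∑ y, w x y := rfl
  rw [h4]
  linarith

/-- two cuts which differ only at the fixed point of a near-perfect matching -/
theorem two_cuts {w : V → V → ℤ} (hw : Sym w) {τ : V → V} (hτ : ∀ x, τ (τ x) = x) {z : V}
    (hz : τ z = z) (hfp : ∀ x, x ≠ z → τ x ≠ x) : ∃ e : V → ℤ, IsSign e ∧
      2 * ∑ x, w x (τ x) ≤ en w e + en w (Function.update e z (- e z)) ∧
      ∀ x, x ≠ z → e (τ x) = - e x := by
  classical
  set w' : V → V → ℤ := fun i j => if i = z ∨ j = z then 0 else w i j with hw'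
  have hs' : Sym w' := by
    refine ⟨fun i j => ?_, fun i => ?_⟩
    · simp only [hw']
      by_cases h : i = z ∨ j = z
      · rw [if_pos h, if_pos h.symm]
      · rw [if_neg h, if_neg (fun h' => h h'.symm), hw.symm]
    · simp only [hw']
      split
      · rfl
      · exact hw.diag i
  have hτz : ∀ x, x ≠ z → τ x ≠ z := fun x hx h => hx (by rw [← hτ x, h, hz])
  obtain ⟨e, he, _, heτ, hle⟩ := rel_match hs' τ hτ _ {z} rfl (fun x hx => by
    rw [mem_singleton] at hx
    exact ⟨by rw [mem_singleton]; exact hτz x hx, hfp x hx⟩) (fun _ => 1) (fun _ => Or.inl rfl)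
  refine ⟨e, he, ?_, fun x hx => heτ x (by rw [mem_singleton]; exact hx)⟩
  have h1 : qs w' {z} (fun _ => 1) = 0 := by
    unfold qs
    rw [Finset.sum_singleton, Finset.sum_singleton, hs'.diag]
    ring
  have h2 : ∑ x ∈ ({z} : Finset V)ᶜ, w' x (τ x) = ∑ x, w x (τ x) := by
    rw [← Finset.sum_add_sum_compl {z} (fun x => w x (τ x)), Finset.sum_singleton, hz, hw.diag,
      zero_add]
    refine Finset.sum_congr rfl fun x hx => ?_
    rw [mem_compl, mem_singleton] at hx
    simp only [hw']
    rw [if_neg (by rintro (h | h); exacts [hx h, hτz x hx h])]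
  rw [h1, h2, sub_zero] at hle
  have h3 : en w e + en w (Function.update e z (- e z)) = 2 * en w' e := by
    unfold en
    rw [← neg_add, ← Finset.sum_add_distrib, mul_neg]
    congr 1
    rw [Finset.mul_sum]
    refine Finset.sum_congr rfl fun i _ => ?_
    rw [← Finset.sum_add_distrib, Finset.mul_sum]
    refine Finset.sum_congr rfl fun j _ => ?_
    simp only [hw']
    by_cases hi : i = z
    · by_cases hj : j = z
      · rw [if_pos (Or.inl hi), hi, hj, hw.diag]
        ring
      · rw [if_pos (Or.inl hi), hi, Function.update_self, Function.update_of_ne hj]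
        ring
    · by_cases hj : j = z
      · rw [if_pos (Or.inr hj), hj, Function.update_self, Function.update_of_ne hi]
        ring
      · rw [if_neg (by rintro (h | h); exacts [hi h, hj h]), Function.update_of_ne hi,
          Function.update_of_ne hj]
        ring
  rw [h3]
  linarith

theorem upd_sign {e : V → ℤ} (he : IsSign e) (z : V) : IsSign (Function.update e z (- e z)) := by
  intro i
  by_cases h : i = z
  · rw [h, Function.update_self]
    rcases he z with h1 | h1
    · right; rw [h1]
    · left; rw [h1]; norm_num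
  · rw [Function.update_of_ne h]
    exact he i

theorem upd_df (w : V → V → ℤ) (e : V → ℤ) (z : V) :
    df w (Function.update e z (- e z)) = df w e - 2 * e z * ∑ j, w z j := by
  unfold df
  have h1 : ∀ i, ∑ j, w i j * Function.update e z (- e z) i =
      ∑ j, w i j * e i - (if i = z then 2 * e z * ∑ j, w z j else 0) := by
    intro i
    by_cases h : i = z
    · rw [if_pos h, h, Function.update_self, ← Finset.sum_mul, ← Finset.sum_mul]
      ring
    · rw [if_neg h, Function.update_of_ne h, sub_zero]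
  rw [Finset.sum_congr rfl fun i _ => h1 i, Finset.sum_sub_distrib, Finset.sum_ite_eq',
    if_pos (mem_univ z)]

/-- the parity of the surplus -/
theorem en_mod {w : V → V → ℤ} (hw : Sym w) {m s u : ℤ} (hm : inn w univ = 2 * m)
    (hpar : m - s = 2 * u) {e : V → ℤ} (he : IsSign e) (h1 : en w e ≤ 2 * s)
    (h2 : 2 * s - 3 ≤ en w e) : en w e = 2 * s := by
  obtain ⟨k, hk⟩ := en_par hw hm e he
  omega

/-- `N` odd, all weights at least `1`, total weight `> N (s - 1)`: an optimal cut with
`|d| ≥ (N - 1)/2` -/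
theorem odd_B {w : V → V → ℤ} (hw : Sym w) (h2 : Fintype.card V % 2 = 1)
    (h1 : ∀ i j, i ≠ j → 1 ≤ w i j) {m s u : ℤ} (hm : inn w univ = 2 * m) (hs : Sb w s)
    (hpar : m - s = 2 * u) (hgt : (Fintype.card V : ℤ) * (s - 1) < m) :
    ∃ e : V → ℤ, IsSign e ∧ en w e = 2 * s ∧ (Fintype.card V : ℤ) - 1 ≤ |df w e| := by
  classical
  obtain ⟨τ, hB⟩ := exists_best w
  obtain ⟨z, hz, hfp⟩ := odd_fix hB h2
  have h3 := avg_odd hw hB hz hfp
  rw [hm] at h3
  have hN : (0 : ℤ) < Fintype.card V := by
    have : 0 < Fintype.card V := by omega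
    exact_mod_cast this
  have h4 : 2 * s - 1 ≤ ∑ x, w x (τ x) := by
    by_contra hcon
    push Not at hcon
    have h5 : ∑ x, w x (τ x) ≤ 2 * s - 2 := by omega
    have h6 := mul_le_mul_of_nonneg_left h5 hN.le
    nlinarith
  obtain ⟨e, he, h5, _⟩ := two_cuts hw hB.inv hz hfp
  have he' := upd_sign he z
  have h6 := hs e he
  have h7 := hs _ he'
  have h8 := en_mod hw hm hpar he h6 (by linarith)
  have h9 := en_mod hw hm hpar he' h7 (by linarith)
  have h10 := upd_df w e z
  have hdeg : (Fintype.card V : ℤ) - 1 ≤ ∑ j, w z j := by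
    rw [← Finset.add_sum_erase univ _ (mem_univ z), hw.diag, zero_add]
    have h11 : ∑ j ∈ univ.erase z, (1 : ℤ) ≤ ∑ j ∈ univ.erase z, w z j :=
      Finset.sum_le_sum fun j hj => h1 z j (ne_of_mem_erase hj).symm
    rw [Finset.sum_const, Finset.card_erase_of_mem (mem_univ z), Finset.card_univ,
      nsmul_eq_mul, mul_one, Nat.cast_sub (by omega)] at h11
    simpa using h11
  by_contra hcon
  push Not at hcon
  have c1 := hcon e he h8
  have c2 := hcon _ he' h9
  rw [h10] at c2
  rw [abs_lt] at c1 c2
  rcases he z with h11 | h11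
  · rw [h11] at c2
    linarith [c1.1, c1.2, c2.1, c2.2]
  · rw [h11] at c2
    linarith [c1.1, c1.2, c2.1, c2.2]

/-- the transfer to colourings without loops -/
theorem push_sym0 {V : Type*} [Fintype V] [DecidableEq V] {W : V → V → ℤ} {k : V → ℤ}
    (h : OO W k) (hK : ∑ i, k i = 0) {N : ℕ} {f : V → Fin N} (hf : Col W f) :
    Sym (push W f) := by
  have hk : ∀ i, k i = 0 := fun i =>
    (Finset.sum_eq_zero_iff_of_nonneg (fun i _ => h.knn i)).1 hK i (mem_univ i)
  refine ⟨fun a b => push_symm h.symm f a b, fun a => ?_⟩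
  rw [push_diag h.toSymK hf.prop, Finset.sum_eq_zero fun x _ => hk x]
  ring

/-- B part without loops, `N` odd, `m > N (s - 1)` -/
theorem base_B_odd {V : Type} [Fintype V] [DecidableEq V] {W : V → V → ℤ} {k : V → ℤ}
    (h : OO W k) (hK : ∑ i, k i = 0) {N : ℕ} {f : V → Fin N} (hf : Col W f) (hN : N % 2 = 1)
    {m s u : ℤ} (hm : inn W univ = 2 * m) (hs : Sb W s) (hpar : m - s = 2 * u)
    (hgt : (N : ℤ) * (s - 1) < m) :
    ∃ e : V → ℤ, IsSign e ∧ en W e = 2 * s ∧ (N : ℤ) - 1 ≤ |df W e| := by
  obtain ⟨e, he, h1, h2⟩ := odd_B (push_sym0 h hK hf) (by simpa using hN)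
    (fun i j hij => one_le_push h hf hij) (by rw [push_inn, hm]) (push_Sb hs f) hpar
    (by simpa using hgt)
  rw [push_en] at h1
  rw [push_df] at h2
  exact ⟨_, fun x => he _, h1, by simpa using h2⟩

/-- B part for `m = 113`, `N = 11` -/
theorem base_B_113_11 {V : Type} [Fintype V] [DecidableEq V] {W : V → V → ℤ} {k : V → ℤ}
    (h : OO W k) (hK : ∑ i, k i = 0) {f : V → Fin 11} (hf : Col W f)
    (hm : inn W univ = 2 * 113) (hs : Sb W 11) :
    ∃ e : V → ℤ, IsSign e ∧ en W e = 2 * 11 ∧ 2 * 3 ≤ |df W e| := by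
  obtain ⟨e, he, h1, h2⟩ := base_B_odd h hK hf (by norm_num) (m := 113) (s := 11) (u := 51) hm hs
    (by norm_num) (by norm_num)
  exact ⟨e, he, h1, by norm_num at h2; linarith⟩

end Pool.Agent.QFO
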