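import Pool.Agent.QFO.Mat
import Pool.Agent.QFO.Col

/-!
# [QFO-E] tight perfect matchings; no object with `N = s` classes, `N ≥ 10` even, total `N (N-1) - 4`
-/

set_option autoImplicit false
set_option linter.unusedSectionVars false

namespace Pool.Agent.QFO

open Finset Pool.Agent.MP_710317_co.Rec Pool.Agent.MXC

variable {V : Type*} [Fintype V] [DecidableEq V]

/-- the defect of the pairs of `x` and `y` -/
def del (w : V → V → ℤ) (τ : V → V) (x y : V) : ℤ :=
  if y = x ∨ y = τ x then 0 else w x (τ x) + w y (τ y) - w x y - w (τ x) (τ y)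

theorem qs_pair {w : V → V → ℤ} (hw : Sym w) (e : V → ℤ) {S : Finset V} {a b : V}
    (hab : a ≠ b) (ha : a ∉ S) (hb : b ∉ S) : qs w (insert a (insert b S)) e = qs w S e +
      2 * e a * ∑ j ∈ S, w a j * e j + 2 * e b * ∑ j ∈ S, w b j * e j + 2 * w a b * e a * e b := by
  have ha2 : a ∉ insert b S := by
    rw [mem_insert]
    rintro (h | h)
    · exact hab h
    · exact ha h
  rw [qs_insert hw e ha2, qs_insert hw e hb, Finset.sum_insert hb]
  ring

section even

variable {w : V → V → ℤ} {τ : V → V}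

theorem del_add (hw : Sym w) (hτ : ∀ x, τ (τ x) = x) (x y : V) :
    w x y + w (τ x) (τ y) = w x (τ x) + w y (τ y) - del w τ x y -
      (if y = x then 2 * w x (τ x) else 0) := by
  unfold del
  by_cases h1 : y = x
  · rw [if_pos (Or.inl h1), if_pos h1, h1, hw.diag, hw.diag]
    ring
  · by_cases h2 : y = τ x
    · rw [if_pos (Or.inr h2), if_neg h1, h2, hτ, hw.symm (τ x) x]
      ring
    · rw [if_neg (by rintro (h | h); exacts [h1 h, h2 h]), if_neg h1]
      ring

/-- the sum of the defects -/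
theorem del_sum (hw : Sym w) (hτ : ∀ x, τ (τ x) = x) :
    ∑ x, ∑ y, del w τ x y = 2 * ((Fintype.card V : ℤ) - 1) * ∑ x, w x (τ x) - 2 * inn w univ := by
  have h1 : ∑ x, ∑ y, (w x y + w (τ x) (τ y)) = ∑ x, ∑ y, (w x (τ x) + w y (τ y) - del w τ x y -
      (if y = x then 2 * w x (τ x) else 0)) :=
    Finset.sum_congr rfl fun x _ => Finset.sum_congr rfl fun y _ => del_add hw hτ x y
  have hbij : Function.Bijective τ := Function.Involutive.bijective hτ
  have h2 : ∑ x, ∑ y, w (τ x) (τ y) = ∑ x, ∑ y, w x y := by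
    rw [hbij.sum_comp (fun x => ∑ y, w x (τ y))]
    exact Finset.sum_congr rfl fun x _ => hbij.sum_comp (fun y => w x y)
  simp only [Finset.sum_add_distrib, Finset.sum_sub_distrib] at h1
  rw [h2] at h1
  simp only [Finset.sum_const, Finset.card_univ, nsmul_eq_mul, Finset.sum_ite_eq', mem_univ,
    if_true] at h1
  rw [← Finset.mul_sum, ← Finset.mul_sum] at h1
  have h3 : inn w univ = ∑ x, ∑ y, w x y := rfl
  rw [h3]
  linarith

/-- flatness along a tight perfect matching -/
theorem flat (hw : Sym w) {s : ℤ} (hs : Sb w s) (hτ : ∀ x, τ (τ x) = x) (hfp : ∀ x, τ x ≠ x)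
    (ht : ∑ x, w x (τ x) = 2 * s) {x y : V} (h1 : y ≠ x) (h2 : y ≠ τ x) :
    w x y + w (τ x) (τ y) = w x (τ y) + w (τ x) y := by
  classical
  have h3 : τ y ≠ x := fun h => h2 (by rw [← h, hτ])
  have h4 : τ y ≠ τ x := fun h => h1 (by rw [← hτ y, h, hτ])
  have e1 : τ x ≠ x := hfp x
  have e2 : τ y ≠ y := hfp y
  -- signs
  have key : ∀ t : ℤ, (t = 1 ∨ t = -1) →
      0 ≤ t * (w x y - w x (τ y) - w (τ x) y + w (τ x) (τ y)) := by
    intro t ht1
    set F : Finset V := insert x (insert (τ x) (insert y (insert (τ y) ∅))) with hF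
    set e₀ : V → ℤ := fun z => if z = x then 1 else if z = τ x then -1 else
      if z = y then t else -t with he₀
    have hs0 : IsSign e₀ := by
      intro z
      simp only [he₀]
      split
      · left; rfl
      · split
        · right; rfl
        · split
          · exact ht1
          · rcases ht1 with h | h
            · right; rw [h]
            · left; rw [h]; norm_num
    have v1 : e₀ x = 1 := by simp [he₀]
    have v2 : e₀ (τ x) = -1 := by simp [he₀, e1]
    have v3 : e₀ y = t := by simp [he₀, h1, h2]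
    have v4 : e₀ (τ y) = -t := by simp [he₀, h3, h4, e2]
    have m1 : y ∉ (∅ : Finset V) := notMem_empty _
    have hFτ : ∀ z, z ∉ F → τ z ∉ F ∧ τ z ≠ z := by
      intro z hz
      refine ⟨?_, hfp z⟩
      simp only [hF, mem_insert, notMem_empty, or_false, not_or] at hz ⊢
      obtain ⟨z1, z2, z3, z4⟩ := hz
      refine ⟨fun h => z2 ?_, fun h => z1 ?_, fun h => z4 ?_, fun h => z3 ?_⟩
      · rw [← hτ z, h]
      · rw [← hτ z, h, hτ]
      · rw [← hτ z, h]
      · rw [← hτ z, h, hτ]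
    have hb := rel_bound hw hs hτ hFτ hs0
    have hn1 : x ∉ insert y (insert (τ y) (∅ : Finset V)) := by
      simp only [mem_insert, notMem_empty, or_false, not_or]
      exact ⟨Ne.symm h1, Ne.symm h3⟩
    have hn2 : τ x ∉ insert y (insert (τ y) (∅ : Finset V)) := by
      simp only [mem_insert, notMem_empty, or_false, not_or]
      exact ⟨Ne.symm h2, Ne.symm h4⟩
    have hn0 : x ∉ insert (τ x) (insert y (insert (τ y) (∅ : Finset V))) := by
      simp only [mem_insert, notMem_empty, or_false, not_or]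
      exact ⟨Ne.symm e1, Ne.symm h1, Ne.symm h3⟩
    have hn3 : y ∉ insert (τ y) (∅ : Finset V) := by
      simp only [mem_insert, notMem_empty, or_false]
      exact Ne.symm e2
    have hq : qs w F e₀ = -2 * w x (τ x) - 2 * w y (τ y) +
        2 * t * (w x y - w x (τ y) - w (τ x) y + w (τ x) (τ y)) := by
      rw [hF, qs_pair hw e₀ (Ne.symm e1) hn1 hn2, qs_pair hw e₀ (Ne.symm e2) (notMem_empty _)
        (notMem_empty _), Finset.sum_insert hn3, Finset.sum_insert hn3,
        Finset.sum_insert (notMem_empty _), Finset.sum_insert (notMem_empty _), v1, v2, v3, v4]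
      simp only [Finset.sum_empty, qs]
      have ht2 : t * t = 1 := by rcases ht1 with h | h <;> rw [h] <;> norm_num
      linear_combination (-2 * w y (τ y)) * ht2
    have hsF : ∑ z ∈ F, w z (τ z) = 2 * w x (τ x) + 2 * w y (τ y) := by
      rw [hF, Finset.sum_insert hn0, Finset.sum_insert hn2, Finset.sum_insert hn3,
        Finset.sum_insert (notMem_empty _), Finset.sum_empty, hτ, hτ, hw.symm (τ x) x,
        hw.symm (τ y) y]
      ring
    have hsplit := Finset.sum_add_sum_compl F (fun z => w z (τ z))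
    rw [hsF, ht] at hsplit
    rw [hq] at hb
    linarith
  have k1 := key 1 (Or.inl rfl)
  have k2 := key (-1) (Or.inr rfl)
  linarith

theorem del_symm (hw : Sym w) (hτ : ∀ x, τ (τ x) = x) (x y : V) : del w τ x y = del w τ y x := by
  unfold del
  by_cases h1 : y = x
  · rw [if_pos (Or.inl h1), if_pos (Or.inl h1.symm)]
  · by_cases h2 : y = τ x
    · rw [if_pos (Or.inr h2), if_pos (Or.inr (by rw [h2, hτ]))]
    · rw [if_neg (by rintro (h | h); exacts [h1 h, h2 h]), if_neg (by
        rintro (h | h)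
        · exact h1 h.symm
        · exact h2 (by rw [h, hτ])), hw.symm y x, hw.symm (τ y) (τ x)]
      ring

/-- the defects are invariant -/
theorem del_tau (hw : Sym w) {s : ℤ} (hs : Sb w s) (hτ : ∀ x, τ (τ x) = x) (hfp : ∀ x, τ x ≠ x)
    (ht : ∑ x, w x (τ x) = 2 * s) (x y : V) : del w τ x (τ y) = del w τ x y := by
  unfold del
  by_cases h1 : y = x
  · rw [if_pos (Or.inr (by rw [h1])), if_pos (Or.inl h1)]
  · by_cases h2 : y = τ x
    · rw [if_pos (Or.inl (by rw [h2, hτ])), if_pos (Or.inr h2)]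
    · rw [if_neg (by
        rintro (h | h)
        · exact h2 (by rw [← h, hτ])
        · exact h1 (by rw [← hτ y, h, hτ])), if_neg (by rintro (h | h); exacts [h1 h, h2 h]), hτ,
        hw.symm (τ y) y]
      have := flat hw hs hτ hfp ht h1 h2
      linarith

theorem del_tau' (hw : Sym w) {s : ℤ} (hs : Sb w s) (hτ : ∀ x, τ (τ x) = x) (hfp : ∀ x, τ x ≠ x)
    (ht : ∑ x, w x (τ x) = 2 * s) (x y : V) : del w τ (τ x) y = del w τ x y := by
  rw [del_symm hw hτ, del_tau hw hs hτ hfp ht, del_symm hw hτ]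

/-- the defects are nonnegative -/
theorem del_nonneg (hw : Sym w) {s : ℤ} (hs : Sb w s) (hτ : ∀ x, τ (τ x) = x)
    (hfp : ∀ x, τ x ≠ x) (ht : ∑ x, w x (τ x) = 2 * s) (x y : V) : 0 ≤ del w τ x y := by
  unfold del
  by_cases h1 : y = x
  · rw [if_pos (Or.inl h1)]
  · by_cases h2 : y = τ x
    · rw [if_pos (Or.inr h2)]
    · rw [if_neg (by rintro (h | h); exacts [h1 h, h2 h])]
      have h3 : τ y ≠ x := fun h => h2 (by rw [← h, hτ])
      have hb := pair_bound hw hs (xch τ x (τ y)) (xch_inv hτ _ _)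
      rw [xch_sum hw hτ (Ne.symm h3) (fun h => h1 (by rw [← hτ y, ← h, hτ])) (hfp x)
        (by rw [hτ]; exact Ne.symm (hfp y)), ht, hτ, hw.symm (τ y) y, hw.symm (τ y) (τ x)] at hb
      linarith

/-- the defect form on balanced signs which are constant on the pairs -/
theorem del_form (hw : Sym w) {s : ℤ} (hs : Sb w s) (hτ : ∀ x, τ (τ x) = x)
    (hfp : ∀ x, τ x ≠ x) (ht : ∑ x, w x (τ x) = 2 * s) {F : Finset V}
    (hF : ∀ x, x ∈ F → τ x ∈ F) {e : V → ℤ} (he : IsSign e) (heτ : ∀ x ∈ F, e (τ x) = e x)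
    (hb : ∑ x ∈ F, e x = 0) : ∑ x ∈ F, ∑ y ∈ F, del w τ x y * e x * e y ≤ 0 := by
  classical
  have hFc : ∀ x, x ∉ F → τ x ∉ F ∧ τ x ≠ x := fun x hx =>
    ⟨fun h => hx (by rw [← hτ x]; exact hF _ h), hfp x⟩
  have h1 := rel_bound hw hs hτ hFc he
  -- twice the form
  have h2 : ∑ x ∈ F, ∑ y ∈ F, w (τ x) (τ y) * e x * e y = qs w F e := by
    unfold qs
    have hin : ∀ ψ : V → ℤ, ∑ x ∈ F, ψ (τ x) = ∑ x ∈ F, ψ x := by
      intro ψ
      refine Finset.sum_bij (fun x _ => τ x) (fun x hx => hF x hx) (fun x _ y _ h => by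
        rw [← hτ x, h, hτ]) (fun y hy => ⟨τ y, hF y hy, hτ y⟩) (fun _ _ => rfl)
    have e1 : ∑ x ∈ F, ∑ y ∈ F, w (τ x) (τ y) * e x * e y =
        ∑ x ∈ F, ∑ y ∈ F, w (τ x) (τ y) * e (τ x) * e (τ y) :=
      Finset.sum_congr rfl fun x hx => Finset.sum_congr rfl fun y hy => by
        rw [heτ x hx, heτ y hy]
    rw [e1, hin (fun x => ∑ y ∈ F, w x (τ y) * e x * e (τ y))]
    exact Finset.sum_congr rfl fun x _ => hin (fun y => w x y * e x * e y)
  have h3 : 2 * qs w F e = - (∑ x ∈ F, ∑ y ∈ F, del w τ x y * e x * e y) -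
      2 * ∑ x ∈ F, w x (τ x) := by
    have e1 : 2 * qs w F e = ∑ x ∈ F, ∑ y ∈ F, (w x y + w (τ x) (τ y)) * e x * e y := by
      have : ∀ x y, (w x y + w (τ x) (τ y)) * e x * e y =
          w x y * e x * e y + w (τ x) (τ y) * e x * e y := fun x y => by ring
      simp only [this, Finset.sum_add_distrib]
      rw [h2]
      unfold qs
      ring
    have e2 : ∀ x ∈ F, ∑ y ∈ F, (w x y + w (τ x) (τ y)) * e x * e y =
        (w x (τ x) * e x) * ∑ y ∈ F, e y + e x * (∑ y ∈ F, w y (τ y) * e y) -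
          ∑ y ∈ F, del w τ x y * e x * e y - 2 * w x (τ x) := by
      intro x hx
      have e3 : ∀ y, (w x y + w (τ x) (τ y)) * e x * e y = (w x (τ x) * e x) * e y +
          e x * (w y (τ y) * e y) - del w τ x y * e x * e y -
          (if y = x then 2 * w x (τ x) else 0) := by
        intro y
        rw [del_add hw hτ]
        by_cases h : y = x
        · rw [if_pos h, h]
          linear_combination (-2 * w x (τ x)) * sign_sq he x
        · rw [if_neg h]; ring
      rw [Finset.sum_congr rfl fun y _ => e3 y, Finset.sum_sub_distrib, Finset.sum_sub_distrib,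
        Finset.sum_add_distrib, ← Finset.mul_sum, ← Finset.mul_sum, Finset.sum_ite_eq', if_pos hx]
    rw [e1, Finset.sum_congr rfl e2, Finset.sum_sub_distrib, Finset.sum_sub_distrib,
      Finset.sum_add_distrib, ← Finset.sum_mul, ← Finset.sum_mul, hb, ← Finset.mul_sum]
    ring
  have h4 := Finset.sum_add_sum_compl F (fun x => w x (τ x))
  rw [ht] at h4
  linarith

end even

/-- the sum of the defects of a best matching is nonnegative -/
theorem best_del {w : V → V → ℤ} (hw : Sym w) {τ : V → V} (hB : Best w τ)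
    (hfp : ∀ x, τ x ≠ x) : 0 ≤ ∑ x, ∑ y, del w τ x y := by
  have hτ := hB.inv
  have hdel0 : ∀ x y, 0 ≤ del w τ x y + del w τ x (τ y) := by
    intro x y
    unfold del
    by_cases h1 : y = x
    · rw [if_pos (Or.inl h1), if_pos (Or.inr (by rw [h1]))]
      norm_num
    · by_cases h3 : y = τ x
      · rw [if_pos (Or.inr h3), if_pos (Or.inl (by rw [h3, hτ]))]
        norm_num
      · rw [if_neg (by rintro (h | h); exacts [h1 h, h3 h]), if_neg (by
          rintro (h | h)
          · exact h3 (by rw [← h, hτ])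
          · exact h1 (by rw [← hτ y, h, hτ])), hτ]
        have h4 : τ y ≠ x := fun h => h3 (by rw [← h, hτ])
        have e1 := best_le hw hB (a := x) (b := y) (Ne.symm h1) (Ne.symm h3) (hfp x) (hfp y)
        have e2 := best_le hw hB (a := x) (b := τ y) (Ne.symm h4)
          (fun h => h1 (by rw [← hτ y, ← h, hτ])) (hfp x) (by rw [hτ]; exact Ne.symm (hfp y))
        rw [hτ] at e2
        have s1 := hw.symm (τ y) (τ x)
        have s2 := hw.symm (τ y) y
        have s3 := hw.symm y (τ x)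
        linarith
  have hbij : Function.Bijective τ := Function.Involutive.bijective hτ
  have e1 : ∀ x, ∑ y, del w τ x (τ y) = ∑ y, del w τ x y := fun x =>
    hbij.sum_comp (fun y => del w τ x y)
  have e2 : 0 ≤ ∑ x, ∑ y, (del w τ x y + del w τ x (τ y)) :=
    Finset.sum_nonneg fun x _ => Finset.sum_nonneg fun y _ => hdel0 x y
  simp only [Finset.sum_add_distrib] at e2
  rw [Finset.sum_congr rfl fun x _ => e1 x] at e2
  linarith

theorem fp_of_best {w : V → V → ℤ} {τ : V → V} (hB : Best w τ) (h2 : Fintype.card V % 2 = 0) :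
    ∀ x, τ x ≠ x := by
  have h := hB.fix
  rw [h2, Finset.card_eq_zero] at h
  intro x hx
  have : x ∈ (univ.filter fun x => τ x = x) := mem_filter.2 ⟨mem_univ x, hx⟩
  rw [h] at this
  exact notMem_empty x this

/-- [QFO-E] -/
theorem lemma_E {w : V → V → ℤ} (hw : Sym w) {N : ℕ} (hN : Fintype.card V = N) (h2 : N % 2 = 0)
    (h10 : 10 ≤ N) (hm : inn w univ = 2 * ((N : ℤ) * (N - 1) - 4)) (hs : Sb w N) : False := by
  classical
  obtain ⟨τ, hB⟩ := exists_best w
  have hτ := hB.inv
  have hfp : ∀ x, τ x ≠ x := fp_of_best hB (by rw [hN, h2])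
  -- the matching is tight
  have hle := pair_bound hw hs τ hτ
  have hds := del_sum hw hτ
  rw [hN, hm] at hds
  have hdelS : 0 ≤ ∑ x, ∑ y, del w τ x y := best_del hw hB hfp
  obtain ⟨c, hc⟩ : ∃ c : ℤ, ∑ x, w x (τ x) = 2 * c := by
    obtain ⟨u, hu⟩ : ∃ u : ℤ, ∑ x, w x (τ x) = 2 * u ∨ ∑ x, w x (τ x) = 2 * u + 1 := by
      rcases Int.even_or_odd' (∑ x, w x (τ x)) with ⟨u, h | h⟩
      · exact ⟨u, Or.inl h⟩
      · exact ⟨u, Or.inr h⟩
    rcases hu with h | h
    · exact ⟨u, h⟩
    · exfalso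
      rw [h] at hle hds
      have hN' : (10 : ℤ) ≤ N := by exact_mod_cast h10
      have h5 : u ≤ (N : ℤ) - 1 := by omega
      have h6 : ((N : ℤ) - 1) * u ≤ ((N : ℤ) - 1) * (N - 1) :=
        mul_le_mul_of_nonneg_left h5 (by linarith)
      nlinarith
  have hN' : (10 : ℤ) ≤ N := by exact_mod_cast h10
  have hcN : c = N := by
    rw [hc] at hle hds
    have h5 : c ≤ (N : ℤ) := by linarith
    by_contra hne
    have h6 : c ≤ (N : ℤ) - 1 := by omega
    have h7 : ((N : ℤ) - 1) * c ≤ ((N : ℤ) - 1) * (N - 1) :=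
      mul_le_mul_of_nonneg_left h6 (by linarith)
    nlinarith
  have ht : ∑ x, w x (τ x) = 2 * (N : ℤ) := by rw [hc, hcN]
  have hds16 : ∑ x, ∑ y, del w τ x y = 16 := by
    rw [hds, ht]
    ring
  have dnn := del_nonneg hw hs hτ hfp ht
  have dt := del_tau hw hs hτ hfp ht
  have dt' := del_tau' hw hs hτ hfp ht
  have dsy := del_symm hw hτ
  -- a positive defect
  obtain ⟨x, y, hxy⟩ : ∃ x y, 0 < del w τ x y := by
    by_contra hcon
    push Not at hcon
    have : ∑ x, ∑ y, del w τ x y ≤ 0 :=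
      Finset.sum_nonpos fun x _ => Finset.sum_nonpos fun y _ => hcon x y
    linarith
  have dxx : ∀ z, del w τ z z = 0 := fun z => by unfold del; rw [if_pos (Or.inl rfl)]
  have dxt : ∀ z, del w τ z (τ z) = 0 := fun z => by unfold del; rw [if_pos (Or.inr rfl)]
  have nyx : y ≠ x := by
    rintro rfl
    rw [dxx] at hxy
    exact lt_irrefl _ hxy
  have nytx : y ≠ τ x := by
    rintro rfl
    rw [dxt] at hxy
    exact lt_irrefl _ hxy
  have ntyx : τ y ≠ x := fun h => nytx (by rw [← h, hτ])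
  have ntytx : τ y ≠ τ x := fun h => nyx (by rw [← hτ y, h, hτ])
  set P : Finset V := {x, τ x, y, τ y} with hP
  have hPcard : P.card = 4 := by
    rw [hP, Finset.card_insert_of_notMem, Finset.card_insert_of_notMem,
      Finset.card_insert_of_notMem, Finset.card_singleton]
    · rw [mem_singleton]; exact Ne.symm (hfp y)
    · simp only [mem_insert, mem_singleton, not_or]
      exact ⟨Ne.symm nytx, Ne.symm ntytx⟩
    · simp only [mem_insert, mem_singleton, not_or]
      exact ⟨Ne.symm (hfp x), Ne.symm nyx, Ne.symm ntyx⟩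
  have hPsum : ∀ ψ : V → ℤ, ∑ z ∈ P, ψ z = ψ x + ψ (τ x) + ψ y + ψ (τ y) := by
    intro ψ
    rw [hP, Finset.sum_insert, Finset.sum_insert, Finset.sum_insert, Finset.sum_singleton]
    · ring
    · rw [mem_singleton]; exact Ne.symm (hfp y)
    · simp only [mem_insert, mem_singleton, not_or]
      exact ⟨Ne.symm nytx, Ne.symm ntytx⟩
    · simp only [mem_insert, mem_singleton, not_or]
      exact ⟨Ne.symm (hfp x), Ne.symm nyx, Ne.symm ntyx⟩
  have hPτ : ∀ z, z ∈ P → τ z ∈ P := by
    intro z hz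
    simp only [hP, mem_insert, mem_singleton] at hz ⊢
    rcases hz with h | h | h | h
    · exact Or.inr (Or.inl (by rw [h]))
    · exact Or.inl (by rw [h, hτ])
    · exact Or.inr (Or.inr (Or.inr (by rw [h])))
    · exact Or.inr (Or.inr (Or.inl (by rw [h, hτ])))
  set cc : V → ℤ := fun a => del w τ x a + del w τ y a with hcc
  have hcc0 : ∀ a, 0 ≤ cc a := fun a => add_nonneg (dnn x a) (dnn y a)
  have hccτ : ∀ a, cc (τ a) = cc a := fun a => by simp only [hcc]; rw [dt, dt]
  -- the remaining defects are small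
  have hR : ∑ a ∈ Pᶜ, cc a ≤ 2 := by
    have e1 : ∑ a, ∑ b, del w τ a b = ∑ a ∈ P, ∑ b ∈ P, del w τ a b +
        ∑ a ∈ P, ∑ b ∈ Pᶜ, del w τ a b + (∑ a ∈ Pᶜ, ∑ b ∈ P, del w τ a b +
        ∑ a ∈ Pᶜ, ∑ b ∈ Pᶜ, del w τ a b) := by
      rw [← Finset.sum_add_sum_compl P, ← Finset.sum_add_distrib, ← Finset.sum_add_distrib]
      congr 1 <;>
      exact Finset.sum_congr rfl fun a _ => (Finset.sum_add_sum_compl P _).symm
    have e2 : ∑ a ∈ P, ∑ b ∈ P, del w τ a b = 8 * del w τ x y := by
      rw [hPsum]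
      simp only [hPsum, dt, dt', dxx, dsy y x]
      ring
    have e3 : ∑ a ∈ P, ∑ b ∈ Pᶜ, del w τ a b = 2 * ∑ b ∈ Pᶜ, cc b := by
      rw [hPsum]
      simp only [dt', hcc, Finset.sum_add_distrib]
      ring
    have e4 : ∑ a ∈ Pᶜ, ∑ b ∈ P, del w τ a b = 2 * ∑ b ∈ Pᶜ, cc b := by
      rw [← e3, Finset.sum_comm]
      exact Finset.sum_congr rfl fun a _ => Finset.sum_congr rfl fun b _ => dsy _ _
    have e5 : 0 ≤ ∑ a ∈ Pᶜ, ∑ b ∈ Pᶜ, del w τ a b :=
      Finset.sum_nonneg fun a _ => Finset.sum_nonneg fun b _ => dnn a b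
    rw [hds16, e2, e3, e4] at e1
    linarith
  set Z : Finset V := Pᶜ.filter fun a => cc a = 0 with hZ
  have hZcard : 4 ≤ Z.card := by
    have e1 : (Pᶜ.filter fun a => ¬ cc a = 0).card ≤ 2 := by
      have e2 : ((Pᶜ.filter fun a => ¬ cc a = 0).card : ℤ) ≤ ∑ a ∈ Pᶜ, cc a := by
        calc ((Pᶜ.filter fun a => ¬ cc a = 0).card : ℤ)
            = ∑ a ∈ Pᶜ.filter (fun a => ¬ cc a = 0), (1 : ℤ) := by simp
          _ ≤ ∑ a ∈ Pᶜ.filter (fun a => ¬ cc a = 0), cc a := by
              refine Finset.sum_le_sum fun a ha => ?_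
              have h5 := (mem_filter.1 ha).2
              have h6 := hcc0 a
              omega
          _ ≤ ∑ a ∈ Pᶜ, cc a :=
              Finset.sum_le_sum_of_subset_of_nonneg (filter_subset _ _) fun a _ _ => hcc0 a
      omega
    have e3 := Finset.card_filter_add_card_filter_not (s := Pᶜ) (fun a => cc a = 0)
    rw [← hZ, Finset.card_compl, hPcard, hN] at e3
    omega
  have hZτ : ∀ a ∈ Z, τ a ∈ Z := by
    intro a ha
    obtain ⟨h5, h6⟩ := mem_filter.1 ha
    refine mem_filter.2 ⟨mem_compl.2 fun h => mem_compl.1 h5 ?_, by rw [hccτ]; exact h6⟩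
    rw [← hτ a]
    exact hPτ _ h
  obtain ⟨a, ha⟩ : Z.Nonempty := by
    rw [← Finset.card_pos]
    omega
  obtain ⟨b, hb⟩ : (Z \ {a, τ a}).Nonempty := by
    rw [← Finset.card_pos]
    have h5 := Finset.le_card_sdiff ({a, τ a} : Finset V) Z
    have h6 : ({a, τ a} : Finset V).card ≤ 2 := Finset.card_le_two
    omega
  obtain ⟨hbZ, hbn⟩ := mem_sdiff.1 hb
  simp only [mem_insert, mem_singleton, not_or] at hbn
  obtain ⟨hba, hbta⟩ := hbn
  have htba : τ b ≠ a := fun h => hbta (by rw [← h, hτ])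
  have htbta : τ b ≠ τ a := fun h => hba (by rw [← hτ b, h, hτ])
  set Q : Finset V := {a, τ a, b, τ b} with hQ
  have hQsum : ∀ ψ : V → ℤ, ∑ z ∈ Q, ψ z = ψ a + ψ (τ a) + ψ b + ψ (τ b) := by
    intro ψ
    rw [hQ, Finset.sum_insert, Finset.sum_insert, Finset.sum_insert, Finset.sum_singleton]
    · ring
    · rw [mem_singleton]; exact Ne.symm (hfp b)
    · simp only [mem_insert, mem_singleton, not_or]
      exact ⟨Ne.symm hbta, Ne.symm htbta⟩
    · simp only [mem_insert, mem_singleton, not_or]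
      exact ⟨Ne.symm (hfp a), Ne.symm hba, Ne.symm htba⟩
  have hQZ : ∀ z ∈ Q, z ∈ Z := by
    intro z hz
    simp only [hQ, mem_insert, mem_singleton] at hz
    rcases hz with h | h | h | h
    · rw [h]; exact ha
    · rw [h]; exact hZτ a ha
    · rw [h]; exact hbZ
    · rw [h]; exact hZτ b hbZ
  have hQτ : ∀ z, z ∈ Q → τ z ∈ Q := by
    intro z hz
    simp only [hQ, mem_insert, mem_singleton] at hz ⊢
    rcases hz with h | h | h | h
    · exact Or.inr (Or.inl (by rw [h]))
    · exact Or.inl (by rw [h, hτ])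
    · exact Or.inr (Or.inr (Or.inr (by rw [h])))
    · exact Or.inr (Or.inr (Or.inl (by rw [h, hτ])))
  have hdisj : Disjoint P Q := by
    rw [Finset.disjoint_left]
    intro z hz hz'
    exact mem_compl.1 (mem_filter.1 (hQZ z hz')).1 hz
  set e : V → ℤ := fun z => if z ∈ P then 1 else -1 with he
  have hes : IsSign e := by
    intro z
    simp only [he]
    split
    · left; rfl
    · right; rfl
  have heP : ∀ z ∈ P, e z = 1 := fun z hz => by simp only [he]; rw [if_pos hz]
  have heQ : ∀ z ∈ Q, e z = -1 := fun z hz => by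
    simp only [he]
    rw [if_neg fun h => (Finset.disjoint_left.1 hdisj h) hz]
  have hform := del_form hw hs hτ hfp ht (F := P ∪ Q) (fun z hz => by
    rcases mem_union.1 hz with h | h
    · exact mem_union_left _ (hPτ z h)
    · exact mem_union_right _ (hQτ z h)) hes (fun z hz => by
    rcases mem_union.1 hz with h | h
    · rw [heP z h, heP _ (hPτ z h)]
    · rw [heQ z h, heQ _ (hQτ z h)]) (by
    rw [Finset.sum_union hdisj, Finset.sum_congr rfl heP, Finset.sum_congr rfl heQ, hPsum, hQsum]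
    norm_num)
  rw [Finset.sum_union hdisj] at hform
  have f1 : ∑ u ∈ P, ∑ v ∈ P ∪ Q, del w τ u v * e u * e v =
      ∑ u ∈ P, ∑ v ∈ P, del w τ u v - ∑ u ∈ P, ∑ v ∈ Q, del w τ u v := by
    rw [← Finset.sum_sub_distrib]
    refine Finset.sum_congr rfl fun u hu => ?_
    rw [Finset.sum_union hdisj, sub_eq_add_neg, ← Finset.sum_neg_distrib]
    congr 1
    · exact Finset.sum_congr rfl fun v hv => by rw [heP u hu, heP v hv]; ring
    · exact Finset.sum_congr rfl fun v hv => by rw [heP u hu, heQ v hv]; ring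
  have f2 : ∑ u ∈ Q, ∑ v ∈ P ∪ Q, del w τ u v * e u * e v =
      ∑ u ∈ Q, ∑ v ∈ Q, del w τ u v - ∑ u ∈ Q, ∑ v ∈ P, del w τ u v := by
    rw [← Finset.sum_sub_distrib]
    refine Finset.sum_congr rfl fun u hu => ?_
    rw [Finset.sum_union hdisj, add_comm, sub_eq_add_neg, ← Finset.sum_neg_distrib]
    congr 1
    · exact Finset.sum_congr rfl fun v hv => by rw [heQ u hu, heQ v hv]; ring
    · exact Finset.sum_congr rfl fun v hv => by rw [heQ u hu, heP v hv]; ring
  have hz0 : ∀ u ∈ P, ∀ v ∈ Q, del w τ u v = 0 := by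
    intro u hu v hv
    have h5 := (mem_filter.1 (hQZ v hv)).2
    have h6 : del w τ x v + del w τ y v = 0 := h5
    have h7 := dnn x v
    have h8 := dnn y v
    simp only [hP, mem_insert, mem_singleton] at hu
    rcases hu with h | h | h | h
    · rw [h]; linarith
    · rw [h, dt']; linarith
    · rw [h]; linarith
    · rw [h, dt']; linarith
  have f3 : ∑ u ∈ P, ∑ v ∈ Q, del w τ u v = 0 :=
    Finset.sum_eq_zero fun u hu => Finset.sum_eq_zero fun v hv => hz0 u hu v hv
  have f4 : ∑ u ∈ Q, ∑ v ∈ P, del w τ u v = 0 :=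
    Finset.sum_eq_zero fun u hu => Finset.sum_eq_zero fun v hv => by rw [dsy]; exact hz0 v hv u hu
  have f5 : 0 ≤ ∑ u ∈ Q, ∑ v ∈ Q, del w τ u v :=
    Finset.sum_nonneg fun u _ => Finset.sum_nonneg fun v _ => dnn u v
  have f6 : ∑ u ∈ P, ∑ v ∈ P, del w τ u v = 8 * del w τ x y := by
    rw [hPsum]
    simp only [hPsum, dt, dt', dxx, dsy y x]
    ring
  rw [f1, f2, f3, f4, f6] at hform
  linarith

/-- the form for colourings -/
theorem no_E {V : Type} [Fintype V] [DecidableEq V] {W : V → V → ℤ} {k : V → ℤ} (h : OO W k)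
    (hK : ∑ i, k i = 0) {N : ℕ} {f : V → Fin N} (hf : Col W f) (h2 : N % 2 = 0) (h10 : 10 ≤ N)
    (hm : inn W univ = 2 * ((N : ℤ) * (N - 1) - 4)) (hs : Sb W N) : False := by
  have hk : ∀ i, k i = 0 := by
    intro i
    have h1 := (Finset.sum_eq_zero_iff_of_nonneg (fun i _ => h.knn i)).1 hK
    exact h1 i (mem_univ i)
  have hw : Sym (push W f) := by
    refine ⟨fun a b => push_symm h.symm f a b, fun a => ?_⟩
    rw [push_diag h.toSymK hf.prop, Finset.sum_eq_zero fun x _ => hk x]
    ring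
  exact lemma_E hw (N := N) (by simp) h2 h10 (by rw [push_inn, hm]) (push_Sb hs f)

end Pool.Agent.QFO
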