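import Pool.Agent.QFO.K113

/-!
# [QFO-L0] classes with constant rows; `N` odd and `s N = m`
-/

set_option autoImplicit false
set_option linter.unusedSectionVars false

namespace Pool.Agent.QFO

open Finset Pool.Agent.MP_710317_co.Rec Pool.Agent.MXC

variable {V : Type*} [Fintype V] [DecidableEq V]

/-- the surplus after a change of one sign -/
theorem en_upd {W : V → V → ℤ} (hsym : ∀ i j, W i j = W j i) (e : V → ℤ) (v : V) :
    en W (Function.update e v (- e v)) = en W e + 4 * e v * ∑ j ∈ univ.erase v, W v j * e j := by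
  unfold en
  have h1 : ∀ i, i ≠ v → ∑ j, W i j * Function.update e v (- e v) i *
      Function.update e v (- e v) j = ∑ j, W i j * e i * e j - 2 * (W i v * e i * e v) := by
    intro i hi
    rw [← Finset.add_sum_erase univ _ (mem_univ v),
      ← Finset.add_sum_erase univ (fun j => W i j * e i * e j) (mem_univ v),
      Function.update_self, Function.update_of_ne hi]
    have : ∑ j ∈ univ.erase v, W i j * e i * Function.update e v (- e v) j =
        ∑ j ∈ univ.erase v, W i j * e i * e j :=
      Finset.sum_congr rfl fun j hj => by rw [Function.update_of_ne (ne_of_mem_erase hj)]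
    rw [this]
    ring
  have h2 : ∑ j, W v j * Function.update e v (- e v) v * Function.update e v (- e v) j =
      ∑ j, W v j * e v * e j - 2 * (e v * ∑ j ∈ univ.erase v, W v j * e j) := by
    rw [← Finset.add_sum_erase univ _ (mem_univ v),
      ← Finset.add_sum_erase univ (fun j => W v j * e v * e j) (mem_univ v),
      Function.update_self]
    have : ∑ j ∈ univ.erase v, W v j * (- e v) * Function.update e v (- e v) j =
        ∑ j ∈ univ.erase v, (-(W v j * e v * e j)) :=
      Finset.sum_congr rfl fun j hj => by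
        rw [Function.update_of_ne (ne_of_mem_erase hj)]; ring
    rw [this, Finset.sum_neg_distrib, Finset.mul_sum]
    have : ∑ j ∈ univ.erase v, e v * (W v j * e j) = ∑ j ∈ univ.erase v, W v j * e v * e j :=
      Finset.sum_congr rfl fun j _ => by ring
    rw [this]
    ring
  rw [← Finset.add_sum_erase univ _ (mem_univ v),
    ← Finset.add_sum_erase univ (fun i => ∑ j, W i j * e i * e j) (mem_univ v), h2,
    Finset.sum_congr rfl fun i hi => h1 i (ne_of_mem_erase hi), Finset.sum_sub_distrib,
    ← Finset.mul_sum]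
  have h3 : ∑ i ∈ univ.erase v, W i v * e i * e v = e v * ∑ j ∈ univ.erase v, W v j * e j := by
    rw [Finset.mul_sum]
    exact Finset.sum_congr rfl fun i _ => by rw [hsym i v]; ring
  rw [h3]
  ring

/-- the weight of the vertex `v` to the class `b` -/
def rr {N : ℕ} (W : V → V → ℤ) (f : V → Fin N) (v : V) (b : Fin N) : ℤ := ∑ y ∈ cls f b, W v y

section

variable {W : V → V → ℤ} {k : V → ℤ} {N : ℕ} {f : V → Fin N}

theorem rr_nonneg (h : OO W k) {v : V} {b : Fin N} (hb : b ≠ f v) : 0 ≤ rr W f v b :=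
  row_nonneg h (Ne.symm hb)

theorem rr_sum (h : OO W k) (hf : Prp W f) (v : V) (x : Fin N → ℤ) :
    ∑ j ∈ univ.erase v, W v j * x (f j) = ∑ b ∈ univ.erase (f v), rr W f v b * x b := by
  have h1 : ∑ j, W v j * x (f j) = ∑ b, rr W f v b * x b := by
    rw [← cls_sum f (fun j => W v j * x (f j))]
    refine Finset.sum_congr rfl fun b _ => ?_
    unfold rr
    rw [Finset.sum_mul]
    exact Finset.sum_congr rfl fun j hj => by rw [mem_cls.1 hj]
  have h2 : rr W f v (f v) = W v v := by
    unfold rr
    refine Finset.sum_eq_single v (fun y hy hyv => ?_) (fun hv => absurd (mem_cls.2 rfl) hv)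
    exact hf v y (Ne.symm hyv) (mem_cls.1 hy).symm
  have h3 := Finset.add_sum_erase univ (fun j => W v j * x (f j)) (mem_univ v)
  have h4 := Finset.add_sum_erase univ (fun b => rr W f v b * x b) (mem_univ (f v))
  rw [h1] at h3
  simp only [h2] at h4
  linarith

/-- the sum of the rows of the vertices of a class -/
theorem rr_cls {W : V → V → ℤ} {f : V → Fin N} (a : Fin N) (x : Fin N → ℤ) :
    ∑ v ∈ cls f a, ∑ b ∈ univ.erase a, rr W f v b * x b =
      ∑ b ∈ univ.erase a, push W f a b * x b := by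
  rw [Finset.sum_comm]
  refine Finset.sum_congr rfl fun b _ => ?_
  rw [push_eq, Finset.sum_mul]
  rfl

/-- all vertices of a class of gap zero have gap zero -/
theorem gap_zero (h : OO W k) (hf : Col W f) {s : ℤ} (hs : Sb W s) {a : Fin N} {x : Fin N → ℤ}
    (hx : IsSign x) (hxa : x a = 1) (hen : en W (fun v => x (f v)) = 2 * s)
    (hg : ∑ b ∈ univ.erase a, push W f a b * x b = 0) :
    ∀ v, f v = a → ∑ b ∈ univ.erase a, rr W f v b * x b = 0 := by
  have h1 : ∀ v ∈ cls f a, ∑ b ∈ univ.erase a, rr W f v b * x b ≤ 0 := by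
    intro v hv
    have hv' := mem_cls.1 hv
    have h2 := en_upd h.symm (fun v => x (f v)) v
    have h3 := hs _ (upd_sign (fun v => hx (f v)) v)
    rw [rr_sum h hf.prop v x] at h2
    rw [h2, hen, hv', hxa] at h3
    linarith
  have h2 : ∑ v ∈ cls f a, ∑ b ∈ univ.erase a, rr W f v b * x b = 0 := by
    rw [rr_cls, hg]
  intro v hv
  exact (Finset.sum_eq_zero_iff_of_nonpos h1).1 h2 v (mem_cls.2 hv)

/-- A flip in one of two unlooped classes with constant rows `2`.  `G` is a set of optimal signs of the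
classes, closed under enough exchanges. -/
theorem const_flip (h : OO W k) (hf : Col W f) (hN : 3 ≤ N) {s : ℤ} (hs : Sb W s) {G : (Fin N → ℤ) → Prop}
    (hG : ∀ x, G x → IsSign x ∧ en W (fun v => x (f v)) = 2 * s ∧ ∑ b, x b = 1)
    {a b : Fin N} (hab : a ≠ b) (hk : ∀ v, f v = a ∨ f v = b → k v = 0)
    (hc : ∀ a', a' = a ∨ a' = b → ∀ c, c ≠ a' → push W f a' c = 2)
    (hsw : ∀ a', a' = a ∨ a' = b → ∀ c d, c ≠ a' → d ≠ a' → c ≠ d →
      ∃ x, G x ∧ G (fun i => x (Equiv.swap c d i)) ∧ x a' = 1 ∧ x c = 1 ∧ x d = -1) :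
    ∃ (x : Fin N → ℤ) (v : V), G x ∧ x (f v) = 1 ∧
      en W (Function.update (fun u => x (f u)) v (- x (f v))) = 2 * s ∧
      df W (Function.update (fun u => x (f u)) v (- x (f v))) =
        df W (fun u => x (f u)) - 2 * ((N : ℤ) - 1) := by
  classical
  -- the gap of a class
  have hgap : ∀ a', a' = a ∨ a' = b → ∀ x, G x → x a' = 1 →
      ∀ v, f v = a' → ∑ c ∈ univ.erase a', rr W f v c * x c = 0 := by
    intro a' ha' x hx hxa
    obtain ⟨h1, h2, h3⟩ := hG x hx
    refine gap_zero h hf hs h1 hxa h2 ?_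
    rw [Finset.sum_congr rfl fun c hc' => by rw [hc a' ha' c (ne_of_mem_erase hc')],
      ← Finset.mul_sum]
    have h4 := Finset.add_sum_erase univ x (mem_univ a')
    rw [h3, hxa] at h4
    have : ∑ c ∈ univ.erase a', x c = 0 := by linarith
    rw [this, mul_zero]
  -- constant rows
  have hrow : ∀ a', a' = a ∨ a' = b → ∀ v, f v = a' → ∀ c d, c ≠ a' → d ≠ a' →
      rr W f v c = rr W f v d := by
    intro a' ha' v hv c d hca hda
    by_cases hcd : c = d
    · rw [hcd]
    obtain ⟨x, hx, hx', hxa, hxc, hxd⟩ := hsw a' ha' c d hca hda hcd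
    have e1 := hgap a' ha' x hx hxa v hv
    have e2 := hgap a' ha' _ hx' (by
      show x (Equiv.swap c d a') = 1
      rw [Equiv.swap_apply_of_ne_of_ne (Ne.symm hca) (Ne.symm hda), hxa]) v hv
    have hc1 : c ∈ univ.erase a' := mem_erase.2 ⟨hca, mem_univ c⟩
    have hd1 : d ∈ (univ.erase a').erase c := mem_erase.2 ⟨Ne.symm hcd, mem_erase.2 ⟨hda, mem_univ d⟩⟩
    rw [← Finset.add_sum_erase _ _ hc1, ← Finset.add_sum_erase _ _ hd1] at e1 e2
    have e3 : ∑ i ∈ ((univ.erase a').erase c).erase d, rr W f v i * x (Equiv.swap c d i) =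
        ∑ i ∈ ((univ.erase a').erase c).erase d, rr W f v i * x i := by
      refine Finset.sum_congr rfl fun i hi => ?_
      rw [mem_erase, mem_erase] at hi
      rw [Equiv.swap_apply_of_ne_of_ne hi.2.1 hi.1]
    rw [e3, Equiv.swap_apply_left, Equiv.swap_apply_right, hxc, hxd] at e2
    rw [hxc, hxd] at e1
    linarith
  -- sums over the classes
  have hcls : ∀ a', a' = a ∨ a' = b → ∀ c, c ≠ a' → ∑ v ∈ cls f a', rr W f v c = 2 := by
    intro a' ha' c hca
    rw [← hc a' ha' c hca, push_eq]
    rfl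
  -- a vertex of weight one
  obtain ⟨a', ha', v, hv, hv1⟩ : ∃ a', (a' = a ∨ a' = b) ∧ ∃ v, f v = a' ∧
      ∀ c, c ≠ a' → rr W f v c = 1 := by
    by_contra hcon
    push Not at hcon
    -- each of the two classes has a vertex with the value 2 and all others have the value 0
    have key : ∀ a' b', (a' = a ∨ a' = b) → a' ≠ b' → ∃ v, f v = a' ∧ rr W f v b' = 2 ∧
        ∀ u, f u = a' → u ≠ v → rr W f u b' = 0 := by
      intro a' b' ha' hne
      have h1 := hcls a' ha' b' (Ne.symm hne)
      have h0 : ∀ u ∈ cls f a', 0 ≤ rr W f u b' := fun u hu =>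
        rr_nonneg h (by rw [mem_cls.1 hu]; exact Ne.symm hne)
      obtain ⟨v, hv, hpos⟩ : ∃ v ∈ cls f a', 0 < rr W f v b' := by
        by_contra hcon2
        push Not at hcon2
        have := Finset.sum_nonpos hcon2
        linarith
      have hv' := mem_cls.1 hv
      have hne1 : rr W f v b' ≠ 1 := by
        intro h2
        obtain ⟨c, hc1, hc2⟩ := hcon a' ha' v hv'
        exact hc2 ((hrow a' ha' v hv' c b' hc1 (Ne.symm hne)).trans h2)
      have h2 := Finset.add_sum_erase (cls f a') (fun u => rr W f u b') hv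
      rw [h1] at h2
      have h3 : 0 ≤ ∑ u ∈ (cls f a').erase v, rr W f u b' :=
        Finset.sum_nonneg fun u hu => h0 u (mem_of_mem_erase hu)
      have h4 : rr W f v b' = 2 := by
        omega
      refine ⟨v, hv', h4, fun u hu huv => ?_⟩
      have h5 : ∑ u ∈ (cls f a').erase v, rr W f u b' = 0 := by
        linarith
      exact (Finset.sum_eq_zero_iff_of_nonneg fun u hu => h0 u (mem_of_mem_erase hu)).1 h5 u
        (mem_erase.2 ⟨huv, mem_cls.2 hu⟩)
    obtain ⟨v, hv, hv2, _⟩ := key a b (Or.inl rfl) hab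
    obtain ⟨u, hu, _, hu0⟩ := key b a (Or.inr rfl) (Ne.symm hab)
    have h1 : rr W f v b = W v u := by
      unfold rr
      refine Finset.sum_eq_single u (fun y hy hyu => ?_) (fun hu' => absurd (mem_cls.2 hu) hu')
      have h2 := hu0 y (mem_cls.1 hy) hyu
      have h3 : W y v ≤ rr W f y a := by
        unfold rr
        refine Finset.single_le_sum (f := fun z => W y z) (fun z hz => h.nn y z ?_)
          (mem_cls.2 hv)
        rintro rfl
        exact hab ((mem_cls.1 hz).symm.trans (mem_cls.1 hy))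
      have h4 : v ≠ y := by
        rintro rfl
        exact hab (hv.symm.trans (mem_cls.1 hy))
      have h5 := h.nn v y h4
      rw [h.symm] at h3
      linarith
    have h2 : v ≠ u := by
      rintro rfl
      exact hab (hv.symm.trans hu)
    have h3 := h.le v u h2
    rw [hk v (Or.inl hv), hk u (Or.inr hu), ← h1, hv2] at h3
    norm_num at h3
  -- the flip
  obtain ⟨c, hca⟩ : ∃ c, c ≠ a' := by
    rcases ha' with h1 | h1
    · exact ⟨b, by rw [h1]; exact Ne.symm hab⟩
    · exact ⟨a, by rw [h1]; exact hab⟩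
  obtain ⟨x, hx, hxa⟩ : ∃ x, G x ∧ x a' = 1 := by
    obtain ⟨d, hd⟩ : ((univ : Finset (Fin N)) \ {a', c}).Nonempty := by
      rw [← Finset.card_pos]
      have h5 := Finset.le_card_sdiff ({a', c} : Finset (Fin N)) univ
      rw [Finset.card_univ, Fintype.card_fin] at h5
      have h6 : ({a', c} : Finset (Fin N)).card ≤ 2 := Finset.card_le_two
      omega
    simp only [mem_sdiff, mem_univ, true_and, mem_insert, mem_singleton, not_or] at hd
    obtain ⟨x, hx, _, hxa, _⟩ := hsw a' ha' c d hca hd.1 (Ne.symm hd.2)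
    exact ⟨x, hx, hxa⟩
  obtain ⟨h1, h2, h3⟩ := hG x hx
  refine ⟨x, v, hx, by rw [hv, hxa], ?_, ?_⟩
  · rw [en_upd h.symm (fun u => x (f u)) v, h2, rr_sum h hf.prop v x, hv,
      hgap a' ha' x hx hxa v hv]
    ring
  · rw [upd_df W (fun u => x (f u)) v, hv, hxa]
    have h4 : ∑ j, W v j = (N : ℤ) - 1 := by
      have h5 := rr_sum h hf.prop v (fun _ => 1)
      simp only [mul_one] at h5
      rw [← Finset.add_sum_erase univ _ (mem_univ v), h.diag, hk v (by rw [hv]; exact ha'), h5, hv,
        Finset.sum_congr rfl fun c hc' => hv1 c (ne_of_mem_erase hc'), Finset.sum_const,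
        Finset.card_erase_of_mem (mem_univ a'), Finset.card_univ, Fintype.card_fin, nsmul_eq_mul,
        mul_one, Nat.cast_sub (by have := a'.2; omega)]
      simp
    rw [h4]
    ring

/-- signs of `Fin N` with sum `1` -/
theorem ex_bal {h : ℕ} (hN : N = 2 * h + 1) (P Q : Finset (Fin N)) (hPQ : Disjoint P Q)
    (hP : P.card ≤ h + 1) (hQ : Q.card ≤ h) : ∃ x : Fin N → ℤ, IsSign x ∧ ∑ i, x i = 1 ∧
      (∀ i ∈ P, x i = 1) ∧ ∀ i ∈ Q, x i = -1 := by
  classical
  obtain ⟨S, hPS, hSQ, hS⟩ := Finset.exists_subsuperset_card_eq (s := P) (t := Qᶜ) (n := h + 1)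
    (by
      intro i hi
      rw [mem_compl]
      exact fun h' => (Finset.disjoint_left.1 hPQ hi) h') hP (by
      rw [Finset.card_compl, Fintype.card_fin]
      omega)
  refine ⟨sg S, sg_sign S, ?_, fun i hi => ?_, fun i hi => ?_⟩
  · have h2 : ∀ i, sg S i = 2 * (if i ∈ S then 1 else 0) - 1 := by
      intro i
      unfold sg
      by_cases h : i ∈ S
      · rw [if_pos h, if_pos h]; norm_num
      · rw [if_neg h, if_neg h]; norm_num
    rw [Finset.sum_congr rfl fun i _ => h2 i, Finset.sum_sub_distrib, ← Finset.mul_sum,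
      Finset.sum_ite_mem, Finset.univ_inter, Finset.sum_const, Finset.sum_const, Finset.card_univ,
      Fintype.card_fin, hS, hN]
    simp only [nsmul_eq_mul, mul_one]
    push_cast
    ring
  · unfold sg
    rw [if_pos (hPS hi)]
  · unfold sg
    rw [if_neg fun h' => (mem_compl.1 (hSQ h')) hi]

end

end Pool.Agent.QFO
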