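import Pool.Agent.QFO.LB
import Pool.Agent.MXC.TG
import Pool.Agent.MXC.Num2chk

/-!
# [QFO-LTab] the table of the lower bounds `LB N M (Lt N M)`, `N < 14`, `M < 180`
-/

set_option autoImplicit false
set_option linter.unusedSectionVars false

namespace Pool.Agent.QFO

open Finset Pool.Agent.MP_710317_co.Rec Pool.Agent.MXC

/-- digits in base 64 of the table -/
def LtN : ℕ := 0x3ce3d03ce3d03ce3ce34e3ce34e3ce34e34c34e34c34e34c34e34c34c2cc34c2cc34c2cc2ca2cc2ca2cc2ca2cc2ca2ca24a2ca24a2ca24a24824a24a24a24a24a24824824824a2482481c81c6fffffffffffffffffffffffffffffffffffffffffffffffffffffffffffffffffffffffffffffffffffffffffffffffffffffffffffffffffffff4524504504504504504503d03d03d03d03d03ce3ce3ce3ce3ce3ce34e34e34e34e34e34c34c34c34c34c34c2cc2cc2cc2cc2cc2ca2ca2ca2ca2ca2ca24a24a24a24a24a24824a2482482482481c824a2482481c81c6fffffffffffffffffffffffffffffffffffffffffffffffffffffffffffffffffffffffffffffffffffffffffffffffffff4524504524504524504503d04503d04503d03ce3d03ce3d03ce3ce34e3ce34e3ce34e34c3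4e34c34e34c34c2cc34c2cc34c2cc2ca2cc2ca2cc2ca2ca24a2ca24a2ca24a24824a24824a2482481c824a2482481c82481c82481c81c61c617ffffffffffffffffffffffffffffffffffffffffffffffffffffffffffffffffffffffffffffffffff5545545545544d44d44d44d44d24d24d24d24d24524524524524504504504504503d03d03d03d03ce3ce3ce3ce3ce34e34e34e34e34c34c34c34c34c2cc2cc2cc2cc2ca2ca2ca2ca2ca24a24a24a24a24824a2482482482481c81c81c81c61c81c81c61c617fffffffffffffffffffffffffffffffffffffffffffffffffffffffffffffffffff5565545565545544d45544d44d24d44d24d44d24d24524d24524504524504524504503d04503d03ce3d03ce3d03ce3ce34e3ce34e34c34e34c34e34c34c2cc34c2cc2ca2cc2ca2cc2ca2ca24a2ca24a24824a24824a2482481c82481c81c61c81c81c81c61c61c61c6146144ffffffffffffffffffffffffffffffffffffffffffffffffffffff6da6da65a65a65a6586586586585d85d85d85d65d65d65d65565565565545545545544d44d44d44d24d24d24d24524524524504504504503d03d03d03ce3ce3ce3ce34e34e34e34c34c34c34c2cc2cc2cc2ca2ca2ca2ca24a24a24a2482482482481c81c81c81c61c61c61c61461c6146144fffffffffffffffffffffffffffff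fffffffffffff6da6da65a6da65a65865a6586585d86585d85d65d85d65d65565d65565545565545544d45544d44d24d44d24d24524d24524504524504503d04503d03ce3d03ce3ce34e3ce34e34c34e34c34c2cc34c2cc2ca2cc2ca2ca24a2ca24a24824a2482481c82481c81c61c81c61c61461c61461441461441440ffffffffffffffffffffffffffffffff9649648e48e48e28e28e28628628608608607e07e07de7de7de75e75e75c75c75c6dc6dc6da6da6da65a65a6586586585d85d85d65d65d65565565545545544d44d44d24d24d24524524504504503d03d03ce3ce3ce34e34e34c34c34c2cc2cc2ca2ca2ca24a24a2482482481c81c81c61c61c61461461441441440fffffffffffffffffffffff9669649648e48e28e48e28e28628608628608607e07de7e07de7de75e75c75e75c75c6dc6da6dc6da6da65a65865a6586585d85d65d85d65d65565545565545544d44d24d44d24d24524504524504503d03ce3d03ce3ce34e34c34e34c34c2cc2ca2cc2ca2ca24a24824a2482481c81c61c81c61c61461441461441440c40c2ffffffffffffffff7cefcefaefae7ae78e78df8df6df6d76d74d74cf4cf2cf2c72c70c70bf0beebeeb6eb6cb6caecaeaaeaa6aa68a689e89e69e69669649648e48e28e28628608607e07de7de75e75c75c6dc6da6da65a6586585d85d6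5d65565545544d44d24d24524504503d03ce3ce34e34c34c2cc2ca2ca24a2482481c81c61c61461441440c40c2ffffffffff7cefcefaefae7ae78e78df8df6df6d76d74d74cf4cf2cf2c72c70c70bf0beebeeb6eb6cb6caecaeaaeaa6aa68a689e89e69e69669649648e48e28e28628608607e07de7de75e75c75c6dc6da6da65a6586585d85d65d65565545544d44d24d24524504503d03ce3ce34e34c34c2cc2ca2ca24a2482481c81c61c61461441440c40c20c207ffffffffffffffffffffffffffffffffffffffffffffffffffffffffffffffffffffffffffffffffffffffffffffffffffffffffffffffffffffffffffffffffffffffffffffffffffffffffffffffffffffffffffffffffffffef7cefae78df6d74cf2c70beeb6caeaa689e69648e28607de75c6da6585d65544d24503ce34c2ca2481c61440c207fffffffffffffffffffffffffffffffffffffffffffffffffffffffffffffffffffffffffffffffffffffffffffffffffffffffffffffffffffffffffffffffffffffffffffffffffffffffffffffffffffffffffffffffffffffffffffffffffffffffffffffffffffffffffffffffffffffffffffffffffffffffffffffffffffffffffffffc0ffffffffffffffffffffffffffffffffffffffffffffffffffffffffffffffffffffffffffffffffffffffffffffffffffffffffffffffffffffffffffffffffffffffffffffffffffffffffffffffffffffffffffffffffffffffffffffffffffffffffffffffffffffffffffffffffffffffffffffffffffffffffffffffffffffffffffffc0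

/-- the table (`63` stands for `at least 63`) -/
def Lt (N M : ℕ) : ℕ := Nat.land (Nat.shiftRight LtN (Nat.mul 6 (Nat.add (Nat.mul 180 N) M))) 63

/-- all splittings with the surplus `s` are impossible, `U` the sum of the insides -/
def lok (N s U : ℕ) : Bool :=
  chk (fun i => chk (fun j => force (Nat.add (Nat.div (Nat.sub U s) 2) j) fun x =>
    Nat.ble (Nat.succ U) x || Nat.ble (Nat.succ s) (Nat.sub (Nat.mul 2 x) U) ||
    Nat.ble (Nat.succ s) (Nat.sub U (Nat.mul 2 x)) ||
    Nat.ble (Nat.succ s) (Nat.add (Lt (Nat.succ i) x)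
      (Lt (Nat.sub N (Nat.succ i)) (Nat.sub U x)))) (Nat.add s 2)) (Nat.sub N 1)

/-- one entry of the table -/
def lchk (N M : ℕ) : Bool :=
  Nat.ble (Nat.succ (Nat.mul 2 M)) (Nat.mul N (Nat.sub N 1)) ||
  chk (fun s => Nat.ble (Nat.succ s) (tab M) || Nat.ble (Nat.succ (Nat.mul s (qf N))) M ||
    Nat.beq (Nat.mod (Nat.add M s) 2) 1 || Nat.ble (Nat.succ M) s ||
    lok N s (Nat.div (Nat.sub M s) 2)) (Lt N M)

theorem lchk_all : chk (fun N => chk (fun M => lchk (Nat.add N 2) M) 180) 12 = true := by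
  decide +kernel

theorem Lt_base : chk (fun N => chk (fun M => Nat.beq M 0 || Nat.beq (Lt N M) 63) 180) 2 = true := by
  decide +kernel

theorem lok_spec {N s U : ℕ} (h : lok N s U = true) {p x : ℕ} (hp : 1 ≤ p) (hpN : p < N)
    (hx : x ≤ U) (h1 : 2 * x ≤ U + s) (h2 : U ≤ 2 * x + s) : s < Lt p x + Lt (N - p) (U - x) := by
  have h3 := chk_all h (p - 1) (by show p - 1 < N - 1; omega)
  have hj : x - (U - s) / 2 < s + 2 := by omega
  have h4 := chk_all h3 (x - (U - s) / 2) hj
  rw [force_eq] at h4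
  have e1 : Nat.add (Nat.div (Nat.sub U s) 2) (x - (U - s) / 2) = x := by
    show (U - s) / 2 + (x - (U - s) / 2) = x
    omega
  have e2 : Nat.succ (p - 1) = p := by omega
  rw [e1, e2, Bool.or_eq_true, Bool.or_eq_true, Bool.or_eq_true] at h4
  rcases h4 with ((h4 | h4) | h4) | h4
  · have : U + 1 ≤ x := Nat.le_of_ble_eq_true h4
    omega
  · have : s + 1 ≤ 2 * x - U := Nat.le_of_ble_eq_true h4
    omega
  · have : s + 1 ≤ U - 2 * x := Nat.le_of_ble_eq_true h4
    omega
  · have : s + 1 ≤ Lt p x + Lt (N - p) (U - x) := Nat.le_of_ble_eq_true h4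
    omega

theorem ones_en {C : Type*} [Fintype C] (w : C → C → ℤ) : en w (fun _ => 1) = - inn w univ := by
  unfold en inn
  simp

theorem LB_small {N : ℕ} (hN : N < 2) (M : ℕ) (hM : M < 180) : LB N M (Lt N M) := by
  intro C _ _ hC w hw h1 hinn s hs
  have h0 : ∀ a b : C, a = b := by
    have : Fintype.card C ≤ 1 := by omega
    exact Fintype.card_le_one_iff.1 this
  have h2 : inn w univ = 0 := by
    unfold inn
    exact Finset.sum_eq_zero fun i _ => Finset.sum_eq_zero fun j _ => by
      rw [h0 j i, hw.diag]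
  rw [h2] at hinn
  have hM0 : M = 0 := by omega
  subst hM0
  have h3 := hs (fun _ => 1) (fun _ => Or.inl rfl)
  have h4 : en w (fun _ => 1) = 0 := by
    have := (ones_en w)
    rw [this, h2, neg_zero]
  rw [h4] at h3
  have h5 : Lt N 0 = 0 := by
    have : N = 0 ∨ N = 1 := by omega
    rcases this with h | h <;> rw [h] <;> decide +kernel
  rw [h5]
  push_cast
  linarith

/-- [QFO-LTab] the table is correct -/
theorem LB_tab : ∀ N : ℕ, N < 14 → ∀ M : ℕ, M < 180 → LB N M (Lt N M) := by
  intro N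
  induction N using Nat.strong_induction_on with
  | _ N ih =>
  intro hN M hM
  rcases Nat.lt_or_ge N 2 with hN2 | hN2
  · exact LB_small hN2 M hM
  have hchk := chk_all (chk_all lchk_all (N - 2) (by omega)) M hM
  have e0 : Nat.add (N - 2) 2 = N := by
    show N - 2 + 2 = N
    omega
  rw [e0] at hchk
  unfold lchk at hchk
  rw [Bool.or_eq_true] at hchk
  refine LB_split hN2 ?_
  intro s hsl hT havg hpar hsq p q x y hp hq hpq hxy habs hpx hqy hcon
  have hs0 : 0 ≤ s := le_trans (T_nonneg _) hT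
  obtain ⟨s', rfl⟩ := Int.eq_ofNat_of_zero_le hs0
  have hx0 : 0 ≤ x := by
    have : (1 : ℤ) ≤ p := by exact_mod_cast hp
    nlinarith
  have hy0 : 0 ≤ y := by
    have : (1 : ℤ) ≤ q := by exact_mod_cast hq
    nlinarith
  obtain ⟨x', rfl⟩ := Int.eq_ofNat_of_zero_le hx0
  obtain ⟨y', rfl⟩ := Int.eq_ofNat_of_zero_le hy0
  obtain ⟨l, hl⟩ := hpar
  rcases hchk with hchk | hchk
  · have h1 : 2 * M + 1 ≤ N * (N - 1) := Nat.le_of_ble_eq_true hchk
    have h2 : ((N * (N - 1) : ℕ) : ℤ) = (N : ℤ) * ((N : ℤ) - 1) := by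
      push_cast [show 1 ≤ N by omega]
      ring
    have h3 : ((2 * M + 1 : ℕ) : ℤ) ≤ ((N * (N - 1) : ℕ) : ℤ) := by exact_mod_cast h1
    rw [h2] at h3
    push_cast at h3
    linarith
  · have hs2 : s' < Lt N M := by exact_mod_cast hsl
    have h1 := chk_all hchk s' hs2
    rw [Bool.or_eq_true, Bool.or_eq_true, Bool.or_eq_true, Bool.or_eq_true] at h1
    have hTM := T_eq_tab M (by omega)
    rcases h1 with (((h1 | h1) | h1) | h1) | h1
    · have h2 : s' + 1 ≤ tab M := Nat.le_of_ble_eq_true h1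
      rw [hTM] at hT
      omega
    · have h2 : s' * qf N + 1 ≤ M := Nat.le_of_ble_eq_true h1
      have h3 : (M : ℤ) ≤ ((s' * qf N : ℕ) : ℤ) := by push_cast; exact havg
      omega
    · have h2 : (M + s') % 2 = 1 := Nat.eq_of_beq_eq_true h1
      omega
    · have h2 : M + 1 ≤ s' := Nat.le_of_ble_eq_true h1
      omega
    · obtain ⟨U, hU⟩ : ∃ U, U = (M - s') / 2 := ⟨_, rfl⟩
      have hMs : s' ≤ M := by omega
      rw [show Nat.div (Nat.sub M s') 2 = U from hU.symm] at h1
      have hUeq : x' + y' = U := by omega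
      rw [abs_le] at habs
      have h2 := lok_spec h1 (p := p) (x := x') hp (by omega) (by omega) (by omega) (by omega)
      have e1 : U - x' = y' := by omega
      have e2 : N - p = q := by omega
      rw [e1, e2] at h2
      have h3 := hcon _ _ (ih p (by omega) (by omega) x' (by omega))
        (ih q (by omega) (by omega) y' (by omega))
      omega

end Pool.Agent.QFO
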