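import Pool.Agent.QFO.Cap

/-!
# [QFO-MCAP] the pair lemma with several vertices of the complete set glued to one outside vertex
-/

set_option autoImplicit false
set_option linter.unusedSectionVars false

namespace Pool.Agent.QFO

open Finset Pool.Agent.MP_710317_co.Rec Pool.Agent.MXC

variable {V : Type*} [Fintype V] [DecidableEq V]

/-- the number of elements of `Y` with the same `φ` as `y` -/
def mlt (Y : Finset V) (φ : V → V) (z : V) : ℤ := ((Y.filter fun y => φ y = z).card : ℤ)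

theorem mlt_nonneg (Y : Finset V) (φ : V → V) (z : V) : 0 ≤ mlt Y φ z := by
  unfold mlt; positivity

theorem mlt_insert {Y : Finset V} {y : V} (hy : y ∉ Y) (φ : V → V) (z : V) :
    mlt (insert y Y) φ z = mlt Y φ z + (if φ y = z then 1 else 0) := by
  unfold mlt
  rw [Finset.filter_insert]
  by_cases h : φ y = z
  · rw [if_pos h, if_pos h, Finset.card_insert_of_notMem (fun h' => hy (mem_filter.1 h').1)]
    push_cast; ring
  · rw [if_neg h, if_neg h, add_zero]

theorem mlt_sum (Y : Finset V) (φ : V → V) (z : V) :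
    ∑ y ∈ Y, (if φ y = z then (1 : ℤ) else 0) = mlt Y φ z := by
  unfold mlt
  rw [← Finset.sum_filter, Finset.sum_const, nsmul_eq_mul, mul_one]

/-- [QFO-MCAP1] -/
theorem mcap_lemma (Y : Finset V) : ∀ {W : V → V → ℤ} {k : V → ℤ} (_ : SymK W k) {s : ℤ}
    (_ : Sb W s) {C : Finset V} (_ : ∀ i ∈ C, ∀ j ∈ C, i ≠ j → W i j = 1)
    (_ : ∀ i ∈ C, k i = 0) {X : Finset V} (_ : X ⊆ C) (f : V → V) (_ : ∀ x ∈ X, f x ∈ C)
    (_ : ∀ x ∈ X, f x ∉ X) (_ : Set.InjOn f X) (_ : ∀ x ∈ X, ∃ z, z ∉ C ∧ W x z ≠ W (f x) z)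
    (_ : Y ⊆ C) (_ : Disjoint Y X) (_ : ∀ x ∈ X, f x ∉ Y) (φ : V → V) (_ : ∀ y ∈ Y, φ y ∉ C)
    (_ : ∀ y ∈ Y, mlt Y φ (φ y) ≤ W y (φ y)),
    (C.card : ℤ) - Y.card - (((C.card + Y.card) % 2 : ℕ) : ℤ) + 2 * X.card + 2 * ∑ i, k i +
      ∑ y ∈ Y, (2 * W y (φ y) - mlt Y φ (φ y) + 1) ≤ 2 * s := by
  induction Y using Finset.induction_on with
  | empty =>
    intro W k hw s hs C h1 hk X hX f hfC hfX hinj hd _ _ _ φ _ _
    have := pair_lemma hw hs h1 hk hX f hfC hfX hinj hd
    simpa using this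
  | insert y Y hy ih =>
    intro W k hw s hs C h1 hk X hX f hfC hfX hinj hd hYC hYX hYf φ hφ hφn
    have hyC : y ∈ C := hYC (mem_insert_self y Y)
    have hzC : φ y ∉ C := hφ y (mem_insert_self y Y)
    have hyz : y ≠ φ y := fun h => hzC (h ▸ hyC)
    have hky : k y = 0 := hk y hyC
    have hyX : y ∉ X := fun h => (Finset.disjoint_left.1 hYX) (mem_insert_self y Y) h
    have hWy : 0 ≤ W y (φ y) := (mlt_nonneg _ _ _).trans (hφn y (mem_insert_self y Y))
    have hne : ∀ i ∈ C.erase y, i ≠ y ∧ i ≠ φ y ∧ i ∈ C := fun i hi => by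
      obtain ⟨h2, h3⟩ := mem_erase.1 hi
      exact ⟨h2, fun h => hzC (h ▸ h3), h3⟩
    have hval : ∀ i ∈ C.erase y, ∀ b, b ≠ y → agl W y (φ y) i b =
        W i b - (if b = φ y then 1 else 0) := by
      intro i hi b hb
      obtain ⟨h2, h3, h4⟩ := hne i hi
      unfold agl
      rw [if_neg (fun h => h.elim h2 hb), if_neg h3, h1 i h4 y hyC h2]
      ring
    have hYe : ∀ i ∈ Y, i ∈ C.erase y := fun i hi =>
      mem_erase.2 ⟨fun h => hy (h ▸ hi), hYC (mem_insert_of_mem hi)⟩
    have hφe : ∀ i ∈ Y, φ i ≠ y := fun i hi h => hφ i (mem_insert_of_mem hi) (h ▸ hyC)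
    have h := ih (agl_symK hw hyz hky hWy) (agl_Sb hw hyz hky hs)
      (C := C.erase y) (by
        intro i hi j hj hij
        obtain ⟨h2, h3, h4⟩ := hne j hj
        rw [hval i hi j h2, if_neg h3, sub_zero]
        exact h1 i (hne i hi).2.2 j h4 hij) (by
        intro i hi
        simp only [if_neg (hne i hi).2.1]
        exact hk i (hne i hi).2.2) (X := X)
      (fun x hx => mem_erase.2 ⟨fun h => hyX (h ▸ hx), hX hx⟩) f
      (fun x hx => mem_erase.2 ⟨fun h => hYf x hx (h ▸ mem_insert_self y Y), hfC x hx⟩)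
      hfX hinj (by
        intro x hx
        obtain ⟨z, hz, hzne⟩ := hd x hx
        have hx1 : x ∈ C.erase y := mem_erase.2 ⟨fun h => hyX (h ▸ hx), hX hx⟩
        have hx2 : f x ∈ C.erase y :=
          mem_erase.2 ⟨fun h => hYf x hx (h ▸ mem_insert_self y Y), hfC x hx⟩
        have hzy : z ≠ y := fun h => hz (h ▸ hyC)
        refine ⟨z, fun h => hz (mem_of_mem_erase h), ?_⟩
        rw [hval x hx1 z hzy, hval (f x) hx2 z hzy]
        intro h
        exact hzne (by linarith))
      hYe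
      (Finset.disjoint_of_subset_left (subset_insert y Y) hYX)
      (fun x hx h => hYf x hx (mem_insert_of_mem h)) φ
      (fun i hi h => hφ i (mem_insert_of_mem hi) (mem_of_mem_erase h)) (by
        intro i hi
        rw [hval i (hYe i hi) _ (hφe i hi)]
        have h2 := hφn i (mem_insert_of_mem hi)
        rw [mlt_insert hy] at h2
        by_cases h3 : φ i = φ y
        · rw [if_pos h3]; rw [if_pos h3.symm] at h2; linarith
        · rw [if_neg h3]; rw [if_neg (Ne.symm h3)] at h2; linarith)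
    have hsum : ∑ i ∈ Y, (2 * agl W y (φ y) i (φ i) - mlt Y φ (φ i) + 1) =
        ∑ i ∈ Y, (2 * W i (φ i) - mlt Y φ (φ i) + 1) - 2 * mlt Y φ (φ y) := by
      rw [← mlt_sum Y φ (φ y), Finset.mul_sum, ← Finset.sum_sub_distrib]
      refine Finset.sum_congr rfl fun i hi => ?_
      rw [hval i (hYe i hi) _ (hφe i hi)]
      ring
    have hsum2 : ∑ i ∈ Y, (2 * W i (φ i) - mlt (insert y Y) φ (φ i) + 1) =
        ∑ i ∈ Y, (2 * W i (φ i) - mlt Y φ (φ i) + 1) - mlt Y φ (φ y) := by
      rw [← mlt_sum Y φ (φ y), ← Finset.sum_sub_distrib]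
      refine Finset.sum_congr rfl fun i hi => ?_
      rw [mlt_insert hy]
      by_cases h3 : φ i = φ y
      · rw [if_pos h3, if_pos h3.symm]; ring
      · rw [if_neg h3, if_neg (Ne.symm h3)]; ring
    have hksum : ∑ a, (if a = φ y then k (φ y) + W y (φ y) else k a) = ∑ a, k a + W y (φ y) := by
      have h2 : ∀ a, (if a = φ y then k (φ y) + W y (φ y) else k a) =
          k a + (if a = φ y then W y (φ y) else 0) := by
        intro a
        by_cases h3 : a = φ y
        · rw [if_pos h3, if_pos h3, h3]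
        · rw [if_neg h3, if_neg h3, add_zero]
      rw [Finset.sum_congr rfl fun a _ => h2 a, Finset.sum_add_distrib, Finset.sum_ite_eq']
      simp
    rw [hsum, hksum] at h
    have hc1 : (C.erase y).card + 1 = C.card := Finset.card_erase_add_one hyC
    have hc2 : (insert y Y).card = Y.card + 1 := Finset.card_insert_of_notMem hy
    have hmod : (C.card + (insert y Y).card) % 2 = ((C.erase y).card + Y.card) % 2 := by omega
    have hself : mlt (insert y Y) φ (φ y) = mlt Y φ (φ y) + 1 := by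
      rw [mlt_insert hy, if_pos rfl]
    rw [hmod, hc2, Finset.sum_insert hy, hsum2, hself, ← hc1]
    push_cast at h ⊢
    linarith

end Pool.Agent.QFO
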