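import Pool.Agent.QFO.MainAsm
import Pool.Agent.QFO.HA

/-!
# [QFO-MainA] the alternative (A)
-/

set_option autoImplicit false
set_option linter.unusedSectionVars false

namespace Pool.Agent.QFO

open Finset Pool.Agent.MP_710317_co.Rec Pool.Agent.MXC Pool.Agent.QMA

theorem altA : AltA := by
  intro V _ _ W k h N f hc m _ hm hs hN ih S J hS hJ _ F hFJ hFc i hi i' hi' hii h1 h2
  exact hub_A h hc hm hs hN ih hS hJ hFJ hFc hi hi' hii h1 h2

theorem all_of_B (hB : AltB) : ∀ m : ℤ, QD m ∧ QB m := all_of altA hB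

end Pool.Agent.QFO
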