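import Pool.Agent.QFO.NotA
import Pool.Agent.QFO.MainA

/-!
# [QFO-Main] the induction is complete: `QD m` and `QB m` for every `m`
-/

set_option autoImplicit false

namespace Pool.Agent.QFO

open Finset Pool.Agent.MP_710317_co.Rec Pool.Agent.MXC Pool.Agent.QMA

theorem full_all : ∀ m : ℤ, QD m ∧ QB m := all_of_B altB

theorem QD_all : ∀ m : ℤ, QD m := fun m => (full_all m).1

end Pool.Agent.QFO
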