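import Pool.Agent.QFO.Skel
import Pool.Agent.MXC.TG
import Pool.Agent.MXC.Num2chk

/-!
# [QFO-VTab] the values of the recursions for `m < 180`
-/

set_option autoImplicit false
set_option linter.unusedSectionVars false

namespace Pool.Agent.QFO

open Finset Pool.Agent.MP_710317_co.Rec Pool.Agent.MXC Pool.Agent.QMA

def DtN : ℕ := 0x2492482082492481c61c12080811840051410000012071481861c82081c71c82081c61c60820c41040c10400000441c51461c71c61861c71c61440850c20050411800011041461861451461861440c41001450420000c41451441041451440c41030c10820011040c30c41040c20c10420000c20820c30c2041082001042082042000041040000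
def BtN : ℕ := 0x24924a28a24924a2c00430020810000010410000010832c028a2442080c924820824a0c00820400000410400000420c92480c31c82081c71c82420812400010410000010880c41861471c61861c20400000410400000420451401861451461c00010410000010040c51421041400410400000420840c30c40410000010c0082040000041040000
def DnN : ℕ := 0x821020930824d34d32050881431910c24430824921864440911020840824420914512080853c208f3c20c209040f1023c408210208f0823cf3c914a34d0c608318238e08d10208408234208d34d3421830860cb08c2c408210208b0822cb2c21821c308928a0840822420892491020c40881020870821c70830841821420850c20830820c2080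
def BnN : ℕ := 0x821020830824d34c61831021430821020830824924920c80850c30841c20c20914510c40850c20840820c20904104021430871020830823cf3c21431c210208308238e3851c50842020c208d3450c20840820c208c30c0c21060830822cb2c210208308228a1840c20c50892440820c20882021430821c50830821860c40850c20840820c2080

/-- the value of the `D` recursion -/
def Dt (m : ℕ) : ℕ := Nat.land (Nat.shiftRight DtN (Nat.mul 6 m)) 63
/-- the value of the `B` recursion -/
def Bt (m : ℕ) : ℕ := Nat.land (Nat.shiftRight BtN (Nat.mul 6 m)) 63
def Dn (m : ℕ) : ℕ := Nat.land (Nat.shiftRight DnN (Nat.mul 6 m)) 63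
def Bn (m : ℕ) : ℕ := Nat.land (Nat.shiftRight BnN (Nat.mul 6 m)) 63

def vD (m n : ℕ) : Bool :=
  Nat.ble 2 n &&
  match Nat.ble (chb n) m with
  | true => Nat.beq (tab m) (Nat.add (Nat.div n 2) (tab (Nat.sub m (chb n)))) &&
      (match Nat.beq (Nat.mod n 2) 0 with
      | true => Nat.beq (Dt m) (Dt (Nat.sub m (chb n)))
      | false => Nat.beq (Nat.add (Dt m) (Bt (Nat.sub m (chb n)))) (Nat.div n 2))
  | false => Nat.beq (tab m) (Nat.add (Nat.div n 2) (Nat.sub (chb n) m)) &&
      (match Nat.beq (Nat.mod n 2) 0 with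
      | true => Nat.beq (Dt m) (Nat.sub (chb n) m)
      | false => Nat.beq (Nat.add (Dt m) (Nat.sub (chb n) m)) (Nat.div n 2))

def vB (m n : ℕ) : Bool :=
  Nat.ble 2 n &&
  match Nat.ble (chb n) m with
  | true => Nat.beq (tab m) (Nat.add (Nat.div n 2) (tab (Nat.sub m (chb n)))) &&
      (match Nat.beq (Nat.mod n 2) 0 with
      | true => Nat.beq (Bt m) (Bt (Nat.sub m (chb n)))
      | false => Nat.beq (Bt m) (Nat.add (Nat.div n 2) (Bt (Nat.sub m (chb n)))))
  | false => Nat.beq (tab m) (Nat.add (Nat.div n 2) (Nat.sub (chb n) m)) &&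
      (match Nat.beq (Nat.mod n 2) 0 with
      | true => Nat.beq (Bt m) (Nat.sub (chb n) m)
      | false => Nat.beq (Bt m) (Nat.add (Nat.div n 2) (Nat.sub (chb n) m)))

theorem vchk : chk (fun m => (Nat.beq m 0 || Nat.beq m 8 || vD m (Dn m)) &&
    (Nat.beq m 0 || vB m (Bn m))) 180 = true := by
  decide +kernel

theorem vz : Dt 0 = 0 ∧ Bt 0 = 0 ∧ Dt 8 = 2 := by decide +kernel

theorem chb_eq (n : ℕ) : chb n = n.choose 2 := (Nat.choose_two_right n).symm

theorem chb_pos {n : ℕ} (h : 2 ≤ n) : 1 ≤ n.choose 2 := by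
  have := Nat.choose_le_choose 2 h
  simpa using this

theorem T_tab_step {m n r : ℕ} (hm : m < 1400) (h : tab m = n / 2 + tab r) (hr : m = n.choose 2 + r) :
    T (m : ℤ) = ((n / 2 : ℕ) : ℤ) + T (r : ℤ) := by
  rw [T_eq_tab m hm, T_eq_tab r (by omega), h]
  push_cast
  ring

theorem vD_spec {m n : ℕ} (hm : m < 1400) (h : vD m n = true)
    (ihD : ∀ r, r < m → DVal r (Dt r)) (ihB : ∀ r, r < m → BVal r (Bt r)) : DVal m (Dt m) := by
  unfold vD at h
  rw [Bool.and_eq_true] at h
  obtain ⟨h2, h⟩ := h
  have h2' : 2 ≤ n := Nat.le_of_ble_eq_true h2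
  have hpos := chb_pos h2'
  rw [chb_eq] at h
  rcases hb : Nat.ble (n.choose 2) m with _ | _
  · rw [hb] at h
    simp only [Bool.and_eq_true] at h
    have hlt : m < n.choose 2 := by
      by_contra hcon
      have := Nat.ble_eq_true_of_le (not_lt.1 hcon)
      rw [hb] at this
      exact absurd this (by decide)
    obtain ⟨h3, h4⟩ := h
    have h3' : tab m = n / 2 + (n.choose 2 - m) := Nat.eq_of_beq_eq_true h3
    have hT : T (m : ℤ) = ((n / 2 : ℕ) : ℤ) + ((n.choose 2 - m : ℕ) : ℤ) := by
      rw [T_eq_tab m hm, h3']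
      push_cast
      ring
    have hmc := mc_of_T_neg (n := n) (m := m) (y := n.choose 2 - m) (by omega) hT
    rcases hpar : Nat.beq (Nat.mod n 2) 0 with _ | _
    · rw [hpar] at h4
      have h5 : Dt m + (n.choose 2 - m) = n / 2 := Nat.eq_of_beq_eq_true h4
      have hodd : n % 2 = 1 := by
        have : n % 2 ≠ 0 := fun h0 => by
          have h1 : Nat.mod n 2 = 0 := h0
          rw [h1] at hpar
          exact absurd hpar (by decide)
        omega
      obtain ⟨k, rfl⟩ : ∃ k, n = 2 * k + 1 := ⟨n / 2, by omega⟩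
      exact DVal.oddNeg (y := (2 * k + 1).choose 2 - m) (by omega) (by omega) hmc (by omega)
    · rw [hpar] at h4
      have h5 : Dt m = n.choose 2 - m := Nat.eq_of_beq_eq_true h4
      have hev : n % 2 = 0 := Nat.eq_of_beq_eq_true hpar
      obtain ⟨k, rfl⟩ : ∃ k, n = 2 * k := ⟨n / 2, by omega⟩
      rw [h5]
      exact DVal.evenNeg (by omega) (by omega) hmc
  · rw [hb] at h
    simp only [Bool.and_eq_true] at h
    have hle : n.choose 2 ≤ m := Nat.le_of_ble_eq_true hb
    obtain ⟨h3, h4⟩ := h
    obtain ⟨r, hr⟩ : ∃ r, m = n.choose 2 + r := ⟨m - n.choose 2, by omega⟩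
    have er : m - n.choose 2 = r := by omega
    have h3' : tab m = n / 2 + tab (m - n.choose 2) := Nat.eq_of_beq_eq_true h3
    rw [er] at h3'
    have hmc := mc_of_T hr (T_tab_step hm h3' hr)
    rcases hpar : Nat.beq (Nat.mod n 2) 0 with _ | _
    · rw [hpar] at h4
      have h5 : Dt m + Bt (m - n.choose 2) = n / 2 := Nat.eq_of_beq_eq_true h4
      rw [er] at h5
      have hodd : n % 2 = 1 := by
        have : n % 2 ≠ 0 := fun h0 => by
          have h1 : Nat.mod n 2 = 0 := h0
          rw [h1] at hpar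
          exact absurd hpar (by decide)
        omega
      obtain ⟨k, rfl⟩ : ∃ k, n = 2 * k + 1 := ⟨n / 2, by omega⟩
      have h6 := ihB r (by omega)
      generalize Dt m = x at h5 ⊢
      subst hr
      exact DVal.odd (by omega) hmc h6 (by omega)
    · rw [hpar] at h4
      have h5 : Dt m = Dt (m - n.choose 2) := Nat.eq_of_beq_eq_true h4
      rw [er] at h5
      have hev : n % 2 = 0 := Nat.eq_of_beq_eq_true hpar
      obtain ⟨k, rfl⟩ : ∃ k, n = 2 * k := ⟨n / 2, by omega⟩
      have h6 := ihD r (by omega)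
      rw [h5]
      subst hr
      exact DVal.even (by omega) hmc h6

theorem vB_spec {m n : ℕ} (hm : m < 1400) (h : vB m n = true)
    (ihB : ∀ r, r < m → BVal r (Bt r)) : BVal m (Bt m) := by
  unfold vB at h
  rw [Bool.and_eq_true] at h
  obtain ⟨h2, h⟩ := h
  have h2' : 2 ≤ n := Nat.le_of_ble_eq_true h2
  have hpos := chb_pos h2'
  rw [chb_eq] at h
  rcases hb : Nat.ble (n.choose 2) m with _ | _
  · rw [hb] at h
    simp only [Bool.and_eq_true] at h
    have hlt : m < n.choose 2 := by
      by_contra hcon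
      have := Nat.ble_eq_true_of_le (not_lt.1 hcon)
      rw [hb] at this
      exact absurd this (by decide)
    obtain ⟨h3, h4⟩ := h
    have h3' : tab m = n / 2 + (n.choose 2 - m) := Nat.eq_of_beq_eq_true h3
    have hT : T (m : ℤ) = ((n / 2 : ℕ) : ℤ) + ((n.choose 2 - m : ℕ) : ℤ) := by
      rw [T_eq_tab m hm, h3']
      push_cast
      ring
    have hmc := mc_of_T_neg (n := n) (m := m) (y := n.choose 2 - m) (by omega) hT
    rcases hpar : Nat.beq (Nat.mod n 2) 0 with _ | _
    · rw [hpar] at h4
      have h5 : Bt m = n / 2 + (n.choose 2 - m) := Nat.eq_of_beq_eq_true h4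
      have hodd : n % 2 = 1 := by
        have : n % 2 ≠ 0 := fun h0 => by
          have h1 : Nat.mod n 2 = 0 := h0
          rw [h1] at hpar
          exact absurd hpar (by decide)
        omega
      obtain ⟨k, rfl⟩ : ∃ k, n = 2 * k + 1 := ⟨n / 2, by omega⟩
      rw [h5, show (2 * k + 1) / 2 = k by omega]
      exact BVal.oddNeg (y := (2 * k + 1).choose 2 - m) (by omega) (by omega) hmc
    · rw [hpar] at h4
      have h5 : Bt m = n.choose 2 - m := Nat.eq_of_beq_eq_true h4
      have hev : n % 2 = 0 := Nat.eq_of_beq_eq_true hpar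
      obtain ⟨k, rfl⟩ : ∃ k, n = 2 * k := ⟨n / 2, by omega⟩
      rw [h5]
      exact BVal.evenNeg (by omega) (by omega) hmc
  · rw [hb] at h
    simp only [Bool.and_eq_true] at h
    have hle : n.choose 2 ≤ m := Nat.le_of_ble_eq_true hb
    obtain ⟨h3, h4⟩ := h
    obtain ⟨r, hr⟩ : ∃ r, m = n.choose 2 + r := ⟨m - n.choose 2, by omega⟩
    have er : m - n.choose 2 = r := by omega
    have h3' : tab m = n / 2 + tab (m - n.choose 2) := Nat.eq_of_beq_eq_true h3
    rw [er] at h3'
    have hmc := mc_of_T hr (T_tab_step hm h3' hr)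
    rcases hpar : Nat.beq (Nat.mod n 2) 0 with _ | _
    · rw [hpar] at h4
      have h5 : Bt m = n / 2 + Bt (m - n.choose 2) := Nat.eq_of_beq_eq_true h4
      rw [er] at h5
      have hodd : n % 2 = 1 := by
        have : n % 2 ≠ 0 := fun h0 => by
          have h1 : Nat.mod n 2 = 0 := h0
          rw [h1] at hpar
          exact absurd hpar (by decide)
        omega
      obtain ⟨k, rfl⟩ : ∃ k, n = 2 * k + 1 := ⟨n / 2, by omega⟩
      have h6 := ihB r (by omega)
      rw [h5, show (2 * k + 1) / 2 = k by omega]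
      subst hr
      exact BVal.odd (by omega) hmc h6
    · rw [hpar] at h4
      have h5 : Bt m = Bt (m - n.choose 2) := Nat.eq_of_beq_eq_true h4
      rw [er] at h5
      have hev : n % 2 = 0 := Nat.eq_of_beq_eq_true hpar
      obtain ⟨k, rfl⟩ : ∃ k, n = 2 * k := ⟨n / 2, by omega⟩
      have h6 := ihB r (by omega)
      rw [h5]
      subst hr
      exact BVal.even (by omega) hmc h6

/-- [QFO-VTab] -/
theorem val_tab : ∀ m : ℕ, m < 180 → DVal m (Dt m) ∧ BVal m (Bt m) := by
  intro m
  induction m using Nat.strong_induction_on with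
  | _ m ih =>
  intro hm
  have h := chk_all vchk m hm
  rw [Bool.and_eq_true, Bool.or_eq_true, Bool.or_eq_true, Bool.or_eq_true] at h
  obtain ⟨h1, h2⟩ := h
  obtain ⟨z1, z2, z3⟩ := vz
  have ihD : ∀ r, r < m → DVal r (Dt r) := fun r hr => (ih r hr (by omega)).1
  have ihB : ∀ r, r < m → BVal r (Bt r) := fun r hr => (ih r hr (by omega)).2
  refine ⟨?_, ?_⟩
  · rcases h1 with (h1 | h1) | h1
    · have : m = 0 := Nat.eq_of_beq_eq_true h1
      subst this
      rw [z1]
      exact DVal.zero
    · have : m = 8 := Nat.eq_of_beq_eq_true h1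
      subst this
      rw [z3]
      exact DVal.eight
    · exact vD_spec (by omega) h1 ihD ihB
  · rcases h2 with h2 | h2
    · have : m = 0 := Nat.eq_of_beq_eq_true h2
      subst this
      rw [z2]
      exact BVal.zero
    · exact vB_spec (by omega) h2 ihB

theorem DV_tab {m : ℕ} (hm : m < 180) : DV m (Dt m) := Or.inl ⟨m, Dt m, rfl, rfl, (val_tab m hm).1⟩

theorem BV_tab {m : ℕ} (hm : m < 180) : BV m (Bt m) := Or.inl ⟨m, Bt m, rfl, rfl, (val_tab m hm).2⟩

end Pool.Agent.QFO
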