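import Pool.Agent.QFO.L0b
import Pool.Agent.QFO.VTab

/-!
# [QFO-Two] all weights between the classes are `2`, no loops, `N = T m + 1` odd
-/

set_option autoImplicit false
set_option linter.unusedSectionVars false

namespace Pool.Agent.QFO

open Finset Pool.Agent.MP_710317_co.Rec Pool.Agent.MXC Pool.Agent.QMA

/-- all weights between the classes are `2`, no loops -/
theorem two_D0 {V : Type*} [Fintype V] [DecidableEq V] {W : V → V → ℤ} {k : V → ℤ} {N : ℕ}
    {f : V → Fin N} (h : OO W k) (hK : ∑ i, k i = 0) (hf : Col W f) {g : ℕ} (hN : N = 2 * g + 1)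
    (hg : 1 ≤ g) {s : ℤ} (hs : Sb W s) (h2 : ∀ a b, a ≠ b → OP W f a b = 2)
    (hsN : s = (N : ℤ) - 1) :
    (∃ e : V → ℤ, IsSign e ∧ en W e = 2 * s ∧ df W e = 0) ∧
      ∃ e : V → ℤ, IsSign e ∧ en W e = 2 * s ∧ df W e = 2 * s := by
  classical
  have hk0 : ∀ i, k i = 0 := fun i =>
    (Finset.sum_eq_zero_iff_of_nonneg fun a _ => h.knn a).1 hK i (mem_univ i)
  have hw := OP_sym h hf
  have hG : ∀ x : Fin N → ℤ, (IsSign x ∧ ∑ i, x i = 1) →
      IsSign x ∧ en W (fun v => x (f v)) = 2 * s ∧ ∑ i, x i = 1 := by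
    rintro x ⟨hx, h1⟩
    refine ⟨hx, ?_, h1⟩
    rw [OP_en h hf hx, en_two hw h2 hx, h1, Fintype.card_fin, hsN, hK]
    ring
  have hdf : ∀ x : Fin N → ℤ, ∑ i, x i = 1 → df W (fun v => x (f v)) = 2 * s := by
    intro x h1
    rw [OP_df h hf x, df_two hw h2 (by rw [Fintype.card_fin]; omega) x, h1, Fintype.card_fin, hsN]
    have : ∀ a, kk k f a = 0 := fun a => Finset.sum_eq_zero fun i _ => hk0 i
    rw [Finset.sum_eq_zero fun a _ => by rw [this a, zero_mul]]
    ring
  have hlt : 0 < N := by omega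
  have hne : (⟨0, by omega⟩ : Fin N) ≠ ⟨1, by omega⟩ := by
    intro h'
    have := congrArg Fin.val h'
    simp at this
  refine ⟨?_, ?_⟩
  · obtain ⟨x, v, hx, hv, h3, h4⟩ := const_flip h hf (by omega) hs hG hne (fun v _ => hk0 v)
      (fun a' _ c hc => by rw [← OP_ne (Ne.symm hc)]; exact h2 a' c (Ne.symm hc))
      (fun a' _ c d hc hd hcd => by
        obtain ⟨x, hx, h1, hP, hQ⟩ := ex_bal hN {a', c} {d} (by
          rw [Finset.disjoint_singleton_right, mem_insert, mem_singleton, not_or]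
          exact ⟨hd, Ne.symm hcd⟩) (by
          have : ({a', c} : Finset (Fin N)).card ≤ 2 := Finset.card_le_two
          omega) (by rw [Finset.card_singleton]; omega)
        refine ⟨x, ⟨hx, h1⟩, ⟨fun i => hx _, ?_⟩, hP a' (by simp), hP c (by simp), hQ d (by simp)⟩
        rw [← h1]
        exact Equiv.sum_comp (Equiv.swap c d) x)
    refine ⟨_, upd_sign (fun u => hx.1 (f u)) v, h3, ?_⟩
    rw [h4, hdf x hx.2, hsN]
    ring
  · obtain ⟨x, hx, h1, -, -⟩ := ex_bal (N := N) (h := g) hN ∅ ∅ (by simp) (by simp) (by simp)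
    exact ⟨fun v => x (f v), fun v => hx _, (hG x ⟨hx, h1⟩).2.1, hdf x h1⟩

theorem mc_of_tab {m t c : ℕ} (hm : m < 1400) (ht : tab m = t) (hc : 2 * c = m + t) :
    mc m = c := by
  have h1 := T_eq_tab m hm
  rw [ht, T_nat] at h1
  omega

/-- the values needed for `m = N (N - 1)` -/
theorem two_vals {g m : ℕ} (hg : 1 ≤ g) (hm : m = (2 * g + 1) * (2 * g))
    (hT : T (m : ℤ) = 2 * (g : ℤ)) : (∃ x : ℕ, DV m x) ∧ ∃ y : ℕ, BV m y ∧ y ≤ 2 * g := by
  have hsq := T_sq2 m
  rw [hT, hm] at hsq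
  have hg11 : g ≤ 11 := by
    by_contra hcon
    have h1 : (12 : ℤ) ≤ g := by
      have : 12 ≤ g := by omega
      exact_mod_cast this
    push_cast at hsq
    nlinarith
  have htab : ∀ t : ℕ, m < 1400 → tab m = t → (t : ℤ) = 2 * g := fun t h1 h2 => by
    have := T_eq_tab m h1
    rw [h2, hT] at this
    exact this.symm
  have hsmall : m < 180 → Bt m ≤ 2 * g → (∃ x : ℕ, DV m x) ∧ ∃ y : ℕ, BV m y ∧ y ≤ 2 * g :=
    fun h1 h2 => ⟨⟨_, DV_tab h1⟩, _, BV_tab h1, h2⟩
  clear hsq
  interval_cases g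
  · norm_num at hm; subst hm
    exact hsmall (by norm_num) (by decide +kernel)
  · norm_num at hm; subst hm
    exact hsmall (by norm_num) (by decide +kernel)
  · norm_num at hm; subst hm
    exact hsmall (by norm_num) (by decide +kernel)
  · norm_num at hm; subst hm
    exact hsmall (by norm_num) (by decide +kernel)
  · norm_num at hm; subst hm
    exact hsmall (by norm_num) (by decide +kernel)
  · norm_num at hm; subst hm
    exfalso
    have e : tab 156 = 14 ∨ tab 156 ≠ 12 := by decide +kernel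
    have := htab _ (by norm_num) rfl
    have e2 : tab 156 ≠ 12 := by decide +kernel
    apply e2
    exact_mod_cast this
  · norm_num at hm; subst hm
    exfalso
    have := htab _ (by norm_num) rfl
    have e2 : tab 210 ≠ 14 := by decide +kernel
    apply e2
    exact_mod_cast this
  · norm_num at hm; subst hm
    have hmc : mc 272 = 144 := mc_of_tab (t := 16) (by norm_num) (by decide +kernel) (by norm_num)
    refine ⟨⟨4, Or.inl ⟨272, 4, rfl, rfl, DVal.evenNeg (k := 12) (by norm_num) (by decide)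
      (by rw [hmc]; norm_num)⟩⟩, 4, Or.inl ⟨272, 4, rfl, rfl, BVal.evenNeg (k := 12) (by norm_num)
      (by decide) (by rw [hmc]; norm_num)⟩, by norm_num⟩
  · norm_num at hm; subst hm
    have hmc : mc 342 = 180 := mc_of_tab (t := 18) (by norm_num) (by decide +kernel) (by norm_num)
    have hmc2 : mc 17 = 11 := mc_of_tab (t := 5) (by norm_num) (by decide +kernel) (by norm_num)
    have hch : (2 * 13).choose 2 + 17 = 342 := by decide
    have e : mc ((2 * 13).choose 2 + 17) = (2 * 13) ^ 2 / 4 + mc 17 := by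
      rw [hch, hmc, hmc2]; norm_num
    have h17 := val_tab 17 (by norm_num)
    have hD := DVal.even (by norm_num) e h17.1
    have hB := BVal.even (by norm_num) e h17.2
    rw [hch] at hD hB
    exact ⟨⟨_, Or.inl ⟨342, _, rfl, rfl, hD⟩⟩, _, Or.inl ⟨342, _, rfl, rfl, hB⟩,
      by decide +kernel⟩
  · norm_num at hm; subst hm
    exfalso
    have := htab _ (by norm_num) rfl
    have e2 : tab 420 ≠ 20 := by decide +kernel
    apply e2
    exact_mod_cast this
  · norm_num at hm; subst hm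
    exfalso
    have := htab _ (by norm_num) rfl
    have e2 : tab 506 ≠ 22 := by decide +kernel
    apply e2
    exact_mod_cast this

/-- [QFO-Two] -/
theorem two_has {V : Type*} [Fintype V] [DecidableEq V] {W : V → V → ℤ} {k : V → ℤ} (h : OO W k)
    (hK : ∑ i, k i = 0) {N : ℕ} {f : V → Fin N} (hf : Col W f) {m : ℕ} (hm1 : 1 ≤ m)
    (hm : inn W univ = 2 * (m : ℤ)) (hs : Sb W (T m)) (hN : (N : ℤ) = T m + 1) (hodd : N % 2 = 1)
    (h2 : ∀ a b, a ≠ b → OP W f a b = 2) : HasD W m ∧ HasB W m := by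
  obtain ⟨g, hg⟩ : ∃ g, N = 2 * g + 1 := ⟨N / 2, by omega⟩
  have hi := OP_inn h hf hm
  have hw := OP_sym h hf
  have hmN : (m : ℤ) = (2 * g + 1) * (2 * g) := by
    have h1 : inn (OP W f) univ = ∑ a : Fin N, (2 * ((N : ℤ) - 1)) := by
      unfold inn
      refine Finset.sum_congr rfl fun a _ => ?_
      rw [← Finset.add_sum_erase univ _ (mem_univ a), hw.diag,
        Finset.sum_congr rfl fun j hj => h2 a j (ne_of_mem_erase hj).symm, Finset.sum_const,
        Finset.card_erase_of_mem (mem_univ a), Finset.card_univ, Fintype.card_fin, nsmul_eq_mul,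
        Nat.cast_sub (by omega)]
      push_cast
      ring
    rw [Finset.sum_const, Finset.card_univ, Fintype.card_fin, nsmul_eq_mul, hi, hK, hg] at h1
    push_cast at h1
    linarith
  have hg1 : 1 ≤ g := by
    rcases Nat.eq_zero_or_pos g with h0 | h0
    · rw [h0] at hmN
      norm_num at hmN
      omega
    · exact h0
  have hT : T (m : ℤ) = 2 * (g : ℤ) := by
    rw [hg] at hN
    push_cast at hN
    linarith
  obtain ⟨⟨x, hx⟩, y, hy, hyg⟩ := two_vals hg1 (by exact_mod_cast hmN) hT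
  obtain ⟨⟨e, he, h3, h4⟩, e', he', h3', h4'⟩ := two_D0 h hK hf hg hg1 hs h2 (by linarith)
  refine ⟨⟨e, x, he, h3, hx, ?_⟩, ⟨e', y, he', h3', hy, ?_⟩⟩
  · rw [h4, abs_zero]
    positivity
  · rw [h4', hT]
    have : (y : ℤ) ≤ 2 * g := by exact_mod_cast hyg
    rw [abs_of_nonneg (by positivity)]
    linarith

end Pool.Agent.QFO
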