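import Pool.Agent.QFO.Base2
import Pool.Agent.QFO.CapC
import Pool.Agent.QFO.Five
import Pool.Agent.QFO.Two

/-!
# [QFO-MainAsm] the case `N > T m` from the two alternatives (A) and not (A)
-/

set_option autoImplicit false
set_option linter.unusedSectionVars false

namespace Pool.Agent.QFO

open Finset Pool.Agent.MP_710317_co.Rec Pool.Agent.MXC Pool.Agent.QMA

/-- the classes without loops with one element -/
def sgl {V : Type*} [Fintype V] (k : V → ℤ) {N : ℕ} (f : V → Fin N) : Finset (Fin N) := by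
  classical
  exact univ.filter fun a => (∀ v, f v = a → k v = 0) ∧ (cls f a).card = 1

/-- the classes without loops with at least two elements -/
def nsg {V : Type*} [Fintype V] (k : V → ℤ) {N : ℕ} (f : V → Fin N) : Finset (Fin N) := by
  classical
  exact univ.filter fun a => (∀ v, f v = a → k v = 0) ∧ 2 ≤ (cls f a).card

theorem mem_sgl {V : Type*} [Fintype V] (k : V → ℤ) {N : ℕ} (f : V → Fin N) (a : Fin N) :
    a ∈ sgl k f ↔ (∀ v, f v = a → k v = 0) ∧ (cls f a).card = 1 := by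
  classical
  unfold sgl
  simp

theorem mem_nsg {V : Type*} [Fintype V] (k : V → ℤ) {N : ℕ} (f : V → Fin N) (a : Fin N) :
    a ∈ nsg k f ↔ (∀ v, f v = a → k v = 0) ∧ 2 ≤ (cls f a).card := by
  classical
  unfold nsg
  simp

/-- at most `∑ k` classes have a loop -/
theorem unl_card2 {V : Type*} [Fintype V] [DecidableEq V] {W : V → V → ℤ} {k : V → ℤ} (h : OO W k)
    {N : ℕ} {f : V → Fin N} (hc : Col W f) :
    (N : ℤ) ≤ ((sgl k f ∪ nsg k f).card : ℤ) + ∑ i, k i := by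
  classical
  set U := sgl k f ∪ nsg k f with hU
  have h1 : (U.card : ℤ) + (Uᶜ.card : ℤ) = N := by
    have := Finset.card_add_card_compl U
    rw [Fintype.card_fin] at this
    exact_mod_cast this
  have h2 : (Uᶜ.card : ℤ) ≤ ∑ a ∈ Uᶜ, ∑ v ∈ cls f a, k v := by
    have h3 : ∑ a ∈ Uᶜ, (1 : ℤ) ≤ ∑ a ∈ Uᶜ, ∑ v ∈ cls f a, k v := by
      refine Finset.sum_le_sum fun a ha => ?_
      rw [mem_compl, hU, mem_union, not_or, mem_sgl, mem_nsg] at ha
      obtain ⟨ha1, ha2⟩ := ha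
      have hne := Finset.card_pos.2 (cls_nonempty hc a)
      have h4 : ¬ ∀ v, f v = a → k v = 0 := by
        intro h5
        rcases Nat.lt_or_ge (cls f a).card 2 with h6 | h6
        · exact ha1 ⟨h5, by omega⟩
        · exact ha2 ⟨h5, h6⟩
      push Not at h4
      obtain ⟨v, hv, hkv⟩ := h4
      have h5 : k v ≤ ∑ v ∈ cls f a, k v :=
        Finset.single_le_sum (fun x _ => h.knn x) (mem_cls.2 hv)
      have h6 := h.knn v
      omega
    rw [Finset.sum_const, nsmul_eq_mul, mul_one] at h3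
    exact h3
  have h3 : ∑ a ∈ Uᶜ, ∑ v ∈ cls f a, k v ≤ ∑ a, ∑ v ∈ cls f a, k v :=
    Finset.sum_le_sum_of_subset_of_nonneg (subset_univ _) fun a _ _ =>
      Finset.sum_nonneg fun v _ => h.knn v
  rw [cls_sum] at h3
  linarith

/-- the alternative (A) -/
def AltA : Prop :=
  ∀ (V : Type) [Fintype V] [DecidableEq V] (W : V → V → ℤ) (k : V → ℤ), OO W k →
    ∀ (N : ℕ) (f : V → Fin N), Col W f → ∀ m : ℕ, 1 ≤ m → inn W univ = 2 * (m : ℤ) →
    Sb W (T m) → T (m : ℤ) < N → (∀ r : ℤ, r < m → QD r ∧ QB r) →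
    ∀ (S J : Finset (Fin N)) (_ : ∀ a, a ∈ S ↔ (∀ v, f v = a → k v = 0) ∧ (cls f a).card = 1)
      (_ : ∀ a, a ∈ J ↔ (∀ v, f v = a → k v = 0) ∧ 2 ≤ (cls f a).card)
      (_ : T (m : ℤ) - ∑ i, k i < ((S ∪ J).card : ℤ)) (F : Finset (Fin N)) (_ : F ⊆ J)
      (_ : 2 * F.card + 2 ≤ (S ∪ J).card), ∀ i ∈ S, ∀ i' ∈ S, i ≠ i' →
      (∀ l ∈ J, l ∉ F → push W f i l ≤ 1) → (∀ l ∈ J, l ∉ F → push W f i' l ≤ 1) →
      HasD W m ∧ HasB W m

/-- the alternative not (A) -/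
def AltB : Prop :=
  ∀ (V : Type) [Fintype V] [DecidableEq V] (W : V → V → ℤ) (k : V → ℤ) (N : ℕ) (f : V → Fin N),
    OO W k → Col W f → ∀ s : ℤ, Sb W s →
    ∀ (S J : Finset (Fin N)) (_ : ∀ a, a ∈ S ↔ (∀ v, f v = a → k v = 0) ∧ (cls f a).card = 1)
      (_ : ∀ a, a ∈ J ↔ (∀ v, f v = a → k v = 0) ∧ 2 ≤ (cls f a).card)
      (_ : s - ∑ i, k i < ((S ∪ J).card : ℤ))
      (_ : ∀ F : Finset (Fin N), F ⊆ J → 2 * F.card + 2 ≤ (S ∪ J).card → ∀ i ∈ S, ∀ i' ∈ S,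
        i ≠ i' → (∀ l ∈ J, l ∉ F → push W f i l ≤ 1) → (∀ l ∈ J, l ∉ F → push W f i' l ≤ 1) →
        False),
      (∃ C : Finset V, C.card = (S ∪ J).card ∧ (∀ x ∈ C, k x = 0) ∧
        (∀ x ∈ C, ∀ y ∈ C, x ≠ y → W x y = 1) ∧
        ∀ x ∈ C, ∀ b, b ≠ f x → ∃ u, f u = b ∧ 1 ≤ W x u) ∨
      (∑ i, k i = 0 ∧ (N : ℤ) = s + 1 ∧ N % 2 = 1 ∧ ∀ a b, a ≠ b → OP W f a b = 2) ∨
      (∑ i, k i = 0 ∧ N = 5 ∧ s = 4)

theorem big_of (hA : AltA) (hB : AltB) : Big := by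
  intro V _ _ W k h N f hc m hm1 hm hs hN ih
  classical
  have hU := unl_card2 h hc
  have hlt : T (m : ℤ) - ∑ i, k i < ((sgl k f ∪ nsg k f).card : ℤ) := by linarith
  by_cases hex : ∃ F : Finset (Fin N), F ⊆ nsg k f ∧ 2 * F.card + 2 ≤ (sgl k f ∪ nsg k f).card ∧
      ∃ i ∈ sgl k f, ∃ i' ∈ sgl k f, i ≠ i' ∧ (∀ l ∈ nsg k f, l ∉ F → push W f i l ≤ 1) ∧
      (∀ l ∈ nsg k f, l ∉ F → push W f i' l ≤ 1)
  · obtain ⟨F, hF, hF2, i, hi, i', hi', hii, h1, h2⟩ := hex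
    exact hA V W k h N f hc m hm1 hm hs hN ih (sgl k f) (nsg k f) (mem_sgl k f) (mem_nsg k f) hlt F
      hF hF2 i hi i' hi' hii h1 h2
  · have hB2 := hB V W k N f h hc (T m) hs (sgl k f) (nsg k f) (mem_sgl k f) (mem_nsg k f) hlt
      (fun F hF hF2 i hi i' hi' hii h1 h2 =>
        hex ⟨F, hF, hF2, i, hi, i', hi', hii, h1, h2⟩)
    rcases hB2 with ⟨C, hC, hCk, hC1, hCf⟩ | ⟨hK, hN1, hodd, h2⟩ | ⟨hK, hN5, hT4⟩
    · exact clique_has h hm1 hm hs hN ih (fun i hi j hj hij => hC1 i hi j hj hij) hCk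
        (fun i hi => full_row h (hCf i hi)) (by rw [hC]; exact hlt)
    · exact two_has h hK hc hm1 hm hs hN1 hodd h2
    · subst hN5
      exact five_has h hK hc hm hs hT4

theorem all_of (hA : AltA) (hB : AltB) : ∀ m : ℤ, QD m ∧ QB m :=
  all_of_big (big_of hA hB)

end Pool.Agent.QFO
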