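import Pool.Agent.QFO.CritD
import Pool.Agent.MXC.NExt

/-!
# [QFO-Mat] matchings at class level

`rel_match`: signs prescribed on `F`, a matching `τ` of the rest.  `Best w τ`: a near-perfect matching of
greatest weight.
-/

set_option autoImplicit false
set_option linter.unusedSectionVars false

namespace Pool.Agent.QFO

open Finset Pool.Agent.MP_710317_co.Rec Pool.Agent.MXC

variable {V : Type*} [Fintype V] [DecidableEq V]

/-- the quadratic form on a subset -/
def qs (w : V → V → ℤ) (S : Finset V) (e : V → ℤ) : ℤ := ∑ i ∈ S, ∑ j ∈ S, w i j * e i * e j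

theorem qs_insert {w : V → V → ℤ} (hw : Sym w) (e : V → ℤ) {S : Finset V} {a : V}
    (ha : a ∉ S) : qs w (insert a S) e = qs w S e + 2 * e a * ∑ j ∈ S, w a j * e j := by
  unfold qs
  rw [Finset.sum_insert ha, Finset.sum_insert ha, hw.diag a]
  have h1 : ∀ i ∈ S, ∑ j ∈ insert a S, w i j * e i * e j =
      w a i * e i * e a + ∑ j ∈ S, w i j * e i * e j := by
    intro i _
    rw [Finset.sum_insert ha, hw.symm i a]
  rw [Finset.sum_congr rfl h1, Finset.sum_add_distrib]
  have h2 : ∑ j ∈ S, w a j * e a * e j = e a * ∑ j ∈ S, w a j * e j := by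
    rw [Finset.mul_sum]
    exact Finset.sum_congr rfl fun j _ => by ring
  have h3 : ∑ j ∈ S, w a j * e j * e a = e a * ∑ j ∈ S, w a j * e j := by
    rw [Finset.mul_sum]
    exact Finset.sum_congr rfl fun j _ => by ring
  rw [h2, h3]
  ring

theorem qs_congr (w : V → V → ℤ) {e e' : V → ℤ} {S : Finset V}
    (h : ∀ i ∈ S, e i = e' i) : qs w S e = qs w S e' := by
  unfold qs
  exact Finset.sum_congr rfl fun i hi => Finset.sum_congr rfl fun j hj => by
    rw [h i hi, h j hj]

theorem qs_univ (w : V → V → ℤ) (e : V → ℤ) : en w e = - qs w univ e := rfl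

theorem sgn_le (c : ℤ) : ∃ t : ℤ, (t = 1 ∨ t = -1) ∧ t * c ≤ 0 := by
  rcases le_total c 0 with h | h
  · exact ⟨1, Or.inl rfl, by linarith⟩
  · exact ⟨-1, Or.inr rfl, by linarith⟩

/-- signs prescribed on `F`, opposite signs on the pairs of the matching `τ` of the rest -/
theorem rel_match {w : V → V → ℤ} (hw : Sym w) (τ : V → V) (hτ : ∀ x, τ (τ x) = x) (n : ℕ) :
    ∀ (F : Finset V), Fᶜ.card = n → (∀ x, x ∉ F → τ x ∉ F ∧ τ x ≠ x) → ∀ e₀ : V → ℤ, IsSign e₀ →
      ∃ e : V → ℤ, IsSign e ∧ (∀ x ∈ F, e x = e₀ x) ∧ (∀ x, x ∉ F → e (τ x) = - e x) ∧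
        ∑ x ∈ Fᶜ, w x (τ x) - qs w F e₀ ≤ en w e := by
  induction n using Nat.strong_induction_on with
  | _ n ih =>
  intro F hn hF e₀ he₀
  rcases (Fᶜ).eq_empty_or_nonempty with hE | ⟨a, ha⟩
  · have hu : F = univ := by
      have := congrArg compl hE
      simpa using this
    refine ⟨e₀, he₀, fun _ _ => rfl, fun x hx => absurd (by rw [hu]; exact mem_univ x) hx, ?_⟩
    rw [hE, Finset.sum_empty, qs_univ, hu]
    linarith
  · have haF : a ∉ F := mem_compl.1 ha
    obtain ⟨hbF, hba⟩ := hF a haF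
    set b := τ a with hb
    have hτb : τ b = a := hτ a
    set F' : Finset V := insert a (insert b F) with hF'
    have haF2 : a ∉ insert b F := by
      rw [mem_insert]
      rintro (h | h)
      · exact hba h.symm
      · exact haF h
    obtain ⟨t, ht, htle⟩ := sgn_le (∑ j ∈ F, w a j * e₀ j - ∑ j ∈ F, w b j * e₀ j)
    set e₁ : V → ℤ := fun x => if x = a then t else if x = b then -t else e₀ x with he₁
    have e1a : e₁ a = t := by simp [he₁]
    have e1b : e₁ b = -t := by simp [he₁, hba]
    have e1F : ∀ x ∈ F, e₁ x = e₀ x := by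
      intro x hx
      simp only [he₁]
      rw [if_neg (fun h : x = a => haF (h ▸ hx)), if_neg (fun h : x = b => hbF (h ▸ hx))]
    have hs1 : IsSign e₁ := by
      intro x
      simp only [he₁]
      by_cases h1 : x = a
      · rw [if_pos h1]; exact ht
      · rw [if_neg h1]
        by_cases h2 : x = b
        · rw [if_pos h2]
          rcases ht with h | h
          · right; rw [h]
          · left; rw [h]; norm_num
        · rw [if_neg h2]; exact he₀ x
    have hF'n : ∀ x, x ∉ F' → τ x ∉ F' ∧ τ x ≠ x := by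
      intro x hx
      rw [hF', mem_insert, mem_insert, not_or, not_or] at hx
      obtain ⟨hxa, hxb, hxF⟩ := hx
      obtain ⟨h1, h2⟩ := hF x hxF
      refine ⟨?_, h2⟩
      rw [hF', mem_insert, mem_insert, not_or, not_or]
      refine ⟨fun h => hxb ?_, fun h => hxa ?_, h1⟩
      · rw [← hτ x, h]
      · rw [← hτ x, h, hτb]
    have hcompl : Fᶜ = insert a (insert b F'ᶜ) := by
      ext x
      simp only [mem_compl, hF', mem_insert, not_or]
      constructor
      · intro hx
        by_cases h1 : x = a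
        · exact Or.inl h1
        · by_cases h2 : x = b
          · exact Or.inr (Or.inl h2)
          · exact Or.inr (Or.inr ⟨h1, h2, hx⟩)
      · rintro (h | h | h)
        · rw [h]; exact haF
        · rw [h]; exact hbF
        · exact h.2.2
    have ha2 : a ∉ insert b F'ᶜ := by
      rw [mem_insert, mem_compl]
      rintro (h | h)
      · exact hba h.symm
      · exact h (mem_insert_self a _)
    have hb2 : b ∉ F'ᶜ := by
      rw [mem_compl, not_not, hF']
      exact mem_insert_of_mem (mem_insert_self b _)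
    have hcard : F'ᶜ.card < n := by
      rw [← hn, hcompl, Finset.card_insert_of_notMem ha2, Finset.card_insert_of_notMem hb2]
      omega
    obtain ⟨e, he, heF, heτ, hle⟩ := ih _ hcard F' rfl hF'n e₁ hs1
    refine ⟨e, he, fun x hx => ?_, fun x hx => ?_, ?_⟩
    · rw [heF x (mem_insert_of_mem (mem_insert_of_mem hx)), e1F x hx]
    · by_cases hx' : x ∈ F'
      · rw [hF', mem_insert, mem_insert] at hx'
        rcases hx' with h | h | h
        · rw [h, ← hb, heF b (mem_insert_of_mem (mem_insert_self b _)),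
            heF a (mem_insert_self a _), e1a, e1b]
        · rw [h, hτb, heF b (mem_insert_of_mem (mem_insert_self b _)),
            heF a (mem_insert_self a _), e1a, e1b]
          ring
        · exact absurd h hx
      · exact heτ x hx'
    · have hq : qs w F' e₁ = qs w F e₀ + 2 * (t * (∑ j ∈ F, w a j * e₀ j - ∑ j ∈ F, w b j * e₀ j))
          - 2 * w a b := by
        rw [hF', qs_insert hw e₁ haF2, qs_insert hw e₁ hbF, Finset.sum_insert hbF, e1a, e1b]
        have h1 : ∀ c, ∑ j ∈ F, w c j * e₁ j = ∑ j ∈ F, w c j * e₀ j := fun c =>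
          Finset.sum_congr rfl fun j hj => by rw [e1F j hj]
        rw [h1, h1, qs_congr w e1F]
        have ht2 : t * t = 1 := by rcases ht with h | h <;> rw [h] <;> norm_num
        linear_combination (-2 * w a b) * ht2
      rw [hcompl, Finset.sum_insert ha2, Finset.sum_insert hb2, ← hb, hτb, hw.symm b a]
      linarith

/-- the bound which follows -/
theorem rel_bound {w : V → V → ℤ} (hw : Sym w) {s : ℤ} (hs : Sb w s) {τ : V → V}
    (hτ : ∀ x, τ (τ x) = x) {F : Finset V} (hF : ∀ x, x ∉ F → τ x ∉ F ∧ τ x ≠ x) {e₀ : V → ℤ}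
    (he₀ : IsSign e₀) : ∑ x ∈ Fᶜ, w x (τ x) - qs w F e₀ ≤ 2 * s := by
  obtain ⟨e, he, _, _, h⟩ := rel_match hw τ hτ _ F rfl hF e₀ he₀
  exact h.trans (hs e he)

/-- a near-perfect matching of greatest weight -/
structure Best (w : V → V → ℤ) (τ : V → V) : Prop where
  inv : ∀ x, τ (τ x) = x
  fix : ((univ : Finset V).filter fun x => τ x = x).card = Fintype.card V % 2
  max : ∀ σ : V → V, (∀ x, σ (σ x) = x) →
    ((univ : Finset V).filter fun x => σ x = x).card = Fintype.card V % 2 →
    ∑ x, w x (σ x) ≤ ∑ x, w x (τ x)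

theorem exists_best (w : V → V → ℤ) : ∃ τ : V → V, Best w τ := by
  classical
  obtain ⟨σ, hσ, _, hc⟩ := near_ext (V := V) id (fun _ => rfl)
  have hfix : ∀ τ : V → V, (nfx τ).card = 2 * (Fintype.card V / 2) ↔
      ((univ : Finset V).filter fun x => τ x = x).card = Fintype.card V % 2 := by
    intro τ
    have h : (univ.filter fun x => τ x = x).card + (nfx τ).card = Fintype.card V := by
      unfold nfx
      rw [Finset.card_filter_add_card_filter_not, Finset.card_univ]
    omega
  obtain ⟨τ, hτm, hmax⟩ := Finset.exists_max_image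
    ((univ : Finset (V → V)).filter fun σ => (∀ x, σ (σ x) = x) ∧
      ((univ : Finset V).filter fun x => σ x = x).card = Fintype.card V % 2)
    (fun σ => ∑ x, w x (σ x)) ⟨σ, by
      rw [Finset.mem_filter]
      exact ⟨mem_univ _, hσ, (hfix σ).1 hc⟩⟩
  obtain ⟨h1, h2⟩ := (Finset.mem_filter.1 hτm).2
  exact ⟨τ, h1, h2, fun σ h3 h4 => hmax σ (Finset.mem_filter.2 ⟨mem_univ _, h3, h4⟩)⟩

/-- exchange of `a` and `b` in the matching `τ` -/
def xch (τ : V → V) (a b : V) (x : V) : V := Equiv.swap a b (τ (Equiv.swap a b x))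

theorem xch_inv {τ : V → V} (hτ : ∀ x, τ (τ x) = x) (a b x : V) :
    xch τ a b (xch τ a b x) = x := by
  unfold xch
  rw [Equiv.swap_apply_self, hτ, Equiv.swap_apply_self]

theorem xch_fix (τ : V → V) (a b : V) : ((univ : Finset V).filter fun x => xch τ a b x = x).card =
    ((univ : Finset V).filter fun x => τ x = x).card := by
  refine Finset.card_bij (fun x _ => Equiv.swap a b x) ?_ ?_ ?_
  · intro x hx
    rw [Finset.mem_filter] at hx ⊢
    refine ⟨mem_univ _, ?_⟩
    have h := hx.2
    unfold xch at h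
    rw [← Equiv.swap_apply_self a b (τ _), h]
  · intro x _ y _ h
    exact (Equiv.swap a b).injective h
  · intro y hy
    rw [Finset.mem_filter] at hy
    refine ⟨Equiv.swap a b y, ?_, Equiv.swap_apply_self a b y⟩
    rw [Finset.mem_filter]
    refine ⟨mem_univ _, ?_⟩
    unfold xch
    rw [Equiv.swap_apply_self, hy.2]

theorem xch_best {w : V → V → ℤ} {τ : V → V} (h : Best w τ) (a b : V)
    (heq : ∑ x, w x (xch τ a b x) = ∑ x, w x (τ x)) : Best w (xch τ a b) :=
  ⟨xch_inv h.inv a b, by rw [xch_fix, h.fix], fun σ h1 h2 => by rw [heq]; exact h.max σ h1 h2⟩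

/-- the weight of the exchanged matching: two pairs -/
theorem xch_sum {w : V → V → ℤ} (hw : Sym w) {τ : V → V} (hτ : ∀ x, τ (τ x) = x) {a b : V}
    (hab : a ≠ b) (h1 : τ a ≠ b) (ha : τ a ≠ a) (hb : τ b ≠ b) :
    ∑ x, w x (xch τ a b x) = ∑ x, w x (τ x) +
      2 * (w a (τ b) + w b (τ a) - w a (τ a) - w b (τ b)) := by
  have h1' : τ b ≠ a := fun h => h1 (by rw [← h, hτ])
  have hττ : τ a ≠ τ b := fun h => hab (by rw [← hτ a, h, hτ])
  have e1 : ∑ x, w x (xch τ a b x) = ∑ x, w (Equiv.swap a b x) (Equiv.swap a b (τ x)) := by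
    rw [← Equiv.sum_comp (Equiv.swap a b)]
    refine Finset.sum_congr rfl fun x _ => ?_
    unfold xch
    rw [Equiv.swap_apply_self]
  rw [e1]
  have e2 : ∑ x, (w (Equiv.swap a b x) (Equiv.swap a b (τ x)) - w x (τ x)) =
      ∑ x ∈ ({a, b, τ a, τ b} : Finset V),
        (w (Equiv.swap a b x) (Equiv.swap a b (τ x)) - w x (τ x)) := by
    symm
    refine Finset.sum_subset (subset_univ _) fun x _ hx => ?_
    simp only [mem_insert, mem_singleton, not_or] at hx
    obtain ⟨x1, x2, x3, x4⟩ := hx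
    rw [Equiv.swap_apply_of_ne_of_ne x1 x2, Equiv.swap_apply_of_ne_of_ne
      (fun h => x3 (by rw [← h, hτ])) (fun h => x4 (by rw [← h, hτ])), sub_self]
  rw [Finset.sum_sub_distrib] at e2
  rw [Finset.sum_insert (by simp only [mem_insert, mem_singleton, not_or]; exact
      ⟨hab, Ne.symm ha, Ne.symm h1'⟩),
    Finset.sum_insert (by simp only [mem_insert, mem_singleton, not_or]; exact
      ⟨Ne.symm h1, Ne.symm hb⟩),
    Finset.sum_insert (by rw [mem_singleton]; exact hττ), Finset.sum_singleton] at e2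
  rw [Equiv.swap_apply_left, Equiv.swap_apply_right, hτ, hτ, Equiv.swap_apply_left,
    Equiv.swap_apply_right, Equiv.swap_apply_of_ne_of_ne ha h1,
    Equiv.swap_apply_of_ne_of_ne h1' hb] at e2
  have s1 := hw.symm (τ a) b
  have s2 := hw.symm (τ a) a
  have s3 := hw.symm (τ b) a
  have s4 := hw.symm (τ b) b
  linarith

/-- the weight of the exchanged matching: a pair and the fixed point -/
theorem xch_sum1 {w : V → V → ℤ} (hw : Sym w) {τ : V → V} (hτ : ∀ x, τ (τ x) = x) {a b : V}
    (hab : a ≠ b) (ha : τ a = a) (hb : τ b ≠ b) :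
    ∑ x, w x (xch τ a b x) = ∑ x, w x (τ x) + 2 * (w a (τ b) - w b (τ b)) := by
  have h1' : τ b ≠ a := fun h => hab (by rw [← ha, ← h, hτ])
  have e1 : ∑ x, w x (xch τ a b x) = ∑ x, w (Equiv.swap a b x) (Equiv.swap a b (τ x)) := by
    rw [← Equiv.sum_comp (Equiv.swap a b)]
    refine Finset.sum_congr rfl fun x _ => ?_
    unfold xch
    rw [Equiv.swap_apply_self]
  rw [e1]
  have e2 : ∑ x, (w (Equiv.swap a b x) (Equiv.swap a b (τ x)) - w x (τ x)) =
      ∑ x ∈ ({a, b, τ b} : Finset V),
        (w (Equiv.swap a b x) (Equiv.swap a b (τ x)) - w x (τ x)) := by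
    symm
    refine Finset.sum_subset (subset_univ _) fun x _ hx => ?_
    simp only [mem_insert, mem_singleton, not_or] at hx
    obtain ⟨x1, x2, x4⟩ := hx
    rw [Equiv.swap_apply_of_ne_of_ne x1 x2, Equiv.swap_apply_of_ne_of_ne
      (fun h => x1 (by rw [← hτ x, h, ha])) (fun h => x4 (by rw [← h, hτ])), sub_self]
  rw [Finset.sum_sub_distrib] at e2
  rw [Finset.sum_insert (by simp only [mem_insert, mem_singleton, not_or]; exact
      ⟨hab, Ne.symm h1'⟩),
    Finset.sum_insert (by rw [mem_singleton]; exact Ne.symm hb), Finset.sum_singleton] at e2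
  rw [ha, Equiv.swap_apply_left, Equiv.swap_apply_right, hτ, Equiv.swap_apply_right,
    Equiv.swap_apply_of_ne_of_ne h1' hb, hw.diag, hw.diag] at e2
  have s3 := hw.symm (τ b) a
  have s4 := hw.symm (τ b) b
  linarith

theorem best_le {w : V → V → ℤ} (hw : Sym w) {τ : V → V} (h : Best w τ) {a b : V}
    (hab : a ≠ b) (h1 : τ a ≠ b) (ha : τ a ≠ a) (hb : τ b ≠ b) :
    w a (τ b) + w b (τ a) ≤ w a (τ a) + w b (τ b) := by
  have h2 := h.max (xch τ a b) (xch_inv h.inv a b) (by rw [xch_fix, h.fix])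
  rw [xch_sum hw h.inv hab h1 ha hb] at h2
  linarith

theorem best_le1 {w : V → V → ℤ} (hw : Sym w) {τ : V → V} (h : Best w τ) {a b : V}
    (hab : a ≠ b) (ha : τ a = a) (hb : τ b ≠ b) : w a (τ b) ≤ w b (τ b) := by
  have h2 := h.max (xch τ a b) (xch_inv h.inv a b) (by rw [xch_fix, h.fix])
  rw [xch_sum1 hw h.inv hab ha hb] at h2
  linarith

end Pool.Agent.QFO
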