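import Pool.Agent.QFO.Cap

/-!
# [QFO-ML] the matching lemma

`S` a set of `2 n` vertices without loops, `i` outside `S`. Glueing the pairs of a matching of `S` with opposite
signs and choosing the matching well gives
`(2 n - 1) (s - K) ≥ tot S`, and `(2 n - 1) (s - K) ≥ tot S + 2 n - 2` if the row of `i` is not constant on `S`.
-/

set_option autoImplicit false
set_option linter.unusedSectionVars false

namespace Pool.Agent.QFO

open Finset Pool.Agent.MP_710317_co.Rec Pool.Agent.MXC

variable {V : Type*} [Fintype V] [DecidableEq V]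

/-- the number of loops is at most the surplus -/
theorem K_le {W : V → V → ℤ} {k : V → ℤ} (hw : SymK W k) {s : ℤ} (hs : Sb W s) :
    ∑ i, k i ≤ s := by
  obtain ⟨a, ha⟩ := inn_even hw univ
  have h1 := T_le_Sb hw ha hs
  have h2 : 0 ≤ T (a + ∑ i, k i) := T_nonneg _
  linarith

/-- a nonzero entry off the diagonal gives one more -/
theorem K_lt {W : V → V → ℤ} {k : V → ℤ} (hw : SymK W k) {s : ℤ} (hs : Sb W s) {i z : V}
    (hiz : z ≠ i) (hne : W i z ≠ 0) : ∑ i, k i + 1 ≤ s := by
  classical
  set w := off W with hwdef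
  have hws : Sym w := off_sym hw
  obtain ⟨e, he, hle⟩ := gen_lemma hws (ι := Unit) (fun _ x => w i x) (univ.erase i)
  have hex : ∃ x ∈ univ.erase i, w i x ≠ 0 := by
    refine ⟨z, mem_erase.2 ⟨hiz, mem_univ z⟩, ?_⟩
    simp only [hwdef, off]
    rw [if_neg (Ne.symm hiz)]
    exact hne
  rw [Finset.filter_true_of_mem (fun _ _ => hex)] at hle
  set A := ∑ x ∈ univ.erase i, w i x * e x with hA
  have hle' : 2 ≤ - (∑ x ∈ univ.erase i, ∑ y ∈ univ.erase i, w x y * e x * e y) + 2 * |A| := by
    simpa using hle
  set t : ℤ := if 0 ≤ A then -1 else 1 with ht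
  have ht1 : t = 1 ∨ t = -1 := by
    simp only [ht]; by_cases h : 0 ≤ A
    · rw [if_pos h]; exact Or.inr rfl
    · rw [if_neg h]; exact Or.inl rfl
  have htA : t * A = - |A| := by
    simp only [ht]
    by_cases h : 0 ≤ A
    · rw [if_pos h, abs_of_nonneg h]; ring
    · rw [if_neg h, abs_of_neg (not_le.1 h)]; ring
  set e' := Function.update e i t with he'
  have he's : IsSign e' := by
    intro x
    by_cases h : x = i
    · rw [h, he', Function.update_self]; exact ht1
    · rw [he', Function.update_of_ne h]; exact he x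
  have hne' : ∀ x ∈ univ.erase i, e' x = e x := fun x hx => by
    rw [he', Function.update_of_ne (ne_of_mem_erase hx)]
  have hei : e' i = t := by rw [he', Function.update_self]
  have hen : en w e' = - (∑ x ∈ univ.erase i, ∑ y ∈ univ.erase i, w x y * e x * e y) +
      2 * |A| := by
    unfold en
    rw [← Finset.add_sum_erase univ _ (mem_univ i)]
    have h1 : ∑ j, w i j * e' i * e' j = t * A := by
      rw [← Finset.add_sum_erase univ _ (mem_univ i), hws.diag i, hA, Finset.mul_sum, hei]
      rw [zero_mul, zero_mul, zero_add]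
      exact Finset.sum_congr rfl fun x hx => by rw [hne' x hx]; ring
    have h2 : ∀ x ∈ univ.erase i, ∑ j, w x j * e' x * e' j =
        w i x * e x * t + ∑ y ∈ univ.erase i, w x y * e x * e y := by
      intro x hx
      rw [← Finset.add_sum_erase univ _ (mem_univ i), hne' x hx, hei, hws.symm x i]
      congr 1
      exact Finset.sum_congr rfl fun y hy => by rw [hne' y hy]
    rw [h1, Finset.sum_congr rfl h2, Finset.sum_add_distrib]
    have h3 : ∑ x ∈ univ.erase i, w i x * e x * t = t * A := by
      rw [hA, Finset.mul_sum]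
      exact Finset.sum_congr rfl fun x _ => by ring
    rw [h3, htA]
    ring
  have h4 := hs e' he's
  have h5 := off_en hw he's
  rw [← hwdef, hen] at h5
  linarith

/-- deleting two vertices -/
theorem inn_del {W : V → V → ℤ} {k : V → ℤ} (hw : SymK W k) {S : Finset V} {j l : V}
    (hj : j ∈ S) (hl : l ∈ S) (hjl : l ≠ j) (hkj : k j = 0) (hkl : k l = 0) :
    inn W ((S.erase j).erase l) = inn W S - 2 * ∑ x ∈ S, W j x - 2 * ∑ x ∈ S, W l x +
      2 * W j l := by
  have hl' : l ∈ S.erase j := mem_erase.2 ⟨hjl, hl⟩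
  rw [innK_erase hw (S.erase j) hl', innK_erase hw S hj, hkj, hkl]
  have h1 : ∑ x ∈ (S.erase j).erase l, W l x = ∑ x ∈ S, W l x - W l j := by
    have h2 := Finset.add_sum_erase (S.erase j) (fun x => W l x) hl'
    have h3 := Finset.add_sum_erase S (fun x => W l x) hj
    have h4 : W l l = 0 := by rw [hw.diag, hkl]; ring
    rw [h4] at h2
    linarith
  have h5 : ∑ x ∈ S.erase j, W j x = ∑ x ∈ S, W j x := by
    have h3 := Finset.add_sum_erase S (fun x => W j x) hj
    have h4 : W j j = 0 := by rw [hw.diag, hkj]; ring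
    rw [h4] at h3
    linarith
  rw [h1, h5, hw.symm l j]
  ring

/-- the sum over the partners of `j` -/
theorem inn_del_sum {W : V → V → ℤ} {k : V → ℤ} (hw : SymK W k) {S : Finset V} {j : V}
    (hj : j ∈ S) (hk : ∀ x ∈ S, k x = 0) :
    ∑ l ∈ S.erase j, inn W ((S.erase j).erase l) =
      ((S.card : ℤ) - 3) * inn W S - 2 * ((S.card : ℤ) - 3) * ∑ x ∈ S, W j x := by
  have h1 : ∀ l ∈ S.erase j, inn W ((S.erase j).erase l) =
      inn W S - 2 * ∑ x ∈ S, W j x - 2 * ∑ x ∈ S, W l x + 2 * W j l := fun l hl =>
    inn_del hw hj (mem_of_mem_erase hl) (ne_of_mem_erase hl) (hk j hj) (hk l (mem_of_mem_erase hl))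
  have hc : ((S.erase j).card : ℤ) = (S.card : ℤ) - 1 := by
    have := Finset.card_erase_add_one hj
    have h2 : ((S.erase j).card : ℤ) + 1 = S.card := by exact_mod_cast this
    linarith
  rw [Finset.sum_congr rfl h1, Finset.sum_add_distrib, Finset.sum_sub_distrib, Finset.sum_const,
    nsmul_eq_mul, hc, ← Finset.mul_sum, ← Finset.mul_sum]
  have h2 := Finset.add_sum_erase S (fun l => ∑ x ∈ S, W l x) hj
  have h3 := Finset.add_sum_erase S (fun x => W j x) hj
  have h4 : W j j = 0 := by rw [hw.diag, hk j hj]; ring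
  rw [h4] at h3
  have h5 : ∑ x ∈ S.erase j, W j x = ∑ x ∈ S, W j x := by linarith
  have h6 : ∑ l ∈ S.erase j, ∑ x ∈ S, W l x = inn W S - ∑ x ∈ S, W j x := by
    unfold inn; linarith
  rw [h5, h6]
  ring

/-- glueing `j` and `l` with opposite signs -/
theorem glue_pair {W : V → V → ℤ} {k : V → ℤ} (hw : SymK W k) {s : ℤ} (hs : Sb W s)
    {S : Finset V} {i j l : V} (hi : i ∉ S) (hk : ∀ x ∈ S, k x = 0)
    (h0 : ∀ x ∈ S, ∀ y ∈ S, x ≠ y → 0 ≤ W x y) (hj : j ∈ S) (hl : l ∈ S) (hjl : l ≠ j) :
    ∃ (W' : V → V → ℤ) (k' : V → ℤ), SymK W' k' ∧ Sb W' s ∧ ∑ x, k' x = ∑ x, k x + W j l ∧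
      (∀ x ∈ (S.erase j).erase l, k' x = 0) ∧
      (∀ x ∈ (S.erase j).erase l, ∀ y ∈ (S.erase j).erase l, W' x y = W x y) ∧
      (∀ x, x ≠ j → x ≠ l → W' i x = W i x) ∧ W' i l = W i l - W i j := by
  have hkj := hk j hj
  have hji : i ≠ j := fun h => hi (h ▸ hj)
  have hli : i ≠ l := fun h => hi (h ▸ hl)
  refine ⟨agl W j l, _, agl_symK hw (Ne.symm hjl) hkj (h0 j hj l hl (Ne.symm hjl)),
    agl_Sb hw (Ne.symm hjl) hkj hs, ?_, ?_, ?_, ?_, ?_⟩
  · have h2 : ∀ a, (if a = l then k l + W j l else k a) =
        k a + (if a = l then W j l else 0) := by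
      intro a
      by_cases h3 : a = l
      · rw [if_pos h3, if_pos h3, h3]
      · rw [if_neg h3, if_neg h3, add_zero]
    rw [Finset.sum_congr rfl fun a _ => h2 a, Finset.sum_add_distrib, Finset.sum_ite_eq']
    simp
  · intro x hx
    rw [if_neg (ne_of_mem_erase hx)]
    exact hk x (mem_of_mem_erase (mem_of_mem_erase hx))
  · intro x hx y hy
    have hx1 := ne_of_mem_erase hx
    have hx2 := ne_of_mem_erase (mem_of_mem_erase hx)
    have hy1 := ne_of_mem_erase hy
    have hy2 := ne_of_mem_erase (mem_of_mem_erase hy)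
    unfold agl
    rw [if_neg (fun h => h.elim hx2 hy2), if_neg hx1, if_neg hy1]
    ring
  · intro x hxj hxl
    unfold agl
    rw [if_neg (fun h => h.elim hji hxj), if_neg hli, if_neg hxl]
    ring
  · unfold agl
    rw [if_neg (fun h => h.elim hji hjl), if_neg hli, if_pos rfl]
    ring

theorem inn_congr {W W' : V → V → ℤ} {S : Finset V} (h : ∀ x ∈ S, ∀ y ∈ S, W' x y = W x y) :
    inn W' S = inn W S := by
  unfold inn
  exact Finset.sum_congr rfl fun x hx => Finset.sum_congr rfl fun y hy => h x hx y hy

/-- [QFO-ML] the matching lemma -/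
theorem mat_main (n : ℕ) : ∀ {W : V → V → ℤ} {k : V → ℤ} (_ : SymK W k) {s : ℤ} (_ : Sb W s)
    {S : Finset V} {i : V} (_ : S.card = 2 * (n + 1)) (_ : i ∉ S) (_ : ∀ x ∈ S, k x = 0)
    (_ : ∀ x ∈ S, ∀ y ∈ S, x ≠ y → 0 ≤ W x y),
    inn W S ≤ 2 * (2 * n + 1) * (s - ∑ x, k x) ∧
    ((∃ z, z ∉ S ∧ z ≠ i ∧ W i z ≠ 0) → inn W S ≤ 2 * (2 * n + 1) * (s - ∑ x, k x - 1)) ∧
    ((∃ x ∈ S, ∃ y ∈ S, W i x ≠ W i y) →
      inn W S + 2 * (2 * n) ≤ 2 * (2 * n + 1) * (s - ∑ x, k x)) := by
  induction n with
  | zero =>
    intro W k hw s hs S i hc hi hk h0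
    obtain ⟨j, l, hjl, rfl⟩ := Finset.card_eq_two.1 hc
    have hj : j ∈ ({j, l} : Finset V) := by simp
    have hl : l ∈ ({j, l} : Finset V) := by simp
    obtain ⟨W', k', hw', hs', hK, _, _, h4, h5⟩ := glue_pair hw hs hi hk h0 hj hl (Ne.symm hjl)
    have hin : inn W {j, l} = 2 * W j l := by
      unfold inn
      rw [Finset.sum_pair hjl, Finset.sum_pair hjl, Finset.sum_pair hjl, hw.diag, hw.diag,
        hk j hj, hk l hl, hw.symm l j]
      ring
    have h1 := K_le hw' hs'
    refine ⟨by rw [hin]; push_cast; linarith, ?_, ?_⟩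
    · rintro ⟨z, hz, hzi, hne⟩
      have hzj : z ≠ j := fun h => hz (by simp [h])
      have hzl : z ≠ l := fun h => hz (by simp [h])
      have h2 := K_lt hw' hs' hzi (by rw [h4 z hzj hzl]; exact hne)
      rw [hin]; push_cast; linarith
    · intro _
      rw [hin]; push_cast; linarith
  | succ n ih =>
    intro W k hw s hs S i hc hi hk h0
    have hcard : ∀ j ∈ S, ∀ l ∈ S, l ≠ j → ((S.erase j).erase l).card = 2 * (n + 1) := by
      intro j hj l hl hjl
      have h1 := Finset.card_erase_add_one hj
      have h2 := Finset.card_erase_add_one (mem_erase.2 ⟨hjl, hl⟩ : l ∈ S.erase j)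
      omega
    have hcZ : (S.card : ℤ) = 2 * (n : ℤ) + 4 := by rw [hc]; push_cast; ring
    -- the three statements after one glueing
    have hstep : ∀ j ∈ S, ∀ l ∈ S, l ≠ j →
        inn W ((S.erase j).erase l) ≤ 2 * (2 * n + 1) * (s - ∑ x, k x - W j l) ∧
        ((∃ z, z ∉ S ∧ z ≠ i ∧ W i z ≠ 0) →
          inn W ((S.erase j).erase l) ≤ 2 * (2 * n + 1) * (s - ∑ x, k x - W j l - 1)) ∧
        (W i j ≠ W i l →
          inn W ((S.erase j).erase l) ≤ 2 * (2 * n + 1) * (s - ∑ x, k x - W j l - 1)) ∧
        ((∃ x ∈ (S.erase j).erase l, ∃ y ∈ (S.erase j).erase l, W i x ≠ W i y) →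
          inn W ((S.erase j).erase l) + 2 * (2 * n) ≤
            2 * (2 * n + 1) * (s - ∑ x, k x - W j l)) := by
      intro j hj l hl hjl
      obtain ⟨W', k', hw', hs', hK, h2, h3, h4, h5⟩ := glue_pair hw hs hi hk h0 hj hl hjl
      have hsub : ∀ x ∈ (S.erase j).erase l, x ≠ j ∧ x ≠ l ∧ x ∈ S := fun x hx =>
        ⟨ne_of_mem_erase (mem_of_mem_erase hx), ne_of_mem_erase hx,
          mem_of_mem_erase (mem_of_mem_erase hx)⟩
      obtain ⟨g1, g2, g3⟩ := ih hw' hs' (hcard j hj l hl hjl)
        (fun h => hi (hsub i h).2.2) h2 (fun x hx y hy hxy => by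
          rw [h3 x hx y hy]; exact h0 x (hsub x hx).2.2 y (hsub y hy).2.2 hxy)
      rw [inn_congr h3, hK] at g1 g2 g3
      have e1 : s - (∑ x, k x + W j l) = s - ∑ x, k x - W j l := by ring
      rw [e1] at g1 g2 g3
      have hli : l ≠ i := fun h => hi (h ▸ hl)
      refine ⟨g1, ?_, ?_, ?_⟩
      · rintro ⟨z, hz, hzi, hne⟩
        have hzj : z ≠ j := fun h => hz (h ▸ hj)
        have hzl : z ≠ l := fun h => hz (h ▸ hl)
        exact g2 ⟨z, fun h => hz (hsub z h).2.2, hzi, by rw [h4 z hzj hzl]; exact hne⟩
      · intro hne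
        exact g2 ⟨l, fun h => (hsub l h).2.1 rfl, hli, by
          rw [h5]; intro h; exact hne (by linarith)⟩
      · rintro ⟨x, hx, y, hy, hne⟩
        exact g3 ⟨x, hx, y, hy, by
          rw [h4 x (hsub x hx).1 (hsub x hx).2.1, h4 y (hsub y hy).1 (hsub y hy).2.1]
          exact hne⟩
    have hSne : S.Nonempty := by
      rw [← Finset.card_pos, hc]; omega
    -- summing over the partners of `j` with the gain `b l`
    have hsum : ∀ j ∈ S, ∀ b : V → ℤ, (∀ l ∈ S.erase j, inn W ((S.erase j).erase l) + b l ≤
        2 * (2 * n + 1) * (s - ∑ x, k x - W j l)) →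
        (2 * (n : ℤ) + 1) * inn W S + ∑ l ∈ S.erase j, b l ≤
          (2 * n + 3) * (2 * (2 * n + 1) * (s - ∑ x, k x)) := by
      intro j hj b hb
      have h1 := Finset.sum_le_sum hb
      rw [Finset.sum_add_distrib, inn_del_sum hw hj hk, ← Finset.mul_sum,
        Finset.sum_sub_distrib, Finset.sum_const, nsmul_eq_mul] at h1
      have h2 : ((S.erase j).card : ℤ) = 2 * n + 3 := by
        have h3 := Finset.card_erase_add_one hj
        have h4 : ((S.erase j).card : ℤ) + 1 = S.card := by exact_mod_cast h3
        linarith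
      have h3 := Finset.add_sum_erase S (fun x => W j x) hj
      have h4 : W j j = 0 := by rw [hw.diag, hk j hj]; ring
      rw [h4] at h3
      have h5 : ∑ x ∈ S.erase j, W j x = ∑ x ∈ S, W j x := by linarith
      rw [h2, hcZ, h5] at h1
      have e1 : (2 * (n : ℤ) + 4 - 3) = 2 * n + 1 := by ring
      rw [e1] at h1
      linarith
    have hpos : (0 : ℤ) < 2 * n + 1 := by positivity
    push_cast
    refine ⟨?_, ?_, ?_⟩
    · obtain ⟨j, hj⟩ := hSne
      have h1 := hsum j hj (fun _ => 0) (fun l hl => by
        have := (hstep j hj l (mem_of_mem_erase hl) (ne_of_mem_erase hl)).1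
        linarith)
      rw [Finset.sum_const_zero, add_zero] at h1
      have h2 : (2 * (n : ℤ) + 1) * inn W S ≤
          (2 * n + 1) * (2 * (2 * (n + 1) + 1) * (s - ∑ x, k x)) := by linarith
      exact le_of_mul_le_mul_left h2 hpos
    · intro hz
      obtain ⟨j, hj⟩ := hSne
      have h1 := hsum j hj (fun _ => 2 * (2 * n + 1)) (fun l hl => by
        have := (hstep j hj l (mem_of_mem_erase hl) (ne_of_mem_erase hl)).2.1 hz
        linarith)
      have h2 : ((S.erase j).card : ℤ) = 2 * n + 3 := by
        have h3 := Finset.card_erase_add_one hj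
        have h4 : ((S.erase j).card : ℤ) + 1 = S.card := by exact_mod_cast h3
        linarith
      rw [Finset.sum_const, nsmul_eq_mul, h2] at h1
      have h3 : (2 * (n : ℤ) + 1) * inn W S ≤
          (2 * n + 1) * (2 * (2 * (n + 1) + 1) * (s - ∑ x, k x - 1)) := by linarith
      exact le_of_mul_le_mul_left h3 hpos
    · rintro ⟨x, hx, y, hy, hxy⟩
      -- an element `j` of a level set with at most half of the elements
      obtain ⟨j, hj, hlev⟩ : ∃ j ∈ S, 2 * (S.filter fun l => W i l = W i j).card ≤ S.card := by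
        by_contra hcon
        push Not at hcon
        have h1 := hcon x hx
        have h2 := hcon y hy
        have h3 : Disjoint (S.filter fun l => W i l = W i x) (S.filter fun l => W i l = W i y) := by
          rw [Finset.disjoint_left]
          intro a ha hb
          exact hxy ((mem_filter.1 ha).2.symm.trans (mem_filter.1 hb).2)
        have h4 := Finset.card_union_of_disjoint h3
        have h5 : ((S.filter fun l => W i l = W i x) ∪ (S.filter fun l => W i l = W i y)).card ≤
            S.card := Finset.card_le_card (union_subset (filter_subset _ _) (filter_subset _ _))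
        omega
      set L := (S.erase j).filter fun l => W i l = W i j with hL
      have hLcard : L.card + 1 = (S.filter fun l => W i l = W i j).card := by
        have h1 : S.filter (fun l => W i l = W i j) = insert j L := by
          ext a
          simp only [hL, mem_filter, mem_insert, mem_erase]
          constructor
          · rintro ⟨h2, h3⟩
            by_cases h4 : a = j
            · exact Or.inl h4
            · exact Or.inr ⟨⟨h4, h2⟩, h3⟩
          · rintro (h2 | ⟨⟨_, h2⟩, h3⟩)
            · rw [h2]; exact ⟨hj, rfl⟩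
            · exact ⟨h2, h3⟩
        rw [h1, Finset.card_insert_of_notMem (by simp [hL])]
      have hLn : (L.card : ℤ) ≤ n + 1 := by
        have : L.card ≤ n + 1 := by omega
        exact_mod_cast this
      -- the gains
      by_cases hL1 : L.card ≤ 1
      · have h1 := hsum j hj (fun l => if W i l = W i j then 0 else 2 * (2 * n + 1)) (fun l hl => by
          have hl1 := mem_of_mem_erase hl
          have hl2 := ne_of_mem_erase hl
          by_cases h : W i l = W i j
          · simp only [if_pos h, add_zero]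
            exact (hstep j hj l hl1 hl2).1
          · simp only [if_neg h]
            have := (hstep j hj l hl1 hl2).2.2.1 (Ne.symm h)
            linarith)
        have h2 : ∑ l ∈ S.erase j, (if W i l = W i j then (0 : ℤ) else 2 * (2 * n + 1)) =
            (((S.erase j).card : ℤ) - L.card) * (2 * (2 * n + 1)) := by
          have e1 : ∀ l ∈ S.erase j, (if W i l = W i j then (0 : ℤ) else 2 * (2 * n + 1)) =
              2 * (2 * (n : ℤ) + 1) - (if W i l = W i j then (2 * (2 * (n : ℤ) + 1)) else 0) := by
            intro l _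
            by_cases h : W i l = W i j
            · rw [if_pos h, if_pos h]; ring
            · rw [if_neg h, if_neg h]; ring
          rw [Finset.sum_congr rfl e1, Finset.sum_sub_distrib, Finset.sum_const,
            ← Finset.sum_filter, Finset.sum_const]
          simp only [nsmul_eq_mul]
          ring
        have h3 : ((S.erase j).card : ℤ) = 2 * n + 3 := by
          have h4 := Finset.card_erase_add_one hj
          have h5 : ((S.erase j).card : ℤ) + 1 = S.card := by exact_mod_cast h4
          linarith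
        rw [h2, h3] at h1
        have h4 : (L.card : ℤ) ≤ 1 := by exact_mod_cast hL1
        have h5 : (2 * (n : ℤ) + 2) * (2 * (2 * n + 1)) ≤
            (2 * n + 3 - L.card) * (2 * (2 * n + 1)) :=
          mul_le_mul_of_nonneg_right (by linarith) (by positivity)
        have h6 : (2 * (n : ℤ) + 1) * (inn W S + 2 * (2 * (n + 1))) ≤
            (2 * n + 1) * (2 * (2 * (n + 1) + 1) * (s - ∑ x, k x)) := by linarith
        exact le_of_mul_le_mul_left h6 hpos
      · have hL2 : 2 ≤ L.card := by omega
        -- an element off the level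
        obtain ⟨y', hy', hy'j⟩ : ∃ y' ∈ S, W i y' ≠ W i j := by
          by_cases h : W i x = W i j
          · exact ⟨y, hy, fun h2 => hxy (h.trans h2.symm)⟩
          · exact ⟨x, hx, h⟩
        have h1 := hsum j hj (fun l => if W i l = W i j then 2 * (2 * n) else 2 * (2 * n + 1))
          (fun l hl => by
            have hl1 := mem_of_mem_erase hl
            have hl2 := ne_of_mem_erase hl
            by_cases h : W i l = W i j
            · simp only [if_pos h]
              refine (hstep j hj l hl1 hl2).2.2.2 ?_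
              obtain ⟨l', hl', hl'2⟩ : ∃ l' ∈ L, l' ≠ l := by
                by_contra hcon
                push Not at hcon
                have : L ⊆ {l} := fun a ha => mem_singleton.2 (hcon a ha)
                have := Finset.card_le_card this
                simp at this
                omega
              obtain ⟨h3, h4⟩ := mem_filter.1 hl'
              refine ⟨l', mem_erase.2 ⟨hl'2, h3⟩, y', mem_erase.2 ⟨?_, mem_erase.2 ⟨?_, hy'⟩⟩, ?_⟩
              · intro h5; exact hy'j (h5 ▸ h)
              · intro h5; exact hy'j (by rw [h5])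
              · intro h5; exact hy'j (h5 ▸ h4)
            · simp only [if_neg h]
              have := (hstep j hj l hl1 hl2).2.2.1 (Ne.symm h)
              linarith)
        have h2 : ∑ l ∈ S.erase j, (if W i l = W i j then (2 * (2 * n) : ℤ) else 2 * (2 * n + 1)) =
            ((S.erase j).card : ℤ) * (2 * (2 * n + 1)) - 2 * L.card := by
          have e1 : ∀ l ∈ S.erase j, (if W i l = W i j then (2 * (2 * n) : ℤ)
              else 2 * (2 * n + 1)) = 2 * (2 * (n : ℤ) + 1) - (if W i l = W i j then (2 : ℤ) else 0) := by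
            intro l _
            by_cases h : W i l = W i j
            · rw [if_pos h, if_pos h]; ring
            · rw [if_neg h, if_neg h]; ring
          rw [Finset.sum_congr rfl e1, Finset.sum_sub_distrib, Finset.sum_const,
            ← Finset.sum_filter, Finset.sum_const]
          simp only [nsmul_eq_mul]
          ring
        have h3 : ((S.erase j).card : ℤ) = 2 * n + 3 := by
          have h4 := Finset.card_erase_add_one hj
          have h5 : ((S.erase j).card : ℤ) + 1 = S.card := by exact_mod_cast h4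
          linarith
        rw [h2, h3] at h1
        have h6 : (2 * (n : ℤ) + 1) * (inn W S + 2 * (2 * (n + 1))) ≤
            (2 * n + 1) * (2 * (2 * (n + 1) + 1) * (s - ∑ x, k x)) := by
          have hn : (0 : ℤ) ≤ n := Int.natCast_nonneg n
          linarith
        exact le_of_mul_le_mul_left h6 hpos

end Pool.Agent.QFO
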