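import Pool.Agent.QFO.NotA5
import Pool.Agent.QFO.MainAsm

/-!
# [QFO-NA] the alternative not (A)
-/

set_option autoImplicit false
set_option linter.unusedSectionVars false

namespace Pool.Agent.QFO

open Finset Pool.Agent.MP_710317_co.Rec Pool.Agent.MXC Pool.Agent.QMA

/-- [QFO-NA] the alternative not (A) -/
theorem altB : AltB := by
  intro V _ _ W k N f h hc s hs S J hS hJ hlt hnA
  classical
  have hK : 0 ≤ ∑ i, k i := Finset.sum_nonneg fun i _ => h.knn i
  have hdis : Disjoint S J := by
    rw [Finset.disjoint_left]
    intro a ha hb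
    have h1 := ((hS a).1 ha).2
    have h2 := ((hJ a).1 hb).2
    omega
  have hcardU : (S ∪ J).card = S.card + J.card := Finset.card_union_of_disjoint hdis
  -- the full vertices
  choose fv hcol hfull using full_vertex h hc
  have hsg : ∀ i ∈ S, cls f i = {fv i} := by
    intro i hi
    obtain ⟨x, hx⟩ := Finset.card_eq_one.1 ((hS i).1 hi).2
    have : fv i ∈ cls f i := mem_cls.2 (hcol i)
    rw [hx, mem_singleton] at this
    rw [hx, this]
  have v : FV W f fv S := ⟨hcol, hfull, hsg⟩
  have hkU : ∀ a ∈ S ∪ J, ∀ x, f x = a → k x = 0 := by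
    intro a ha
    rcases mem_union.1 ha with ha | ha
    · exact ((hS a).1 ha).1
    · exact ((hJ a).1 ha).1
  have hWle : ∀ a ∈ S ∪ J, ∀ b ∈ S ∪ J, ∀ x y, f x = a → f y = b → a ≠ b → W x y ≤ 1 := by
    intro a ha b hb x y hx hy hab
    have hxy : x ≠ y := by
      rintro rfl
      exact hab (hx.symm.trans hy)
    have := h.le x y hxy
    rw [hkU a ha x hx, hkU b hb y hy] at this
    linarith
  -- the matrix of the classes
  set σ : ℤ := s - ∑ i, k i with hσ
  have md : MD (OP W f) σ S J := by
    refine ⟨OP_sym h hc, OP_Sb h hc hs, fun a b hab => OP_one h hc hab, hdis, ?_, ?_, ?_, ?_⟩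
    · rw [hcardU] at hlt
      push_cast at hlt
      exact hlt
    · intro a ha b hb hab
      refine le_antisymm ?_ (OP_one h hc hab)
      rw [OP_ne hab, v.row ha, v.sg b hb, Finset.sum_singleton]
      exact hWle a (mem_union_left _ ha) b (mem_union_left _ hb) _ _ (hcol a) (hcol b) hab
    · intro a ha b hb hab
      rw [OP_ne hab]
      rcases le_total (cls f a).card (cls f b).card with hle | hle
      · have h1 := card_le_push h hc hab hle
        have h2 := ((hJ a).1 ha).2
        omega
      · have h1 := card_le_push h hc (Ne.symm hab) hle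
        rw [push_symm h.symm f b a] at h1
        have h2 := ((hJ b).1 hb).2
        omega
    · intro F hF hFc i hi i' hi' hii h1 h2
      refine hnA F hF (by rw [hcardU]; exact hFc) i hi i' hi' hii ?_ ?_
      · intro l hl hlF
        have hil : i ≠ l := fun h' => (Finset.disjoint_left.1 hdis) hi (h' ▸ hl)
        have := h1 l hl hlF
        rwa [OP_ne hil] at this
      · intro l hl hlF
        have hil : i' ≠ l := fun h' => (Finset.disjoint_left.1 hdis) hi' (h' ▸ hl)
        have := h2 l hl hlF
        rwa [OP_ne hil] at this
  have hcardN : Fintype.card (Fin N) = N := Fintype.card_fin N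
  have hk0 : Fintype.card (Fin N) = S.card + J.card → ∀ i, k i = 0 := by
    intro h1 i
    have h2 : S ∪ J = univ := by
      rw [← Finset.card_eq_iff_eq_univ, hcardU, h1]
    exact hkU (f i) (by rw [h2]; exact mem_univ _) i rfl
  -- the two cases
  by_cases hone : ∀ i ∈ S, ∃ l ∈ J, 2 ≤ OP W f i l
  · obtain ⟨t1, t2, t3, t4⟩ := md.T1 hone
    have hk := hk0 t1
    have hK0 : ∑ i, k i = 0 := Finset.sum_eq_zero fun i _ => hk i
    right; left
    refine ⟨hK0, ?_, ?_, t4⟩
    · rw [hcardN] at t3
      rw [hσ, hK0] at t3
      linarith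
    · rw [← hcardN, t1]
      exact t2
  · push Not at hone
    obtain ⟨j₀, hj₀, hz⟩ := hone
    have hz1 : ∀ l ∈ J, OP W f j₀ l ≤ 1 := fun l hl => by
      have := hz l hl
      omega
    by_cases hall : ∀ a ∈ S ∪ J, ∀ b ∈ S ∪ J, a ≠ b → W (fv a) (fv b) = 1
    · -- the clique
      left
      refine ⟨(S ∪ J).image fv, ?_, ?_, ?_, ?_⟩
      · exact Finset.card_image_of_injective _ (fun a b hab => by
          rw [← hcol a, ← hcol b, hab])
      · intro x hx
        obtain ⟨a, ha, rfl⟩ := mem_image.1 hx
        exact hkU a ha _ (hcol a)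
      · intro x hx y hy hxy
        obtain ⟨a, ha, rfl⟩ := mem_image.1 hx
        obtain ⟨b, hb, rfl⟩ := mem_image.1 hy
        exact hall a ha b hb (fun h' => hxy (by rw [h']))
      · intro x hx b hb
        obtain ⟨a, ha, rfl⟩ := mem_image.1 hx
        rw [hcol] at hb
        exact hfull a b hb
    · -- a lost pair
      push Not at hall
      obtain ⟨a, haU, b, hbU, hab, hW1⟩ := hall
      have hle := hWle a haU b hbU _ _ (hcol a) (hcol b) hab
      have hne : fv a ≠ fv b := fun h' => hab (by rw [← hcol a, ← hcol b, h'])
      have hpq : W (fv a) (fv b) = 0 := by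
        have := h.nn _ _ hne
        omega
      have haS : a ∉ S := by
        intro ha
        have := v.adj' h ha hab
        omega
      have hbS : b ∉ S := by
        intro hb
        have := v.adj hb (Ne.symm hab)
        omega
      have ha : a ∈ J := (mem_union.1 haU).resolve_left haS
      have hb : b ∈ J := (mem_union.1 hbU).resolve_left hbS
      have haj : a ≠ j₀ := fun h' => haS (h' ▸ hj₀)
      have hbj : b ≠ j₀ := fun h' => hbS (h' ▸ hj₀)
      have hpa : push W f j₀ a ≤ 1 := by
        have := hz1 a ha
        rwa [OP_ne (Ne.symm haj)] at this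
      have hpb : push W f j₀ b ≤ 1 := by
        have := hz1 b hb
        rwa [OP_ne (Ne.symm hbj)] at this
      have hA : ∀ i ∈ S, i ≠ j₀ → 2 ≤ OP W f i a ∧ 2 ≤ OP W f i b := by
        intro i hi hij
        have hia : i ≠ a := fun h' => haS (h' ▸ hi)
        have hib : i ≠ b := fun h' => hbS (h' ▸ hi)
        constructor
        · by_contra hcon
          have h1 : push W f i a ≤ 1 := by
            rw [← OP_ne (W := W) (f := f) hia]
            omega
          have := v.exch h hc hab hi hj₀ hij hia hib (Ne.symm haj) (Ne.symm hbj) h1 hpb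
          omega
        · by_contra hcon
          have h1 : push W f i b ≤ 1 := by
            rw [← OP_ne (W := W) (f := f) hib]
            omega
          have := v.exch h hc hab hj₀ hi (Ne.symm hij) (Ne.symm haj) (Ne.symm hbj) hia hib hpa h1
          omega
      -- the Kempe argument
      have hza : ∀ y, f y = a → y ≠ fv a → W (fv j₀) y = 0 := by
        have := only_nb (f := f) h (x := fv j₀) (q := fv a) (by rw [v.col, v.col]; exact haj)
          (v.adj' h hj₀ (Ne.symm haj)) (by rw [v.col, ← v.row hj₀]; exact hpa)
        rw [v.col] at this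
        exact this
      have hzb : ∀ y, f y = b → y ≠ fv b → W (fv j₀) y = 0 := by
        have := only_nb (f := f) h (x := fv j₀) (q := fv b) (by rw [v.col, v.col]; exact hbj)
          (v.adj' h hj₀ (Ne.symm hbj)) (by rw [v.col, ← v.row hj₀]; exact hpb)
        rw [v.col] at this
        exact this
      obtain ⟨p, q, hp1, hp2, hq1, hq2, hWpq⟩ := kempe h hc hab haj hbj (v.sg j₀ hj₀) (hcol a)
        (hcol b) hpq hza hzb
      have hlost := lost_weight h hab (hcol a) (hcol b) hpq hp1 hp2 hq1 hq2 hWpq
      have hrow1 : 1 ≤ ∑ y ∈ cls f b, W (fv a) y := by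
        obtain ⟨u, hu, hWu⟩ := hfull a b (Ne.symm hab)
        have := Finset.single_le_sum (f := fun y => W (fv a) y) (s := cls f b) (fun y hy =>
          h.nn _ _ (by
            rintro rfl
            exact hab ((hcol a).symm.trans (mem_cls.1 hy)))) (mem_cls.2 hu)
        linarith
      have hrow2 : 1 ≤ ∑ y ∈ cls f a, W (fv b) y := by
        obtain ⟨u, hu, hWu⟩ := hfull b a hab
        have := Finset.single_le_sum (f := fun y => W (fv b) y) (s := cls f a) (fun y hy =>
          h.nn _ _ (by
            rintro rfl
            exact hab ((mem_cls.1 hy).symm.trans (hcol b)))) (mem_cls.2 hu)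
        linarith
      have h3 : 3 ≤ OP W f a b := by
        rw [OP_ne hab]
        linarith
      rcases Nat.mod_two_eq_zero_or_one (S.card + J.card) with he | ho
      · exact absurd (md.T2_even he hj₀ hz1 ha hb hab hA h3) not_false
      · obtain ⟨τ, g1, g2, g3, g4, g5, g6⟩ := md.T2_odd ho hj₀ hz1
        have hk := hk0 g4
        have hK0 : ∑ i, k i = 0 := Finset.sum_eq_zero fun i _ => hk i
        have hsN : s = (N : ℤ) - 1 := by
          rw [hcardN, hσ, hK0] at g5
          linarith
        rcases md.T3 hj₀ g1 g2 g3 g4 g5 g6 ha hb hab h3 with h5 | ⟨e1, e2, e3, e4, g, e5, e6, e7,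
          e8, e9, e10⟩
        · right; right
          rw [hcardN] at h5
          refine ⟨hK0, h5, ?_⟩
          rw [hsN, h5]
          norm_num
        · exfalso
          rw [OP_ne hab] at e1
          have hgd : ∀ c, gd (OP W f) S j₀ c → c ∈ S ∨
              (c ∉ S ∧ ∃ i ∈ S, i ≠ j₀ ∧ push W f i c ≤ 1) := by
            intro c hgc
            by_cases hcS : c ∈ S
            · exact Or.inl hcS
            · rcases hgc with h' | ⟨i, hi, hij, hic⟩
              · exact absurd h' hcS
              · right
                have hne' : i ≠ c := fun h' => hcS (h' ▸ hi)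
                rw [OP_ne hne'] at hic
                exact ⟨hcS, i, hi, hij, hic⟩
          have hnfx : ((nfx τ).card : ℤ) = σ := by
            have hx : nfx τ = univ.erase j₀ := by
              ext x
              rw [nfx, mem_filter, mem_erase]
              constructor
              · rintro ⟨_, hx⟩
                exact ⟨fun h' => hx (by rw [h', g2]), mem_univ _⟩
              · rintro ⟨hx, _⟩
                exact ⟨mem_univ _, g3 x hx⟩
            rw [hx, Finset.card_erase_of_mem (mem_univ _), Finset.card_univ, g5]
            have : 1 ≤ Fintype.card (Fin N) := Fintype.card_pos_iff.2 ⟨j₀⟩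
            omega
          have h2 : ∀ x, τ x ≠ x → push W f x (τ x) = 2 := by
            intro x hx
            have := exact_two md.sym g1 hnfx g6 x hx
            rwa [OP_ne (Ne.symm hx)] at this
          refine pent_kill h hc hs hk v hj₀ haS hbS hab hpa hpb hpq (by linarith) (by linarith)
            g1.inv g2 g3 e2 e6 e7 e8 e9 e10 ?_ h2 hsN
          rintro c (rfl | rfl | rfl)
          · exact hgd _ e3
          · exact hgd _ e4
          · exact hgd _ e5

end Pool.Agent.QFO
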