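import Pool.Agent.QFO.Mat
import Mathlib.Combinatorics.Hall.Basic

/-!
# [QFO-NA1] matchings with weights at least two: the abstract part of `not (A)`
-/

set_option autoImplicit false
set_option linter.unusedSectionVars false

namespace Pool.Agent.QFO

open Finset Pool.Agent.MP_710317_co.Rec Pool.Agent.MXC

variable {ι : Type*} [Fintype ι] [DecidableEq ι]

theorem nfx_even {τ : ι → ι} (hτ : ∀ x, τ (τ x) = x) : Even (nfx τ).card := by
  have h := Finset.sum_involution (s := nfx τ) (f := fun _ => (1 : ZMod 2)) (fun a _ => τ a)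
    (fun a _ => by decide) (fun a ha _ => (mem_filter.1 ha).2)
    (fun a ha => mem_filter.2 ⟨mem_univ _, fun h' => (mem_filter.1 ha).2 (by rw [← h', hτ])⟩)
    (fun a _ => hτ a)
  rw [Finset.sum_const, nsmul_eq_mul, mul_one] at h
  exact (ZMod.natCast_eq_zero_iff_even).1 h

theorem nfx_card_fix (τ : ι → ι) :
    (univ.filter fun x => τ x = x).card + (nfx τ).card = Fintype.card ι := by
  unfold nfx
  rw [Finset.card_filter_add_card_filter_not, Finset.card_univ]

/-- the weight of a matching -/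
theorem inv_bound {w : ι → ι → ℤ} (hw : Sym w) (h1 : ∀ a b, a ≠ b → 1 ≤ w a b) {σ : ℤ}
    (hs : Sb w σ) {τ : ι → ι} (hτ : ∀ x, τ (τ x) = x) :
    ∑ x, w x (τ x) + 2 * ((Fintype.card ι / 2 : ℕ) : ℤ) - (nfx τ).card ≤ 2 * σ := by
  classical
  obtain ⟨τ', hτ', hext, hc⟩ := near_ext τ hτ
  set F : Finset ι := univ.filter fun x => τ' x = x with hF
  have hFc : F.card ≤ 1 := by
    have := nfx_card_fix τ'
    rw [← hF] at this
    omega
  have hb := rel_bound hw hs hτ' (F := F) (fun x hx => by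
    have hx' : τ' x ≠ x := fun h => hx (mem_filter.2 ⟨mem_univ _, h⟩)
    exact ⟨fun h => hx' (by
      have := (mem_filter.1 h).2
      rw [hτ'] at this
      exact this.symm), hx'⟩) (e₀ := fun _ => 1) (fun _ => Or.inl rfl)
  have hq : qs w F (fun _ => 1) = 0 := by
    unfold qs
    rcases Nat.lt_or_ge F.card 1 with h0 | h0
    · have : F = ∅ := Finset.card_eq_zero.1 (by omega)
      rw [this]; simp
    · obtain ⟨z, hz⟩ := Finset.card_eq_one.1 (by omega : F.card = 1)
      rw [hz, Finset.sum_singleton, Finset.sum_singleton, hw.diag]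
      ring
  have hsum : ∑ x ∈ Fᶜ, w x (τ' x) = ∑ x, w x (τ' x) := by
    rw [← Finset.sum_add_sum_compl F (fun x => w x (τ' x))]
    have : ∑ x ∈ F, w x (τ' x) = 0 := Finset.sum_eq_zero fun x hx => by
      rw [(mem_filter.1 hx).2, hw.diag]
    rw [this, zero_add]
  rw [hq, hsum, sub_zero] at hb
  -- comparison
  have hsub : nfx τ ⊆ nfx τ' := fun x hx => by
    have hx' := (mem_filter.1 hx).2
    refine mem_filter.2 ⟨mem_univ _, ?_⟩
    rw [hext x hx']
    exact hx'
  have e1 : ∀ ρ : ι → ι, ∑ x, w x (ρ x) = ∑ x ∈ nfx ρ, w x (ρ x) := by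
    intro ρ
    refine (Finset.sum_subset (subset_univ _) fun x _ hx => ?_).symm
    have : ρ x = x := by
      by_contra h
      exact hx (mem_filter.2 ⟨mem_univ _, h⟩)
    rw [this, hw.diag]
  have e2 : ∑ x ∈ nfx τ' \ nfx τ, w x (τ' x) + ∑ x ∈ nfx τ, w x (τ' x) =
      ∑ x ∈ nfx τ', w x (τ' x) := Finset.sum_sdiff hsub
  have e3 : ∑ x ∈ nfx τ, w x (τ' x) = ∑ x ∈ nfx τ, w x (τ x) :=
    Finset.sum_congr rfl fun x hx => by rw [hext x (mem_filter.1 hx).2]
  have e4 : ((nfx τ' \ nfx τ).card : ℤ) ≤ ∑ x ∈ nfx τ' \ nfx τ, w x (τ' x) := by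
    calc ((nfx τ' \ nfx τ).card : ℤ) = ∑ x ∈ nfx τ' \ nfx τ, (1 : ℤ) := by simp
      _ ≤ _ := Finset.sum_le_sum fun x hx =>
          h1 x (τ' x) (Ne.symm (mem_filter.1 (mem_sdiff.1 hx).1).2)
  have e5 : (nfx τ' \ nfx τ).card + (nfx τ).card = (nfx τ').card :=
    Finset.card_sdiff_add_card_eq_card hsub
  have e6 : ((nfx τ' \ nfx τ).card : ℤ) + (nfx τ).card = 2 * ((Fintype.card ι / 2 : ℕ) : ℤ) := by
    rw [hc] at e5
    exact_mod_cast e5
  rw [e1 τ', ← e2, e3, ← e1 τ] at hb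
  linarith

/-- the left-over element -/
theorem odd_bound {w : ι → ι → ℤ} (hw : Sym w) {σ : ℤ} (hs : Sb w σ) {τ : ι → ι}
    (hτ : ∀ x, τ (τ x) = x) {z : ι} (hz : τ z = z) (hfp : ∀ x, x ≠ z → τ x ≠ x) {i : ι}
    (hi : i ≠ z) : ∑ x, w x (τ x) + 2 * |w z i - w z (τ i)| ≤ 2 * σ := by
  classical
  have hτi : τ i ≠ i := hfp i hi
  have hτiz : τ i ≠ z := fun h => hi (by rw [← hτ i, h, hz])
  obtain ⟨t, ht, htc⟩ : ∃ t : ℤ, (t = 1 ∨ t = -1) ∧
      t * (w z i - w z (τ i)) = - |w z i - w z (τ i)| := by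
    rcases abs_cases (w z i - w z (τ i)) with ⟨h, _⟩ | ⟨h, _⟩
    · exact ⟨-1, Or.inr rfl, by rw [h]; ring⟩
    · exact ⟨1, Or.inl rfl, by rw [h]; ring⟩
  set F : Finset ι := {z, i, τ i} with hF
  set e₀ : ι → ℤ := fun x => if x = z then t else if x = i then 1 else -1 with he₀
  have hb := rel_bound hw hs hτ (F := F) (fun x hx => by
    simp only [hF, mem_insert, mem_singleton, not_or] at hx
    obtain ⟨h1, h2, h3⟩ := hx
    refine ⟨?_, hfp x h1⟩
    simp only [hF, mem_insert, mem_singleton, not_or]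
    exact ⟨fun h => h1 (by rw [← hτ x, h, hz]), fun h => h3 (by rw [← h, hτ]), fun h => h2 (by
      rw [← hτ x, h, hτ])⟩) (e₀ := e₀) (fun x => by
    simp only [he₀]
    split
    · exact ht
    · split
      · exact Or.inl rfl
      · exact Or.inr rfl)
  have n1 : z ∉ ({i, τ i} : Finset ι) := by
    simp only [mem_insert, mem_singleton, not_or]
    exact ⟨Ne.symm hi, Ne.symm hτiz⟩
  have n2 : i ∉ ({τ i} : Finset ι) := by
    rw [mem_singleton]; exact Ne.symm hτi
  have v1 : e₀ z = t := by simp only [he₀]; rw [if_pos trivial]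
  have v2 : e₀ i = 1 := by simp only [he₀]; rw [if_neg hi, if_pos trivial]
  have v3 : e₀ (τ i) = -1 := by simp only [he₀]; rw [if_neg hτiz, if_neg hτi]
  have hq : qs w F e₀ = 2 * (t * (w z i - w z (τ i))) - 2 * w i (τ i) := by
    rw [hF, qs_insert hw e₀ n1, qs_insert hw e₀ n2, Finset.sum_pair (Ne.symm hτi),
      Finset.sum_singleton, v1, v2, v3]
    unfold qs
    rw [Finset.sum_singleton, Finset.sum_singleton, hw.diag]
    ring
  have hsum : ∑ x ∈ Fᶜ, w x (τ x) = ∑ x, w x (τ x) - 2 * w i (τ i) := by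
    rw [← Finset.sum_add_sum_compl F (fun x => w x (τ x)), hF, Finset.sum_insert n1,
      Finset.sum_insert n2, Finset.sum_singleton, hz, hw.diag, hτ, hw.symm (τ i) i]
    ring
  rw [hq, hsum, htc] at hb
  linarith

/-- a matching with all weights at least `2` -/
structure GM (w : ι → ι → ℤ) (τ : ι → ι) : Prop where
  inv : ∀ x, τ (τ x) = x
  two : ∀ x, τ x ≠ x → 2 ≤ w x (τ x)

theorem GM.sum {w : ι → ι → ℤ} (hw : Sym w) {τ : ι → ι} (h : GM w τ) :
    2 * ((nfx τ).card : ℤ) ≤ ∑ x, w x (τ x) := by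
  have h1 : ∀ x, (if τ x ≠ x then (2 : ℤ) else 0) ≤ w x (τ x) := by
    intro x
    by_cases hx : τ x = x
    · rw [if_neg (not_not.2 hx), hx, hw.diag]
    · rw [if_pos hx]; exact h.two x hx
  have h2 := Finset.sum_le_sum fun x (_ : x ∈ (univ : Finset ι)) => h1 x
  have h3 : ∑ x, (if τ x ≠ x then (2 : ℤ) else 0) = 2 * ((nfx τ).card : ℤ) := by
    rw [← Finset.sum_filter]
    unfold nfx
    rw [Finset.sum_const, nsmul_eq_mul]
    ring
  rw [h3] at h2
  exact h2

/-- add the pair `a`, `b` -/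
def addp (τ : ι → ι) (a b x : ι) : ι := if x = a then b else if x = b then a else τ x

section addp

variable {τ : ι → ι} {a b : ι}

theorem addp_a : addp τ a b a = b := by unfold addp; rw [if_pos rfl]

theorem addp_b (hab : a ≠ b) : addp τ a b b = a := by
  unfold addp; rw [if_neg (Ne.symm hab), if_pos rfl]

theorem addp_o {x : ι} (h1 : x ≠ a) (h2 : x ≠ b) : addp τ a b x = τ x := by
  unfold addp; rw [if_neg h1, if_neg h2]

theorem addp_inv (hτ : ∀ x, τ (τ x) = x) (ha : τ a = a) (hb : τ b = b) (hab : a ≠ b) (x : ι) :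
    addp τ a b (addp τ a b x) = x := by
  by_cases h1 : x = a
  · rw [h1, addp_a, addp_b hab]
  · by_cases h2 : x = b
    · rw [h2, addp_b hab, addp_a]
    · rw [addp_o h1 h2, addp_o (fun h => h1 (by rw [← hτ x, h, ha]))
        (fun h => h2 (by rw [← hτ x, h, hb])), hτ]

theorem addp_nfx (ha : τ a = a) (hb : τ b = b) (hab : a ≠ b) :
    nfx (addp τ a b) = insert a (insert b (nfx τ)) := by
  ext x
  unfold nfx
  simp only [mem_filter, mem_univ, true_and, mem_insert]
  by_cases h1 : x = a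
  · rw [h1, addp_a]
    simp [Ne.symm hab]
  · by_cases h2 : x = b
    · rw [h2, addp_b hab]
      simp [hab]
    · rw [addp_o h1 h2]
      simp [h1, h2]

theorem addp_nfx_card (ha : τ a = a) (hb : τ b = b) (hab : a ≠ b) :
    (nfx (addp τ a b)).card = (nfx τ).card + 2 := by
  have h1 : b ∉ nfx τ := by unfold nfx; simp [hb]
  have h2 : a ∉ insert b (nfx τ) := by
    rw [mem_insert, not_or]
    refine ⟨hab, ?_⟩
    unfold nfx; simp [ha]
  rw [addp_nfx ha hb hab, Finset.card_insert_of_notMem h2, Finset.card_insert_of_notMem h1]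

theorem addp_sum {w : ι → ι → ℤ} (hw : Sym w) (ha : τ a = a) (hb : τ b = b) (hab : a ≠ b) :
    ∑ x, w x (addp τ a b x) = ∑ x, w x (τ x) + 2 * w a b := by
  have h1 : ∀ x, w x (addp τ a b x) = w x (τ x) + ((if x = a then w a b else 0) +
      (if x = b then w a b else 0)) := by
    intro x
    by_cases h1 : x = a
    · rw [h1, addp_a, ha, hw.diag, if_pos rfl, if_neg hab]; ring
    · by_cases h2 : x = b
      · rw [h2, addp_b hab, hb, hw.diag, if_neg (Ne.symm hab), if_pos rfl, hw.symm b a]; ring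
      · rw [addp_o h1 h2, if_neg h1, if_neg h2]; ring
  rw [Finset.sum_congr rfl fun x _ => h1 x, Finset.sum_add_distrib, Finset.sum_add_distrib,
    Finset.sum_ite_eq', Finset.sum_ite_eq']
  simp only [mem_univ, if_true]
  ring

theorem GM.add {w : ι → ι → ℤ} (hw : Sym w) (h : GM w τ) (ha : τ a = a) (hb : τ b = b)
    (hab : a ≠ b) (h2 : 2 ≤ w a b) : GM w (addp τ a b) := by
  refine ⟨addp_inv h.inv ha hb hab, fun x hx => ?_⟩
  by_cases h3 : x = a
  · rw [h3, addp_a]; exact h2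
  · by_cases h4 : x = b
    · rw [h4, addp_b hab, hw.symm]; exact h2
    · rw [addp_o h3 h4] at hx ⊢
      exact h.two x hx

end addp

/-- extension of a good matching inside a set with all weights at least `2` -/
theorem ext_in {w : ι → ι → ℤ} (hw : Sym w) (X : Finset ι)
    (hX : ∀ a ∈ X, ∀ b ∈ X, a ≠ b → 2 ≤ w a b) (n : ℕ) : ∀ {τ : ι → ι}, GM w τ →
    (X.filter fun x => τ x = x).card = n →
    ∃ τ', GM w τ' ∧ (∀ x, τ x ≠ x → τ' x = τ x) ∧ (∀ x, x ∉ X → τ' x = τ x) ∧
      (X.filter fun x => τ' x = x).card ≤ 1 := by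
  induction n using Nat.strong_induction_on with
  | _ n ih =>
    intro τ h hn
    by_cases hle : n ≤ 1
    · exact ⟨τ, h, fun _ _ => rfl, fun _ _ => rfl, by omega⟩
    · obtain ⟨a, ha, b, hb, hab⟩ := Finset.one_lt_card.1 (by omega : 1 < (X.filter fun x => τ x = x).card)
      obtain ⟨haX, ha1⟩ := mem_filter.1 ha
      obtain ⟨hbX, hb1⟩ := mem_filter.1 hb
      have h' := h.add hw ha1 hb1 hab (hX a haX b hbX hab)
      have hlt : (X.filter fun x => addp τ a b x = x).card < n := by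
        rw [← hn]
        refine Finset.card_lt_card (Finset.ssubset_iff_of_subset ?_ |>.2 ⟨a, ha, ?_⟩)
        · intro x hx
          obtain ⟨h1, h2⟩ := mem_filter.1 hx
          have h3 : x ≠ a := by rintro rfl; rw [addp_a] at h2; exact hab h2.symm
          have h4 : x ≠ b := by rintro rfl; rw [addp_b hab] at h2; exact hab h2
          rw [addp_o h3 h4] at h2
          exact mem_filter.2 ⟨h1, h2⟩
        · intro hcon
          have := (mem_filter.1 hcon).2
          rw [addp_a] at this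
          exact hab this.symm
      obtain ⟨τ', g1, g2, g3, g4⟩ := ih _ hlt h' rfl
      refine ⟨τ', g1, fun x hx => ?_, fun x hx => ?_, g4⟩
      · have h3 : x ≠ a := by rintro rfl; exact hx ha1
        have h4 : x ≠ b := by rintro rfl; exact hx hb1
        have h5 := g2 x (by rw [addp_o h3 h4]; exact hx)
        rw [h5, addp_o h3 h4]
      · have h3 : x ≠ a := by rintro rfl; exact hx haX
        have h4 : x ≠ b := by rintro rfl; exact hx hbX
        rw [g3 x hx, addp_o h3 h4]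

/-- the matching given by Hall's theorem -/
theorem hall_in {w : ι → ι → ℤ} (hw : Sym w) {A J : Finset ι} (hd : Disjoint A J)
    (hH : ∀ B ⊆ A, B.card ≤ (J.filter fun l => ∃ i ∈ B, 2 ≤ w i l).card) :
    ∃ τ : ι → ι, GM w τ ∧ (∀ a ∈ A, τ a ∈ J) ∧ (∀ x, x ∉ A → x ∉ J → τ x = x) := by
  classical
  let t : {x // x ∈ A} → Finset ι := fun i => J.filter fun l => 2 ≤ w i l
  obtain ⟨μ, hμi, hμ⟩ := (Finset.all_card_le_biUnion_card_iff_exists_injective t).1 (by
    intro B
    have h1 := hH (B.map ⟨Subtype.val, Subtype.val_injective⟩) (by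
      intro x hx
      obtain ⟨y, _, hy⟩ := Finset.mem_map.1 hx
      rw [← hy]
      exact y.2)
    rw [Finset.card_map] at h1
    refine h1.trans (Finset.card_le_card ?_)
    intro l hl
    obtain ⟨h2, i, hi, h3⟩ := mem_filter.1 hl
    obtain ⟨y, hy, hy2⟩ := Finset.mem_map.1 hi
    rw [Finset.mem_biUnion]
    refine ⟨y, hy, mem_filter.2 ⟨h2, ?_⟩⟩
    have : (y : ι) = i := hy2
    rw [this]
    exact h3)
  have hμJ : ∀ a, μ a ∈ J := fun a => (mem_filter.1 (hμ a)).1
  have hμ2 : ∀ a : {x // x ∈ A}, 2 ≤ w a (μ a) := fun a => (mem_filter.1 (hμ a)).2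
  have hJA : ∀ x ∈ J, x ∉ A := fun x hx hx2 => (Finset.disjoint_left.1 hd) hx2 hx
  set τ : ι → ι := fun x => if hx : x ∈ A then μ ⟨x, hx⟩ else
    if h : ∃ a, μ a = x then (h.choose : ι) else x with hτ
  have t1 : ∀ x (hx : x ∈ A), τ x = μ ⟨x, hx⟩ := fun x hx => by
    simp only [hτ]; rw [dif_pos hx]
  have t2 : ∀ a, τ (μ a) = a := fun a => by
    have hn : μ a ∉ A := hJA _ (hμJ a)
    have hex : ∃ b, μ b = μ a := ⟨a, rfl⟩
    simp only [hτ]
    rw [dif_neg hn, dif_pos hex]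
    exact congrArg Subtype.val (hμi hex.choose_spec)
  have t3 : ∀ x, x ∉ A → (¬ ∃ a, μ a = x) → τ x = x := fun x hx h => by
    simp only [hτ]; rw [dif_neg hx, dif_neg h]
  refine ⟨τ, ⟨fun x => ?_, fun x hx => ?_⟩, fun a ha => by rw [t1 a ha]; exact hμJ _,
    fun x h1 h2 => t3 x h1 fun ⟨a, ha⟩ => h2 (ha ▸ hμJ a)⟩
  · by_cases h1 : x ∈ A
    · rw [t1 x h1, t2]
    · by_cases h2 : ∃ a, μ a = x
      · obtain ⟨a, rfl⟩ := h2
        rw [t2, t1 a a.2]
      · rw [t3 x h1 h2, t3 x h1 h2]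
  · by_cases h1 : x ∈ A
    · rw [t1 x h1]; exact hμ2 ⟨x, h1⟩
    · by_cases h2 : ∃ a, μ a = x
      · obtain ⟨a, rfl⟩ := h2
        rw [t2, hw.symm]; exact hμ2 a
      · exact absurd (t3 x h1 h2) hx

/-- a good matching of `A ∪ J` up to parity -/
theorem match_in {w : ι → ι → ℤ} (hw : Sym w) {A J : Finset ι} (hd : Disjoint A J)
    (hJ : ∀ a ∈ J, ∀ b ∈ J, a ≠ b → 2 ≤ w a b)
    (hH : ∀ B ⊆ A, B.card ≤ (J.filter fun l => ∃ i ∈ B, 2 ≤ w i l).card) :
    ∃ τ : ι → ι, GM w τ ∧ (∀ a ∈ A, τ a ∈ J) ∧ (∀ x, x ∉ A → x ∉ J → τ x = x) ∧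
      (J.filter fun x => τ x = x).card = (A.card + J.card) % 2 ∧
      (nfx τ).card + (A.card + J.card) % 2 = A.card + J.card := by
  classical
  obtain ⟨τ₀, h0, h1, h2⟩ := hall_in hw hd hH
  obtain ⟨τ, g1, g2, g3, g4⟩ := ext_in hw J hJ _ h0 rfl
  have hAJ : ∀ a ∈ A, a ∉ J := fun a ha => Finset.disjoint_left.1 hd ha
  have hA : ∀ a ∈ A, τ a = τ₀ a := fun a ha => g3 a (hAJ a ha)
  have hA2 : ∀ a ∈ A, τ a ∈ J := fun a ha => by rw [hA a ha]; exact h1 a ha
  have hfix : ∀ x, x ∉ A → x ∉ J → τ x = x := fun x hx1 hx2 => by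
    rw [g3 x hx2]; exact h2 x hx1 hx2
  -- the non-fixed points
  have hn : nfx τ ∪ (J.filter fun x => τ x = x) = A ∪ J := by
    ext x
    unfold nfx
    simp only [mem_union, mem_filter, mem_univ, true_and]
    constructor
    · rintro (h3 | h3)
      · by_contra hcon
        push Not at hcon
        exact h3 (hfix x hcon.1 hcon.2)
      · exact Or.inr h3.1
    · rintro (h3 | h3)
      · left
        intro h4
        have := hA2 x h3
        rw [h4] at this
        exact hAJ x h3 this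
      · by_cases h4 : τ x = x
        · exact Or.inr ⟨h3, h4⟩
        · exact Or.inl h4
  have hd2 : Disjoint (nfx τ) (J.filter fun x => τ x = x) := by
    rw [Finset.disjoint_left]
    intro x hx hx2
    exact (mem_filter.1 hx).2 (mem_filter.1 hx2).2
  have hc : (nfx τ).card + (J.filter fun x => τ x = x).card = A.card + J.card := by
    rw [← Finset.card_union_of_disjoint hd2, hn, Finset.card_union_of_disjoint hd]
  obtain ⟨r, hr⟩ := nfx_even g1.inv
  have hp : (J.filter fun x => τ x = x).card = (A.card + J.card) % 2 := by omega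
  exact ⟨τ, g1, hA2, hfix, hp, by omega⟩

end Pool.Agent.QFO
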