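import Pool.Agent.QFO.NotA1

/-!
# [QFO-NA2] the Hall arguments of `not (A)`
-/

set_option autoImplicit false
set_option linter.unusedSectionVars false

namespace Pool.Agent.QFO

open Finset Pool.Agent.MP_710317_co.Rec Pool.Agent.MXC

variable {ι : Type*} [Fintype ι] [DecidableEq ι]

/-- the class-level data: `S` singles, `J` nonsingles (unlooped), and `not (A)` -/
structure MD (w : ι → ι → ℤ) (σ : ℤ) (S J : Finset ι) : Prop where
  sym : Sym w
  sb : Sb w σ
  one : ∀ a b, a ≠ b → 1 ≤ w a b
  dis : Disjoint S J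
  lt : σ < S.card + J.card
  ss : ∀ a ∈ S, ∀ b ∈ S, a ≠ b → w a b = 1
  jj : ∀ a ∈ J, ∀ b ∈ J, a ≠ b → 2 ≤ w a b
  nA : ∀ F ⊆ J, 2 * F.card + 2 ≤ S.card + J.card → ∀ i ∈ S, ∀ i' ∈ S, i ≠ i' →
    (∀ l ∈ J, l ∉ F → w i l ≤ 1) → (∀ l ∈ J, l ∉ F → w i' l ≤ 1) → False

/-- the neighbours in `J` with weight at least `2` -/
def nb (w : ι → ι → ℤ) (J B : Finset ι) : Finset ι := J.filter fun l => ∃ i ∈ B, 2 ≤ w i l

section

variable {w : ι → ι → ℤ} {σ : ℤ} {S J : Finset ι}

theorem MD.nb_big (h : MD w σ S J) {B : Finset ι} (hB : B ⊆ S) (h2 : 2 ≤ B.card) :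
    S.card + J.card < 2 * (nb w J B).card + 2 := by
  by_contra hcon
  obtain ⟨i, hi, i', hi', hne⟩ := Finset.one_lt_card.1 (by omega : 1 < B.card)
  have key : ∀ j ∈ B, ∀ l ∈ J, l ∉ nb w J B → w j l ≤ 1 := by
    intro j hj l hl hl2
    by_contra h3
    exact hl2 (mem_filter.2 ⟨hl, j, hj, by omega⟩)
  exact h.nA (nb w J B) (filter_subset _ _) (by omega) i (hB hi) i' (hB hi') hne (key i hi)
    (key i' hi')

theorem MD.lower (h : MD w σ S J) {τ : ι → ι} (hτ : GM w τ) :
    ((nfx τ).card : ℤ) + 2 * ((Fintype.card ι / 2 : ℕ) : ℤ) ≤ 2 * σ := by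
  have h1 := inv_bound h.sym h.one h.sb hτ.inv
  have h2 := hτ.sum h.sym
  linarith

theorem MD.card_le (h : MD w σ S J) : S.card + J.card ≤ Fintype.card ι := by
  rw [← Finset.card_union_of_disjoint h.dis]
  exact Finset.card_le_univ _

theorem MD.pos (h : MD w σ S J) : 0 < S.card + J.card := by
  have h1 := h.lower (τ := id) ⟨fun _ => rfl, fun x hx => absurd rfl hx⟩
  have h2 := h.lt
  have h3 : (0 : ℤ) ≤ (nfx (id : ι → ι)).card := Int.natCast_nonneg _
  have h4 : (0 : ℤ) ≤ ((Fintype.card ι / 2 : ℕ) : ℤ) := Int.natCast_nonneg _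
  omega

theorem MD.J_big (h : MD w σ S J) : S.card + J.card < 2 * J.card + 2 := by
  by_cases h2 : 2 ≤ S.card
  · have h1 := h.nb_big (B := S) (fun _ hx => hx) h2
    have h3 : (nb w J S).card ≤ J.card := Finset.card_le_card (filter_subset _ _)
    omega
  · have := h.pos
    omega

/-- in the odd case a matching which leaves one element gives everything -/
theorem MD.odd_all (h : MD w σ S J) {τ : ι → ι} (hτ : GM w τ)
    (hc : (nfx τ).card + 1 = S.card + J.card) :
    Fintype.card ι = S.card + J.card ∧ σ = (Fintype.card ι : ℤ) - 1 ∧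
      ∑ x, w x (τ x) = 2 * σ := by
  have h1 := h.lower hτ
  have h2 := h.lt
  have h3 := h.card_le
  obtain ⟨r, hr⟩ := nfx_even hτ.inv
  have h4 := inv_bound h.sym h.one h.sb hτ.inv
  have h5 := hτ.sum h.sym
  have e1 : Fintype.card ι = S.card + J.card := by omega
  refine ⟨e1, by omega, ?_⟩
  have e2 : σ = (Fintype.card ι : ℤ) - 1 := by omega
  have e3 : 2 * ((Fintype.card ι / 2 : ℕ) : ℤ) = (nfx τ).card := by omega
  linarith

theorem MD.even_no (h : MD w σ S J) (he : (S.card + J.card) % 2 = 0) {τ : ι → ι} (hτ : GM w τ)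
    (hc : (nfx τ).card = S.card + J.card) : False := by
  have h1 := h.lower hτ
  have h2 := h.lt
  have h3 := h.card_le
  omega

theorem MD.hallS (h : MD w σ S J) {A : Finset ι} (hA : A ⊆ S)
    (hone : ∀ i ∈ A, ∃ l ∈ J, 2 ≤ w i l) (hc : 2 * A.card ≤ S.card + J.card) :
    ∀ B ⊆ A, B.card ≤ (J.filter fun l => ∃ i ∈ B, 2 ≤ w i l).card := by
  intro B hB
  by_cases h2 : 2 ≤ B.card
  · have h1 := h.nb_big (hB.trans hA) h2
    have h3 := Finset.card_le_card hB
    unfold nb at h1
    omega
  · by_cases h3 : B.card = 0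
    · omega
    · obtain ⟨i, hi⟩ := Finset.card_pos.1 (Nat.pos_of_ne_zero h3)
      obtain ⟨l, hl, hl2⟩ := hone i (hB hi)
      have : 0 < (J.filter fun l => ∃ i ∈ B, 2 ≤ w i l).card :=
        Finset.card_pos.2 ⟨l, mem_filter.2 ⟨hl, i, hi, hl2⟩⟩
      omega

/-- T1: every single has a partner; then the number is odd and all weights are `2` -/
theorem MD.T1 (h : MD w σ S J) (hone : ∀ i ∈ S, ∃ l ∈ J, 2 ≤ w i l) :
    Fintype.card ι = S.card + J.card ∧ (S.card + J.card) % 2 = 1 ∧
      σ = (Fintype.card ι : ℤ) - 1 ∧ ∀ a b, a ≠ b → w a b = 2 := by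
  classical
  have hJ := h.J_big
  have hdis := h.dis
  rcases Nat.mod_two_eq_zero_or_one (S.card + J.card) with he | ho
  · -- even
    exfalso
    obtain ⟨τ, g1, _, _, _, g5⟩ := match_in h.sym hdis h.jj
      (h.hallS (A := S) (fun _ hx => hx) hone (by omega))
    exact h.even_no he g1 (by omega)
  · -- odd
    by_cases hk : 2 * J.card + 1 = S.card + J.card
    · -- `|J| = k`
      exfalso
      obtain ⟨i₀, hi₀⟩ : S.Nonempty := Finset.card_pos.1 (by omega)
      have hce := Finset.card_erase_add_one hi₀
      obtain ⟨τ, g1, g2, g3, g4, g5⟩ := match_in h.sym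
        (Finset.disjoint_of_subset_left (Finset.erase_subset i₀ S) hdis) h.jj
        (h.hallS (A := S.erase i₀) (Finset.erase_subset _ _)
          (fun i hi => hone i (mem_of_mem_erase hi)) (by omega))
      obtain ⟨e1, e2, e3⟩ := h.odd_all g1 (by omega)
      have hz : τ i₀ = i₀ := g3 i₀ (notMem_erase _ _)
        (fun h' => (Finset.disjoint_left.1 hdis) hi₀ h')
      have huniv : S ∪ J = univ := by
        apply Finset.eq_univ_of_card
        rw [Finset.card_union_of_disjoint hdis, e1]
      have hfilt : (J.filter fun x => τ x = x) = ∅ := by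
        rw [← Finset.card_eq_zero, g4]
        omega
      have hJn : ∀ l ∈ J, τ l ≠ l := fun l hl hl2 => by
        have : l ∈ (J.filter fun x => τ x = x) := mem_filter.2 ⟨hl, hl2⟩
        rw [hfilt] at this
        exact absurd this (notMem_empty l)
      have hfp : ∀ x, x ≠ i₀ → τ x ≠ x := by
        intro x hx hx2
        have : x ∈ S ∪ J := by rw [huniv]; exact mem_univ x
        rcases mem_union.1 this with h1 | h1
        · have h2 := g2 x (mem_erase.2 ⟨hx, h1⟩)
          rw [hx2] at h2
          exact (Finset.disjoint_left.1 hdis) h1 h2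
        · exact hJn x h1 hx2
      obtain ⟨l, hl, hl2⟩ := hone i₀ hi₀
      -- `τ l` is a single
      have himg : (S.erase i₀).image τ = J := by
        apply Finset.eq_of_subset_of_card_le
        · intro y hy
          obtain ⟨x, hx, rfl⟩ := Finset.mem_image.1 hy
          exact g2 x hx
        · rw [Finset.card_image_of_injOn (fun x _ y _ hxy => by rw [← g1.inv x, hxy, g1.inv])]
          omega
      have hl3 : l ∈ (S.erase i₀).image τ := by rw [himg]; exact hl
      obtain ⟨x, hx, hxl⟩ := Finset.mem_image.1 hl3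
      have hτl : τ l = x := by rw [← hxl, g1.inv]
      have hli : l ≠ i₀ := fun h' => (Finset.disjoint_left.1 hdis) hi₀ (h' ▸ hl)
      have h6 := odd_bound h.sym h.sb g1.inv hz hfp hli
      rw [hτl, h.ss i₀ hi₀ x (mem_of_mem_erase hx) (ne_of_mem_erase hx).symm, e3] at h6
      have h7 := le_abs_self (w i₀ l - 1)
      linarith
    · -- `|J| ≥ k + 1`
      obtain ⟨τ, g1, g2, g3, g4, g5⟩ := match_in h.sym hdis h.jj
        (h.hallS (A := S) (fun _ hx => hx) hone (by omega))
      obtain ⟨e1, e2, e3⟩ := h.odd_all g1 (by omega)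
      refine ⟨e1, ho, e2, ?_⟩
      have huniv : S ∪ J = univ := by
        apply Finset.eq_univ_of_card
        rw [Finset.card_union_of_disjoint hdis, e1]
      have hSJ : ∀ x, x ∉ S → x ∈ J := fun x hx => by
        have : x ∈ S ∪ J := by rw [huniv]; exact mem_univ x
        exact (mem_union.1 this).resolve_left hx
      rw [ho, Finset.card_eq_one] at g4
      obtain ⟨o, ho'⟩ := g4
      have ho1 : o ∈ (J.filter fun x => τ x = x) := by rw [ho']; exact mem_singleton_self o
      obtain ⟨hoJ, hoz⟩ := mem_filter.1 ho1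
      have hoS : o ∉ S := fun h' => (Finset.disjoint_left.1 hdis) h' hoJ
      have hfp : ∀ x, x ≠ o → τ x ≠ x := by
        intro x hx hx2
        by_cases h1 : x ∈ S
        · have h2 := g2 x h1
          rw [hx2] at h2
          exact (Finset.disjoint_left.1 hdis) h1 h2
        · have h2 : x ∈ (J.filter fun x => τ x = x) := mem_filter.2 ⟨hSJ x h1, hx2⟩
          rw [ho', mem_singleton] at h2
          exact hx h2
      -- a general exchange: `j ≠ o`, then `j` is left over
      have hex : ∀ j, j ≠ o → 2 ≤ w o (τ j) → ∀ i, i ≠ j → i ≠ o → i ≠ τ j →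
          w j i = w j (τ i) := by
        intro j hj hoj i hij hio hiτ
        have hτjo : τ j ≠ o := fun h' => hj (by rw [← g1.inv j, h', hoz])
        set τ' := xch τ o j with hτ'
        have hinv : ∀ x, τ' (τ' x) = x := xch_inv g1.inv o j
        have hval : ∀ x, x ≠ o → x ≠ j → x ≠ τ j → τ' x = τ x := by
          intro x hx1 hx2 hx3
          rw [hτ']
          unfold xch
          rw [Equiv.swap_apply_of_ne_of_ne hx1 hx2, Equiv.swap_apply_of_ne_of_ne
            (fun h' => hx1 (by rw [← g1.inv x, h', hoz])) (fun h' => hx3 (by rw [← h', g1.inv]))]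
        have hj' : τ' j = j := by
          rw [hτ']
          unfold xch
          rw [Equiv.swap_apply_right, hoz, Equiv.swap_apply_left]
        have ho'' : τ' o = τ j := by
          rw [hτ']
          unfold xch
          rw [Equiv.swap_apply_left, Equiv.swap_apply_of_ne_of_ne hτjo (hfp j hj)]
        have hτj' : τ' (τ j) = o := by rw [← ho'', hinv]
        have hfp' : ∀ x, x ≠ j → τ' x ≠ x := by
          intro x hx
          by_cases h1 : x = o
          · rw [h1, ho'']; exact hτjo
          · by_cases h2 : x = τ j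
            · rw [h2, hτj']; exact Ne.symm hτjo
            · rw [hval x h1 hx h2]
              exact hfp x h1
        have h1 := odd_bound h.sym h.sb hinv hj' hfp' hij
        have h2 := xch_sum1 h.sym g1.inv (Ne.symm hj) hoz (hfp j hj)
        rw [← hτ'] at h2
        have h3 : w j (τ j) ≤ 2 := by
          -- all pairs have weight exactly `2`
          have h4 := g1.sum h.sym
          by_contra hcon
          have h5 : ∀ x ∈ nfx τ, (2 : ℤ) ≤ w x (τ x) := fun x hx => g1.two x (mem_filter.1 hx).2
          have h6 : ∑ x ∈ nfx τ, (w x (τ x) - 2) ≤ 0 := by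
            have e4 : ∑ x ∈ nfx τ, w x (τ x) = ∑ x, w x (τ x) :=
              Finset.sum_subset (subset_univ _) fun x _ hx => by
                have : τ x = x := by
                  by_contra h'
                  exact hx (mem_filter.2 ⟨mem_univ _, h'⟩)
                rw [this, h.sym.diag]
            rw [Finset.sum_sub_distrib, e4, e3, Finset.sum_const, nsmul_eq_mul]
            have : ((nfx τ).card : ℤ) = σ := by omega
            rw [this]
            linarith
          have h7 : w j (τ j) - 2 ≤ ∑ x ∈ nfx τ, (w x (τ x) - 2) :=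
            Finset.single_le_sum (f := fun x => w x (τ x) - 2)
              (fun x hx => by linarith [h5 x hx]) (mem_filter.2 ⟨mem_univ _, hfp j hj⟩)
          linarith
        rw [h2, e3] at h1
        have h8 := abs_nonneg (w j i - w j (τ' i))
        rw [hval i hio hij hiτ] at h1 h8
        have h9 : |w j i - w j (τ i)| = 0 := by linarith
        linarith [abs_eq_zero.1 h9]
      have hoo : ∀ i, i ≠ o → w o i = w o (τ i) := by
        intro i hi
        have h1 := odd_bound h.sym h.sb g1.inv hoz hfp hi
        rw [e3] at h1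
        have h8 := abs_nonneg (w o i - w o (τ i))
        have h9 : |w o i - w o (τ i)| = 0 := by linarith
        linarith [abs_eq_zero.1 h9]
      -- at most one single
      have hS1 : S.card ≤ 1 := by
        by_contra hcon
        obtain ⟨i, hi, i', hi', hne⟩ := Finset.one_lt_card.1 (by omega : 1 < S.card)
        have hio : i ≠ o := fun h' => hoS (h' ▸ hi)
        have hi'o : i' ≠ o := fun h' => hoS (h' ▸ hi')
        have hl := g2 i hi
        have hl' := g2 i' hi'
        have hlS : ∀ x ∈ J, x ∉ S := fun x hx hx2 => (Finset.disjoint_left.1 hdis) hx2 hx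
        have hlo : τ i ≠ o := fun h' => hio (by rw [← g1.inv i, h', hoz])
        have hl'o : τ i' ≠ o := fun h' => hi'o (by rw [← g1.inv i', h', hoz])
        have hll : τ i ≠ τ i' := fun h' => hne (by rw [← g1.inv i, h', g1.inv])
        -- `l'` left over
        have h1 := hoo i' hi'o
        have h2 := h.jj o hoJ (τ i') hl' (Ne.symm hl'o)
        have h3 := hex (τ i') hl'o (by rw [g1.inv, h1]; exact h2) i
          (fun h' => hlS _ hl' (h' ▸ hi)) hio (by rw [g1.inv]; exact hne)
        have h4 := h.jj (τ i') hl' (τ i) hl (Ne.symm hll)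
        -- `i` left over
        have h5 := hex i hio (h.jj o hoJ (τ i) hl (Ne.symm hlo)) i' (Ne.symm hne) hi'o
          (fun h' => hlS _ hl (h' ▸ hi'))
        rw [h.ss i hi i' hi' hne, h.sym.symm i (τ i'), h3] at h5
        linarith
      -- all weights are at least `2`
      have hge : ∀ a b, a ≠ b → 2 ≤ w a b := by
        have key : ∀ i ∈ S, ∀ b, b ≠ i → 2 ≤ w i b := by
          intro i hi b hb
          have hS : ∀ x, x ≠ i → x ∈ J := fun x hx => hSJ x fun h' => hx
            (Finset.card_le_one.1 hS1 x h' i hi)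
          have hio : i ≠ o := fun h' => hoS (h' ▸ hi)
          have hl := g2 i hi
          have hlo : τ i ≠ o := fun h' => hio (by rw [← g1.inv i, h', hoz])
          by_cases h1 : b = τ i
          · rw [h1]; exact g1.two i (hfp i hio)
          · by_cases h2 : b = o
            · rw [h2, h.sym.symm, hoo i hio]
              exact h.jj o hoJ (τ i) hl (Ne.symm hlo)
            · have hτb : τ b ≠ i := fun h' => h1 (by rw [← h', g1.inv])
              have hτbo : τ b ≠ o := fun h' => h2 (by rw [← g1.inv b, h', hoz])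
              have h3 := hex b h2 (h.jj o hoJ (τ b) (hS _ hτb) (Ne.symm hτbo)) i (Ne.symm hb) hio
                (Ne.symm hτb)
              rw [h.sym.symm i b, h3]
              exact h.jj b (hS b hb) (τ i) hl h1
        intro a b hab
        by_cases ha : a ∈ S
        · exact key a ha b (Ne.symm hab)
        · by_cases hb : b ∈ S
          · rw [h.sym.symm]; exact key b hb a hab
          · exact h.jj a (hSJ a ha) b (hSJ b hb) hab
      -- no weight `3`
      intro a b hab
      refine le_antisymm ?_ (hge a b hab)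
      have hsw : ∀ x, (addp (id : ι → ι) a b) (addp (id : ι → ι) a b x) = x :=
        addp_inv (fun _ => rfl) rfl rfl hab
      obtain ⟨ρ, hρ, hρe, hρc⟩ := near_ext (addp (id : ι → ι) a b) hsw
      have hρa : ρ a = b := by
        rw [hρe a (by rw [addp_a]; exact Ne.symm hab), addp_a]
      have hG : GM w ρ := ⟨hρ, fun x hx => hge x (ρ x) (Ne.symm hx)⟩
      have h1 := inv_bound h.sym h.one h.sb hρ
      have h5 : ∀ x ∈ nfx ρ, (0 : ℤ) ≤ w x (ρ x) - 2 := fun x hx => by
        linarith [hG.two x (mem_filter.1 hx).2]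
      have h7 : w a (ρ a) - 2 ≤ ∑ x ∈ nfx ρ, (w x (ρ x) - 2) :=
        Finset.single_le_sum (f := fun x => w x (ρ x) - 2) h5
          (mem_filter.2 ⟨mem_univ _, by rw [hρa]; exact Ne.symm hab⟩)
      have e4 : ∑ x ∈ nfx ρ, w x (ρ x) = ∑ x, w x (ρ x) :=
        Finset.sum_subset (subset_univ _) fun x _ hx => by
          have : ρ x = x := by
            by_contra h'
            exact hx (mem_filter.2 ⟨mem_univ _, h'⟩)
          rw [this, h.sym.diag]
      rw [Finset.sum_sub_distrib, e4, Finset.sum_const, nsmul_eq_mul, hρa] at h7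
      have h8 : ((nfx ρ).card : ℤ) = 2 * ((Fintype.card ι / 2 : ℕ) : ℤ) := by
        rw [hρc]; push_cast; ring
      have h9 : 2 * ((Fintype.card ι / 2 : ℕ) : ℤ) = (Fintype.card ι : ℤ) - 1 := by omega
      linarith

end

end Pool.Agent.QFO
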