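import Pool.Agent.QFO.NotA2

/-!
# [QFO-NA3] the Hall arguments of `not (A)`: a single without partner
-/

set_option autoImplicit false
set_option linter.unusedSectionVars false

namespace Pool.Agent.QFO

open Finset Pool.Agent.MP_710317_co.Rec Pool.Agent.MXC

variable {ι : Type*} [Fintype ι] [DecidableEq ι]

section

variable {w : ι → ι → ℤ} {σ : ℤ} {S J : Finset ι}

theorem MD.nb_big1 (h : MD w σ S J) {j₀ : ι} (hj₀ : j₀ ∈ S) (hz : ∀ l ∈ J, w j₀ l ≤ 1)
    {B : Finset ι} (hB : B ⊆ S.erase j₀) (h1 : 1 ≤ B.card) :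
    S.card + J.card < 2 * (nb w J B).card + 2 := by
  have hn : j₀ ∉ B := fun h' => (notMem_erase j₀ S) (hB h')
  have e1 : nb w J (insert j₀ B) = nb w J B := by
    unfold nb
    apply Finset.filter_congr
    intro l hl
    constructor
    · rintro ⟨i, hi, hi2⟩
      rcases mem_insert.1 hi with h2 | h2
      · rw [h2] at hi2
        have := hz l hl
        omega
      · exact ⟨i, h2, hi2⟩
    · rintro ⟨i, hi, hi2⟩
      exact ⟨i, mem_insert_of_mem hi, hi2⟩
  rw [← e1]
  refine h.nb_big (insert_subset hj₀ (hB.trans (erase_subset _ _))) ?_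
  rw [Finset.card_insert_of_notMem hn]
  omega

theorem MD.T2_even (h : MD w σ S J) (he : (S.card + J.card) % 2 = 0) {j₀ : ι} (hj₀ : j₀ ∈ S)
    (hz : ∀ l ∈ J, w j₀ l ≤ 1) {a b : ι} (ha : a ∈ J) (hb : b ∈ J) (hab : a ≠ b)
    (hA : ∀ i ∈ S, i ≠ j₀ → 2 ≤ w i a ∧ 2 ≤ w i b) (h3 : 3 ≤ w a b) : False := by
  classical
  have hJ := h.J_big
  have hdis := h.dis
  have haS : a ∉ S := fun h' => (Finset.disjoint_left.1 hdis) h' ha
  have hbS : b ∉ S := fun h' => (Finset.disjoint_left.1 hdis) h' hb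
  set J' : Finset ι := (J.erase a).erase b with hJ'
  have hJ'c : J'.card + 2 = J.card := by
    have h1 := Finset.card_erase_add_one ha
    have h2 := Finset.card_erase_add_one (mem_erase.2 ⟨Ne.symm hab, hb⟩ : b ∈ J.erase a)
    rw [← hJ'] at h2
    omega
  have hJ'J : J' ⊆ J := (erase_subset _ _).trans (erase_subset _ _)
  have hS1 := Finset.card_erase_add_one hj₀
  -- Hall's condition
  have hall : ∀ A : Finset ι, A ⊆ S.erase j₀ → 2 * A.card + 4 ≤ S.card + J.card →
      ∀ B ⊆ A, B.card ≤ (J'.filter fun l => ∃ i ∈ B, 2 ≤ w i l).card := by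
    intro A hA2 hc B hB
    rcases Nat.eq_zero_or_pos B.card with h0 | h0
    · omega
    · have h1 := h.nb_big1 hj₀ hz (hB.trans hA2) h0
      obtain ⟨i, hi⟩ := Finset.card_pos.1 h0
      obtain ⟨hij, hiS⟩ := mem_erase.1 (hA2 (hB hi))
      obtain ⟨q1, q2⟩ := hA i hiS hij
      have e1 : nb w J B = insert a (insert b (J'.filter fun l => ∃ i ∈ B, 2 ≤ w i l)) := by
        ext l
        unfold nb
        simp only [mem_filter, mem_insert, hJ', mem_erase]
        constructor
        · rintro ⟨h4, h5⟩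
          by_cases h6 : l = a
          · exact Or.inl h6
          · by_cases h7 : l = b
            · exact Or.inr (Or.inl h7)
            · exact Or.inr (Or.inr ⟨⟨h7, h6, h4⟩, h5⟩)
        · rintro (h4 | h4 | ⟨⟨_, _, h4⟩, h5⟩)
          · rw [h4]; exact ⟨ha, i, hi, q1⟩
          · rw [h4]; exact ⟨hb, i, hi, q2⟩
          · exact ⟨h4, h5⟩
      have e2 : b ∉ (J'.filter fun l => ∃ i ∈ B, 2 ≤ w i l) := fun h' => by
        have := (mem_filter.1 h').1
        rw [hJ'] at this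
        exact (ne_of_mem_erase this) rfl
      have e3 : a ∉ insert b (J'.filter fun l => ∃ i ∈ B, 2 ≤ w i l) := fun h' => by
        rcases mem_insert.1 h' with h4 | h4
        · exact hab h4
        · have := (mem_filter.1 h4).1
          rw [hJ'] at this
          exact (ne_of_mem_erase (mem_of_mem_erase this)) rfl
      rw [e1, Finset.card_insert_of_notMem e3, Finset.card_insert_of_notMem e2] at h1
      have h5 := Finset.card_le_card hB
      omega
  -- the set of singles which are matched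
  obtain ⟨A, hA1, hA2, hA3⟩ : ∃ A : Finset ι, A ⊆ S.erase j₀ ∧ 2 * A.card + 4 ≤ S.card + J.card ∧
      A.card + J'.card - (A.card + J'.card) % 2 + 4 = S.card + J.card := by
    by_cases hc : 2 * S.card + 2 ≤ S.card + J.card
    · exact ⟨S.erase j₀, fun _ hx => hx, by omega, by omega⟩
    · have h1 : 0 < (S.erase j₀).card := by omega
      obtain ⟨i₀, hi₀⟩ := Finset.card_pos.1 h1
      have h2 := Finset.card_erase_add_one hi₀
      exact ⟨(S.erase j₀).erase i₀, erase_subset _ _, by omega, by omega⟩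
  have hAS : A ⊆ S := hA1.trans (erase_subset _ _)
  obtain ⟨τ, g1, g2, g3, g4, g5⟩ := match_in h.sym
    (Finset.disjoint_of_subset_left hAS (Finset.disjoint_of_subset_right hJ'J hdis))
    (fun x hx y hy hxy => h.jj x (hJ'J hx) y (hJ'J hy) hxy) (hall A hA1 hA2)
  have hτa : τ a = a := g3 a (fun h' => haS (hAS h')) (fun h' =>
    (ne_of_mem_erase (mem_of_mem_erase h')) rfl)
  have hτb : τ b = b := g3 b (fun h' => hbS (hAS h')) (fun h' => (ne_of_mem_erase h') rfl)
  have h1 := inv_bound h.sym h.one h.sb (addp_inv g1.inv hτa hτb hab)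
  have h2 := addp_sum h.sym hτa hτb hab
  have h4 := addp_nfx_card hτa hτb hab
  have h5 := g1.sum h.sym
  have h6 := h.lt
  have h7 := h.card_le
  omega

theorem MD.T2_odd (h : MD w σ S J) (ho : (S.card + J.card) % 2 = 1) {j₀ : ι} (hj₀ : j₀ ∈ S)
    (hz : ∀ l ∈ J, w j₀ l ≤ 1) : ∃ τ : ι → ι, GM w τ ∧ τ j₀ = j₀ ∧ (∀ x, x ≠ j₀ → τ x ≠ x) ∧
      Fintype.card ι = S.card + J.card ∧ σ = (Fintype.card ι : ℤ) - 1 ∧
      ∑ x, w x (τ x) = 2 * σ := by
  classical
  have hJ := h.J_big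
  have hdis := h.dis
  have hS1 := Finset.card_erase_add_one hj₀
  obtain ⟨τ, g1, g2, g3, g4, g5⟩ := match_in h.sym
    (Finset.disjoint_of_subset_left (Finset.erase_subset j₀ S) hdis) h.jj (fun B hB => by
      rcases Nat.eq_zero_or_pos B.card with h0 | h0
      · omega
      · have h1 := h.nb_big1 hj₀ hz hB h0
        have h2 := Finset.card_le_card hB
        unfold nb at h1
        omega)
  obtain ⟨e1, e2, e3⟩ := h.odd_all g1 (by omega)
  have hτj : τ j₀ = j₀ := g3 j₀ (notMem_erase _ _)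
    (fun h' => (Finset.disjoint_left.1 hdis) hj₀ h')
  refine ⟨τ, g1, hτj, fun x hx hx2 => ?_, e1, e2, e3⟩
  have hfilt : (J.filter fun x => τ x = x) = ∅ := by
    rw [← Finset.card_eq_zero, g4]
    omega
  have huniv : S ∪ J = univ := by
    apply Finset.eq_univ_of_card
    rw [Finset.card_union_of_disjoint hdis, e1]
  have : x ∈ S ∪ J := by rw [huniv]; exact mem_univ x
  rcases mem_union.1 this with h1 | h1
  · have h2 := g2 x (mem_erase.2 ⟨hx, h1⟩)
    rw [hx2] at h2
    exact (Finset.disjoint_left.1 hdis) h1 h2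
  · have : x ∈ (J.filter fun x => τ x = x) := mem_filter.2 ⟨h1, hx2⟩
    rw [hfilt] at this
    exact absurd this (notMem_empty x)

/-- all pairs have weight exactly `2` -/
theorem exact_two {τ : ι → ι} (hw : Sym w) (g : GM w τ) (hc : ((nfx τ).card : ℤ) = σ)
    (hs : ∑ x, w x (τ x) = 2 * σ) : ∀ x, τ x ≠ x → w x (τ x) = 2 := by
  intro x hx
  have h5 : ∀ x ∈ nfx τ, (0 : ℤ) ≤ w x (τ x) - 2 := fun x hx => by
    linarith [g.two x (mem_filter.1 hx).2]
  have e4 : ∑ x ∈ nfx τ, w x (τ x) = ∑ x, w x (τ x) :=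
    Finset.sum_subset (subset_univ _) fun x _ hx => by
      have : τ x = x := by
        by_contra h'
        exact hx (mem_filter.2 ⟨mem_univ _, h'⟩)
      rw [this, hw.diag]
  have h6 : ∑ x ∈ nfx τ, (w x (τ x) - 2) = 0 := by
    rw [Finset.sum_sub_distrib, e4, hs, Finset.sum_const, nsmul_eq_mul, hc]
    ring
  have := (Finset.sum_eq_zero_iff_of_nonneg h5).1 h6 x (mem_filter.2 ⟨mem_univ _, hx⟩)
  linarith

/-- a class which sees all five vertices -/
def gd (w : ι → ι → ℤ) (S : Finset ι) (j₀ c : ι) : Prop :=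
  c ∈ S ∨ ∃ i ∈ S, i ≠ j₀ ∧ w i c ≤ 1

theorem MD.T3 (h : MD w σ S J) {j₀ : ι} (hj₀ : j₀ ∈ S) {τ : ι → ι}
    (g1 : GM w τ) (hτj : τ j₀ = j₀) (hfp : ∀ x, x ≠ j₀ → τ x ≠ x)
    (e1 : Fintype.card ι = S.card + J.card) (e2 : σ = (Fintype.card ι : ℤ) - 1)
    (e3 : ∑ x, w x (τ x) = 2 * σ) {a b : ι} (ha : a ∈ J) (hb : b ∈ J) (hab : a ≠ b)
    (h3 : 3 ≤ w a b) : Fintype.card ι = 5 ∨ (w a b = 3 ∧ τ a ≠ b ∧ gd w S j₀ (τ a) ∧
      gd w S j₀ (τ b) ∧ ∃ g, gd w S j₀ g ∧ g ≠ j₀ ∧ g ≠ a ∧ g ≠ b ∧ g ≠ τ a ∧ g ≠ τ b) := by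
  classical
  have hdis := h.dis
  have haS : a ∉ S := fun h' => (Finset.disjoint_left.1 hdis) h' ha
  have hbS : b ∉ S := fun h' => (Finset.disjoint_left.1 hdis) h' hb
  have haj : a ≠ j₀ := fun h' => haS (h' ▸ hj₀)
  have hbj : b ≠ j₀ := fun h' => hbS (h' ▸ hj₀)
  have huniv : S ∪ J = univ := by
    apply Finset.eq_univ_of_card
    rw [Finset.card_union_of_disjoint hdis, e1]
  have hSJ : ∀ x, x ∉ S → x ∈ J := fun x hx => by
    have : x ∈ S ∪ J := by rw [huniv]; exact mem_univ x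
    exact (mem_union.1 this).resolve_left hx
  have hfix : (univ.filter fun x => τ x = x).card = 1 := by
    rw [Finset.card_eq_one]
    refine ⟨j₀, ?_⟩
    ext x
    simp only [mem_filter, mem_univ, true_and, mem_singleton]
    exact ⟨fun h' => by by_contra hx; exact hfp x hx h', fun h' => by rw [h', hτj]⟩
  have hnf := nfx_card_fix τ
  rw [hfix] at hnf
  obtain ⟨r, hr⟩ := nfx_even g1.inv
  have hcard : ((nfx τ).card : ℤ) = σ := by omega
  have h2 := exact_two h.sym g1 hcard e3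
  have hτa : τ a ≠ a := hfp a haj
  have hτb : τ b ≠ b := hfp b hbj
  have hne : τ a ≠ b := fun h' => by
    have := h2 a hτa
    rw [h'] at this
    linarith
  have hne2 : τ b ≠ a := fun h' => hne (by rw [← h', g1.inv])
  have hτab : τ a ≠ τ b := fun h' => hab (by rw [← g1.inv a, h', g1.inv])
  have hτaj : τ a ≠ j₀ := fun h' => haj (by rw [← g1.inv a, h', hτj])
  have hτbj : τ b ≠ j₀ := fun h' => hbj (by rw [← g1.inv b, h', hτj])
  -- bound for matchings with one fixed point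
  have hbd : ∀ ρ : ι → ι, (∀ x, ρ (ρ x) = x) → (univ.filter fun x => ρ x = x).card = 1 →
      ∑ x, w x (ρ x) ≤ 2 * σ := by
    intro ρ hρ hρ1
    have h4 := inv_bound h.sym h.one h.sb hρ
    have h5 := nfx_card_fix ρ
    rw [hρ1] at h5
    obtain ⟨r', hr'⟩ := nfx_even hρ
    omega
  -- the exchange `ab`, `τ a τ b`
  have hττa : τ (τ a) = a := g1.inv a
  have hx1 := xch_sum h.sym g1.inv (a := τ a) (b := b) hne (by rw [hττa]; exact hab)
    (by rw [hττa]; exact Ne.symm hτa) hτb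
  have hx2 := hbd _ (xch_inv g1.inv (τ a) b) (by rw [xch_fix, hfix])
  have w1 := h2 a hτa
  have w2 := h2 b hτb
  have hxy1 := h.one (τ a) (τ b) hτab
  rw [hττa, h.sym.symm (τ a) a, w1, w2, h.sym.symm b a, e3] at hx1
  have hwab : w a b = 3 := by linarith
  have hwxy : w (τ a) (τ b) = 1 := by linarith
  have hgx : gd w S j₀ (τ a) := by
    by_cases hx : τ a ∈ S
    · exact Or.inl hx
    · right
      by_cases hy : τ b ∈ S
      · exact ⟨τ b, hy, hτbj, by rw [h.sym.symm, hwxy]⟩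
      · have := h.jj _ (hSJ _ hx) _ (hSJ _ hy) hτab
        linarith
  have hgy : gd w S j₀ (τ b) := by
    by_cases hy : τ b ∈ S
    · exact Or.inl hy
    · right
      by_cases hx : τ a ∈ S
      · exact ⟨τ a, hx, hτaj, by rw [hwxy]⟩
      · have := h.jj _ (hSJ _ hx) _ (hSJ _ hy) hτab
        linarith
  set P : Finset ι := {j₀, a, b, τ a, τ b} with hP
  have hPc : P.card = 5 := by
    rw [hP, Finset.card_insert_of_notMem, Finset.card_insert_of_notMem,
      Finset.card_insert_of_notMem, Finset.card_pair hτab]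
    · simp only [mem_insert, mem_singleton, not_or]
      exact ⟨Ne.symm hne, Ne.symm hτb⟩
    · simp only [mem_insert, mem_singleton, not_or]
      exact ⟨hab, Ne.symm hτa, Ne.symm hne2⟩
    · simp only [mem_insert, mem_singleton, not_or]
      exact ⟨Ne.symm haj, Ne.symm hbj, Ne.symm hτaj, Ne.symm hτbj⟩
  by_cases h5 : Fintype.card ι = 5
  · exact Or.inl h5
  · right
    refine ⟨hwab, hne, hgx, hgy, ?_⟩
    have hPle : P.card ≤ Fintype.card ι := Finset.card_le_univ _
    obtain ⟨g, hg⟩ : (univ \ P).Nonempty := by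
      rw [← Finset.card_pos]
      have := Finset.le_card_sdiff P univ
      rw [Finset.card_univ] at this
      omega
    have hgP : g ∉ P := (mem_sdiff.1 hg).2
    simp only [hP, mem_insert, mem_singleton, not_or] at hgP
    obtain ⟨p1, p2, p3, p4, p5⟩ := hgP
    have q1 : τ g ≠ j₀ := fun h' => p1 (by rw [← g1.inv g, h', hτj])
    have q2 : τ g ≠ a := fun h' => p4 (by rw [← h', g1.inv])
    have q3 : τ g ≠ b := fun h' => p5 (by rw [← h', g1.inv])
    have q4 : τ g ≠ τ a := fun h' => p2 (by rw [← g1.inv g, h', g1.inv])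
    have q5 : τ g ≠ τ b := fun h' => p3 (by rw [← g1.inv g, h', g1.inv])
    have q6 : τ g ≠ g := hfp g p1
    by_cases c1 : gd w S j₀ g
    · exact ⟨g, c1, p1, p2, p3, p4, p5⟩
    by_cases c2 : gd w S j₀ (τ g)
    · exact ⟨τ g, c2, q1, q2, q3, q4, q5⟩
    exfalso
    unfold gd at c1 c2
    push Not at c1 c2
    have hgJ := hSJ g c1.1
    have hg'J := hSJ (τ g) c2.1
    have v1 : 2 ≤ w (τ a) g := by
      by_cases hx : τ a ∈ S
      · have := c1.2 _ hx hτaj
        omega
      · exact h.jj _ (hSJ _ hx) g hgJ (Ne.symm p4)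
    have v2 : 2 ≤ w (τ b) (τ g) := by
      by_cases hy : τ b ∈ S
      · have := c2.2 _ hy hτbj
        omega
      · exact h.jj _ (hSJ _ hy) _ hg'J (Ne.symm q5)
    set τ4 := xch τ (τ a) b with hτ4
    have hinv4 : ∀ x, τ4 (τ4 x) = x := xch_inv g1.inv (τ a) b
    have t1 : τ4 (τ b) = τ a := by
      rw [hτ4]
      unfold xch
      rw [Equiv.swap_apply_of_ne_of_ne (Ne.symm hτab) hτb, g1.inv, Equiv.swap_apply_right]
    have t2 : τ4 g = τ g := by
      rw [hτ4]
      unfold xch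
      rw [Equiv.swap_apply_of_ne_of_ne p4 p3, Equiv.swap_apply_of_ne_of_ne q4 q3]
    have hx3 := xch_sum h.sym hinv4 (a := τ b) (b := g) (Ne.symm p5) (by
      rw [t1]; exact Ne.symm p4) (by rw [t1]; exact hτab) (by rw [t2]; exact q6)
    have hx4 := hbd _ (xch_inv hinv4 (τ b) g) (by rw [xch_fix, xch_fix, hfix])
    rw [t1, t2, h.sym.symm (τ b) (τ a), hwxy, h2 g q6, h.sym.symm g (τ a), hx1,
      hwab] at hx3
    linarith

end

end Pool.Agent.QFO
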