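import Pool.Agent.QFO.NotA3
import Pool.Agent.QFO.HSwap

/-!
# [QFO-NA4] the vertex level of `not (A)`: a lost pair, the exchanged colouring, the pentagon
-/

set_option autoImplicit false
set_option linter.unusedSectionVars false

namespace Pool.Agent.QFO

open Finset Pool.Agent.MP_710317_co.Rec Pool.Agent.MXC

variable {V : Type*} [Fintype V] [DecidableEq V]

section

variable {W : V → V → ℤ} {k : V → ℤ} {N : ℕ} {f : V → Fin N}

/-- a vertex with weight at most one to a class sees only its neighbour there -/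
theorem only_nb (h : OO W k) {x q : V} (hqx : f q ≠ f x) (hW : 1 ≤ W x q)
    (hu : ∑ y ∈ cls f (f q), W x y ≤ 1) : ∀ y, f y = f q → y ≠ q → W x y = 0 := by
  intro y hy hyq
  have hnn : ∀ z, f z = f q → 0 ≤ W x z := fun z hz => h.nn x z (by
    rintro rfl
    exact hqx hz.symm)
  have h0 := hnn y hy
  have h1 : W x y ≤ ∑ y ∈ (cls f (f q)).erase q, W x y :=
    Finset.single_le_sum (f := fun y => W x y) (fun z hz =>
      hnn z (mem_cls.1 (mem_of_mem_erase hz))) (mem_erase.2 ⟨hyq, mem_cls.2 hy⟩)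
  have h2 : W x q + ∑ y ∈ (cls f (f q)).erase q, W x y = ∑ y ∈ cls f (f q), W x y :=
    Finset.add_sum_erase _ _ (mem_cls.2 rfl)
  linarith

/-- the Kempe argument: a lost pair `p₀`, `q₀` -/
theorem kempe (h : OO W k) (hc : Col W f) {a b j : Fin N} (hab : a ≠ b) (haj : a ≠ j)
    (hbj : b ≠ j) {z p₀ q₀ : V} (hz : cls f j = {z}) (hp : f p₀ = a) (hq : f q₀ = b)
    (hpq : W p₀ q₀ = 0) (hza : ∀ y, f y = a → y ≠ p₀ → W z y = 0)
    (hzb : ∀ y, f y = b → y ≠ q₀ → W z y = 0) :
    ∃ p q, f p = a ∧ p ≠ p₀ ∧ f q = b ∧ q ≠ q₀ ∧ 1 ≤ W p q := by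
  classical
  by_contra hcon
  push Not at hcon
  have hfz : f z = j := mem_cls.1 (by rw [hz]; exact mem_singleton_self z)
  have hone : ∀ v, f v = j → v = z := fun v hv => by
    have : v ∈ cls f j := mem_cls.2 hv
    rw [hz] at this
    exact mem_singleton.1 this
  have hcross : ∀ p q, f p = a → p ≠ p₀ → f q = b → q ≠ q₀ → W p q = 0 := by
    intro p q h1 h2 h3 h4
    have h5 := hcon p q h1 h2 h3 h4
    have h6 := h.nn p q (by rintro rfl; exact hab (h1.symm.trans h3))
    omega
  -- the new colouring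
  set g : V → Fin N := fun v => if v = p₀ ∨ v = q₀ then b else
    if f v = a ∨ f v = b ∨ f v = j then a else f v with hg
  have g1 : ∀ v, (v = p₀ ∨ v = q₀) → g v = b := fun v hv => by
    simp only [hg]; rw [if_pos hv]
  have g2 : ∀ v, ¬ (v = p₀ ∨ v = q₀) → (f v = a ∨ f v = b ∨ f v = j) → g v = a := fun v h1 h2 => by
    simp only [hg]; rw [if_neg h1, if_pos h2]
  have g3 : ∀ v, ¬ (v = p₀ ∨ v = q₀) → ¬ (f v = a ∨ f v = b ∨ f v = j) → g v = f v :=
    fun v h1 h2 => by
      simp only [hg]; rw [if_neg h1, if_neg h2]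
  have hmiss : ∀ v, g v ≠ j := by
    intro v
    by_cases h1 : v = p₀ ∨ v = q₀
    · rw [g1 v h1]; exact hbj
    · by_cases h2 : f v = a ∨ f v = b ∨ f v = j
      · rw [g2 v h1 h2]; exact haj
      · rw [g3 v h1 h2]
        exact fun h' => h2 (Or.inr (Or.inr h'))
  have hprp : Prp W g := by
    intro x y hxy hcol
    by_cases hx1 : x = p₀ ∨ x = q₀
    · rw [g1 x hx1] at hcol
      by_cases hy1 : y = p₀ ∨ y = q₀
      · rcases hx1 with hx1 | hx1 <;> rcases hy1 with hy1 | hy1
        · exact absurd (hx1.trans hy1.symm) hxy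
        · rw [hx1, hy1]; exact hpq
        · rw [hx1, hy1, h.symm]; exact hpq
        · exact absurd (hx1.trans hy1.symm) hxy
      · by_cases hy2 : f y = a ∨ f y = b ∨ f y = j
        · rw [g2 y hy1 hy2] at hcol
          exact absurd hcol.symm hab
        · rw [g3 y hy1 hy2] at hcol
          exact absurd (Or.inr (Or.inl hcol.symm)) hy2
    · by_cases hy1 : y = p₀ ∨ y = q₀
      · rw [g1 y hy1] at hcol
        by_cases hx2 : f x = a ∨ f x = b ∨ f x = j
        · rw [g2 x hx1 hx2] at hcol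
          exact absurd hcol hab
        · rw [g3 x hx1 hx2] at hcol
          exact absurd (Or.inr (Or.inl hcol)) hx2
      · by_cases hx2 : f x = a ∨ f x = b ∨ f x = j
        · rw [g2 x hx1 hx2] at hcol
          by_cases hy2 : f y = a ∨ f y = b ∨ f y = j
          · push Not at hx1 hy1
            rcases hx2 with hx2 | hx2 | hx2 <;> rcases hy2 with hy2 | hy2 | hy2
            · exact hc.prop x y hxy (hx2.trans hy2.symm)
            · exact hcross x y hx2 hx1.1 hy2 hy1.2
            · rw [hone y hy2, h.symm]; exact hza x hx2 hx1.1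
            · rw [h.symm]; exact hcross y x hy2 hy1.1 hx2 hx1.2
            · exact hc.prop x y hxy (hx2.trans hy2.symm)
            · rw [hone y hy2, h.symm]; exact hzb x hx2 hx1.2
            · rw [hone x hx2]; exact hza y hy2 hy1.1
            · rw [hone x hx2]; exact hzb y hy2 hy1.2
            · exact hc.prop x y hxy (hx2.trans hy2.symm)
          · rw [g3 y hy1 hy2] at hcol
            exact absurd (Or.inl hcol.symm) hy2
        · rw [g3 x hx1 hx2] at hcol
          by_cases hy2 : f y = a ∨ f y = b ∨ f y = j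
          · rw [g2 y hy1 hy2] at hcol
            exact absurd (Or.inl hcol) hx2
          · rw [g3 y hy1 hy2] at hcol
            exact hc.prop x y hxy hcol
  obtain ⟨v, hv⟩ := hc.min g hprp j
  exact hmiss v hv

/-- the weight between the classes of a lost pair -/
theorem lost_weight (h : OO W k) {a b : Fin N} (hab : a ≠ b) {p₀ q₀ p q : V} (hp : f p₀ = a)
    (hq : f q₀ = b) (hpq : W p₀ q₀ = 0) (hp1 : f p = a) (hp2 : p ≠ p₀) (hq1 : f q = b)
    (hq2 : q ≠ q₀) (hW : 1 ≤ W p q) :
    ∑ y ∈ cls f b, W p₀ y + ∑ x ∈ cls f a, W q₀ x + 1 ≤ push W f a b := by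
  rw [push_eq, ← Finset.add_sum_erase (cls f a) (fun x => ∑ y ∈ cls f b, W x y) (mem_cls.2 hp)]
  beta_reduce
  have hnn : ∀ x y, f x = a → f y = b → 0 ≤ W x y := fun x y hx hy => h.nn x y (by
    rintro rfl
    exact hab (hx.symm.trans hy))
  have h1 : ∀ x ∈ (cls f a).erase p₀, ∑ y ∈ cls f b, W x y =
      W x q₀ + ∑ y ∈ (cls f b).erase q₀, W x y := fun x _ =>
    (Finset.add_sum_erase _ _ (mem_cls.2 hq)).symm
  rw [Finset.sum_congr rfl h1, Finset.sum_add_distrib]
  have h2 : ∑ x ∈ cls f a, W q₀ x = W p₀ q₀ + ∑ x ∈ (cls f a).erase p₀, W x q₀ := by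
    rw [← Finset.add_sum_erase _ _ (mem_cls.2 hp), h.symm q₀ p₀]
    congr 1
    exact Finset.sum_congr rfl fun x _ => h.symm q₀ x
  have h3 : (1 : ℤ) ≤ ∑ x ∈ (cls f a).erase p₀, ∑ y ∈ (cls f b).erase q₀, W x y := by
    have e1 : ∑ y ∈ (cls f b).erase q₀, W p y ≤
        ∑ x ∈ (cls f a).erase p₀, ∑ y ∈ (cls f b).erase q₀, W x y :=
      Finset.single_le_sum (f := fun x => ∑ y ∈ (cls f b).erase q₀, W x y)
        (fun x hx => Finset.sum_nonneg fun y hy =>
          hnn x y (mem_cls.1 (mem_of_mem_erase hx)) (mem_cls.1 (mem_of_mem_erase hy)))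
        (mem_erase.2 ⟨hp2, mem_cls.2 hp1⟩)
    have e2 : W p q ≤ ∑ y ∈ (cls f b).erase q₀, W p y :=
      Finset.single_le_sum (f := fun y => W p y) (fun y hy =>
        hnn p y hp1 (mem_cls.1 (mem_of_mem_erase hy))) (mem_erase.2 ⟨hq2, mem_cls.2 hq1⟩)
    linarith
  rw [h2, hpq]
  linarith

/-- the vertex `α` of the class `b` (the only neighbour there of `p`) sees the vertex `u` -/
theorem side (h : OO W k) (hc : Col W f) {z p α u : V} (hz : cls f (f z) = {z})
    (hpz : f p ≠ f z) (hαp : f α ≠ f p) (hαz : f α ≠ f z) (huz : f u ≠ f z) (hup : f u ≠ f p)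
    (huα : f u ≠ f α) (hzp : 1 ≤ W z p) (hzr : ∑ y ∈ cls f (f p), W z y ≤ 1) (hpα : 1 ≤ W p α)
    (hr : ∑ y ∈ cls f (f α), W p y ≤ 1)
    (hgood : cls f (f u) = {u} ∨ ∃ x, 1 ≤ W u x ∧ cls f (f x) = {x} ∧ f x ≠ f z ∧ f x ≠ f u ∧
      f x ≠ f p ∧ f x ≠ f α ∧ ∑ y ∈ cls f (f u), W x y ≤ 1) : 1 ≤ W u α := by
  have hψ : Col W (swpc f p z) := col_swap h hc hpz hz hzp hzr
  have hcz : cls (swpc f p z) (f z) = {p} := swpc_cls_x hz hpz
  have hcα : cls (swpc f p z) (f α) = cls f (f α) := swpc_cls_ne hαp hαz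
  have hcu : cls (swpc f p z) (f u) = cls f (f u) := swpc_cls_ne hup huz
  have hpne : ∀ v : V, f v ≠ f p → v ≠ p := fun v hv h' => hv (by rw [h'])
  have hzne : ∀ v : V, f v ≠ f z → v ≠ z := fun v hv h' => hv (by rw [h'])
  have hψα : swpc f p z α = f α := swpc_ne f (hpne α hαp) (hzne α hαz)
  have hψu : swpc f p z u = f u := swpc_ne f (hpne u hup) (hzne u huz)
  rcases hgood with h1 | ⟨x, hux, hx, hxz, hxu, hxp, hxα, hxs⟩
  · obtain ⟨v, hv, hvf⟩ := full_vertex h hψ (f α)
    obtain ⟨p', hp', hvp⟩ := hvf (f z) (Ne.symm hαz)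
    have hp'' : p' = p := by
      have : p' ∈ cls (swpc f p z) (f z) := mem_cls.2 hp'
      rw [hcz] at this
      exact mem_singleton.1 this
    rw [hp''] at hvp
    have hvα : f v = f α := by
      have : v ∈ cls (swpc f p z) (f α) := mem_cls.2 hv
      rw [hcα] at this
      exact mem_cls.1 this
    have hveq : v = α := by
      by_contra hne
      have := only_nb h hαp hpα hr v hvα hne
      rw [h.symm] at hvp
      linarith
    obtain ⟨u', hu', hvu⟩ := hvf (f u) (by exact huα)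
    have hu'' : u' = u := by
      have : u' ∈ cls (swpc f p z) (f u) := mem_cls.2 hu'
      rw [hcu, h1] at this
      exact mem_singleton.1 this
    rw [hu'', hveq, h.symm] at hvu
    exact hvu
  · have hψx : swpc f p z x = f x := swpc_ne f (hpne x hxp) (hzne x hxz)
    have hψp : swpc f p z p = f z := swpc_q f p z
    refine exchange h hψ (a := f u) (b := f α) huα (p := u) (q := α) (x := x) (x' := p) hψu hψα
      hux (by rw [h.symm]; exact hpα) ?_ ?_ (fun h' => hxp (by rw [h'])) ?_ ?_ ?_ ?_ ?_ ?_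
    · rw [hψx, swpc_cls_ne hxp hxz, hx]
    · rw [hψp, hcz]
    · rw [hψx]; exact hxu
    · rw [hψx]; exact hxα
    · rw [hψp]; exact Ne.symm huz
    · rw [hψp]; exact Ne.symm hαz
    · rw [hcu]; exact hxs
    · rw [hcα]; exact hr

/-- five vertices with at most five edges -/
theorem inn_five {W : V → V → ℤ} (hs : ∀ i j, W i j = W j i) (h0 : ∀ i, W i i = 0)
    (hle : ∀ i j, W i j ≤ 1) {z p q α β : V} (hinj : Function.Injective ![z, p, q, α, β])
    (h1 : W z α = 0) (h2 : W z β = 0) (h3 : W p β = 0) (h4 : W q α = 0) (h5 : W p q = 0) :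
    ∃ C : Finset V, C.card = 5 ∧ inn W C ≤ 10 ∧ ∀ x, x ∈ C ↔ x = z ∨ x = p ∨ x = q ∨ x = α ∨
      x = β := by
  set c : Fin 5 → V := ![z, p, q, α, β] with hc
  refine ⟨univ.image c, ?_, ?_, ?_⟩
  · rw [Finset.card_image_of_injective _ hinj]
    simp
  · unfold inn
    rw [Finset.sum_image (fun x _ y _ h => hinj h)]
    simp only [Finset.sum_image (fun x _ y _ h => hinj h : Set.InjOn c (univ : Finset (Fin 5)))]
    simp only [Fin.sum_univ_five, hc]
    simp only [Matrix.cons_val_zero, Matrix.cons_val_one, Matrix.cons_val]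
    have e1 := hs p z
    have e2 := hs q z
    have e3 := hs α z
    have e4 := hs β z
    have e5 := hs q p
    have e6 := hs α p
    have e7 := hs β p
    have e8 := hs α q
    have e9 := hs β q
    have e10 := hs β α
    have l1 := hle z p
    have l2 := hle z q
    have l3 := hle p α
    have l4 := hle q β
    have l5 := hle α β
    have d1 := h0 z
    have d2 := h0 p
    have d3 := h0 q
    have d4 := h0 α
    have d5 := h0 β
    linarith
  · intro x
    rw [Finset.mem_image]
    constructor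
    · rintro ⟨i, _, hi⟩
      fin_cases i
      · exact Or.inl hi.symm
      · exact Or.inr (Or.inl hi.symm)
      · exact Or.inr (Or.inr (Or.inl hi.symm))
      · exact Or.inr (Or.inr (Or.inr (Or.inl hi.symm)))
      · exact Or.inr (Or.inr (Or.inr (Or.inr hi.symm)))
    · rintro (h | h | h | h | h)
      · exact ⟨0, mem_univ _, h.symm⟩
      · exact ⟨1, mem_univ _, h.symm⟩
      · exact ⟨2, mem_univ _, h.symm⟩
      · exact ⟨3, mem_univ _, h.symm⟩
      · exact ⟨4, mem_univ _, h.symm⟩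

end

end Pool.Agent.QFO
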