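import Pool.Agent.QFO.Mat
import Pool.Agent.QFO.Col
import Pool.Agent.QFO.Blk
import Pool.Agent.QFO.CritD

/-!
# [QFO-SUR8] three vertices joined to five vertices with few weights, the rest of the classes matched
-/

set_option autoImplicit false
set_option linter.unusedSectionVars false

namespace Pool.Agent.QFO

open Finset Pool.Agent.MP_710317_co.Rec Pool.Agent.MXC

/-- [QFO-SUR8] -/
theorem surplus8 {V : Type*} [Fintype V] [DecidableEq V] {W : V → V → ℤ} {k : V → ℤ} (h : OO W k)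
    {N : ℕ} {f : V → Fin N} (hp : Prp W f) (hk0 : ∀ i, k i = 0) {s : ℤ} (hs : Sb W s)
    {A C : Finset V} (hAC : Disjoint A C) (hA : A.card = 3) (hC : C.card = 5)
    (h1 : ∀ x ∈ A, ∀ y ∈ C, 1 ≤ W x y) (hinn : inn W C ≤ 10) {F : Finset (Fin N)}
    (hF : ∀ x ∈ A ∪ C, f x ∈ F) {τ : Fin N → Fin N} (hτ : ∀ a, τ (τ a) = a)
    (hτF : ∀ a, a ∉ F → τ a ∉ F ∧ τ a ≠ a) :
    14 + ∑ a ∈ Fᶜ, push W f a (τ a) ≤ 2 * s := by
  classical
  have hw : SymK W k := h.toSymK
  have hd : ∀ i, W i i = 0 := fun i => by rw [hw.diag, hk0]; ring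
  set S : Finset V := A ∪ C with hS
  have hCA : ∀ y ∈ C, y ∉ A := fun y hy hyA => (Finset.disjoint_left.1 hAC) hyA hy
  -- the signs on `S`
  set e : V → ℤ := fun i => if i ∈ A then 1 else -1 with he
  have hes : IsSign e := by
    intro i
    simp only [he]
    by_cases h2 : i ∈ A
    · left; rw [if_pos h2]
    · right; rw [if_neg h2]
  have heA : ∀ x ∈ A, e x = 1 := fun x hx => by simp only [he]; rw [if_pos hx]
  have heC : ∀ x ∈ C, e x = -1 := fun x hx => by simp only [he]; rw [if_neg (hCA x hx)]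
  have hAA : ∑ i ∈ A, ∑ j ∈ A, W i j * e i * e j ≤ 6 := by
    have h2 : ∀ i ∈ A, ∑ j ∈ A, W i j * e i * e j ≤ 2 := by
      intro i hi
      rw [← Finset.add_sum_erase A _ hi, hd i]
      have h3 : ∑ j ∈ A.erase i, W i j * e i * e j ≤ ∑ j ∈ A.erase i, (1 : ℤ) := by
        refine Finset.sum_le_sum fun j hj => ?_
        obtain ⟨h4, h5⟩ := mem_erase.1 hj
        rw [heA i hi, heA j h5]
        have h6 := h.le i j (Ne.symm h4)
        rw [hk0, hk0] at h6
        linarith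
      rw [Finset.sum_const, Finset.card_erase_of_mem hi, hA, nsmul_eq_mul] at h3
      push_cast at h3
      linarith
    have h3 := Finset.sum_le_sum h2
    rw [Finset.sum_const, hA, nsmul_eq_mul] at h3
    push_cast at h3
    linarith
  have hCC : ∑ i ∈ C, ∑ j ∈ C, W i j * e i * e j ≤ 10 := by
    refine le_trans (le_of_eq ?_) hinn
    unfold inn
    refine Finset.sum_congr rfl fun i hi => Finset.sum_congr rfl fun j hj => ?_
    rw [heC i hi, heC j hj]
    ring
  have hAC1 : ∑ i ∈ A, ∑ j ∈ C, W i j * e i * e j ≤ -15 := by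
    have h2 : ∑ i ∈ A, ∑ j ∈ C, W i j * e i * e j ≤ ∑ i ∈ A, ∑ j ∈ C, (-1 : ℤ) :=
      Finset.sum_le_sum fun i hi => Finset.sum_le_sum fun j hj => by
        rw [heA i hi, heC j hj]
        have := h1 i hi j hj
        linarith
    rw [Finset.sum_const, Finset.sum_const, hA, hC, nsmul_eq_mul, nsmul_eq_mul] at h2
    push_cast at h2
    linarith
  have hCA1 : ∑ i ∈ C, ∑ j ∈ A, W i j * e i * e j = ∑ i ∈ A, ∑ j ∈ C, W i j * e i * e j := by
    rw [Finset.sum_comm]
    exact Finset.sum_congr rfl fun i _ => Finset.sum_congr rfl fun j _ => by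
      rw [hw.symm j i]; ring
  have hen : 14 ≤ en (msk W S) e := by
    rw [msk_en, hS, Finset.sum_union hAC]
    have h2 : ∑ i ∈ A, ∑ j ∈ A ∪ C, W i j * e i * e j =
        ∑ i ∈ A, ∑ j ∈ A, W i j * e i * e j + ∑ i ∈ A, ∑ j ∈ C, W i j * e i * e j := by
      rw [← Finset.sum_add_distrib]
      exact Finset.sum_congr rfl fun i _ => Finset.sum_union hAC
    have h3 : ∑ i ∈ C, ∑ j ∈ A ∪ C, W i j * e i * e j =
        ∑ i ∈ C, ∑ j ∈ A, W i j * e i * e j + ∑ i ∈ C, ∑ j ∈ C, W i j * e i * e j := by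
      rw [← Finset.sum_add_distrib]
      exact Finset.sum_congr rfl fun i _ => Finset.sum_union hAC
    rw [h2, h3, hCA1]
    linarith
  -- the rest
  set u : V → V → ℤ := msk W Sᶜ with hu
  have huK : SymK u (mkk k Sᶜ) := msk_symK hw Sᶜ
  have hup : Prp u f := by
    intro i j hij hfij
    simp only [hu, msk]
    split
    · exact hp i j hij hfij
    · rfl
  set w' : Fin N → Fin N → ℤ := push u f with hw'
  have hmk : ∀ i, mkk k Sᶜ i = 0 := by
    intro i
    unfold mkk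
    split
    · exact hk0 i
    · rfl
  have hsym : Sym w' := by
    refine ⟨fun a b => push_symm huK.symm f a b, fun a => ?_⟩
    rw [hw', push_diag huK hup a, Finset.sum_eq_zero fun x _ => hmk x, mul_zero]
  -- signs on `F`
  obtain ⟨e₀, he₀, hq⟩ : ∃ e₀ : Fin N → ℤ, IsSign e₀ ∧ 0 ≤ - qs w' F e₀ := by
    have hK' : SymK w' (fun _ => 0) :=
      ⟨hsym.symm, fun i => by rw [hsym.diag]; ring, fun _ => le_rfl⟩
    obtain ⟨b, hb⟩ := inn_even hK' F
    obtain ⟨e₀, he₀, h2⟩ := exists_sign (msk_symK hK' F) (m := b) (by rw [msk_inn, hb])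
    refine ⟨e₀, he₀, ?_⟩
    rw [msk_en] at h2
    have h3 : (0 : ℤ) ≤ ∑ i, mkk (fun _ : Fin N => (0 : ℤ)) F i :=
      Finset.sum_nonneg fun i _ => by unfold mkk; split <;> exact le_rfl
    have h4 := T_nonneg (b + ∑ i, mkk (fun _ : Fin N => (0 : ℤ)) F i)
    unfold qs
    linarith
  obtain ⟨e₁, he₁, -, -, h2⟩ := rel_match hsym τ hτ _ F rfl hτF e₀ he₀
  have h3 : ∑ a ∈ Fᶜ, w' a (τ a) = ∑ a ∈ Fᶜ, push W f a (τ a) := by
    refine Finset.sum_congr rfl fun a ha => ?_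
    have haF : a ∉ F := mem_compl.1 ha
    rw [hw', push_eq, push_eq]
    refine Finset.sum_congr rfl fun x hx => Finset.sum_congr rfl fun y hy => ?_
    have hxS : x ∈ Sᶜ := mem_compl.2 fun h' => haF (by rw [← mem_cls.1 hx]; exact hF x h')
    have hyS : y ∈ Sᶜ := mem_compl.2 fun h' => (hτF a haF).1 (by
      rw [← mem_cls.1 hy]; exact hF y h')
    simp only [hu, msk]
    rw [if_pos ⟨hxS, hyS⟩]
  rw [h3] at h2
  set e₂ : V → ℤ := fun x => e₁ (f x) with he₂
  have he₂s : IsSign e₂ := fun x => he₁ (f x)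
  have h4 : ∑ a ∈ Fᶜ, push W f a (τ a) ≤ en (msk W Sᶜ) e₂ := by
    rw [← hu, he₂, ← push_en u f e₁]
    linarith
  have h5 := hs _ (glue_sign S hes he₂s (Or.inl rfl : (1 : ℤ) = 1 ∨ (1 : ℤ) = -1))
  have h6 := hs _ (glue_sign S hes he₂s (Or.inr rfl : (-1 : ℤ) = 1 ∨ (-1 : ℤ) = -1))
  rw [glue_en hw S (Or.inl rfl)] at h5
  rw [glue_en hw S (Or.inr rfl)] at h6
  linarith

end Pool.Agent.QFO
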