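import Pool.Agent.QFO.NotA4
import Pool.Agent.QFO.Sur8

/-!
# [QFO-NA5] the alternative not (A): the pentagon
-/

set_option autoImplicit false
set_option linter.unusedSectionVars false

namespace Pool.Agent.QFO

open Finset Pool.Agent.MP_710317_co.Rec Pool.Agent.MXC

variable {V : Type*} [Fintype V] [DecidableEq V]

section

variable {W : V → V → ℤ} {k : V → ℤ} {N : ℕ} {f : V → Fin N}

/-- a choice of full vertices -/
structure FV (W : V → V → ℤ) (f : V → Fin N) (fv : Fin N → V) (S : Finset (Fin N)) : Prop where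
  col : ∀ a, f (fv a) = a
  full : ∀ a b, b ≠ a → ∃ u, f u = b ∧ 1 ≤ W (fv a) u
  sg : ∀ i ∈ S, cls f i = {fv i}

theorem FV.row {fv : Fin N → V} {S : Finset (Fin N)} (v : FV W f fv S) {i : Fin N} (hi : i ∈ S)
    (l : Fin N) : push W f i l = ∑ y ∈ cls f l, W (fv i) y := by
  rw [push_eq, v.sg i hi, Finset.sum_singleton]

theorem FV.adj {fv : Fin N → V} {S : Finset (Fin N)} (v : FV W f fv S) {i : Fin N} (hi : i ∈ S)
    {a : Fin N} (hia : i ≠ a) : 1 ≤ W (fv a) (fv i) := by
  obtain ⟨u, hu, hW⟩ := v.full a i hia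
  have : u ∈ cls f i := mem_cls.2 hu
  rw [v.sg i hi, mem_singleton] at this
  rw [this] at hW
  exact hW

theorem FV.adj' {fv : Fin N → V} {S : Finset (Fin N)} (h : OO W k) (v : FV W f fv S) {i : Fin N}
    (hi : i ∈ S) {a : Fin N} (hia : i ≠ a) : 1 ≤ W (fv i) (fv a) := by
  rw [h.symm]
  exact v.adj hi hia

/-- the exchange with the full vertices -/
theorem FV.exch {fv : Fin N → V} {S : Finset (Fin N)} (h : OO W k) (hc : Col W f)
    (v : FV W f fv S) {a b : Fin N} (hab : a ≠ b) {i i' : Fin N} (hi : i ∈ S) (hi' : i' ∈ S)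
    (hii : i ≠ i') (hia : i ≠ a) (hib : i ≠ b) (hi'a : i' ≠ a) (hi'b : i' ≠ b)
    (h1 : push W f i a ≤ 1) (h2 : push W f i' b ≤ 1) : 1 ≤ W (fv a) (fv b) := by
  refine exchange h hc hab (p := fv a) (q := fv b) (x := fv i) (x' := fv i') (v.col a) (v.col b)
    (v.adj hi hia) (v.adj hi' hi'b) ?_ ?_ ?_ ?_ ?_ ?_ ?_ ?_ ?_
  · rw [v.col, v.sg i hi]
  · rw [v.col, v.sg i' hi']
  · intro h'
    exact hii (by rw [← v.col i, ← v.col i', h'])
  · rw [v.col]; exact hia
  · rw [v.col]; exact hib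
  · rw [v.col]; exact hi'a
  · rw [v.col]; exact hi'b
  · rw [← v.row hi]; exact h1
  · rw [← v.row hi']; exact h2

theorem pent_kill (h : OO W k) (hc : Col W f) {s : ℤ} (hs : Sb W s) (hk0 : ∀ i, k i = 0)
    {fv : Fin N → V} {S : Finset (Fin N)} (v : FV W f fv S) {j₀ a b : Fin N} (hj₀ : j₀ ∈ S)
    (haS : a ∉ S) (hbS : b ∉ S) (hab : a ≠ b) (ha1 : push W f j₀ a ≤ 1)
    (hb1 : push W f j₀ b ≤ 1) (hpq : W (fv a) (fv b) = 0)
    (hpr : ∑ y ∈ cls f b, W (fv a) y ≤ 1) (hqr : ∑ y ∈ cls f a, W (fv b) y ≤ 1)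
    {τ : Fin N → Fin N} (hτ : ∀ x, τ (τ x) = x) (hτj : τ j₀ = j₀) (hfp : ∀ x, x ≠ j₀ → τ x ≠ x)
    (hτab : τ a ≠ b) {g : Fin N} (hgj : g ≠ j₀) (hga : g ≠ a) (hgb : g ≠ b) (hgτa : g ≠ τ a)
    (hgτb : g ≠ τ b)
    (hgood : ∀ c, (c = τ a ∨ c = τ b ∨ c = g) → c ∈ S ∨
      (c ∉ S ∧ ∃ i ∈ S, i ≠ j₀ ∧ push W f i c ≤ 1))
    (h2 : ∀ x, τ x ≠ x → push W f x (τ x) = 2) (hsN : s = (N : ℤ) - 1) : False := by
  classical
  have haj : a ≠ j₀ := fun h' => haS (h' ▸ hj₀)
  have hbj : b ≠ j₀ := fun h' => hbS (h' ▸ hj₀)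
  have hWle : ∀ x y, W x y ≤ 1 := by
    intro x y
    by_cases hxy : x = y
    · rw [hxy, h.diag, hk0]; norm_num
    · have := h.le x y hxy
      rw [hk0, hk0] at this
      linarith
  have hW0 : ∀ x, W x x = 0 := fun x => by rw [h.diag, hk0]; ring
  -- the vertices
  obtain ⟨α, hα, hpα⟩ := v.full a b (Ne.symm hab)
  obtain ⟨β, hβ, hqβ⟩ := v.full b a hab
  have hαq : α ≠ fv b := by
    rintro rfl
    rw [hpq] at hpα
    exact absurd hpα (by norm_num)
  have hβp : β ≠ fv a := by
    rintro rfl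
    rw [h.symm, hpq] at hqβ
    exact absurd hqβ (by norm_num)
  have hza : ∀ y, f y = a → y ≠ fv a → W (fv j₀) y = 0 := by
    have := only_nb (f := f) h (x := fv j₀) (q := fv a) (by rw [v.col, v.col]; exact haj)
      (v.adj' h hj₀ (Ne.symm haj)) (by rw [v.col, ← v.row hj₀]; exact ha1)
    rw [v.col] at this
    exact this
  have hzb : ∀ y, f y = b → y ≠ fv b → W (fv j₀) y = 0 := by
    have := only_nb (f := f) h (x := fv j₀) (q := fv b) (by rw [v.col, v.col]; exact hbj)
      (v.adj' h hj₀ (Ne.symm hbj)) (by rw [v.col, ← v.row hj₀]; exact hb1)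
    rw [v.col] at this
    exact this
  have hne : ∀ {x y : V} {c d : Fin N}, f x = c → f y = d → c ≠ d → x ≠ y := by
    intro x y c d hx hy hcd hxy
    exact hcd (by rw [← hx, ← hy, hxy])
  -- the pentagon
  have hinj : Function.Injective ![fv j₀, fv a, fv b, α, β] := by
    have n01 := hne (v.col j₀) (v.col a) (Ne.symm haj)
    have n02 := hne (v.col j₀) (v.col b) (Ne.symm hbj)
    have n03 := hne (v.col j₀) hα (Ne.symm hbj)
    have n04 := hne (v.col j₀) hβ (Ne.symm haj)
    have n12 := hne (v.col a) (v.col b) hab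
    have n13 := hne (v.col a) hα hab
    have n14 := Ne.symm hβp
    have n23 := Ne.symm hαq
    have n24 := hne (v.col b) hβ (Ne.symm hab)
    have n34 := hne hα hβ (Ne.symm hab)
    intro i j hij
    fin_cases i <;> fin_cases j <;> first
      | rfl
      | (exfalso; first
        | exact n01 hij | exact n02 hij | exact n03 hij | exact n04 hij | exact n12 hij
        | exact n13 hij | exact n14 hij | exact n23 hij | exact n24 hij | exact n34 hij
        | exact n01 hij.symm | exact n02 hij.symm | exact n03 hij.symm | exact n04 hij.symm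
        | exact n12 hij.symm | exact n13 hij.symm | exact n14 hij.symm | exact n23 hij.symm
        | exact n24 hij.symm | exact n34 hij.symm)
  obtain ⟨C, hC5, hC10, hCm⟩ := inn_five h.symm hW0 hWle hinj (hzb α hα hαq) (hza β hβ hβp)
    (hc.prop _ _ (Ne.symm hβp) (by rw [v.col, hβ])) (hc.prop _ _ (Ne.symm hαq) (by rw [v.col, hα]))
    hpq
  -- the three further classes
  have hτaj : τ a ≠ j₀ := fun h' => haj (by rw [← hτ a, h', hτj])
  have hτbj : τ b ≠ j₀ := fun h' => hbj (by rw [← hτ b, h', hτj])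
  have hτaa : τ a ≠ a := hfp a haj
  have hτbb : τ b ≠ b := hfp b hbj
  have hτba : τ b ≠ a := fun h' => hτab (by rw [← h', hτ])
  have hτaτb : τ a ≠ τ b := fun h' => hab (by rw [← hτ a, h', hτ])
  have key : ∀ c, (c = τ a ∨ c = τ b ∨ c = g) → ∀ y ∈ C, 1 ≤ W (fv c) y := by
    intro c hcc
    have hcj : c ≠ j₀ := by
      rcases hcc with rfl | rfl | rfl <;> assumption
    have hca : c ≠ a := by
      rcases hcc with rfl | rfl | rfl <;> assumption
    have hcb : c ≠ b := by
      rcases hcc with rfl | rfl | rfl <;> assumption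
    have hg := hgood c hcc
    have hz : 1 ≤ W (fv c) (fv j₀) := v.adj hj₀ (Ne.symm hcj)
    have hp : 1 ≤ W (fv c) (fv a) := by
      rcases hg with hg | ⟨hcS, i, hi, hij, hic⟩
      · exact v.adj' h hg hca
      · exact v.exch h hc hca hi hj₀ hij (fun h' => hcS (h' ▸ hi)) (fun h' => haS (h' ▸ hi))
          (Ne.symm hcj) (Ne.symm haj) hic ha1
    have hq : 1 ≤ W (fv c) (fv b) := by
      rcases hg with hg | ⟨hcS, i, hi, hij, hic⟩
      · exact v.adj' h hg hcb
      · exact v.exch h hc hcb hi hj₀ hij (fun h' => hcS (h' ▸ hi)) (fun h' => hbS (h' ▸ hi))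
          (Ne.symm hcj) (Ne.symm hbj) hic hb1
    have hα1 : 1 ≤ W (fv c) α := by
      refine side (z := fv j₀) (p := fv a) h hc ?_ ?_ ?_ ?_ ?_ ?_ ?_ ?_ ?_ hpα ?_ ?_
      · rw [v.col, v.sg j₀ hj₀]
      · rw [v.col, v.col]; exact haj
      · rw [hα, v.col]; exact Ne.symm hab
      · rw [hα, v.col]; exact hbj
      · rw [v.col, v.col]; exact hcj
      · rw [v.col, v.col]; exact hca
      · rw [v.col, hα]; exact hcb
      · exact v.adj' h hj₀ (Ne.symm haj)
      · rw [v.col, ← v.row hj₀]; exact ha1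
      · rw [hα]; exact hpr
      · rcases hg with hg | ⟨hcS, i, hi, hij, hic⟩
        · left
          rw [v.col, v.sg c hg]
        · right
          have hic' : i ≠ c := fun h' => hcS (h' ▸ hi)
          refine ⟨fv i, v.adj hi hic', ?_, ?_, ?_, ?_, ?_, ?_⟩
          · rw [v.col, v.sg i hi]
          · rw [v.col, v.col]; exact hij
          · rw [v.col, v.col]; exact hic'
          · rw [v.col, v.col]; exact fun h' => haS (h' ▸ hi)
          · rw [v.col, hα]; exact fun h' => hbS (h' ▸ hi)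
          · rw [v.col, ← v.row hi]; exact hic
    have hβ1 : 1 ≤ W (fv c) β := by
      refine side (z := fv j₀) (p := fv b) h hc ?_ ?_ ?_ ?_ ?_ ?_ ?_ ?_ ?_ hqβ ?_ ?_
      · rw [v.col, v.sg j₀ hj₀]
      · rw [v.col, v.col]; exact hbj
      · rw [hβ, v.col]; exact hab
      · rw [hβ, v.col]; exact haj
      · rw [v.col, v.col]; exact hcj
      · rw [v.col, v.col]; exact hcb
      · rw [v.col, hβ]; exact hca
      · exact v.adj' h hj₀ (Ne.symm hbj)
      · rw [v.col, ← v.row hj₀]; exact hb1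
      · rw [hβ]; exact hqr
      · rcases hg with hg | ⟨hcS, i, hi, hij, hic⟩
        · left
          rw [v.col, v.sg c hg]
        · right
          have hic' : i ≠ c := fun h' => hcS (h' ▸ hi)
          refine ⟨fv i, v.adj hi hic', ?_, ?_, ?_, ?_, ?_, ?_⟩
          · rw [v.col, v.sg i hi]
          · rw [v.col, v.col]; exact hij
          · rw [v.col, v.col]; exact hic'
          · rw [v.col, v.col]; exact fun h' => hbS (h' ▸ hi)
          · rw [v.col, hβ]; exact fun h' => haS (h' ▸ hi)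
          · rw [v.col, ← v.row hi]; exact hic
    intro y hy
    rcases (hCm y).1 hy with rfl | rfl | rfl | rfl | rfl <;> assumption
  have hfvinj : ∀ {c d : Fin N}, c ≠ d → fv c ≠ fv d := fun {c d} hcd h' =>
    hcd (by rw [← v.col c, ← v.col d, h'])
  set A : Finset V := {fv (τ a), fv (τ b), fv g} with hA
  have hA3 : A.card = 3 := by
    rw [hA]
    exact Finset.card_eq_three.2 ⟨_, _, _, hfvinj hτaτb, hfvinj (Ne.symm hgτa),
      hfvinj (Ne.symm hgτb), rfl⟩
  have hAm : ∀ x ∈ A, ∃ c, (c = τ a ∨ c = τ b ∨ c = g) ∧ x = fv c := by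
    intro x hx
    rw [hA, mem_insert, mem_insert, mem_singleton] at hx
    rcases hx with hx | hx | hx
    · exact ⟨_, Or.inl rfl, hx⟩
    · exact ⟨_, Or.inr (Or.inl rfl), hx⟩
    · exact ⟨_, Or.inr (Or.inr rfl), hx⟩
  have hAC1 : ∀ x ∈ A, ∀ y ∈ C, 1 ≤ W x y := by
    intro x hx y hy
    obtain ⟨c, hc', rfl⟩ := hAm x hx
    exact key c hc' y hy
  have hAC : Disjoint A C := by
    rw [Finset.disjoint_left]
    intro x hx hx2
    have := hAC1 x hx x hx2
    rw [hW0] at this
    exact absurd this (by norm_num)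
  set F : Finset (Fin N) := {j₀, a, b, τ a, τ b, g, τ g} with hF
  have hF7 : F.card ≤ 7 :=
    (Finset.card_insert_le _ _).trans (Nat.succ_le_succ Finset.card_le_six)
  have hFm : ∀ x ∈ A ∪ C, f x ∈ F := by
    intro x hx
    rcases mem_union.1 hx with hx | hx
    · obtain ⟨c, hc', rfl⟩ := hAm x hx
      rw [v.col, hF]
      rcases hc' with rfl | rfl | rfl <;> simp
    · rw [hF]
      rcases (hCm x).1 hx with rfl | rfl | rfl | rfl | rfl
      · rw [v.col]; simp
      · rw [v.col]; simp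
      · rw [v.col]; simp
      · rw [hα]; simp
      · rw [hβ]; simp
  have hFτ : ∀ c, c ∉ F → τ c ∉ F ∧ τ c ≠ c := by
    intro c hcF
    have hcj : c ≠ j₀ := fun h' => hcF (by rw [h', hF]; simp)
    refine ⟨fun h' => hcF ?_, hfp c hcj⟩
    have hcc : c = τ (τ c) := (hτ c).symm
    rw [hF] at h' ⊢
    simp only [mem_insert, mem_singleton] at h' ⊢
    rcases h' with h' | h' | h' | h' | h' | h' | h'
    · left; rw [hcc, h', hτj]
    · right; right; right; left; rw [hcc, h']
    · right; right; right; right; left; rw [hcc, h']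
    · right; left; rw [hcc, h', hτ]
    · right; right; left; rw [hcc, h', hτ]
    · right; right; right; right; right; right; rw [hcc, h']
    · right; right; right; right; right; left; rw [hcc, h', hτ]
  have fin := surplus8 h hc.prop hk0 hs hAC hA3 hC5 hAC1 hC10 hFm hτ hFτ
  have hsum : ∑ c ∈ Fᶜ, push W f c (τ c) = 2 * (Fᶜ.card : ℤ) := by
    rw [Finset.sum_congr rfl (fun c hc' => h2 c (hFτ c (mem_compl.1 hc')).2), Finset.sum_const,
      nsmul_eq_mul]
    ring
  have hcard : F.card + Fᶜ.card = N := by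
    have := Finset.card_add_card_compl F
    rw [Fintype.card_fin] at this
    exact this
  omega

end

end Pool.Agent.QFO
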