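import Pool.Agent.QFO.CData
import Pool.Agent.QFO.LTab
import Pool.Agent.QFO.VTab

/-!
# [QFO-NumD] the numerical part: `N ≤ T m` forces `m < 168`; all but a few cases are impossible
-/

set_option autoImplicit false
set_option linter.unusedSectionVars false

namespace Pool.Agent.QFO

open Finset Pool.Agent.MP_710317_co.Rec Pool.Agent.MXC Pool.Agent.QMA

/-- the greatest `p ≤ n` with `p (p - 1) ≤ 2 f` -/
def pmx (f : ℕ) : ℕ → ℕ
  | 0 => 0
  | n + 1 =>
    match Nat.ble (Nat.mul (Nat.succ n) n) (Nat.mul 2 f) with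
    | true => Nat.succ n
    | false => pmx f n

theorem le_pmx (f : ℕ) : ∀ {n p : ℕ}, p ≤ n → p * (p - 1) ≤ 2 * f → p ≤ pmx f n
  | 0, p, h, _ => by
    have : p = 0 := by omega
    rw [this]; exact Nat.zero_le _
  | n + 1, p, h, h2 => by
    unfold pmx
    rcases hb : Nat.ble (Nat.mul (Nat.succ n) n) (Nat.mul 2 f) with _ | _
    · simp only
      refine le_pmx f ?_ h2
      by_contra hcon
      have e : p = n + 1 := by omega
      rw [e] at h2
      have h3 : Nat.ble (Nat.mul (Nat.succ n) n) (Nat.mul 2 f) = true :=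
        Nat.ble_eq_true_of_le (by simpa using h2)
      rw [hb] at h3
      exact absurd h3 (by decide)
    · simp only
      exact h

/-- the vertex level data with difference `d` and `KA` loops are impossible -/
def vok (s U K N d KA : ℕ) : Bool :=
  force (Nat.add (Nat.div (Nat.add U d) 2) KA) fun f1 =>
  force (Nat.div (Nat.sub (Nat.add U (Nat.mul 2 (Nat.sub K KA))) d) 2) fun f2 =>
  Nat.beq (Nat.mod (Nat.add U d) 2) 1 || Nat.ble (Nat.succ s) (Nat.add d (Nat.mul 2 KA)) ||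
  Nat.ble (Nat.succ (Nat.add U (Nat.mul 2 (Nat.sub K KA)))) d ||
  Nat.ble (Nat.succ s) (Nat.add (Nat.add (tab f1) (tab f2)) K) ||
  Nat.ble (Nat.succ (Nat.add (pmx f1 20) (pmx f2 20))) N ||
  !(Nat.ble (Nat.mul 2 f1) (Nat.mul (Nat.sub s d) (Nat.sub (Nat.sub s d) 1)) ||
    Nat.ble (Nat.succ (Nat.mul 2 d)) s ||
    Nat.ble (Nat.mul (Nat.sub (Nat.succ (Nat.mul 2 d)) s) s) (Nat.mul 2 f1))

/-- the class level data with difference `d`, `KA` loops and `p` classes are impossible -/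
def cok (s U K N d KA p : ℕ) : Bool :=
  Nat.beq (Nat.mod (Nat.add U d) 2) 1 ||
  Nat.ble (Nat.succ (Nat.add U (Nat.mul 2 (Nat.sub K KA)))) d ||
  Nat.ble (Nat.succ s) (Nat.add (Nat.add (Lt p (Nat.add (Nat.div (Nat.add U d) 2) KA))
    (Lt (Nat.sub N p) (Nat.div (Nat.sub (Nat.add U (Nat.mul 2 (Nat.sub K KA))) d) 2))) K)

/-- the exceptional cases of the `D` part -/
def excD (m K N : ℕ) : Bool :=
  Nat.beq m 5 ||
  (Nat.beq m 7 && Nat.beq N 3 && Nat.beq K 0) ||
  (Nat.beq m 19 && Nat.beq N 5 && Nat.ble K 1) ||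
  (Nat.beq m 50 && Nat.beq N 8 && Nat.beq K 0) ||
  (Nat.beq m 73 && Nat.beq N 9 && Nat.beq K 0) ||
  (Nat.beq m 74 && Nat.beq N 9 && Nat.ble K 1) ||
  (Nat.beq m 74 && Nat.beq N 10 && Nat.ble K 1) ||
  (Nat.beq m 75 && Nat.beq N 9 && Nat.beq K 0) ||
  (Nat.beq m 128 && Nat.beq N 11 && Nat.beq K 0) ||
  (Nat.beq m 128 && Nat.beq N 12 && Nat.beq K 0) ||
  (Nat.beq m 132 && Nat.beq N 12 && Nat.beq K 0)

/-- the exceptional cases of the `B` part -/
def excB' (m K N : ℕ) : Bool :=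
  (Nat.beq m 26 && Nat.beq N 6 && Nat.beq K 0) ||
  (Nat.beq m 41 && Nat.beq N 7 && Nat.ble K 1) ||
  (Nat.beq m 86 && Nat.beq N 9 && Nat.beq K 0) ||
  (Nat.beq m 86 && Nat.beq N 10 && Nat.beq K 0) ||
  (Nat.beq m 113 && Nat.beq N 11 && Nat.beq K 0)

def dchk (m : ℕ) : Bool :=
  force (tab m) fun s => force (Nat.div (Nat.sub m s) 2) fun U => force (Dt m) fun D =>
  chk (fun K => !(Nat.beq (Nat.add (tab (Nat.add m K)) K) s) ||
    (Nat.ble (Nat.succ (Nat.add m K)) 180 &&
    chk (fun N => Nat.ble (Nat.succ s) (Nat.add (Lt N (Nat.add m K)) K) || excD m K N ||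
      chk (fun i => chk (fun KA => vok s U K N (Nat.add (Nat.succ D) i) KA) (Nat.succ K))
        (Nat.sub s D) ||
      chk (fun i => chk (fun KA => chk (fun p => cok s U K N (Nat.add (Nat.succ D) i) KA p)
        (Nat.succ N)) (Nat.succ K)) (Nat.sub s D)) (Nat.succ s))) (Nat.succ s)

def bchk (m : ℕ) : Bool :=
  force (tab m) fun s => force (Nat.div (Nat.sub m s) 2) fun U => force (Bt m) fun B =>
  chk (fun K => !(Nat.beq (Nat.add (tab (Nat.add m K)) K) s) ||
    (Nat.ble (Nat.succ (Nat.add m K)) 180 &&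
    chk (fun N => Nat.ble (Nat.succ s) (Nat.add (Lt N (Nat.add m K)) K) || excB' m K N ||
      chk (fun d => chk (fun KA => chk (fun p => cok s U K N d KA p)
        (Nat.succ N)) (Nat.succ K)) B) (Nat.succ s))) (Nat.succ s)

theorem dchk_all : chk (fun m => dchk (Nat.succ m)) 167 = true := by
  decide +kernel

theorem bchk_all : chk (fun m => bchk (Nat.succ m)) 167 = true := by
  decide +kernel

/-- `T m qf(T m) < m` for `m ≥ 168` -/
theorem sq_chk : chk (fun m => Nat.ble (Nat.succ (Nat.mul (tab (Nat.add m 168))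
    (qf (tab (Nat.add m 168))))) (Nat.add m 168)) 1232 = true := by
  decide +kernel

theorem qf_le (N : ℕ) : qf N ≤ N := by
  unfold qf
  split <;> omega

theorem qf_mono {N M : ℕ} (h : N ≤ M) : qf N ≤ qf M := by
  unfold qf
  split <;> split <;> omega

theorem T_sq_lt {m : ℕ} (hm : 168 ≤ m) {t : ℕ} (ht : T m = t) : t * qf t < m := by
  rcases Nat.lt_or_ge m 1400 with h | h
  · have h1 := chk_all sq_chk (m - 168) (by omega)
    have e : Nat.add (m - 168) 168 = m := by
      show m - 168 + 168 = m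
      omega
    rw [e] at h1
    have h2 : tab m * qf (tab m) + 1 ≤ m := Nat.le_of_ble_eq_true h1
    rw [T_eq_tab m h] at ht
    have h3 : tab m = t := by exact_mod_cast ht
    rw [h3] at h2
    omega
  · have h1 := T_sq2 m
    have h' : (1400 : ℤ) ≤ m := by exact_mod_cast h
    rw [ht] at h1
    have h2 : (t : ℤ) * t < m := by nlinarith
    have h3 : t * t < m := by exact_mod_cast h2
    have h4 : t * qf t ≤ t * t := Nat.mul_le_mul_left t (qf_le t)
    omega

/-- `N ≤ T m` forces `m < 168` -/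
theorem m_small {m N : ℕ} {K : ℤ} (hK : 0 ≤ K) (hKT : K ≤ T m) (hN : (N : ℤ) ≤ T m)
    (h : (m : ℤ) + K ≤ (T m - K) * qf N) : m < 168 := by
  by_contra hcon
  obtain ⟨t, ht⟩ := Int.eq_ofNat_of_zero_le (T_nonneg (m : ℤ))
  have h1 := T_sq_lt (by omega) ht
  rw [ht] at h hN hKT
  have h2 : N ≤ t := by exact_mod_cast hN
  have h3 : (qf N : ℤ) ≤ qf t := by exact_mod_cast qf_mono h2
  have h4 : (0 : ℤ) ≤ qf N := Int.natCast_nonneg _
  have h5 : ((t : ℤ) - K) * qf N ≤ t * qf t := by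
    have h6 : ((t : ℤ) - K) * qf N ≤ t * qf N := by nlinarith
    have h7 : (t : ℤ) * qf N ≤ t * qf t := by
      apply mul_le_mul_of_nonneg_left h3
      positivity
    linarith
  have h6 : ((t * qf t : ℕ) : ℤ) < (m : ℤ) := by exact_mod_cast h1
  push_cast at h6
  linarith

theorem not_true {b : Bool} (h : b = true) (h' : b = false) : False := by
  rw [h] at h'
  exact absurd h' (by decide)

theorem ble_false {a b : ℕ} (h : b < a) : Nat.ble a b = false := by
  rcases hb : Nat.ble a b with _ | _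
  · rfl
  · have := Nat.le_of_ble_eq_true hb
    omega

theorem beq_false {a b : ℕ} (h : a ≠ b) : Nat.beq a b = false := by
  rcases hb : Nat.beq a b with _ | _
  · rfl
  · exact absurd (Nat.eq_of_beq_eq_true hb) h

theorem vok_spec {s U K N d KA f1 f2 : ℕ} (h : vok s U K N d KA = true)
    (hf1 : 2 * f1 = U + d + 2 * KA) (hf2 : 2 * f2 + d = U + 2 * (K - KA))
    (h1 : d + 2 * KA ≤ s) (hblk : tab f1 + tab f2 + K ≤ s) {p q : ℕ} (hpq : N ≤ p + q)
    (hp : p * (p - 1) ≤ 2 * f1) (hq : q * (q - 1) ≤ 2 * f2) (hp2 : p ≤ 20) (hq2 : q ≤ 20)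
    (hU : 2 * f1 ≤ (s - d) * (s - d - 1) ∨ 2 * d < s ∨ (2 * d + 1 - s) * s ≤ 2 * f1) : False := by
  have e1 : Nat.add (Nat.div (Nat.add U d) 2) KA = f1 := by
    show (U + d) / 2 + KA = f1
    omega
  have e2 : Nat.div (Nat.sub (Nat.add U (Nat.mul 2 (Nat.sub K KA))) d) 2 = f2 := by
    show (U + 2 * (K - KA) - d) / 2 = f2
    omega
  unfold vok at h
  rw [force_eq, force_eq, e1, e2] at h
  have h3 : Nat.beq (Nat.mod (Nat.add U d) 2) 1 = false := beq_false (by
    show (U + d) % 2 ≠ 1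
    omega)
  have h4 : Nat.ble (Nat.succ s) (Nat.add d (Nat.mul 2 KA)) = false := ble_false (by
    show d + 2 * KA < s + 1
    omega)
  have h5 : Nat.ble (Nat.succ (Nat.add U (Nat.mul 2 (Nat.sub K KA)))) d = false := ble_false (by
    show d < U + 2 * (K - KA) + 1
    omega)
  have h6 : Nat.ble (Nat.succ s) (Nat.add (Nat.add (tab f1) (tab f2)) K) = false := ble_false (by
    show tab f1 + tab f2 + K < s + 1
    omega)
  have hp3 := le_pmx f1 hp2 hp
  have hq3 := le_pmx f2 hq2 hq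
  have h7 : Nat.ble (Nat.succ (Nat.add (pmx f1 20) (pmx f2 20))) N = false := ble_false (by
    show N < pmx f1 20 + pmx f2 20 + 1
    omega)
  rw [h3, h4, h5, h6, h7] at h
  simp only [Bool.false_or] at h
  have h8 : (Nat.ble (Nat.mul 2 f1) (Nat.mul (Nat.sub s d) (Nat.sub (Nat.sub s d) 1)) ||
    Nat.ble (Nat.succ (Nat.mul 2 d)) s ||
    Nat.ble (Nat.mul (Nat.sub (Nat.succ (Nat.mul 2 d)) s) s) (Nat.mul 2 f1)) = true := by
    rw [Bool.or_eq_true, Bool.or_eq_true]
    rcases hU with hU | hU | hU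
    · exact Or.inl (Or.inl (Nat.ble_eq_true_of_le hU))
    · exact Or.inl (Or.inr (Nat.ble_eq_true_of_le hU))
    · exact Or.inr (Nat.ble_eq_true_of_le hU)
  rw [h8] at h
  exact absurd h (by decide)

theorem cok_spec {s U K N d KA p f1 f2 : ℕ} (h : cok s U K N d KA p = true)
    (hf1 : 2 * f1 = U + d + 2 * KA) (hf2 : 2 * f2 + d = U + 2 * (K - KA))
    (hblk : Lt p f1 + Lt (N - p) f2 + K ≤ s) : False := by
  have e1 : Nat.add (Nat.div (Nat.add U d) 2) KA = f1 := by
    show (U + d) / 2 + KA = f1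
    omega
  have e2 : Nat.div (Nat.sub (Nat.add U (Nat.mul 2 (Nat.sub K KA))) d) 2 = f2 := by
    show (U + 2 * (K - KA) - d) / 2 = f2
    omega
  unfold cok at h
  rw [e1, e2] at h
  have h3 : Nat.beq (Nat.mod (Nat.add U d) 2) 1 = false := beq_false (by
    show (U + d) % 2 ≠ 1
    omega)
  have h5 : Nat.ble (Nat.succ (Nat.add U (Nat.mul 2 (Nat.sub K KA)))) d = false := ble_false (by
    show d < U + 2 * (K - KA) + 1
    omega)
  have h6 : Nat.ble (Nat.succ s) (Nat.add (Nat.add (Lt p f1) (Lt (Nat.sub N p) f2)) K) = false :=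
    ble_false (by
      show Lt p f1 + Lt (N - p) f2 + K < s + 1
      omega)
  rw [h3, h5, h6] at h
  exact absurd h (by decide)

end Pool.Agent.QFO
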