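import Pool.Agent.QFO.Blk

/-!
# [QFO-A] the pair lemma
-/

set_option autoImplicit false
set_option linter.unusedSectionVars false

namespace Pool.Agent.QFO

open Finset Pool.Agent.MP_710317_co.Rec Pool.Agent.MXC

variable {V : Type*} [Fintype V] [DecidableEq V]

/-- balanced signs on `F` -/
theorem bal (F : Finset V) : ∃ φ : V → ℤ, IsSign φ ∧
    (∑ i ∈ F, φ i) * (∑ i ∈ F, φ i) ≤ ((F.card % 2 : ℕ) : ℤ) := by
  obtain ⟨F', hF', hc⟩ := Finset.exists_subset_card_eq (s := F) (n := F.card / 2) (Nat.div_le_self _ _)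
  refine ⟨sg F', sg_sign F', ?_⟩
  have h1 : ∑ i ∈ F, sg F' i = 2 * ((F.card / 2 : ℕ) : ℤ) - F.card := by
    have h2 : ∀ i ∈ F, sg F' i = 2 * (if i ∈ F' then 1 else 0) - 1 := by
      intro i _
      unfold sg
      by_cases h : i ∈ F'
      · rw [if_pos h, if_pos h]; norm_num
      · rw [if_neg h, if_neg h]; norm_num
    rw [Finset.sum_congr rfl h2, Finset.sum_sub_distrib, ← Finset.mul_sum, Finset.sum_ite_mem,
      Finset.inter_eq_right.2 hF', Finset.sum_const, Finset.sum_const, hc]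
    simp
  rw [h1]
  have h3 := Nat.div_add_mod F.card 2
  have h4 : 2 * ((F.card / 2 : ℕ) : ℤ) - F.card = - ((F.card % 2 : ℕ) : ℤ) := by omega
  rw [h4]
  rcases Nat.mod_two_eq_zero_or_one F.card with h5 | h5 <;> rw [h5] <;> norm_num

/-- splitting of `en` -/
theorem en_split {W : V → V → ℤ} {k : V → ℤ} (hw : SymK W k) (C : Finset V) (e : V → ℤ) :
    en W e = - ∑ i ∈ C, ∑ j ∈ C, W i j * e i * e j -
      2 * ∑ i ∈ C, ∑ j ∈ Cᶜ, W i j * e i * e j - ∑ i ∈ Cᶜ, ∑ j ∈ Cᶜ, W i j * e i * e j := by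
  unfold en
  rw [← Finset.sum_add_sum_compl C]
  have h1 : ∀ i, ∑ j, W i j * e i * e j =
      ∑ j ∈ C, W i j * e i * e j + ∑ j ∈ Cᶜ, W i j * e i * e j := fun i =>
    (Finset.sum_add_sum_compl C _).symm
  rw [Finset.sum_congr rfl fun i _ => h1 i, Finset.sum_congr rfl fun i _ => h1 i,
    Finset.sum_add_distrib, Finset.sum_add_distrib]
  have h2 : ∑ i ∈ Cᶜ, ∑ j ∈ C, W i j * e i * e j = ∑ i ∈ C, ∑ j ∈ Cᶜ, W i j * e i * e j := by
    rw [Finset.sum_comm]
    exact Finset.sum_congr rfl fun i _ => Finset.sum_congr rfl fun j _ => by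
      rw [hw.symm j i]; ring
  rw [h2]
  ring

/-- a complete set -/
theorem clique_sum {W : V → V → ℤ} {C : Finset V} (h1 : ∀ i ∈ C, ∀ j ∈ C, i ≠ j → W i j = 1)
    (h0 : ∀ i ∈ C, W i i = 0) {e : V → ℤ} (he : IsSign e) :
    ∑ i ∈ C, ∑ j ∈ C, W i j * e i * e j = (∑ i ∈ C, e i) * (∑ i ∈ C, e i) - C.card := by
  have h2 : ∀ i ∈ C, ∑ j ∈ C, W i j * e i * e j = e i * (∑ j ∈ C, e j) - 1 := by
    intro i hi
    have h3 : ∀ j ∈ C, W i j * e i * e j = e i * e j - (if i = j then 1 else 0) := by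
      intro j hj
      by_cases h : i = j
      · rw [if_pos h, ← h, h0 i hi, sign_sq he]; ring
      · rw [if_neg h, h1 i hi j hj h]; ring
    rw [Finset.sum_congr rfl h3, Finset.sum_sub_distrib, ← Finset.mul_sum, Finset.sum_ite_eq,
      if_pos hi]
  rw [Finset.sum_congr rfl h2, Finset.sum_sub_distrib, ← Finset.sum_mul]
  simp

/-- [QFO-A] the pair lemma: `C` a complete set without loops, `x`, `f x` (`x ∈ X`) disjoint pairs in `C`
with different rows outside `C`. -/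
theorem pair_lemma {W : V → V → ℤ} {k : V → ℤ} (hw : SymK W k) {s : ℤ} (hs : Sb W s)
    {C : Finset V} (h1 : ∀ i ∈ C, ∀ j ∈ C, i ≠ j → W i j = 1) (hk : ∀ i ∈ C, k i = 0)
    {X : Finset V} (hX : X ⊆ C) (f : V → V) (hfC : ∀ x ∈ X, f x ∈ C) (hfX : ∀ x ∈ X, f x ∉ X)
    (hinj : Set.InjOn f X) (hd : ∀ x ∈ X, ∃ z, z ∉ C ∧ W x z ≠ W (f x) z) :
    (C.card : ℤ) - ((C.card % 2 : ℕ) : ℤ) + 2 * X.card + 2 * ∑ i, k i ≤ 2 * s := by
  classical
  -- the signs outside `C`
  set g : V → V → ℤ := fun u z => if u ∈ X then W u z - W (f u) z else 0 with hg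
  obtain ⟨e₀, he₀, hgen⟩ := gen_lemma (off_sym hw) g Cᶜ
  have hcard : (univ.filter fun u => ∃ x ∈ Cᶜ, g u x ≠ 0) = X := by
    ext u
    simp only [mem_filter, mem_univ, true_and, hg, mem_compl]
    constructor
    · rintro ⟨x, _, hx⟩
      by_contra hu
      rw [if_neg hu] at hx
      exact hx rfl
    · intro hu
      obtain ⟨z, hz, hne⟩ := hd u hu
      exact ⟨z, hz, by rw [if_pos hu]; exact sub_ne_zero.2 hne⟩
  rw [hcard] at hgen
  -- the orientation of the pairs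
  set Gs : V → ℤ := fun x => ∑ z ∈ Cᶜ, (W x z - W (f x) z) * e₀ z with hGs
  set σ : V → ℤ := fun x => if 0 ≤ Gs x then -1 else 1 with hσ
  have hσs : IsSign σ := by
    intro x
    simp only [hσ]
    by_cases h : 0 ≤ Gs x
    · rw [if_pos h]; exact Or.inr rfl
    · rw [if_neg h]; exact Or.inl rfl
  have hσG : ∀ x, σ x * Gs x = - |Gs x| := by
    intro x
    simp only [hσ]
    by_cases h : 0 ≤ Gs x
    · rw [if_pos h, abs_of_nonneg h]; ring
    · rw [if_neg h, abs_of_neg (not_le.1 h)]; ring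
  -- the fixed part
  set fX : Finset V := X.image f with hfXdef
  set F : Finset V := C \ (X ∪ fX) with hF
  have hfXC : fX ⊆ C := by
    intro y hy
    obtain ⟨x, hx, rfl⟩ := mem_image.1 hy
    exact hfC x hx
  have hdisj : Disjoint X fX := by
    rw [Finset.disjoint_left]
    intro y hy hy'
    obtain ⟨x, hx, rfl⟩ := mem_image.1 hy'
    exact hfX x hx hy
  have hdisj2 : Disjoint (X ∪ fX) F := Finset.disjoint_sdiff
  have hunion : (X ∪ fX) ∪ F = C := Finset.union_sdiff_of_subset (union_subset hX hfXC)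
  have hfXcard : fX.card = X.card := Finset.card_image_of_injOn hinj
  have hCcard : C.card = 2 * X.card + F.card := by
    rw [← hunion, Finset.card_union_of_disjoint hdisj2, Finset.card_union_of_disjoint hdisj, hfXcard]
    ring
  obtain ⟨φ, hφ, hφb⟩ := bal F
  -- the cross term of the fixed part
  set R : ℤ := ∑ i ∈ F, φ i * ∑ z ∈ Cᶜ, W i z * e₀ z with hR
  obtain ⟨τ, hτ, hτR⟩ : ∃ τ : ℤ, (τ = 1 ∨ τ = -1) ∧ τ * R ≤ 0 := by
    rcases le_total 0 R with h | h
    · exact ⟨-1, Or.inr rfl, by linarith⟩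
    · exact ⟨1, Or.inl rfl, by linarith⟩
  set gi : V → V := fun y => if h : ∃ x ∈ X, f x = y then h.choose else y with hgi
  have hgif : ∀ x ∈ X, gi (f x) = x := by
    intro x hx
    have h : ∃ x' ∈ X, f x' = f x := ⟨x, hx, rfl⟩
    simp only [hgi]
    rw [dif_pos h]
    exact hinj h.choose_spec.1 hx h.choose_spec.2
  set e : V → ℤ := fun i => if i ∈ C then (if i ∈ X then σ i else if i ∈ fX then - σ (gi i) else
    τ * φ i) else e₀ i with he
  have heX : ∀ i ∈ X, e i = σ i := fun i hi => by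
    simp only [he]; rw [if_pos (hX hi), if_pos hi]
  have hefX : ∀ x ∈ X, e (f x) = - σ x := fun x hx => by
    simp only [he]
    rw [if_pos (hfC x hx), if_neg (hfX x hx), if_pos (mem_image_of_mem f hx), hgif x hx]
  have heF : ∀ i ∈ F, e i = τ * φ i := fun i hi => by
    obtain ⟨h2, h3⟩ := mem_sdiff.1 hi
    simp only [he]
    rw [if_pos h2, if_neg (fun h => h3 (mem_union_left _ h)),
      if_neg (fun h => h3 (mem_union_right _ h))]
  have heZ : ∀ i ∈ Cᶜ, e i = e₀ i := fun i hi => by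
    simp only [he]; rw [if_neg (mem_compl.1 hi)]
  have hesign : IsSign e := by
    intro i
    simp only [he]
    by_cases h2 : i ∈ C
    · rw [if_pos h2]
      by_cases h3 : i ∈ X
      · rw [if_pos h3]; exact hσs i
      · rw [if_neg h3]
        by_cases h4 : i ∈ fX
        · rw [if_pos h4]
          rcases hσs (gi i) with h5 | h5
          · rw [h5]; exact Or.inr rfl
          · rw [h5]; exact Or.inl (by norm_num)
        · rw [if_neg h4]
          rcases hτ with h5 | h5 <;> rcases hφ i with h6 | h6 <;> rw [h5, h6] <;> norm_num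
    · rw [if_neg h2]; exact he₀ i
  -- sums over `C`
  have hsumC : ∀ ψ : V → ℤ, ∑ i ∈ C, ψ i = ∑ x ∈ X, (ψ x + ψ (f x)) + ∑ i ∈ F, ψ i := by
    intro ψ
    rw [← hunion, Finset.sum_union hdisj2, Finset.sum_union hdisj, Finset.sum_add_distrib,
      Finset.sum_image hinj]
  have hsum1 : ∑ i ∈ C, e i = τ * ∑ i ∈ F, φ i := by
    rw [hsumC, Finset.mul_sum, Finset.sum_congr rfl heF]
    have : ∑ x ∈ X, (e x + e (f x)) = 0 := Finset.sum_eq_zero fun x hx => by
      rw [heX x hx, hefX x hx]; ring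
    rw [this, zero_add]
  have hcross : ∑ i ∈ C, ∑ j ∈ Cᶜ, W i j * e i * e j = - ∑ x ∈ X, |Gs x| + τ * R := by
    have h2 : ∀ i, ∑ j ∈ Cᶜ, W i j * e i * e j = e i * ∑ z ∈ Cᶜ, W i z * e₀ z := by
      intro i
      rw [Finset.mul_sum]
      exact Finset.sum_congr rfl fun j hj => by rw [heZ j hj]; ring
    rw [Finset.sum_congr rfl fun i _ => h2 i, hsumC, ← Finset.sum_neg_distrib, hR, Finset.mul_sum]
    congr 1
    · refine Finset.sum_congr rfl fun x hx => ?_
      rw [heX x hx, hefX x hx, ← hσG x, hGs]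
      simp only [sub_mul]
      rw [Finset.sum_sub_distrib]
      ring
    · exact Finset.sum_congr rfl fun i hi => by rw [heF i hi]; ring
  have hin : ∑ i ∈ Cᶜ, ∑ j ∈ Cᶜ, W i j * e i * e j =
      ∑ i ∈ Cᶜ, ∑ j ∈ Cᶜ, off W i j * e₀ i * e₀ j - 2 * ∑ i ∈ Cᶜ, k i := by
    rw [Finset.mul_sum, ← Finset.sum_sub_distrib]
    refine Finset.sum_congr rfl fun i hi => ?_
    have h2 := off_row hw e₀ Cᶜ i
    rw [if_pos hi] at h2
    have h3 : ∑ j ∈ Cᶜ, off W i j * e₀ i * e₀ j = e₀ i * ∑ j ∈ Cᶜ, off W i j * e₀ j := by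
      rw [Finset.mul_sum]
      exact Finset.sum_congr rfl fun j _ => by ring
    have h4 : ∑ j ∈ Cᶜ, W i j * e i * e j = e₀ i * ∑ j ∈ Cᶜ, W i j * e₀ j := by
      rw [Finset.mul_sum]
      exact Finset.sum_congr rfl fun j hj => by rw [heZ i hi, heZ j hj]; ring
    rw [h3, h4, h2]
    have := sign_sq he₀ i
    linear_combination (-2 * k i) * this
  have hKsum : ∑ i, k i = ∑ i ∈ Cᶜ, k i := by
    rw [← Finset.sum_add_sum_compl C, Finset.sum_eq_zero hk, zero_add]
  have hgenX : ∑ u, |∑ x ∈ Cᶜ, g u x * e₀ x| = ∑ x ∈ X, |Gs x| := by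
    have h2 : ∀ u, |∑ x ∈ Cᶜ, g u x * e₀ x| = if u ∈ X then |Gs u| else 0 := by
      intro u
      by_cases h : u ∈ X
      · rw [if_pos h, hGs]
        simp only [hg, if_pos h]
      · rw [if_neg h]
        simp [hg, h]
    rw [Finset.sum_congr rfl fun u _ => h2 u, Finset.sum_ite_mem, Finset.univ_inter]
  have hWii : ∀ i ∈ C, W i i = 0 := fun i hi => by rw [hw.diag, hk i hi]; ring
  have hfin := hs e hesign
  rw [en_split hw C, clique_sum h1 hWii hesign, hsum1, hcross, hin] at hfin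
  rw [hgenX] at hgen
  rw [hKsum]
  have hτ2 : τ * τ = 1 := by rcases hτ with h | h <;> rw [h] <;> norm_num
  have hmod : C.card % 2 = F.card % 2 := by omega
  rw [hmod]
  have h6 : τ * (∑ i ∈ F, φ i) * (τ * ∑ i ∈ F, φ i) = (∑ i ∈ F, φ i) * (∑ i ∈ F, φ i) := by
    linear_combination ((∑ i ∈ F, φ i) * (∑ i ∈ F, φ i)) * hτ2
  rw [h6] at hfin
  linarith

end Pool.Agent.QFO
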