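import Pool.Agent.QFO.Twins

/-!
# [QFO-A odd] the pair lemma and the twins for `|C|` odd (`|C| ≥ 2 t + 1`)
-/

set_option autoImplicit false
set_option linter.unusedSectionVars false

namespace Pool.Agent.QFO

open Finset Pool.Agent.MP_710317_co.Rec Pool.Agent.MXC

variable {V : Type*} [Fintype V] [DecidableEq V]

/-- [QFO-A odd] the pair lemma for `|C|` odd: `C` a complete set without loops, `x`, `f x` (`x ∈ X`) disjoint
pairs in `C` with different rows outside `C`, and one more vertex `c₀` with a nonzero row outside `C`. -/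
theorem pair_lemma_odd {W : V → V → ℤ} {k : V → ℤ} (hw : SymK W k) {s : ℤ} (hs : Sb W s)
    {C : Finset V} (h1 : ∀ i ∈ C, ∀ j ∈ C, i ≠ j → W i j = 1) (hk : ∀ i ∈ C, k i = 0)
    {X : Finset V} (hX : X ⊆ C) (f : V → V) (hfC : ∀ x ∈ X, f x ∈ C) (hfX : ∀ x ∈ X, f x ∉ X)
    (hinj : Set.InjOn f X) (hd : ∀ x ∈ X, ∃ z, z ∉ C ∧ W x z ≠ W (f x) z)
    (hodd : C.card % 2 = 1) {c₀ : V} (hc₀ : c₀ ∈ C) (hc₀X : c₀ ∉ X) (hc₀f : ∀ x ∈ X, f x ≠ c₀)
    (hz : ∃ z, z ∉ C ∧ W c₀ z ≠ 0) :
    (C.card : ℤ) - 1 + 2 * (X.card + 1) + 2 * ∑ i, k i ≤ 2 * s := by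
  classical
  -- the signs outside `C`
  set g : V → V → ℤ := fun u z => if u = c₀ then W u z else
    if u ∈ X then W u z - W (f u) z else 0 with hg
  obtain ⟨e₀, he₀, hgen⟩ := gen_lemma (off_sym hw) g Cᶜ
  have hcard : (univ.filter fun u => ∃ x ∈ Cᶜ, g u x ≠ 0) = insert c₀ X := by
    ext u
    simp only [mem_filter, mem_univ, true_and, hg, mem_compl, mem_insert]
    constructor
    · rintro ⟨x, _, hx⟩
      by_contra hu
      push Not at hu
      rw [if_neg hu.1, if_neg hu.2] at hx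
      exact hx rfl
    · rintro (hu | hu)
      · obtain ⟨z, hz1, hz2⟩ := hz
        exact ⟨z, hz1, by rw [if_pos hu, hu]; exact hz2⟩
      · obtain ⟨z, hz, hne⟩ := hd u hu
        exact ⟨z, hz, by rw [if_neg (fun h => hc₀X (by rw [← h]; exact hu)), if_pos hu]; exact sub_ne_zero.2 hne⟩
  rw [hcard, Finset.card_insert_of_notMem hc₀X] at hgen
  -- the orientation of the pairs
  set Gs : V → ℤ := fun x => if x = c₀ then ∑ z ∈ Cᶜ, W x z * e₀ z else
    ∑ z ∈ Cᶜ, (W x z - W (f x) z) * e₀ z with hGs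
  set σ : V → ℤ := fun x => if 0 ≤ Gs x then -1 else 1 with hσ
  have hσs : IsSign σ := by
    intro x
    simp only [hσ]
    by_cases h : 0 ≤ Gs x
    · rw [if_pos h]; exact Or.inr rfl
    · rw [if_neg h]; exact Or.inl rfl
  have hσG : ∀ x, σ x * Gs x = - |Gs x| := by
    intro x
    simp only [hσ]
    by_cases h : 0 ≤ Gs x
    · rw [if_pos h, abs_of_nonneg h]; ring
    · rw [if_neg h, abs_of_neg (not_le.1 h)]; ring
  -- the fixed part
  set fX : Finset V := X.image f with hfXdef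
  set F : Finset V := (C \ (X ∪ fX)).erase c₀ with hF
  have hfXC : fX ⊆ C := by
    intro y hy
    obtain ⟨x, hx, rfl⟩ := mem_image.1 hy
    exact hfC x hx
  have hdisj : Disjoint X fX := by
    rw [Finset.disjoint_left]
    intro y hy hy'
    obtain ⟨x, hx, rfl⟩ := mem_image.1 hy'
    exact hfX x hx hy
  have hc₀fX : c₀ ∉ fX := by
    intro h
    obtain ⟨x, hx, h2⟩ := mem_image.1 h
    exact hc₀f x hx h2
  have hc₀m : c₀ ∈ C \ (X ∪ fX) := mem_sdiff.2 ⟨hc₀, fun h => (mem_union.1 h).elim hc₀X hc₀fX⟩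
  have hFi : insert c₀ F = C \ (X ∪ fX) := Finset.insert_erase hc₀m
  have hc₀F : c₀ ∉ F := Finset.notMem_erase _ _
  have hdisj2 : Disjoint (X ∪ fX) (insert c₀ F) := by
    rw [hFi]; exact Finset.disjoint_sdiff
  have hunion : (X ∪ fX) ∪ insert c₀ F = C := by
    rw [hFi]; exact Finset.union_sdiff_of_subset (union_subset hX hfXC)
  have hfXcard : fX.card = X.card := Finset.card_image_of_injOn hinj
  have hCcard : C.card = 2 * X.card + (F.card + 1) := by
    rw [← hunion, Finset.card_union_of_disjoint hdisj2, Finset.card_union_of_disjoint hdisj, hfXcard,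
      Finset.card_insert_of_notMem hc₀F]
    ring
  obtain ⟨φ, hφ, hφb⟩ := bal F
  -- the cross term of the fixed part
  set R : ℤ := ∑ i ∈ F, φ i * ∑ z ∈ Cᶜ, W i z * e₀ z with hR
  obtain ⟨τ, hτ, hτR⟩ : ∃ τ : ℤ, (τ = 1 ∨ τ = -1) ∧ τ * R ≤ 0 := by
    rcases le_total 0 R with h | h
    · exact ⟨-1, Or.inr rfl, by linarith⟩
    · exact ⟨1, Or.inl rfl, by linarith⟩
  set gi : V → V := fun y => if h : ∃ x ∈ X, f x = y then h.choose else y with hgi
  have hgif : ∀ x ∈ X, gi (f x) = x := by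
    intro x hx
    have h : ∃ x' ∈ X, f x' = f x := ⟨x, hx, rfl⟩
    simp only [hgi]
    rw [dif_pos h]
    exact hinj h.choose_spec.1 hx h.choose_spec.2
  set e : V → ℤ := fun i => if i ∈ C then (if i = c₀ then σ i else if i ∈ X then σ i else
    if i ∈ fX then - σ (gi i) else τ * φ i) else e₀ i with he
  have hec : e c₀ = σ c₀ := by
    simp only [he]; rw [if_pos hc₀]; simp
  have heX : ∀ i ∈ X, e i = σ i := fun i hi => by
    simp only [he]; rw [if_pos (hX hi), if_neg (fun h => hc₀X (by rw [← h]; exact hi)), if_pos hi]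
  have hefX : ∀ x ∈ X, e (f x) = - σ x := fun x hx => by
    simp only [he]
    rw [if_pos (hfC x hx), if_neg (hc₀f x hx), if_neg (hfX x hx), if_pos (mem_image_of_mem f hx),
      hgif x hx]
  have heF : ∀ i ∈ F, e i = τ * φ i := fun i hi => by
    obtain ⟨h1', h2'⟩ := mem_erase.1 hi
    obtain ⟨h2, h3⟩ := mem_sdiff.1 h2'
    simp only [he]
    rw [if_pos h2, if_neg h1', if_neg (fun h => h3 (mem_union_left _ h)),
      if_neg (fun h => h3 (mem_union_right _ h))]
  have heZ : ∀ i ∈ Cᶜ, e i = e₀ i := fun i hi => by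
    simp only [he]; rw [if_neg (mem_compl.1 hi)]
  have hesign : IsSign e := by
    intro i
    simp only [he]
    by_cases h2 : i ∈ C
    · rw [if_pos h2]
      by_cases h3' : i = c₀
      · rw [if_pos h3']; exact hσs i
      rw [if_neg h3']
      by_cases h3 : i ∈ X
      · rw [if_pos h3]; exact hσs i
      · rw [if_neg h3]
        by_cases h4 : i ∈ fX
        · rw [if_pos h4]
          rcases hσs (gi i) with h5 | h5
          · rw [h5]; exact Or.inr rfl
          · rw [h5]; exact Or.inl (by norm_num)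
        · rw [if_neg h4]
          rcases hτ with h5 | h5 <;> rcases hφ i with h6 | h6 <;> rw [h5, h6] <;> norm_num
    · rw [if_neg h2]; exact he₀ i
  -- sums over `C`
  have hsumC : ∀ ψ : V → ℤ, ∑ i ∈ C, ψ i =
      ∑ x ∈ X, (ψ x + ψ (f x)) + (ψ c₀ + ∑ i ∈ F, ψ i) := by
    intro ψ
    rw [← hunion, Finset.sum_union hdisj2, Finset.sum_union hdisj, Finset.sum_add_distrib,
      Finset.sum_image hinj, Finset.sum_insert hc₀F]
  have hF0 : ∑ i ∈ F, φ i = 0 := by
    have h2 : F.card % 2 = 0 := by omega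
    rw [h2] at hφb
    push_cast at hφb
    nlinarith [mul_self_nonneg (∑ i ∈ F, φ i)]
  have hsum1 : ∑ i ∈ C, e i = σ c₀ := by
    rw [hsumC, Finset.sum_congr rfl heF, ← Finset.mul_sum, hF0, hec]
    have : ∑ x ∈ X, (e x + e (f x)) = 0 := Finset.sum_eq_zero fun x hx => by
      rw [heX x hx, hefX x hx]; ring
    rw [this]
    ring
  have hcross : ∑ i ∈ C, ∑ j ∈ Cᶜ, W i j * e i * e j =
      - ∑ x ∈ X, |Gs x| - |Gs c₀| + τ * R := by
    have h2 : ∀ i, ∑ j ∈ Cᶜ, W i j * e i * e j = e i * ∑ z ∈ Cᶜ, W i z * e₀ z := by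
      intro i
      rw [Finset.mul_sum]
      exact Finset.sum_congr rfl fun j hj => by rw [heZ j hj]; ring
    rw [Finset.sum_congr rfl fun i _ => h2 i, hsumC, ← Finset.sum_neg_distrib, hR]
    have h3 : ∑ x ∈ X, (e x * ∑ z ∈ Cᶜ, W x z * e₀ z + e (f x) * ∑ z ∈ Cᶜ, W (f x) z * e₀ z) =
        ∑ x ∈ X, -|Gs x| := by
      refine Finset.sum_congr rfl fun x hx => ?_
      rw [heX x hx, hefX x hx, ← hσG x]
      simp only [hGs]
      rw [if_neg (fun h => hc₀X (by rw [← h]; exact hx))]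
      simp only [sub_mul]
      rw [Finset.sum_sub_distrib]
      ring
    have h4 : e c₀ * ∑ z ∈ Cᶜ, W c₀ z * e₀ z = -|Gs c₀| := by
      rw [hec, ← hσG c₀]
      simp only [hGs, if_true]
    have h5 : ∑ i ∈ F, e i * ∑ z ∈ Cᶜ, W i z * e₀ z =
        ∑ i ∈ F, τ * (φ i * ∑ z ∈ Cᶜ, W i z * e₀ z) :=
      Finset.sum_congr rfl fun i hi => by rw [heF i hi]; ring
    rw [h3, h4, h5, ← Finset.mul_sum]
    ring
  have hin : ∑ i ∈ Cᶜ, ∑ j ∈ Cᶜ, W i j * e i * e j =
      ∑ i ∈ Cᶜ, ∑ j ∈ Cᶜ, off W i j * e₀ i * e₀ j - 2 * ∑ i ∈ Cᶜ, k i := by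
    rw [Finset.mul_sum, ← Finset.sum_sub_distrib]
    refine Finset.sum_congr rfl fun i hi => ?_
    have h2 := off_row hw e₀ Cᶜ i
    rw [if_pos hi] at h2
    have h3 : ∑ j ∈ Cᶜ, off W i j * e₀ i * e₀ j = e₀ i * ∑ j ∈ Cᶜ, off W i j * e₀ j := by
      rw [Finset.mul_sum]
      exact Finset.sum_congr rfl fun j _ => by ring
    have h4 : ∑ j ∈ Cᶜ, W i j * e i * e j = e₀ i * ∑ j ∈ Cᶜ, W i j * e₀ j := by
      rw [Finset.mul_sum]
      exact Finset.sum_congr rfl fun j hj => by rw [heZ i hi, heZ j hj]; ring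
    rw [h3, h4, h2]
    have := sign_sq he₀ i
    linear_combination (-2 * k i) * this
  have hKsum : ∑ i, k i = ∑ i ∈ Cᶜ, k i := by
    rw [← Finset.sum_add_sum_compl C, Finset.sum_eq_zero hk, zero_add]
  have hgenX : ∑ u, |∑ x ∈ Cᶜ, g u x * e₀ x| = |Gs c₀| + ∑ x ∈ X, |Gs x| := by
    have h2 : ∀ u, |∑ x ∈ Cᶜ, g u x * e₀ x| = if u ∈ insert c₀ X then |Gs u| else 0 := by
      intro u
      by_cases h0 : u = c₀
      · rw [if_pos (by rw [h0]; exact mem_insert_self _ _)]
        simp only [hg, hGs, if_pos h0]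
      · by_cases h : u ∈ X
        · rw [if_pos (mem_insert_of_mem h)]
          simp only [hg, hGs, if_neg h0, if_pos h]
        · rw [if_neg (by rw [mem_insert]; tauto)]
          simp [hg, h, h0]
    rw [Finset.sum_congr rfl fun u _ => h2 u, Finset.sum_ite_mem, Finset.univ_inter,
      Finset.sum_insert hc₀X]
  have hWii : ∀ i ∈ C, W i i = 0 := fun i hi => by rw [hw.diag, hk i hi]; ring
  have hfin := hs e hesign
  rw [en_split hw C, clique_sum h1 hWii hesign, hsum1, hcross, hin] at hfin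
  rw [hgenX] at hgen
  rw [hKsum]
  have hτ2 : τ * τ = 1 := by rcases hτ with h | h <;> rw [h] <;> norm_num
  have h6 : σ c₀ * σ c₀ = 1 := by rcases hσs c₀ with h | h <;> rw [h] <;> norm_num
  rw [h6] at hfin
  push_cast at hgen
  linarith


/-- Pairs with different values of `ρ`: if every set of disjoint pairs of elements of `C` with different values
has at most `t` pairs and `|C| ≥ 2 t + 2`, then all but at most `t` elements of `C` have the same value. -/
theorem row_match {ι : Type*} [Fintype ι] [DecidableEq ι] {α : Type*} (ρ : ι → α) (C : Finset ι)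
    (ix : ι → ℕ) (hix : Function.Injective ix) {t : ℤ}
    (hp : ∀ X ⊆ C, ∀ f : ι → ι, (∀ x ∈ X, f x ∈ C ∧ f x ∉ X ∧ ix x < ix (f x) ∧ ρ x ≠ ρ (f x)) →
      Set.InjOn f X → (X.card : ℤ) ≤ t) (hC : 2 * t + 2 ≤ C.card) :
    ∃ L ⊆ C, (C.card : ℤ) - t ≤ L.card ∧ L.Nonempty ∧ ∀ i ∈ L, ∀ j ∈ L, ρ i = ρ j := by
  classical
  set u : ι → ι → ℤ := fun i j => if i ∈ C ∧ j ∈ C ∧ ρ i ≠ ρ j then 1 else 0 with hu
  have usym : Sym u := by
    refine ⟨fun i j => ?_, fun i => ?_⟩
    · simp only [hu]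
      have : (i ∈ C ∧ j ∈ C ∧ ρ i ≠ ρ j) ↔ (j ∈ C ∧ i ∈ C ∧ ρ j ≠ ρ i) :=
        ⟨fun h => ⟨h.2.1, h.1, h.2.2.symm⟩, fun h => ⟨h.2.1, h.1, h.2.2.symm⟩⟩
      simp only [this]
    · simp [hu]
  have u0 : ∀ i j, 0 ≤ u i j := fun i j => by simp only [hu]; split <;> norm_num
  have upos : ∀ i j, 0 < u i j ↔ i ∈ C ∧ j ∈ C ∧ ρ i ≠ ρ j := by
    intro i j
    simp only [hu]
    by_cases h : i ∈ C ∧ j ∈ C ∧ ρ i ≠ ρ j
    · rw [if_pos h]; simp [h]
    · rw [if_neg h]; simp only [lt_irrefl, false_iff]; exact h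
  obtain ⟨τ, hτ⟩ := exists_maxPM u
  have hinv := hτ.pm.inv
  set X : Finset ι := univ.filter fun i => τ i ≠ i ∧ ix i < ix (τ i) with hX
  have hXmem : ∀ x ∈ X, τ x ≠ x ∧ ix x < ix (τ x) := fun x hx => (mem_filter.1 hx).2
  have hXd : ∀ x ∈ X, x ∈ C ∧ τ x ∈ C ∧ ρ x ≠ ρ (τ x) := fun x hx =>
    (upos x (τ x)).1 (hτ.pm.pos x (hXmem x hx).1)
  have hτX : ∀ x ∈ X, τ x ∉ X := by
    intro x hx hx'
    have h2 := (hXmem x hx).2
    have h3 := (hXmem _ hx').2
    rw [hinv] at h3
    exact lt_asymm h2 h3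
  have hinj : Set.InjOn τ (X : Set ι) := fun x _ y _ h => by rw [← hinv x, h, hinv]
  have hXt : (X.card : ℤ) ≤ t := hp X (fun x hx => (hXd x hx).1) τ
    (fun x hx => ⟨(hXd x hx).2.1, hτX x hx, (hXmem x hx).2, (hXd x hx).2.2⟩) hinj
  -- the fixed points in `C`
  set F : Finset ι := C.filter fun i => τ i = i with hF
  have hnf : ∀ i, τ i ≠ i → i ∈ X ∨ τ i ∈ X := by
    intro i hi
    rcases lt_trichotomy (ix i) (ix (τ i)) with h | h | h
    · left; exact mem_filter.2 ⟨mem_univ _, hi, h⟩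
    · exact absurd (hix h).symm hi
    · right
      refine mem_filter.2 ⟨mem_univ _, ?_, ?_⟩
      · rw [hinv]; exact hi.symm
      · rw [hinv]; exact h
  have hFcard : (C.card : ℤ) ≤ F.card + 2 * X.card := by
    have h2 : C ⊆ F ∪ (X ∪ X.image τ) := by
      intro i hi
      by_cases h : τ i = i
      · exact mem_union_left _ (mem_filter.2 ⟨hi, h⟩)
      · refine mem_union_right _ ?_
        rcases hnf i h with h3 | h3
        · exact mem_union_left _ h3
        · refine mem_union_right _ (mem_image.2 ⟨τ i, h3, hinv i⟩)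
    have h3 := card_le_card h2
    have h4 := card_union_le F (X ∪ X.image τ)
    have h5 := card_union_le X (X.image τ)
    have h6 := card_image_le (s := X) (f := τ)
    have h7 : C.card ≤ F.card + 2 * X.card := by omega
    exact_mod_cast h7
  have hF2 : 1 < F.card := by
    have : (2 : ℤ) ≤ F.card := by linarith
    have h2 : 2 ≤ F.card := by exact_mod_cast this
    omega
  obtain ⟨x₀, hx₀, x₁, hx₁, h01⟩ := Finset.one_lt_card.1 hF2
  obtain ⟨hx₀C, hx₀τ⟩ := mem_filter.1 hx₀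
  obtain ⟨hx₁C, hx₁τ⟩ := mem_filter.1 hx₁
  have hrow : ∀ y ∈ F, ρ y = ρ x₀ := by
    intro y hy
    obtain ⟨hyC, hyτ⟩ := mem_filter.1 hy
    by_contra hne
    have h2 := maxPM_indep usym u0 hτ hyτ hx₀τ
    have h3 := (upos y x₀).2 ⟨hyC, hx₀C, hne⟩
    rw [h2] at h3
    exact lt_irrefl _ h3
  -- at most one element of every pair is bad
  set Bd : Finset ι := C.filter fun i => ρ i ≠ ρ x₀ with hBd
  have hone : ∀ i, i ∈ Bd → τ i ≠ i → τ i ∉ Bd := by
    intro i hi hτi hi'
    obtain ⟨hiC, hne⟩ := mem_filter.1 hi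
    obtain ⟨hiC', hne'⟩ := mem_filter.1 hi'
    refine maxPM_aug usym hτ hτi hx₀τ hx₁τ h01 ⟨(upos _ _).2 ⟨hiC, hx₀C, hne⟩,
      (upos _ _).2 ⟨hiC', hx₁C, ?_⟩⟩
    rw [hrow x₁ hx₁]
    exact hne'
  have hBdnf : ∀ i ∈ Bd, τ i ≠ i := by
    intro i hi hτi
    obtain ⟨hiC, hne⟩ := mem_filter.1 hi
    exact hne (hrow i (mem_filter.2 ⟨hiC, hτi⟩))
  have hBdcard : Bd.card ≤ X.card := by
    refine Finset.card_le_card_of_injOn (fun i => if i ∈ X then i else τ i) ?_ ?_
    · intro i hi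
      have hi' : i ∈ Bd := hi
      show (if i ∈ X then i else τ i) ∈ (X : Set ι)
      by_cases h : i ∈ X
      · rw [if_pos h]; exact h
      · rw [if_neg h]
        exact (hnf i (hBdnf i hi')).resolve_left h
    · intro i hi j hj hij
      have hi' : i ∈ Bd := hi
      have hj' : j ∈ Bd := hj
      simp only at hij
      by_cases h2 : i ∈ X
      · by_cases h3 : j ∈ X
        · rwa [if_pos h2, if_pos h3] at hij
        · rw [if_pos h2, if_neg h3] at hij
          exact absurd (hij ▸ hi') (hone j hj' (hBdnf j hj'))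
      · by_cases h3 : j ∈ X
        · rw [if_neg h2, if_pos h3] at hij
          exact absurd (hij ▸ hj') (hone i hi' (hBdnf i hi'))
        · rw [if_neg h2, if_neg h3] at hij
          rw [← hinv i, hij, hinv]
  refine ⟨C \ Bd, sdiff_subset, ?_, ⟨x₀, mem_sdiff.2 ⟨hx₀C, ?_⟩⟩, ?_⟩
  · have h2 : (C \ Bd).card + Bd.card = C.card :=
      Finset.card_sdiff_add_card_eq_card (filter_subset _ _)
    have h3 : ((C \ Bd).card : ℤ) + Bd.card = C.card := by exact_mod_cast h2
    have h4 : (Bd.card : ℤ) ≤ X.card := by exact_mod_cast hBdcard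
    linarith
  · intro h
    exact (mem_filter.1 h).2 rfl
  · have hgood : ∀ i ∈ C \ Bd, ρ i = ρ x₀ := by
      intro i hi
      obtain ⟨hiC, hiB⟩ := mem_sdiff.1 hi
      by_contra hne
      exact hiB (mem_filter.2 ⟨hiC, hne⟩)
    intro i hi j hj
    rw [hgood i hi, hgood j hj]

/-- [QFO-A2 odd] `C` complete without loops, `|C|` odd, `2 s ≤ |C| - 1 + 2 K + 2 t` and `|C| ≥ 2 t + 1`: all but
at most `t - 1` vertices of `C` have the same row outside `C`, or all but at most `t` have the row `0`. -/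
theorem twins_odd {W : V → V → ℤ} {k : V → ℤ} (hw : SymK W k) {s t : ℤ} (hs : Sb W s)
    {C : Finset V} (h1 : ∀ i ∈ C, ∀ j ∈ C, i ≠ j → W i j = 1) (hk : ∀ i ∈ C, k i = 0)
    (hodd : C.card % 2 = 1) (ht : 2 * s ≤ (C.card : ℤ) - 1 + 2 * ∑ i, k i + 2 * t)
    (hC : 2 * t + 1 ≤ C.card) :
    (∃ L ⊆ C, (C.card : ℤ) + 1 - t ≤ L.card ∧ L.Nonempty ∧
      ∀ i ∈ L, ∀ j ∈ L, ∀ z, z ∉ C → W i z = W j z) ∨
    ∃ L ⊆ C, (C.card : ℤ) - t ≤ L.card ∧ ∀ i ∈ L, ∀ z, z ∉ C → W i z = 0 := by
  classical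
  set ρ : Option V → V → ℤ := fun o z => match o with
    | none => 0
    | some i => if z ∈ C then 0 else W i z with hρ
  have hρs : ∀ i z, z ∉ C → ρ (some i) z = W i z := fun i z hz => by simp only [hρ]; rw [if_neg hz]
  have hρC : ∀ i z, z ∈ C → ρ (some i) z = 0 := fun i z hz => by simp only [hρ]; rw [if_pos hz]
  have hρn : ∀ z, ρ none z = 0 := fun z => rfl
  set ix : Option V → ℕ := fun o => match o with
    | none => Fintype.card V
    | some i => (Fintype.equivFin V i : ℕ) with hix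
  have hixn : ∀ i, ix (some i) < ix none := fun i => (Fintype.equivFin V i).2
  have hixinj : Function.Injective ix := by
    intro a b hab
    cases a with
    | none => cases b with
      | none => rfl
      | some b => exact absurd hab (ne_of_gt (hixn b))
    | some a => cases b with
      | none => exact absurd hab (ne_of_lt (hixn a))
      | some b =>
        have h2 : (Fintype.equivFin V a : ℕ) = (Fintype.equivFin V b : ℕ) := hab
        exact congrArg some ((Fintype.equivFin V).injective (Fin.ext h2))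
  have hcard : (Finset.insertNone C).card = C.card + 1 := Finset.card_insertNone C
  obtain ⟨L', hL', hLc, hLn, hLr⟩ := row_match ρ (Finset.insertNone C) ix hixinj (t := t) (by
    intro X hX f hf hinj
    have hnX : none ∉ X := fun h => by
      have h2 := (hf none h).2.2.1
      cases h3 : f none with
      | none => rw [h3] at h2; exact lt_irrefl _ h2
      | some a => rw [h3] at h2; exact lt_asymm h2 (hixn a)
    set X₀ : Finset V := Finset.eraseNone X with hX₀
    have hmem : ∀ x, x ∈ X₀ ↔ some x ∈ X := fun x => Finset.mem_eraseNone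
    have hX₀c : X₀.card = X.card := by
      have h2 := Finset.map_some_eraseNone X
      rw [Finset.erase_eq_of_notMem hnX] at h2
      rw [← h2, Finset.card_map]
    have hCm : ∀ {x : V}, some x ∈ Finset.insertNone C ↔ x ∈ C := fun {x} =>
      Finset.some_mem_insertNone
    set f₀ : V → V := fun x => (f (some x)).getD x with hf₀
    have hf₀s : ∀ x ∈ X₀, f (some x) ≠ none → f (some x) = some (f₀ x) := by
      intro x _ h
      simp only [hf₀]
      cases h2 : f (some x) with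
      | none => exact absurd h2 h
      | some a => rfl
    -- the properties of the pairs without `none`
    have hprop : ∀ x ∈ X₀, f (some x) ≠ none → f₀ x ∈ C ∧ f₀ x ∉ X₀ ∧
        ∃ z, z ∉ C ∧ W x z ≠ W (f₀ x) z := by
      intro x hx h
      have h2 := hf (some x) ((hmem x).1 hx)
      rw [hf₀s x hx h] at h2
      refine ⟨hCm.1 h2.1, fun h3 => h2.2.1 ((hmem _).1 h3), ?_⟩
      by_contra hcon
      push Not at hcon
      apply h2.2.2.2
      funext z
      by_cases hz : z ∈ C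
      · rw [hρC _ _ hz, hρC _ _ hz]
      · rw [hρs _ _ hz, hρs _ _ hz, hcon z hz]
    have hX₀C : X₀ ⊆ C := fun x hx => hCm.1 (hX ((hmem x).1 hx))
    have hinj₀ : ∀ x ∈ X₀, ∀ y ∈ X₀, f (some x) ≠ none → f (some y) ≠ none → f₀ x = f₀ y → x = y := by
      intro x hx y hy h2 h3 h4
      have h5 : f (some x) = f (some y) := by
        rw [hf₀s x hx h2, hf₀s y hy h3, h4]
      exact Option.some_injective _ (hinj (mem_coe.2 ((hmem x).1 hx)) (mem_coe.2 ((hmem y).1 hy)) h5)
    by_cases hc : ∃ x ∈ X₀, f (some x) = none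
    · obtain ⟨c₀, hc₀, hc₀n⟩ := hc
      have hne : ∀ x ∈ X₀.erase c₀, f (some x) ≠ none := by
        intro x hx h
        obtain ⟨h2, h3⟩ := mem_erase.1 hx
        exact h2 (Option.some_injective _ (hinj (mem_coe.2 ((hmem x).1 h3))
          (mem_coe.2 ((hmem c₀).1 hc₀)) (h.trans hc₀n.symm)))
      have hz : ∃ z, z ∉ C ∧ W c₀ z ≠ 0 := by
        have h2 := (hf (some c₀) ((hmem c₀).1 hc₀)).2.2.2
        rw [hc₀n] at h2
        by_contra hcon
        push Not at hcon
        apply h2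
        funext z
        by_cases hz : z ∈ C
        · rw [hρC _ _ hz, hρn z]
        · rw [hρs _ _ hz, hρn z, hcon z hz]
      have h3 := pair_lemma_odd hw hs h1 hk (X := X₀.erase c₀)
        (fun x hx => hX₀C (mem_of_mem_erase hx)) f₀
        (fun x hx => (hprop x (mem_of_mem_erase hx) (hne x hx)).1)
        (fun x hx h => (hprop x (mem_of_mem_erase hx) (hne x hx)).2.1 (mem_of_mem_erase h))
        (fun x hx y hy h => hinj₀ x (mem_of_mem_erase (mem_coe.1 hx)) y
          (mem_of_mem_erase (mem_coe.1 hy)) (hne x (mem_coe.1 hx)) (hne y (mem_coe.1 hy)) h)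
        (fun x hx => (hprop x (mem_of_mem_erase hx) (hne x hx)).2.2) hodd (hX₀C hc₀)
        (Finset.notMem_erase _ _)
        (fun x hx h => (hprop x (mem_of_mem_erase hx) (hne x hx)).2.1 (by rw [h]; exact hc₀)) hz
      have h4 : (X₀.erase c₀).card + 1 = X₀.card := Finset.card_erase_add_one hc₀
      have h5 : ((X₀.erase c₀).card : ℤ) + 1 = X.card := by
        rw [← hX₀c]; exact_mod_cast h4
      linarith
    · push Not at hc
      have h3 := pair_lemma hw hs h1 hk (X := X₀) hX₀C f₀ (fun x hx => (hprop x hx (hc x hx)).1)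
        (fun x hx => (hprop x hx (hc x hx)).2.1)
        (fun x hx y hy h => hinj₀ x (mem_coe.1 hx) y (mem_coe.1 hy) (hc x (mem_coe.1 hx))
          (hc y (mem_coe.1 hy)) h)
        (fun x hx => (hprop x hx (hc x hx)).2.2)
      rw [hodd, hX₀c] at h3
      push_cast at h3
      linarith) (by rw [hcard]; push_cast; linarith)
  rw [hcard] at hLc
  push_cast at hLc
  have hLmem : ∀ x, x ∈ Finset.eraseNone L' ↔ some x ∈ L' := fun x => Finset.mem_eraseNone
  have hLC : Finset.eraseNone L' ⊆ C := fun x hx =>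
    Finset.some_mem_insertNone.1 (hL' ((hLmem x).1 hx))
  have hLcard : (Finset.eraseNone L').card = (L'.erase none).card := by
    rw [← Finset.map_some_eraseNone L', Finset.card_map]
  by_cases hn : none ∈ L'
  · right
    refine ⟨Finset.eraseNone L', hLC, ?_, fun i hi z hz => ?_⟩
    · have h2 : (L'.erase none).card + 1 = L'.card := Finset.card_erase_add_one hn
      have h3 : ((Finset.eraseNone L').card : ℤ) + 1 = L'.card := by
        rw [hLcard]; exact_mod_cast h2
      linarith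
    · have h2 := congrFun (hLr (some i) ((hLmem i).1 hi) none hn) z
      rw [hρs i z hz, hρn z] at h2
      exact h2
  · left
    rw [Finset.erase_eq_of_notMem hn] at hLcard
    refine ⟨Finset.eraseNone L', hLC, ?_, ?_, fun i hi j hj z hz => ?_⟩
    · rw [hLcard]; linarith
    · rw [← Finset.card_pos, hLcard, Finset.card_pos]
      exact hLn
    · have h2 := congrFun (hLr (some i) ((hLmem i).1 hi) (some j) ((hLmem j).1 hj)) z
      rw [hρs i z hz, hρs j z hz] at h2
      exact h2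

end Pool.Agent.QFO
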