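import Pool.Agent.QFO.CritD

/-!
# [QFO-R1] subtraction of a weighted complete graph

`W = (c c^T - diag c) + W''`.
-/

set_option autoImplicit false
set_option linter.unusedSectionVars false

namespace Pool.Agent.QFO

open Finset Pool.Agent.MP_710317_co.Rec Pool.Agent.MXC

variable {V : Type*} [Fintype V] [DecidableEq V]

/-- the rest after the subtraction of the complete graph with weights `c` -/
def rst (W : V → V → ℤ) (c : V → ℤ) (i j : V) : ℤ :=
  W i j - c i * c j + if i = j then c i else 0

theorem rst_inn (W : V → V → ℤ) (c : V → ℤ) :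
    inn (rst W c) univ = inn W univ - (∑ i, c i) * (∑ i, c i - 1) := by
  unfold inn rst
  have h1 : ∀ i, ∑ j, (W i j - c i * c j + if i = j then c i else 0) =
      ∑ j, W i j - c i * ∑ j, c j + c i := by
    intro i
    rw [Finset.sum_add_distrib, Finset.sum_sub_distrib, ← Finset.mul_sum, Finset.sum_ite_eq,
      if_pos (mem_univ i)]
  rw [Finset.sum_congr rfl fun i _ => h1 i, Finset.sum_add_distrib, Finset.sum_sub_distrib,
    ← Finset.sum_mul]
  ring

theorem rst_en (W : V → V → ℤ) (c : V → ℤ) {e : V → ℤ} (he : IsSign e) :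
    en W e = ∑ i, c i - (∑ i, c i * e i) * (∑ i, c i * e i) + en (rst W c) e := by
  unfold en rst
  have h1 : ∀ i, ∑ j, (W i j - c i * c j + if i = j then c i else 0) * e i * e j =
      ∑ j, W i j * e i * e j - (c i * e i) * ∑ j, c j * e j + c i := by
    intro i
    have h2 : ∀ j, (W i j - c i * c j + if i = j then c i else 0) * e i * e j =
        W i j * e i * e j - (c i * e i) * (c j * e j) + (if i = j then c i else 0) := by
      intro j
      by_cases h : i = j
      · rw [if_pos h, ← h]
        linear_combination (c i) * sign_sq he i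
      · rw [if_neg h]; ring
    rw [Finset.sum_congr rfl fun j _ => h2 j, Finset.sum_add_distrib, Finset.sum_sub_distrib,
      ← Finset.mul_sum, Finset.sum_ite_eq, if_pos (mem_univ i)]
  rw [Finset.sum_congr rfl fun i _ => h1 i, Finset.sum_add_distrib, Finset.sum_sub_distrib,
    ← Finset.sum_mul]
  ring

theorem rst_df (W : V → V → ℤ) (c : V → ℤ) (e : V → ℤ) :
    df W e = (∑ i, c i - 1) * (∑ i, c i * e i) + df (rst W c) e := by
  unfold df rst
  have h1 : ∀ i, ∑ j, (W i j - c i * c j + if i = j then c i else 0) * e i =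
      ∑ j, W i j * e i - (c i * e i) * ∑ j, c j + c i * e i := by
    intro i
    have h2 : ∀ j, (W i j - c i * c j + if i = j then c i else 0) * e i =
        W i j * e i - (c i * e i) * c j + (if i = j then c i * e i else 0) := by
      intro j
      by_cases h : i = j
      · rw [if_pos h, if_pos h]; ring
      · rw [if_neg h, if_neg h]; ring
    rw [Finset.sum_congr rfl fun j _ => h2 j, Finset.sum_add_distrib, Finset.sum_sub_distrib,
      ← Finset.mul_sum, Finset.sum_ite_eq, if_pos (mem_univ i)]
  rw [Finset.sum_congr rfl fun i _ => h1 i, Finset.sum_add_distrib, Finset.sum_sub_distrib,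
    ← Finset.sum_mul]
  ring

/-- `c (c - 1) / 2` -/
def ch (x : ℤ) : ℤ := x * (x - 1) / 2

theorem two_ch (x : ℤ) : 2 * ch x = x * (x - 1) := by
  unfold ch
  have : 2 ∣ x * (x - 1) := by
    rcases Int.even_or_odd x with h | h
    · exact (h.two_dvd).mul_right _
    · exact Dvd.dvd.mul_left ((h.sub_odd odd_one).two_dvd) _
  exact Int.mul_ediv_cancel' this

theorem ch_nonneg {x : ℤ} (hx : 0 ≤ x) : 0 ≤ ch x := by
  have h := two_ch x
  rcases eq_or_lt_of_le hx with h1 | h1
  · rw [← h1] at h ⊢; omega
  · have h2 : 0 ≤ x * (x - 1) := mul_nonneg hx (by linarith [Int.add_one_le_iff.2 h1])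
    linarith

/-- the rest is in the class OS, with `k'' = k + c (c - 1)/2` -/
theorem rst_OS {W : V → V → ℤ} {k c : V → ℤ} (h : OS W k) (hc : ∀ i, 0 ≤ c i) :
    OS (rst W c) (fun i => k i + ch (c i)) := by
  refine ⟨⟨fun i j => ?_, fun i => ?_, fun i => add_nonneg (h.knn i) (ch_nonneg (hc i))⟩,
    fun i j hij => ?_⟩
  · unfold rst
    rw [h.symm i j]
    by_cases hij : i = j
    · rw [if_pos hij, if_pos hij.symm, hij]
    · rw [if_neg hij, if_neg (Ne.symm hij)]; ring
  · unfold rst
    rw [if_pos rfl, h.diag]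
    have := two_ch (c i)
    linarith
  · unfold rst
    rw [if_neg hij, add_zero]
    have h1 := h.le i j hij
    have h2 := ch_nonneg (hc i)
    have h3 := ch_nonneg (hc j)
    have h4 := h.knn i
    have h5 := h.knn j
    have h6 := mul_nonneg (hc i) (hc j)
    nlinarith [mul_nonneg h2 h3, mul_nonneg h2 h5, mul_nonneg h3 h4]

/-- `L` is a set of pure twins with the row `c` -/
structure Tw (W : V → V → ℤ) (k c : V → ℤ) (L : Finset V) : Prop where
  one : ∀ i ∈ L, c i = 1
  kz : ∀ i ∈ L, k i = 0
  row : ∀ i ∈ L, ∀ j, j ≠ i → W i j = c j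

theorem rst_row {W : V → V → ℤ} {k c : V → ℤ} (hw : SymK W k) {L : Finset V} (hL : Tw W k c L)
    {i : V} (hi : i ∈ L) (j : V) : rst W c i j = 0 := by
  unfold rst
  by_cases h : i = j
  · rw [if_pos h, ← h, hw.diag, hL.kz i hi, hL.one i hi]; ring
  · rw [if_neg h, hL.row i hi j (Ne.symm h), hL.one i hi]; ring

/-- changing the signs on `L` does not change the surplus and the difference of the rest -/
theorem rst_congr {W : V → V → ℤ} {k c : V → ℤ} (hw : SymK W k) {L : Finset V} (hL : Tw W k c L)
    {e f : V → ℤ} (hef : ∀ i, i ∉ L → e i = f i) :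
    en (rst W c) e = en (rst W c) f ∧ df (rst W c) e = df (rst W c) f := by
  have hsym : ∀ i j, rst W c i j = rst W c j i := by
    intro i j
    unfold rst
    rw [hw.symm i j]
    by_cases hij : i = j
    · rw [if_pos hij, if_pos hij.symm, hij]
    · rw [if_neg hij, if_neg (Ne.symm hij)]; ring
  constructor
  · unfold en
    congr 1
    refine Finset.sum_congr rfl fun i _ => Finset.sum_congr rfl fun j _ => ?_
    by_cases hi : i ∈ L
    · rw [rst_row hw hL hi j]; ring
    · by_cases hj : j ∈ L
      · rw [hsym i j, rst_row hw hL hj i]; ring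
      · rw [hef i hi, hef j hj]
  · unfold df
    refine Finset.sum_congr rfl fun i _ => Finset.sum_congr rfl fun j _ => ?_
    by_cases hi : i ∈ L
    · rw [rst_row hw hL hi j]; ring
    · rw [hef i hi]

/-- signs on `L` with a prescribed sum -/
theorem adjust (L : Finset V) (f : V → ℤ) (hf : IsSign f) {x : ℤ} (hx : |x| ≤ L.card)
    (hpar : ∃ l : ℤ, x = L.card + 2 * l) :
    ∃ e : V → ℤ, IsSign e ∧ (∀ i, i ∉ L → e i = f i) ∧ ∑ i ∈ L, e i = x := by
  obtain ⟨l, hl⟩ := hpar
  rw [abs_le] at hx
  have h1 : 0 ≤ L.card + l := by omega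
  have h2 : L.card + l ≤ L.card := by omega
  obtain ⟨n, hn⟩ := Int.eq_ofNat_of_zero_le h1
  obtain ⟨L', hL', hc⟩ := Finset.exists_subset_card_eq (s := L) (n := n) (by
    have : (n : ℤ) ≤ L.card := by rw [← hn]; exact h2
    exact_mod_cast this)
  refine ⟨fun i => if i ∈ L then sg L' i else f i, fun i => ?_, fun i hi => by simp [hi], ?_⟩
  · by_cases h : i ∈ L
    · simp only [if_pos h]; exact sg_sign L' i
    · simp only [if_neg h]; exact hf i
  · have h3 : ∀ i ∈ L, (if i ∈ L then sg L' i else f i) = 2 * (if i ∈ L' then 1 else 0) - 1 := by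
      intro i hi
      rw [if_pos hi]
      unfold sg
      by_cases h : i ∈ L'
      · rw [if_pos h, if_pos h]; norm_num
      · rw [if_neg h, if_neg h]; norm_num
    rw [Finset.sum_congr rfl h3, Finset.sum_sub_distrib, ← Finset.mul_sum, Finset.sum_ite_mem,
      Finset.inter_eq_right.2 hL', Finset.sum_const, Finset.sum_const, hc]
    simp only [nsmul_eq_mul, mul_one]
    rw [← hn]
    linarith

/-- the sum of `c` over the complement of `L` -/
theorem csum_split {k c : V → ℤ} {W : V → V → ℤ} {L : Finset V} (hL : Tw W k c L) (e : V → ℤ) :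
    ∑ i, c i * e i = ∑ i ∈ L, e i + ∑ i ∈ Lᶜ, c i * e i := by
  rw [← Finset.sum_add_sum_compl L]
  congr 1
  exact Finset.sum_congr rfl fun i hi => by rw [hL.one i hi, one_mul]

theorem par_sum {c : V → ℤ} {e : V → ℤ} (he : IsSign e) (S : Finset V) :
    ∃ l : ℤ, ∑ i ∈ S, c i * e i = ∑ i ∈ S, c i + 2 * l := by
  induction S using Finset.induction_on with
  | empty => exact ⟨0, by simp⟩
  | insert a S ha ih =>
    obtain ⟨l, hl⟩ := ih
    rw [Finset.sum_insert ha, Finset.sum_insert ha, hl]
    rcases he a with h | h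
    · exact ⟨l, by rw [h]; ring⟩
    · exact ⟨l - c a, by rw [h]; ring⟩

end Pool.Agent.QFO
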