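import Pool.Agent.QFO.Final

/-!
# [QFO-Recur] the recursion for `T`, `D`, `B` in closed form
-/

set_option autoImplicit false

namespace Pool.Agent.QFO

open Finset Pool.Agent.MP_710317_co Pool.Agent.MP_710317_co.Rec Pool.Agent.MXC Pool.Agent.QMA

theorem T_of_mc {n m r : ℕ} (hr : m = n.choose 2 + r) (h : mc m = n ^ 2 / 4 + mc r) :
    T (m : ℤ) = ((n / 2 : ℕ) : ℤ) + T ((m : ℤ) - ((n.choose 2 : ℕ) : ℤ)) := by
  have e1 : (m : ℤ) - ((n.choose 2 : ℕ) : ℤ) = (r : ℤ) := by omega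
  rw [e1, T_nat, T_nat]
  have h2 := two_sq n
  omega

theorem T_of_mc_neg {n m y : ℕ} (hr : m + y = n.choose 2) (h : mc m = n ^ 2 / 4) :
    T (m : ℤ) = ((n / 2 : ℕ) : ℤ) + T ((m : ℤ) - ((n.choose 2 : ℕ) : ℤ)) := by
  rw [T_nonpos (m := (m : ℤ) - ((n.choose 2 : ℕ) : ℤ)) (by omega), T_nat]
  have h2 := two_sq n
  omega

theorem BV_nonneg {m x : ℤ} (h : BV m x) : 0 ≤ x := by
  rcases h with ⟨m', x', -, rfl, -⟩ | ⟨h1, rfl⟩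
  · exact Int.natCast_nonneg _
  · linarith

theorem DV_nonneg {m x : ℤ} (h : DV m x) : 0 ≤ x := by
  rcases h with ⟨m', x', -, rfl, -⟩ | ⟨h1, rfl⟩
  · exact Int.natCast_nonneg _
  · linarith

theorem BVal_cases {m x : ℕ} (hm : 1 ≤ m) (h : BVal m x) : ∃ n : ℕ, 2 ≤ n ∧
    T (m : ℤ) = ((n / 2 : ℕ) : ℤ) + T ((m : ℤ) - ((n.choose 2 : ℕ) : ℤ)) ∧
    ((Even n ∧ BV ((m : ℤ) - ((n.choose 2 : ℕ) : ℤ)) x) ∨
      (Odd n ∧ ∃ b, BV ((m : ℤ) - ((n.choose 2 : ℕ) : ℤ)) b ∧ (x : ℤ) = ((n / 2 : ℕ) : ℤ) + b)) := by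
  cases h with
  | zero => omega
  | @even k r b hk hmc hb =>
    refine ⟨2 * k, by omega, T_of_mc rfl hmc, Or.inl ⟨even_two_mul k, Or.inl ⟨r, x, by omega, rfl, hb⟩⟩⟩
  | @odd k r b hk hmc hb =>
    refine ⟨2 * k + 1, by omega, T_of_mc rfl hmc, Or.inr ⟨odd_two_mul_add_one k, b,
      Or.inl ⟨r, b, by omega, rfl, hb⟩, ?_⟩⟩
    rw [show (2 * k + 1) / 2 = k by omega]
    push_cast
    ring
  | @evenNeg k y m hk hmy hmc =>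
    refine ⟨2 * k, by omega, T_of_mc_neg hmy hmc, Or.inl ⟨even_two_mul k, Or.inr ⟨by omega, by omega⟩⟩⟩
  | @oddNeg k y m hk hmy hmc =>
    refine ⟨2 * k + 1, by omega, T_of_mc_neg hmy hmc, Or.inr ⟨odd_two_mul_add_one k, y,
      Or.inr ⟨by omega, by omega⟩, ?_⟩⟩
    rw [show (2 * k + 1) / 2 = k by omega]
    push_cast
    ring

theorem DVal_cases {m x : ℕ} (hm : 1 ≤ m) (h : DVal m x) : (m = 8 ∧ x = 2) ∨ ∃ n : ℕ, 2 ≤ n ∧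
    T (m : ℤ) = ((n / 2 : ℕ) : ℤ) + T ((m : ℤ) - ((n.choose 2 : ℕ) : ℤ)) ∧
    ((Even n ∧ DV ((m : ℤ) - ((n.choose 2 : ℕ) : ℤ)) x) ∨
      (Odd n ∧ ∃ b, BV ((m : ℤ) - ((n.choose 2 : ℕ) : ℤ)) b ∧ (x : ℤ) = ((n / 2 : ℕ) : ℤ) - b)) := by
  cases h with
  | zero => omega
  | @even k r b hk hmc hb =>
    exact Or.inr ⟨2 * k, by omega, T_of_mc rfl hmc,
      Or.inl ⟨even_two_mul k, Or.inl ⟨r, x, by omega, rfl, hb⟩⟩⟩
  | @odd k r b x hk hmc hb hx =>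
    refine Or.inr ⟨2 * k + 1, by omega, T_of_mc rfl hmc, Or.inr ⟨odd_two_mul_add_one k, b,
      Or.inl ⟨r, b, by omega, rfl, hb⟩, ?_⟩⟩
    rw [show (2 * k + 1) / 2 = k by omega]
    omega
  | @evenNeg k y m hk hmy hmc =>
    exact Or.inr ⟨2 * k, by omega, T_of_mc_neg hmy hmc,
      Or.inl ⟨even_two_mul k, Or.inr ⟨by omega, by omega⟩⟩⟩
  | @oddNeg k y m x hk hmy hmc hx =>
    refine Or.inr ⟨2 * k + 1, by omega, T_of_mc_neg hmy hmc, Or.inr ⟨odd_two_mul_add_one k, y,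
      Or.inr ⟨by omega, by omega⟩, ?_⟩⟩
    rw [show (2 * k + 1) / 2 = k by omega]
    omega
  | eight => exact Or.inl ⟨rfl, rfl⟩

theorem BV_even' {n m : ℕ} (hn : 2 ≤ n) (hpar : Even n)
    (hT : T (m : ℤ) = ((n / 2 : ℕ) : ℤ) + T ((m : ℤ) - ((n.choose 2 : ℕ) : ℤ))) {x : ℤ}
    (hx : BV ((m : ℤ) - ((n.choose 2 : ℕ) : ℤ)) x) : BV m x :=
  BV_even hn (Nat.even_iff.1 hpar) hT hx

theorem exists_BV (m : ℤ) : ∃ x, BV m x := by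
  rcases le_or_gt m 0 with hm | hm
  · exact ⟨-m, Or.inr ⟨hm, rfl⟩⟩
  · obtain ⟨m', rfl⟩ := Int.eq_ofNat_of_zero_le hm.le
    clear hm
    induction m' using Nat.strong_induction_on with
    | _ m ih =>
      rcases Nat.eq_zero_or_pos m with h0 | h1
      · exact ⟨0, Or.inr ⟨by omega, by omega⟩⟩
      obtain ⟨n, hn, hT, -⟩ := T_dec m h1
      have hc : 1 ≤ n.choose 2 := Nat.choose_pos hn
      obtain ⟨b, hb⟩ : ∃ b, BV ((m : ℤ) - ((n.choose 2 : ℕ) : ℤ)) b := by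
        rcases le_or_gt ((m : ℤ) - ((n.choose 2 : ℕ) : ℤ)) 0 with h2 | h2
        · exact ⟨_, Or.inr ⟨h2, rfl⟩⟩
        · obtain ⟨r, hr⟩ := Int.eq_ofNat_of_zero_le h2.le
          rw [hr]
          exact ih r (by omega)
      rcases Nat.mod_two_eq_zero_or_one n with hp | hp
      · exact ⟨b, BV_even hn hp hT hb⟩
      · exact ⟨_, BV_odd hn hp hT hb⟩

/-- the least value of the recursion -/
noncomputable def Bf (m : ℤ) : ℤ := if m ≤ 0 then -m else ((sInf {x : ℕ | BVal m.toNat x} : ℕ) : ℤ)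

theorem Bf_nonpos {m : ℤ} (hm : m ≤ 0) : Bf m = -m := if_pos hm

theorem Bf_mem (m : ℤ) : BV m (Bf m) := by
  rcases le_or_gt m 0 with hm | hm
  · rw [Bf_nonpos hm]
    exact Or.inr ⟨hm, rfl⟩
  · obtain ⟨m', rfl⟩ := Int.eq_ofNat_of_zero_le hm.le
    unfold Bf
    rw [if_neg (by omega), Int.toNat_natCast]
    refine Or.inl ⟨m', _, rfl, rfl, ?_⟩
    have hne : {x : ℕ | BVal m' x}.Nonempty := by
      obtain ⟨x, ⟨m'', x', h1, -, h2⟩ | ⟨h1, -⟩⟩ := exists_BV (m' : ℤ)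
      · have : m' = m'' := by exact_mod_cast h1
        subst this
        exact ⟨x', h2⟩
      · omega
    exact Nat.sInf_mem hne

theorem Bf_le {m x : ℤ} (h : BV m x) : Bf m ≤ x := by
  rcases le_or_gt m 0 with hm | hm
  · rw [Bf_nonpos hm]
    rcases h with ⟨m', x', h1, rfl, h2⟩ | ⟨-, rfl⟩
    · have : m' = 0 := by omega
      subst this
      rw [h1]
      simp
    · exact le_refl _
  · rcases h with ⟨m', x', rfl, rfl, h2⟩ | ⟨h1, -⟩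
    · unfold Bf
      rw [if_neg (by omega), Int.toNat_natCast]
      exact_mod_cast Nat.sInf_le h2
    · omega

/-- the largest value of the recursion -/
noncomputable def Df (m : ℤ) : ℤ := if m ≤ 0 then -m else (Dl 0 m.toNat : ℤ)

theorem Df_nonpos {m : ℤ} (hm : m ≤ 0) : Df m = -m := if_pos hm

theorem Df_pos {m : ℕ} (hm : 1 ≤ m) : Df m = Dl 0 m := by
  unfold Df
  rw [if_neg (by omega), Int.toNat_natCast]

theorem Df_mem (hQ : ∀ m : ℤ, QD m) (m : ℤ) : DV m (Df m) := by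
  rcases le_or_gt m 0 with hm | hm
  · rw [Df_nonpos hm]
    exact Or.inr ⟨hm, rfl⟩
  · obtain ⟨m', rfl⟩ := Int.eq_ofNat_of_zero_le hm.le
    rw [Df_pos (by omega)]
    exact Or.inl ⟨m', _, rfl, rfl, (Dl_greatest (by omega) (hQ _)).1⟩

theorem mc_zero : mc 0 = 0 := by
  have h1 : mc 0 ≤ fq [] := mc_le (by simp [cl])
  have h2 : fq [] = 0 := by simp [fq]
  omega

theorem DVal_zero {x : ℕ} (h : DVal 0 x) : x = 0 := by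
  generalize hm : (0 : ℕ) = m at h
  cases h with
  | zero => rfl
  | @even k r b hk hmc hb =>
    have : 1 ≤ (2 * k).choose 2 := Nat.choose_pos (by omega)
    omega
  | @odd k r b x hk hmc hb hx =>
    have : 1 ≤ (2 * k + 1).choose 2 := Nat.choose_pos (by omega)
    omega
  | @evenNeg k y m hk hmy hmc =>
    subst hm
    have h0 : mc 0 = 0 := mc_zero
    rw [h0] at hmc
    have : 1 ≤ (2 * k) ^ 2 / 4 := by
      have : (2 * k) ^ 2 / 4 = k ^ 2 := by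
        rw [mul_pow]
        omega
      rw [this]
      exact Nat.one_le_pow _ _ hk
    omega
  | @oddNeg k y m x hk hmy hmc hx =>
    subst hm
    have h0 : mc 0 = 0 := mc_zero
    rw [h0] at hmc
    have : 1 ≤ (2 * k + 1) ^ 2 / 4 := by
      have : (2 * k + 1) ^ 2 / 4 = k ^ 2 + k := by
        have : (2 * k + 1) ^ 2 = 4 * (k ^ 2 + k) + 1 := by ring
        omega
      rw [this]
      nlinarith [Nat.one_le_pow 2 k hk]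
    omega
  | eight => omega

theorem le_Df {m x : ℤ} (h : DV m x) : x ≤ Df m := by
  rcases le_or_gt m 0 with hm | hm
  · rw [Df_nonpos hm]
    rcases h with ⟨m', x', h1, rfl, h2⟩ | ⟨-, rfl⟩
    · have : m' = 0 := by omega
      subst this
      rw [DVal_zero h2]
      push_cast
      linarith
    · exact le_refl _
  · rcases h with ⟨m', x', rfl, rfl, h2⟩ | ⟨h1, -⟩
    · rw [Df_pos (by omega)]
      exact_mod_cast DVal_le 0 h2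
    · omega

theorem T_rec {m : ℤ} (hm : 1 ≤ m) : IsLeast {x : ℤ | ∃ n : ℕ, 2 ≤ n ∧
    x = ((n / 2 : ℕ) : ℤ) + T (m - ((n.choose 2 : ℕ) : ℤ))} (T m) := by
  obtain ⟨m', rfl⟩ := Int.eq_ofNat_of_zero_le (by omega : 0 ≤ m)
  refine ⟨?_, ?_⟩
  · obtain ⟨n, hn, hT, -⟩ := T_dec m' (by omega)
    exact ⟨n, hn, hT⟩
  · rintro x ⟨n, hn, rfl⟩
    exact T_step n _

theorem B_rec {m : ℤ} (hm : 1 ≤ m) : IsLeast {x : ℤ | ∃ n : ℕ, 2 ≤ n ∧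
    T m = ((n / 2 : ℕ) : ℤ) + T (m - ((n.choose 2 : ℕ) : ℤ)) ∧
    ((Even n ∧ x = Bf (m - ((n.choose 2 : ℕ) : ℤ))) ∨
      (Odd n ∧ x = ((n / 2 : ℕ) : ℤ) + Bf (m - ((n.choose 2 : ℕ) : ℤ))))} (Bf m) := by
  obtain ⟨m', rfl⟩ := Int.eq_ofNat_of_zero_le (by omega : 0 ≤ m)
  have hup : ∀ x : ℤ, (∃ n : ℕ, 2 ≤ n ∧
      T m' = ((n / 2 : ℕ) : ℤ) + T (m' - ((n.choose 2 : ℕ) : ℤ)) ∧
      ((Even n ∧ x = Bf (m' - ((n.choose 2 : ℕ) : ℤ))) ∨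
        (Odd n ∧ x = ((n / 2 : ℕ) : ℤ) + Bf (m' - ((n.choose 2 : ℕ) : ℤ))))) → Bf m' ≤ x := by
    rintro x ⟨n, hn, hT, ⟨hp, rfl⟩ | ⟨hp, rfl⟩⟩
    · exact Bf_le (BV_even hn (Nat.even_iff.1 hp) hT (Bf_mem _))
    · exact Bf_le (BV_odd hn (Nat.odd_iff.1 hp) hT (Bf_mem _))
  refine ⟨?_, fun x hx => hup x hx⟩
  rcases Bf_mem (m' : ℤ) with ⟨m'', x', h1, h2, h3⟩ | ⟨h1, -⟩
  · have : m' = m'' := by exact_mod_cast h1
    subst this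
    obtain ⟨n, hn, hT, ⟨hp, hv⟩ | ⟨hp, b, hv, hb⟩⟩ := BVal_cases (by omega) h3
    · refine ⟨n, hn, hT, Or.inl ⟨hp, le_antisymm (hup _ ⟨n, hn, hT, Or.inl ⟨hp, rfl⟩⟩) ?_⟩⟩
      rw [h2]
      exact Bf_le hv
    · refine ⟨n, hn, hT, Or.inr ⟨hp, le_antisymm (hup _ ⟨n, hn, hT, Or.inr ⟨hp, rfl⟩⟩) ?_⟩⟩
      rw [h2, hb]
      have := Bf_le hv
      linarith
  · omega

theorem D_rec (hQ : ∀ m : ℤ, QD m) {m : ℤ} (hm : 1 ≤ m) (h8 : m ≠ 8) : IsGreatest {x : ℤ |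
    ∃ n : ℕ, 2 ≤ n ∧ T m = ((n / 2 : ℕ) : ℤ) + T (m - ((n.choose 2 : ℕ) : ℤ)) ∧
    ((Even n ∧ x = Df (m - ((n.choose 2 : ℕ) : ℤ))) ∨
      (Odd n ∧ x = ((n / 2 : ℕ) : ℤ) - Bf (m - ((n.choose 2 : ℕ) : ℤ))))} (Df m) := by
  obtain ⟨m', rfl⟩ := Int.eq_ofNat_of_zero_le (by omega : 0 ≤ m)
  have h0 : 0 ≤ Df (m' : ℤ) := DV_nonneg (Df_mem hQ _)
  have hup : ∀ x : ℤ, (∃ n : ℕ, 2 ≤ n ∧
      T m' = ((n / 2 : ℕ) : ℤ) + T (m' - ((n.choose 2 : ℕ) : ℤ)) ∧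
      ((Even n ∧ x = Df (m' - ((n.choose 2 : ℕ) : ℤ))) ∨
        (Odd n ∧ x = ((n / 2 : ℕ) : ℤ) - Bf (m' - ((n.choose 2 : ℕ) : ℤ))))) → x ≤ Df m' := by
    rintro x ⟨n, hn, hT, ⟨hp, rfl⟩ | ⟨hp, rfl⟩⟩
    · exact le_Df (DV_even hn (Nat.even_iff.1 hp) hT (Df_mem hQ _))
    · rcases le_or_gt 0 (((n / 2 : ℕ) : ℤ) - Bf (m' - ((n.choose 2 : ℕ) : ℤ))) with h1 | h1
      · refine le_Df (DV_odd hn (Nat.odd_iff.1 hp) hT (Bf_mem _) ?_ h1)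
        obtain ⟨k, rfl⟩ := hp
        rw [show (2 * k + 1) / 2 = k by omega]
        push_cast
        ring
      · linarith
  refine ⟨?_, fun x hx => hup x hx⟩
  rcases Df_mem hQ (m' : ℤ) with ⟨m'', x', h1, h2, h3⟩ | ⟨h1, -⟩
  · have : m' = m'' := by exact_mod_cast h1
    subst this
    rcases DVal_cases (by omega) h3 with ⟨h4, -⟩ | ⟨n, hn, hT, ⟨hp, hv⟩ | ⟨hp, b, hv, hb⟩⟩
    · exact absurd (by exact_mod_cast h4) h8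
    · refine ⟨n, hn, hT, Or.inl ⟨hp, le_antisymm ?_ (hup _ ⟨n, hn, hT, Or.inl ⟨hp, rfl⟩⟩)⟩⟩
      rw [h2]
      exact le_Df hv
    · refine ⟨n, hn, hT, Or.inr ⟨hp, le_antisymm ?_ (hup _ ⟨n, hn, hT, Or.inr ⟨hp, rfl⟩⟩)⟩⟩
      rw [h2, hb]
      have := Bf_le hv
      linarith
  · omega

theorem Df_eight : Df 8 = 2 := by
  have h1 : Df 8 = (Dl 0 8 : ℤ) := Df_pos (m := 8) (by omega)
  have h2 : 2 ≤ Dl 0 8 := DVal_le 0 DVal.eight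
  have h3 := D_upper 8 (le_refl 8)
  have m8 : mc 8 = 6 := mc_val (by norm_num) (by decide +kernel)
  have hT : T ((8 : ℕ) : ℤ) = 4 := by
    rw [T_nat, m8]
    norm_num
  rw [hT] at h3
  rw [h1]
  norm_num at h3
  omega

/-- the full answer -/
theorem full (hQ : ∀ m : ℤ, QD m) : ∃ T D B : ℤ → ℤ,
    (∀ m : ℤ, m ≤ 0 → T m = -m ∧ D m = -m ∧ B m = -m) ∧
    (∀ m : ℤ, 1 ≤ m → IsLeast {x : ℤ | ∃ n : ℕ, 2 ≤ n ∧
      x = ((n / 2 : ℕ) : ℤ) + T (m - ((n.choose 2 : ℕ) : ℤ))} (T m)) ∧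
    (∀ m : ℤ, 1 ≤ m → IsLeast {x : ℤ | ∃ n : ℕ, 2 ≤ n ∧
      T m = ((n / 2 : ℕ) : ℤ) + T (m - ((n.choose 2 : ℕ) : ℤ)) ∧
      ((Even n ∧ x = B (m - ((n.choose 2 : ℕ) : ℤ))) ∨
        (Odd n ∧ x = ((n / 2 : ℕ) : ℤ) + B (m - ((n.choose 2 : ℕ) : ℤ))))} (B m)) ∧
    D 8 = 2 ∧
    (∀ m : ℤ, 1 ≤ m → m ≠ 8 → IsGreatest {x : ℤ | ∃ n : ℕ, 2 ≤ n ∧
      T m = ((n / 2 : ℕ) : ℤ) + T (m - ((n.choose 2 : ℕ) : ℤ)) ∧
      ((Even n ∧ x = D (m - ((n.choose 2 : ℕ) : ℤ))) ∨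
        (Odd n ∧ x = ((n / 2 : ℕ) : ℤ) - B (m - ((n.choose 2 : ℕ) : ℤ))))} (D m)) ∧
    ∀ m : ℕ, 1 ≤ m → ∃ q : ℕ, IsGreatest (qvalues m) q ∧
      8 * (q : ℤ) = (m - T m) ^ 2 + 4 * (D m) ^ 2 := by
  refine ⟨T, Df, Bf, fun m hm => ⟨T_nonpos hm, Df_nonpos hm, Bf_nonpos hm⟩,
    fun m hm => T_rec hm, fun m hm => B_rec hm, Df_eight, fun m hm h8 => D_rec hQ hm h8,
    fun m hm => ?_⟩
  obtain ⟨h1, -, q, h2, h3⟩ := q_all m hm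
  refine ⟨q, h2, ?_⟩
  rw [Df_pos hm, T_nat]
  have h4 : ((m - mc m : ℕ) : ℤ) = (m : ℤ) - mc m := by
    rw [Nat.cast_sub h1]
  have h5 : 2 * (q : ℤ) = ((m - mc m : ℕ) : ℤ) ^ 2 + (Dl 0 m : ℤ) ^ 2 := by exact_mod_cast h3
  rw [h4] at h5
  linear_combination 4 * h5

end Pool.Agent.QFO
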