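import Pool.Agent.QFO.MatL
import Pool.Agent.QFO.Col

/-!
# [QFO-RO] rows of a matrix on an odd number of classes, and the case (128; 11)
-/

set_option autoImplicit false
set_option linter.unusedSectionVars false

namespace Pool.Agent.QFO

open Finset Pool.Agent.MP_710317_co.Rec Pool.Agent.MXC

variable {V : Type*} [Fintype V] [DecidableEq V]

/-- odd number of vertices, no loops: the degrees are large, and larger if the row is not constant -/
theorem row_odd {W : V → V → ℤ} {k : V → ℤ} (hw : SymK W k) (hk : ∀ x, k x = 0)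
    (h0 : ∀ x y, x ≠ y → 0 ≤ W x y) {s m : ℤ} (hs : Sb W s) (hm : inn W univ = 2 * m) {n : ℕ}
    (hV : Fintype.card V = 2 * n + 3) (i : V) :
    m - ∑ x, W i x ≤ (2 * n + 1) * s ∧
    ((∃ x y, x ≠ i ∧ y ≠ i ∧ W i x ≠ W i y) → m - ∑ x, W i x + 2 * n ≤ (2 * n + 1) * s) := by
  have hK : ∑ x, k x = 0 := Finset.sum_eq_zero fun x _ => hk x
  have hc : (univ.erase i).card = 2 * (n + 1) := by
    rw [Finset.card_erase_of_mem (mem_univ i), Finset.card_univ, hV]
    omega
  obtain ⟨g1, _, g3⟩ := mat_main n hw hs hc (Finset.notMem_erase i univ) (fun x _ => hk x)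
    (fun x _ y _ hxy => h0 x y hxy)
  have h1 := innK_erase hw univ (mem_univ i)
  have h2 := Finset.add_sum_erase univ (fun x => W i x) (mem_univ i)
  have h3 : W i i = 0 := by rw [hw.diag, hk]; ring
  rw [h3] at h2
  rw [hk i, hm] at h1
  rw [h1, hK] at g1 g3
  have h4 : ∑ x ∈ univ.erase i, W i x = ∑ x, W i x := by linarith
  rw [h4] at g1 g3
  refine ⟨by linarith, ?_⟩
  rintro ⟨x, y, hx, hy, hne⟩
  have := g3 ⟨x, mem_erase.2 ⟨hx, mem_univ x⟩, y, mem_erase.2 ⟨hy, mem_univ y⟩, hne⟩
  linarith

/-- glueing the pairs of a set on which `W` is constant -/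
theorem glue_const (n : ℕ) : ∀ {W : V → V → ℤ} {k : V → ℤ} (_ : SymK W k) {s : ℤ} (_ : Sb W s)
    {S : Finset V} {c : ℤ} (_ : S.card = 2 * n) (_ : ∀ x ∈ S, k x = 0) (_ : 0 ≤ c)
    (_ : ∀ x ∈ S, ∀ y ∈ S, x ≠ y → W x y = c),
    ∃ (W' : V → V → ℤ) (k' : V → ℤ), SymK W' k' ∧ Sb W' s ∧ ∑ x, k' x = ∑ x, k x + n * c ∧
      (∀ x, x ∉ S → k' x = k x) ∧ (∀ x y, x ∉ S → y ∉ S → W' x y = W x y) := by
  induction n with
  | zero =>
    intro W k hw s hs S c _ _ _ _
    exact ⟨W, k, hw, hs, by simp, fun _ _ => rfl, fun _ _ _ _ => rfl⟩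
  | succ n ih =>
    intro W k hw s hs S c hc hk hc0 hW
    have hne : S.Nonempty := by rw [← Finset.card_pos, hc]; omega
    obtain ⟨j, hj⟩ := hne
    have hc1 : (S.erase j).card + 1 = S.card := Finset.card_erase_add_one hj
    have hne2 : (S.erase j).Nonempty := by rw [← Finset.card_pos]; omega
    obtain ⟨l, hl⟩ := hne2
    have hlj := ne_of_mem_erase hl
    have hlS := mem_of_mem_erase hl
    have hkj := hk j hj
    have hWjl : W j l = c := hW j hj l hlS (Ne.symm hlj)
    have hw' := agl_symK hw (Ne.symm hlj) hkj (by rw [hWjl]; exact hc0)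
    have hs' := agl_Sb hw (Ne.symm hlj) hkj hs
    have hval : ∀ x y, x ≠ j → x ≠ l → y ≠ j → y ≠ l → agl W j l x y = W x y := by
      intro x y hx1 hx2 hy1 hy2
      unfold agl
      rw [if_neg (fun h => h.elim hx1 hy1), if_neg hx2, if_neg hy2]
      ring
    have hsub : ∀ x ∈ (S.erase j).erase l, x ≠ j ∧ x ≠ l ∧ x ∈ S := fun x hx =>
      ⟨ne_of_mem_erase (mem_of_mem_erase hx), ne_of_mem_erase hx,
        mem_of_mem_erase (mem_of_mem_erase hx)⟩
    have hc2 : ((S.erase j).erase l).card + 1 = (S.erase j).card := Finset.card_erase_add_one hl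
    obtain ⟨W', k', g1, g2, g3, g4, g5⟩ := ih hw' hs' (S := (S.erase j).erase l) (c := c)
      (by omega) (fun x hx => by
        simp only [if_neg (hsub x hx).2.1]
        exact hk x (hsub x hx).2.2) hc0 (fun x hx y hy hxy => by
        rw [hval x y (hsub x hx).1 (hsub x hx).2.1 (hsub y hy).1 (hsub y hy).2.1]
        exact hW x (hsub x hx).2.2 y (hsub y hy).2.2 hxy)
    refine ⟨W', k', g1, g2, ?_, ?_, ?_⟩
    · rw [g3]
      have h2 : ∀ a, (if a = l then k l + W j l else k a) =
          k a + (if a = l then W j l else 0) := by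
        intro a
        by_cases h3 : a = l
        · rw [if_pos h3, if_pos h3, h3]
        · rw [if_neg h3, if_neg h3, add_zero]
      rw [Finset.sum_congr rfl fun a _ => h2 a, Finset.sum_add_distrib, Finset.sum_ite_eq', hWjl]
      simp only [mem_univ, if_true]
      push_cast
      ring
    · intro x hx
      rw [g4 x (fun h => hx (hsub x h).2.2)]
      have : x ≠ l := fun h => hx (h ▸ hlS)
      simp only [if_neg this]
    · intro x y hx hy
      rw [g5 x y (fun h => hx (hsub x h).2.2) (fun h => hy (hsub y h).2.2)]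
      exact hval x y (fun h => hx (h ▸ hj)) (fun h => hx (h ▸ hlS)) (fun h => hy (h ▸ hj))
        (fun h => hy (h ▸ hlS))

/-- a set `C` on which all rows are constant with value `c`, and the rest `T` -/
theorem core_T {W : V → V → ℤ} {k : V → ℤ} (hw : SymK W k) (hk : ∀ x, k x = 0) {m : ℤ}
    (hm : inn W univ = 2 * m) {T : Finset V} {c : ℤ}
    (hC : ∀ i, i ∉ T → ∀ x, x ≠ i → W i x = c) :
    inn W T = 2 * m - c * ((Fintype.card V : ℤ) * (Fintype.card V - 1)) +
      c * ((T.card : ℤ) * (T.card - 1)) := by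
  have hdiag : ∀ x, W x x = 0 := fun x => by rw [hw.diag, hk]; ring
  -- the matrix minus `c` off the diagonal
  have h1 : ∀ A : Finset V, inn W A = ∑ x ∈ A, ∑ y ∈ A, (if x = y then 0 else W x y - c) +
      c * ((A.card : ℤ) * (A.card - 1)) := by
    intro A
    unfold inn
    have h2 : ∀ x ∈ A, ∑ y ∈ A, W x y = ∑ y ∈ A, (if x = y then 0 else W x y - c) +
        c * (A.card - 1) := by
      intro x hx
      have h3 : ∀ y ∈ A, W x y = (if x = y then 0 else W x y - c) + (c - if x = y then c else 0) := by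
        intro y _
        by_cases h : x = y
        · rw [if_pos h, if_pos h, ← h, hdiag]; ring
        · rw [if_neg h, if_neg h]; ring
      calc ∑ y ∈ A, W x y = ∑ y ∈ A, ((if x = y then 0 else W x y - c) +
            (c - if x = y then c else 0)) := Finset.sum_congr rfl h3
        _ = _ := by
            rw [Finset.sum_add_distrib, Finset.sum_sub_distrib, Finset.sum_ite_eq, if_pos hx,
              Finset.sum_const, nsmul_eq_mul]
            ring
    rw [Finset.sum_congr rfl h2, Finset.sum_add_distrib, Finset.sum_const, nsmul_eq_mul]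
    ring
  have h2 := h1 univ
  have h3 := h1 T
  have h4 : ∑ x, ∑ y, (if x = y then (0 : ℤ) else W x y - c) =
      ∑ x ∈ T, ∑ y ∈ T, (if x = y then 0 else W x y - c) := by
    have e1 : ∀ x, x ∉ T → ∀ y, (if x = y then (0 : ℤ) else W x y - c) = 0 := by
      intro x hx y
      by_cases h : x = y
      · rw [if_pos h]
      · rw [if_neg h, hC x hx y (Ne.symm h)]; ring
    have e2 : ∀ y, y ∉ T → ∀ x, (if x = y then (0 : ℤ) else W x y - c) = 0 := by
      intro y hy x
      by_cases h : x = y
      · rw [if_pos h]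
      · rw [if_neg h, hw.symm, hC y hy x h]; ring
    rw [← Finset.sum_subset (Finset.subset_univ T) (fun x _ hx =>
      Finset.sum_eq_zero fun y _ => e1 x hx y)]
    refine Finset.sum_congr rfl fun x _ => ?_
    rw [← Finset.sum_subset (Finset.subset_univ T) (fun y _ hy => e2 y hy x)]
  rw [hm, h4, Finset.card_univ] at h2
  rw [h3]
  linarith

end Pool.Agent.QFO
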