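import Pool.Agent.QFO.NumD

/-!
# [QFO-Small] objects with `N ≤ T m` classes: all but the exceptional cases
-/

set_option autoImplicit false
set_option linter.unusedSectionVars false

namespace Pool.Agent.QFO

open Finset Pool.Agent.MP_710317_co.Rec Pool.Agent.MXC Pool.Agent.QMA

theorem tab_small : chk (fun m => Nat.ble (tab m) 13 && Nat.ble (tab m) m) 168 = true := by
  decide +kernel

theorem sq_nonneg' (p : ℕ) : (0 : ℤ) ≤ (p : ℤ) * ((p : ℤ) - 1) := by
  rcases Nat.eq_zero_or_pos p with h | h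
  · subst h; norm_num
  · have : (1 : ℤ) ≤ p := by exact_mod_cast h
    nlinarith

theorem sq_nat {p f : ℕ} (h : (p : ℤ) * ((p : ℤ) - 1) ≤ 2 * (f : ℤ)) : p * (p - 1) ≤ 2 * f := by
  rcases Nat.eq_zero_or_pos p with h0 | h0
  · subst h0; simp
  · obtain ⟨n, rfl⟩ : ∃ n, p = n + 1 := ⟨p - 1, by omega⟩
    have : ((n + 1 : ℕ) : ℤ) * (((n + 1 : ℕ) : ℤ) - 1) = (((n + 1) * n : ℕ) : ℤ) := by
      push_cast; ring
    rw [this] at h
    show (n + 1) * (n + 1 - 1) ≤ 2 * f
    rw [Nat.add_sub_cancel]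
    exact_mod_cast h

theorem le20 {p f : ℕ} (h : p * (p - 1) ≤ 2 * f) (hf : 2 * f ≤ 400) : p ≤ 20 := by
  by_contra hcon
  have h1 : 21 ≤ p := by omega
  have h2 : 21 * 20 ≤ p * (p - 1) := Nat.mul_le_mul h1 (by omega)
  omega

/-- the first facts for `N ≤ T m` -/
theorem small_facts {V : Type*} [Fintype V] [DecidableEq V] {W : V → V → ℤ} {k : V → ℤ}
    (h : OO W k) {N : ℕ} {f : V → Fin N} (hc : Col W f) {m : ℕ}
    (hm : inn W univ = 2 * (m : ℤ)) (hs : Sb W (T m)) (hN : (N : ℤ) ≤ T m) {K : ℕ}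
    (hK : ∑ i, k i = K) : m < 168 ∧ T (m : ℤ) = (tab m : ℤ) ∧ tab m ≤ 13 ∧ tab m ≤ m ∧
      N ≤ tab m ∧ K ≤ tab m ∧ tab (m + K) + K = tab m := by
  have hT := T_eq_K h.toSymK hm hs
  have hav := N_facts h hc hm hs
  rw [hK] at hT hav
  have h1 := T_nonneg ((m : ℤ) + K)
  have h168 := m_small (Int.natCast_nonneg K) (by linarith) hN hav
  have h2 := chk_all tab_small m h168
  rw [Bool.and_eq_true] at h2
  have h3 : tab m ≤ 13 := Nat.le_of_ble_eq_true h2.1
  have h4 : tab m ≤ m := Nat.le_of_ble_eq_true h2.2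
  have h5 := T_eq_tab m (by omega)
  rw [h5] at hN hT
  have hK2 : K ≤ tab m := by omega
  have h6 := T_eq_tab (m + K) (by omega)
  push_cast at h6
  rw [h6] at hT
  exact ⟨h168, h5, h3, h4, by omega, hK2, by omega⟩

theorem D_small {V : Type*} [Fintype V] [DecidableEq V] {W : V → V → ℤ} {k : V → ℤ} (h : OO W k)
    {N : ℕ} {f : V → Fin N} (hc : Col W f) {m : ℕ} (hm1 : 1 ≤ m)
    (hm : inn W univ = 2 * (m : ℤ)) (hs : Sb W (T m)) (hN : (N : ℤ) ≤ T m) {K : ℕ}
    (hK : ∑ i, k i = K) (hex : excD m K N = false) :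
    ∃ e : V → ℤ, IsSign e ∧ en W e = 2 * T m ∧ |df W e| ≤ 2 * (Dt m : ℤ) := by
  obtain ⟨h168, hTm, h13, hmm, hN2, hK2, htt⟩ := small_facts h hc hm hs hN hK
  have hchk := chk_all dchk_all (m - 1) (by omega)
  have e0 : Nat.succ (m - 1) = m := by omega
  rw [e0] at hchk
  unfold dchk at hchk
  rw [force_eq, force_eq, force_eq] at hchk
  have h1 := chk_all hchk K (by show K < tab m + 1; omega)
  rw [Bool.or_eq_true] at h1
  have h2 : Nat.beq (Nat.add (tab (Nat.add m K)) K) (tab m) = true := by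
    rw [show Nat.add (tab (Nat.add m K)) K = tab (m + K) + K from rfl, htt]
    exact Nat.beq_refl _
  rw [h2] at h1
  rcases h1 with h1 | h1
  · exact absurd h1 (by decide)
  rw [Bool.and_eq_true] at h1
  obtain ⟨h3, h4⟩ := h1
  have hmK : m + K < 180 := by
    have : m + K + 1 ≤ 180 := Nat.le_of_ble_eq_true h3
    omega
  have h5 := chk_all h4 N (by show N < tab m + 1; omega)
  rw [Bool.or_eq_true, Bool.or_eq_true, Bool.or_eq_true] at h5
  obtain ⟨U, hU⟩ : ∃ U, U = (m - tab m) / 2 := ⟨_, rfl⟩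
  have hUe : Nat.div (Nat.sub m (tab m)) 2 = U := hU.symm
  rw [hUe] at h5
  rcases h5 with ((h5 | h5) | h5) | h5
  · -- no object
    have h6 : tab m + 1 ≤ Lt N (m + K) + K := Nat.le_of_ble_eq_true h5
    have h7 := LB_tab N (by omega) (m + K) hmK
    have h8 := LB_top h hc hm hs (ℓ := (Lt N (m + K) : ℤ)) (by
      rw [hK]
      have : ((m : ℤ) + K) = ((m + K : ℕ) : ℤ) := by push_cast; ring
      rw [this]
      exact h7)
    rw [hK, hTm] at h8
    omega
  · rw [hex] at h5
    exact absurd h5 (by decide)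
  · -- vertex level
    by_contra hno
    push Not at hno
    obtain ⟨S, a, b, KA, KB, M⟩ := exists_minCut h.toSymK hm hs (D := (Dt m : ℤ)) hno
    have D := dData h hc hm hs M
    rw [hK] at D
    obtain ⟨p, q, hpq, hp, hq⟩ := D.pq
    have hfA : 0 ≤ a + KA := by linarith [sq_nonneg' p]
    have hfB : 0 ≤ b + KB := by linarith [sq_nonneg' q]
    obtain ⟨f1, hf1⟩ := Int.eq_ofNat_of_zero_le hfA
    obtain ⟨f2, hf2⟩ := Int.eq_ofNat_of_zero_le hfB
    obtain ⟨KA', rfl⟩ := Int.eq_ofNat_of_zero_le D.kA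
    obtain ⟨KB', rfl⟩ := Int.eq_ofNat_of_zero_le D.kB
    have hgt := D.gt
    obtain ⟨d, hd⟩ := Int.eq_ofNat_of_zero_le (show 0 ≤ a - b by omega)
    have hab := D.ab
    have hslk := D.slk
    have hkk := D.kk
    have hblk := D.blk
    have hUU := D.U
    rw [hTm] at hab hslk
    rw [hf1] at hp hblk hUU
    rw [hf2] at hq hblk
    rw [hTm] at hblk hUU
    have hUab : a + b = U := by omega
    have hT1 := T_eq_tab f1 (by omega)
    have hT2 := T_eq_tab f2 (by omega)
    rw [hT1, hT2] at hblk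
    have hp' := sq_nat hp
    have hq' := sq_nat hq
    have h6 := chk_all h5 (d - (Dt m + 1)) (by show d - (Dt m + 1) < tab m - Dt m; omega)
    have h7 := chk_all h6 KA' (by show KA' < K + 1; omega)
    have e1 : Nat.add (Nat.succ (Dt m)) (d - (Dt m + 1)) = d := by
      show Dt m + 1 + (d - (Dt m + 1)) = d
      omega
    rw [e1] at h7
    refine vok_spec h7 (f1 := f1) (f2 := f2) (p := p) (q := q) (by omega) (by omega) (by omega)
      (by omega) hpq hp' hq' (le20 hp' (by omega)) (le20 hq' (by omega)) ?_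
    rw [hd] at hUU
    rcases hUU with h8 | h8 | h8
    · left
      have h9 : ((tab m : ℤ) - d) = ((tab m - d : ℕ) : ℤ) := by omega
      rw [h9] at h8
      rcases Nat.eq_zero_or_pos (tab m - d) with h10 | h10
      · rw [h10] at h8 ⊢
        omega
      · have h11 : ((tab m - d : ℕ) : ℤ) - 1 = ((tab m - d - 1 : ℕ) : ℤ) := by omega
        rw [h11] at h8
        exact_mod_cast h8
    · right; left
      exact_mod_cast h8
    · rcases Nat.lt_or_ge (2 * d) (tab m) with h10 | h10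
      · right; left; exact h10
      · right; right
        have h11 : (2 * (d : ℤ) - (tab m : ℤ) + 1) = ((2 * d + 1 - tab m : ℕ) : ℤ) := by omega
        rw [h11] at h8
        exact_mod_cast h8
  · -- class level
    obtain ⟨e, a, b, KA, KB, p, q, he, he2, hdf, C⟩ := cData h hc hm hs
    by_cases hle : a - b ≤ (Dt m : ℤ)
    · exact ⟨e, he, he2, by rw [hdf]; linarith⟩
    exfalso
    rw [hK] at C
    have hfA : 0 ≤ a + KA := by linarith [sq_nonneg' p, C.fA]
    have hfB : 0 ≤ b + KB := by linarith [sq_nonneg' q, C.fB]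
    obtain ⟨f1, hf1⟩ := Int.eq_ofNat_of_zero_le hfA
    obtain ⟨f2, hf2⟩ := Int.eq_ofNat_of_zero_le hfB
    obtain ⟨KA', rfl⟩ := Int.eq_ofNat_of_zero_le C.kA
    obtain ⟨KB', rfl⟩ := Int.eq_ofNat_of_zero_le C.kB
    obtain ⟨d, hd⟩ := Int.eq_ofNat_of_zero_le C.ge
    have hab := C.ab
    have hle2 := C.le
    have hkk := C.kk
    have hpq := C.pq
    rw [hTm] at hab hle2
    have hUab : a + b = U := by omega
    have h6 := chk_all h5 (d - (Dt m + 1)) (by show d - (Dt m + 1) < tab m - Dt m; omega)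
    have h7 := chk_all h6 KA' (by show KA' < K + 1; omega)
    have h8 := chk_all h7 p (by show p < N + 1; omega)
    have e1 : Nat.add (Nat.succ (Dt m)) (d - (Dt m + 1)) = d := by
      show Dt m + 1 + (d - (Dt m + 1)) = d
      omega
    rw [e1] at h8
    have h9 := C.blk (Lt p f1) (Lt q f2) (by rw [hf1]; exact LB_tab p (by omega) f1 (by omega))
      (by rw [hf2]; exact LB_tab q (by omega) f2 (by omega))
    rw [hTm] at h9
    have hq : q = N - p := by omega
    rw [hq] at h9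
    exact cok_spec h8 (f1 := f1) (f2 := f2) (by omega) (by omega) (by omega)

theorem B_small {V : Type*} [Fintype V] [DecidableEq V] {W : V → V → ℤ} {k : V → ℤ} (h : OO W k)
    {N : ℕ} {f : V → Fin N} (hc : Col W f) {m : ℕ} (hm1 : 1 ≤ m)
    (hm : inn W univ = 2 * (m : ℤ)) (hs : Sb W (T m)) (hN : (N : ℤ) ≤ T m) {K : ℕ}
    (hK : ∑ i, k i = K) (hex : excB' m K N = false) :
    ∃ e : V → ℤ, IsSign e ∧ en W e = 2 * T m ∧ 2 * (Bt m : ℤ) ≤ |df W e| := by
  obtain ⟨h168, hTm, h13, hmm, hN2, hK2, htt⟩ := small_facts h hc hm hs hN hK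
  have hchk := chk_all bchk_all (m - 1) (by omega)
  have e0 : Nat.succ (m - 1) = m := by omega
  rw [e0] at hchk
  unfold bchk at hchk
  rw [force_eq, force_eq, force_eq] at hchk
  have h1 := chk_all hchk K (by show K < tab m + 1; omega)
  rw [Bool.or_eq_true] at h1
  have h2 : Nat.beq (Nat.add (tab (Nat.add m K)) K) (tab m) = true := by
    rw [show Nat.add (tab (Nat.add m K)) K = tab (m + K) + K from rfl, htt]
    exact Nat.beq_refl _
  rw [h2] at h1
  rcases h1 with h1 | h1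
  · exact absurd h1 (by decide)
  rw [Bool.and_eq_true] at h1
  obtain ⟨h3, h4⟩ := h1
  have hmK : m + K < 180 := by
    have : m + K + 1 ≤ 180 := Nat.le_of_ble_eq_true h3
    omega
  have h5 := chk_all h4 N (by show N < tab m + 1; omega)
  rw [Bool.or_eq_true, Bool.or_eq_true] at h5
  obtain ⟨U, hU⟩ : ∃ U, U = (m - tab m) / 2 := ⟨_, rfl⟩
  have hUe : Nat.div (Nat.sub m (tab m)) 2 = U := hU.symm
  rw [hUe] at h5
  rcases h5 with (h5 | h5) | h5
  · -- no object
    have h6 : tab m + 1 ≤ Lt N (m + K) + K := Nat.le_of_ble_eq_true h5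
    have h7 := LB_tab N (by omega) (m + K) hmK
    have h8 := LB_top h hc hm hs (ℓ := (Lt N (m + K) : ℤ)) (by
      rw [hK]
      have : ((m : ℤ) + K) = ((m + K : ℕ) : ℤ) := by push_cast; ring
      rw [this]
      exact h7)
    rw [hK, hTm] at h8
    omega
  · rw [hex] at h5
    exact absurd h5 (by decide)
  · -- class level
    obtain ⟨e, a, b, KA, KB, p, q, he, he2, hdf, C⟩ := cData h hc hm hs
    by_cases hle : (Bt m : ℤ) ≤ a - b
    · exact ⟨e, he, he2, by rw [hdf]; linarith⟩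
    exfalso
    rw [hK] at C
    have hfA : 0 ≤ a + KA := by linarith [sq_nonneg' p, C.fA]
    have hfB : 0 ≤ b + KB := by linarith [sq_nonneg' q, C.fB]
    obtain ⟨f1, hf1⟩ := Int.eq_ofNat_of_zero_le hfA
    obtain ⟨f2, hf2⟩ := Int.eq_ofNat_of_zero_le hfB
    obtain ⟨KA', rfl⟩ := Int.eq_ofNat_of_zero_le C.kA
    obtain ⟨KB', rfl⟩ := Int.eq_ofNat_of_zero_le C.kB
    obtain ⟨d, hd⟩ := Int.eq_ofNat_of_zero_le C.ge
    have hab := C.ab
    have hle2 := C.le
    have hkk := C.kk
    have hpq := C.pq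
    rw [hTm] at hab hle2
    have hUab : a + b = U := by omega
    have h6 := chk_all h5 d (by omega)
    have h7 := chk_all h6 KA' (by show KA' < K + 1; omega)
    have h8 := chk_all h7 p (by show p < N + 1; omega)
    have h9 := C.blk (Lt p f1) (Lt q f2) (by rw [hf1]; exact LB_tab p (by omega) f1 (by omega))
      (by rw [hf2]; exact LB_tab q (by omega) f2 (by omega))
    rw [hTm] at h9
    have hq : q = N - p := by omega
    rw [hq] at h9
    exact cok_spec h8 (f1 := f1) (f2 := f2) (by omega) (by omega) (by omega)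

end Pool.Agent.QFO
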