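import Pool.Agent.QFO.PairL
import Pool.Agent.MXC.Match

/-!
# [QFO-A2] all but `t` vertices of a large complete set have the same row
-/

set_option autoImplicit false
set_option linter.unusedSectionVars false

namespace Pool.Agent.QFO

open Finset Pool.Agent.MP_710317_co.Rec Pool.Agent.MXC

variable {V : Type*} [Fintype V] [DecidableEq V]

/-- [QFO-A2] `C` complete without loops, `2 s = (|C| - |C| % 2) + 2 K + 2 t` and `|C| ≥ 2 t + 2`: all but
at most `t` vertices of `C` have the same row `ρ` outside `C`. -/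
theorem twins {W : V → V → ℤ} {k : V → ℤ} (hw : SymK W k) {s t : ℤ} (hs : Sb W s)
    {C : Finset V} (h1 : ∀ i ∈ C, ∀ j ∈ C, i ≠ j → W i j = 1) (hk : ∀ i ∈ C, k i = 0)
    (ht : 2 * s ≤ (C.card : ℤ) - ((C.card % 2 : ℕ) : ℤ) + 2 * ∑ i, k i + 2 * t)
    (hC : 2 * t + 2 ≤ C.card) :
    ∃ L ⊆ C, (C.card : ℤ) - t ≤ L.card ∧ L.Nonempty ∧
      ∀ i ∈ L, ∀ j ∈ L, ∀ z, z ∉ C → W i z = W j z := by
  classical
  set u : V → V → ℤ := fun i j => if i ∈ C ∧ j ∈ C ∧ ∃ z, z ∉ C ∧ W i z ≠ W j z then 1 else 0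
    with hu
  have usym : Sym u := by
    refine ⟨fun i j => ?_, fun i => ?_⟩
    · simp only [hu]
      have : (i ∈ C ∧ j ∈ C ∧ ∃ z, z ∉ C ∧ W i z ≠ W j z) ↔
          (j ∈ C ∧ i ∈ C ∧ ∃ z, z ∉ C ∧ W j z ≠ W i z) := by
        constructor
        · rintro ⟨a, b, z, c, d⟩; exact ⟨b, a, z, c, d.symm⟩
        · rintro ⟨a, b, z, c, d⟩; exact ⟨b, a, z, c, d.symm⟩
      simp only [this]
    · simp [hu]
  have u0 : ∀ i j, 0 ≤ u i j := fun i j => by simp only [hu]; split <;> norm_num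
  have upos : ∀ i j, 0 < u i j ↔ i ∈ C ∧ j ∈ C ∧ ∃ z, z ∉ C ∧ W i z ≠ W j z := by
    intro i j
    simp only [hu]
    by_cases h : i ∈ C ∧ j ∈ C ∧ ∃ z, z ∉ C ∧ W i z ≠ W j z
    · rw [if_pos h]; simp [h]
    · rw [if_neg h]; simp only [lt_irrefl, false_iff]; exact h
  obtain ⟨τ, hτ⟩ := exists_maxPM u
  have hinv := hτ.pm.inv
  set ix := Fintype.equivFin V with hix
  set X : Finset V := univ.filter fun i => τ i ≠ i ∧ ix i < ix (τ i) with hX
  have hXmem : ∀ x ∈ X, τ x ≠ x ∧ ix x < ix (τ x) := fun x hx => (mem_filter.1 hx).2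
  have hXd : ∀ x ∈ X, x ∈ C ∧ τ x ∈ C ∧ ∃ z, z ∉ C ∧ W x z ≠ W (τ x) z := fun x hx =>
    (upos x (τ x)).1 (hτ.pm.pos x (hXmem x hx).1)
  have hτX : ∀ x ∈ X, τ x ∉ X := by
    intro x hx hx'
    have h2 := (hXmem x hx).2
    have h3 := (hXmem _ hx').2
    rw [hinv] at h3
    exact lt_asymm h2 h3
  have hinj : Set.InjOn τ (X : Set V) := fun x _ y _ h => by rw [← hinv x, h, hinv]
  have hp := pair_lemma hw hs h1 hk (X := X) (fun x hx => (hXd x hx).1) τ
    (fun x hx => (hXd x hx).2.1) hτX hinj (fun x hx => (hXd x hx).2.2)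
  have hXt : (X.card : ℤ) ≤ t := by linarith
  -- the fixed points in `C`
  set F : Finset V := C.filter fun i => τ i = i with hF
  have hnf : ∀ i, τ i ≠ i → i ∈ X ∨ τ i ∈ X := by
    intro i hi
    rcases lt_trichotomy (ix i) (ix (τ i)) with h | h | h
    · left; exact mem_filter.2 ⟨mem_univ _, hi, h⟩
    · exact absurd (ix.injective h).symm hi
    · right
      refine mem_filter.2 ⟨mem_univ _, ?_, ?_⟩
      · rw [hinv]; exact hi.symm
      · rw [hinv]; exact h
  have hFcard : (C.card : ℤ) ≤ F.card + 2 * X.card := by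
    have h2 : C ⊆ F ∪ (X ∪ X.image τ) := by
      intro i hi
      by_cases h : τ i = i
      · exact mem_union_left _ (mem_filter.2 ⟨hi, h⟩)
      · refine mem_union_right _ ?_
        rcases hnf i h with h3 | h3
        · exact mem_union_left _ h3
        · refine mem_union_right _ (mem_image.2 ⟨τ i, h3, hinv i⟩)
    have h3 := card_le_card h2
    have h4 := card_union_le F (X ∪ X.image τ)
    have h5 := card_union_le X (X.image τ)
    have h6 := card_image_le (s := X) (f := τ)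
    have h7 : C.card ≤ F.card + 2 * X.card := by omega
    exact_mod_cast h7
  have hF2 : 1 < F.card := by
    have : (2 : ℤ) ≤ F.card := by linarith
    have h2 : 2 ≤ F.card := by exact_mod_cast this
    omega
  obtain ⟨x₀, hx₀, x₁, hx₁, h01⟩ := Finset.one_lt_card.1 hF2
  obtain ⟨hx₀C, hx₀τ⟩ := mem_filter.1 hx₀
  obtain ⟨hx₁C, hx₁τ⟩ := mem_filter.1 hx₁
  have hrow : ∀ y ∈ F, ∀ z, z ∉ C → W y z = W x₀ z := by
    intro y hy z hz
    obtain ⟨hyC, hyτ⟩ := mem_filter.1 hy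
    by_contra hne
    have h2 := maxPM_indep usym u0 hτ hyτ hx₀τ
    have h3 := (upos y x₀).2 ⟨hyC, hx₀C, z, hz, hne⟩
    rw [h2] at h3
    exact lt_irrefl _ h3
  -- at most one vertex of every pair is bad
  set Bd : Finset V := C.filter fun i => ∃ z, z ∉ C ∧ W i z ≠ W x₀ z with hBd
  have hone : ∀ i, i ∈ Bd → τ i ≠ i → τ i ∉ Bd := by
    intro i hi hτi hi'
    obtain ⟨hiC, z, hz, hne⟩ := mem_filter.1 hi
    obtain ⟨hiC', z', hz', hne'⟩ := mem_filter.1 hi'
    refine maxPM_aug usym hτ hτi hx₀τ hx₁τ h01 ⟨(upos _ _).2 ⟨hiC, hx₀C, z, hz, hne⟩,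
      (upos _ _).2 ⟨hiC', hx₁C, z', hz', ?_⟩⟩
    rw [hrow x₁ hx₁ z' hz']
    exact hne'
  have hBdnf : ∀ i ∈ Bd, τ i ≠ i := by
    intro i hi hτi
    obtain ⟨hiC, z, hz, hne⟩ := mem_filter.1 hi
    exact hne (hrow i (mem_filter.2 ⟨hiC, hτi⟩) z hz)
  have hBdcard : Bd.card ≤ X.card := by
    refine Finset.card_le_card_of_injOn (fun i => if i ∈ X then i else τ i) ?_ ?_
    · intro i hi
      have hi' : i ∈ Bd := hi
      show (if i ∈ X then i else τ i) ∈ (X : Set V)
      by_cases h : i ∈ X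
      · rw [if_pos h]; exact h
      · rw [if_neg h]
        exact (hnf i (hBdnf i hi')).resolve_left h
    · intro i hi j hj hij
      have hi' : i ∈ Bd := hi
      have hj' : j ∈ Bd := hj
      simp only at hij
      by_cases h2 : i ∈ X
      · by_cases h3 : j ∈ X
        · rwa [if_pos h2, if_pos h3] at hij
        · rw [if_pos h2, if_neg h3] at hij
          exact absurd (hij ▸ hi') (hone j hj' (hBdnf j hj'))
      · by_cases h3 : j ∈ X
        · rw [if_neg h2, if_pos h3] at hij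
          exact absurd (hij ▸ hj') (hone i hi' (hBdnf i hi'))
        · rw [if_neg h2, if_neg h3] at hij
          rw [← hinv i, hij, hinv]
  refine ⟨C \ Bd, sdiff_subset, ?_, ⟨x₀, mem_sdiff.2 ⟨hx₀C, ?_⟩⟩, ?_⟩
  · have h2 : (C \ Bd).card + Bd.card = C.card :=
      Finset.card_sdiff_add_card_eq_card (filter_subset _ _)
    have h3 : ((C \ Bd).card : ℤ) + Bd.card = C.card := by exact_mod_cast h2
    have h4 : (Bd.card : ℤ) ≤ X.card := by exact_mod_cast hBdcard
    linarith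
  · intro h
    obtain ⟨_, z, _, hne⟩ := mem_filter.1 h
    exact hne rfl
  · have hgood : ∀ i ∈ C \ Bd, ∀ z, z ∉ C → W i z = W x₀ z := by
      intro i hi z hz
      obtain ⟨hiC, hiB⟩ := mem_sdiff.1 hi
      by_contra hne
      exact hiB (mem_filter.2 ⟨hiC, z, hz, hne⟩)
    intro i hi j hj z hz
    rw [hgood i hi z hz, hgood j hj z hz]

end Pool.Agent.QFO
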