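import Pool.Agent.QFO.Defs

/-!
# [QFO-U] maximum cuts with a large difference of the two insides, class O (loops)

`W` is symmetric, `W i i = -2 k i` and `0 ≤ W i j ≤ (1 + k i) (1 + k j)` for `i ≠ j`.
-/

set_option autoImplicit false
set_option linter.unusedSectionVars false

namespace Pool.Agent.QFO

open Finset Pool.Agent.MP_710317_co Pool.Agent.MP_710317_co.Rec

variable {V : Type*} [Fintype V] [DecidableEq V]

theorem innK_erase {W : V → V → ℤ} {k : V → ℤ} (hw : SymK W k) (S : Finset V) {v : V}
    (hv : v ∈ S) :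
    inn W (S.erase v) = inn W S - 2 * ∑ j ∈ S.erase v, W v j + 2 * k v := by
  unfold inn
  have h1 : ∀ i, ∑ j ∈ S, W i j = W i v + ∑ j ∈ S.erase v, W i j := fun i =>
    (Finset.add_sum_erase S (fun j => W i j) hv).symm
  have h2 := Finset.add_sum_erase S (fun i => ∑ j ∈ S, W i j) hv
  have h3 : ∑ i ∈ S.erase v, ∑ j ∈ S, W i j =
      ∑ i ∈ S.erase v, W v i + ∑ i ∈ S.erase v, ∑ j ∈ S.erase v, W i j := by
    rw [← Finset.sum_add_distrib]
    refine Finset.sum_congr rfl fun i _ => ?_
    rw [h1 i, hw.symm i v]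
  rw [← h2, h3, h1 v, hw.diag v]
  ring

theorem crsK_erase {W : V → V → ℤ} {k : V → ℤ} (hw : SymK W k) (S : Finset V) {v : V}
    (hv : v ∈ S) :
    crs W (S.erase v) (S.erase v)ᶜ = crs W S Sᶜ + ∑ j ∈ S.erase v, W v j - ∑ j ∈ Sᶜ, W v j := by
  have h0 : (S.erase v)ᶜ = insert v Sᶜ := by
    ext x
    simp only [mem_compl, mem_erase, mem_insert]
    tauto
  have hv' : v ∉ Sᶜ := by simpa using hv
  unfold crs
  rw [h0]
  have h1 : ∀ i, ∑ j ∈ insert v Sᶜ, W i j = W i v + ∑ j ∈ Sᶜ, W i j := fun i =>
    Finset.sum_insert hv'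
  have h2 := Finset.add_sum_erase S (fun i => ∑ j ∈ Sᶜ, W i j) hv
  rw [Finset.sum_congr rfl fun i _ => h1 i, Finset.sum_add_distrib, ← h2,
    Finset.sum_congr rfl fun i _ => hw.symm i v]
  ring

theorem innK_erase_compl {W : V → V → ℤ} {k : V → ℤ} (hw : SymK W k) (S : Finset V) {v : V}
    (hv : v ∈ S) :
    inn W (S.erase v)ᶜ = inn W Sᶜ + 2 * ∑ j ∈ Sᶜ, W v j - 2 * k v := by
  have h1 : (S.erase v)ᶜ = insert v Sᶜ := by
    ext x
    simp only [mem_compl, mem_erase, mem_insert]
    tauto
  have hv' : v ∉ Sᶜ := by simpa using hv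
  have h2 := innK_erase hw (insert v Sᶜ) (mem_insert_self v Sᶜ)
  rw [Finset.erase_insert hv'] at h2
  rw [h1]
  linarith

/-- the weight inside, without the loops -/
theorem sum_in {W : V → V → ℤ} {k : V → ℤ} (hw : SymK W k) (S : Finset V) :
    ∑ v ∈ S, ∑ j ∈ S.erase v, W v j = inn W S + 2 * ∑ v ∈ S, k v := by
  unfold inn
  rw [Finset.mul_sum, ← Finset.sum_add_distrib]
  refine Finset.sum_congr rfl fun v hv => ?_
  rw [← Finset.add_sum_erase S (fun j => W v j) hv, hw.diag v]
  ring

/-- mass bound -/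
theorem mass_bound {W : V → V → ℤ} {k : V → ℤ} (hw : SymK W k)
    (hle : ∀ i j, i ≠ j → W i j ≤ (1 + k i) * (1 + k j)) (Y : Finset V) :
    ∑ v ∈ Y, ∑ j ∈ Y.erase v, W v j ≤
      (∑ v ∈ Y, (1 + k v)) * (∑ v ∈ Y, (1 + k v) - 1) := by
  have h1 : ∀ v ∈ Y, ∑ j ∈ Y.erase v, W v j ≤ (1 + k v) * (∑ j ∈ Y, (1 + k j) - 1) := by
    intro v hv
    calc ∑ j ∈ Y.erase v, W v j ≤ ∑ j ∈ Y.erase v, (1 + k v) * (1 + k j) :=
          Finset.sum_le_sum fun j hj => hle v j (ne_of_mem_erase hj).symm
      _ = (1 + k v) * (∑ j ∈ Y, (1 + k j) - (1 + k v)) := by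
          rw [← Finset.mul_sum, ← Finset.add_sum_erase Y (fun j => 1 + k j) hv]
          ring
      _ ≤ (1 + k v) * (∑ j ∈ Y, (1 + k j) - 1) := by
          refine mul_le_mul_of_nonneg_left ?_ ?_
          · linarith [hw.knn v]
          · linarith [hw.knn v]
  calc _ ≤ ∑ v ∈ Y, (1 + k v) * (∑ j ∈ Y, (1 + k j) - 1) := Finset.sum_le_sum h1
    _ = _ := by rw [← Finset.sum_mul]

/-- [QFO-U]  Let `(S, Sᶜ)` be a maximum cut (size `c`), `2 a` and `2 b` the sums of `W` inside `S` and
`Sᶜ`, `d = a - b > 0` the least difference over the maximum cuts, `s = c - a - b` the surplus and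
`K` the number of loops in `S`. -/
theorem slackO {W : V → V → ℤ} {k : V → ℤ} (hw : SymK W k) (h0 : ∀ i j, i ≠ j → 0 ≤ W i j)
    (hle : ∀ i j, i ≠ j → W i j ≤ (1 + k i) * (1 + k j))
    {c a b : ℤ} (hc : ∀ S, crs W S Sᶜ ≤ c) {S : Finset V} (hS : crs W S Sᶜ = c)
    (ha : inn W S = 2 * a) (hb : inn W Sᶜ = 2 * b)
    (hmin : ∀ S', crs W S' S'ᶜ = c → 2 * (a - b) ≤ |inn W S' - inn W S'ᶜ|) :
    2 * ∑ v ∈ S, k v ≤ c - 2 * a ∧
    (2 * (a + ∑ v ∈ S, k v) ≤ (c - 2 * a) * (c - 2 * a - 1) ∨
      2 * (a - b) < c - a - b ∨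
      (2 * (a - b) - (c - a - b) + 1) * (c - a - b) ≤ 2 * (a + ∑ v ∈ S, k v)) := by
  classical
  set K : ℤ := ∑ v ∈ S, k v with hK
  have hK0 : 0 ≤ K := Finset.sum_nonneg fun v _ => hw.knn v
  set I : V → ℤ := fun v => ∑ j ∈ S.erase v, W v j with hI
  set O : V → ℤ := fun v => ∑ j ∈ Sᶜ, W v j with hO
  have hIO : ∀ v ∈ S, I v ≤ O v := by
    intro v hv
    have h2 := hc (S.erase v)
    rw [crsK_erase hw S hv, hS] at h2
    simp only [hI, hO]
    linarith
  have hI0 : ∀ v, 0 ≤ I v := fun v => Finset.sum_nonneg fun j hj =>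
    h0 v j (ne_of_mem_erase hj).symm
  have hwI : ∀ i, ∀ j ∈ S, j ≠ i → W i j ≤ I i := fun i j hj hji =>
    Finset.single_le_sum (f := fun j => W i j) (fun l hl => h0 i l (ne_of_mem_erase hl).symm)
      (mem_erase.2 ⟨hji, hj⟩)
  have hsumI : ∑ v ∈ S, I v = 2 * a + 2 * K := by
    have := sum_in hw S
    rw [ha] at this
    exact this
  have hsumO : ∑ v ∈ S, O v = c := hS
  set P : Finset V := S.filter fun v => I v < O v with hP
  set Z : Finset V := S.filter fun v => I v = O v ∧ k v < I v with hZ
  have hPcard : (P.card : ℤ) ≤ c - 2 * a - 2 * K := by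
    have h2 : ∑ v ∈ S, (O v - I v) = c - 2 * a - 2 * K := by
      rw [Finset.sum_sub_distrib, hsumI, hsumO]
      ring
    rw [← h2]
    calc (P.card : ℤ) = ∑ v ∈ P, (1 : ℤ) := by simp
      _ ≤ ∑ v ∈ P, (O v - I v) := by
          refine Finset.sum_le_sum fun v hv => ?_
          have := (mem_filter.1 hv).2
          linarith [Int.add_one_le_iff.2 this]
      _ ≤ ∑ v ∈ S, (O v - I v) := by
          refine Finset.sum_le_sum_of_subset_of_nonneg (filter_subset _ _) fun v hv _ => ?_
          linarith [hIO v hv]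
  have hflip : ∀ v ∈ Z, a - b ≤ I v - k v := by
    intro v hv
    obtain ⟨hvS, hv1, hv2⟩ := mem_filter.1 hv
    have h2 : crs W (S.erase v) (S.erase v)ᶜ = c := by
      rw [crsK_erase hw S hvS, hS]
      have : ∑ j ∈ S.erase v, W v j = ∑ j ∈ Sᶜ, W v j := hv1
      linarith
    have h3 := hmin _ h2
    rw [innK_erase hw S hvS, innK_erase_compl hw S hvS, ha, hb] at h3
    have h4 : ∑ j ∈ S.erase v, W v j = I v := rfl
    have h5 : ∑ j ∈ Sᶜ, W v j = I v := hv1.symm
    rw [h4, h5] at h3
    rcases le_abs'.1 h3 with h6 | h6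
    · linarith
    · linarith
  -- the vertices of `S` with positive inner weight
  have hcls : ∀ j ∈ S, 0 < I j → j ∈ Z ∪ P ∨ I j ≤ k j := by
    intro j hj h2
    rcases eq_or_lt_of_le (hIO j hj) with h3 | h3
    · by_cases h4 : k j < I j
      · exact Or.inl (mem_union_left _ (mem_filter.2 ⟨hj, h3, h4⟩))
      · exact Or.inr (not_lt.1 h4)
    · exact Or.inl (mem_union_right _ (mem_filter.2 ⟨hj, h3⟩))
  refine ⟨by have : (0 : ℤ) ≤ P.card := Int.natCast_nonneg _; linarith, ?_⟩
  by_cases hZe : Z.filter (fun v => k v = 0) = ∅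
  · left
    -- the vertices with positive inner weight have small mass
    set Y : Finset V := S.filter fun v => 0 < I v with hY
    have hYS : Y ⊆ S := filter_subset _ _
    have h2 : ∑ v ∈ S, I v = ∑ v ∈ Y, ∑ j ∈ Y.erase v, W v j := by
      have e1 : ∑ v ∈ S, I v = ∑ v ∈ Y, I v := by
        refine (Finset.sum_subset hYS fun v hv hvY => ?_).symm
        by_contra hne
        exact hvY (mem_filter.2 ⟨hv, lt_of_le_of_ne (hI0 v) (Ne.symm hne)⟩)
      rw [e1]
      refine Finset.sum_congr rfl fun v hv => ?_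
      refine (Finset.sum_subset (erase_subset_erase v hYS) fun j hj hjY => ?_).symm
      have hjv := ne_of_mem_erase hj
      have hjS := mem_of_mem_erase hj
      by_contra hne
      have h3 : 0 < W v j := lt_of_le_of_ne (h0 v j hjv.symm) (Ne.symm hne)
      have h4 := hwI j v (hYS hv) hjv.symm
      rw [hw.symm j v] at h4
      exact hjY (mem_erase.2 ⟨hjv, mem_filter.2 ⟨hjS, by linarith⟩⟩)
    have h3 := mass_bound hw hle Y
    rw [← h2, hsumI] at h3
    set M : ℤ := ∑ v ∈ Y, (1 + k v) with hM
    have hM1 : M ≤ c - 2 * a := by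
      have e1 : ∀ v ∈ Y, 1 + k v ≤ (if v ∈ P then 1 else 0) + 2 * k v := by
        intro v hv
        obtain ⟨hvS, hv2⟩ := mem_filter.1 hv
        by_cases hvP : v ∈ P
        · rw [if_pos hvP]
          linarith [hw.knn v]
        · rw [if_neg hvP]
          have h4 : 1 ≤ k v := by
            rcases hcls v hvS hv2 with h5 | h5
            · rcases mem_union.1 h5 with h6 | h6
              · by_contra h7
                have h8 : k v = 0 := by
                  have := hw.knn v
                  omega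
                have h9 : v ∈ Z.filter (fun v => k v = 0) := mem_filter.2 ⟨h6, h8⟩
                rw [hZe] at h9
                exact absurd h9 (notMem_empty v)
              · exact absurd h6 hvP
            · linarith [Int.add_one_le_iff.2 hv2]
          linarith
      calc M ≤ ∑ v ∈ Y, ((if v ∈ P then 1 else 0) + 2 * k v) := Finset.sum_le_sum e1
        _ ≤ ∑ v ∈ S, ((if v ∈ P then 1 else 0) + 2 * k v) := by
            refine Finset.sum_le_sum_of_subset_of_nonneg hYS fun v _ _ => ?_
            have := hw.knn v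
            split <;> linarith
        _ = (P.card : ℤ) + 2 * K := by
            rw [Finset.sum_add_distrib, ← Finset.mul_sum]
            congr 1
            rw [Finset.sum_ite_mem, Finset.inter_eq_right.2 (filter_subset _ _), Finset.sum_const,
              nsmul_eq_mul, mul_one]
        _ ≤ c - 2 * a := by linarith
    have hM0 : 0 ≤ M := Finset.sum_nonneg fun v _ => by linarith [hw.knn v]
    have h4 : M * (M - 1) ≤ (c - 2 * a) * (c - 2 * a - 1) := by
      rcases eq_or_lt_of_le hM0 with h5 | h5
      · rw [← h5] at hM1 ⊢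
        rcases eq_or_lt_of_le hM1 with h6 | h6
        · rw [← h6]
        · have h7 : 0 ≤ (c - 2 * a) * (c - 2 * a - 1) :=
            mul_nonneg h6.le (by linarith [Int.add_one_le_iff.2 h6])
          linarith
      · have h6 : 0 ≤ M - 1 := by linarith [Int.add_one_le_iff.2 h5]
        exact mul_le_mul hM1 (by linarith) h6 (by linarith)
    linarith
  · right
    by_cases hlt : 2 * (a - b) < c - a - b
    · exact Or.inl hlt
    · right
      rw [not_lt] at hlt
      obtain ⟨v, hv⟩ := Finset.nonempty_iff_ne_empty.2 hZe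
      obtain ⟨hvZ, hvk⟩ := mem_filter.1 hv
      have hvS : v ∈ S := (mem_filter.1 hvZ).1
      have h2 : I v ≤ (Z.card : ℤ) + P.card - 1 + K := by
        have h3 : ∀ j ∈ S.erase v, W v j ≤ (if j ∈ Z ∪ P then 1 else 0) + k j := by
          intro j hj
          have hjv := ne_of_mem_erase hj
          have hjS := mem_of_mem_erase hj
          by_cases hjm : j ∈ Z ∪ P
          · rw [if_pos hjm]
            have := hle v j hjv.symm
            rw [hvk] at this
            linarith
          · rw [if_neg hjm, zero_add]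
            rcases eq_or_lt_of_le (h0 v j hjv.symm) with h4 | h4
            · rw [← h4]
              exact hw.knn j
            · have h5 := hwI j v hvS hjv.symm
              rw [hw.symm j v] at h5
              rcases hcls j hjS (by linarith) with h6 | h6
              · exact absurd h6 hjm
              · linarith
        have hvm : v ∈ Z ∪ P := mem_union_left _ hvZ
        have hsub : Z ∪ P ⊆ S := union_subset (filter_subset _ _) (filter_subset _ _)
        calc I v ≤ ∑ j ∈ S.erase v, ((if j ∈ Z ∪ P then 1 else 0) + k j) :=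
              Finset.sum_le_sum h3
          _ = ∑ j ∈ S.erase v, (if j ∈ Z ∪ P then (1 : ℤ) else 0) + ∑ j ∈ S.erase v, k j :=
              Finset.sum_add_distrib
          _ = (((Z ∪ P).card : ℤ) - 1) + K := by
              congr 1
              · have h4 := Finset.add_sum_erase S (fun j => if j ∈ Z ∪ P then (1 : ℤ) else 0) hvS
                have h5 : ∑ j ∈ S, (if j ∈ Z ∪ P then (1 : ℤ) else 0) = (Z ∪ P).card := by
                  rw [Finset.sum_ite_mem, Finset.inter_eq_right.2 hsub]
                  simp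
                rw [h5, if_pos hvm] at h4
                linarith
              · have h4 := Finset.add_sum_erase S k hvS
                rw [hvk, zero_add] at h4
                exact h4
          _ ≤ (Z.card : ℤ) + P.card - 1 + K := by
              have h4 := card_union_le Z P
              have h5 : ((Z ∪ P).card : ℤ) ≤ Z.card + P.card := by exact_mod_cast h4
              linarith
      have h3 := hflip v hvZ
      rw [hvk, sub_zero] at h3
      -- enough vertices of `Z` without loops
      set Zu : Finset V := Z.filter (fun v => k v = 0) with hZu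
      have hZcard : (Z.card : ℤ) ≤ Zu.card + K := by
        have h4 : (Z.card : ℤ) = ∑ v ∈ Z, (1 : ℤ) := by simp
        rw [h4]
        calc ∑ v ∈ Z, (1 : ℤ) ≤ ∑ v ∈ Z, ((if v ∈ Zu then 1 else 0) + k v) := by
              refine Finset.sum_le_sum fun v hv => ?_
              by_cases hk : k v = 0
              · rw [if_pos (mem_filter.2 ⟨hv, hk⟩), hk, add_zero]
              · have := lt_of_le_of_ne (hw.knn v) (Ne.symm hk)
                split <;> linarith [Int.add_one_le_iff.2 this]
          _ = (Zu.card : ℤ) + ∑ v ∈ Z, k v := by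
              rw [Finset.sum_add_distrib, Finset.sum_ite_mem,
                Finset.inter_eq_right.2 (filter_subset _ _), Finset.sum_const, nsmul_eq_mul,
                mul_one]
          _ ≤ Zu.card + K := by
              have : ∑ v ∈ Z, k v ≤ K :=
                Finset.sum_le_sum_of_subset_of_nonneg (filter_subset _ _) fun v _ _ => hw.knn v
              linarith
      set q : ℤ := 2 * (a - b) - (c - a - b) + 1 with hq
      have hq1 : 1 ≤ q := by rw [hq]; linarith
      have hqZ : q ≤ Zu.card := by rw [hq]; linarith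
      obtain ⟨qn, hqn⟩ := Int.eq_ofNat_of_zero_le (by linarith : 0 ≤ q)
      obtain ⟨Z', hZ', hZc⟩ := Finset.exists_subset_card_eq
        (s := Zu) (n := qn) (by rw [hqn] at hqZ; exact_mod_cast hqZ)
      have hZS : Z' ⊆ S := hZ'.trans ((filter_subset _ _).trans (filter_subset _ _))
      have hk' : ∀ v ∈ Z', k v = 0 := fun v hv => (mem_filter.1 (hZ' hv)).2
      -- weight with an end in `Z'`
      have h4 : 2 * ∑ v ∈ Z', I v - ∑ v ∈ Z', ∑ j ∈ Z'.erase v, W v j ≤ 2 * a + 2 * K := by
        rw [← hsumI]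
        have e1 : ∑ i ∈ S, I i = ∑ i ∈ Z', I i + ∑ i ∈ S \ Z', I i := by
          rw [add_comm]
          exact (Finset.sum_sdiff hZS).symm
        have e2 : ∀ i ∈ Z', I i = ∑ j ∈ Z'.erase i, W i j + ∑ j ∈ S \ Z', W i j := by
          intro i hi
          have h5 : S.erase i = Z'.erase i ∪ (S \ Z') := by
            ext x
            simp only [mem_erase, mem_union, mem_sdiff]
            constructor
            · rintro ⟨h6, h7⟩
              by_cases h8 : x ∈ Z'
              · exact Or.inl ⟨h6, h8⟩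
              · exact Or.inr ⟨h7, h8⟩
            · rintro (⟨h6, h7⟩ | ⟨h6, h7⟩)
              · exact ⟨h6, hZS h7⟩
              · exact ⟨fun h => h7 (h ▸ hi), h6⟩
          have h6 : Disjoint (Z'.erase i) (S \ Z') := by
            rw [Finset.disjoint_left]
            intro x hx hx2
            exact (mem_sdiff.1 hx2).2 (mem_of_mem_erase hx)
          simp only [hI]
          rw [h5, Finset.sum_union h6]
        have e3 : ∑ i ∈ Z', I i = ∑ v ∈ Z', ∑ j ∈ Z'.erase v, W v j +
            ∑ i ∈ Z', ∑ j ∈ S \ Z', W i j := by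
          rw [Finset.sum_congr rfl e2, Finset.sum_add_distrib]
        have e4 : ∑ i ∈ Z', ∑ j ∈ S \ Z', W i j = ∑ i ∈ S \ Z', ∑ j ∈ Z', W i j := by
          rw [Finset.sum_comm]
          exact Finset.sum_congr rfl fun i _ => Finset.sum_congr rfl fun j _ => hw.symm j i
        have e5 : ∑ i ∈ S \ Z', ∑ j ∈ Z', W i j ≤ ∑ i ∈ S \ Z', I i := by
          refine Finset.sum_le_sum fun i hi => ?_
          obtain ⟨hi1, hi2⟩ := mem_sdiff.1 hi
          have h5 : Z' ⊆ S.erase i := fun x hx => mem_erase.2
            ⟨fun h => hi2 (h ▸ hx), hZS hx⟩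
          exact Finset.sum_le_sum_of_subset_of_nonneg h5 fun j hj _ =>
            h0 i j (ne_of_mem_erase hj).symm
        rw [e1]
        linarith
      have h5 : q * (a - b) ≤ ∑ v ∈ Z', I v := by
        calc q * (a - b) = ∑ v ∈ Z', (a - b) := by
              rw [Finset.sum_const, nsmul_eq_mul, hZc, hqn]
          _ ≤ ∑ v ∈ Z', I v := Finset.sum_le_sum fun v hv => by
              have h6 := hflip v ((filter_subset _ _) (hZ' hv))
              rw [hk' v hv, sub_zero] at h6
              exact h6
      have h6 := mass_bound hw hle Z'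
      have h7 : ∑ v ∈ Z', (1 + k v) = q := by
        rw [Finset.sum_congr rfl fun v hv => by rw [hk' v hv], Finset.sum_const, nsmul_eq_mul,
          hZc, hqn]
        ring
      rw [h7] at h6
      have h8 : q * (c - a - b) = 2 * (q * (a - b)) - q * (q - 1) := by
        rw [hq]; ring
      linarith

end Pool.Agent.QFO
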