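import Pool.Agent.QFO.Recur

/-!
# [QFO-Uniq] the recursion as a structure; uniqueness
-/

set_option autoImplicit false

namespace Pool.Agent.QFO

open Finset Pool.Agent.MP_710317_co Pool.Agent.MP_710317_co.Rec Pool.Agent.MXC Pool.Agent.QMA

/-- The recursion for three functions `T, D, B` on the integers. A number `n ≥ 2` is optimal for `m` if
the minimum `T m` is attained at `n`. -/
structure TDB (T D B : ℤ → ℤ) : Prop where
  /-- the values for `m ≤ 0` -/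
  nonpos : ∀ m : ℤ, m ≤ 0 → T m = -m ∧ D m = -m ∧ B m = -m
  /-- `T m` is the minimum of `⌊n / 2⌋ + T (m - C(n,2))` over all `n ≥ 2` -/
  T_min : ∀ m : ℤ, 1 ≤ m → IsLeast {x : ℤ | ∃ n : ℕ, 2 ≤ n ∧
    x = ((n / 2 : ℕ) : ℤ) + T (m - ((n.choose 2 : ℕ) : ℤ))} (T m)
  /-- `B m` is the minimum of `B (m - C(n,2))` (`n` even) and `(n - 1) / 2 + B (m - C(n,2))` (`n` odd)
  over the optimal `n` -/
  B_min : ∀ m : ℤ, 1 ≤ m → IsLeast {x : ℤ | ∃ n : ℕ, 2 ≤ n ∧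
    T m = ((n / 2 : ℕ) : ℤ) + T (m - ((n.choose 2 : ℕ) : ℤ)) ∧
    ((Even n ∧ x = B (m - ((n.choose 2 : ℕ) : ℤ))) ∨
      (Odd n ∧ x = ((n / 2 : ℕ) : ℤ) + B (m - ((n.choose 2 : ℕ) : ℤ))))} (B m)
  /-- the exceptional value -/
  D_eight : D 8 = 2
  /-- `D m` is the maximum of `D (m - C(n,2))` (`n` even) and `(n - 1) / 2 - B (m - C(n,2))` (`n` odd)
  over the optimal `n` -/
  D_max : ∀ m : ℤ, 1 ≤ m → m ≠ 8 → IsGreatest {x : ℤ | ∃ n : ℕ, 2 ≤ n ∧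
    T m = ((n / 2 : ℕ) : ℤ) + T (m - ((n.choose 2 : ℕ) : ℤ)) ∧
    ((Even n ∧ x = D (m - ((n.choose 2 : ℕ) : ℤ))) ∨
      (Odd n ∧ x = ((n / 2 : ℕ) : ℤ) - B (m - ((n.choose 2 : ℕ) : ℤ))))} (D m)

theorem TDB_exists (hQ : ∀ m : ℤ, QD m) : TDB T Df Bf where
  nonpos m hm := ⟨T_nonpos hm, Df_nonpos hm, Bf_nonpos hm⟩
  T_min _ hm := T_rec hm
  B_min _ hm := B_rec hm
  D_eight := Df_eight
  D_max _ hm h8 := D_rec hQ hm h8

theorem TDB_unique {T D B T' D' B' : ℤ → ℤ} (h : TDB T D B) (h' : TDB T' D' B') (m : ℤ) :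
    T m = T' m ∧ D m = D' m ∧ B m = B' m := by
  rcases le_or_gt m 0 with hm | hm
  · obtain ⟨a1, a2, a3⟩ := h.nonpos m hm
    obtain ⟨b1, b2, b3⟩ := h'.nonpos m hm
    exact ⟨a1.trans b1.symm, a2.trans b2.symm, a3.trans b3.symm⟩
  obtain ⟨m', rfl⟩ := Int.eq_ofNat_of_zero_le hm.le
  clear hm
  induction m' using Nat.strong_induction_on with
  | _ m ih =>
    rcases Nat.eq_zero_or_pos m with h0 | h1
    · subst h0
      obtain ⟨a1, a2, a3⟩ := h.nonpos ((0 : ℕ) : ℤ) (by simp)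
      obtain ⟨b1, b2, b3⟩ := h'.nonpos ((0 : ℕ) : ℤ) (by simp)
      exact ⟨a1.trans b1.symm, a2.trans b2.symm, a3.trans b3.symm⟩
    have hm1 : (1 : ℤ) ≤ (m : ℤ) := by exact_mod_cast h1
    have key : ∀ n : ℕ, 2 ≤ n → T ((m : ℤ) - ((n.choose 2 : ℕ) : ℤ)) = T' ((m : ℤ) - ((n.choose 2 : ℕ) : ℤ)) ∧
        D ((m : ℤ) - ((n.choose 2 : ℕ) : ℤ)) = D' ((m : ℤ) - ((n.choose 2 : ℕ) : ℤ)) ∧
        B ((m : ℤ) - ((n.choose 2 : ℕ) : ℤ)) = B' ((m : ℤ) - ((n.choose 2 : ℕ) : ℤ)) := by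
      intro n hn
      have hc : 1 ≤ n.choose 2 := Nat.choose_pos hn
      rcases le_or_gt ((m : ℤ) - ((n.choose 2 : ℕ) : ℤ)) 0 with h2 | h2
      · obtain ⟨a1, a2, a3⟩ := h.nonpos _ h2
        obtain ⟨b1, b2, b3⟩ := h'.nonpos _ h2
        exact ⟨a1.trans b1.symm, a2.trans b2.symm, a3.trans b3.symm⟩
      · obtain ⟨r, hr⟩ := Int.eq_ofNat_of_zero_le h2.le
        rw [hr]
        exact ih r (by omega)
    have hT : T m = T' m := by
      have e : {x : ℤ | ∃ n : ℕ, 2 ≤ n ∧ x = ((n / 2 : ℕ) : ℤ) + T ((m : ℤ) - ((n.choose 2 : ℕ) : ℤ))} =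
          {x : ℤ | ∃ n : ℕ, 2 ≤ n ∧ x = ((n / 2 : ℕ) : ℤ) + T' ((m : ℤ) - ((n.choose 2 : ℕ) : ℤ))} := by
        ext x
        constructor
        · rintro ⟨n, hn, hx⟩
          exact ⟨n, hn, by rw [hx, (key n hn).1]⟩
        · rintro ⟨n, hn, hx⟩
          exact ⟨n, hn, by rw [hx, (key n hn).1]⟩
      have h2 := h.T_min m hm1
      rw [e] at h2
      exact h2.unique (h'.T_min m hm1)
    refine ⟨hT, ?_, ?_⟩
    · rcases eq_or_ne m 8 with h8 | h8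
      · subst h8
        exact h.D_eight.trans h'.D_eight.symm
      have h8' : (m : ℤ) ≠ 8 := by exact_mod_cast h8
      have h2 := h.D_max m hm1 h8'
      have h3 := h'.D_max m hm1 h8'
      refine le_antisymm (h3.2 ?_) (h2.2 ?_)
      · obtain ⟨n, hn, hT', hx⟩ := h2.1
        refine ⟨n, hn, by rw [← hT, ← (key n hn).1]; exact hT', ?_⟩
        rw [← (key n hn).2.1, ← (key n hn).2.2]
        exact hx
      · obtain ⟨n, hn, hT', hx⟩ := h3.1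
        refine ⟨n, hn, by rw [hT, (key n hn).1]; exact hT', ?_⟩
        rw [(key n hn).2.1, (key n hn).2.2]
        exact hx
    · have h2 := h.B_min m hm1
      have h3 := h'.B_min m hm1
      refine le_antisymm (h2.2 ?_) (h3.2 ?_)
      · obtain ⟨n, hn, hT', hx⟩ := h3.1
        refine ⟨n, hn, by rw [hT, (key n hn).1]; exact hT', ?_⟩
        rw [(key n hn).2.2]
        exact hx
      · obtain ⟨n, hn, hT', hx⟩ := h2.1
        refine ⟨n, hn, by rw [← hT, ← (key n hn).1]; exact hT', ?_⟩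
        rw [← (key n hn).2.2]
        exact hx

/-- the full answer: for the functions `T`, `D` of the recursion, `8 Q(m) = (m - T m) ^ 2 + 4 (D m) ^ 2` -/
theorem full_answer (hQ : ∀ m : ℤ, QD m) : (∃ T D B : ℤ → ℤ, TDB T D B) ∧
    ∀ T D B : ℤ → ℤ, TDB T D B → ∀ m : ℕ, 1 ≤ m → ∃ q : ℕ, IsGreatest (qvalues m) q ∧
      8 * (q : ℤ) = (m - T m) ^ 2 + 4 * (D m) ^ 2 := by
  refine ⟨⟨T, Df, Bf, TDB_exists hQ⟩, fun T' D' B' h m hm => ?_⟩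
  obtain ⟨h1, h2, -⟩ := TDB_unique h (TDB_exists hQ) m
  rw [h1, h2]
  obtain ⟨h3, -, q, h4, h5⟩ := q_all m hm
  refine ⟨q, h4, ?_⟩
  rw [Df_pos hm, T_nat]
  have h6 : ((m - mc m : ℕ) : ℤ) = (m : ℤ) - mc m := by
    rw [Nat.cast_sub h3]
  have h7 : 2 * (q : ℤ) = ((m - mc m : ℕ) : ℤ) ^ 2 + (Dl 0 m : ℤ) ^ 2 := by exact_mod_cast h5
  rw [h6] at h7
  linear_combination 4 * h7

end Pool.Agent.QFO
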