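import Pool.Agent.QFO.Vio

/-!
# [QFO-VK] the kill criterion at the vertex level (no loops)
-/

set_option autoImplicit false
set_option linter.unusedSectionVars false

namespace Pool.Agent.QFO

open Finset Pool.Agent.MP_710317_co.Rec Pool.Agent.MXC

variable {V : Type*} [Fintype V] [DecidableEq V]

section

variable {W : V → V → ℤ} {s d a b : ℤ} {S : Finset V}

theorem crs_symm (h : Vio W s d a b S) (A B : Finset V) : crs W A B = crs W B A := by
  unfold crs
  rw [Finset.sum_comm]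
  exact Finset.sum_congr rfl fun i _ => Finset.sum_congr rfl fun j _ => h.symm j i

theorem crs_union_left {A B : Finset V} (hd : Disjoint A B) (C : Finset V) :
    crs W (A ∪ B) C = crs W A C + crs W B C := Finset.sum_union hd

theorem crs_union_right (A : Finset V) {B C : Finset V} (hd : Disjoint B C) :
    crs W A (B ∪ C) = crs W A B + crs W A C := by
  unfold crs
  rw [← Finset.sum_add_distrib]
  exact Finset.sum_congr rfl fun i _ => Finset.sum_union hd

theorem inn_crs (A : Finset V) : inn W A = crs W A A := rfl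

theorem dg_union (v : V) {B C : Finset V} (hd : Disjoint B C) :
    dg W v (B ∪ C) = dg W v B + dg W v C := Finset.sum_union hd

/-- a complete set -/
theorem clique_inn (h : Vio W s d a b S) {X : Finset V}
    (hX : ∀ x ∈ X, ∀ y ∈ X, x ≠ y → W x y = 1) : inn W X = X.card * (X.card - 1) := by
  unfold inn
  have h1 : ∀ x ∈ X, ∑ y ∈ X, W x y = (X.card : ℤ) - 1 := by
    intro x hx
    rw [← Finset.add_sum_erase X _ hx, h.diag, zero_add,
      Finset.sum_congr rfl fun y hy => hX x hx y (mem_of_mem_erase hy) (ne_of_mem_erase hy).symm]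
    have h3 := Finset.card_erase_add_one hx
    have h4 : ((X.erase x).card : ℤ) + 1 = X.card := by exact_mod_cast h3
    simp only [Finset.sum_const, nsmul_eq_mul, mul_one]
    linarith
  rw [Finset.sum_congr rfl h1, Finset.sum_const, nsmul_eq_mul]

/-- edges of `S` with an end in `X ⊆ S` -/
theorem sub_bound (h : Vio W s d a b S) {X : Finset V} (hXS : X ⊆ S) :
    2 * ∑ x ∈ X, dg W x S - inn W X ≤ 2 * a := by
  have hd : Disjoint X (S \ X) := Finset.disjoint_sdiff
  have hu : X ∪ (S \ X) = S := Finset.union_sdiff_of_subset hXS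
  have h1 : inn W S = crs W X X + 2 * crs W X (S \ X) + crs W (S \ X) (S \ X) := by
    conv_lhs => rw [← hu]
    rw [inn_crs, crs_union_left hd, crs_union_right _ hd, crs_union_right _ hd,
      crs_symm h (S \ X) X]
    ring
  have h2 : ∑ x ∈ X, dg W x S = crs W X X + crs W X (S \ X) := by
    rw [sum_dg]
    conv_lhs => rw [← hu]
    rw [crs_union_right _ hd]
  have h3 : 0 ≤ crs W (S \ X) (S \ X) :=
    Finset.sum_nonneg fun i _ => Finset.sum_nonneg fun j _ => h.nn i j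
  have h4 := h.ha
  rw [h2, inn_crs]
  linarith

theorem Zs_card_lt (h : Vio W s d a b S) {q : ℕ} (hq : 2 * a < 2 * q * d - q * (q - 1)) :
    (Zs W S).card < q := by
  by_contra hcon
  obtain ⟨X, hX, hXc⟩ := Finset.exists_subset_card_eq (s := Zs W S) (n := q) (not_lt.1 hcon)
  have hXS : X ⊆ S := hX.trans (filter_subset _ _)
  have h1 := sub_bound h hXS
  rw [clique_inn h fun x hx y hy hxy => Zs_clique h (hX hx) (hX hy) hxy, hXc] at h1
  have h2 : (q : ℤ) * d ≤ ∑ x ∈ X, dg W x S := by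
    calc (q : ℤ) * d = ∑ x ∈ X, d := by rw [Finset.sum_const, nsmul_eq_mul, hXc]
      _ ≤ _ := Finset.sum_le_sum fun x hx => Zs_ge h (hX hx)
  linarith

theorem Zs_nonempty (h : Vio W s d a b S) (h0 : (s - d) * (s - d - 1) < 2 * a) :
    (Zs W S).Nonempty := by
  by_contra hcon
  rw [Finset.not_nonempty_iff_eq_empty] at hcon
  have h1 : inn W S = ∑ v ∈ S, dg W v S := rfl
  have hU : Zs W S ∪ Ps W S = Ps W S := by rw [hcon, Finset.empty_union]
  have hPS : Ps W S ⊆ S := filter_subset _ _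
  have h2 : ∑ v ∈ S, dg W v S = ∑ v ∈ Ps W S, dg W v S :=
    (Finset.sum_subset hPS fun v hv hv2 => off_U h hv (by rw [hU]; exact hv2)).symm
  have h3 : ∀ v ∈ Ps W S, dg W v S ≤ ((Ps W S).card : ℤ) - 1 := by
    intro v hv
    rw [dg_U h v (hPS hv), hU, ← dg_erase h]
    have h4 := dg_le_card h v ((Ps W S).erase v)
    have h5 := Finset.card_erase_add_one hv
    have h6 : (((Ps W S).erase v).card : ℤ) + 1 = (Ps W S).card := by exact_mod_cast h5
    linarith
  have h4 := Finset.sum_le_sum h3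
  rw [Finset.sum_const, nsmul_eq_mul, ← h2, ← h1, h.ha] at h4
  have h5 := Ps_card h
  have h6 : (0 : ℤ) ≤ (Ps W S).card := Int.natCast_nonneg _
  rcases eq_or_lt_of_le h6 with h7 | h7
  · rw [← h7] at h4 h5
    rcases eq_or_lt_of_le h5 with h8 | h8
    · rw [← h8] at h0; linarith
    · have : 0 ≤ (s - d) * (s - d - 1) := mul_nonneg h8.le (by linarith [Int.add_one_le_iff.2 h8])
      linarith
  · have h8 : ((Ps W S).card : ℤ) * (((Ps W S).card : ℤ) - 1) ≤ (s - d) * (s - d - 1) :=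
      mul_le_mul h5 (by linarith) (by linarith [Int.add_one_le_iff.2 h7]) (by linarith)
    linarith

theorem Zs_le (h : Vio W s d a b S) {z : V} (hz : z ∈ Zs W S) :
    dg W z S ≤ (Zs W S).card + (Ps W S).card - 1 := by
  have hzS := (mem_Zs.1 hz).1
  rw [dg_U h z hzS, ← dg_erase h]
  have h1 := dg_le_card h z ((Zs W S ∪ Ps W S).erase z)
  have h2 := Finset.card_erase_add_one (mem_union_left (Ps W S) hz)
  have h3 := Finset.card_union_of_disjoint (Zs_Ps_disj (W := W) (S := S))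
  have h4 : (((Zs W S ∪ Ps W S).erase z).card : ℤ) + 1 = (Zs W S).card + (Ps W S).card := by
    rw [h3] at h2
    exact_mod_cast h2
  linarith

/-- the vertices of `Z` with exactly `d` neighbours in `S` -/
def Zd (W : V → V → ℤ) (S : Finset V) (d : ℤ) : Finset V :=
  (Zs W S).filter fun v => dg W v S = d

theorem mem_Zd {v : V} : v ∈ Zd W S d ↔ v ∈ Zs W S ∧ dg W v S = d := by
  unfold Zd; rw [mem_filter]

theorem Zd_card (h : Vio W s d a b S) {q κ : ℕ} (hq : 2 * a < 2 * q * d - q * (q - 1))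
    (h0 : (s - d) * (s - d - 1) < 2 * a)
    (hnum : ∀ z p : ℤ, 1 ≤ z → z < q → 0 ≤ p → p ≤ s - d → d + 1 ≤ z + p →
      (z + p = d + 1 ∧ κ ≤ z) ∨ 2 * (κ : ℤ) ≤ 2 * (d + 1) * z - 2 * a - z * (z - 1)) :
    κ ≤ (Zd W S d).card := by
  obtain ⟨z0, hz0⟩ := Zs_nonempty h h0
  have hlt := Zs_card_lt h hq
  have hpos : 0 < (Zs W S).card := Finset.card_pos.2 ⟨z0, hz0⟩
  have h1 := Zs_ge h hz0
  have h2 := Zs_le h hz0
  have hsub : Zd W S d ⊆ Zs W S := filter_subset _ _
  have key := hnum ((Zs W S).card) ((Ps W S).card) (by exact_mod_cast hpos) (by exact_mod_cast hlt)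
    (Int.natCast_nonneg _) (Ps_card h) (by linarith)
  rcases key with ⟨h3, h4⟩ | h3
  · -- all of `Z`
    have h5 : Zd W S d = Zs W S := by
      refine Finset.Subset.antisymm hsub fun v hv => mem_Zd.2 ⟨hv, ?_⟩
      have h6 := Zs_ge h hv
      have h7 := Zs_le h hv
      linarith
    rw [h5]
    exact_mod_cast h4
  · have h4 : ((Zs W S).card : ℤ) * (d + 1) - (Zd W S d).card ≤ ∑ v ∈ Zs W S, dg W v S := by
      have e1 : ∀ v ∈ Zs W S, (d + 1) - (if v ∈ Zd W S d then 1 else 0) ≤ dg W v S := by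
        intro v hv
        by_cases hvd : v ∈ Zd W S d
        · rw [if_pos hvd, (mem_Zd.1 hvd).2]; linarith
        · rw [if_neg hvd]
          have h6 := Zs_ge h hv
          rcases eq_or_lt_of_le h6 with h7 | h7
          · exact absurd (mem_Zd.2 ⟨hv, h7.symm⟩) hvd
          · linarith [Int.add_one_le_iff.2 h7]
      have e2 := Finset.sum_le_sum e1
      rw [Finset.sum_sub_distrib, Finset.sum_const, Finset.sum_ite_mem,
        Finset.inter_eq_right.2 hsub] at e2
      simp only [nsmul_eq_mul, Finset.sum_const, mul_one] at e2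
      exact e2
    have h5 := sub_bound h (X := Zs W S) (filter_subset _ _)
    rw [clique_inn h fun x hx y hy hxy => Zs_clique h hx hy hxy] at h5
    have h6 : 2 * (κ : ℤ) ≤ 2 * (Zd W S d).card := by linarith
    have h7 : (κ : ℤ) ≤ (Zd W S d).card := by linarith
    exact_mod_cast h7

/-- the total degree -/
theorem inn_diff (h : Vio W s d a b S) (X : Finset V) :
    inn W X - inn W Xᶜ = 2 * crs W X univ - (4 * (a + b) + 2 * s) := by
  have h1 := h.tot X
  have h2 : crs W X univ = inn W X + crs W X Xᶜ := by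
    have hu : X ∪ Xᶜ = univ := Finset.union_compl X
    rw [← hu, crs_union_right _ (disjoint_compl_right (a := X))]
    rfl
  rw [h2]
  linarith

/-- cuts of the two sides are combined -/
theorem combine (h : Vio W s d a b S) {X Y : Finset V} (hX : X ⊆ S) (hY : Y ⊆ Sᶜ) :
    2 * crs W X (S \ X) + 2 * crs W Y (Sᶜ \ Y) ≤ a + b + s ∧
    (2 * crs W X (S \ X) + 2 * crs W Y (Sᶜ \ Y) = a + b + s →
      2 * d ≤ |2 * crs W X univ + 2 * crs W Y univ - (4 * (a + b) + 2 * s)| ∧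
      2 * d ≤ |2 * crs W X univ - 2 * crs W Y univ + (2 * b - 2 * a)|) := by
  have hdS : Disjoint S Sᶜ := disjoint_compl_right
  have hXX : Disjoint X (S \ X) := Finset.disjoint_sdiff
  have hYY : Disjoint Y (Sᶜ \ Y) := Finset.disjoint_sdiff
  have huX : X ∪ (S \ X) = S := Finset.union_sdiff_of_subset hX
  have huY : Y ∪ (Sᶜ \ Y) = Sᶜ := Finset.union_sdiff_of_subset hY
  have hXY : Disjoint X Y := Finset.disjoint_of_subset_left hX (Finset.disjoint_of_subset_right hY hdS)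
  have hX2 : S \ X ⊆ S := Finset.sdiff_subset
  have hY2 : Sᶜ \ Y ⊆ Sᶜ := Finset.sdiff_subset
  have hXY2 : Disjoint X (Sᶜ \ Y) :=
    Finset.disjoint_of_subset_left hX (Finset.disjoint_of_subset_right hY2 hdS)
  have h22 : Disjoint (S \ X) (Sᶜ \ Y) :=
    Finset.disjoint_of_subset_left hX2 (Finset.disjoint_of_subset_right hY2 hdS)
  have h21 : Disjoint (S \ X) Y :=
    Finset.disjoint_of_subset_left hX2 (Finset.disjoint_of_subset_right hY hdS)
  -- complements
  have hc1 : (X ∪ Y)ᶜ = (S \ X) ∪ (Sᶜ \ Y) := by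
    ext v
    simp only [mem_compl, mem_union, mem_sdiff]
    constructor
    · intro h1
      by_cases h2 : v ∈ S
      · exact Or.inl ⟨h2, fun h3 => h1 (Or.inl h3)⟩
      · exact Or.inr ⟨h2, fun h3 => h1 (Or.inr h3)⟩
    · rintro (⟨h1, h2⟩ | ⟨h1, h2⟩) (h3 | h3)
      · exact h2 h3
      · exact (mem_compl.1 (hY h3)) h1
      · exact h1 (hX h3)
      · exact h2 h3
  have hc2 : (X ∪ (Sᶜ \ Y))ᶜ = (S \ X) ∪ Y := by
    ext v
    simp only [mem_compl, mem_union, mem_sdiff]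
    constructor
    · intro h1
      by_cases h2 : v ∈ S
      · exact Or.inl ⟨h2, fun h3 => h1 (Or.inl h3)⟩
      · by_cases h3 : v ∈ Y
        · exact Or.inr h3
        · exact absurd (Or.inr ⟨h2, h3⟩) h1
    · rintro (⟨h1, h2⟩ | h1) (h3 | ⟨h3, h4⟩)
      · exact h2 h3
      · exact h3 h1
      · exact (mem_compl.1 (hY h1)) (hX h3)
      · exact h4 h1
  have e1 : crs W (X ∪ Y) (X ∪ Y)ᶜ = crs W X (S \ X) + crs W X (Sᶜ \ Y) + crs W Y (S \ X) +
      crs W Y (Sᶜ \ Y) := by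
    rw [hc1, crs_union_left hXY, crs_union_right _ h22, crs_union_right _ h22]
    ring
  have e2 : crs W (X ∪ (Sᶜ \ Y)) (X ∪ (Sᶜ \ Y))ᶜ = crs W X (S \ X) + crs W X Y +
      crs W (Sᶜ \ Y) (S \ X) + crs W Y (Sᶜ \ Y) := by
    rw [hc2, crs_union_left hXY2, crs_union_right _ h21, crs_union_right _ h21,
      crs_symm h (Sᶜ \ Y) Y]
    ring
  have e3 : crs W S Sᶜ = crs W X Y + crs W X (Sᶜ \ Y) + crs W Y (S \ X) +
      crs W (Sᶜ \ Y) (S \ X) := by
    calc crs W S Sᶜ = crs W (X ∪ (S \ X)) (Y ∪ (Sᶜ \ Y)) := by rw [huX, huY]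
      _ = _ := by
        rw [crs_union_left hXX, crs_union_right _ hYY, crs_union_right _ hYY, crs_symm h (S \ X) Y,
          crs_symm h (S \ X) (Sᶜ \ Y)]
        ring
  have o1 := h.opt (X ∪ Y)
  have o2 := h.opt (X ∪ (Sᶜ \ Y))
  rw [e1] at o1
  rw [e2] at o2
  rw [h.cr] at e3
  refine ⟨by linarith, fun heq => ?_⟩
  have m1 := h.min (X ∪ Y) (by rw [e1]; linarith)
  have m2 := h.min (X ∪ (Sᶜ \ Y)) (by rw [e2]; linarith)
  rw [inn_diff h] at m1 m2
  rw [crs_union_left hXY] at m1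
  have e4 : crs W (X ∪ (Sᶜ \ Y)) univ = crs W X univ + (2 * b + (a + b + s)) - crs W Y univ := by
    rw [crs_union_left hXY2]
    have e5 : crs W Sᶜ univ = crs W Y univ + crs W (Sᶜ \ Y) univ := by
      rw [← crs_union_left hYY, huY]
    have e6 : crs W Sᶜ univ = 2 * b + (a + b + s) := by
      rw [← Finset.union_compl Sᶜ, crs_union_right _ (disjoint_compl_right (a := Sᶜ)), compl_compl,
        crs_symm h Sᶜ S, h.cr, ← inn_crs, h.hb]
    linarith
  rw [e4] at m2
  refine ⟨?_, ?_⟩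
  · have e7 : 2 * crs W X univ + 2 * crs W Y univ - (4 * (a + b) + 2 * s) =
        2 * (crs W X univ + crs W Y univ) - (4 * (a + b) + 2 * s) := by ring
    rw [e7]; exact m1
  · have e7 : 2 * crs W X univ - 2 * crs W Y univ + (2 * b - 2 * a) =
        2 * (crs W X univ + (2 * b + (a + b + s)) - crs W Y univ) - (4 * (a + b) + 2 * s) := by ring
    rw [e7]; exact m2

/-- a set of `n` vertices of `Zd`: its cut in `S` and its degrees -/
theorem Zd_cut (h : Vio W s d a b S) {X : Finset V} (hX : X ⊆ Zd W S d) :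
    crs W X (S \ X) = X.card * (d + 1 - X.card) ∧ crs W X univ = X.card * (2 * d) := by
  have hXS : X ⊆ S := fun v hv => (mem_Zs.1 (mem_Zd.1 (hX hv)).1).1
  have hXX : Disjoint X (S \ X) := Finset.disjoint_sdiff
  have huX : X ∪ (S \ X) = S := Finset.union_sdiff_of_subset hXS
  have h1 : crs W X S = X.card * d := by
    rw [← sum_dg, Finset.sum_congr rfl fun v hv => (mem_Zd.1 (hX hv)).2, Finset.sum_const,
      nsmul_eq_mul]
  have h2 : crs W X Sᶜ = X.card * d := by
    have e1 : ∀ v ∈ X, dg W v Sᶜ = d := fun v hv => by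
      rw [← (mem_Zs.1 (mem_Zd.1 (hX hv)).1).2.1]; exact (mem_Zd.1 (hX hv)).2
    rw [← sum_dg, Finset.sum_congr rfl e1, Finset.sum_const, nsmul_eq_mul]
  have h3 := clique_inn h (X := X) fun x hx y hy hxy =>
    Zs_clique h (mem_Zd.1 (hX hx)).1 (mem_Zd.1 (hX hy)).1 hxy
  have h4 : crs W X S = inn W X + crs W X (S \ X) := by
    conv_lhs => rw [← huX]
    rw [crs_union_right _ hXX]
    rfl
  refine ⟨?_, ?_⟩
  · rw [h1, h3] at h4
    linarith
  · rw [← Finset.union_compl S, crs_union_right _ (disjoint_compl_right (a := S)), h1, h2]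
    ring

/-- the mirror: `l` vertices of `Zd` of the mirror cut, different from `z₀` -/
theorem mirror_cut (h : Vio W s d a b S) {z₀ : V} (hz : z₀ ∈ Zd W S d) :
    ∃ S', S' = (S.erase z₀)ᶜ ∧ Vio W s d a b S' ∧ z₀ ∈ Zd W S' d ∧
      ∀ Y : Finset V, Y ⊆ Zd W S' d → z₀ ∉ Y → Y ⊆ Sᶜ ∧
        crs W Y (Sᶜ \ Y) = Y.card * (d - Y.card) ∧ crs W Y univ = Y.card * (2 * d) := by
  obtain ⟨hz1, hz2⟩ := mem_Zd.1 hz
  obtain ⟨hzS, hz3, hz4⟩ := mem_Zs.1 hz1
  have hz5 : dg W z₀ Sᶜ = d := by rw [← hz3]; exact hz2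
  have hm := mirror h hzS hz2 hz5
  have hS' : (S.erase z₀)ᶜ = insert z₀ Sᶜ := by
    ext x
    simp only [mem_compl, mem_erase, mem_insert]
    tauto
  have hzc : z₀ ∉ Sᶜ := by simpa using hzS
  have hd1 : dg W z₀ (S.erase z₀)ᶜ = d := by
    rw [hS', ← dg_erase h, Finset.erase_insert hzc, hz5]
  have hd2 : dg W z₀ (S.erase z₀)ᶜᶜ = d := by
    rw [compl_compl, dg_erase h, hz2]
  refine ⟨_, rfl, hm, ?_, ?_⟩
  · refine mem_Zd.2 ⟨mem_Zs.2 ⟨by rw [hS']; exact mem_insert_self _ _, by rw [hd1, hd2], ?_⟩, hd1⟩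
    rw [hd1]; exact h.dpos
  · intro Y hY hzY
    obtain ⟨g1, g2⟩ := Zd_cut hm hY
    have hYS' : Y ⊆ (S.erase z₀)ᶜ := fun v hv => (mem_Zs.1 (mem_Zd.1 (hY hv)).1).1
    have hYS : Y ⊆ Sᶜ := by
      intro v hv
      have h1 := hYS' hv
      rw [hS', mem_insert] at h1
      rcases h1 with h1 | h1
      · exact absurd (h1 ▸ hv) hzY
      · exact h1
    refine ⟨hYS, ?_, g2⟩
    have h1 : (S.erase z₀)ᶜ \ Y = insert z₀ (Sᶜ \ Y) := by
      rw [hS', Finset.insert_sdiff_of_notMem _ hzY]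
    have h2 : crs W Y (insert z₀ (Sᶜ \ Y)) = Y.card + crs W Y (Sᶜ \ Y) := by
      unfold crs
      have e1 : ∀ y ∈ Y, ∑ j ∈ insert z₀ (Sᶜ \ Y), W y j = 1 + ∑ j ∈ Sᶜ \ Y, W y j := by
        intro y hy
        rw [Finset.sum_insert (fun h' => hzc (mem_sdiff.1 h').1)]
        congr 1
        exact Zs_clique hm (mem_Zd.1 (hY hy)).1 (mem_Zs.2 ⟨by rw [hS']; exact mem_insert_self _ _,
          by rw [hd1, hd2], by rw [hd1]; exact h.dpos⟩) (fun h' => hzY (h' ▸ hy))
      rw [Finset.sum_congr rfl e1, Finset.sum_add_distrib]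
      simp
    rw [h1, h2] at g1
    linarith

/-- [QFO-VK] the kill criterion -/
theorem vkill (h : Vio W s d a b S) {q κ k l : ℕ} (hq : 2 * a < 2 * q * d - q * (q - 1))
    (h0 : (s - d) * (s - d - 1) < 2 * a)
    (hnum : ∀ z p : ℤ, 1 ≤ z → z < q → 0 ≤ p → p ≤ s - d → d + 1 ≤ z + p →
      (z + p = d + 1 ∧ κ ≤ z) ∨ 2 * (κ : ℤ) ≤ 2 * (d + 1) * z - 2 * a - z * (z - 1))
    (hk : k ≤ κ) (hl : l + 1 ≤ κ)
    (hfin : a + b + s < 2 * (k * (d + 1 - k)) + 2 * (l * (d - l)) ∨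
      (2 * (k * (d + 1 - k)) + 2 * (l * (d - l)) = a + b + s ∧
        (|2 * (k * (2 * d)) + 2 * (l * (2 * d)) - (4 * (a + b) + 2 * s)| < 2 * d ∨
          |2 * (k * (2 * d)) - 2 * (l * (2 * d)) + (2 * b - 2 * a)| < 2 * d))) : False := by
  have hc := Zd_card h hq h0 hnum
  have hne : (Zd W S d).Nonempty := Finset.card_pos.1 (by omega)
  obtain ⟨z₀, hz₀⟩ := hne
  obtain ⟨S', _, hm, hz', hY'⟩ := mirror_cut h hz₀
  have hc' := Zd_card hm hq h0 hnum
  obtain ⟨X, hX, hXc⟩ := Finset.exists_subset_card_eq (s := Zd W S d) (n := k) (by omega)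
  have hce := Finset.card_erase_add_one hz'
  obtain ⟨Y, hY, hYc⟩ := Finset.exists_subset_card_eq (s := (Zd W S' d).erase z₀) (n := l) (by omega)
  obtain ⟨y1, y2, y3⟩ := hY' Y (fun v hv => mem_of_mem_erase (hY hv))
    (fun hv => (ne_of_mem_erase (hY hv)) rfl)
  obtain ⟨x1, x2⟩ := Zd_cut h hX
  have hXS : X ⊆ S := fun v hv => (mem_Zs.1 (mem_Zd.1 (hX hv)).1).1
  obtain ⟨c1, c2⟩ := combine h hXS y1
  rw [x1, y2, hXc, hYc] at c1 c2
  rw [x2, y3, hXc, hYc] at c2
  rcases hfin with hf | ⟨hf1, hf2⟩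
  · linarith
  · obtain ⟨m1, m2⟩ := c2 hf1
    rcases hf2 with hf | hf
    · linarith
    · linarith

end

end Pool.Agent.QFO
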