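import Pool.Agent.QFO.A19
import Pool.Agent.QFO.VBase

/-!
# [QFO-VT] the vertex level with loops: the tight side lemma, `m = 75` and `m = 74`
-/

set_option autoImplicit false
set_option linter.unusedSectionVars false

namespace Pool.Agent.QFO

open Finset Pool.Agent.MP_710317_co.Rec Pool.Agent.MXC

variable {V : Type*} [Fintype V] [DecidableEq V]

/-- a violating cut, loops allowed -/
structure VioK (W : V → V → ℤ) (k : V → ℤ) (s d a b : ℤ) (S : Finset V) : Prop where
  oo : OO W k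
  opt : ∀ X : Finset V, crs W X Xᶜ ≤ a + b + s
  cr : crs W S Sᶜ = a + b + s
  ha : inn W S = 2 * a
  hb : inn W Sᶜ = 2 * b
  hd : a - b = d
  dpos : 0 < d
  min : ∀ X : Finset V, crs W X Xᶜ = a + b + s → 2 * d ≤ |inn W X - inn W Xᶜ|

/-- a violation of the D part gives a violating cut -/
theorem exists_vioK {m u D : ℤ} (hu : m - T m = 2 * u) (hD : 0 ≤ D)
    {W : V → V → ℤ} {k : V → ℤ} (h : OO W k) (hm : inn W univ = 2 * m)
    (hs : Sb W (T m))
    (hcon : ¬ ∃ e : V → ℤ, IsSign e ∧ en W e = 2 * T m ∧ |df W e| ≤ 2 * D) :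
    ∃ (S : Finset V) (a b : ℤ), VioK W k (T m) (a - b) a b S ∧ a + b = u ∧ D < a - b ∧
      2 * ∑ v ∈ S, k v ≤ T m - (a - b) ∧
      (2 * (a + ∑ v ∈ S, k v) ≤ (T m - (a - b)) * (T m - (a - b) - 1) ∨ 2 * (a - b) < T m ∨
        (2 * (a - b) - T m + 1) * T m ≤ 2 * (a + ∑ v ∈ S, k v)) := by
  have hw : SymK W k := h.toSymK
  obtain ⟨e, he, h1, hmin⟩ := exists_min hw hm hs
  push Not at hcon
  -- the positive side is the heavy one
  obtain ⟨e, he, h1, hmin, h2⟩ : ∃ e : V → ℤ, IsSign e ∧ en W e = 2 * T m ∧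
      (∀ e', IsSign e' → en W e' = 2 * T m → |df W e| ≤ |df W e'|) ∧ 2 * D < df W e := by
    have h3 := hcon e he h1
    rcases le_total 0 (df W e) with h4 | h4
    · rw [abs_of_nonneg h4] at h3
      exact ⟨e, he, h1, hmin, h3⟩
    · rw [abs_of_nonpos h4] at h3
      refine ⟨fun i => - e i, neg_sign he, by rw [en_neg, h1], fun e' he' h' => ?_, ?_⟩
      · rw [df_neg, abs_neg]
        exact hmin e' he' h'
      · rw [df_neg]
        exact h3
  set S : Finset V := pos e with hS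
  have heS : sg S = e := sg_pos he
  obtain ⟨a, ha⟩ := inn_even hw S
  obtain ⟨b, hb⟩ := inn_even hw Sᶜ
  have hsplit := tot_splitK hw S
  have hen := en_sg hw S
  have hdf := df_sg W hw S
  rw [heS] at hen hdf
  rw [h1, hm] at hen
  rw [hm, ha, hb] at hsplit
  rw [ha, hb] at hdf
  have hc : ∀ S', crs W S' S'ᶜ ≤ crs W S Sᶜ := by
    intro S'
    have h3 := hs _ (sg_sign S')
    rw [en_sg hw S', hm] at h3
    linarith
  have hmin' : ∀ S', crs W S' S'ᶜ = crs W S Sᶜ → 2 * (a - b) ≤ |inn W S' - inn W S'ᶜ| := by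
    intro S' hS'
    have h3 := hmin (sg S') (sg_sign S') (by rw [en_sg hw S', hm, hS', ← hen])
    rw [df_sg W hw S', hdf] at h3
    have h4 := le_abs_self (2 * a - 2 * b)
    linarith
  have hab : a + b = u := by linarith
  have hd : D < a - b := by linarith
  obtain ⟨hKs, hsl⟩ := slackO hw h.nn h.le hc rfl ha hb hmin'
  set c := crs W S Sᶜ with hcdef
  have hc2 : 2 * c = m + T m := by linarith
  have e1 : c - 2 * a = T m - (a - b) := by linarith
  have e2 : c - a - b = T m := by linarith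
  rw [e1, e2] at hsl
  rw [e1] at hKs
  have hcc : c = a + b + T m := by linarith
  exact ⟨S, a, b, ⟨h, fun X => by rw [← hcc]; exact hc X, hcc, ha, hb, rfl, by linarith,
    fun X hX => hmin' X (by rw [hX, hcc])⟩, hab, hd, hKs, hsl⟩

section

variable {W : V → V → ℤ} {k : V → ℤ} {s d a b : ℤ} {S : Finset V}

theorem VioK.sk (h : VioK W k s d a b S) : SymK W k := h.oo.toSymK

theorem VioK.tot (h : VioK W k s d a b S) : inn W univ = 4 * (a + b) + 2 * s := by
  have h1 := tot_splitK h.sk S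
  rw [h.ha, h.hb, h.cr] at h1
  linarith

theorem VioK.en_sg (h : VioK W k s d a b S) (X : Finset V) :
    en W (sg X) = 4 * crs W X Xᶜ - (4 * (a + b) + 2 * s) := by
  rw [Pool.Agent.QFO.en_sg h.sk X, h.tot]

theorem VioK.sb (h : VioK W k s d a b S) : Sb W s := by
  intro e he
  rw [← sg_pos he, h.en_sg]
  linarith [h.opt (pos e)]

theorem VioK.of_en (h : VioK W k s d a b S) {e : V → ℤ} (he : IsSign e) (h1 : en W e = 2 * s) :
    crs W (pos e) (pos e)ᶜ = a + b + s := by
  rw [← sg_pos he, h.en_sg] at h1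
  linarith

theorem VioK.df_ge (h : VioK W k s d a b S) {e : V → ℤ} (he : IsSign e)
    (h1 : en W e = 2 * s) : 2 * d ≤ |df W e| := by
  have h2 := h.min _ (h.of_en he h1)
  have h3 := df_sg W h.sk (pos e)
  rw [sg_pos he] at h3
  rw [h3]
  exact h2

/-- local optimality -/
theorem VioK.gapX (h : VioK W k s d a b S) {X : Finset V} (hX : crs W X Xᶜ = a + b + s) {v : V}
    (hv : v ∈ X) : dg W v X + 2 * k v ≤ dg W v Xᶜ := by
  have h1 := h.opt (X.erase v)
  rw [crsK_erase h.sk X hv, hX] at h1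
  have h2 : dg W v X = -2 * k v + ∑ j ∈ X.erase v, W v j := by
    unfold dg
    rw [← Finset.add_sum_erase X _ hv, h.sk.diag]
  have h3 : dg W v Xᶜ = ∑ j ∈ Xᶜ, W v j := rfl
  rw [h2, h3]
  linarith

theorem VioK.crs_compl (h : VioK W k s d a b S) (X : Finset V) : crs W Xᶜ Xᶜᶜ = crs W X Xᶜ := by
  rw [compl_compl]
  unfold crs
  rw [Finset.sum_comm]
  exact Finset.sum_congr rfl fun i _ => Finset.sum_congr rfl fun j _ => h.sk.symm j i

theorem VioK.inn_le (h : VioK W k s d a b S) {X : Finset V} (hX : crs W X Xᶜ = a + b + s) :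
    inn W X ≤ a + b + s := by
  have h1 : inn W X = ∑ v ∈ X, dg W v X := rfl
  have h2 : crs W X Xᶜ = ∑ v ∈ X, dg W v Xᶜ := rfl
  rw [h1, ← hX, h2]
  refine Finset.sum_le_sum fun v hv => ?_
  have h3 := h.gapX hX hv
  have h4 := h.sk.knn v
  linarith

theorem VioK.df_le (h : VioK W k s d a b S) {e : V → ℤ} (he : IsSign e)
    (h1 : en W e = 2 * s) : |df W e| ≤ 2 * s := by
  have hX := h.of_en he h1
  have h3 := df_sg W h.sk (pos e)
  rw [sg_pos he] at h3
  have h4 := h.inn_le hX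
  have h5 := h.inn_le (X := (pos e)ᶜ) (by rw [h.crs_compl, hX])
  have h6 := tot_splitK h.sk (pos e)
  rw [h.tot, hX] at h6
  rw [h3, abs_le]
  constructor <;> linarith

theorem VioK.gap_sum (h : VioK W k s d a b S) : ∑ v ∈ S, (dg W v Sᶜ - dg W v S) = s - d := by
  have h1 : ∑ v ∈ S, dg W v S = 2 * a := h.ha
  have h2 : ∑ v ∈ S, dg W v Sᶜ = a + b + s := h.cr
  rw [Finset.sum_sub_distrib, h1, h2]
  have := h.hd
  linarith

/-- the mask of `S` is an object -/
theorem mskT_OO (h : OO W k) (S : Finset V) : OO (msk W S) (mkk k S) := by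
  have h1 := msk_symK h.toSymK S
  refine ⟨⟨h1, fun i j hij => ?_⟩, fun i j hij => ?_⟩
  · have k1 := h1.knn i
    have k2 := h1.knn j
    unfold msk
    by_cases hc : i ∈ S ∧ j ∈ S
    · rw [if_pos hc]
      unfold mkk
      rw [if_pos hc.1, if_pos hc.2]
      exact h.le i j hij
    · rw [if_neg hc]
      exact mul_nonneg (by linarith) (by linarith)
  · unfold msk
    by_cases hc : i ∈ S ∧ j ∈ S
    · rw [if_pos hc]
      exact h.nn i j hij
    · rw [if_neg hc]

theorem df_msk (W : V → V → ℤ) (S : Finset V) (e : V → ℤ) :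
    df (msk W S) e = ∑ i ∈ S, dg W i S * e i := by
  have h1 := msk_sum W S (fun i _ => e i)
  unfold df
  rw [h1]
  refine Finset.sum_congr rfl fun i _ => ?_
  unfold dg
  rw [Finset.sum_mul]

theorem df_glue (W : V → V → ℤ) (S : Finset V) (e f : V → ℤ) (σ : ℤ) :
    df W (glue S e f σ) = ∑ i ∈ S, dg W i univ * e i + σ * ∑ i ∈ Sᶜ, dg W i univ * f i := by
  unfold df
  rw [← Finset.sum_add_sum_compl S, Finset.mul_sum]
  congr 1
  · refine Finset.sum_congr rfl fun i hi => ?_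
    unfold glue dg
    rw [if_pos hi, Finset.sum_mul]
  · refine Finset.sum_congr rfl fun i hi => ?_
    unfold glue dg
    rw [if_neg (mem_compl.1 hi), ← Finset.sum_mul]
    ring

theorem dg_split (W : V → V → ℤ) (v : V) (S : Finset V) :
    dg W v univ = dg W v S + dg W v Sᶜ := by
  unfold dg
  exact (Finset.sum_add_sum_compl S _).symm

theorem alpha_df (h : VioK W k s d a b S) {e : V → ℤ} (he : IsSign e) :
    |∑ i ∈ S, dg W i univ * e i - 2 * df (msk W S) e| ≤ s - d := by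
  have h1 : ∑ i ∈ S, dg W i univ * e i - 2 * df (msk W S) e =
      ∑ i ∈ S, (dg W i Sᶜ - dg W i S) * e i := by
    rw [df_msk, Finset.mul_sum, ← Finset.sum_sub_distrib]
    refine Finset.sum_congr rfl fun i _ => ?_
    rw [dg_split W i S]
    ring
  rw [h1, ← h.gap_sum]
  refine (Finset.abs_sum_le_sum_abs _ _).trans (Finset.sum_le_sum fun i hi => ?_)
  have h2 : |e i| = 1 := by rcases he i with h | h <;> rw [h] <;> norm_num
  have h3 := h.gapX h.cr hi
  have h4 := h.sk.knn i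
  rw [abs_mul, h2, mul_one, abs_of_nonneg (by linarith)]

/-- the tight case of the block rule -/
theorem VioK.tight (h : VioK W k s d a b S) {tA tB : ℤ}
    (hA : T (a + ∑ i ∈ S, k i) + ∑ i ∈ S, k i = tA)
    (hB : T (b + ∑ i ∈ Sᶜ, k i) + ∑ i ∈ Sᶜ, k i = tB) (ht : tA + tB = s) :
    Sb (msk W S) tA ∧ ∃ f : V → ℤ, IsSign f ∧ ∀ e : V → ℤ, IsSign e →
      en (msk W S) e = 2 * tA → en W (glue S e f 1) = 2 * s ∧ en W (glue S e f (-1)) = 2 * s := by
  obtain ⟨e₀, he₀, h1⟩ := exists_sign (msk_symK h.sk S) (m := a) (by rw [msk_inn, h.ha])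
  obtain ⟨f, hf, h2⟩ := exists_sign (msk_symK h.sk Sᶜ) (m := b) (by rw [msk_inn, h.hb])
  rw [sum_mkk] at h1 h2
  rw [hA] at h1
  rw [hB] at h2
  have key : ∀ e : V → ℤ, IsSign e → ∀ f : V → ℤ, IsSign f →
      en W (glue S e f 1) ≤ 2 * s ∧ en W (glue S e f (-1)) ≤ 2 * s ∧
      en W (glue S e f 1) + en W (glue S e f (-1)) =
        2 * en (msk W S) e + 2 * en (msk W Sᶜ) f := by
    intro e he f hf
    refine ⟨h.sb _ (glue_sign S he hf (Or.inl rfl)), h.sb _ (glue_sign S he hf (Or.inr rfl)), ?_⟩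
    rw [glue_en h.sk S (Or.inl rfl), glue_en h.sk S (Or.inr rfl)]
    ring
  refine ⟨fun e he => ?_, f, hf, fun e he h3 => ?_⟩
  · obtain ⟨g1, g2, g3⟩ := key e he f hf
    linarith
  · obtain ⟨g1, g2, g3⟩ := key e he f hf
    constructor <;> linarith

/-- the differences in the tight case -/
theorem VioK.tight_bound (h : VioK W k s d a b S) {tA tB : ℤ}
    (hA : T (a + ∑ i ∈ S, k i) + ∑ i ∈ S, k i = tA)
    (hB : T (b + ∑ i ∈ Sᶜ, k i) + ∑ i ∈ Sᶜ, k i = tB) (ht : tA + tB = s)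
    (hsd : s - d = 4) (hd : 5 ≤ d)
    (h19 : ∃ e : V → ℤ, IsSign e ∧ en (msk W S) e = 2 * tA ∧ |df (msk W S) e| ≤ 2) :
    ∀ e : V → ℤ, IsSign e → en (msk W S) e = 2 * tA → |∑ i ∈ S, dg W i univ * e i| ≤ 4 := by
  obtain ⟨_, f, hf, hg⟩ := h.tight hA hB ht
  set y : ℤ := ∑ i ∈ Sᶜ, dg W i univ * f i with hy
  have key : ∀ e : V → ℤ, IsSign e → en (msk W S) e = 2 * tA →
      2 * d ≤ |∑ i ∈ S, dg W i univ * e i + y| ∧ 2 * d ≤ |∑ i ∈ S, dg W i univ * e i - y| ∧
      |∑ i ∈ S, dg W i univ * e i + y| ≤ 2 * s ∧ |∑ i ∈ S, dg W i univ * e i - y| ≤ 2 * s := by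
    intro e he h1
    obtain ⟨g1, g2⟩ := hg e he h1
    have s1 := glue_sign S he hf (Or.inl rfl : (1 : ℤ) = 1 ∨ (1 : ℤ) = -1)
    have s2 := glue_sign S he hf (Or.inr rfl : (-1 : ℤ) = 1 ∨ (-1 : ℤ) = -1)
    have d1 := h.df_ge s1 g1
    have d2 := h.df_ge s2 g2
    have d3 := h.df_le s1 g1
    have d4 := h.df_le s2 g2
    rw [df_glue, ← hy, one_mul] at d1 d3
    rw [df_glue, ← hy, neg_one_mul, ← sub_eq_add_neg] at d2 d4
    exact ⟨d1, d2, d3, d4⟩
  have hy2 : 2 * d ≤ |y| := by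
    obtain ⟨e, he, h1, h2⟩ := h19
    obtain ⟨k1, k2, _, _⟩ := key e he h1
    have h3 := alpha_df h he
    rw [hsd] at h3
    generalize (∑ i ∈ S, dg W i univ * e i) = x at *
    generalize df (msk W S) e = z at *
    rw [abs_le] at h2 h3
    rcases abs_cases (x + y) with ⟨a1, _⟩ | ⟨a1, _⟩ <;>
    rcases abs_cases (x - y) with ⟨a2, _⟩ | ⟨a2, _⟩ <;>
    rcases abs_cases y with ⟨a3, _⟩ | ⟨a3, _⟩ <;>
    rw [a1] at k1 <;> rw [a2] at k2 <;> rw [a3] <;> omega
  intro e he h1
  obtain ⟨k1, k2, k3, k4⟩ := key e he h1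
  generalize (∑ i ∈ S, dg W i univ * e i) = x at *
  rw [abs_le] at k3 k4 ⊢
  rcases abs_cases (x + y) with ⟨a1, _⟩ | ⟨a1, _⟩ <;>
  rcases abs_cases (x - y) with ⟨a2, _⟩ | ⟨a2, _⟩ <;>
  rcases abs_cases y with ⟨a3, _⟩ | ⟨a3, _⟩ <;>
  rw [a1] at k1 <;> rw [a2] at k2 <;> rw [a3] at hy2 <;> constructor <;> omega

theorem T19 : T 19 = 5 := T_val 19 5 (by norm_num) (by decide +kernel)

theorem VioK.tight_df (h : VioK W k s d 19 b S) {tB : ℤ}
    (hA : T (19 + ∑ i ∈ S, k i) + ∑ i ∈ S, k i = 5)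
    (hB : T (b + ∑ i ∈ Sᶜ, k i) + ∑ i ∈ Sᶜ, k i = tB) (ht : 5 + tB = s)
    (hsd : s - d = 4) (hd : 5 ≤ d)
    (h19 : ∃ e : V → ℤ, IsSign e ∧ en (msk W S) e = 2 * 5 ∧ |df (msk W S) e| ≤ 2)
    {e : V → ℤ} (he : IsSign e) (h1 : en (msk W S) e = 2 * 5) : |df (msk W S) e| = 2 := by
  have h2 := h.tight_bound hA hB ht hsd hd h19 e he h1
  have h3 := alpha_df h he
  rw [hsd] at h3
  obtain ⟨l, hl⟩ := df_par (msk_symK h.sk S) (m := 19) (u := 7) (by rw [T19]; norm_num)
    (by rw [msk_inn, h.ha]) he (by rw [T19]; exact h1)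
  rw [hl] at h3 ⊢
  generalize (∑ i ∈ S, dg W i univ * e i) = x at *
  rw [abs_le] at h2 h3
  have h4 : l = -3 ∨ l = -4 := by omega
  rcases h4 with h4 | h4 <;> rw [h4] <;> norm_num

/-- the tight side lemma: the heavy side has 19 edges and no loops -/
theorem VioK.tight_kill (h : VioK W k s d 19 b S) (hk : ∀ i ∈ S, k i = 0) {tB : ℤ}
    (hB : T (b + ∑ i ∈ Sᶜ, k i) + ∑ i ∈ Sᶜ, k i = tB) (ht : 5 + tB = s)
    (hsd : s - d = 4) (hd : 5 ≤ d) : False := by
  have hK : ∑ i ∈ S, k i = 0 := Finset.sum_eq_zero hk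
  have hA : T (19 + ∑ i ∈ S, k i) + ∑ i ∈ S, k i = 5 := by rw [hK, add_zero, add_zero, T19]
  obtain ⟨hSb, _⟩ := h.tight hA hB ht
  have hH := mskT_OO h.oo S
  have hHs := hH.toSymK
  have hinn : inn (msk W S) univ = 2 * 19 := by rw [msk_inn, h.ha]
  have hkk : ∀ i, mkk k S i = 0 := by
    intro i
    unfold mkk
    by_cases hi : i ∈ S
    · rw [if_pos hi]; exact hk i hi
    · rw [if_neg hi]
  have h19 : ∃ e : V → ℤ, IsSign e ∧ en (msk W S) e = 2 * 5 ∧ |df (msk W S) e| ≤ 2 := by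
    have := base_D_19_0 hH (by rw [sum_mkk, hK]) hinn hSb
    simpa using this
  have hval : ∀ i j, msk W S i j = 0 ∨ msk W S i j = 1 := by
    intro i j
    by_cases hij : i = j
    · left; rw [hij, hHs.diag, hkk]; norm_num
    · have h1 := hH.le i j hij
      have h2 := hH.nn i j hij
      rw [hkk, hkk] at h1
      omega
  have hdg : ∀ v ∈ S, ∀ X : Finset V, 0 ≤ dg (msk W S) v X := fun v _ X =>
    Finset.sum_nonneg fun j _ => by rcases hval v j with h1 | h1 <;> rw [h1] <;> norm_num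
  have hoff : ∀ v, v ∉ S → ∀ X : Finset V, dg (msk W S) v X = 0 := fun v hv X =>
    Finset.sum_eq_zero fun j _ => by unfold msk; rw [if_neg fun h' => hv h'.1]
  have hon : ∀ v ∈ S, dg (msk W S) v univ = dg W v S := by
    intro v hv
    unfold dg
    have e1 : ∀ j, msk W S v j = if j ∈ S then W v j else 0 := by
      intro j
      unfold msk
      by_cases hj : j ∈ S
      · rw [if_pos ⟨hv, hj⟩, if_pos hj]
      · rw [if_neg fun h' => hj h'.2, if_neg hj]
    rw [Finset.sum_congr rfl fun j _ => e1 j, Finset.sum_ite_mem, Finset.univ_inter]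
  have hdf : ∀ X : Finset V, crs (msk W S) X Xᶜ = 12 → en (msk W S) (sg X) = 2 * 5 := by
    intro X hX
    rw [Pool.Agent.QFO.en_sg hHs X, hX, hinn]; norm_num
  have hcle : ∀ X : Finset V, crs (msk W S) X Xᶜ ≤ 12 := by
    intro X
    have h1 := hSb (sg X) (sg_sign X)
    rw [Pool.Agent.QFO.en_sg hHs X, hinn] at h1
    linarith
  have G : G19 (msk W S) := by
    refine ⟨hHs.symm, fun i => by rw [hHs.diag, hkk]; norm_num, hval, by rw [hinn]; norm_num, hcle,
      fun X hX => ?_, fun X hX v hv hpos => ?_⟩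
    · have h1 := h.tight_df hA hB ht hsd hd h19 (sg_sign X) (hdf X hX)
      rw [df_sg _ hHs X] at h1
      exact h1
    · by_contra hcon
      rw [not_lt] at hcon
      have hvS : v ∈ S := by
        by_contra hvS
        rw [hoff v hvS] at hpos
        exact absurd hpos (lt_irrefl _)
      have hd0 : ∑ j ∈ X.erase v, msk W S v j = dg (msk W S) v X := by
        unfold dg
        rw [← Finset.add_sum_erase X _ hv, hHs.diag, hkk]
        ring
      have hd1 : ∑ j ∈ Xᶜ, msk W S v j = dg (msk W S) v Xᶜ := rfl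
      have e1 := crsK_erase hHs X hv
      rw [hd0, hd1, hX] at e1
      have e2 := hcle (X.erase v)
      rw [e1] at e2
      have e3 : dg (msk W S) v X = dg (msk W S) v Xᶜ := by linarith
      rw [e3] at e1
      have e4 : crs (msk W S) (X.erase v) (X.erase v)ᶜ = 12 := by linarith
      have e5 := dg_split (msk W S) v X
      rw [hon v hvS, e3] at e5
      rw [hon v hvS] at hpos
      have b1 := h.tight_bound hA hB ht hsd hd h19 _ (sg_sign X) (hdf X hX)
      have b2 := h.tight_bound hA hB ht hsd hd h19 _ (sg_sign (X.erase v)) (hdf _ e4)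
      have b3 : ∑ i ∈ S, dg W i univ * sg X i - ∑ i ∈ S, dg W i univ * sg (X.erase v) i =
          2 * dg W v univ := by
        rw [← Finset.sum_sub_distrib]
        have e6 : ∀ i ∈ S, dg W i univ * sg X i - dg W i univ * sg (X.erase v) i =
            if i = v then 2 * dg W v univ else 0 := by
          intro i _
          unfold sg
          by_cases hiv : i = v
          · rw [hiv, if_pos hv, if_neg (notMem_erase v X), if_pos rfl]
            ring
          · rw [if_neg hiv]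
            by_cases hiX : i ∈ X
            · rw [if_pos hiX, if_pos (mem_erase.2 ⟨hiv, hiX⟩)]
              ring
            · rw [if_neg hiX, if_neg fun h' => hiX (mem_of_mem_erase h')]
              ring
        rw [Finset.sum_congr rfl e6, Finset.sum_ite_eq' S v, if_pos hvS]
      have e7 := dg_split W v S
      have e8 := h.gapX h.cr hvS
      rw [hk v hvS] at e8
      rw [abs_le] at b1 b2
      have g1 : dg W v S = 2 := by omega
      have g2 : dg W v Sᶜ = 2 := by omega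
      -- flip `v`
      have f0 : ∑ j ∈ S.erase v, W v j = 2 := by
        rw [← g1]
        unfold dg
        rw [← Finset.add_sum_erase S _ hvS, h.sk.diag, hk v hvS]
        ring
      have f0' : ∑ j ∈ Sᶜ, W v j = 2 := g2
      have f1 := crsK_erase h.sk S hvS
      have f2 := innK_erase h.sk S hvS
      have f3 := innK_erase_compl h.sk S hvS
      rw [f0, f0', h.cr] at f1
      rw [f0, h.ha, hk v hvS] at f2
      rw [f0', h.hb, hk v hvS] at f3
      have f4 := h.min _ (by rw [f1]; ring)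
      rw [f2, f3] at f4
      have f5 := h.hd
      rcases abs_cases (2 * 19 - 2 * 2 + 2 * 0 - (2 * b + 2 * 2 - 2 * 0)) with ⟨f6, _⟩ | ⟨f6, _⟩ <;>
        rw [f6] at f4 <;> linarith
  obtain ⟨e, he, h1, _⟩ := h19
  refine G.false (X₀ := pos e) ?_
  rw [← sg_pos he, Pool.Agent.QFO.en_sg hHs, hinn] at h1
  linarith

end

/-- (75), K = 0 -/
theorem base_D_75_0 {W : V → V → ℤ} {k : V → ℤ} (h : OO W k) (hK : ∑ i, k i = 0)
    (hm : inn W univ = 2 * 75) (hs : Sb W 9) :
    ∃ e : V → ℤ, IsSign e ∧ en W e = 2 * 9 ∧ |df W e| ≤ 2 * 3 := by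
  have hT : T 75 = 9 := T_val 75 9 (by norm_num) (by decide +kernel)
  have hT14 : T 14 = 4 := T_val 14 4 (by norm_num) (by decide +kernel)
  by_contra hcon
  rw [← hT] at hs hcon
  obtain ⟨S, a, b, hv, h1, h2, h3, h4⟩ := exists_vioK (u := 33) (D := 3) (by rw [hT]; norm_num)
    (by norm_num) h hm hs hcon
  have hk0 : ∀ i, k i = 0 := fun i =>
    (Finset.sum_eq_zero_iff_of_nonneg fun a _ => h.knn a).1 hK i (mem_univ i)
  have hK1 : ∑ i ∈ S, k i = 0 := Finset.sum_eq_zero fun i _ => hk0 i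
  have hK2 : ∑ i ∈ Sᶜ, k i = 0 := Finset.sum_eq_zero fun i _ => hk0 i
  rw [hT] at hv h3 h4
  rw [hK1] at h3 h4
  have hd : a - b = 5 := by
    by_contra hne
    have hd5 : a - b = 7 ∨ a - b = 9 := by omega
    rcases hd5 with hd5 | hd5
    · have ha : a = 20 := by omega
      rw [hd5, ha] at h4
      norm_num at h4
    · have ha : a = 21 := by omega
      rw [hd5, ha] at h4
      norm_num at h4
  have ha : a = 19 := by omega
  have hb : b = 14 := by omega
  subst ha hb
  norm_num at hv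
  exact hv.tight_kill (fun i _ => hk0 i) (tB := 4) (by rw [hK2, add_zero, add_zero, hT14])
    (by norm_num) (by norm_num) (by norm_num)

end Pool.Agent.QFO
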