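import Pool.Agent.QFO.CritD

/-!
# [QFO-V] the vertex level, no loops: violating cuts, mirror cuts, and the kill criterion

`Vio W s d a b S`: `W` is the adjacency matrix of a graph, `(S, Sᶜ)` is a maximum cut with `a` edges in `S`, `b`
in `Sᶜ`, surplus `s`, `d = a - b > 0` is the least difference over all maximum cuts, and `s < 3 d`.
-/

set_option autoImplicit false
set_option linter.unusedSectionVars false

namespace Pool.Agent.QFO

open Finset Pool.Agent.MP_710317_co.Rec Pool.Agent.MXC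

variable {V : Type*} [Fintype V] [DecidableEq V]

/-- a violating cut -/
structure Vio (W : V → V → ℤ) (s d a b : ℤ) (S : Finset V) : Prop where
  symm : ∀ i j, W i j = W j i
  diag : ∀ i, W i i = 0
  nn : ∀ i j, 0 ≤ W i j
  le : ∀ i j, W i j ≤ 1
  opt : ∀ X : Finset V, crs W X Xᶜ ≤ a + b + s
  cr : crs W S Sᶜ = a + b + s
  ha : inn W S = 2 * a
  hb : inn W Sᶜ = 2 * b
  hd : a - b = d
  dpos : 0 < d
  ds : s < 3 * d
  min : ∀ X : Finset V, crs W X Xᶜ = a + b + s → 2 * d ≤ |inn W X - inn W Xᶜ|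

/-- weight from `v` to `A` -/
def dg (W : V → V → ℤ) (v : V) (A : Finset V) : ℤ := ∑ j ∈ A, W v j

section

variable {W : V → V → ℤ} {s d a b : ℤ} {S : Finset V}

theorem Vio.sk (h : Vio W s d a b S) : SymK W (fun _ => 0) :=
  ⟨h.symm, fun i => by rw [h.diag]; ring, fun _ => le_rfl⟩

theorem Vio.val (h : Vio W s d a b S) (i j : V) : W i j = 0 ∨ W i j = 1 := by
  have h1 := h.nn i j
  have h2 := h.le i j
  omega

theorem dg_nn (h : Vio W s d a b S) (v : V) (A : Finset V) : 0 ≤ dg W v A :=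
  Finset.sum_nonneg fun j _ => h.nn v j

theorem dg_erase (h : Vio W s d a b S) (v : V) (A : Finset V) : dg W v (A.erase v) = dg W v A := by
  unfold dg
  by_cases hv : v ∈ A
  · rw [← Finset.add_sum_erase A _ hv, h.diag, zero_add]
  · rw [Finset.erase_eq_of_notMem hv]

theorem dg_le_card (h : Vio W s d a b S) (v : V) (A : Finset V) : dg W v A ≤ A.card := by
  unfold dg
  calc ∑ j ∈ A, W v j ≤ ∑ j ∈ A, (1 : ℤ) := Finset.sum_le_sum fun j _ => h.le v j
    _ = A.card := by simp

/-- if the weight to `A` is `|A|` then `v` is joined to all of `A` -/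
theorem dg_full (h : Vio W s d a b S) {v : V} {A : Finset V} (hA : (A.card : ℤ) ≤ dg W v A) :
    ∀ j ∈ A, W v j = 1 := by
  intro j hj
  by_contra hne
  have h0 : W v j = 0 := (h.val v j).resolve_right hne
  have h1 : dg W v A = dg W v (A.erase j) := by
    unfold dg
    rw [← Finset.add_sum_erase A _ hj, h0, zero_add]
  have h2 := dg_le_card h v (A.erase j)
  have h3 := Finset.card_erase_add_one hj
  have h4 : ((A.erase j).card : ℤ) + 1 = A.card := by exact_mod_cast h3
  linarith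

/-- the effect of moving `v` out of `X` -/
theorem crs_move (h : Vio W s d a b S) (X : Finset V) {v : V} (hv : v ∈ X) :
    crs W (X.erase v) (X.erase v)ᶜ = crs W X Xᶜ + dg W v X - dg W v Xᶜ := by
  rw [crsK_erase h.sk X hv, ← dg_erase h v X]
  rfl

theorem inn_move (h : Vio W s d a b S) (X : Finset V) {v : V} (hv : v ∈ X) :
    inn W (X.erase v) = inn W X - 2 * dg W v X := by
  rw [innK_erase h.sk X hv, ← dg_erase h v X]
  unfold dg
  ring

theorem inn_move_compl (h : Vio W s d a b S) (X : Finset V) {v : V} (hv : v ∈ X) :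
    inn W (X.erase v)ᶜ = inn W Xᶜ + 2 * dg W v Xᶜ := by
  rw [innK_erase_compl h.sk X hv]
  unfold dg
  ring

/-- the total -/
theorem Vio.tot (h : Vio W s d a b S) (X : Finset V) :
    inn W X + inn W Xᶜ + 2 * crs W X Xᶜ = 4 * (a + b) + 2 * s := by
  have h1 := tot_splitK h.sk X
  have h2 := tot_splitK h.sk S
  rw [h.ha, h.hb, h.cr] at h2
  linarith

theorem in_le (h : Vio W s d a b S) {X : Finset V} (hX : crs W X Xᶜ = a + b + s) {v : V}
    (hv : v ∈ X) : dg W v X ≤ dg W v Xᶜ := by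
  have h1 := h.opt (X.erase v)
  rw [crs_move h X hv, hX] at h1
  linarith

theorem sum_dg (A B : Finset V) : ∑ v ∈ A, dg W v B = crs W A B := rfl

theorem inn_le (h : Vio W s d a b S) {X : Finset V} (hX : crs W X Xᶜ = a + b + s) :
    inn W X ≤ a + b + s := by
  have h1 : inn W X = ∑ v ∈ X, dg W v X := rfl
  rw [h1, ← hX, ← sum_dg]
  exact Finset.sum_le_sum fun v hv => in_le h hX hv

/-- lower bound for the difference at a maximum cut -/
theorem diff_ge (h : Vio W s d a b S) {X : Finset V} (hX : crs W X Xᶜ = a + b + s) :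
    -(2 * s) ≤ inn W X - inn W Xᶜ := by
  have hX' : crs W Xᶜ Xᶜᶜ = a + b + s := by
    rw [compl_compl, ← hX]
    unfold crs
    rw [Finset.sum_comm]
    exact Finset.sum_congr rfl fun i _ => Finset.sum_congr rfl fun j _ => h.symm j i
  have h1 := inn_le h hX'
  have h2 := h.tot X
  rw [hX] at h2
  linarith

/-- sum of the gaps -/
theorem gap_sum (h : Vio W s d a b S) : ∑ v ∈ S, (dg W v Sᶜ - dg W v S) = s - d := by
  rw [Finset.sum_sub_distrib, sum_dg, h.cr]
  have h1 : ∑ v ∈ S, dg W v S = 2 * a := h.ha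
  have := h.hd
  linarith

/-- a vertex of gap `0` -/
theorem zero_gap (h : Vio W s d a b S) {z : V} (hz : z ∈ S) (hg : dg W z S = dg W z Sᶜ) :
    dg W z S = 0 ∨ d ≤ dg W z S := by
  have h1 : crs W (S.erase z) (S.erase z)ᶜ = a + b + s := by
    rw [crs_move h S hz, h.cr]; linarith
  have h2 := h.min _ h1
  rw [inn_move h S hz, inn_move_compl h S hz, h.ha, h.hb, ← hg] at h2
  have h3 := h.hd
  have h4 := dg_nn h z S
  rcases abs_cases (2 * a - 2 * dg W z S - (2 * b + 2 * dg W z S)) with ⟨h5, _⟩ | ⟨h5, _⟩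
  · rw [h5] at h2; left; linarith
  · rw [h5] at h2; right; linarith

/-- the zero-gap vertices with a neighbour in `S` -/
def Zs (W : V → V → ℤ) (S : Finset V) : Finset V :=
  S.filter fun v => dg W v S = dg W v Sᶜ ∧ 0 < dg W v S

/-- the vertices with a positive gap -/
def Ps (W : V → V → ℤ) (S : Finset V) : Finset V := S.filter fun v => dg W v S < dg W v Sᶜ

theorem mem_Zs {v : V} : v ∈ Zs W S ↔ v ∈ S ∧ dg W v S = dg W v Sᶜ ∧ 0 < dg W v S := by
  unfold Zs; rw [mem_filter]

theorem mem_Ps {v : V} : v ∈ Ps W S ↔ v ∈ S ∧ dg W v S < dg W v Sᶜ := by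
  unfold Ps; rw [mem_filter]

theorem Zs_Ps_disj : Disjoint (Zs W S) (Ps W S) := by
  rw [Finset.disjoint_left]
  intro v h1 h2
  have h3 := (mem_Zs.1 h1).2.1
  have h4 := (mem_Ps.1 h2).2
  linarith

theorem Zs_ge (h : Vio W s d a b S) {z : V} (hz : z ∈ Zs W S) : d ≤ dg W z S := by
  obtain ⟨h1, h2, h3⟩ := mem_Zs.1 hz
  rcases zero_gap h h1 h2 with h4 | h4
  · linarith
  · exact h4

theorem Ps_card (h : Vio W s d a b S) : ((Ps W S).card : ℤ) ≤ s - d := by
  rw [← gap_sum h]
  calc ((Ps W S).card : ℤ) = ∑ v ∈ Ps W S, (1 : ℤ) := by simp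
    _ ≤ ∑ v ∈ Ps W S, (dg W v Sᶜ - dg W v S) := by
        refine Finset.sum_le_sum fun v hv => ?_
        have := (mem_Ps.1 hv).2
        linarith [Int.add_one_le_iff.2 this]
    _ ≤ ∑ v ∈ S, (dg W v Sᶜ - dg W v S) := by
        refine Finset.sum_le_sum_of_subset_of_nonneg (filter_subset _ _) fun v hv _ => ?_
        linarith [in_le h h.cr hv]

/-- outside `Z ∪ P` there is no edge inside `S` -/
theorem off_U (h : Vio W s d a b S) {v : V} (hv : v ∈ S) (hv2 : v ∉ Zs W S ∪ Ps W S) :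
    dg W v S = 0 := by
  by_contra hne
  have h1 := dg_nn h v S
  have h2 : 0 < dg W v S := lt_of_le_of_ne h1 (Ne.symm hne)
  rcases eq_or_lt_of_le (in_le h h.cr hv) with h3 | h3
  · exact hv2 (mem_union_left _ (mem_Zs.2 ⟨hv, h3, h2⟩))
  · exact hv2 (mem_union_right _ (mem_Ps.2 ⟨hv, h3⟩))

theorem sub_U : Zs W S ∪ Ps W S ⊆ S := union_subset (filter_subset _ _) (filter_subset _ _)

/-- the neighbours inside `S` are in `Z ∪ P` -/
theorem dg_U (h : Vio W s d a b S) (v : V) : v ∈ S → dg W v S = dg W v (Zs W S ∪ Ps W S) := by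
  intro hv
  unfold dg
  refine (Finset.sum_subset sub_U fun j hj hj2 => ?_).symm
  have h1 := off_U h hj hj2
  have h2 : W j v ≤ dg W j S := Finset.single_le_sum (f := fun x => W j x) (fun x _ => h.nn j x) hv
  have h3 := h.nn j v
  rw [h.symm v j]
  linarith

/-- `Z` is complete -/
theorem Zs_clique (h : Vio W s d a b S) {z z' : V} (hz : z ∈ Zs W S) (hz' : z' ∈ Zs W S)
    (hne : z ≠ z') : W z z' = 1 := by
  by_contra hcon
  have h0 : W z z' = 0 := (h.val z z').resolve_right hcon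
  obtain ⟨h1, h2, _⟩ := mem_Zs.1 hz
  obtain ⟨h1', h2', _⟩ := mem_Zs.1 hz'
  have h3 : crs W (S.erase z) (S.erase z)ᶜ = a + b + s := by
    rw [crs_move h S h1, h.cr]; linarith
  have hz'e : z' ∈ S.erase z := mem_erase.2 ⟨Ne.symm hne, h1'⟩
  have e1 : dg W z' (S.erase z) = dg W z' S := by
    unfold dg
    rw [← Finset.add_sum_erase S _ h1, h.symm z' z, h0, zero_add]
  have e2 : dg W z' (S.erase z)ᶜ = dg W z' Sᶜ := by
    have e3 : (S.erase z)ᶜ = insert z Sᶜ := by
      ext x
      simp only [mem_compl, mem_erase, mem_insert]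
      tauto
    unfold dg
    rw [e3, Finset.sum_insert (by simpa using h1), h.symm z' z, h0, zero_add]
  have h4 : crs W ((S.erase z).erase z') ((S.erase z).erase z')ᶜ = a + b + s := by
    rw [crs_move h _ hz'e, h3, e1, e2]; linarith
  have h5 := diff_ge h h4
  have h6 := h.tot ((S.erase z).erase z')
  rw [h4] at h6
  rw [inn_move h _ hz'e, inn_move h S h1, e1, h.ha] at h5 h6
  have h7 := Zs_ge h hz
  have h8 := Zs_ge h hz'
  have h9 := h.hd
  have h10 := h.ds
  linarith

/-- the mirror cut -/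
theorem mirror (h : Vio W s d a b S) {z : V} (hz : z ∈ S) (h1 : dg W z S = d)
    (h2 : dg W z Sᶜ = d) : Vio W s d a b (S.erase z)ᶜ := by
  have hc : crs W (S.erase z)ᶜ (S.erase z)ᶜᶜ = a + b + s := by
    have h3 : crs W (S.erase z) (S.erase z)ᶜ = a + b + s := by
      rw [crs_move h S hz, h.cr, h1, h2]; ring
    rw [compl_compl, ← h3]
    unfold crs
    rw [Finset.sum_comm]
    exact Finset.sum_congr rfl fun i _ => Finset.sum_congr rfl fun j _ => h.symm j i
  refine ⟨h.symm, h.diag, h.nn, h.le, h.opt, hc, ?_, ?_, h.hd, h.dpos, h.ds, h.min⟩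
  · rw [inn_move_compl h S hz, h.hb, h2]
    have := h.hd
    linarith
  · rw [compl_compl, inn_move h S hz, h.ha, h1]
    have := h.hd
    linarith

end

end Pool.Agent.QFO
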